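import Pool.Agent.Lib.MP_1db5af_an.Th.ABase

set_option autoImplicit false

namespace Pool.Agent.Lib.MP_1db5af_an.Th

open MeasureTheory ProbabilityTheory Filter Topology ComplexConjugate
open scoped ENNReal NNReal InnerProductSpace

variable {Z : CS} {A A' B B' D D' : Fc Z} {f : Z.X → ℂ}

theorem aden_zero {W : Fc Z} (hf : Integrable f Z.μ)
    (h : ∀ s, MeasurableSet[W.m] s → ∫ x in s, f x ∂Z.μ = 0) : W.E f =ᵐ[Z.μ] 0 := by
  refine (ae_eq_condExp_of_forall_setIntegral_eq W.le hf (g := 0)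
    (fun s _ _ => integrableOn_zero) (fun s hs _ => ?_) aestronglyMeasurable_zero).symm
  rw [h s hs]
  simp

theorem aden_intg {W : Fc Z} {a : Z.X → ℂ} (ha : BM W a) (hf : Integrable f Z.μ) :
    Integrable (fun x => a x * f x) Z.μ := by
  obtain ⟨⟨C, hC⟩, -⟩ := ha
  exact hf.bdd_mul hC.1 hC.2

theorem aden_int_zero {W : Fc Z} {a : Z.X → ℂ} (ha : BM W a) (hf : Integrable f Z.μ)
    (h : W.E f =ᵐ[Z.μ] 0) : ∫ x, a x * f x ∂Z.μ = 0 := by
  have h1 := condExp_bilin_of_aestronglyMeasurable_left (m := W.m) (μ := Z.μ)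
    (ContinuousLinearMap.mul ℝ ℂ) ha.2 (aden_intg ha hf) hf
  have h2 : W.E (fun x => a x * f x) =ᵐ[Z.μ] fun _ => 0 := by
    filter_upwards [h1, h] with x e1 e2
    refine e1.trans ?_
    change a x * W.E f x = 0
    rw [e2, Pi.zero_apply, mul_zero]
  rw [← int_E (W := W), integral_congr_ae h2, integral_zero]

theorem zero_sup (hf : Integrable f Z.μ)
    (h : ∀ a b, BM A a → BM B b → ∫ x, a x * b x * f x ∂Z.μ = 0) : (A ⊔ B).E f =ᵐ[Z.μ] 0 := by
  have hgen : (A ⊔ B).m = MeasurableSpace.generateFrom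
      {u | ∃ s t, MeasurableSet[A.m] s ∧ MeasurableSet[B.m] t ∧ u = s ∩ t} := by
    rw [Fc.sup_m]
    refine le_antisymm (sup_le (fun s hs => ?_) fun s hs => ?_) ?_
    · exact MeasurableSpace.measurableSet_generateFrom
        ⟨s, Set.univ, hs, MeasurableSet.univ, (Set.inter_univ s).symm⟩
    · exact MeasurableSpace.measurableSet_generateFrom
        ⟨Set.univ, s, MeasurableSet.univ, hs, (Set.univ_inter s).symm⟩
    · refine MeasurableSpace.generateFrom_le ?_
      rintro _ ⟨s, t, hs, ht, rfl⟩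
      exact (le_sup_left (a := A.m) (b := B.m) s hs).inter (le_sup_right (a := A.m) (b := B.m) t ht)
  have hpi : IsPiSystem
      {u | ∃ s t, MeasurableSet[A.m] s ∧ MeasurableSet[B.m] t ∧ u = s ∩ t} := by
    rintro _ ⟨s, t, hs, ht, rfl⟩ _ ⟨s', t', hs', ht', rfl⟩ -
    exact ⟨s ∩ s', t ∩ t', hs.inter hs', ht.inter ht', Set.inter_inter_inter_comm _ _ _ _⟩
  have h0 : ∫ x, f x ∂Z.μ = 0 := by simpa using h _ _ (bm_const 1) (bm_const 1)
  refine aden_zero hf fun s hs => ?_
  refine MeasurableSpace.induction_on_inter (m := (A ⊔ B).m)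
    (C := fun s _ => ∫ x in s, f x ∂Z.μ = 0) hgen hpi (by simp) ?_ ?_ ?_ s hs
  · rintro _ ⟨s, t, hs, ht, rfl⟩
    rw [← integral_indicator ((A.le s hs).inter (B.le t ht)), ← h _ _ (bm_ind hs) (bm_ind ht)]
    refine integral_congr_ae (Eventually.of_forall fun x => ?_)
    by_cases h1 : x ∈ s <;> by_cases h2 : x ∈ t <;> simp [h1, h2]
  · intro t ht e
    have h1 := integral_add_compl ((A ⊔ B).le t ht) hf
    rwa [e, h0, zero_add] at h1
  · intro g hd hm e
    rw [integral_iUnion (fun i => (A ⊔ B).le _ (hm i)) hd hf.integrableOn]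
    simp [e]

theorem zero_row {κ : Type} {J : Finset κ} {R : κ → Fc Z} (hf : Integrable f Z.μ)
    (h : ∀ a : κ → Z.X → ℂ, (∀ i ∈ J, BM (R i) (a i)) → ∫ x, (∏ i ∈ J, a i x) * f x ∂Z.μ = 0) :
    (⨆ i ∈ J, R i).E f =ᵐ[Z.μ] 0 := by
  classical
  induction J using Finset.induction_on generalizing f with
  | empty =>
    have h0 : ∫ x, f x ∂Z.μ = 0 := by simpa using h (fun _ _ => 1) (by simp)
    have e : (⨆ i ∈ (∅ : Finset κ), R i) = ⊥ := by simp
    rw [e]
    refine aden_zero hf ?_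
    rintro s ⟨-, t, ht, e⟩
    rw [setIntegral_congr_set e]
    rcases MeasurableSpace.measurableSet_bot_iff.1 ht with rfl | rfl
    · simp
    · simpa using h0
  | insert i J hi ih =>
    rw [Finset.iSup_insert]
    refine zero_sup hf fun a b ha hb => ?_
    have h1 := aden_int_zero hb (aden_intg ha hf) (ih (aden_intg ha hf) fun c hc => ?_)
    · rw [← h1]
      exact integral_congr_ae (Eventually.of_forall fun x => by ring)
    · rw [← h (Function.update c i a) fun j hj => ?_]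
      · refine integral_congr_ae (Eventually.of_forall fun x => ?_)
        have h2 : ∏ j ∈ J, Function.update c i a j x = ∏ j ∈ J, c j x :=
          Finset.prod_congr rfl fun j hj => by
            rw [Function.update_of_ne (ne_of_mem_of_not_mem hj hi)]
        simp only [Finset.prod_insert hi, Function.update_self, h2]
        ring
      · rcases Finset.mem_insert.1 hj with rfl | hj
        · rwa [Function.update_self]
        · rw [Function.update_of_ne (ne_of_mem_of_not_mem hj hi)]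
          exact hc j hj

/-- Orthogonality to a class closed under scalars and conjugation gives approximation. -/
theorem appr_of_zero {P : (Z.X → ℂ) → Prop} (hP : ∀ v, P v → BM A v)
    (hs : ∀ (c : ℂ) v, P v → P fun x => c * v x) (hc : ∀ v, P v → P fun x => conj (v x))
    (h : ∀ g, MemLp g 2 Z.μ → (∀ v, P v → ∫ x, v x * g x ∂Z.μ = 0) → A.E g =ᵐ[Z.μ] 0)
    (hf : BM A f) : Appr Z.μ P f := by
  intro ε hε
  have h1 : L2 Z.μ f ∈
      (Submodule.span ℂ {w | ∃ v, P v ∧ w = L2 Z.μ v}).topologicalClosure := by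
    rw [← Submodule.orthogonal_orthogonal_eq_closure, Submodule.mem_orthogonal']
    intro g hg
    have hg2 : MemLp g 2 Z.μ := Lp.memLp g
    have h2 := h g hg2 fun v hv => by
      have h3 := (Submodule.mem_orthogonal _ _).1 hg _
        (Submodule.subset_span ⟨_, hc v hv, rfl⟩)
      rw [← L2_Lp g, inner_L2 (hP v hv).star.memLp hg2] at h3
      rw [← h3]
      exact integral_congr_ae (Eventually.of_forall fun x => by simp [mul_comm])
    have h4 := aden_int_zero hf.star (hg2.integrable one_le_two) h2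
    rw [← L2_Lp g, inner_L2 hf.memLp hg2, ← h4]
    exact integral_congr_ae (Eventually.of_forall fun x => mul_comm _ _)
  obtain ⟨w, hw, hd⟩ := Metric.mem_closure_iff.1 h1 ε hε
  obtain ⟨n, c, s, rfl⟩ := Submodule.mem_span_set'.1 hw
  choose v hv hv' using fun l => (s l).2
  have hb : ∀ l, BM A fun x => c l * v l x := fun l => hP _ (hs _ _ (hv l))
  obtain ⟨C, -, hC⟩ := bm_bound (s := Finset.univ) fun l _ => hb l
  refine ⟨n, fun l x => c l * v l x, C, fun l => ⟨hC l (Finset.mem_univ l), hs _ _ (hv l)⟩, ?_⟩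
  rw [L2_sum _ fun l _ => (hb l).memLp, ← dist_eq_norm]
  refine le_of_eq_of_le ?_ hd.le
  congr 1
  refine Finset.sum_congr rfl fun l _ => ?_
  rw [L2_mul _ (hP _ (hv l)).memLp, hv']

theorem appr_sup (hf : BM (A ⊔ B) f) :
    Appr Z.μ (fun v => ∃ a b, BM A a ∧ BM B b ∧ v = fun x => a x * b x) f := by
  refine appr_of_zero (A := A ⊔ B) ?_ ?_ ?_ (fun g hg h => ?_) hf
  · rintro _ ⟨a, b, ha, hb, rfl⟩
    exact (ha.mono le_sup_left).mul (hb.mono le_sup_right)
  · rintro c _ ⟨a, b, ha, hb, rfl⟩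
    exact ⟨_, _, (bm_const c).mul ha, hb, funext fun x => (mul_assoc _ _ _).symm⟩
  · rintro _ ⟨a, b, ha, hb, rfl⟩
    exact ⟨_, _, ha.star, hb.star, funext fun x => map_mul _ _ _⟩
  · exact zero_sup (hg.integrable one_le_two) fun a b ha hb => h _ ⟨a, b, ha, hb, rfl⟩

theorem appr_row {κ : Type} {J : Finset κ} {R : κ → Fc Z} (hJ : J.Nonempty)
    (hf : BM (⨆ i ∈ J, R i) f) :
    Appr Z.μ (fun v => ∃ a : κ → Z.X → ℂ, (∀ i ∈ J, BM (R i) (a i)) ∧
      v = fun x => ∏ i ∈ J, a i x) f := by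
  classical
  obtain ⟨j, hj⟩ := hJ
  refine appr_of_zero (A := ⨆ i ∈ J, R i) ?_ ?_ ?_ (fun g hg h => ?_) hf
  · rintro _ ⟨a, ha, rfl⟩
    exact bm_prod fun i hi => (ha i hi).mono (le_iSup₂ (f := fun i (_ : i ∈ J) => R i) i hi)
  · rintro c _ ⟨a, ha, rfl⟩
    refine ⟨Function.update a j fun x => c * a j x, fun i hi => ?_, funext fun x => ?_⟩
    · by_cases e : i = j
      · subst e
        rw [Function.update_self]
        exact (bm_const c).mul (ha i hi)
      · rw [Function.update_of_ne e]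
        exact ha i hi
    · beta_reduce
      rw [← Finset.mul_prod_erase J _ hj, ← Finset.mul_prod_erase J _ hj, Function.update_self,
        mul_assoc]
      congr 2
      exact Finset.prod_congr rfl fun i hi => by
        rw [Function.update_of_ne (Finset.ne_of_mem_erase hi)]
  · rintro _ ⟨a, ha, rfl⟩
    exact ⟨fun i x => conj (a i x), fun i hi => (ha i hi).star, funext fun x => map_prod _ _ _⟩
  · exact zero_row (hg.integrable one_le_two) fun a ha => h _ ⟨a, ha, rfl⟩

theorem aden_sup_eq {g : Z.X → ℂ} (hf : BM ⊤ f) (hg : BM (A ⊔ B) g)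
    (h : ∀ a b, BM A a → BM B b → ∫ x, a x * b x * f x ∂Z.μ = ∫ x, a x * b x * g x ∂Z.μ) :
    (A ⊔ B).E f =ᵐ[Z.μ] g := by
  have h1 : (A ⊔ B).E (fun x => f x - g x) =ᵐ[Z.μ] 0 := by
    refine zero_sup (hf.sub hg.top).integrable fun a b ha hb => ?_
    have hab := ha.top.mul hb.top
    simp only [mul_sub]
    rw [integral_sub (hab.mul hf).integrable (hab.mul hg.top).integrable, h a b ha hb, sub_self]
  filter_upwards [h1, E_sub (W := A ⊔ B) hf hg.top, hg.E_self] with x e1 e2 e3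
  rw [e2, e3] at e1
  exact sub_eq_zero.1 e1

theorem aden_mul {a b : Z.X → ℂ} (e : D ≤ A) (ha : BM A a) (hb : BM ⊤ b)
    (h : A.E b =ᵐ[Z.μ] D.E b) :
    D.E (fun x => a x * b x) =ᵐ[Z.μ] fun x => D.E a x * D.E b x := by
  have h1 : A.E (fun x => a x * b x) =ᵐ[Z.μ] fun x => D.E b x * a x := by
    filter_upwards [E_mul ha hb, h] with x e1 e2
    rw [e1, e2, mul_comm]
  filter_upwards [E_E (f := fun x => a x * b x) e, E_congr (W := D) h1,
    E_mul (hb.E D) ha.top] with x e1 e2 e3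
  rw [← e1, e2, e3, mul_comm]

theorem ci_iff_mul : CI D A B ↔ ∀ a b, BM A a → BM B b →
    D.E (fun x => a x * b x) =ᵐ[Z.μ] fun x => D.E a x * D.E b x := by
  refine ⟨fun h a b ha hb => aden_mul le_sup_left (ha.mono le_sup_right) hb.top (h b hb),
    fun h b hb => ?_⟩
  refine aden_sup_eq hb.top ((hb.E D).mono le_sup_left) fun d a hd ha => ?_
  have h1 := int_mul_E hd (ha.top.mul hb.top)
  have h2 := int_mul_E (hd.mul (hb.E D)) ha.top
  calc ∫ x, d x * a x * b x ∂Z.μ = ∫ x, d x * (a x * b x) ∂Z.μ := by simp only [mul_assoc]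
    _ = ∫ x, d x * D.E b x * D.E a x ∂Z.μ := by
        rw [← h1]
        refine integral_congr_ae ?_
        filter_upwards [h a b ha hb] with x e
        rw [e]
        ring
    _ = _ := by
        rw [h2]
        exact integral_congr_ae (Eventually.of_forall fun x => by ring)

theorem aden_appr_int {P : (Z.X → ℂ) → Prop} {w : Z.X → ℂ} (hw : BM ⊤ w) (hf : BM ⊤ f)
    (hP : Appr Z.μ P f) (h : ∀ v, BM ⊤ v → P v → ∫ x, v x * w x ∂Z.μ = 0) :
    ∫ x, f x * w x ∂Z.μ = 0 := by
  obtain ⟨C, hC⟩ := hw.1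
  have hC0 := hC.nonneg
  refine norm_le_zero_iff.1 (le_of_forall_pos_le_add fun ε hε => ?_)
  obtain ⟨n, u, K, hu, hd⟩ := hP (ε / (C + 1)) (by positivity)
  have hb : ∀ l, BM ⊤ (u l) := fun l => bm_top_iff.2 ⟨K, (hu l).1⟩
  have hs : BM ⊤ fun x => ∑ l, u l x := bm_sum fun l _ => hb l
  have h1 : ∫ x, (∑ l, u l x) * w x ∂Z.μ = 0 := by
    simp only [Finset.sum_mul]
    rw [integral_finsetSum _ fun l _ => ((hb l).mul hw).integrable]
    exact Finset.sum_eq_zero fun l _ => h _ (hb l) (hu l).2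
  have h2 : ∫ x, f x * w x ∂Z.μ = ∫ x, w x * (f x - ∑ l, u l x) ∂Z.μ := by
    rw [← sub_zero (∫ x, f x * w x ∂Z.μ), ← h1,
      ← integral_sub (hf.mul hw).integrable (hs.mul hw).integrable]
    exact integral_congr_ae (Eventually.of_forall fun x => by ring)
  rw [h2, zero_add]
  refine (norm_integral_le_L2 (hw.mul (hf.sub hs)).memLp).trans
    ((hC.norm_L2_mul (hf.sub hs).memLp).trans ?_)
  rw [L2_sub hf.memLp hs.memLp]
  calc C * ‖L2 Z.μ f - L2 Z.μ fun x => ∑ l, u l x‖ ≤ (C + 1) * (ε / (C + 1)) := by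
        gcongr
        linarith
    _ = ε := by field_simp

theorem aden_phi {a b d : Z.X → ℂ} (ha : BM ⊤ a) (hb : BM ⊤ b) (hd : BM D d) :
    ∫ x, a x * (d x * (b x - D.E b x)) ∂Z.μ =
      ∫ x, d x * (a x * b x) ∂Z.μ - ∫ x, d x * (D.E a x * D.E b x) ∂Z.μ := by
  have h2 := int_mul_E (hd.mul (hb.E D)) ha
  have h3 : ∫ x, d x * (D.E a x * D.E b x) ∂Z.μ = ∫ x, d x * D.E b x * a x ∂Z.μ := by
    rw [← h2]
    exact integral_congr_ae (Eventually.of_forall fun x => by ring)
  rw [h3, ← integral_sub (hd.top.mul (ha.mul hb)).integrable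
    ((hd.top.mul (hb.E D).top).mul ha).integrable]
  exact integral_congr_ae (Eventually.of_forall fun x => by ring)

theorem ci_of_appr {P Q : (Z.X → ℂ) → Prop} (hA : ∀ a, BM A a → Appr Z.μ P a)
    (hB : ∀ b, BM B b → Appr Z.μ Q b)
    (h : ∀ a b, BM ⊤ a → BM ⊤ b → P a → Q b →
      D.E (fun x => a x * b x) =ᵐ[Z.μ] fun x => D.E a x * D.E b x) : CI D A B := by
  refine ci_iff_mul.2 fun a b ha hb => ?_
  refine E_eq_of_int (ha.top.mul hb.top) ((ha.E D).mul (hb.E D)) fun d hd => ?_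
  have h1 : ∫ x, b x * (d x * (a x - D.E a x)) ∂Z.μ = 0 := by
    refine aden_appr_int (hd.top.mul (ha.top.sub (ha.E D).top)) hb.top (hB b hb) fun v hv hQ => ?_
    have h2 : ∫ x, a x * (d x * (v x - D.E v x)) ∂Z.μ = 0 := by
      refine aden_appr_int (hd.top.mul (hv.sub (hv.E D).top)) ha.top (hA a ha) fun w hw hP => ?_
      rw [aden_phi hw hv hd, ← int_mul_E hd (hw.mul hv), sub_eq_zero]
      refine integral_congr_ae ?_
      filter_upwards [h w v hw hv hP hQ] with x e
      rw [e]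
    rw [aden_phi ha.top hv hd] at h2
    rw [aden_phi hv ha.top hd, ← h2]
    simp only [mul_comm (v _) (a _), mul_comm (D.E v _) (D.E a _)]
  rw [aden_phi hb.top ha.top hd, sub_eq_zero] at h1
  simpa only [mul_comm (b _) (a _), mul_comm (D.E b _) (D.E a _)] using h1

theorem ci_of_E (e : D ≤ A) (h : ∀ b, BM B b → BM D (A.E b)) : CI D A B := by
  intro b hb
  rw [sup_eq_right.2 e]
  exact (h b hb).E_self.symm.trans (E_E e)

theorem ci_of_E_appr {Q : (Z.X → ℂ) → Prop} (e : D ≤ A) (hB : ∀ b, BM B b → Appr Z.μ Q b)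
    (h : ∀ b, BM ⊤ b → Q b → BM D (A.E b)) : CI D A B := by
  refine ci_of_appr (P := BM A) (fun a ha ε hε => ?_) hB fun a b _ hb ha hQ =>
    aden_mul e ha hb ((h b hb hQ).E_self.symm.trans (E_E e))
  obtain ⟨C, hC⟩ := ha.1
  exact ⟨1, fun _ => a, C, fun _ => ⟨hC, ha⟩, by simpa using hε.le⟩

theorem CI.E_eq (h : CI D A B) (e : D ≤ A) (hf : BM B f) : A.E f =ᵐ[Z.μ] D.E f := by
  have h1 := h f hf
  rwa [sup_eq_right.2 e] at h1

theorem CI.symm (h : CI D A B) : CI D B A := by
  refine ci_iff_mul.2 fun b a hb ha => ?_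
  simpa only [mul_comm (b _) (a _), mul_comm (D.E b _) (D.E a _)] using
    ci_iff_mul.1 h a b ha hb

theorem CI.mono (h : CI D A B) (e : A' ≤ A) (e' : B' ≤ B) : CI D A' B' :=
  ci_iff_mul.2 fun a b ha hb => ci_iff_mul.1 h a b (ha.mono e) (hb.mono e')

theorem CI.sup_left (h : CI D A B) : CI D (A ⊔ D) B := by
  intro b hb
  rw [sup_comm A D, ← sup_assoc, sup_idem]
  exact h b hb

theorem CI.sup_right (h : CI D A B) : CI D A (B ⊔ D) := h.symm.sup_left.symm

theorem CI.weak (h : CI D A B) (e : D ≤ D') (e' : D' ≤ A ⊔ D) : CI D' A B := by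
  intro b hb
  have e1 : D' ≤ D ⊔ A := e'.trans_eq (sup_comm _ _)
  have e2 : D' ⊔ A = D ⊔ A :=
    le_antisymm (sup_le e1 le_sup_right) (sup_le_sup_right e _)
  rw [e2]
  exact (h b hb).trans (((hb.E D).mono e).E_self.symm.trans
    ((E_congr (h b hb).symm).trans (E_E e1)))

theorem CI.contr (h : CI D A B) (h' : CI (D ⊔ A) A' B) : CI D (A ⊔ A') B := by
  intro b hb
  rw [← sup_assoc]
  exact (h' b hb).trans (h b hb)

theorem CI.inf_le (h : CI D A B) : A ⊓ B ≤ D := by
  refine le_of_bm fun f hf => (hf.E D).congr ?_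
  exact (h f (hf.mono inf_le_right)).symm.trans
    (hf.mono (inf_le_left.trans le_sup_right)).E_self

theorem ci_of_le (e : A ≤ D) : CI D A B := by
  intro b _
  rw [sup_eq_left.2 e]

theorem CI.int (h : CI D A B) {a b : Z.X → ℂ} (ha : BM A a) (hb : BM B b) :
    ∫ x, a x * b x ∂Z.μ = ∫ x, D.E a x * D.E b x ∂Z.μ := by
  rw [← int_E (W := D)]
  exact integral_congr_ae (ci_iff_mul.1 h a b ha hb)

theorem slice {W M R P : Fc Z} (h1 : W ≤ M) (h2 : M ≤ R) (h3 : CI W R P) (hf : BM (R ⊔ P) f)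
    (h : ∀ p, BM P p → BM M (R.E fun x => f x * p x)) : BM (M ⊔ P) f := by
  have h4 : CI M P R := (h3.weak h1 (h2.trans le_sup_left)).symm
  have hg := hf.E (M ⊔ P)
  refine hg.congr (EventuallyEq.trans ?_ hf.E_self)
  refine (aden_sup_eq hf.top (hg.mono (sup_le_sup_right h2 _)) fun r p hr hp => ?_).symm
  have hm := h p hp
  have hfp := hf.top.mul hp.top
  have hp' : BM (M ⊔ P) p := hp.mono le_sup_right
  calc ∫ x, r x * p x * f x ∂Z.μ = ∫ x, r x * (f x * p x) ∂Z.μ :=
        integral_congr_ae (Eventually.of_forall fun x => by ring)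
    _ = ∫ x, R.E (fun x => f x * p x) x * r x ∂Z.μ := by
        rw [← int_mul_E hr hfp]
        simp only [mul_comm]
    _ = ∫ x, M.E r x * R.E (fun x => f x * p x) x ∂Z.μ := by
        rw [← int_mul_E hm hr.top]
        simp only [mul_comm]
    _ = ∫ x, M.E r x * p x * f x ∂Z.μ := by
        rw [int_mul_E ((hr.E M).mono h2) hfp]
        exact integral_congr_ae (Eventually.of_forall fun x => by ring)
    _ = ∫ x, p x * (M ⊔ P).E f x * (M ⊔ P).E r x ∂Z.μ := by
        rw [← int_mul_E (((hr.E M).mono le_sup_left).mul hp') hf.top]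
        refine integral_congr_ae ?_
        filter_upwards [h4 r hr] with x e
        rw [e]
        ring
    _ = _ := by
        rw [int_mul_E (hp'.mul hg) hr.top]
        exact integral_congr_ae (Eventually.of_forall fun x => by ring)

end Pool.Agent.Lib.MP_1db5af_an.Th
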