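import Pool.Agent.Lib.MP_1db5af_an.Th.Defs

set_option autoImplicit false

namespace Pool.Agent.Lib.MP_1db5af_an.Th

open MeasureTheory ProbabilityTheory Filter Topology ComplexConjugate
open scoped ENNReal NNReal InnerProductSpace

variable {X Y Y' : Type} [MeasurableSpace X] [MeasurableSpace Y] [MeasurableSpace Y']
  {μ : Measure X} {T : ℤ → X → X} {T' : ℤ → Y → Y} {T'' : ℤ → Y' → Y'}

theorem mact_prod (h : MAct T) (h' : MAct T') : MAct (prodT T T') := by
  exact ⟨fun x => Prod.ext (h.zero _) (h'.zero _), fun k l x => Prod.ext (h.add _ _ _) (h'.add _ _ _),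
    fun k => (h.meas k).prodMap (h'.meas k)⟩

theorem mact_pi {κ : Type} (h : MAct T) : MAct (piT (κ := κ) T) := by
  exact ⟨fun x => funext fun i => h.zero _, fun k l x => funext fun i => h.add _ _ _,
    fun k => measurable_pi_lambda _ fun i => (h.meas k).comp (measurable_pi_apply i)⟩

theorem sys_prod {ν : Measure Y} [SFinite μ] [SFinite ν] (h : Sys μ T) (h' : Sys ν T') :
    Sys (μ.prod ν) (prodT T T') := by
  exact ⟨mact_prod h.toMAct h'.toMAct, fun k => (h.mp k).prod (h'.mp k)⟩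

theorem sys_pi {κ : Type} [Fintype κ] [SigmaFinite μ] (h : Sys μ T) :
    Sys (Measure.pi fun _ : κ => μ) (piT T) := by
  exact ⟨mact_pi h.toMAct, fun k => measurePreserving_pi _ _ fun _ => h.mp k⟩

theorem sys_map (h : Sys μ T) (h' : MAct T') {π : X → Y} (hπ : Measurable π)
    (hc : ∀ k, ∀ᵐ x ∂μ, π (T k x) = T' k (π x)) : Sys (μ.map π) T' := by
  refine ⟨h', fun k => ⟨h'.meas k, ?_⟩⟩
  rw [Measure.map_map (h'.meas k) hπ]
  have e : T' k ∘ π =ᵐ[μ] π ∘ T k := (hc k).mono fun x hx => hx.symm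
  rw [Measure.map_congr e, ← Measure.map_map hπ (h.meas k), (h.mp k).map_eq]

theorem sys_restrict (h : Sys μ T) {E : Set X} (hE : MeasurableSet E)
    (hi : ∀ k, ∀ᵐ x ∂μ, T k x ∈ E ↔ x ∈ E) : Sys (μ.restrict E) T := by
  refine ⟨h.toMAct, fun k => ?_⟩
  have e : T k ⁻¹' E =ᵐ[μ] E := (hi k).mono fun x hx => propext hx
  have h1 := (h.mp k).restrict_preimage hE
  rwa [Measure.restrict_congr_set e] at h1

theorem sys_smul (h : Sys μ T) (c : ℝ≥0∞) : Sys (c • μ) T := by
  exact ⟨h.toMAct, fun k => (h.mp k).smul_measure c⟩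

theorem sys_sum {κ : Type} {m : κ → Measure X} (hT : MAct T) (h : ∀ i, Sys (m i) T) :
    Sys (Measure.sum m) T := by
  refine ⟨hT, fun k => ⟨hT.meas k, ?_⟩⟩
  rw [Measure.map_sum (hT.meas k).aemeasurable]
  simp only [fun i => ((h i).mp k).map_eq]

/-- Invariance under the generator is enough. -/
theorem sys_of_one (hT : MAct T) (h : MeasurePreserving (T 1) μ μ) : Sys μ T := by
  have h0 : T 0 = id := funext hT.zero
  have hc : ∀ k l, T (k + l) = T k ∘ T l := fun k l => funext (hT.add k l)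
  have h1 : MeasurePreserving (T (-1)) μ μ := by
    refine ⟨hT.meas _, ?_⟩
    conv_lhs => rw [← h.map_eq]
    rw [Measure.map_map (hT.meas _) (hT.meas _), ← hc, neg_add_cancel, h0, Measure.map_id]
  refine ⟨hT, fun k => ?_⟩
  induction k using Int.induction_on with
  | zero => rw [h0]; exact MeasurePreserving.id μ
  | succ k ih => rw [hc]; exact ih.comp h
  | pred k ih => rw [sub_eq_add_neg, hc]; exact ih.comp h1

theorem sys_ae (h : Sys μ T) {p : X → Prop} (hp : ∀ᵐ x ∂μ, p x) : ∀ᵐ x ∂μ, ∀ k, p (T k x) := by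
  exact ae_all_iff.2 fun k => (h.mp k).quasiMeasurePreserving.ae hp

theorem sys_fst {l : Measure (X × Y)} (hT : MAct T) (h : Sys l (prodT T T')) : Sys l.fst T := by
  exact sys_map h hT measurable_fst fun k => ae_of_all _ fun _ => rfl

theorem sys_compProd [SFinite μ] (h : Sys μ T) (h' : MAct T') {Λ : Kernel X Y} [IsMarkovKernel Λ]
    (hΛ : EqvK μ T T' Λ) : Sys (μ ⊗ₘ Λ) (prodT T T') := by
  have hm := mact_prod h.toMAct h'
  refine ⟨hm, fun k => ⟨hm.meas k, ?_⟩⟩
  ext s hs
  rw [Measure.map_apply (hm.meas k) hs, Measure.compProd_apply (hm.meas k hs),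
    Measure.compProd_apply hs,
    ← (h.mp k).lintegral_comp (Kernel.measurable_kernel_prodMk_left hs)]
  refine lintegral_congr_ae ((hΛ k).mono fun x hx => ?_)
  simp only
  rw [hx, Measure.map_apply (h'.meas k) (measurable_prodMk_left hs)]
  rfl

theorem eqv_prod (h' : MAct T') (h'' : MAct T'') {Λ : Kernel X Y} {Λ' : Kernel X Y'}
    [IsMarkovKernel Λ] [IsMarkovKernel Λ'] (hΛ : EqvK μ T T' Λ) (hΛ' : EqvK μ T T'' Λ') :
    EqvK μ T (prodT T' T'') (Λ ×ₖ Λ') := by
  intro k
  filter_upwards [hΛ k, hΛ' k] with x h1 h2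
  rw [Kernel.prod_apply, Kernel.prod_apply, h1, h2,
    Measure.map_prod_map _ _ (h'.meas k) (h''.meas k)]
  rfl

theorem eqv_comap {X0 : Type} [MeasurableSpace X0] {μ0 : Measure X0} {T0 : ℤ → X0 → X0}
    {π : X0 → X} (hπ : Measure.QuasiMeasurePreserving π μ0 μ)
    (hc : ∀ k, ∀ᵐ x ∂μ0, π (T0 k x) = T k (π x)) {Λ : Kernel X Y} (hΛ : EqvK μ T T' Λ) :
    EqvK μ0 T0 T' (Λ.comap π hπ.measurable) := by
  intro k
  filter_upwards [hc k, hπ.ae (hΛ k)] with x h1 h2
  rw [Kernel.comap_apply, Kernel.comap_apply, h1, h2]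

theorem exists_piK {κ : Type} [Fintype κ] (Λ : κ → Kernel X Y) [∀ i, IsMarkovKernel (Λ i)] :
    ∃ P : Kernel X (κ → Y), IsMarkovKernel P ∧ ∀ x, P x = Measure.pi fun i => Λ i x := by
  have hm : Measurable fun x => Measure.pi fun i => Λ i x := by
    refine Measure.measurable_of_measurable_coe _ fun s hs => ?_
    induction s, hs using MeasurableSpace.induction_on_inter
      (generateFrom_pi (α := fun _ : κ => Y)).symm isPiSystem_pi with
    | empty => simp
    | basic t ht =>
      obtain ⟨u, hu, rfl⟩ := ht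
      simp only [Measure.pi_pi]
      exact Finset.measurable_prod _ fun i _ => (Λ i).measurable_coe (hu i (Set.mem_univ i))
    | compl t ht ih =>
      simp only [prob_compl_eq_one_sub ht]
      exact ih.const_sub 1
    | iUnion f hd hf ih =>
      simp only [measure_iUnion hd hf]
      exact Measurable.tsum ih
  exact ⟨⟨_, hm⟩, ⟨fun x => inferInstanceAs (IsProbabilityMeasure (Measure.pi fun i => Λ i x))⟩,
    fun x => rfl⟩

theorem eqv_pi {κ : Type} [Fintype κ] (h' : MAct T') {Λ : κ → Kernel X Y}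
    [∀ i, IsMarkovKernel (Λ i)] (hΛ : ∀ i, EqvK μ T T' (Λ i)) {P : Kernel X (κ → Y)}
    (hP : ∀ x, P x = Measure.pi fun i => Λ i x) : EqvK μ T (piT T') P := by
  intro k
  filter_upwards [ae_all_iff.2 fun i => hΛ i k] with x hx
  rw [hP, hP]
  simp only [hx]
  exact (measurePreserving_pi (fun i => Λ i x) (fun i => (Λ i x).map (T' k))
    fun i => (h'.meas k).measurePreserving _).map_eq.symm

theorem eqv_condKernel [StandardBorelSpace Y] [Nonempty Y] {l : Measure (X × Y)}
    [IsFiniteMeasure l] (hT : MAct T) (hT' : MAct T') (h : Sys l (prodT T T')) :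
    EqvK l.fst T T' l.condKernel := by
  intro k
  have hf := sys_fst hT h
  have hm := mact_prod hT hT'
  have hi : ∀ y, T' (-k) (T' k y) = y := fun y => by rw [← hT'.add, neg_add_cancel, hT'.zero]
  have hi' : ∀ y, T' k (T' (-k) y) = y := fun y => by rw [← hT'.add, add_neg_cancel, hT'.zero]
  have hj : ∀ y, T (-k) (T k y) = y := fun y => by rw [← hT.add, neg_add_cancel, hT.zero]
  let κ : Kernel X Y := (l.condKernel.comap (T k) (hT.meas k)).map (T' (-k))
  have hκ : ∀ x, κ x = (l.condKernel (T k x)).map (T' (-k)) := fun x => by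
    simp only [κ, Kernel.map_apply _ (hT'.meas _), Kernel.comap_apply]
  have : IsMarkovKernel κ := Kernel.IsMarkovKernel.map _ (hT'.meas _)
  have e : l = l.fst ⊗ₘ κ := by
    ext s hs
    have hs' := hm.meas (-k) hs
    rw [← (h.mp (-k)).measure_preimage hs.nullMeasurableSet]
    conv_lhs => rw [← l.disintegrate l.condKernel]
    rw [Measure.compProd_apply hs', Measure.compProd_apply hs,
      ← (hf.mp k).lintegral_comp (Kernel.measurable_kernel_prodMk_left hs')]
    refine lintegral_congr fun x => ?_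
    rw [hκ, Measure.map_apply (hT'.meas _) (measurable_prodMk_left hs)]
    congr 1
    ext y
    simp [prodT, hj]
  filter_upwards [eq_condKernel_of_measure_eq_compProd κ e] with x hx
  rw [← hx, hκ, Measure.map_map (hT'.meas _) (hT'.meas _),
    show T' k ∘ T' (-k) = id from funext hi', Measure.map_id]

theorem nul_mono {p q : ℕ → ℝ} (h0 : ∀ n, 0 ≤ p n) (h : ∀ n, p n ≤ q n) (hq : Nul q) : Nul p := by
  exact squeeze_zero (av_nonneg h0) (fun N => av_mono fun n _ => h n) hq

theorem nul_add {p q : ℕ → ℝ} (hp : Nul p) (hq : Nul q) : Nul fun n => p n + q n := by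
  have := Tendsto.add hp hq
  rw [add_zero] at this
  exact this.congr fun N => (av_add p q N).symm

theorem nul_finsum {κ : Type} (s : Finset κ) {p : κ → ℕ → ℝ} (hp : ∀ i ∈ s, Nul (p i)) :
    Nul fun n => ∑ i ∈ s, p i n := by
  have := tendsto_finsetSum s hp
  rw [Finset.sum_const_zero] at this
  exact this.congr fun N => (av_sum s p N).symm

theorem nul_mul {p : ℕ → ℝ} (c : ℝ) (hp : Nul p) : Nul fun n => c * p n := by
  have := Tendsto.const_mul c hp
  rw [mul_zero] at this
  exact this.congr fun N => (av_rmul c p N).symm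

theorem nul_of_forall {p : ℕ → ℝ} (h0 : ∀ n, 0 ≤ p n)
    (h : ∀ ε : ℝ, 0 < ε → ∃ q : ℕ → ℝ, Nul q ∧ ∀ n, p n ≤ q n + ε) : Nul p := by
  refine tendsto_order.2 ⟨fun a ha => Eventually.of_forall fun N => ha.trans_le (av_nonneg h0 N),
    fun a ha => ?_⟩
  obtain ⟨q, hq, h1⟩ := h (a / 2) (half_pos ha)
  have h2 := Tendsto.add hq (tendsto_av_const (a / 2))
  filter_upwards [h2.eventually (gt_mem_nhds (show 0 + a / 2 < a by linarith))] with N hN
  rw [← av_add] at hN
  exact (av_mono fun n _ => h1 n).trans_lt hN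

/-- Averages of measures of events that tend to zero do so for absolutely continuous measures. -/
theorem nul_ac {ν : Measure X} [IsFiniteMeasure μ] [IsFiniteMeasure ν] (h : ν ≪ μ)
    {E : ℕ → Set X} (hE : Nul fun l => μ.real (E l)) : Nul fun l => ν.real (E l) := by
  refine nul_of_forall (fun _ => measureReal_nonneg) fun ε hε => ?_
  have h1 : ∫⁻ x, ν.rnDeriv μ x ∂μ ≠ ∞ := (Measure.lintegral_rnDeriv_lt_top ν μ).ne
  obtain ⟨δ, hδ, h2⟩ := exists_pos_setLIntegral_lt_of_measure_lt h1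
    (ε := ENNReal.ofReal ε) (by simpa using hε)
  obtain ⟨d, hd, hdδ⟩ : ∃ d : ℝ, 0 < d ∧ ENNReal.ofReal d ≤ δ := by
    rcases eq_or_ne δ ∞ with rfl | h3
    · exact ⟨1, one_pos, le_top⟩
    · exact ⟨δ.toReal, ENNReal.toReal_pos hδ.ne' h3, (ENNReal.ofReal_toReal h3).le⟩
  refine ⟨_, nul_mul (ν.real Set.univ / d) hE, fun n => ?_⟩
  have h0 : 0 ≤ ν.real Set.univ / d * μ.real (E n) :=
    mul_nonneg (div_nonneg measureReal_nonneg hd.le) measureReal_nonneg
  rcases lt_or_ge (μ.real (E n)) d with h3 | h3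
  · have h4 : μ (E n) < δ := by
      rw [← ofReal_measureReal (measure_ne_top μ _)]
      exact ((ENNReal.ofReal_lt_ofReal_iff hd).2 h3).trans_le hdδ
    have h5 := h2 _ h4
    rw [Measure.setLIntegral_rnDeriv h] at h5
    have h6 : ν.real (E n) ≤ ε := ENNReal.toReal_le_of_le_ofReal hε.le h5.le
    linarith
  · have h4 : ν.real (E n) ≤ ν.real Set.univ := measureReal_mono (Set.subset_univ _)
    have h5 : ν.real Set.univ / d * d ≤ ν.real Set.univ / d * μ.real (E n) :=
      mul_le_mul_of_nonneg_left h3 (div_nonneg measureReal_nonneg hd.le)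
    rw [div_mul_cancel₀ _ hd.ne'] at h5
    linarith

theorem nul_sum {m : ℕ → Measure X} [IsFiniteMeasure (Measure.sum m)] {E : ℕ → Set X}
    (hm : ∀ l, MeasurableSet (E l)) (hE : ∀ i, Nul fun l => (m i).real (E l)) :
    Nul fun l => (Measure.sum m).real (E l) := by
  refine nul_of_forall (fun _ => measureReal_nonneg) fun ε hε => ?_
  have h1 : ∑' i, m i Set.univ ≠ ∞ := by
    rw [← Measure.sum_apply _ MeasurableSet.univ]
    exact measure_ne_top _ _
  obtain ⟨N, hN⟩ := ((ENNReal.tendsto_sum_nat_add _ h1).eventually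
    (gt_mem_nhds (ENNReal.ofReal_pos.2 hε))).exists
  refine ⟨_, nul_finsum (Finset.range N) fun i _ => hE i, fun n => ?_⟩
  have h2 : ∀ i, m i (E n) ≠ ∞ := fun i =>
    ne_top_of_le_ne_top (ENNReal.ne_top_of_tsum_ne_top h1 i) (measure_mono (Set.subset_univ _))
  have h3 : ∑' i, m (i + N) (E n) ≤ ENNReal.ofReal ε :=
    (ENNReal.tsum_le_tsum fun i => measure_mono (Set.subset_univ _)).trans hN.le
  rw [Measure.real, Measure.sum_apply _ (hm n),
    ← Summable.sum_add_tsum_nat_add' (k := N) ENNReal.summable,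
    ENNReal.toReal_add (ENNReal.sum_ne_top.2 fun i _ => h2 i)
      (ne_top_of_le_ne_top ENNReal.ofReal_ne_top h3), ENNReal.toReal_sum fun i _ => h2 i]
  exact add_le_add le_rfl (ENNReal.toReal_le_of_le_ofReal hε.le h3)

end Pool.Agent.Lib.MP_1db5af_an.Th
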