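import Pool.Agent.Lib.MP_1db5af_an.Th.ACDefs
import Pool.Agent.Lib.MP_1db5af_an.Th.ADen
import Pool.Agent.Lib.MP_1db5af_an.Th.Ker

set_option autoImplicit false

namespace Pool.Agent.Lib.MP_1db5af_an.Th

open MeasureTheory ProbabilityTheory Filter Topology ComplexConjugate
open scoped ENNReal NNReal InnerProductSpace

theorem mact_shG : MAct shG :=
  ⟨fun _ => funext fun i => by simp [shG], fun k l s => funext fun i => by simp [shG, add_assoc],
    fun _ => measurable_pi_lambda _ fun _ => measurable_pi_apply _⟩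

open Classical in
theorem asym_code {X κ : Type} {m : MeasurableSpace X} {B : κ → Set X}
    (h : ∀ j, MeasurableSet[m] (B j)) : Measurable[m] fun x j => decide (x ∈ B j) :=
  measurable_pi_lambda _ fun j => measurable_to_bool (by
    simpa only [Set.preimage, Set.mem_singleton_iff, decide_eq_true_eq, Set.ofPred_mem_eq] using h j)

/-- Every sub-σ-algebra is countably generated up to null sets. -/
theorem asym_count {X : Type} {m : MeasurableSpace X} [m0 : MeasurableSpace X]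
    [StandardBorelSpace X] (μ : Measure X) [IsProbabilityMeasure μ] (hm : m ≤ m0) :
    ∃ A : ℕ → Set X, (∀ i, MeasurableSet[m] (A i)) ∧ ∀ m' : MeasurableSpace X, m' ≤ m0 →
      (∀ i, MeasurableSet[m'] (A i)) → ∀ s, MeasurableSet[m] s →
        ∃ t, MeasurableSet[m'] t ∧ s =ᵐ[μ] t := by
  have : Fact ((2 : ENNReal) ≠ ⊤) := ⟨by simp⟩
  have hI : ∀ s, MeasurableSet[m] s → L2 μ (s.indicator fun _ => (1 : ℂ)) =ᵐ[μ]
      s.indicator fun _ => (1 : ℂ) := fun s hs => L2_coe ((memLp_const 1).indicator (hm s hs))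
  obtain ⟨t, t1, t2, t3⟩ := (TopologicalSpace.IsSeparable.of_separableSpace
    {v : Lp ℂ 2 μ | ∃ s, MeasurableSet[m] s ∧
      v = L2 μ (s.indicator fun _ => (1 : ℂ))}).exists_countable_dense_subset
  obtain ⟨e, rfl⟩ := t2.exists_eq_range (Set.Nonempty.of_closure
    ⟨_, t3 ⟨∅, @MeasurableSet.empty _ m, rfl⟩⟩)
  choose A h1 h2 using fun i => t1 ⟨i, rfl⟩
  refine ⟨A, h1, fun m' hm' h s hs => ?_⟩
  obtain ⟨g, g1, g2⟩ := closure_minimal (by
    rintro _ ⟨i, rfl⟩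
    exact ⟨_, stronglyMeasurable_const.indicator (h i), h2 i ▸ hI _ (h1 i)⟩)
    (isClosed_aestronglyMeasurable (F := ℂ) (p := 2) (μ := μ) hm') (t3 ⟨s, hs, rfl⟩)
  refine ⟨g ⁻¹' {1}, g1.measurable (measurableSet_singleton 1), ?_⟩
  filter_upwards [(hI s hs).symm.trans g2] with x hx
  change (x ∈ s) = (g x = 1)
  rw [← hx]
  by_cases c : x ∈ s <;> simp [c]

theorem sym {X : Type} {m : MeasurableSpace X} [m0 : MeasurableSpace X] [StandardBorelSpace X]
    {μ : Measure X} [IsProbabilityMeasure μ] {S : X → X} (hm : m ≤ m0) (hc : m.comap S = m) :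
    ∃ p : X → Sg, Measurable[m] p ∧ (∀ x, p (S x) = shG 1 (p x)) ∧
      ∀ s, MeasurableSet[m] s → ∃ t, MeasurableSet t ∧ s =ᵐ[μ] p ⁻¹' t := by
  classical
  obtain ⟨A, h1, h2⟩ := asym_count μ hm
  choose σ hσ using fun s : {s // MeasurableSet[m] s} =>
    show ∃ t : {s // MeasurableSet[m] s}, S ⁻¹' t = s from
      let ⟨t, e1, e2⟩ := hc.ge _ s.2
      ⟨⟨t, e1⟩, e2⟩
  let ρ : {s // MeasurableSet[m] s} → {s // MeasurableSet[m] s} := fun s =>
    ⟨S ⁻¹' s, hc.le _ ⟨_, s.2, rfl⟩⟩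
  let B : ℕ × ℤ → {s // MeasurableSet[m] s} := fun j =>
    j.2.casesOn (fun n => ρ^[n] ⟨_, h1 j.1⟩) fun n => σ^[n + 1] ⟨_, h1 j.1⟩
  have hB : ∀ i k, S ⁻¹' (B (i, k)).1 = (B (i, k + 1)).1 := by
    rintro i (n | _ | n)
    · exact congrArg Subtype.val (Function.iterate_succ_apply' ρ n _).symm
    · exact hσ _
    · exact (congrArg (fun t => S ⁻¹' t.1) (Function.iterate_succ_apply' σ (n + 1) _)).trans (hσ _)
  have hp := asym_code fun j => (B j).2
  refine ⟨_, hp, fun x => funext fun j => decide_eq_decide.2 (Set.ext_iff.1 (hB j.1 j.2) x),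
    fun s hs => ?_⟩
  obtain ⟨_, ⟨t, e1, rfl⟩, e2⟩ := h2 _ (hp.comap_le.trans hm) (fun i =>
    ⟨(· (i, 0)) ⁻¹' {true}, measurable_pi_apply (i, 0) (measurableSet_singleton true),
      Set.ext fun x => decide_eq_true_iff⟩) s hs
  exact ⟨t, e1, e2⟩

variable {Z : CS}

theorem sym_fc (A : Fc Z) : ∃ p : Z.X → Sg, Gens A p ∧ Measurable p ∧
    ∀ k z, p (Z.T k z) = shG k (p z) := by
  obtain ⟨p, h1, h2, h3⟩ := sym (μ := Z.μ) A.le (A.comap_eq 1)
  refine ⟨p, le_antisymm (fun s hs => ⟨A.le s hs, ?_⟩) fun s ⟨hs, t, ht, e⟩ =>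
    A.meas_of_ae hs (h1.comap_le t ht) e, h1.mono A.le le_rfl, fun k => ?_⟩
  · obtain ⟨t, e1, e2⟩ := h3 s hs
    exact ⟨_, ⟨t, e1, rfl⟩, e2⟩
  induction k using Int.induction_on with
  | zero => exact fun z => by rw [Z.sys.zero, mact_shG.zero]
  | succ k ih => exact fun z => by rw [Z.sys.add, ih, h2, mact_shG.add]
  | pred k ih =>
    intro z
    have e := h2 (Z.T (-1) z)
    rw [← Z.sys.add, add_neg_cancel, Z.sys.zero] at e
    rw [sub_eq_add_neg, Z.sys.add, ih, e, ← mact_shG.add, neg_add_cancel_right]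

variable {S S' : Type} [MeasurableSpace S] [MeasurableSpace S'] {A B : Fc Z} {p : Z.X → S}
  {q : Z.X → S'}

theorem asym_le (h : Gens A p) (hp : Measurable p) :
    A ≤ B ↔ MeasurableSpace.comap p inferInstance ≤ B.m :=
  ⟨fun e t ht => e t (h.ge t ⟨hp.comap_le t ht, t, ht, .rfl⟩), fun e s hs =>
    let ⟨h1, t, h2, h3⟩ := h.le s hs
    B.meas_of_ae h1 (e t h2) h3⟩

theorem Gens.bm (h : Gens A p) (hp : Measurable p) {φ : S → ℂ} (hφ : BMe φ) :
    BM A fun z => φ (p z) :=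
  let ⟨C, hC⟩ := hφ.2
  ⟨⟨C, (hφ.1.comp hp).aestronglyMeasurable, .of_forall fun _ => hC _⟩,
    ((hφ.1.comp (comap_measurable p)).mono ((asym_le h hp).1 le_rfl)
      le_rfl).stronglyMeasurable.aestronglyMeasurable⟩

theorem Gens.exists (h : Gens A p) (hp : Measurable p) {f : Z.X → ℂ} (hf : BM A f) :
    ∃ φ, BMe φ ∧ f =ᵐ[Z.μ] fun z => φ (p z) := by
  obtain ⟨⟨C, -, hC⟩, h1⟩ := hf
  obtain ⟨_, h2, h3⟩ := (cmp_aesm hp.comap_le).1 (h ▸ h1)
  obtain ⟨φ, h4, rfl⟩ := h2.exists_eq_measurable_comp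
  refine ⟨{s | ‖φ s‖ ≤ C}.indicator φ, ⟨h4.measurable.indicator
    (measurableSet_le h4.measurable.norm measurable_const), |C|, fun s => ?_⟩, ?_⟩
  · by_cases c : s ∈ {s | ‖φ s‖ ≤ C}
    · rw [Set.indicator_of_mem c]
      exact le_trans c (le_abs_self C)
    · rw [Set.indicator_of_notMem c, norm_zero]
      exact abs_nonneg C
  filter_upwards [hC, h3] with z e1 e2
  exact e2.trans (Set.indicator_of_mem (s := {s | ‖φ s‖ ≤ C}) (e2 ▸ e1 :) φ).symm

theorem Gens.sup (h : Gens A p) (h' : Gens B q) (hp : Measurable p) (hq : Measurable q) :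
    Gens (A ⊔ B) fun z => (p z, q z) := by
  have e := MeasurableSpace.comap_prodMk (mβ := inferInstance) (mγ := inferInstance) p q
  refine le_antisymm (sup_le (fun s hs => ?_) fun s hs => ?_) fun s ⟨hs, t, ht, e'⟩ =>
    (A ⊔ B).meas_of_ae hs (sup_le ((asym_le h hp).1 le_sup_left)
      ((asym_le h' hq).1 le_sup_right) t (e.le t ht)) e'
  · obtain ⟨h1, t, h2, h3⟩ := h.le s hs
    exact ⟨h1, t, (le_sup_left.trans e.ge) t h2, h3⟩
  · obtain ⟨h1, t, h2, h3⟩ := h'.le s hs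
    exact ⟨h1, t, (le_sup_right.trans e.ge) t h2, h3⟩

theorem Gens.le_iff (h : Gens A p) (hp : Measurable p) :
    A ≤ B ↔ ∀ φ, BMe φ → BM B fun z => φ (p z) :=
  ⟨fun e _ hφ => (h.bm hp hφ).mono e, fun H => le_of_bm fun _ hf =>
    let ⟨φ, h1, h2⟩ := h.exists hp hf
    (H φ h1).congr h2.symm⟩

theorem Gens.dd (h : Gens A p) (hp : Measurable p) {r : Z.X → Sg} (h' : Gens B r)
    (hr : Measurable r) (e : B ≤ A) : ∃ θ : S → Sg, Measurable θ ∧ r =ᵐ[Z.μ] fun z => θ (p z) := by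
  classical
  have : ∀ j, ∃ t, MeasurableSet t ∧ r ⁻¹' ((· j) ⁻¹' {true}) =ᵐ[Z.μ] p ⁻¹' t := fun j => by
    obtain ⟨-, _, ⟨t, h1, rfl⟩, h2⟩ := h.le _ ((asym_le h' hr).1 e _
      ⟨_, measurable_pi_apply j (measurableSet_singleton true), rfl⟩)
    exact ⟨t, h1, h2⟩
  choose t h1 h2 using this
  refine ⟨_, asym_code h1, (ae_all_iff.2 h2).mono fun z hz => funext fun j => ?_⟩
  exact Bool.eq_iff_iff.2 ((iff_of_eq (hz j)).trans decide_eq_true_iff.symm)

theorem exists_gens {TS : ℤ → S → S} (hS : MAct TS) (hp : Measurable p)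
    (hc : ∀ k, ∀ᵐ z ∂Z.μ, p (Z.T k z) = TS k (p z)) : ∃ A : Fc Z, Gens A p :=
  ⟨⟨cmp (MeasurableSpace.comap p inferInstance) Z.μ, fun _ hs => hs.1,
    fun _ hs h0 => ⟨hs, ∅, @MeasurableSet.empty _ (MeasurableSpace.comap p inferInstance),
      ae_eq_empty.2 h0⟩,
    fun k _ ⟨hs, _, ⟨t, ht, rfl⟩, e⟩ => ⟨Z.sys.meas k hs, p ⁻¹' (TS k ⁻¹' t),
      ⟨_, hS.meas k ht, rfl⟩, ((Z.sys.mp k).quasiMeasurePreserving.preimage_ae_eq e).trans
        ((hc k).mono fun _ hz => congrArg (· ∈ t) hz)⟩⟩, rfl⟩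

end Pool.Agent.Lib.MP_1db5af_an.Th
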