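import Pool.Agent.Lib.MP_1db5af_an.Th.AHr
import Pool.Agent.Lib.MP_1db5af_an.Th.ASym
import Pool.Agent.Lib.MP_1db5af_an.Ae.Zorn

set_option autoImplicit false

namespace Pool.Agent.Lib.MP_1db5af_an.Th

open MeasureTheory ProbabilityTheory Filter Topology ComplexConjugate
open scoped ENNReal NNReal InnerProductSpace

theorem asm_gap {a : ℕ → ℕ} (h2 : Monotone a) (h3 : Gap a) {i j : ℕ} (hij : i < j) (G : ℤ) :
    ∀ᶠ n in atTop, G < (a (n + j) : ℤ) - a (n + i) := by
  filter_upwards [(tendsto_add_atTop_nat i).eventually (h3 (G.toNat + 1))] with n hn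
  have h4 : a (n + i + 1) ≤ a (n + j) := h2 (by omega)
  have h5 := Int.self_le_toNat G
  omega

theorem pw_of_weyl {a : ℕ → ℕ} (h1 : Weyl a) (h2 : Monotone a) (h3 : Gap a) :
    PW fun j n : ℕ => (a (n + j) : ℤ) := by
  refine ⟨fun i j hij θ hθ => ?_, fun i j hij G => ?_⟩
  · have h := h1 {i, j} (fun k => if k = i then θ else -θ) ⟨i, by simp, by simpa using hθ⟩
    refine h.congr fun N => congrArg (av · N) (funext fun n => ?_)
    rw [Finset.prod_pair hij, if_pos rfl, if_neg hij.symm, spec_fourier_arg_neg, ← fourier_add,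
      ← sub_eq_add_neg]
  · rcases lt_or_gt_of_ne hij with h | h
    · filter_upwards [asm_gap h2 h3 h G] with n hn
      exact hn.trans_le (by rw [abs_sub_comm]; exact le_abs_self _)
    · filter_upwards [asm_gap h2 h3 h G] with n hn
      exact hn.trans_le (le_abs_self _)

section

variable {X : Type} {m m1 : MeasurableSpace X} [m0 : MeasurableSpace X] {μ : Measure X}
  [IsProbabilityMeasure μ] {S : X → X} {Z : CS} {p : X → Z.X}

/-- The factor of the model that corresponds to `m`. -/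
theorem asm_fc (hS : MeasurePreserving S μ μ) (hm : m ≤ m0) (hc : m.comap S = m)
    (hp : MeasurePreserving p μ Z.μ) (he : ∀ x, p (S x) = Z.T 1 (p x)) :
    ∃ W : Fc Z, W.m = Z.ms ⊓ (cmp m μ).map p := by
  have h1 : ∀ t, MeasurableSet[Z.ms ⊓ (cmp m μ).map p] t →
      MeasurableSet[Z.ms ⊓ (cmp m μ).map p] (Z.T 1 ⁻¹' t) := by
    rintro t ⟨ht, hs, s, hs1, hs2⟩
    have e : p ⁻¹' (Z.T 1 ⁻¹' t) = S ⁻¹' (p ⁻¹' t) := by
      ext x
      simp only [Set.mem_preimage, he]
    refine ⟨Z.sys.meas 1 ht, ?_⟩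
    change MeasurableSet[cmp m μ] (p ⁻¹' (Z.T 1 ⁻¹' t))
    rw [e]
    exact ⟨hS.measurable hs, S ⁻¹' s, hc.le _ ⟨s, hs1, rfl⟩,
      hS.quasiMeasurePreserving.preimage_ae_eq hs2⟩
  have h2 : ∀ t, MeasurableSet[Z.ms ⊓ (cmp m μ).map p] t →
      MeasurableSet[Z.ms ⊓ (cmp m μ).map p] (Z.T (-1) ⁻¹' t) := by
    rintro t ⟨ht, hs, s, hs1, hs2⟩
    obtain ⟨s', hs3, rfl⟩ := hc.ge _ hs1
    have ht' := hp.measurable (Z.sys.meas (-1) ht)
    have e : S ⁻¹' (p ⁻¹' (Z.T (-1) ⁻¹' t)) = p ⁻¹' t := by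
      ext x
      simp only [Set.mem_preimage, he]
      rw [← Z.sys.add, neg_add_cancel, Z.sys.zero]
    refine ⟨Z.sys.meas _ ht, ht', s', hs3, ?_⟩
    rw [← measure_symmDiff_eq_zero_iff,
      ← hS.measure_preimage (ht'.symmDiff (hm _ hs3)).nullMeasurableSet, Set.preimage_symmDiff, e]
    exact measure_symmDiff_eq_zero_iff.2 hs2
  refine ⟨⟨Z.ms ⊓ (cmp m μ).map p, inf_le_left, fun t ht h0 => ⟨ht, hp.measurable ht, ∅,
    @MeasurableSet.empty _ m, ae_eq_empty.2 ?_⟩, fun k => ?_⟩, rfl⟩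
  · rw [hp.measure_preimage ht.nullMeasurableSet, h0]
  · induction k using Int.induction_on with
    | zero =>
      intro t ht
      have : Z.T 0 ⁻¹' t = t := by ext x; simp only [Set.mem_preimage, Z.sys.zero]
      rwa [this]
    | succ k ih =>
      intro t ht
      have : Z.T (k + 1) ⁻¹' t = Z.T 1 ⁻¹' (Z.T k ⁻¹' t) := by
        ext x; simp only [Set.mem_preimage, Z.sys.add]
      rw [this]
      exact h1 _ (ih ht)
    | pred k ih =>
      intro t ht
      have : Z.T (-k - 1) ⁻¹' t = Z.T (-1) ⁻¹' (Z.T (-k) ⁻¹' t) := by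
        ext x; simp only [Set.mem_preimage, sub_eq_add_neg, Z.sys.add]
      rw [this]
      exact h2 _ (ih ht)

theorem asm_E (hm : m ≤ m0) (hp : MeasurePreserving p μ Z.μ) {W : Fc Z}
    (hW : W.m = Z.ms ⊓ (cmp m μ).map p)
    (hg : ∀ s, MeasurableSet[m] s → ∃ t, MeasurableSet t ∧ s =ᵐ[μ] p ⁻¹' t) {φ : Z.X → ℂ}
    (hφ : BM ⊤ φ) : (fun x => W.E φ (p x)) =ᵐ[μ] μ[fun x => φ (p x) | m] := by
  have i1 : Integrable (fun x => φ (p x)) μ := (hp.integrable_comp hφ.integrable.1).2 hφ.integrable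
  have i2 : Integrable (fun x => W.E φ (p x)) μ :=
    (hp.integrable_comp integrable_condExp.1).2 integrable_condExp
  refine ae_eq_condExp_of_forall_setIntegral_eq hm i1 (fun _ _ _ => i2.integrableOn)
    (fun s hs _ => ?_) ?_
  · obtain ⟨t, ht, e⟩ := hg s hs
    have htW : MeasurableSet[W.m] t := by
      rw [hW]
      exact ⟨ht, hp.measurable ht, s, hs, e.symm⟩
    have k1 : ∀ F : Z.X → ℂ, AEStronglyMeasurable F Z.μ →
        ∫ x in s, F (p x) ∂μ = ∫ y in t, F y ∂Z.μ := fun F hF => by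
      rw [setIntegral_congr_set e, ← hp.map_eq,
        setIntegral_map ht (by rwa [hp.map_eq]) hp.measurable.aemeasurable]
    rw [k1 _ integrable_condExp.1, k1 _ hφ.integrable.1, setIntegral_condExp W.le hφ.integrable htW]
  · refine (cmp_aesm hm).1 (StronglyMeasurable.aestronglyMeasurable ?_)
    have hp' : Measurable[cmp m μ, W.m] p := fun t ht => by
      rw [hW] at ht
      exact ht.2
    exact stronglyMeasurable_condExp.comp_measurable hp'

end

/-- Joint ergodicity passes to relatively weakly mixing extensions. -/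
theorem je_wm {X : Type} {m m1 : MeasurableSpace X} [m0 : MeasurableSpace X]
    [StandardBorelSpace X] {μ : Measure X} [IsProbabilityMeasure μ] {S : X → X}
    (hS : MeasurePreserving S μ μ) (hm1 : m1 ≤ m0) (hc1 : m1.comap S = m1) (hm : m ≤ m1)
    (hc : m.comap S = m) (hR : RWM m m1 μ S) {a : ℕ → ℕ}
    (H : ∀ J : Finset ℕ, HR (fun j n : ℕ => (a (n + j) : ℤ)) J) (hJ : JE μ S a m) :
    JE μ S a m1 := by
  classical
  obtain ⟨p, hp1, hp2, hp3⟩ := sym (μ := μ) hm1 hc1
  have hp0 : Measurable p := hp1.mono hm1 le_rfl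
  have : IsProbabilityMeasure (μ.map p) := Measure.isProbabilityMeasure_map hp0.aemeasurable
  have hsys : Sys (μ.map p) shG := sys_of_one mact_shG ⟨mact_shG.meas 1, by
    rw [Measure.map_map (mact_shG.meas 1) hp0,
      show shG 1 ∘ p = p ∘ S from funext fun x => (hp2 x).symm,
      ← Measure.map_map hp0 hS.measurable, hS.map_eq]⟩
  let Z : CS := { X := Sg, μ := μ.map p, T := shG, sys := hsys }
  have hp : MeasurePreserving p μ Z.μ := ⟨hp0, rfl⟩
  have hm0 := hm.trans hm1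
  obtain ⟨W, hW⟩ := asm_fc (Z := Z) hS hm0 hc hp hp2
  have hE := fun φ hφ => asm_E (Z := Z) hm0 hp hW (fun s hs => hp3 s (hm s hs)) (φ := φ) hφ
  have hit : ∀ (l : ℕ) x, p (S^[l] x) = (Z.T 1)^[l] (p x) := fun l x =>
    (Function.Semiconj.iterate_right (f := p) hp2 l).eq x
  have hit' : ∀ (l : ℕ) x, p (S^[l] x) = Z.T l (p x) := fun l x => by
    rw [hit, mact_iter Z.sys.toMAct]
  have hw : WM W ⊤ := by
    intro f C hf _ h0
    have b : BM (⊤ : Fc Z) f := bm_top_iff.2 ⟨C, hf⟩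
    have h1 : AEStronglyMeasurable[m1] (fun x => f (p x)) μ :=
      ⟨fun x => hf.1.mk f (p x), hf.1.stronglyMeasurable_mk.comp_measurable hp1,
        hp.quasiMeasurePreserving.ae hf.1.ae_eq_mk⟩
    have h2 := hR _ C (rwm_bd_map hp hf) h1
      ((hE f b).symm.trans (hp.quasiMeasurePreserving.ae h0))
    refine h2.congr fun N => congrArg (av · N) (funext fun l => ?_)
    have b2 : BM (⊤ : Fc Z) fun y => f ((Z.T 1)^[l] y) * conj (f y) := by
      rw [mact_iter Z.sys.toMAct]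
      exact (b.shift l).mul b.star
    obtain ⟨D, hD⟩ := (b2.E W).1
    rw [← rwm_norm_map hp hD, L2_congr (hE _ b2)]
    simp only [hit]
  intro J g C hg
  have ex : ∀ j, ∃ φ : Z.X → ℂ, j ∈ J → BM ⊤ φ ∧ g j =ᵐ[μ] fun x => φ (p x) := fun j => by
    by_cases hj : j ∈ J
    · have hle : m1 ≤ cmp (MeasurableSpace.comap p inferInstance) μ := fun s hs => by
        obtain ⟨t, ht, e⟩ := hp3 s hs
        exact ⟨hm1 s hs, p ⁻¹' t, ⟨t, ht, rfl⟩, e⟩
      have h1 := (cmp_aesm hp0.comap_le).1 ((hg j hj).2.mono hle)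
      obtain ⟨φ, hφ, e⟩ := h1.stronglyMeasurable_mk.exists_eq_measurable_comp
      have e' : g j =ᵐ[μ] fun x => φ (p x) :=
        h1.ae_eq_mk.trans (Eventually.of_forall fun x => congrFun e x)
      refine ⟨φ, fun _ => ⟨bm_top_iff.2 ⟨C, hφ.aestronglyMeasurable, ?_⟩, e'⟩⟩
      refine (ae_map_iff hp0.aemeasurable
        (measurableSet_le hφ.measurable.norm measurable_const)).2 ?_
      filter_upwards [e', (hg j hj).1.2] with x h2 h3
      rwa [← h2]
    · exact ⟨0, fun h => absurd h hj⟩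
  choose φ hφ using ex
  have key : ∀ (g : ℕ → X → ℂ) (φ : ℕ → Z.X → ℂ),
      (∀ j ∈ J, BM ⊤ (φ j) ∧ g j =ᵐ[μ] fun x => φ j (p x)) → ∀ n,
      ∫ x, ∏ j ∈ J, g j (S^[a (n + j)] x) ∂μ =
        ∫ y, pr Z (fun j n : ℕ => (a (n + j) : ℤ)) J φ n y ∂Z.μ := fun g φ h n => by
    have b := bm_pr (u := fun j n : ℕ => (a (n + j) : ℤ)) (fun j hj => (h j hj).1) n
    rw [← hp.map_eq, integral_map hp0.aemeasurable b.integrable.1]
    refine integral_congr_ae ?_
    have : ∀ᵐ x ∂μ, ∀ j ∈ J, g j (S^[a (n + j)] x) = φ j (p (S^[a (n + j)] x)) :=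
      (Finset.eventually_all J).2 fun j hj =>
        (hS.iterate _).quasiMeasurePreserving.ae (h j hj).2
    filter_upwards [this] with x hx
    exact Finset.prod_congr rfl fun j hj => by rw [hx j hj, hit']
  have h3 := hr_full (H J) le_top hw (f := φ) fun j hj => (hφ j hj).1
  have h4 : Tendsto (fun N => cor μ S a J g N - cor μ S a J (fun j => μ[g j | m]) N) atTop
      (𝓝 0) := by
    refine squeeze_zero_norm (fun N => ?_) h3
    unfold cor
    rw [← av_sub]
    refine (norm_av_le_av _ _).trans (av_mono fun n _ => ?_)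
    have b1 := (bm_pr (u := fun j n : ℕ => (a (n + j) : ℤ)) (fun j hj => (hφ j hj).1) n).E W
    have b2 := bm_pr (u := fun j n : ℕ => (a (n + j) : ℤ)) (fun j hj => (hφ j hj).1.E W) n
    rw [key g φ hφ n, key (fun j => μ[g j | m]) (fun j => W.E (φ j)) (fun j hj =>
      ⟨((hφ j hj).1.E W).top, (condExp_congr_ae (hφ j hj).2).trans (hE _ (hφ j hj).1).symm⟩) n,
      ← int_E (W := W), ← integral_sub b1.integrable b2.integrable,
      ← L2_sub b1.memLp b2.memLp]
    exact norm_integral_le_L2 (b1.sub b2).memLp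
  have h5 := h4.add (hJ J (fun j => μ[g j | m]) C fun j hj =>
    ⟨(hg j hj).1.condExp, stronglyMeasurable_condExp.aestronglyMeasurable⟩)
  simp only [sub_add_cancel, zero_add, integral_condExp hm0] at h5
  exact h5

end Pool.Agent.Lib.MP_1db5af_an.Th
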