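import Pool.Agent.Lib.MP_1db5af_an.Th.Ind
import Pool.Agent.Lib.MP_1db5af_an.Th.Asm
import Pool.Agent.Lib.MP_1db5af_an.Ae.Gen

set_option autoImplicit false

namespace Pool.Agent.Lib.MP_1db5af_an.Th

open MeasureTheory ProbabilityTheory Filter Topology ComplexConjugate
open scoped ENNReal NNReal InnerProductSpace

theorem je_erg {X : Type} [m0 : MeasurableSpace X] [StandardBorelSpace X] {μ : Measure X}
    [IsProbabilityMeasure μ] {S : X → X} (hS : Ergodic S μ) {a : ℕ → ℕ} (h1 : Weyl a)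
    (h2 : Monotone a) (h3 : Gap a) : JE μ S a m0 := by
  have hS' := hS.toMeasurePreserving
  have hS1 : Measurable S := hS'.measurable
  obtain ⟨m, e1, e2, e3, e4⟩ := ae_exists_base hS
  have h5 := @je_wm X m (@tailAll X m0 S) m0 _ μ _ S hS' (@ae_tail_le X m0 S)
    (@ae_tail_comap X m0 S hS1) e1 e2 e4 a (hr_all (pw_of_weyl h1 h2 h3)) (e3 a h1)
  exact @je_tail X m0 m0 μ _ S _ hS' h2 h3 le_rfl fun k ξ hξ J g C hg =>
    h5 J g C fun j hj => ⟨(hg j hj).1, (hg j hj).2.mono (@ae_tail_xi X m0 S hS1 k ξ hξ)⟩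

theorem full {X : Type*} [m0 : MeasurableSpace X] {μ : Measure X} [IsProbabilityMeasure μ]
    {T S : X → X} (hT : MeasurePreserving T μ μ) (hS : MeasurePreserving S μ μ) (hZ : ZeroEnt μ T)
    {a : ℕ → ℕ} (h1 : Weyl a) (h2 : Monotone a) (h3 : Gap a) {f g : X → ℂ} (hf : MemLp f ⊤ μ)
    (hg : MemLp g ⊤ μ) : Conv μ T S a f g := by
  classical
  let g' := hg.1.mk g
  have hg' : Measurable g' := hg.1.stronglyMeasurable_mk.measurable
  let π : X → ℕ → ℂ := fun x j => g' (S^[j] x)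
  let σ : (ℕ → ℂ) → ℕ → ℂ := fun y j => y (j + 1)
  have hπm : Measurable π := measurable_pi_lambda _ fun j => hg'.comp (hS.measurable.iterate j)
  have hσm : Measurable σ := measurable_pi_lambda _ fun j => measurable_pi_apply (j + 1)
  have hc : Function.Semiconj π S σ := fun x => rfl
  have : IsProbabilityMeasure (μ.map π) := Measure.isProbabilityMeasure_map hπm.aemeasurable
  have hπ : MeasurePreserving π μ (μ.map π) := ⟨hπm, rfl⟩
  have hσ : MeasurePreserving σ (μ.map π) (μ.map π) := ⟨hσm, by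
    rw [Measure.map_map hσm hπm, ← hc.comp_eq, ← Measure.map_map hπm hS.measurable, hS.map_eq]⟩
  refine gen_factor hT hZ hS hσ hπ hc ?_ hf hg (measurable_pi_apply 0) hg.1.ae_eq_mk
  filter_upwards [ae_ergdec hσ] with y hy
  exact je_erg hy h1 h2 h3

end Pool.Agent.Lib.MP_1db5af_an.Th
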