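import Pool.Agent.Lib.MP_1db5af_an.Th.Defs
import Pool.Agent.Lib.MP_1db5af_an.MeanErg

set_option autoImplicit false

namespace Pool.Agent.Lib.MP_1db5af_an.Th

open MeasureTheory ProbabilityTheory Filter Topology ComplexConjugate
open scoped ENNReal NNReal InnerProductSpace

theorem wd_neg {d : ℕ → ℤ} (h : WD d) : WD fun n => -d n := by
  intro θ hθ
  have h1 := h (-θ) (neg_ne_zero.2 hθ)
  simpa only [spec_fourier_arg_neg] using h1

theorem mact_iter {X : Type} [MeasurableSpace X] {T : ℤ → X → X} (hT : MAct T) (l : ℕ) :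
    (T 1)^[l] = T l := by
  induction l with
  | zero => funext x; simpa using (hT.zero x).symm
  | succ l ih =>
    funext x
    rw [Function.iterate_succ_apply, ih, Nat.cast_succ, hT.add]

section Abs

variable {H : Type} [NormedAddCommGroup H] [InnerProductSpace ℂ H] {V : ℤ → H →ₗᵢ[ℂ] H}

theorem wk_iter (h0 : ∀ v, V 0 v = v) (ha : ∀ k l v, V (k + l) v = V k (V l v)) (n : ℕ) (v : H) :
    (V 1)^[n] v = V n v := by
  induction n with
  | zero => simpa using (h0 v).symm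
  | succ n ih => rw [Function.iterate_succ_apply', ih, Nat.cast_succ, add_comm, ha]

theorem wk_inner (h0 : ∀ v, V 0 v = v) (ha : ∀ k l v, V (k + l) v = V k (V l v)) {w : H}
    {σ : Measure UnitAddCircle} (h : IsSpec (V 1) w σ) (k : ℤ) :
    ⟪w, V k w⟫_ℂ = ∫ θ, fourier k θ ∂σ := by
  obtain ⟨n, rfl | rfl⟩ := Int.eq_nat_or_neg k
  · rw [← wk_iter h0 ha, h]
  · rw [← (V n).inner_map_map, ← ha, add_neg_cancel, h0, ← inner_conj_symm, ← wk_iter h0 ha, h,
      ← integral_conj]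
    simp only [fourier_neg]

theorem wk_av_sq (h0 : ∀ v, V 0 v = v) (ha : ∀ k l v, V (k + l) v = V k (V l v)) {w : H}
    {σ : Measure UnitAddCircle} [IsFiniteMeasure σ] (h : IsSpec (V 1) w σ) (d : ℕ → ℤ) (N : ℕ) :
    ‖av (fun n => V (d n) w) N‖ ^ 2 = ∫ θ, ‖av (fun n => fourier (d n) θ) N‖ ^ 2 ∂σ := by
  have h1 := spec_norm_sum (Finset.range N) (fun _ => (((N : ℝ)⁻¹ : ℝ) : ℂ)) fun n => V (d n) w
  have h2 := spec_sum σ (Finset.range N) (fun _ => (((N : ℝ)⁻¹ : ℝ) : ℂ))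
    (fun l θ => fourier (d l) θ) fun l l' => by
      simpa only [spec_fourier_sub] using spec_integrable σ (d l - d l')
  have h3 : ∀ l l', ⟪V (d l') w, V (d l) w⟫_ℂ =
      ∫ θ, fourier (d l) θ * conj (fourier (d l') θ) ∂σ := by
    intro l l'
    have e : V (d l) w = V (d l') (V (d l - d l') w) := by rw [← ha, add_sub_cancel]
    rw [e, (V (d l')).inner_map_map, wk_inner h0 ha h]
    simp only [spec_fourier_sub]
  simp only [h3] at h1
  have h4 := Complex.ofReal_injective (h1.trans h2)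
  simp only [← Finset.smul_sum, ← Finset.mul_sum, Complex.coe_smul] at h4
  simp only [av, Complex.real_smul]
  exact h4

theorem wk_null (h0 : ∀ v, V 0 v = v) (ha : ∀ k l v, V (k + l) v = V k (V l v)) {w : H}
    (hw : Tendsto (av fun n : ℕ => V n w) atTop (𝓝 0)) {d : ℕ → ℤ} (hd : WD d) :
    Tendsto (av fun n => V (d n) w) atTop (𝓝 0) := by
  obtain ⟨σ, hσ, h⟩ := herglotz (V 1) w
  have hc : ∀ (e : ℕ → ℤ) (N : ℕ),
      Continuous fun θ : UnitAddCircle => ‖av (fun n => fourier (e n) θ) N‖ ^ 2 := by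
    intro e N
    unfold av
    fun_prop
  have hle : ∀ (e : ℕ → ℤ) (N : ℕ) (θ : UnitAddCircle),
      ‖‖av (fun n => fourier (e n) θ) N‖ ^ 2‖ ≤ 1 := by
    intro e N θ
    rw [norm_pow, norm_norm]
    exact pow_le_one₀ (norm_nonneg _) (norm_av_le (fun n => (norm_fourier _ θ).le) N)
  have hz : σ.real {0} ≤ 0 := by
    have h1 : Tendsto (fun N => ‖av (fun n : ℕ => V n w) N‖ ^ 2) atTop (𝓝 0) := by
      simpa using hw.norm.pow 2
    refine ge_of_tendsto h1 ?_
    filter_upwards [eventually_gt_atTop 0] with N hN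
    rw [wk_av_sq h0 ha h (fun n => n) N, ← integral_indicator_one (measurableSet_singleton _)]
    refine integral_mono ((integrable_const 1).indicator (measurableSet_singleton _))
      (Integrable.of_bound (hc (fun n => n) N).aestronglyMeasurable 1
        (Eventually.of_forall (hle (fun n => n) N))) fun θ => ?_
    by_cases hθ : θ = 0
    · subst hθ
      simp only [fourier_eval_zero, av_const _ hN]
      simp
    · rw [Set.indicator_of_notMem (s := {0}) hθ]
      positivity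
  have h1 : ∀ᵐ θ ∂σ, θ ≠ 0 := by
    rw [ae_iff]
    have h2 : σ {0} = 0 :=
      (measureReal_eq_zero_iff (measure_ne_top _ _)).1 (le_antisymm hz measureReal_nonneg)
    simpa using h2
  have h2 := tendsto_integral_of_dominated_convergence (μ := σ)
    (F := fun N θ => ‖av (fun n => fourier (d n) θ) N‖ ^ 2)
    (f := fun _ => 0) (fun _ => 1) (fun N => (hc _ N).aestronglyMeasurable)
    (integrable_const 1) (fun N => Eventually.of_forall (hle _ N)) (by
      filter_upwards [h1] with θ hθ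
      simpa using (hd θ hθ).norm.pow 2)
  simp only [← wk_av_sq h0 ha h, integral_zero] at h2
  rw [tendsto_zero_iff_norm_tendsto_zero]
  have h5 := h2.sqrt
  simpa only [Real.sqrt_sq (norm_nonneg _), Real.sqrt_zero] using h5

theorem wk_fix (h0 : ∀ v, V 0 v = v) (ha : ∀ k l v, V (k + l) v = V k (V l v)) {p : H}
    (hp : V 1 p = p) (k : ℤ) : V k p = p := by
  have h1 : ∀ n : ℕ, V n p = p := fun n => by
    rw [← wk_iter h0 ha]; exact Function.iterate_fixed hp n
  obtain ⟨n, rfl | rfl⟩ := Int.eq_nat_or_neg k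
  · exact h1 n
  · conv_lhs => rw [← h1 n, ← ha, neg_add_cancel, h0]

theorem wk_lim (h0 : ∀ v, V 0 v = v) (ha : ∀ k l v, V (k + l) v = V k (V l v)) {g p : H}
    (hp : V 1 p = p) (hg : Tendsto (av fun n : ℕ => V n g) atTop (𝓝 p)) {d : ℕ → ℤ} (hd : WD d) :
    Tendsto (av fun n => V (d n) g) atTop (𝓝 p) := by
  have e : ∀ k, V k (g - p) = V k g - p := fun k => by rw [map_sub, wk_fix h0 ha hp]
  have h1 : Tendsto (av fun n : ℕ => V n (g - p)) atTop (𝓝 0) := by
    have h2 := hg.sub (tendsto_av_const p)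
    rw [sub_self] at h2
    refine h2.congr fun N => ?_
    rw [← av_sub]
    simp only [e]
  have h3 := (wk_null h0 ha h1 hd).add (tendsto_av_const p)
  rw [zero_add] at h3
  refine h3.congr fun N => ?_
  rw [← av_add]
  simp only [e, sub_add_cancel]

theorem wk_av_inner (f : H) {u : ℕ → H} {p : H} (h : Tendsto (av u) atTop (𝓝 p)) :
    Tendsto (av fun n => ⟪f, u n⟫_ℂ) atTop (𝓝 ⟪f, p⟫_ℂ) := by
  have h1 := (((innerSL ℂ f).restrictScalars ℝ).continuous.tendsto p).comp h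
  refine h1.congr fun N => ?_
  rw [Function.comp_apply, ← av_map]
  rfl

end Abs

variable {X : Type} [MeasurableSpace X] {μ : Measure X} {T : ℤ → X → X} {C : ℝ}

theorem wk_Kp_zero (hT : Sys μ T) (v : Lp ℂ 2 μ) : Kp (hT.mp 0) v = v := by
  have h := Kp_L2 (hT.mp 0) (Lp.memLp v)
  simp only [hT.zero] at h
  rwa [L2_Lp] at h

theorem wk_Kp_add (hT : Sys μ T) (k l : ℤ) (v : Lp ℂ 2 μ) :
    Kp (hT.mp (k + l)) v = Kp (hT.mp k) (Kp (hT.mp l) v) := by
  have h1 := Kp_L2 (hT.mp (k + l)) (Lp.memLp v)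
  have h2 := Kp_L2 (hT.mp l) (Lp.memLp v)
  have h3 := Kp_L2 (hT.mp k) ((Lp.memLp v).comp_measurePreserving (hT.mp l))
  rw [L2_Lp] at h1 h2
  rw [h1, h2]
  refine Eq.trans ?_ h3.symm
  congr 1
  funext x
  rw [add_comm, hT.add]
  rfl

theorem wk_int [IsProbabilityMeasure μ] (hT : Sys μ T) {F G : X → ℂ} (hF : Bd μ C F)
    (hG : Bd μ C G) (k : ℤ) :
    ∫ x, F x * G (T k x) ∂μ = ⟪L2 μ fun x => conj (F x), Kp (hT.mp k) (L2 μ G)⟫_ℂ := by
  rw [Kp_L2 _ hG.memLp, inner_L2 hF.star.memLp (hG.comp (hT.mp k)).memLp]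
  simp only [Complex.conj_conj, mul_comm]

theorem wk [IsProbabilityMeasure μ] (hT : Sys μ T) {d : ℕ → ℤ} (hd : WD d) {F G : X → ℂ}
    (hF : Bd μ C F) (hG : Bd μ C G) :
    ∃ L : ℂ, Tendsto (av fun n => ∫ x, F x * G (T (d n) x) ∂μ) atTop (𝓝 L) ∧
      Tendsto (av fun l : ℕ => ∫ x, F x * G (T l x) ∂μ) atTop (𝓝 L) := by
  obtain ⟨p, hp1, -, hp3⟩ := meanerg_abs (Kp (hT.mp 1)).toContinuousLinearMap
    (LinearIsometry.norm_toContinuousLinearMap_le _) (L2 μ G)
  have h0 := wk_Kp_zero hT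
  have ha := wk_Kp_add hT
  have hp4 : Tendsto (av fun n : ℕ => Kp (hT.mp n) (L2 μ G)) atTop (𝓝 p) := by
    refine hp3.congr fun N => ?_
    congr 1
    funext n
    exact wk_iter (V := fun k => Kp (hT.mp k)) h0 ha n _
  simp only [wk_int hT hF hG]
  exact ⟨_, wk_av_inner _ (wk_lim (V := fun k => Kp (hT.mp k)) h0 ha hp1 hp4 hd),
    wk_av_inner _ hp4⟩

theorem wk_erg [IsProbabilityMeasure μ] (hT : Sys μ T) (he : Ergodic (T 1) μ) {d : ℕ → ℤ}
    (hd : WD d) {F G : X → ℂ} (hF : Bd μ C F) (hG : Bd μ C G) :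
    Tendsto (av fun n => ∫ x, F x * G (T (d n) x) ∂μ) atTop
      (𝓝 ((∫ x, F x ∂μ) * ∫ x, G x ∂μ)) := by
  obtain ⟨L, h1, h2⟩ := wk hT hd hF hG
  have h3 := mean_erg (hT.mp 1) hG.memLp
  rw [L2_congr (condExp_ergodic he hG.integrable)] at h3
  have h4 := wk_av_inner (L2 μ fun x => conj (F x)) h3
  rw [inner_L2 hF.star.memLp (Bd.const _).memLp] at h4
  simp only [Complex.conj_conj, integral_const_mul] at h4
  have h5 : ∀ n : ℕ, ⟪L2 μ fun x => conj (F x), (Kp (hT.mp 1))^[n] (L2 μ G)⟫_ℂ =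
      ∫ x, F x * G (T n x) ∂μ := fun n => by
    rw [wk_int hT hF hG,
      wk_iter (V := fun k => Kp (hT.mp k)) (wk_Kp_zero hT) (wk_Kp_add hT) n _]
  simp only [h5] at h4
  rw [mul_comm, ← tendsto_nhds_unique h2 h4]
  exact h1

theorem wk_ulim {E : Type} [NormedAddCommGroup E] [ProperSpace E] (U : Ultrafilter ℕ) {u : ℕ → E}
    (h : ∀ n, ‖u n‖ ≤ C) : ∃ L : E, Tendsto u U (𝓝 L) := by
  obtain ⟨L, -, hL⟩ := (isCompact_closedBall (0 : E) C).ultrafilter_le_nhds' (U.map u)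
    (Ultrafilter.mem_map.2 (univ_mem' fun n => by simpa using h n))
  exact ⟨L, hL⟩

theorem wu {H : Type} [NormedAddCommGroup H] [InnerProductSpace ℂ H] [CompleteSpace H]
    (U : Ultrafilter ℕ) {x : ℕ → H} (hx : ∀ N, ‖x N‖ ≤ C) :
    ∃ y : H, ∀ v, Tendsto (fun N => ⟪v, x N⟫_ℂ) U (𝓝 ⟪v, y⟫_ℂ) := by
  have hb : ∀ v N, ‖⟪x N, v⟫_ℂ‖ ≤ C * ‖v‖ := fun v N =>
    (norm_inner_le_norm _ _).trans (mul_le_mul_of_nonneg_right (hx N) (norm_nonneg _))
  choose L hL using fun v => wk_ulim U (hb v)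
  let M : H →ₗ[ℂ] ℂ :=
    { toFun := L
      map_add' := fun v w => tendsto_nhds_unique (hL (v + w)) (by
        simpa only [inner_add_right] using (hL v).add (hL w))
      map_smul' := fun c v => tendsto_nhds_unique (hL (c • v)) (by
        simpa only [inner_smul_right, RingHom.id_apply, smul_eq_mul] using (hL v).const_mul c) }
  have hM : ∀ v, ‖M v‖ ≤ C * ‖v‖ := fun v => le_of_tendsto' (hL v).norm (hb v)
  refine ⟨(InnerProductSpace.toDual ℂ H).symm (M.mkContinuous C hM), fun v => ?_⟩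
  have h1 := (Complex.continuous_conj.tendsto _).comp (hL v)
  rw [← inner_conj_symm, InnerProductSpace.toDual_symm_apply]
  refine h1.congr fun N => ?_
  exact inner_conj_symm _ _

theorem wk_bd [IsFiniteMeasure μ] (hC : 0 ≤ C) (U : Ultrafilter ℕ) {φ : ℕ → X → ℂ}
    (h : ∀ N, Bd μ C (φ N)) :
    ∃ Φ : X → ℂ, Measurable Φ ∧ Bd μ C Φ ∧ ∀ (g : X → ℂ) (D : ℝ), Bd μ D g →
      Tendsto (fun N => ∫ x, g x * φ N x ∂μ) U (𝓝 (∫ x, g x * Φ x ∂μ)) := by
  classical
  obtain ⟨y, hy⟩ := wu U (x := fun N => L2 μ (φ N)) fun N =>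
    Lp.norm_le_of_ae_bound (f := L2 μ (φ N)) hC (by
      filter_upwards [L2_coe (h N).memLp, (h N).2] with x e1 e2 using e1 ▸ e2)
  set Φ := (Lp.aestronglyMeasurable y).mk y with hΦ
  have hm : Measurable Φ := (Lp.aestronglyMeasurable y).measurable_mk
  have he : (y : X → ℂ) =ᵐ[μ] Φ := (Lp.aestronglyMeasurable y).ae_eq_mk
  have h2 : MemLp Φ 2 μ := (Lp.memLp y).ae_eq he
  have key : ∀ (g : X → ℂ) (D : ℝ), Bd μ D g →
      Tendsto (fun N => ∫ x, g x * φ N x ∂μ) U (𝓝 (∫ x, g x * Φ x ∂μ)) := by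
    intro g D hg
    have h1 := hy (L2 μ fun x => conj (g x))
    rw [← L2_Lp y, L2_congr he, inner_L2 hg.star.memLp h2] at h1
    simp only [inner_L2 hg.star.memLp (h _).memLp, Complex.conj_conj] at h1
    simpa only [mul_comm] using h1
  refine ⟨Φ, hm, ⟨hm.aestronglyMeasurable, ?_⟩, key⟩
  have hA : MeasurableSet {x | C < ‖Φ x‖} := measurableSet_lt measurable_const hm.norm
  let g : X → ℂ := fun x => if C < ‖Φ x‖ then conj (Φ x) / (‖Φ x‖ : ℂ) else 0
  have hgm : Measurable g := Measurable.ite hA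
    ((Complex.continuous_conj.measurable.comp hm).div (Complex.measurable_ofReal.comp hm.norm))
    measurable_const
  have hg1 : ∀ x, ‖g x‖ = if C < ‖Φ x‖ then 1 else 0 := by
    intro x
    by_cases hx : C < ‖Φ x‖
    · simp only [g, if_pos hx, norm_div, Complex.norm_conj, Complex.norm_real, norm_norm]
      exact div_self (hC.trans_lt hx).ne'
    · simp only [g, if_neg hx, norm_zero]
  have hgb : Bd μ 1 g := ⟨hgm.aestronglyMeasurable, Eventually.of_forall fun x => by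
    rw [hg1]; split_ifs <;> norm_num⟩
  have hi1 : Integrable (fun x => if C < ‖Φ x‖ then C else 0) μ :=
    Integrable.of_bound (Measurable.ite hA measurable_const measurable_const).aestronglyMeasurable C
      (Eventually.of_forall fun x => by
        split_ifs
        · exact (Real.norm_of_nonneg hC).le
        · simpa using hC)
  have hi2 : Integrable (fun x => if C < ‖Φ x‖ then ‖Φ x‖ else 0) μ :=
    ((h2.integrable one_le_two).norm.indicator hA).congr (Eventually.of_forall fun x => by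
      simp only [Set.indicator, Set.mem_setOf_eq])
  have h3 : ∀ N, ‖∫ x, g x * φ N x ∂μ‖ ≤ ∫ x, (if C < ‖Φ x‖ then C else 0) ∂μ := fun N =>
    norm_integral_le_of_norm_le hi1 (by
      filter_upwards [(h N).2] with x hx
      rw [norm_mul, hg1]
      split_ifs
      · rwa [one_mul]
      · rw [zero_mul])
  have h4 := le_of_tendsto' (key g 1 hgb).norm h3
  have h5 : ∀ x, g x * Φ x = ((if C < ‖Φ x‖ then ‖Φ x‖ else 0 : ℝ) : ℂ) := by
    intro x
    by_cases hx : C < ‖Φ x‖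
    · have h6 : (‖Φ x‖ : ℂ) ≠ 0 := by exact_mod_cast (hC.trans_lt hx).ne'
      simp only [g, if_pos hx]
      rw [div_mul_eq_mul_div, Complex.conj_mul', sq, mul_div_assoc, div_self h6, mul_one]
    · simp only [g, if_neg hx, zero_mul, Complex.ofReal_zero]
  simp only [h5] at h4
  rw [integral_complex_ofReal, Complex.norm_real] at h4
  have h6 : ∀ x, 0 ≤ (if C < ‖Φ x‖ then ‖Φ x‖ else 0) - (if C < ‖Φ x‖ then C else 0) := by
    intro x
    split_ifs with hx
    · linarith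
    · simp
  have h7 : ∫ x, ((if C < ‖Φ x‖ then ‖Φ x‖ else 0) - (if C < ‖Φ x‖ then C else 0)) ∂μ = 0 := by
    refine le_antisymm ?_ (integral_nonneg h6)
    rw [integral_sub hi2 hi1]
    linarith [le_abs_self (∫ x, (if C < ‖Φ x‖ then ‖Φ x‖ else 0) ∂μ), Real.norm_eq_abs
      (∫ x, (if C < ‖Φ x‖ then ‖Φ x‖ else 0) ∂μ)]
  filter_upwards [(integral_eq_zero_iff_of_nonneg h6 (hi2.sub hi1)).1 h7] with x hx
  by_contra h8
  have h9 : C < ‖Φ x‖ := not_le.1 h8
  simp only [if_pos h9, Pi.zero_apply] at hx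
  linarith

theorem wu_bd [IsProbabilityMeasure μ] (U : Ultrafilter ℕ) {φ : ℕ → X → ℂ}
    (h : ∀ N, Bd μ C (φ N)) :
    ∃ Φ : X → ℂ, Measurable Φ ∧ Bd μ C Φ ∧ ∀ (g : X → ℂ) (D : ℝ), Bd μ D g →
      Tendsto (fun N => ∫ x, g x * φ N x ∂μ) U (𝓝 (∫ x, g x * Φ x ∂μ)) :=
  wk_bd (h 0).nonneg U h

theorem wlim [IsFiniteMeasure μ] (U : Ultrafilter ℕ) {φ : ℕ → X → ℝ} (hm : ∀ l, Measurable (φ l))
    (h : ∀ l x, 0 ≤ φ l x ∧ φ l x ≤ C) :
    ∃ Φ : X → ℝ, Measurable Φ ∧ (∀ x, 0 ≤ Φ x ∧ Φ x ≤ C) ∧ ∀ A, MeasurableSet A →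
      Tendsto (av fun l => ∫ x in A, φ l x ∂μ) U (𝓝 (∫ x in A, Φ x ∂μ)) := by
  rcases isEmpty_or_nonempty X with hX | ⟨⟨x0⟩⟩
  · refine ⟨fun _ => 0, measurable_const, fun x => hX.elim x, fun A _ => ?_⟩
    simp only [integral_of_isEmpty]
    refine tendsto_const_nhds.congr fun N => ?_
    simp [av]
  have hC : 0 ≤ C := (h 0 x0).1.trans (h 0 x0).2
  have ham : ∀ N, Measurable fun x => av (fun l => φ l x) N := fun N =>
    (Finset.measurable_fun_sum _ fun l _ => hm l).const_smul ((N : ℝ)⁻¹)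
  have ha0 : ∀ N x, 0 ≤ av (fun l => φ l x) N := fun N x => av_nonneg (fun l => (h l x).1) N
  have ha1 : ∀ N x, av (fun l => φ l x) N ≤ C := fun N x => av_le hC fun l _ => (h l x).2
  obtain ⟨Ψ, hΨm, hΨb, hΨ⟩ := wk_bd (μ := μ) (C := C / 2) (by positivity) U
    (φ := fun N x => ((av (fun l => φ l x) N - C / 2 : ℝ) : ℂ)) fun N =>
      ⟨(Complex.measurable_ofReal.comp ((ham N).sub_const _)).aestronglyMeasurable,
        Eventually.of_forall fun x => by
          rw [Complex.norm_real, Real.norm_eq_abs, abs_le]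
          constructor <;> linarith [ha0 N x, ha1 N x]⟩
  refine ⟨fun x => max 0 (min ((Ψ x).re + C / 2) C),
    measurable_const.max (((Complex.measurable_re.comp hΨm).add_const _).min measurable_const),
    fun x => ⟨le_max_left _ _, max_le hC (min_le_right _ _)⟩, fun A hA => ?_⟩
  have hg : Bd μ 1 (A.indicator fun _ => (1 : ℂ)) :=
    ⟨(measurable_const.indicator hA).aestronglyMeasurable, Eventually.of_forall fun x =>
      (norm_indicator_le_norm_self _ _).trans (by simp)⟩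
  have key : ∀ ψ : X → ℂ, ∫ x, A.indicator (fun _ => (1 : ℂ)) x * ψ x ∂μ = ∫ x in A, ψ x ∂μ := by
    intro ψ
    rw [← integral_indicator hA]
    congr 1
    funext x
    by_cases hx : x ∈ A
    · simp [Set.indicator_of_mem hx]
    · simp [Set.indicator_of_notMem hx]
  have h1 := ((Complex.continuous_re.tendsto _).comp (hΨ _ 1 hg)).add_const
    (∫ _ in A, C / 2 ∂μ)
  have hφi : ∀ l, Integrable (φ l) (μ.restrict A) := fun l =>
    Integrable.of_bound (hm l).aestronglyMeasurable C (Eventually.of_forall fun x => by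
      rw [Real.norm_of_nonneg (h l x).1]; exact (h l x).2)
  have hai : ∀ N, Integrable (fun x => av (fun l => φ l x) N) (μ.restrict A) := fun N =>
    (integrable_finsetSum _ fun l _ => hφi l).smul ((N : ℝ)⁻¹)
  have e1 : ∫ x in A, max 0 (min ((Ψ x).re + C / 2) C) ∂μ =
      (∫ x, A.indicator (fun _ => (1 : ℂ)) x * Ψ x ∂μ).re + ∫ _ in A, C / 2 ∂μ := by
    have h2 : (∫ x in A, Ψ x ∂μ).re = ∫ x in A, (Ψ x).re ∂μ :=
      (integral_re hΨb.integrable.integrableOn).symm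
    have h4 : Integrable (fun x => (Ψ x).re) (μ.restrict A) := hΨb.integrable.re.integrableOn
    rw [key, h2, ← integral_add h4 (integrable_const _)]
    refine integral_congr_ae (ae_restrict_of_ae ?_)
    filter_upwards [hΨb.2] with x hx
    have h3 := abs_le.1 ((Complex.abs_re_le_norm (Ψ x)).trans hx)
    rw [min_eq_left (by linarith), max_eq_right (by linarith)]
  rw [e1]
  refine h1.congr fun N => ?_
  rw [Function.comp_apply, key, integral_complex_ofReal, Complex.ofReal_re,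
    integral_sub (hai N) (integrable_const _), sub_add_cancel]
  simp only [av]
  rw [integral_smul, integral_finsetSum _ fun l _ => hφi l]

theorem exists_ultra {p : ℕ → ℝ} (h0 : ∀ n, 0 ≤ p n) (h1 : ∀ n, p n ≤ C) (h : ¬ Nul p) :
    ∃ (U : Ultrafilter ℕ) (δ : ℝ), (U : Filter ℕ) ≤ atTop ∧ 0 < δ ∧ Tendsto (av p) U (𝓝 δ) := by
  rw [Nul, NormedAddGroup.tendsto_nhds_zero] at h
  push Not at h
  obtain ⟨ε, hε, h2⟩ := h
  have h3 : (atTop ⊓ 𝓟 {N | ε ≤ ‖av p N‖}).NeBot := frequently_iff_neBot.1 h2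
  let U : Ultrafilter ℕ := Ultrafilter.of (atTop ⊓ 𝓟 {N | ε ≤ ‖av p N‖})
  have hU : (U : Filter ℕ) ≤ atTop ⊓ 𝓟 {N | ε ≤ ‖av p N‖} := Ultrafilter.of_le _
  obtain ⟨δ, hδ⟩ := wk_ulim U (u := av p) (C := C)
    (norm_av_le fun n => by rw [Real.norm_of_nonneg (h0 n)]; exact h1 n)
  refine ⟨U, δ, hU.trans inf_le_left, hε.trans_le (ge_of_tendsto hδ ?_), hδ⟩
  filter_upwards [le_principal_iff.1 (hU.trans inf_le_right)] with N hN
  rwa [Real.norm_of_nonneg (av_nonneg h0 N)] at hN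

/-- Bounded averages converge along an ultrafilter. -/
theorem exists_ulim (U : Ultrafilter ℕ) {p : ℕ → ℂ} (h : ∀ n, ‖p n‖ ≤ C) :
    ∃ L : ℂ, Tendsto (av p) U (𝓝 L) := wk_ulim U (norm_av_le h)

theorem exists_ulim_real (U : Ultrafilter ℕ) {p : ℕ → ℝ} (h : ∀ n, |p n| ≤ C) :
    ∃ L : ℝ, Tendsto (av p) U (𝓝 L) := wk_ulim U (norm_av_le (u := p) h)

/-- A shift of the index does not change the limit of bounded averages. -/
theorem ulim_shift {U : Filter ℕ} (hU : U ≤ atTop) {p : ℤ → ℝ} (h : ∀ n, |p n| ≤ C) (k : ℤ) {L : ℝ}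
    (hL : Tendsto (av fun l : ℕ => p l) U (𝓝 L)) :
    Tendsto (av fun l : ℕ => p (l + k)) U (𝓝 L) := by
  obtain ⟨n, rfl | rfl⟩ := Int.eq_nat_or_neg k
  · have h1 := ((av_shift (u := fun l : ℕ => p l) (fun l => h l) n).mono_left hU).add hL
    simpa only [zero_add, sub_add_cancel, Nat.cast_add] using h1
  · have h1 := hL.sub
      ((av_shift (u := fun l : ℕ => p (l + -(n : ℤ))) (fun l => h _) n).mono_left hU)
    simpa only [sub_zero, Nat.cast_add, add_neg_cancel_right, sub_sub_cancel] using h1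

end Pool.Agent.Lib.MP_1db5af_an.Th
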