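import Pool.Agent.Lib.MP_1db5af_an.Th.ADefs
import Pool.Agent.Lib.MP_1db5af_an.Th.Wk
import Pool.Agent.Lib.MP_1db5af_an.Ae.Rel
import Pool.Agent.Lib.MP_1db5af_an.Ae.Alg

set_option autoImplicit false

namespace Pool.Agent.Lib.MP_1db5af_an.Th

open MeasureTheory ProbabilityTheory Filter Topology ComplexConjugate
open scoped ENNReal NNReal InnerProductSpace

theorem abase_le_cmp {X : Type} {m : MeasurableSpace X} {m0 : MeasurableSpace X} {μ : Measure X}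
    (hm : m ≤ m0) : m ≤ cmp m μ := fun s hs => ⟨hm s hs, s, hs, EventuallyEq.rfl⟩

theorem cmp_aesm {X : Type} {m : MeasurableSpace X} {m0 : MeasurableSpace X} {μ : Measure X}
    (hm : m ≤ m0) {f : X → ℂ} :
    AEStronglyMeasurable[cmp m μ] f μ ↔ AEStronglyMeasurable[m] f μ := by
  refine ⟨fun ⟨g, h1, h2⟩ => AEStronglyMeasurable.congr ?_ h2.symm,
    fun h => h.mono (abase_le_cmp hm)⟩
  refine @StronglyMeasurable.induction X ℂ (cmp m μ) _ _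
    (fun g _ => AEStronglyMeasurable[m] g μ) ?_ ?_ ?_ g h1
  · rintro c s ⟨-, t, ht, e⟩
    exact ⟨_, stronglyMeasurable_const.indicator ht, indicator_ae_eq_of_ae_eq_set e⟩
  · exact fun _ _ _ _ _ _ h h' => h.add h'
  · intro u v _ _ h hl
    choose w hw e using h
    refine ⟨_, @StronglyMeasurable.limUnder ℕ X ℂ m _ _ atTop _ w _ _ hw, ?_⟩
    filter_upwards [ae_all_iff.2 e] with x hx
    simp only [← hx]
    exact (hl x).limUnder_eq.symm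

theorem cmp_condExp {X : Type} {m : MeasurableSpace X} {m0 : MeasurableSpace X} {μ : Measure X}
    [IsFiniteMeasure μ] (hm : m ≤ m0) (f : X → ℂ) : μ[f | cmp m μ] =ᵐ[μ] μ[f | m] := by
  have h1 : cmp m μ ≤ m0 := fun _ h => h.1
  exact (condExp_of_aestronglyMeasurable' hm ((cmp_aesm hm).1
    stronglyMeasurable_condExp.aestronglyMeasurable) integrable_condExp).symm.trans
    (condExp_condExp_of_le (abase_le_cmp hm) h1)

variable {Z : CS} {A B W : Fc Z} {f g : Z.X → ℂ}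

theorem Fc.comap_eq (A : Fc Z) (k : ℤ) : A.m.comap (Z.T k) = A.m := by
  refine le_antisymm (A.inv k).comap_le fun s hs => ⟨_, A.inv (-k) hs, ?_⟩
  ext x
  rw [Set.mem_preimage, Set.mem_preimage, ← Z.sys.add, neg_add_cancel, Z.sys.zero]

theorem bm_top_iff : BM ⊤ f ↔ ∃ C, Bd Z.μ C f := by
  exact ⟨fun h => h.1, fun ⟨C, h⟩ => ⟨⟨C, h⟩, h.1⟩⟩

theorem abase_mk {C : ℝ} (hm : AEStronglyMeasurable[A.m] f Z.μ) (hb : ∀ᵐ x ∂Z.μ, ‖f x‖ ≤ C) :
    BM A f := ⟨⟨C, hm.mono A.le, hb⟩, hm⟩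

theorem abase_meas (h : AEStronglyMeasurable[A.m] f Z.μ) (hg : Measurable g) (e : f =ᵐ[Z.μ] g) :
    Measurable[A.m] g := fun t ht => by
  obtain ⟨f', h1, h2⟩ := h
  refine A.meas_of_ae (hg ht) (h1.measurable ht) ?_
  filter_upwards [e, h2] with x e1 e2
  change (g x ∈ t) = (f' x ∈ t)
  rw [← e1, e2]

theorem BM.mono (h : BM A f) (e : A ≤ B) : BM B f := by
  exact ⟨h.1, h.2.mono e⟩

theorem BM.top (h : BM A f) : BM ⊤ f := h.mono le_top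

theorem BM.integrable (h : BM A f) : Integrable f Z.μ := by
  exact h.1.elim fun _ hC => hC.integrable

theorem BM.memLp (h : BM A f) : MemLp f 2 Z.μ := by
  exact h.1.elim fun _ hC => hC.memLp

theorem BM.congr (h : BM A f) (e : f =ᵐ[Z.μ] g) : BM A g := by
  exact ⟨h.1.imp fun _ hC => hC.congr e, h.2.congr e⟩

theorem bm_const (c : ℂ) : BM A fun _ => c := by
  exact ⟨⟨_, Bd.const c⟩, aestronglyMeasurable_const⟩

theorem BM.mul (h : BM A f) (h' : BM A g) : BM A fun x => f x * g x := by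
  obtain ⟨⟨C, hC⟩, h1⟩ := h
  obtain ⟨⟨D, hD⟩, h2⟩ := h'
  exact ⟨⟨_, hC.mul hD⟩, h1.mul h2⟩

theorem BM.add (h : BM A f) (h' : BM A g) : BM A fun x => f x + g x := by
  obtain ⟨⟨C, hC⟩, h1⟩ := h
  obtain ⟨⟨D, hD⟩, h2⟩ := h'
  exact ⟨⟨_, hC.add hD⟩, h1.add h2⟩

theorem BM.sub (h : BM A f) (h' : BM A g) : BM A fun x => f x - g x := by
  obtain ⟨⟨C, hC⟩, h1⟩ := h
  obtain ⟨⟨D, hD⟩, h2⟩ := h'
  exact ⟨⟨_, hC.sub hD⟩, h1.sub h2⟩

theorem BM.star (h : BM A f) : BM A fun x => conj (f x) := by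
  exact ⟨h.1.imp fun _ hC => hC.star, tw_aesm_conj h.2⟩

theorem BM.norm (h : BM A f) : BM A fun x => (‖f x‖ : ℂ) := by
  obtain ⟨⟨C, hC⟩, h1⟩ := h
  refine abase_mk (C := C)
    ((Complex.continuous_ofReal.comp continuous_norm).comp_aestronglyMeasurable h1) ?_
  filter_upwards [hC.2] with x hx
  rwa [Complex.norm_real, norm_norm]

theorem bm_prod {κ : Type} {s : Finset κ} {F : κ → Z.X → ℂ} (h : ∀ i ∈ s, BM A (F i)) :
    BM A fun x => ∏ i ∈ s, F i x := by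
  classical
  induction s using Finset.induction_on with
  | empty => simpa using bm_const 1
  | insert i s hi ih =>
    simp only [Finset.prod_insert hi]
    exact (h i (Finset.mem_insert_self _ _)).mul (ih fun j hj => h j (Finset.mem_insert_of_mem hj))

theorem bm_sum {κ : Type} {s : Finset κ} {F : κ → Z.X → ℂ} (h : ∀ i ∈ s, BM A (F i)) :
    BM A fun x => ∑ i ∈ s, F i x := by
  classical
  induction s using Finset.induction_on with
  | empty => simpa using bm_const 0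
  | insert i s hi ih =>
    simp only [Finset.sum_insert hi]
    exact (h i (Finset.mem_insert_self _ _)).add (ih fun j hj => h j (Finset.mem_insert_of_mem hj))

theorem bm_bound {κ : Type} {s : Finset κ} {F : κ → Z.X → ℂ} (h : ∀ i ∈ s, BM A (F i)) :
    ∃ C : ℝ, 1 ≤ C ∧ ∀ i ∈ s, Bd Z.μ C (F i) := by
  classical
  induction s using Finset.induction_on with
  | empty => exact ⟨1, le_rfl, by simp⟩
  | insert i s hi ih =>
    obtain ⟨C, h1, h2⟩ := ih fun j hj => h j (Finset.mem_insert_of_mem hj)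
    obtain ⟨D, hD⟩ := (h i (Finset.mem_insert_self _ _)).1
    refine ⟨max C D, h1.trans (le_max_left _ _), fun j hj => ?_⟩
    rcases Finset.mem_insert.1 hj with rfl | hj
    · exact hD.mono (le_max_right _ _)
    · exact (h2 j hj).mono (le_max_left _ _)

theorem bm_ind {s : Set Z.X} (hs : MeasurableSet[A.m] s) :
    BM A (s.indicator fun _ => (1 : ℂ)) := by
  exact ⟨⟨_, tw_bd_ind (A.le _ hs) 1⟩,
    (stronglyMeasurable_const.indicator hs).aestronglyMeasurable⟩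

theorem BM.shift (h : BM A f) (k : ℤ) : BM A fun x => f (Z.T k x) := by
  exact ⟨h.1.imp fun _ hC => hC.comp (Z.sys.mp k), aesm_iter (Z.sys.mp k) (A.inv k) h.2 1⟩

theorem bm_pr {ι : Type} {u : ι → ℕ → ℤ} {J : Finset ι} {F : ι → Z.X → ℂ}
    (h : ∀ a ∈ J, BM A (F a)) (n : ℕ) : BM A (pr Z u J F n) := by
  exact bm_prod fun a ha => (h a ha).shift _

theorem BM.E (h : BM A f) (W : Fc Z) : BM W (W.E f) := by
  exact ⟨h.1.imp fun _ hC => hC.condExp, stronglyMeasurable_condExp.aestronglyMeasurable⟩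

theorem BM.inf (h : BM A f) (h' : BM B f) : BM (A ⊓ B) f := by
  obtain ⟨g, h1, e⟩ := h.top.2
  have h2 : Measurable[(A ⊓ B).m] g := fun t ht =>
    ⟨abase_meas h.2 h1.measurable e ht, abase_meas h'.2 h1.measurable e ht⟩
  exact ⟨h.1, g, h2.stronglyMeasurable, e⟩

theorem bm_sInf {s : Set (Fc Z)} (h0 : BM ⊤ f) (h : ∀ A ∈ s, BM A f) : BM (sInf s) f := by
  obtain ⟨g, h1, e⟩ := h0.2
  have h2 : Measurable[(sInf s).m] g := fun t ht => ⟨h1.measurable ht, by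
    simp only [MeasurableSpace.measurableSet_iInf]
    exact fun A hA => abase_meas (h A hA).2 h1.measurable e ht⟩
  exact ⟨h0.1, g, h2.stronglyMeasurable, e⟩

/-- A version that is measurable and bounded everywhere. -/
theorem BM.version {C : ℝ} (h : BM A f) (hC : Bd Z.μ C f) :
    ∃ f' : Z.X → ℂ, Measurable[A.m] f' ∧ (∀ x, ‖f' x‖ ≤ C) ∧ f =ᵐ[Z.μ] f' := by
  obtain ⟨g, h1, e⟩ := h.2
  refine ⟨{x | ‖g x‖ ≤ C}.indicator g,
    (h1.indicator (h1.norm.measurableSet_le stronglyMeasurable_const)).measurable, fun x => ?_, ?_⟩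
  · by_cases hx : x ∈ {x | ‖g x‖ ≤ C}
    · rwa [Set.indicator_of_mem hx]
    · rw [Set.indicator_of_notMem hx, norm_zero]
      exact hC.nonneg
  · filter_upwards [e, hC.2] with x e1 e2
    rw [e1] at e2 ⊢
    exact (Set.indicator_of_mem (s := {x | ‖g x‖ ≤ C}) e2 g).symm

theorem le_of_bm (h : ∀ f, BM A f → BM B f) : A ≤ B := by
  intro s hs
  have h1 := abase_meas (h _ (bm_ind hs)).2 (measurable_const.indicator (A.le _ hs))
    EventuallyEq.rfl (measurableSet_singleton 1)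
  rwa [show s.indicator (fun _ => (1 : ℂ)) ⁻¹' {1} = s from Set.ext fun x => by
    by_cases hx : x ∈ s <;> simp [hx]] at h1

theorem BM.E_self (h : BM W f) : W.E f =ᵐ[Z.μ] f := by
  exact condExp_of_aestronglyMeasurable' W.le h.2 h.integrable

theorem E_congr (e : f =ᵐ[Z.μ] g) : W.E f =ᵐ[Z.μ] W.E g := condExp_congr_ae e

theorem E_mul (hf : BM W f) (hg : BM ⊤ g) :
    W.E (fun x => f x * g x) =ᵐ[Z.μ] fun x => f x * W.E g x := by
  exact condExp_bilin_of_aestronglyMeasurable_left (ContinuousLinearMap.mul ℝ ℂ) hf.2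
    (hf.top.mul hg).integrable hg.integrable

theorem E_add (hf : BM ⊤ f) (hg : BM ⊤ g) :
    W.E (fun x => f x + g x) =ᵐ[Z.μ] fun x => W.E f x + W.E g x := by
  exact condExp_add hf.integrable hg.integrable W.m

theorem E_sub (hf : BM ⊤ f) (hg : BM ⊤ g) :
    W.E (fun x => f x - g x) =ᵐ[Z.μ] fun x => W.E f x - W.E g x := by
  exact condExp_sub hf.integrable hg.integrable W.m

theorem E_sum {κ : Type} {s : Finset κ} {F : κ → Z.X → ℂ} (h : ∀ i ∈ s, BM ⊤ (F i)) :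
    W.E (fun x => ∑ i ∈ s, F i x) =ᵐ[Z.μ] fun x => ∑ i ∈ s, W.E (F i) x := by
  have h1 := condExp_finsetSum (fun i hi => (h i hi).integrable) W.m
  rwa [Finset.sum_fn, Finset.sum_fn] at h1

theorem E_star (hf : BM ⊤ f) : W.E (fun x => conj (f x)) =ᵐ[Z.μ] fun x => conj (W.E f x) := by
  exact ((Complex.conjCLE : ℂ →L[ℝ] ℂ).comp_condExp_comm (m := W.m) hf.integrable).symm

theorem E_E (e : A ≤ B) : A.E (B.E f) =ᵐ[Z.μ] A.E f := by
  exact condExp_condExp_of_le e B.le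

theorem E_shift (hf : BM ⊤ f) (k : ℤ) :
    W.E (fun x => f (Z.T k x)) =ᵐ[Z.μ] fun x => W.E f (Z.T k x) := by
  exact hf.1.elim fun _ hC => rel_cond_comp (Z.sys.mp k) W.le (W.comap_eq k) hC

theorem int_shift (hf : BM ⊤ f) (k : ℤ) : ∫ x, f (Z.T k x) ∂Z.μ = ∫ x, f x ∂Z.μ := by
  exact integral_iter (Z.sys.mp k) hf.2 1

theorem norm_L2_shift (hf : BM ⊤ f) (k : ℤ) :
    ‖L2 Z.μ fun x => f (Z.T k x)‖ = ‖L2 Z.μ f‖ := by
  exact norm_L2_comp (Z.sys.mp k) hf.memLp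

theorem int_E : ∫ x, W.E f x ∂Z.μ = ∫ x, f x ∂Z.μ := by
  exact integral_condExp W.le

theorem int_mul_E (hf : BM W f) (hg : BM ⊤ g) :
    ∫ x, f x * W.E g x ∂Z.μ = ∫ x, f x * g x ∂Z.μ := by
  obtain ⟨C, hC⟩ := hf.1
  obtain ⟨D, hD⟩ := hg.1
  exact (tw_int_condExp W.le hC hf.2 hD).symm

theorem int_E_mul (hf : BM ⊤ f) (hg : BM ⊤ g) :
    ∫ x, W.E f x * g x ∂Z.μ = ∫ x, f x * W.E g x ∂Z.μ := by
  have h1 := int_mul_E (hf.E W) hg
  have h2 := int_mul_E (hg.E W) hf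
  simp only [mul_comm] at h1 h2 ⊢
  exact h1.symm.trans h2

theorem abase_pyth (hf : BM ⊤ f) (hg : BM W g) : ‖L2 Z.μ f - L2 Z.μ g‖ ^ 2 =
    ‖L2 Z.μ f - L2 Z.μ (W.E f)‖ ^ 2 + ‖L2 Z.μ (W.E f) - L2 Z.μ g‖ ^ 2 := by
  have h1 := (hf.E W).sub hg
  have h2 : ⟪L2 Z.μ f - L2 Z.μ (W.E f), L2 Z.μ (W.E f) - L2 Z.μ g⟫_ℂ = 0 := by
    rw [inner_eq_zero_symm, ← L2_sub (hf.E W).memLp hg.memLp, inner_sub_right,
      inner_L2 h1.memLp hf.memLp, inner_L2 h1.memLp (hf.E W).memLp, sub_eq_zero]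
    have h3 := int_mul_E h1.star hf
    simp only [mul_comm] at h3 ⊢
    exact h3.symm
  rw [← sub_add_sub_cancel _ (L2 Z.μ (W.E f)), sq, sq, sq]
  exact norm_add_sq_eq_norm_sq_add_norm_sq_of_inner_eq_zero _ _ h2

theorem abase_best (hf : BM ⊤ f) (hg : BM W g) :
    ‖L2 Z.μ f - L2 Z.μ (W.E f)‖ ≤ ‖L2 Z.μ f - L2 Z.μ g‖ := by
  refine (pow_le_pow_iff_left₀ (norm_nonneg _) (norm_nonneg _) two_ne_zero).1 ?_
  rw [abase_pyth hf hg]
  exact le_add_of_nonneg_right (sq_nonneg _)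

theorem abase_pyth0 (hf : BM ⊤ f) :
    ‖L2 Z.μ f‖ ^ 2 = ‖L2 Z.μ f - L2 Z.μ (W.E f)‖ ^ 2 + ‖L2 Z.μ (W.E f)‖ ^ 2 := by
  have h := abase_pyth hf (bm_const (A := W) 0)
  rwa [L2_zero, sub_zero, sub_zero] at h

theorem norm_L2_E_le (hf : BM ⊤ f) : ‖L2 Z.μ (W.E f)‖ ≤ ‖L2 Z.μ f‖ := by
  refine (pow_le_pow_iff_left₀ (norm_nonneg _) (norm_nonneg _) two_ne_zero).1 ?_
  rw [abase_pyth0 (W := W) hf]
  exact le_add_of_nonneg_left (sq_nonneg _)

theorem norm_L2_sub_E (hf : BM ⊤ f) :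
    ‖L2 Z.μ f - L2 Z.μ (W.E f)‖ ^ 2 = ‖L2 Z.μ f‖ ^ 2 - ‖L2 Z.μ (W.E f)‖ ^ 2 := by
  rw [abase_pyth0 (W := W) hf, add_sub_cancel_right]

theorem ae_of_L2 (hf : BM ⊤ f) (hg : BM ⊤ g) (e : L2 Z.μ f = L2 Z.μ g) : f =ᵐ[Z.μ] g := by
  exact (L2_coe hf.memLp).symm.trans (e ▸ L2_coe hg.memLp)

theorem norm_L2_int (hf : BM ⊤ f) :
    ((‖L2 Z.μ f‖ ^ 2 : ℝ) : ℂ) = ∫ x, f x * conj (f x) ∂Z.μ := by
  rw [← inner_L2 hf.memLp hf.memLp, inner_self_eq_norm_sq_to_K]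
  simp

theorem abase_eq (hf : BM W f) (hg : BM W g)
    (h : ∀ a, BM W a → ∫ x, a x * f x ∂Z.μ = ∫ x, a x * g x ∂Z.μ) : f =ᵐ[Z.μ] g := by
  have h1 := hf.sub hg
  have h2 := h _ h1.star
  rw [← sub_eq_zero, ← integral_sub (h1.star.mul hf).integrable (h1.star.mul hg).integrable] at h2
  refine ae_of_L2 hf.top hg.top (sub_eq_zero.1 ?_)
  rw [← L2_sub hf.memLp hg.memLp, ← inner_self_eq_zero (𝕜 := ℂ), inner_L2 h1.memLp h1.memLp, ← h2]
  exact integral_congr_ae (Eventually.of_forall fun x => by ring)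

theorem E_eq_of_int (hf : BM ⊤ f) (hg : BM W g)
    (h : ∀ a, BM W a → ∫ x, a x * f x ∂Z.μ = ∫ x, a x * g x ∂Z.μ) : W.E f =ᵐ[Z.μ] g := by
  exact abase_eq (hf.E W) hg fun a ha => (int_mul_E ha hf).trans (h a ha)

theorem ae_eq_of_int (hf : BM ⊤ f) (hg : BM ⊤ g)
    (h : ∀ a, BM ⊤ a → ∫ x, a x * f x ∂Z.μ = ∫ x, a x * g x ∂Z.μ) : f =ᵐ[Z.μ] g := by
  exact abase_eq hf hg h

/-- Bounded limits in the mean of `W`-measurable functions. -/
theorem bm_of_appr (hf : BM ⊤ f) (h : ∀ ε : ℝ, 0 < ε → ∃ v, BM W v ∧ ‖L2 Z.μ f - L2 Z.μ v‖ ≤ ε) :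
    BM W f := by
  refine (hf.E W).congr (ae_of_L2 hf (hf.E W).top (sub_eq_zero.1 (norm_le_zero_iff.1 ?_))).symm
  refine le_of_forall_pos_le_add fun ε hε => ?_
  obtain ⟨v, hv, e⟩ := h ε hε
  rw [zero_add]
  exact (abase_best hf hv).trans e

/-- A countable family that is dense in the mean in the unit ball of the bounded functions. -/
theorem exists_dense_ball (Z : CS) : ∃ d : ℕ → Z.X → ℂ, (∀ i, Measurable (d i) ∧ ∀ x, ‖d i x‖ ≤ 1) ∧
    ∀ f, Bd Z.μ 1 f → ∀ ε : ℝ, 0 < ε → ∃ i, ‖L2 Z.μ f - L2 Z.μ (d i)‖ ≤ ε := by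
  have : Fact ((2 : ENNReal) ≠ ⊤) := ⟨by simp⟩
  obtain ⟨t, t1, t2, t3⟩ := (TopologicalSpace.IsSeparable.of_separableSpace
    {v : Lp ℂ 2 Z.μ | ∃ g : Z.X → ℂ, (Measurable g ∧ ∀ x, ‖g x‖ ≤ 1) ∧
      v = L2 Z.μ g}).exists_countable_dense_subset
  obtain ⟨c, rfl⟩ := t2.exists_eq_range (Set.Nonempty.of_closure
    ⟨_, t3 ⟨fun _ => 0, ⟨measurable_const, fun _ => by simp⟩, rfl⟩⟩)
  choose d h1 h2 using fun i => t1 (Set.mem_range_self (f := c) i)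
  refine ⟨d, h1, fun f hf ε hε => ?_⟩
  obtain ⟨f', a1, a2, a3⟩ := (bm_top_iff.2 ⟨1, hf⟩).version hf
  obtain ⟨_, ⟨i, rfl⟩, h3⟩ := Metric.mem_closure_iff.1 (t3 ⟨f', ⟨a1, a2⟩, L2_congr a3⟩) ε hε
  exact ⟨i, by rw [← h2, ← dist_eq_norm]; exact h3.le⟩

theorem abase_contr (e : B ≤ A) (hf : BM ⊤ f) (hg : BM B g) :
    ‖L2 Z.μ (B.E f) - L2 Z.μ g‖ ≤ ‖L2 Z.μ (A.E f) - L2 Z.μ g‖ := by
  refine (pow_le_pow_iff_left₀ (norm_nonneg _) (norm_nonneg _) two_ne_zero).1 ?_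
  rw [abase_pyth (hf.E A).top hg, L2_congr (E_E e)]
  exact le_add_of_nonneg_left (sq_nonneg _)

theorem abase_min {s : Set (Fc Z)} (hs : s.Nonempty) (hf : BM ⊤ f) {δ : ℝ} (hδ : 0 < δ) :
    ∃ A ∈ s, ∀ D ∈ s, D ≤ A → ‖L2 Z.μ (A.E f) - L2 Z.μ (D.E f)‖ ≤ δ := by
  obtain ⟨_, ⟨A, hA, rfl⟩, h1⟩ := Real.lt_sInf_add_pos
    (hs.image fun A : Fc Z => ‖L2 Z.μ (A.E f)‖ ^ 2) (pow_pos hδ 2)
  refine ⟨A, hA, fun D hD e => (pow_le_pow_iff_left₀ (norm_nonneg _) hδ.le two_ne_zero).1 ?_⟩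
  have h2 := norm_L2_sub_E (W := D) (hf.E A).top
  rw [L2_congr (E_E e)] at h2
  have h3 : sInf ((fun A : Fc Z => ‖L2 Z.μ (A.E f)‖ ^ 2) '' s) ≤ ‖L2 Z.μ (D.E f)‖ ^ 2 :=
    csInf_le ⟨0, by rintro _ ⟨B, -, rfl⟩; exact sq_nonneg _⟩ ⟨D, hD, rfl⟩
  dsimp only at h1
  linarith

/-- Conditional expectations converge along a downward directed family. -/
theorem E_chain {s : Set (Fc Z)} (hs : s.Nonempty) (hd : DirectedOn (· ≥ ·) s) (hf : BM ⊤ f)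
    {ε : ℝ} (hε : 0 < ε) :
    ∃ A ∈ s, ∀ B ∈ s, B ≤ A → ‖L2 Z.μ (B.E f) - L2 Z.μ ((sInf s).E f)‖ ≤ ε := by
  choose A hA h1 using fun n : ℕ => abase_min hs hf (Nat.one_div_pos_of_nat (α := ℝ) (n := n))
  have h0 : Tendsto (fun n : ℕ => 1 / ((n : ℝ) + 1)) atTop (𝓝 0) :=
    tendsto_one_div_add_atTop_nhds_zero_nat
  obtain ⟨p, hp⟩ := cauchySeq_tendsto_of_complete (cauchySeq_of_le_tendsto_0'
    (s := fun n => L2 Z.μ ((A n).E f)) (fun n => 2 * (1 / ((n : ℝ) + 1))) (fun n m hnm => by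
      obtain ⟨D, hD, l, l'⟩ := hd _ (hA n) _ (hA m)
      have a1 := h1 n D hD l
      have a2 := h1 m D hD l'
      have a3 : 1 / ((m : ℝ) + 1) ≤ 1 / ((n : ℝ) + 1) := Nat.one_div_le_one_div hnm
      rw [← dist_eq_norm] at a1 a2
      exact (dist_triangle_right _ _ (L2 Z.μ (D.E f))).trans (by linarith))
    (by simpa using h0.const_mul 2))
  obtain ⟨C, hC⟩ := hf.1
  have hp0 : BM ⊤ p := bm_top_iff.2 ⟨C, (closed_Bd le_rfl (fun n => hC.condExp)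
    (fun n => (hf.E (A n)).top.2) hp).1⟩
  have h2 : ∀ δ : ℝ, 0 < δ → ∀ᶠ n in atTop, ‖L2 Z.μ ((A n).E f) - L2 Z.μ p‖ ≤ δ := fun δ hδ => by
    rw [L2_Lp]
    exact (tendsto_iff_norm_sub_tendsto_zero.1 hp).eventually (eventually_le_nhds hδ)
  have h3 : ∀ B ∈ s, BM B p := fun B hB => bm_of_appr hp0 fun δ hδ => by
    obtain ⟨n, a1, a2⟩ := ((h2 _ (half_pos hδ)).and
      (h0.eventually (eventually_le_nhds (half_pos hδ)))).exists
    obtain ⟨D, hD, l, l'⟩ := hd _ (hA n) _ hB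
    have a3 := h1 n D hD l
    rw [norm_sub_rev] at a1
    exact ⟨_, (hf.E D).mono l', (norm_sub_le_norm_sub_add_norm_sub _ (L2 Z.μ ((A n).E f)) _).trans
      (by linarith)⟩
  obtain ⟨n, a1⟩ := (h2 _ (half_pos hε)).exists
  refine ⟨A n, hA n, fun B hB l => ?_⟩
  have a2 := abase_contr l hf (h3 B hB)
  have a3 := abase_contr (sInf_le (hA n)) hf (bm_sInf hp0 h3)
  rw [norm_sub_rev] at a3
  exact (norm_sub_le_norm_sub_add_norm_sub _ (L2 Z.μ p) _).trans (by linarith)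

theorem abase_alg {s : Set (Fc Z)} (hs : s.Nonempty) (hd : DirectedOn (· ≤ ·) s) :
    Alg Z.μ fun g => BM ⊤ g ∧ ∀ ε : ℝ, 0 < ε → ∃ A ∈ s, ∃ v, BM A v ∧
      ‖L2 Z.μ g - L2 Z.μ v‖ ≤ ε := by
  refine ⟨fun g h => h.1.1, fun c => ⟨bm_const c, fun ε hε => hs.imp fun A hA =>
    ⟨hA, _, bm_const c, by rw [sub_self, norm_zero]; exact hε.le⟩⟩,
    fun g g' h h' => ⟨h.1.add h'.1, fun ε hε => ?_⟩,
    fun g g' h h' => ⟨h.1.mul h'.1, fun ε hε => ?_⟩,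
    fun g h => ⟨h.1.star, fun ε hε => ?_⟩,
    fun g C hg h => ⟨bm_top_iff.2 ⟨C, hg⟩, fun ε hε => ?_⟩⟩
  · obtain ⟨A, hA, v, hv, e⟩ := h.2 _ (half_pos hε)
    obtain ⟨A', hA', v', hv', e'⟩ := h'.2 _ (half_pos hε)
    obtain ⟨D, hD, l, l'⟩ := hd A hA A' hA'
    refine ⟨D, hD, _, (hv.mono l).add (hv'.mono l'), ?_⟩
    rw [L2_add h.1.memLp h'.1.memLp, L2_add hv.memLp hv'.memLp, add_sub_add_comm]
    exact (norm_add_le _ _).trans (by linarith)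
  · obtain ⟨C, hC⟩ := h.1.1
    have c1 := hC.nonneg
    obtain ⟨A', hA', v', hv', e'⟩ := h'.2 (ε / 2 / (C + 1)) (by positivity)
    obtain ⟨C', hC'⟩ := hv'.1
    have c2 := hC'.nonneg
    obtain ⟨A, hA, v, hv, e⟩ := h.2 (ε / 2 / (C' + 1)) (by positivity)
    obtain ⟨D, hD, l, l'⟩ := hd A hA A' hA'
    refine ⟨D, hD, _, (hv.mono l).mul (hv'.mono l'), ?_⟩
    have b1 := h'.1.sub hv'.top
    have b2 := h.1.sub hv.top
    have a1 := hC.norm_L2_mul b1.memLp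
    have a2 := hC'.norm_L2_mul b2.memLp
    rw [L2_sub h'.1.memLp hv'.memLp] at a1
    rw [L2_sub h.1.memLp hv.memLp] at a2
    rw [le_div_iff₀ (by positivity)] at e e'
    rw [← L2_sub (h.1.mul h'.1).memLp (hv.top.mul hv'.top).memLp,
      show (fun x => g x * g' x - v x * v' x) = fun x => g x * (g' x - v' x) + v' x * (g x - v x)
        from funext fun x => by ring, L2_add (h.1.mul b1).memLp (hv'.top.mul b2).memLp]
    refine (norm_add_le _ _).trans ?_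
    nlinarith [norm_nonneg (L2 Z.μ g' - L2 Z.μ v'), norm_nonneg (L2 Z.μ g - L2 Z.μ v)]
  · obtain ⟨A, hA, v, hv, e⟩ := h.2 _ hε
    refine ⟨A, hA, _, hv.star, e.trans_eq' ?_⟩
    rw [← L2_sub h.1.star.memLp hv.star.memLp, ← L2_sub h.1.memLp hv.memLp,
      ← sq_eq_sq₀ (norm_nonneg _) (norm_nonneg _), norm_L2_sq (h.1.star.sub hv.top.star).memLp,
      norm_L2_sq (h.1.sub hv.top).memLp]
    simp only [← map_sub, Complex.norm_conj]
  · obtain ⟨u, hu, e⟩ := h _ (half_pos hε)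
    obtain ⟨A, hA, v, hv, e'⟩ := hu.2 _ (half_pos hε)
    exact ⟨A, hA, v, hv, (norm_sub_le_norm_sub_add_norm_sub _ (L2 Z.μ u) _).trans (by linarith)⟩

/-- Functions measurable for a directed supremum are approximated inside the family. -/
theorem appr_dir {s : Set (Fc Z)} (hs : s.Nonempty) (hd : DirectedOn (· ≤ ·) s)
    (hf : BM (sSup s) f) {ε : ℝ} (hε : 0 < ε) :
    ∃ A ∈ s, ‖L2 Z.μ f - L2 Z.μ (A.E f)‖ ≤ ε := by
  obtain ⟨m, h1, h2, -⟩ := ae_alg_sigma le_rfl (abase_alg hs hd)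
  have h3 : ∀ A ∈ s, A.m ≤ m := fun A hA t ht => (h1 t).2 ⟨A.le t ht, (bm_ind ht).top,
    fun δ hδ => ⟨A, hA, _, bm_ind ht, by rw [sub_self, norm_zero]; exact hδ.le⟩⟩
  have h4 : (sSup s).m ≤ m :=
    sup_le (hs.elim fun A hA => (Fc.bot_le' A).trans (h3 A hA)) (iSup₂_le h3)
  obtain ⟨C, hC⟩ := hf.1
  obtain ⟨A, hA, v, hv, e⟩ := (h2 f C hC (hf.2.mono h4)).2 ε hε
  exact ⟨A, hA, (abase_best hf.top hv).trans e⟩

end Pool.Agent.Lib.MP_1db5af_an.Th
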