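import Pool.Agent.Lib.MP_1db5af_an.Th.ADefs

set_option autoImplicit false

namespace Pool.Agent.Lib.MP_1db5af_an.Th

open MeasureTheory ProbabilityTheory Filter Topology ComplexConjugate
open scoped ENNReal NNReal InnerProductSpace

/-- The symbolic space. -/
abbrev Sg : Type := ℕ × ℤ → Bool

/-- The shift of the symbolic space. -/
def shG (k : ℤ) (s : Sg) : Sg := fun i => s (i.1, i.2 + k)

/-- The factor `A` is generated by the map `p`. -/
def Gens {Z : CS} {S : Type} [mS : MeasurableSpace S] (A : Fc Z) (p : Z.X → S) : Prop :=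
  A.m = cmp (mS.comap p) Z.μ

/-- Bounded measurable functions. -/
def BMe {S : Type} [MeasurableSpace S] (φ : S → ℂ) : Prop := Measurable φ ∧ ∃ C, ∀ s, ‖φ s‖ ≤ C

/-- The system on a finite power of the symbolic space. -/
@[reducible] noncomputable def mkZ {κ : Type} [Fintype κ] (ν : Measure (κ → Sg))
    [IsProbabilityMeasure ν] (h : Sys ν (piT shG)) : CS :=
  { X := κ → Sg, μ := ν, T := piT shG, sys := h }

/-- Symbolic codings of factors above `W`. -/
structure Cod {κ : Type} (Y : CS) (W : Fc Y) (A : κ → Fc Y) (p : κ → Y.X → Sg) : Prop where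
  gens : ∀ i, Gens (A i) (p i)
  meas : ∀ i, Measurable (p i)
  comm : ∀ i k y, p i (Y.T k y) = shG k (p i y)
  le : ∀ i, W ≤ A i

/-- The relatively independent product of the codings. -/
structure Mod {κ : Type} [Fintype κ] {Y : CS} (W : Fc Y) (A : κ → Fc Y) (p : κ → Y.X → Sg)
    {ν : Measure (κ → Sg)} [IsProbabilityMeasure ν] (h : Sys ν (piT shG)) (W' : Fc (mkZ ν h))
    (A' : κ → Fc (mkZ ν h)) : Prop where
  int : ∀ φ : κ → Sg → ℂ, (∀ i, BMe (φ i)) →
    ∫ y, ∏ i, φ i (y i) ∂ν = ∫ z, ∏ i, W.E (fun z => φ i (p i z)) z ∂Y.μ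
  gens : ∀ i, Gens (A' i) fun y : κ → Sg => y i
  le : ∀ i, W' ≤ A' i
  wch : ∀ i φ, BMe φ → (BM W' (fun y : κ → Sg => φ (y i)) ↔ BM W fun z => φ (p i z))
  ci : ∀ J J' : Finset κ, Disjoint J J' → CI W' (⨆ i ∈ J, A' i) (⨆ i ∈ J', A' i)
  top : ⨆ i, A' i = ⊤
  wm : ∀ i, WM W (A i) → WM W' (A' i)
  fail : ∀ (ι : Type) [Fintype ι] (u : ι → ℕ → ℤ) (i : κ), FailR u W (A i) → FailR u W' (A' i)

/-- The change of the first coordinate along the coordinate `i`. -/
def thM (θ : Sg × Sg → Sg) (i : Fin 4) (y : Option (Fin 4) → Sg) : Option (Fin 4) → Sg :=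
  Function.update y none (θ (y none, y (some i)))

/-- The permutation of the last coordinates. -/
def pmM (s : Equiv.Perm (Fin 4)) (y : Option (Fin 4) → Sg) : Option (Fin 4) → Sg :=
  fun j => y (j.map s)

/-- One object in the first place and four copies of another one. -/
def fam {α : Type} (a b : α) : Option (Fin 4) → α := fun j => j.elim a fun _ => b

end Pool.Agent.Lib.MP_1db5af_an.Th
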