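import Pool.Agent.Lib.MP_1db5af_an.Th.AWm
import Pool.Agent.Lib.MP_1db5af_an.Ae.Alg

set_option autoImplicit false

namespace Pool.Agent.Lib.MP_1db5af_an.Th

open MeasureTheory ProbabilityTheory Filter Topology ComplexConjugate
open scoped ENNReal NNReal InnerProductSpace

variable {Z : CS} {A A' B C D : Fc Z}

theorem closed_top : Closed (⊤ : Fc Z) := by
  exact wm_self

theorem closed_sInf {s : Set (Fc Z)} (h : ∀ C ∈ s, Closed C) : Closed (sInf s) := by
  exact wm_of_cpt le_top fun g hg hB =>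
    bm_sInf hB fun C hC => cr (h C hC) le_top (hg.mono (sInf_le hC)) hB

theorem Closed.inf (h : Closed A) (h' : Closed B) : Closed (A ⊓ B) := by
  exact wm_of_cpt le_top fun g hg hB =>
    (cr h le_top (hg.mono inf_le_left) hB).inf (cr h' le_top (hg.mono inf_le_right) hB)

theorem Closed.wm (h : Closed C) (B : Fc Z) : WM C B := by
  exact WM.mono h le_top

theorem Closed.wm_inf (h : Closed C) (B : Fc Z) : WM (B ⊓ C) B := by
  exact wm_of_cpt inf_le_left fun g hg hB =>
    hB.inf (cr h le_top (hg.mono inf_le_right) hB.top)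

theorem le_cl (A : Fc Z) : A ≤ cl A := by
  exact le_sInf fun _ hC => hC.1

theorem cl_closed (A : Fc Z) : Closed (cl A) := by
  exact closed_sInf fun _ hC => hC.2

theorem cl_le (h : Closed C) (e : A ≤ C) : cl A ≤ C := by
  exact sInf_le ⟨e, h⟩

theorem cl_mono (e : A ≤ B) : cl A ≤ cl B := by
  exact cl_le (cl_closed B) (e.trans (le_cl B))

theorem cl_le_cl (e : A ≤ cl B) : cl A ≤ cl B := by
  exact cl_le (cl_closed B) e

theorem Closed.cl_eq (h : Closed C) : cl C = C := by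
  exact le_antisymm (cl_le h le_rfl) (le_cl C)

theorem cl_eq_cl (e : A ≤ cl B) (e' : B ≤ cl A) : cl A = cl B := by
  exact le_antisymm (cl_le_cl e) (cl_le_cl e')

theorem Dist.le (h : Dist A A') : A ≤ A' := by
  induction h with
  | base => exact le_rfl
  | step B C _ e _ ih => exact ih.trans e
  | lim s hs _ _ ih =>
    obtain ⟨B, hB⟩ := hs
    exact (ih B hB).trans (le_sSup hB)

theorem Dist.le_closed (h : Dist A A') (hC : Closed C) (e : A ≤ C) : A' ≤ C := by
  induction h with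
  | base => exact e
  | step B B' _ _ h ih => exact le_of_bm fun f hf => cr hC le_top ((h f hf).mono ih) hf.top
  | lim s _ _ _ ih => exact sSup_le ih

theorem acl_shift {g : Z.X → ℂ} (h : CptF B g) (k : ℤ) : CptF B fun x => g (Z.T k x) := by
  have hb : BM ⊤ g := bm_top_iff.2 h.1
  induction k using Int.induction_on with
  | zero => simpa only [Z.sys.zero] using h
  | succ k ih =>
    have h1 := ae_cpt_comp (m := B.m) (m0 := Z.ms) (Z.sys.mp 1) ih
    simpa only [CptF, ← Z.sys.add] using h1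
  | pred k ih =>
    obtain ⟨C, hC⟩ := (hb.shift (-(k : ℤ) - 1)).1
    refine ae_cpt_of_comp (m := B.m) (m0 := Z.ms) hC ?_
    simpa only [CptF, ← Z.sys.add, sub_add_cancel] using ih

theorem acl_meas {g : Z.X → ℂ} (h : BM B g) : CptF B g := by
  obtain ⟨⟨C, hC⟩, h⟩ := h
  exact ae_cpt_meas (m := B.m) (m0 := Z.ms) (Z.sys.mp 1) (B.inv 1) hC h

/-- The factor of the functions that are compact over `B`. -/
theorem acl_step (B : Fc Z) :
    ∃ C : Fc Z, B ≤ C ∧ (∀ g, BM C g → CptF B g) ∧ ∀ g, CptF B g → BM C g := by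
  obtain ⟨m', k1, k2, k3⟩ := ae_alg_sigma (m1 := Z.ms) (m0 := Z.ms) le_rfl
    (ae_cpt_alg (m := B.m) (m0 := Z.ms) (Z.sys.mp 1))
  have h1 : ∀ s, MeasurableSet[B.m] s → MeasurableSet[m'] s := fun s hs =>
    (k1 s).2 ⟨B.le s hs, acl_meas (bm_ind hs)⟩
  refine ⟨⟨m', fun s hs => ((k1 s).1 hs).1, fun s hs h0 => h1 s (B.null s hs h0),
    fun k s hs => ?_⟩, h1, fun g hg => hg.1.elim fun C hC => k2 g C hC hg.2,
    fun g hg => ⟨hg.1, k3 g hg (bm_top_iff.2 hg.1).2⟩⟩
  obtain ⟨k4, k5⟩ := (k1 s).1 hs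
  exact (k1 _).2 ⟨(⊤ : Fc Z).inv k k4, acl_shift k5 k⟩

theorem cl_dist (A : Fc Z) : Dist A (cl A) := by
  obtain ⟨B, -, hB, hmax⟩ := zorn_le_nonempty₀ {B : Fc Z | Dist A B}
    (fun c hc hch y hy => ⟨sSup c, Dist.lim c ⟨y, hy⟩ hch.directedOn fun _ h => hc h,
      fun _ hz => le_sSup hz⟩) A Dist.base
  obtain ⟨C, k1, k2, k3⟩ := acl_step B
  have h1 : C ≤ B := hmax (Dist.step B C hB k1 k2) k1
  have h2 : Closed B := wm_of_cpt le_top fun g hg _ => (k3 g hg).mono h1
  rwa [le_antisymm (cl_le h2 (Dist.le hB)) (Dist.le_closed hB (cl_closed A) (le_cl A))]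

theorem fw_dist (h : WM D B) (e : D ≤ B) (e' : D ≤ A) (hc : CI D A B) (hd : Dist A A') :
    CI D A' B := by
  induction hd with
  | base => exact hc
  | step B' C hB' e1 h1 ih =>
    have e2 : D ≤ B' := e'.trans hB'.le
    refine ci_of_E (e2.trans e1) fun b hb => (hb.E D).congr (EventuallyEq.symm ?_)
    have hb0 : BM B fun x => b x - D.E b x := hb.sub ((hb.E D).mono e)
    have h0 : B'.E (fun x => b x - D.E b x) =ᵐ[Z.μ] 0 := by
      filter_upwards [ih.E_eq e2 hb0, E_sub (W := D) hb.top (hb.E D).top, (hb.E D).E_self]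
        with x h1 h2 h3
      rw [h1, h2, h3, sub_self, Pi.zero_apply]
    refine E_eq_of_int hb.top ((hb.E D).mono (e2.trans e1)) fun a ha => ?_
    have h2 := cpt_orth (wm_join h e e2 ih) le_sup_left (h1 a ha) (hb0.mono le_sup_right) h0
    simp only [mul_sub] at h2
    rwa [integral_sub (ha.top.mul hb.top).integrable (ha.top.mul (hb.E D).top).integrable,
      sub_eq_zero] at h2
  | lim s hs hdir h1 ih =>
    obtain ⟨B', hB'⟩ := id hs
    refine ci_of_E ((e'.trans (h1 B' hB').le).trans (le_sSup hB')) fun b hb => ?_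
    refine bm_of_appr (hb.E _).top fun ε hε => ?_
    obtain ⟨C, hC, h2⟩ := appr_dir hs hdir (hb.E (sSup s)) hε
    refine ⟨_, (hb.E D).congr (EventuallyEq.symm ?_), h2⟩
    exact (E_E (le_sSup hC)).trans ((ih C hC).E_eq (e'.trans (h1 C hC).le) hb)

theorem fw (h : WM D B) (e : D ≤ B) (e' : D ≤ A) (hc : CI D A B) : CI D (cl A) B :=
  fw_dist h e e' hc (cl_dist A)

end Pool.Agent.Lib.MP_1db5af_an.Th
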