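import Pool.Agent.Lib.MP_1db5af_an.Th.APb

set_option autoImplicit false

namespace Pool.Agent.Lib.MP_1db5af_an.Th

open MeasureTheory ProbabilityTheory Filter Topology ComplexConjugate
open scoped ENNReal NNReal InnerProductSpace

theorem relpi_meas {κ S : Type} [Fintype κ] [MeasurableSpace S] {φ : κ → S → ℂ}
    (h : ∀ i, Measurable (φ i)) : Measurable fun y : κ → S => ∏ i, φ i (y i) :=
  Finset.measurable_fun_prod _ fun i _ => (h i).comp (measurable_pi_apply i)

theorem relpi_ind {S : Type} [MeasurableSpace S] {s : Set S} (hs : MeasurableSet s) :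
    Measurable (s.indicator fun _ => (1 : ℂ)) ∧ ∃ C, ∀ x, ‖s.indicator (fun _ => (1 : ℂ)) x‖ ≤ C :=
  ⟨measurable_const.indicator hs, 1, fun x =>
    (norm_indicator_le_norm_self (fun _ => (1 : ℂ)) x).trans norm_one.le⟩

theorem relpi_bm {Z : CS} {f : Z.X → ℂ} (hf : Measurable f) {C : ℝ} (h : ∀ z, ‖f z‖ ≤ C) :
    BM ⊤ f := bm_top_iff.2 ⟨C, hf.aestronglyMeasurable, Eventually.of_forall h⟩

theorem relpi_ext {κ S : Type} [Fintype κ] [MeasurableSpace S] {ν ν' : Measure (κ → S)}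
    [IsProbabilityMeasure ν] [IsProbabilityMeasure ν']
    (h : ∀ φ : κ → S → ℂ, (∀ i, Measurable (φ i) ∧ ∃ C, ∀ s, ‖φ i s‖ ≤ C) →
      ∫ y, ∏ i, φ i (y i) ∂ν = ∫ y, ∏ i, φ i (y i) ∂ν') : ν = ν' := by
  refine ext_of_generate_finite _ generateFrom_pi.symm isPiSystem_pi ?_ (by simp)
  rintro _ ⟨s, hs, rfl⟩
  have hm : ∀ i, MeasurableSet (s i) := fun i => hs i (Set.mem_univ i)
  have h1 := h (fun i => (s i).indicator fun _ => (1 : ℂ)) fun i => relpi_ind (hm i)
  have e : ∀ y : κ → S, ∏ i, (s i).indicator (fun _ => (1 : ℂ)) (y i) =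
      (Set.univ.pi s).indicator (fun _ => (1 : ℂ)) y := by
    intro y
    by_cases hy : y ∈ Set.univ.pi s
    · rw [Set.indicator_of_mem hy]
      exact Finset.prod_eq_one fun i _ => Set.indicator_of_mem (hy i (Set.mem_univ i)) _
    · rw [Set.indicator_of_notMem hy]
      simp only [Set.mem_pi, Set.mem_univ, true_imp_iff, not_forall] at hy
      obtain ⟨i, hi⟩ := hy
      exact Finset.prod_eq_zero (Finset.mem_univ i) (Set.indicator_of_notMem hi _)
  have hb : MeasurableSet (Set.univ.pi s) := MeasurableSet.univ_pi hm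
  simp only [e] at h1
  rw [integral_indicator_const _ hb, integral_indicator_const _ hb, Complex.real_smul,
    Complex.real_smul, mul_one, mul_one] at h1
  exact (measureReal_eq_measureReal_iff (measure_ne_top _ _) (measure_ne_top _ _)).1
    (Complex.ofReal_injective h1)

/-- The relatively independent product of finitely many factor maps over `W`. -/
theorem relpi {κ : Type} [Fintype κ] (Z : CS) (W : Fc Z) {S : Type} [MeasurableSpace S]
    {TS : ℤ → S → S} (hS : MAct TS) {p : κ → Z.X → S} (hp : ∀ i, Measurable (p i))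
    (hc : ∀ i k, ∀ᵐ z ∂Z.μ, p i (Z.T k z) = TS k (p i z)) :
    ∃ ν : Measure (κ → S), IsProbabilityMeasure ν ∧ Sys ν (piT TS) ∧
      ∀ φ : κ → S → ℂ, (∀ i, Measurable (φ i) ∧ ∃ C, ∀ s, ‖φ i s‖ ≤ C) →
        ∫ y, ∏ i, φ i (y i) ∂ν = ∫ z, ∏ i, W.E (fun z => φ i (p i z)) z ∂Z.μ := by
  let K : Kernel Z.X Z.X := (condExpKernel Z.μ W.m).comap id (measurable_id'' W.le)
  have hK : ∀ x, K x = condExpKernel Z.μ W.m x := fun _ => rfl
  have : IsMarkovKernel K := Kernel.IsMarkovKernel.comap _ (measurable_id'' W.le)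
  have : ∀ i, IsMarkovKernel (K.map (p i)) := fun i => Kernel.IsMarkovKernel.map K (hp i)
  obtain ⟨P, hP, hPe⟩ := exists_piK fun i => K.map (p i)
  have hF : ∀ φ : κ → S → ℂ, (∀ i, Measurable (φ i) ∧ ∃ C, ∀ s, ‖φ i s‖ ≤ C) →
      ∫ y, ∏ i, φ i (y i) ∂(Z.μ ⊗ₘ P).snd = ∫ z, ∏ i, W.E (fun z => φ i (p i z)) z ∂Z.μ := by
    intro φ hφ
    choose hm C hC using hφ
    have h1 := relpi_meas hm
    have h2 : Integrable (fun q : Z.X × (κ → S) => ∏ i, φ i (q.2 i)) (Z.μ ⊗ₘ P) :=
      Integrable.of_bound (h1.comp measurable_snd).aestronglyMeasurable (∏ i, C i)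
        (Eventually.of_forall fun q => by
          rw [norm_prod]
          exact Finset.prod_le_prod (fun i _ => norm_nonneg _) fun i _ => hC i _)
    rw [Measure.snd, integral_map measurable_snd.aemeasurable h1.aestronglyMeasurable,
      Measure.integral_compProd h2]
    refine integral_congr_ae ?_
    filter_upwards [ae_all_iff.2 fun i => condExp_ae_eq_integral_condExpKernel W.le
      (relpi_bm ((hm i).comp (hp i)) fun z => hC i (p i z)).integrable] with z hz
    rw [hPe, integral_fintype_prod_eq_prod]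
    refine Finset.prod_congr rfl fun i _ => ?_
    rw [Kernel.map_apply _ (hp i), integral_map (hp i).aemeasurable (hm i).aestronglyMeasurable, hK]
    exact (hz i).symm
  have hA := mact_pi (κ := κ) hS
  refine ⟨(Z.μ ⊗ₘ P).snd, inferInstance, ⟨hA, fun k => ⟨hA.meas k, ?_⟩⟩, hF⟩
  have : IsProbabilityMeasure ((Z.μ ⊗ₘ P).snd.map (piT TS k)) :=
    Measure.isProbabilityMeasure_map (hA.meas k).aemeasurable
  refine relpi_ext fun φ hφ => ?_
  have hφ' : ∀ i, Measurable (fun s => φ i (TS k s)) ∧ ∃ C, ∀ s, ‖φ i (TS k s)‖ ≤ C := fun i => by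
    obtain ⟨h1, C, hC⟩ := hφ i
    exact ⟨h1.comp (hS.meas k), C, fun s => hC _⟩
  have hb : ∀ i, BM ⊤ fun z => φ i (p i z) := fun i => by
    obtain ⟨h1, C, hC⟩ := hφ i
    exact relpi_bm (h1.comp (hp i)) fun z => hC _
  rw [integral_map (hA.meas k).aemeasurable (relpi_meas fun i => (hφ i).1).aestronglyMeasurable,
    hF φ hφ, ← int_shift (bm_prod fun i _ => ((hb i).E W).top) k]
  refine (hF _ hφ').trans (integral_congr_ae ?_)
  have h3 : ∀ i, W.E (fun z => φ i (TS k (p i z))) =ᵐ[Z.μ]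
      fun z => W.E (fun z => φ i (p i z)) (Z.T k z) := fun i =>
    (E_congr (by filter_upwards [hc i k] with z hz using by rw [hz])).trans (E_shift (hb i) k)
  filter_upwards [ae_all_iff.2 h3] with z hz
  exact Finset.prod_congr rfl fun i _ => hz i

/-- Probability measures on a finite power are determined by the integrals of products. -/
theorem pi_ext {κ S : Type} [Fintype κ] [MeasurableSpace S] {ν ν' : Measure (κ → S)}
    [IsProbabilityMeasure ν] [IsProbabilityMeasure ν']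
    (h : ∀ φ : κ → S → ℂ, (∀ i, Measurable (φ i) ∧ ∃ C, ∀ s, ‖φ i s‖ ≤ C) →
      ∫ y, ∏ i, φ i (y i) ∂ν = ∫ y, ∏ i, φ i (y i) ∂ν') : ν = ν' := relpi_ext h

section Sq

variable {Z Y : CS} {W : Fc Z} {p q : Y.X → Z.X}

theorem relpi_le (hp : Hom Y Z p) (hq : Hom Y Z q)
    (h : ∀ f g, BM ⊤ f → BM ⊤ g →
      ∫ y, f (p y) * g (q y) ∂Y.μ = ∫ z, W.E f z * W.E g z ∂Z.μ) {f : Z.X → ℂ} (hf : BM W f) :
    (fun y => f (p y)) =ᵐ[Y.μ] fun y => f (q y) := by
  have b1 := bm_pb_top hp hf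
  have b2 := bm_pb_top hq hf
  have h1 : ∫ y, f (p y) * conj (f (q y)) ∂Y.μ = ∫ z, f z * conj (f z) ∂Z.μ := by
    rw [h f (fun z => conj (f z)) hf.top hf.star.top]
    refine integral_congr_ae ?_
    filter_upwards [hf.E_self, hf.star.E_self] with z e1 e2
    rw [e1, e2]
  have h2 : ∫ y, f (q y) * conj (f (p y)) ∂Y.μ = ∫ z, f z * conj (f z) ∂Z.μ := by
    simp only [mul_comm (f _)]
    simp only [mul_comm _ (f (q _))]
    simp only [mul_comm (f (q _))]
    rw [h (fun z => conj (f z)) f hf.star.top hf.top]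
    refine integral_congr_ae ?_
    filter_upwards [hf.E_self, hf.star.E_self] with z e1 e2
    rw [e1, e2]
  have h3 : ∫ y, f (p y) * conj (f (p y)) ∂Y.μ = ∫ z, f z * conj (f z) ∂Z.μ :=
    int_pb hp (hf.mul hf.star).top
  have h4 : ∫ y, f (q y) * conj (f (q y)) ∂Y.μ = ∫ z, f z * conj (f z) ∂Z.μ :=
    int_pb hq (hf.mul hf.star).top
  have h5 := norm_L2_int (b1.sub b2)
  have e : ∀ y, (f (p y) - f (q y)) * conj (f (p y) - f (q y)) =
      (f (p y) * conj (f (p y)) - f (p y) * conj (f (q y))) -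
        (f (q y) * conj (f (p y)) - f (q y) * conj (f (q y))) := fun y => by
    rw [map_sub]; ring
  simp only [e] at h5
  rw [integral_sub ((b1.mul b1.star).sub (b1.mul b2.star)).integrable
      ((b2.mul b1.star).sub (b2.mul b2.star)).integrable,
    integral_sub (b1.mul b1.star).integrable (b1.mul b2.star).integrable,
    integral_sub (b2.mul b1.star).integrable (b2.mul b2.star).integrable, h1, h2, h3, h4,
    sub_self, Complex.ofReal_eq_zero, pow_eq_zero_iff two_ne_zero, norm_eq_zero,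
    L2_sub b1.memLp b2.memLp, sub_eq_zero] at h5
  exact ae_of_L2 b1 b2 h5

theorem relpi_sq (hp : Hom Y Z p) (hq : Hom Y Z q)
    (h : ∀ f g, BM ⊤ f → BM ⊤ g →
      ∫ y, f (p y) * g (q y) ∂Y.μ = ∫ z, W.E f z * W.E g z ∂Z.μ) :
    pb hp W = pb hq W ∧ CI (pb hp W) (pb hp ⊤) (pb hq ⊤) ∧
      ∀ w, BM W w → (fun y => w (p y)) =ᵐ[Y.μ] fun y => w (q y) := by
  refine ⟨le_antisymm ((pb_le_iff hp).2 fun f hf => (bm_pb hq hf).congr (relpi_le hp hq h hf).symm)
    ((pb_le_iff hq).2 fun f hf => (bm_pb hp hf).congr (relpi_le hp hq h hf)),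
    ci_of_E (pb_mono hp le_top) fun b hb => ?_, fun w hw => relpi_le hp hq h hw⟩
  obtain ⟨g, hg, e⟩ := exists_of_bm_pb hq hb
  refine (bm_pb hp (hg.E W)).congr ((E_congr e).trans
    (E_eq_of_int (bm_pb_top hq hg) (bm_pb hp (hg.E W).top) fun a ha => ?_)).symm
  obtain ⟨f, hf, e'⟩ := exists_of_bm_pb hp ha
  have h1 : ∫ y, a y * g (q y) ∂Y.μ = ∫ y, f (p y) * g (q y) ∂Y.μ :=
    integral_congr_ae (by filter_upwards [e'] with y hy using by rw [hy])
  have h2 : ∫ y, a y * W.E g (p y) ∂Y.μ = ∫ y, f (p y) * W.E g (p y) ∂Y.μ :=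
    integral_congr_ae (by filter_upwards [e'] with y hy using by rw [hy])
  rw [h1, h2, h f g hf hg, int_E_mul hf (hg.E W).top]
  refine Eq.trans (integral_congr_ae ?_) (int_pb hp (hf.mul (hg.E W).top)).symm
  filter_upwards [(hg.E W).E_self] with z hz
  rw [hz]

end Sq

/-- The relative square. -/
theorem exists_sq (Z : CS) (W : Fc Z) : ∃ (Y : CS) (p q : Y.X → Z.X) (hp : Hom Y Z p)
    (hq : Hom Y Z q), pb hp W = pb hq W ∧ CI (pb hp W) (pb hp ⊤) (pb hq ⊤) ∧
      ∀ w, BM W w → (fun y => w (p y)) =ᵐ[Y.μ] fun y => w (q y) := by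
  obtain ⟨ν, hν, hs, hF⟩ := relpi (κ := Bool) Z W Z.sys.toMAct (p := fun _ z => z)
    (fun _ => measurable_id) fun _ _ => Eventually.of_forall fun _ => rfl
  have h2 : ∀ f g : Z.X → ℂ, (Measurable f ∧ ∃ C, ∀ s, ‖f s‖ ≤ C) →
      (Measurable g ∧ ∃ C, ∀ s, ‖g s‖ ≤ C) →
      ∫ y, f (y true) * g (y false) ∂ν = ∫ z, W.E f z * W.E g z ∂Z.μ := by
    intro f g hf hg
    have h := hF (fun i => cond i f g) fun i => by cases i; exacts [hg, hf]
    simpa only [Fintype.prod_bool, cond_true, cond_false] using h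
  have h1 : Measurable (fun _ : Z.X => (1 : ℂ)) ∧ ∃ C, ∀ _ : Z.X, ‖(1 : ℂ)‖ ≤ C :=
    ⟨measurable_const, 1, fun _ => norm_one.le⟩
  have hE : W.E (fun _ => (1 : ℂ)) =ᵐ[Z.μ] fun _ => 1 := (bm_const 1).E_self
  have hm : ∀ i, MeasurePreserving (fun y : Bool → Z.X => y i) ν Z.μ := by
    intro i
    refine ⟨measurable_pi_apply i, Measure.ext fun s hs => ?_⟩
    have h3 : ∫ y, s.indicator (fun _ => (1 : ℂ)) (y i) ∂ν =
        ∫ z, s.indicator (fun _ => (1 : ℂ)) z ∂Z.μ := by
      rw [← int_E (W := W)]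
      cases i
      · have h4 := h2 _ _ h1 (relpi_ind hs)
        simp only [one_mul] at h4
        refine h4.trans (integral_congr_ae ?_)
        filter_upwards [hE] with z hz
        rw [hz, one_mul]
      · have h4 := h2 _ _ (relpi_ind hs) h1
        simp only [mul_one] at h4
        refine h4.trans (integral_congr_ae ?_)
        filter_upwards [hE] with z hz
        rw [hz, mul_one]
    rw [← integral_map (measurable_pi_apply i).aemeasurable (relpi_ind hs).1.aestronglyMeasurable,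
      integral_indicator_const _ hs, integral_indicator_const _ hs, Complex.real_smul,
      Complex.real_smul, mul_one, mul_one] at h3
    exact (measureReal_eq_measureReal_iff (measure_ne_top _ _) (measure_ne_top _ _)).1
      (Complex.ofReal_injective h3)
  let Y : CS := { X := Bool → Z.X, μ := ν, T := piT Z.T, sys := hs }
  have hh : ∀ i, Hom Y Z fun y => y i := fun i => ⟨hm i, fun _ => Eventually.of_forall fun _ => rfl⟩
  refine ⟨Y, _, _, hh true, hh false, relpi_sq (hh true) (hh false) fun f g hf hg => ?_⟩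
  obtain ⟨C, hC⟩ := hf.1
  obtain ⟨D, hD⟩ := hg.1
  obtain ⟨f', m1, b1, e1⟩ := hf.version hC
  obtain ⟨g', m2, b2, e2⟩ := hg.version hD
  refine Eq.trans (integral_congr_ae ?_) ((h2 f' g' ⟨m1, C, b1⟩ ⟨m2, D, b2⟩).trans
    (integral_congr_ae ?_))
  · filter_upwards [ae_pb (hh true) e1, ae_pb (hh false) e2] with y k1 k2
    exact congrArg₂ (· * ·) k1 k2
  · filter_upwards [E_congr (W := W) e1, E_congr (W := W) e2] with z k1 k2
    rw [k1, k2]

end Pool.Agent.Lib.MP_1db5af_an.Th
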