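import Pool.Agent.Lib.MP_1db5af_an.Th.ASym
import Pool.Agent.Lib.MP_1db5af_an.Th.RelPi

set_option autoImplicit false

namespace Pool.Agent.Lib.MP_1db5af_an.Th

open MeasureTheory ProbabilityTheory Filter Topology ComplexConjugate
open scoped ENNReal NNReal InnerProductSpace

theorem acubea_norm {Z : CS} {W : Fc Z} {f : Z.X → ℂ} (hf : BM ⊤ f)
    (h : ‖L2 Z.μ (W.E f)‖ = ‖L2 Z.μ f‖) : f =ᵐ[Z.μ] W.E f := by
  have e := norm_L2_sub_E (W := W) hf
  rw [h, sub_self, pow_eq_zero_iff two_ne_zero, norm_eq_zero, sub_eq_zero] at e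
  exact ae_of_L2 hf (hf.E W).top e

theorem acubea_bm_iff {Z Y : CS} {π : Z.X → Y.X} (h : Hom Z Y π) {D : Fc Y} {f : Y.X → ℂ}
    (hf : BM ⊤ f) : BM (pb h D) (fun z => f (π z)) ↔ BM D f := by
  refine ⟨fun h1 => (hf.E D).congr (acubea_norm hf ?_).symm, bm_pb h⟩
  rw [← norm_L2_pb h hf, ← norm_L2_pb h (hf.E D).top,
    L2_congr ((E_pb h hf).symm.trans h1.E_self)]

theorem acubea_prod {α κ : Type} {l : Filter α} {J : Finset κ} {f g : κ → α → ℂ}
    (h : ∀ i ∈ J, f i =ᶠ[l] g i) : (fun x => ∏ i ∈ J, f i x) =ᶠ[l] fun x => ∏ i ∈ J, g i x :=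
  ((eventually_all_finset J).2 h).mono fun _ hx => Finset.prod_congr rfl hx

/-- The abstract form of the model. -/
structure AcubeaD {κ : Type} [Fintype κ] {Y Z : CS} {X : κ → CS} {p : ∀ i, Y.X → (X i).X}
    {e : ∀ i, Z.X → (X i).X} (hp : ∀ i, Hom Y (X i) (p i)) (he : ∀ i, Hom Z (X i) (e i))
    (W : Fc Y) (D : ∀ i, Fc (X i)) : Prop where
  eq : ∀ i, pb (hp i) (D i) = W
  int : ∀ φ : ∀ i, (X i).X → ℂ, (∀ i, BM ⊤ (φ i)) →
    ∫ z, ∏ i, φ i (e i z) ∂Z.μ = ∫ y, ∏ i, W.E (fun y => φ i (p i y)) y ∂Y.μ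

section

variable {κ : Type} [Fintype κ] {Y Z : CS} {X : κ → CS} {p : ∀ i, Y.X → (X i).X}
  {e : ∀ i, Z.X → (X i).X} {hp : ∀ i, Hom Y (X i) (p i)} {he : ∀ i, Hom Z (X i) (e i)}
  {W : Fc Y} {D : ∀ i, Fc (X i)}

theorem AcubeaD.bm (h : AcubeaD hp he W D) {i : κ} {f : (X i).X → ℂ} (hf : BM (D i) f) :
    BM W fun y => f (p i y) := h.eq i ▸ bm_pb (hp i) hf

theorem AcubeaD.ex (h : AcubeaD hp he W D) (i : κ) {F : Y.X → ℂ} (hF : BM W F) :
    ∃ f, BM (D i) f ∧ F =ᵐ[Y.μ] fun y => f (p i y) :=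
  exists_of_bm_pb (hp i) ((h.eq i).symm ▸ hF)

theorem AcubeaD.intJ (h : AcubeaD hp he W D) {o : κ} {ω : (X o).X → ℂ} (hω : BM (D o) ω)
    {J : Finset κ} {φ : ∀ i, (X i).X → ℂ} (hφ : ∀ i ∈ J, BM ⊤ (φ i)) :
    ∫ z, ω (e o z) * ∏ i ∈ J, φ i (e i z) ∂Z.μ =
      ∫ y, ω (p o y) * ∏ i ∈ J, W.E (fun y => φ i (p i y)) y ∂Y.μ := by
  classical
  let Ω : ∀ i, (X i).X → ℂ := Function.update (fun _ _ => 1) o ω
  have h1 : ∀ i, BM (D i) (Ω i) := fun i => by
    rcases eq_or_ne i o with rfl | hi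
    · simp only [Ω, Function.update_self]
      exact hω
    · simp only [Ω, Function.update_of_ne hi]
      exact bm_const 1
  have h2 : ∀ x : ∀ i, (X i).X, ∏ i, Ω i (x i) = ω (x o) := fun x => by
    rw [Finset.prod_eq_single o (fun i _ hi => by simp only [Ω, Function.update_of_ne hi])
      fun hn => absurd (Finset.mem_univ o) hn]
    simp only [Ω, Function.update_self]
  let χ : ∀ i, (X i).X → ℂ := fun i s => if i ∈ J then φ i s else 1
  have h3 : ∀ i, BM ⊤ (χ i) := fun i => by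
    by_cases hi : i ∈ J
    · simp only [χ, if_pos hi]
      exact hφ i hi
    · simp only [χ, if_neg hi]
      exact bm_const 1
  have h4 : ∀ i, W.E (fun y => Ω i (p i y) * χ i (p i y)) =ᵐ[Y.μ]
      fun y => Ω i (p i y) * if i ∈ J then W.E (fun y => φ i (p i y)) y else 1 := fun i => by
    refine (E_mul (h.bm (h1 i)) (bm_pb_top (hp i) (h3 i))).trans ?_
    by_cases hi : i ∈ J
    · simp only [χ, if_pos hi]
      rfl
    · simp only [χ, if_neg hi]
      filter_upwards [(bm_const (A := W) 1).E_self] with y hy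
      rw [hy]
  have h5 := h.int (fun i s => Ω i s * χ i s) fun i => (h1 i).top.mul (h3 i)
  rw [integral_congr_ae (acubea_prod fun i _ => h4 i)] at h5
  simp only [Finset.prod_mul_distrib, h2 fun i => e i _, h2 fun i => p i _, χ,
    Fintype.prod_ite_mem] at h5
  exact h5

theorem AcubeaD.cond (h : AcubeaD hp he W D) {o : κ} {J : Finset κ} {φ : ∀ i, (X i).X → ℂ}
    {ψ : κ → (X o).X → ℂ} (hφ : ∀ i ∈ J, BM ⊤ (φ i)) (hψ : ∀ i ∈ J, BM (D o) (ψ i))
    (hE : ∀ i ∈ J, W.E (fun y => φ i (p i y)) =ᵐ[Y.μ] fun y => ψ i (p o y)) :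
    (pb (he o) (D o)).E (fun z => ∏ i ∈ J, φ i (e i z)) =ᵐ[Z.μ]
      fun z => ∏ i ∈ J, ψ i (e o z) := by
  refine E_eq_of_int (bm_prod fun i hi => bm_pb_top (he i) (hφ i hi))
    (bm_prod fun i hi => bm_pb (he o) (hψ i hi)) fun a ha => ?_
  obtain ⟨ω, hω, e1⟩ := exists_of_bm_pb (he o) ha
  have h1 := (hω.mul (bm_prod hψ)).top
  calc ∫ z, a z * ∏ i ∈ J, φ i (e i z) ∂Z.μ = ∫ z, ω (e o z) * ∏ i ∈ J, φ i (e i z) ∂Z.μ :=
        integral_congr_ae (e1.mul EventuallyEq.rfl)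
    _ = ∫ y, ω (p o y) * ∏ i ∈ J, ψ i (p o y) ∂Y.μ :=
        (h.intJ hω hφ).trans (integral_congr_ae (EventuallyEq.rfl.mul (acubea_prod hE)))
    _ = ∫ z, ω (e o z) * ∏ i ∈ J, ψ i (e o z) ∂Z.μ :=
        (int_pb (hp o) h1).trans (int_pb (he o) h1).symm
    _ = _ := integral_congr_ae (e1.symm.mul EventuallyEq.rfl)

theorem AcubeaD.same (h : AcubeaD hp he W D) {o i : κ} {f : (X i).X → ℂ} {g : (X o).X → ℂ}
    (hf : BM ⊤ f) (hg : BM (D o) g) (e1 : (fun y => f (p i y)) =ᵐ[Y.μ] fun y => g (p o y)) :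
    (fun z => f (e i z)) =ᵐ[Z.μ] fun z => g (e o z) := by
  classical
  have h1 := h.cond (o := o) (J := {i}) (φ := Function.update (fun _ _ => 0) i f) (ψ := fun _ => g)
    (fun j hj => by
      rw [Finset.mem_singleton.1 hj, Function.update_self]
      exact hf) (fun _ _ => hg) fun j hj => by
      rw [Finset.mem_singleton.1 hj, Function.update_self]
      exact (E_congr e1).trans (h.bm hg).E_self
  simp only [Finset.prod_singleton, Function.update_self] at h1
  refine (acubea_norm (bm_pb_top (he i) hf) ?_).trans h1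
  rw [L2_congr h1, norm_L2_pb (he o) hg.top, norm_L2_pb (he i) hf, ← norm_L2_pb (hp o) hg.top,
    ← norm_L2_pb (hp i) hf, L2_congr e1]

theorem AcubeaD.le (h : AcubeaD hp he W D) (i o : κ) : pb (he i) (D i) ≤ pb (he o) (D o) := by
  refine (pb_le_iff (he i)).2 fun f hf => ?_
  obtain ⟨g, hg, e1⟩ := h.ex o (h.bm hf)
  exact (bm_pb (he o) hg).congr (h.same hf.top hg e1).symm

theorem AcubeaD.mul (h : AcubeaD hp he W D) (o : κ) {J : Finset κ} {a : κ → Z.X → ℂ}
    (ha : ∀ i ∈ J, BM (pb (he i) ⊤) (a i)) :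
    (pb (he o) (D o)).E (fun z => ∏ i ∈ J, a i z) =ᵐ[Z.μ]
      fun z => ∏ i ∈ J, (pb (he o) (D o)).E (a i) z := by
  choose! φ hφ e1 using fun i hi => exists_of_bm_pb (he i) (ha i hi)
  choose! ψ hψ e2 using fun i hi => h.ex o ((bm_pb_top (hp i) (hφ i hi)).E W)
  refine (E_congr (acubea_prod e1)).trans ((h.cond hφ hψ e2).trans
    (acubea_prod fun i hi => EventuallyEq.symm ((E_congr (e1 i hi)).trans ?_)))
  have h1 := h.cond (J := {i}) (fun j hj => hφ j (Finset.mem_singleton.1 hj ▸ hi))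
    (fun j hj => hψ j (Finset.mem_singleton.1 hj ▸ hi))
    fun j hj => e2 j (Finset.mem_singleton.1 hj ▸ hi)
  simp only [Finset.prod_singleton] at h1
  exact h1

theorem AcubeaD.ci (h : AcubeaD hp he W D) (o : κ) {J J' : Finset κ} (hd : Disjoint J J') :
    CI (pb (he o) (D o)) (⨆ i ∈ J, pb (he i) ⊤) (⨆ i ∈ J', pb (he i) ⊤) := by
  classical
  rcases J.eq_empty_or_nonempty with rfl | hJ
  · exact ci_of_le (iSup₂_le fun i hi => absurd hi (Finset.notMem_empty i))
  rcases J'.eq_empty_or_nonempty with rfl | hJ'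
  · exact (ci_of_le (iSup₂_le fun i hi => absurd hi (Finset.notMem_empty i))).symm
  refine ci_of_appr (fun _ => appr_row hJ) (fun _ => appr_row hJ') ?_
  rintro _ _ - - ⟨a, ha, rfl⟩ ⟨b, hb, rfl⟩
  have n : ∀ i ∈ J', i ∉ J := fun i hi => Finset.disjoint_right.1 hd hi
  have h1 := h.mul o (J := J ∪ J') (a := fun i => if i ∈ J then a i else b i) fun i hi => by
    by_cases h2 : i ∈ J
    · rw [if_pos h2]
      exact ha i h2
    · rw [if_neg h2]
      exact hb i ((Finset.mem_union.1 hi).resolve_left h2)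
  have e1 : ∀ F : (Z.X → ℂ) → ℂ, ∏ i ∈ J ∪ J', F (if i ∈ J then a i else b i) =
      (∏ i ∈ J, F (a i)) * ∏ i ∈ J', F (b i) := fun F => by
    rw [Finset.prod_union hd, Finset.prod_congr rfl fun i hi => congrArg F (if_pos hi),
      Finset.prod_congr rfl fun i hi => congrArg F (if_neg (n i hi))]
  rw [funext fun z => e1 fun c => c z, funext fun z => e1 fun c => (pb (he o) (D o)).E c z] at h1
  exact h1.trans ((h.mul o ha).symm.mul (h.mul o hb).symm)

end

/-- The image of a system under a coding. -/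
@[reducible] noncomputable def acubeaX {Y : CS} {p : Y.X → Sg} (hp : Measurable p)
    (hc : ∀ k y, p (Y.T k y) = shG k (p y)) : CS where
  X := Sg
  μ := Y.μ.map p
  prob := Measure.isProbabilityMeasure_map hp.aemeasurable
  T := shG
  sys := ⟨mact_shG, fun k => ⟨mact_shG.meas k, by
    rw [Measure.map_map (mact_shG.meas k) hp, show shG k ∘ p = p ∘ Y.T k from
      funext fun y => (hc k y).symm, ← Measure.map_map hp (Y.sys.meas k), (Y.sys.mp k).map_eq]⟩⟩

/-- The image of a factor under a coding. -/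
noncomputable def acubeaF {Y : CS} {p : Y.X → Sg} (hp : Measurable p)
    (hc : ∀ k y, p (Y.T k y) = shG k (p y)) (W : Fc Y) : Fc (acubeaX hp hc) where
  m := (acubeaX hp hc).ms ⊓ W.m.map p
  le := inf_le_left
  null := fun s hs h0 => ⟨hs, W.null _ (hp hs) ((Measure.map_apply hp hs).symm.trans h0)⟩
  inv := fun k s hs => ⟨mact_shG.meas k hs.1, by
    have e : p ⁻¹' (shG k ⁻¹' s) = Y.T k ⁻¹' (p ⁻¹' s) :=
      Set.ext fun y => by simp only [Set.mem_preimage, hc]
    change MeasurableSet[W.m] (p ⁻¹' (shG k ⁻¹' s))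
    rw [e]
    exact W.inv k hs.2⟩

theorem acubea_bme {Z : CS} {φ : Z.X → ℂ} (h : BMe φ) : BM ⊤ φ :=
  bm_top_iff.2 (h.2.imp fun _ hC => ⟨h.1.aestronglyMeasurable, ae_of_all _ hC⟩)

theorem model {κ : Type} [Fintype κ] [Nonempty κ] {Y : CS} {W : Fc Y} {A : κ → Fc Y}
    {p : κ → Y.X → Sg} (hc : Cod Y W A p) :
    ∃ (ν : Measure (κ → Sg)) (_ : IsProbabilityMeasure ν) (h : Sys ν (piT shG))
      (W' : Fc (mkZ ν h)) (A' : κ → Fc (mkZ ν h)), Mod W A p h W' A' := by
  classical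
  obtain ⟨ν, hν, h, hint⟩ := relpi Y W mact_shG hc.meas fun i k => ae_of_all _ (hc.comm i k)
  let X : κ → CS := fun i => acubeaX (hc.meas i) (hc.comm i)
  let D : ∀ i, Fc (X i) := fun i => acubeaF (hc.meas i) (hc.comm i) W
  have hp : ∀ i, Hom Y (X i) (p i) := fun i =>
    ⟨⟨hc.meas i, rfl⟩, fun k => ae_of_all _ (hc.comm i k)⟩
  have he : ∀ i, Hom (mkZ ν h) (X i) fun y => y i := fun i => by
    refine ⟨⟨measurable_pi_apply i, Measure.ext fun s hs => ?_⟩, fun k => ae_of_all _ fun _ => rfl⟩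
    let φ : κ → Sg → ℂ := fun j => if j = i then s.indicator fun _ => 1 else fun _ => 1
    have h1 := hint φ fun j => by
      by_cases hj : j = i
      · simp only [φ, if_pos hj]
        exact ⟨measurable_const.indicator hs, 1, fun t =>
          (norm_indicator_le_norm_self _ _).trans norm_one.le⟩
      · simp only [φ, if_neg hj]
        exact ⟨measurable_const, 1, fun _ => norm_one.le⟩
    have h2 : ∀ y : κ → Sg, ∏ j, φ j (y j) = ((fun y => y i) ⁻¹' s).indicator (fun _ => 1) y :=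
      fun y => by
        rw [Finset.prod_eq_single i (fun j _ hj => by simp only [φ, if_neg hj])
          fun hn => absurd (Finset.mem_univ i) hn]
        simp only [φ, if_pos]
        rfl
    have h3 : (fun z => ∏ j, W.E (fun z => φ j (p j z)) z) =ᵐ[Y.μ]
        W.E ((p i ⁻¹' s).indicator fun _ => 1) := by
      filter_upwards [(bm_const (A := W) 1).E_self] with z hz
      rw [Finset.prod_eq_single i (fun j _ hj => by simp only [φ, if_neg hj, hz])
        fun hn => absurd (Finset.mem_univ i) hn]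
      simp only [φ, if_pos]
      rfl
    simp only [h2] at h1
    rw [integral_congr_ae h3, int_E, integral_indicator_const _ (measurable_pi_apply i hs),
      integral_indicator_const _ (hc.meas i hs), Complex.real_smul, Complex.real_smul, mul_one,
      mul_one, Complex.ofReal_inj, measureReal_eq_measureReal_iff] at h1
    exact (Measure.map_apply (measurable_pi_apply i) hs).trans
      (h1.trans (Measure.map_apply (hc.meas i) hs).symm)
  have hA : ∀ i, pb (hp i) ⊤ = A i := fun i => Fc.ext (hc.gens i).symm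
  have hD : AcubeaD hp he W D := by
    refine ⟨fun i => le_antisymm ?_ fun s hs => ?_, fun φ hφ => ?_⟩
    · rintro s ⟨h1, _, ⟨t, ht, rfl⟩, e⟩
      exact W.meas_of_ae h1 ht.2 e
    · have h1 := hc.le i s hs
      rw [← hA i] at h1
      obtain ⟨h2, _, ⟨t, ht, rfl⟩, e⟩ := h1
      exact ⟨h2, _, ⟨t, ⟨ht, W.meas_of_ae (hc.meas i ht) hs e.symm⟩, rfl⟩, e⟩
    · choose C hC using fun i => (hφ i).1
      choose ψ h1 h2 h3 using fun i => (hφ i).version (hC i)
      exact (integral_congr_ae (acubea_prod fun i _ => ae_pb (he i) (h3 i))).trans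
        ((hint ψ fun i => ⟨h1 i, C i, h2 i⟩).trans
          (integral_congr_ae (acubea_prod fun i _ => E_congr (ae_pb (hp i) (h3 i)))).symm)
  obtain ⟨o⟩ := ‹Nonempty κ›
  have hW : ∀ i, pb (he o) (D o) = pb (he i) (D i) := fun i => le_antisymm (hD.le o i) (hD.le i o)
  refine ⟨ν, hν, h, pb (he o) (D o), fun i => pb (he i) ⊤, hint, fun _ => rfl,
    fun i => (hW i).le.trans (pb_mono (he i) le_top), fun i φ hφ => ?_, fun J J' => hD.ci o,
    top_unique ?_, fun i hw => ?_, fun ι _ u i hw => ?_⟩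
  · rw [hW i, ← hD.eq i]
    exact (acubea_bm_iff (he i) (acubea_bme hφ)).trans
      (acubea_bm_iff (hp i) (acubea_bme hφ)).symm
  · refine Fc.le_def.2 (iSup_le fun i => le_trans (fun s hs => ?_)
      (Fc.le_def.1 (le_iSup (fun i => pb (he i) ⊤) i)))
    exact ⟨(measurable_pi_apply i).comap_le s hs, s, hs, EventuallyEq.rfl⟩
  · rw [← hD.eq i, ← hA i] at hw
    rw [hW i]
    exact wm_pb (he i) (wm_of_pb (hp i) hw)
  · rw [← hD.eq i, ← hA i] at hw
    rw [hW i]
    exact (failR_pb (he i)).2 ((failR_pb (hp i)).1 hw)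

end Pool.Agent.Lib.MP_1db5af_an.Th
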