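import Pool.Agent.Lib.MP_1db5af_an.Th.ASym
import Pool.Agent.Lib.MP_1db5af_an.Th.RelPi

set_option autoImplicit false

namespace Pool.Agent.Lib.MP_1db5af_an.Th

open MeasureTheory ProbabilityTheory Filter Topology ComplexConjugate
open scoped ENNReal NNReal InnerProductSpace

variable {Y : CS} {W M M' P : Fc Y} {pM pM' pP : Y.X → Sg} {θ θ' : Sg × Sg → Sg}
  {ν ν' : Measure (Option (Fin 4) → Sg)} [IsProbabilityMeasure ν] [IsProbabilityMeasure ν']
  {h : Sys ν (piT shG)} {h' : Sys ν' (piT shG)} {V : Fc (mkZ ν h)} {V' : Fc (mkZ ν' h')}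
  {A : Option (Fin 4) → Fc (mkZ ν h)} {A' : Option (Fin 4) → Fc (mkZ ν' h')}

theorem acubeb_mul {S : Type} [MeasurableSpace S] {φ ψ : S → ℂ} (a : BMe φ) (b : BMe ψ) :
    BMe fun s => φ s * ψ s :=
  let ⟨C, hC⟩ := a.2
  let ⟨D, hD⟩ := b.2
  ⟨a.1.mul b.1, C * D, fun s => (norm_mul_le _ _).trans
    (mul_le_mul (hC s) (hD s) (norm_nonneg _) ((norm_nonneg _).trans (hC s)))⟩

theorem acubeb_comp {S S' : Type} [MeasurableSpace S] [MeasurableSpace S'] {φ : S → ℂ} (a : BMe φ)
    {r : S' → S} (hr : Measurable r) : BMe fun s => φ (r s) :=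
  ⟨a.1.comp hr, a.2.imp fun _ k _ => k _⟩

theorem acubeb_one {S : Type} [MeasurableSpace S] : BMe fun _ : S => (1 : ℂ) :=
  ⟨measurable_const, 1, fun _ => by simp⟩

theorem acubeb_ind {S : Type} [MeasurableSpace S] {s : Set S} (hs : MeasurableSet s) :
    BMe (s.indicator fun _ => (1 : ℂ)) :=
  ⟨measurable_const.indicator hs, 1, fun x => by by_cases k : x ∈ s <;> simp [k]⟩

theorem acubeb_pr (i : Fin 4) :
    Measurable fun y : Option (Fin 4) → Sg => (y none, y (some i)) := by fun_prop

theorem acubeb_th (hθ : Measurable θ) (i : Fin 4) : Measurable (thM θ i) :=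
  measurable_update'.comp (measurable_id.prodMk (hθ.comp (acubeb_pr i)))

theorem acubeb_none (y : Option (Fin 4) → Sg) (i : Fin 4) :
    thM θ i y none = θ (y none, y (some i)) := Function.update_self ..

theorem acubeb_some (y : Option (Fin 4) → Sg) (i j : Fin 4) : thM θ i y (some j) = y (some j) :=
  Function.update_of_ne (Option.some_ne_none j) ..

theorem acubeb_M (c : Cod Y W (fam M P) (fam pM pP)) {φ : Sg → ℂ} (a : BMe φ) :
    BM M fun z => φ (pM z) := (c.gens none).bm (c.meas none) a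

theorem acubeb_P (c : Cod Y W (fam M P) (fam pM pP)) {φ : Sg → ℂ} (a : BMe φ) :
    BM P fun z => φ (pP z) := (c.gens (some 0)).bm (c.meas (some 0)) a

theorem acubeb_A (m : Mod W (fam M P) (fam pM pP) h V A) (j : Option (Fin 4)) {φ : Sg → ℂ}
    (a : BMe φ) : BM (A j) fun y : Option (Fin 4) → Sg => φ (y j) :=
  (m.gens j).bm (measurable_pi_apply j) a

theorem acubeb_ex (m : Mod W (fam M P) (fam pM pP) h V A) (j : Option (Fin 4))
    {f : (mkZ ν h).X → ℂ} (a : BM (A j) f) : ∃ φ, BMe φ ∧ f =ᵐ[ν] fun y => φ (y j) :=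
  (m.gens j).exists (measurable_pi_apply j) a

theorem acubeb_AA (m : Mod W (fam M P) (fam pM pP) h V A) (i : Fin 4) {ψ : Sg × Sg → ℂ}
    (a : BMe ψ) : BM (A none ⊔ A (some i)) fun y : Option (Fin 4) → Sg => ψ (y none, y (some i)) :=
  ((m.gens none).sup (m.gens (some i)) (measurable_pi_apply _) (measurable_pi_apply _)).bm
    (acubeb_pr i) a

/-- the product formula with two distinguished slots -/
theorem acubeb_two (m : Mod W (fam M P) (fam pM pP) h V A) (i : Fin 4) {α β : Sg → ℂ} (a : BMe α)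
    (b : BMe β) {φ : Fin 4 → Sg → ℂ} (hφ : ∀ j, BMe (φ j)) :
    ∫ y, α (y none) * β (y (some i)) * ∏ j ∈ Finset.univ.erase i, φ j (y (some j)) ∂ν =
      ∫ z, W.E (fun z => α (pM z)) z * W.E (fun z => β (pP z)) z *
        ∏ j ∈ Finset.univ.erase i, W.E (fun z => φ j (pP z)) z ∂Y.μ := by
  have k := m.int (fun o => o.elim α (Function.update φ i β)) (by
    rintro (_ | j)
    · exact a
    · rcases eq_or_ne j i with rfl | e
      · simpa using b
      · simpa [e] using hφ j)
  simp only [Fintype.prod_option, ← Finset.mul_prod_erase _ _ (Finset.mem_univ i), Option.elim,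
    Function.update_self, fam, ← mul_assoc] at k
  refine Eq.trans ?_ (k.trans ?_) <;> congr 1 <;> funext y <;> congr 1 <;>
    exact Finset.prod_congr rfl fun j hj => by
      rw [Function.update_of_ne (Finset.ne_of_mem_erase hj)]

theorem acubeb_q (c : Cod Y W (fam M P) (fam pM pP)) : Measurable fun z => (pM z, pP z) :=
  (c.meas none).prodMk (c.meas (some 0))

theorem mod_pair (c : Cod Y W (fam M P) (fam pM pP)) (m : Mod W (fam M P) (fam pM pP) h V A)
    (hi : CI W M P) (i : Fin 4) :
    ν.map (fun y => (y none, y (some i))) = Y.μ.map fun z => (pM z, pP z) := by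
  have q := acubeb_q c
  refine Measure.ext_prod fun {s t} hs ht => ?_
  have k := acubeb_two m i (acubeb_ind hs) (acubeb_ind ht) (φ := fun _ _ => 1) fun _ => acubeb_one
  simp only [condExp_const W.le, Finset.prod_const_one, mul_one] at k
  rw [← hi.int (acubeb_M c (acubeb_ind hs)) (acubeb_P c (acubeb_ind ht))] at k
  have e {X : Type} [MeasurableSpace X] (μ : Measure X) {r : X → Sg × Sg} (hr : Measurable r) :
      ∫ x, s.indicator (fun _ => (1 : ℂ)) (r x).1 * t.indicator (fun _ => (1 : ℂ)) (r x).2 ∂μ =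
        (μ.real (r ⁻¹' s ×ˢ t) : ℝ) := by
    have k0 : (fun x => s.indicator (fun _ => (1 : ℂ)) (r x).1 *
        t.indicator (fun _ => (1 : ℂ)) (r x).2) = (r ⁻¹' s ×ˢ t).indicator fun _ => 1 := by
      funext x
      by_cases k1 : (r x).1 ∈ s <;> by_cases k2 : (r x).2 ∈ t <;> simp [Set.indicator, k1, k2]
    rw [k0, integral_indicator_const _ (hr (hs.prod ht)), Complex.real_smul, mul_one]
  rw [Measure.map_apply (acubeb_pr i) (hs.prod ht), Measure.map_apply q (hs.prod ht),
    ← measureReal_eq_measureReal_iff]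
  exact Complex.ofReal_injective ((e ν (acubeb_pr i)).symm.trans (k.trans (e Y.μ q)))

theorem acubeb_int (c : Cod Y W (fam M P) (fam pM pP)) (m : Mod W (fam M P) (fam pM pP) h V A)
    (hi : CI W M P) (i : Fin 4) {ψ : Sg × Sg → ℂ} (a : BMe ψ) :
    ∫ y, ψ (y none, y (some i)) ∂ν = ∫ z, ψ (pM z, pP z) ∂Y.μ := by
  rw [← integral_map (acubeb_pr i).aemeasurable a.1.aestronglyMeasurable, mod_pair c m hi,
    integral_map (acubeb_q c).aemeasurable a.1.aestronglyMeasurable]

theorem acubeb_ae (c : Cod Y W (fam M P) (fam pM pP)) (m : Mod W (fam M P) (fam pM pP) h V A)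
    (hi : CI W M P) (i : Fin 4) {p : Sg × Sg → Prop} (hp : MeasurableSet {s | p s})
    (e : ∀ᵐ z ∂Y.μ, p (pM z, pP z)) : ∀ᵐ y ∂ν, p (y none, y (some i)) :=
  ae_of_ae_map (acubeb_pr i).aemeasurable (mod_pair c m hi i ▸
    (ae_map_iff (acubeb_q c).aemeasurable hp).2 e)

/-- the product formula with a function of two coordinates -/
theorem acubeb_key (c : Cod Y W (fam M P) (fam pM pP)) (m : Mod W (fam M P) (fam pM pP) h V A)
    (hi : CI W M P) (i : Fin 4) {ψ : Sg × Sg → ℂ} (a : BMe ψ) {φ : Fin 4 → Sg → ℂ}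
    (hφ : ∀ j, BMe (φ j)) :
    ∫ y, ψ (y none, y (some i)) * ∏ j ∈ Finset.univ.erase i, φ j (y (some j)) ∂ν =
      ∫ z, ψ (pM z, pP z) * ∏ j ∈ Finset.univ.erase i, W.E (fun z => φ j (pP z)) z ∂Y.μ := by
  have G : BM W fun z => ∏ j ∈ Finset.univ.erase i, W.E (fun z => φ j (pP z)) z :=
    bm_prod fun j _ => (acubeb_P c (hφ j)).E W
  obtain ⟨g, g1, g2⟩ := (c.gens none).exists (c.meas none) (G.mono (c.le none))
  replace g2 : _ =ᵐ[Y.μ] fun z => g (pM z) := g2
  have F : BM (⊤ : Fc (mkZ ν h)) fun y => ∏ j ∈ Finset.univ.erase i, φ j (y (some j)) :=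
    bm_prod fun j _ => (acubeb_A m _ (hφ j)).top
  have F' := (acubeb_A m none g1).top
  have z0 := zero_sup (A := A none) (B := A (some i)) (F.sub F').integrable fun u v hu hv => by
    obtain ⟨α, a1, a2⟩ := acubeb_ex m _ hu
    obtain ⟨β, b1, b2⟩ := acubeb_ex m _ hv
    have k := (acubeb_A m none a1).top.mul (acubeb_A m (some i) b1).top
    calc _ = ∫ y, α (y none) * β (y (some i)) * ∏ j ∈ Finset.univ.erase i, φ j (y (some j)) -
          α (y none) * β (y (some i)) * g (y none) ∂ν :=
          integral_congr_ae (by filter_upwards [a2, b2] with y k1 k2; rw [k1, k2, mul_sub])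
      _ = 0 := by
          rw [integral_sub (k.mul F).integrable (k.mul F').integrable, acubeb_two m i a1 b1 hφ,
            acubeb_int c m hi i (acubeb_mul (acubeb_mul (acubeb_comp a1 measurable_fst)
              (acubeb_comp b1 measurable_snd)) (acubeb_comp g1 measurable_fst)), sub_eq_zero]
          have k1 := acubeb_M c a1
          have k2 := acubeb_P c b1
          calc _ = ∫ z, (∏ j ∈ Finset.univ.erase i, W.E (fun z => φ j (pP z)) z) *
                W.E (fun z => α (pM z) * β (pP z)) z ∂Y.μ := integral_congr_ae (by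
                filter_upwards [ci_iff_mul.1 hi _ _ k1 k2] with z k3
                rw [k3, mul_comm])
            _ = _ := (int_mul_E G (k1.top.mul k2.top)).trans (integral_congr_ae (by
                filter_upwards [g2] with z k3
                rw [k3, mul_comm]))
  have k := acubeb_AA m i a
  have k1 := int_mul_E k (F.sub F')
  rw [integral_congr_ae (g := fun _ => 0) (by filter_upwards [z0] with y e; simp [e]),
    integral_zero, eq_comm] at k1
  simp only [mul_sub] at k1
  rw [integral_sub (k.top.mul F).integrable (k.top.mul F').integrable, sub_eq_zero] at k1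
  refine k1.trans ((acubeb_int c m hi i (acubeb_mul a (acubeb_comp g1 measurable_fst))).trans
    (integral_congr_ae ?_))
  filter_upwards [g2] with z k3
  rw [k3]

theorem pm_hom (m : Mod W (fam M P) (fam pM pP) h V A) (s : Equiv.Perm (Fin 4)) :
    Hom (mkZ ν h) (mkZ ν h) (pmM s) := by
  have q : Measurable (pmM s) := measurable_pi_lambda _ fun j => measurable_pi_apply _
  have := Measure.isProbabilityMeasure_map (μ := ν) q.aemeasurable
  refine ⟨⟨q, pi_ext fun φ hφ => ?_⟩, fun k => Eventually.of_forall fun _ => rfl⟩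
  rw [integral_map (f := fun y => ∏ i, φ i (y i)) q.aemeasurable (Finset.measurable_prod _
    fun j _ => (hφ j).1.comp (measurable_pi_apply j)).aestronglyMeasurable, m.int φ hφ]
  have k := m.int (fun j => φ (s.optionCongr.symm j)) fun j => hφ _
  refine Eq.trans ?_ (k.trans ?_) <;> refine integral_congr_ae (Eventually.of_forall fun y => ?_)
  · exact Fintype.prod_equiv s.optionCongr _ _ fun j => by
      simp only [Equiv.symm_apply_apply]
      rfl
  · exact Fintype.prod_equiv s.optionCongr.symm _ _ fun j => by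
      rcases j with _ | j <;> rfl

theorem th_hom (c : Cod Y W (fam M P) (fam pM pP)) (c' : Cod Y W (fam M' P) (fam pM' pP))
    (m : Mod W (fam M P) (fam pM pP) h V A) (m' : Mod W (fam M' P) (fam pM' pP) h' V' A')
    (hi : CI W M P) (hi' : CI W M' P) (hθ : Measurable θ)
    (e : pM' =ᵐ[Y.μ] fun z => θ (pM z, pP z)) (i : Fin 4) :
    Hom (mkZ ν h) (mkZ ν' h') (thM θ i) := by
  have q := acubeb_th hθ i
  have := Measure.isProbabilityMeasure_map (μ := ν) q.aemeasurable
  refine ⟨⟨q, pi_ext fun φ hφ => ?_⟩, fun k => ?_⟩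
  · rw [integral_map (f := fun y => ∏ i, φ i (y i)) q.aemeasurable (Finset.measurable_prod _
      fun j _ => (hφ j).1.comp (measurable_pi_apply j)).aestronglyMeasurable]
    simp only [Fintype.prod_option, ← Finset.mul_prod_erase _ _ (Finset.mem_univ i), acubeb_none,
      acubeb_some, ← mul_assoc]
    rw [acubeb_two m' i (hφ none) (hφ (some i)) fun j => hφ (some j), acubeb_key c m hi i
      (acubeb_mul (acubeb_comp (hφ none) hθ) (acubeb_comp (hφ (some i)) measurable_snd))
      fun j => hφ (some j)]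
    have G : BM W fun z => ∏ j ∈ Finset.univ.erase i, W.E (fun z => φ (some j) (pP z)) z :=
      bm_prod fun j _ => (acubeb_P c (hφ _)).E W
    have k1 := acubeb_M c' (hφ none)
    have k2 := acubeb_P c' (hφ (some i))
    refine Eq.trans (integral_congr_ae ?_) ((int_mul_E G (k1.top.mul k2.top)).symm.trans
      (integral_congr_ae ?_))
    · filter_upwards [e] with z k3
      rw [k3, mul_comm]
    · filter_upwards [ci_iff_mul.1 hi' _ _ k1 k2] with z k3
      rw [k3, mul_comm]
  · have s := mact_shG.meas k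
    filter_upwards [acubeb_ae c m hi i (p := fun x => θ (shG k x.1, shG k x.2) = shG k (θ x))
      (measurableSet_eq_fun (by fun_prop) (by fun_prop)) (by
        filter_upwards [e, (Y.sys.mp k).quasiMeasurePreserving.ae e] with z k1 k2
        rw [← k1, ← show pM' (Y.T k z) = shG k (pM' z) from c'.comm none k z, k2,
          show pM (Y.T k z) = shG k (pM z) from c.comm none k z,
          show pP (Y.T k z) = shG k (pP z) from c.comm (some 0) k z])] with y k1
    funext j
    rcases j with _ | j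
    · exact k1
    · rfl

theorem th_inv (c : Cod Y W (fam M P) (fam pM pP)) (m : Mod W (fam M P) (fam pM pP) h V A)
    (hi : CI W M P) (hθ : Measurable θ) (hθ' : Measurable θ')
    (e : pM' =ᵐ[Y.μ] fun z => θ (pM z, pP z)) (e' : pM =ᵐ[Y.μ] fun z => θ' (pM' z, pP z))
    (i : Fin 4) : ∀ᵐ y ∂ν, thM θ' i (thM θ i y) = y := by
  filter_upwards [acubeb_ae c m hi i (p := fun x => θ' (θ x, x.2) = x.1)
    (measurableSet_eq_fun (by fun_prop) (by fun_prop)) (by
      filter_upwards [e, e'] with z k1 k2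
      rw [← k1, ← k2])] with y k1
  funext j
  rcases j with _ | j
  · exact k1
  · rfl

theorem th_W (c : Cod Y W (fam M P) (fam pM pP)) (c' : Cod Y W (fam M' P) (fam pM' pP))
    (m : Mod W (fam M P) (fam pM pP) h V A) (m' : Mod W (fam M' P) (fam pM' pP) h' V' A')
    {i : Fin 4} (t : Hom (mkZ ν h) (mkZ ν' h') (thM θ i)) : pb t V' = V := by
  refine le_antisymm ((pb_le_iff t).2 fun f hf => ?_) (le_of_bm fun f hf => ?_)
  · obtain ⟨φ, a1, a2⟩ := acubeb_ex m' (some 0) (hf.mono (m'.le _))
    exact ((m.wch (some 0) φ a1).2 ((m'.wch (some 0) φ a1).1 (hf.congr a2))).congr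
      (ae_pb t a2).symm
  · obtain ⟨φ, a1, a2⟩ := acubeb_ex m (some 0) (hf.mono (m.le _))
    exact (bm_pb t ((m'.wch (some 0) φ a1).2 ((m.wch (some 0) φ a1).1 (hf.congr a2)))).congr a2.symm

/-- conditional expectations on the first coordinate -/
theorem acubeb_E (c : Cod Y W (fam M P) (fam pM pP)) (m : Mod W (fam M P) (fam pM pP) h V A)
    (hi : CI W M P) (i : Fin 4) {ψ : Sg × Sg → ℂ} (a : BMe ψ) {g : Sg → ℂ} (b : BMe g)
    (e : M.E (fun z => ψ (pM z, pP z)) =ᵐ[Y.μ] fun z => g (pM z)) :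
    (A none).E (fun y => ψ (y none, y (some i))) =ᵐ[ν] fun y => g (y none) := by
  refine E_eq_of_int (acubeb_AA m i a).top (acubeb_A m none b) fun u hu => ?_
  obtain ⟨γ, a1, a2⟩ := acubeb_ex m _ hu
  have a3 := acubeb_comp a1 (measurable_fst (β := Sg))
  have k : BM (M ⊔ P) fun z => ψ (pM z, pP z) := ((c.gens none).sup (c.gens (some 0)) (c.meas _)
    (c.meas _)).bm (acubeb_q c) a
  calc _ = ∫ y, γ (y none) * ψ (y none, y (some i)) ∂ν :=
        integral_congr_ae (by filter_upwards [a2] with y k1; rw [k1])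
    _ = ∫ z, γ (pM z) * g (pM z) ∂Y.μ := by
        rw [acubeb_int c m hi i (acubeb_mul a3 a), ← int_mul_E (acubeb_M c a1) k.top]
        exact integral_congr_ae (by filter_upwards [e] with y k1; rw [k1])
    _ = ∫ y, γ (y none) * g (y none) ∂ν :=
        (acubeb_int c m hi i (acubeb_mul a3 (acubeb_comp b measurable_fst))).symm
    _ = _ := integral_congr_ae (by filter_upwards [a2] with y k1; rw [k1])

theorem acubeb_V (c : Cod Y W (fam M P) (fam pM pP)) (m : Mod W (fam M P) (fam pM pP) h V A)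
    (hi : CI W M P) {α g : Sg → ℂ} (a : BMe α) (b : BMe g)
    (e : W.E (fun z => α (pM z)) =ᵐ[Y.μ] fun z => g (pM z)) :
    V.E (fun y => α (y none)) =ᵐ[ν] fun y => g (y none) := by
  refine E_eq_of_int (acubeb_A m none a).top
    ((m.wch none g b).2 (((acubeb_M c a).E W).congr e)) fun u hu => ?_
  obtain ⟨γ, a1, a2⟩ := acubeb_ex m none (hu.mono (m.le _))
  have a3 := acubeb_comp a1 (measurable_fst (β := Sg))
  have k : BM W fun z => γ (pM z) := (m.wch none γ a1).1 (hu.congr a2)
  calc _ = ∫ y, γ (y none) * α (y none) ∂ν :=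
        integral_congr_ae (by filter_upwards [a2] with y k1; rw [k1])
    _ = ∫ z, γ (pM z) * g (pM z) ∂Y.μ := by
        rw [acubeb_int c m hi 0 (acubeb_mul a3 (acubeb_comp a measurable_fst)),
          ← int_mul_E k (acubeb_M c a).top]
        exact integral_congr_ae (by filter_upwards [e] with y k1; rw [k1])
    _ = ∫ y, γ (y none) * g (y none) ∂ν :=
        (acubeb_int c m hi 0 (acubeb_mul a3 (acubeb_comp b measurable_fst))).symm
    _ = _ := integral_congr_ae (by filter_upwards [a2] with y k1; rw [k1])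

theorem th_mix (c : Cod Y W (fam M P) (fam pM pP)) (c' : Cod Y W (fam M' P) (fam pM' pP))
    (m : Mod W (fam M P) (fam pM pP) h V A) (m' : Mod W (fam M' P) (fam pM' pP) h' V' A')
    (hi : CI W M P) (hi' : CI W M' P) (hi'' : CI W M M') (hθ : Measurable θ) (hθ' : Measurable θ')
    (e : pM' =ᵐ[Y.μ] fun z => θ (pM z, pP z)) (e' : pM =ᵐ[Y.μ] fun z => θ' (pM' z, pP z))
    {i j : Fin 4} (hij : i ≠ j) {φ : (mkZ ν h).X → ℂ} (hφ : BM (A none) φ) :
    (A none).E (fun y => φ (thM θ' j (thM θ i y))) =ᵐ[ν] V.E φ := by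
  have t := th_hom c c' m m' hi hi' hθ e i
  have t' := th_hom c' c m' m hi' hi hθ' e' j
  obtain ⟨α, a1, a2⟩ := acubeb_ex m _ hφ
  have X {α : Sg → ℂ} (a1 : BMe α) : ∃ g, BMe g ∧
      W.E (fun z => α (pM z)) =ᵐ[Y.μ] (fun z => g (pM' z)) ∧
      ∀ l, (A' none).E (fun y => α (θ' (y none, y (some l)))) =ᵐ[ν'] fun y => g (y none) := by
    obtain ⟨g, g1, g2⟩ := (c'.gens none).exists (c'.meas none)
      (((acubeb_M c a1).E W).mono (c'.le none))
    refine ⟨g, g1, g2, fun l => acubeb_E c' m' hi' l (acubeb_comp a1 hθ') g1 ?_⟩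
    exact ((E_congr (e'.mono fun z k => by simp only [k])).trans
      (hi''.symm.E_eq (c'.le none) (acubeb_M c a1))).trans g2
  obtain ⟨g, g1, g2⟩ := (c.gens none).exists (c.meas none) (((acubeb_M c a1).E W).mono (c.le none))
  replace g2 : _ =ᵐ[Y.μ] fun z => g (pM z) := g2
  have v : V.E φ =ᵐ[ν] fun y => g (y none) :=
    EventuallyEq.trans (E_congr (Z := mkZ ν h) a2) (acubeb_V c m hi a1 g1 g2)
  refine E_eq_of_int (bm_pb_top t (bm_pb_top t' hφ)) ((hφ.E V).mono (m.le _)) fun u hu => ?_
  obtain ⟨β, b1, b2⟩ := acubeb_ex m _ hu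
  obtain ⟨ga, c1, c2, c3⟩ := X a1
  obtain ⟨gb, d1, d2, d3⟩ := X b1
  have k1 := acubeb_AA m' i (acubeb_comp b1 hθ')
  have k2 := acubeb_AA m' j (acubeb_comp a1 hθ')
  have ci : CI (A' none) (A' none ⊔ A' (some i)) (A' none ⊔ A' (some j)) := by
    have := m'.ci {none, some i} {some j} (by simpa using hij.symm)
    simp only [Finset.iSup_insert, Finset.iSup_singleton] at this
    exact sup_comm (A' (some j)) _ ▸ (this.weak (m'.le none)
      (le_sup_left.trans le_sup_left)).sup_right
  calc _ = ∫ y, β (θ' (thM θ i y none, thM θ i y (some i))) *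
        α (θ' (thM θ i y none, thM θ i y (some j))) ∂ν := integral_congr_ae (by
        filter_upwards [b2, th_inv c m hi hθ hθ' e e' i, ae_pb t (ae_pb t' a2)] with y l1 l2 l3
        rw [l1, l3, ← acubeb_none (θ := θ') _ i, l2, acubeb_none])
    _ = ∫ y, gb (y none) * ga (y none) ∂ν' :=
        (int_pb t (k1.top.mul k2.top)).trans ((ci.int k1 k2).trans (integral_congr_ae (by
          filter_upwards [c3 j, d3 i] with y l1 l2
          rw [l1, l2])))
    _ = ∫ z, β (pM z) * g (pM z) ∂Y.μ := by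
        rw [acubeb_int c' m' hi' 0 (acubeb_mul (acubeb_comp d1 measurable_fst)
          (acubeb_comp c1 measurable_fst))]
        refine Eq.trans (integral_congr_ae ?_) ((int_E_mul (W := W) (acubeb_M c b1).top
          ((acubeb_M c a1).E W).top).trans (integral_congr_ae ?_))
        · filter_upwards [c2, d2] with z l1 l2
          rw [l1, l2]
        · filter_upwards [((acubeb_M c a1).E W).E_self, g2] with z l1 l2
          rw [l1, l2]
    _ = ∫ y, β (y none) * g (y none) ∂ν := (acubeb_int c m hi 0 (acubeb_mul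
        (acubeb_comp b1 measurable_fst) (acubeb_comp g1 measurable_fst))).symm
    _ = _ := integral_congr_ae (by filter_upwards [b2, v] with y l1 l2; rw [l1, l2])

end Pool.Agent.Lib.MP_1db5af_an.Th
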