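import Pool.Agent.Lib.MP_1db5af_an.Th.APb

set_option autoImplicit false

namespace Pool.Agent.Lib.MP_1db5af_an.Th

open MeasureTheory ProbabilityTheory Filter Topology ComplexConjugate
open scoped ENNReal NNReal InnerProductSpace

section aux

variable {Z : CS} {W A P0 P1 : Fc Z} {sw : Z.X → Z.X}

theorem anear_bm {f : Z.X → ℝ} (hm : Measurable[A.m] f) {C : ℝ} (hb : ∀ y, |f y| ≤ C) :
    BM A fun y => (f y : ℂ) :=
  ⟨⟨C, (Complex.measurable_ofReal.comp (hm.mono A.le le_rfl)).aestronglyMeasurable,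
    Eventually.of_forall fun y => by simpa using hb y⟩,
    (Complex.measurable_ofReal.comp hm).stronglyMeasurable.aestronglyMeasurable⟩

theorem anear_int {f : Z.X → ℝ} (h : BM A fun y => (f y : ℂ)) : Integrable f Z.μ := by
  simpa using h.integrable.re

theorem anear_mul {f g : Z.X → ℝ} (hf : BM A fun y => (f y : ℂ)) (hg : BM A fun y => (g y : ℂ)) :
    BM A fun y => ((f y * g y : ℝ) : ℂ) := by
  simpa only [Complex.ofReal_mul] using hf.mul hg

theorem anear_add {f g : Z.X → ℝ} (hf : BM A fun y => (f y : ℂ)) (hg : BM A fun y => (g y : ℂ)) :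
    BM A fun y => ((f y + g y : ℝ) : ℂ) := by
  simpa only [Complex.ofReal_add] using hf.add hg

theorem anear_sum {τ : Type} [Fintype τ] {f : τ → Z.X → ℝ}
    (hf : ∀ p, BM A fun y => (f p y : ℂ)) : BM A fun y => ((∑ p, f p y : ℝ) : ℂ) := by
  simpa only [Complex.ofReal_sum] using bm_sum (s := Finset.univ) fun p _ => hf p

theorem anear_comp (hs : Hom Z Z sw) {f : Z.X → ℝ} (hf : BM A fun y => (f y : ℂ)) :
    ∫ y, f (sw y) ∂Z.μ = ∫ y, f y ∂Z.μ := by
  have h := int_pb hs hf.top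
  rwa [integral_complex_ofReal, integral_complex_ofReal, Complex.ofReal_inj] at h

theorem anear_L1 {f : Z.X → ℂ} (hf : BM A f) : ∫ y, ‖f y‖ ∂Z.μ ≤ ‖L2 Z.μ f‖ := by
  have h1 := norm_integral_le_L2 hf.norm.memLp
  rw [integral_complex_ofReal, Complex.norm_real] at h1
  refine (le_abs_self _).trans (h1.trans (Lp.norm_le_norm_of_ae_le ?_))
  filter_upwards [L2_coe hf.norm.memLp, L2_coe hf.memLp] with y e1 e2
  rw [e1, e2, Complex.norm_real, norm_norm]

theorem anear_RS {η : ℝ} (hη : 0 < η) : ∃ R S : ℝ → ℝ, Measurable R ∧ Measurable S ∧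
    ∀ t, (0 ≤ R t ∧ R t ≤ η⁻¹) ∧ (0 ≤ S t ∧ S t ≤ η) ∧ R t * t ≤ 1 ∧
      (0 ≤ t → R t * (t * t) + S t = t) := by
  refine ⟨fun t => if η ≤ t then t⁻¹ else 0, fun t => if η ≤ t then 0 else max t 0,
    Measurable.ite measurableSet_Ici measurable_inv measurable_const,
    Measurable.ite measurableSet_Ici measurable_const (measurable_id.max measurable_const),
    fun t => ?_⟩
  by_cases h : η ≤ t
  · have ht : 0 < t := hη.trans_le h
    simp only [if_pos h]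
    refine ⟨⟨by positivity, inv_anti₀ hη h⟩, ⟨le_rfl, hη.le⟩, (inv_mul_cancel₀ ht.ne').le,
      fun _ => ?_⟩
    rw [inv_mul_cancel_left₀ ht.ne', add_zero]
  · simp only [if_neg h, zero_mul, zero_add]
    exact ⟨⟨le_rfl, by positivity⟩, ⟨le_max_right _ _, max_le (not_le.1 h).le hη.le⟩, zero_le_one,
      fun h0 => max_eq_left h0⟩

theorem anear_Esw (eA : W ≤ A) (hs : Hom Z Z sw)
    (hA : ∀ w, BM A w → (fun y => w (sw y)) =ᵐ[Z.μ] w) {f : Z.X → ℂ} (hf : BM ⊤ f) :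
    W.E (fun y => f (sw y)) =ᵐ[Z.μ] W.E f := by
  refine E_eq_of_int (bm_pb_top hs hf) (hf.E W) fun a ha => ?_
  rw [int_mul_E ha hf, ← int_pb hs (ha.top.mul hf)]
  refine integral_congr_ae ?_
  filter_upwards [hA a (ha.mono eA)] with y hy
  rw [hy]

/-- The weights attached to a finite partition. -/
theorem anear_wt (eA : W ≤ A) (e0 : W ≤ P0) (hs : Hom Z Z sw)
    (hi : ∀ᵐ y ∂Z.μ, sw (sw y) = y) (hA : ∀ w, BM A w → (fun y => w (sw y)) =ᵐ[Z.μ] w)
    (hP : ∀ k, BM P0 k → BM P1 fun y => k (sw y)) (hc : CI W (A ⊔ P0) P1) {τ : Type} [Fintype τ]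
    {ξ : Z.X → τ} (hξ : ∀ p, MeasurableSet[P0.m] {y | ξ y = p}) {η : ℝ} (hη : 0 < η) :
    ∃ β γ : Z.X → ℝ, BM (P0 ⊔ P1) (fun y => (β y : ℂ)) ∧ BM (P0 ⊔ P1) (fun y => (γ y : ℂ)) ∧
      (∀ y, 0 ≤ β y) ∧ (∀ y, 0 ≤ γ y ∧ γ y ≤ Fintype.card τ * η) ∧
      W.E (fun y => ((β y + γ y : ℝ) : ℂ)) =ᵐ[Z.μ] (fun _ => 1) ∧
      (∀ y, β y ≠ 0 → ξ (sw y) = ξ y) ∧ (∀ᵐ y ∂Z.μ, β (sw y) = β y) ∧
      ∀ e : Z.X → ℝ, BM (A ⊔ P0) (fun y => (e y : ℂ)) → (∀ y, 0 ≤ e y) →
        ∫ y, e y * β y ∂Z.μ ≤ ∫ y, e y ∂Z.μ := by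
  classical
  obtain ⟨R, S, mR, mS, hRS⟩ := anear_RS hη
  obtain ⟨I, hI⟩ : ∃ I : τ → Z.X → ℝ, ∀ p y, I p y = if ξ y = p then 1 else 0 :=
    ⟨_, fun _ _ => rfl⟩
  have I0 : ∀ p y, 0 ≤ I p y := fun p y => by rw [hI]; split_ifs <;> norm_num
  have I1 : ∀ y, ∑ p, I p y = 1 := fun y => by simp [hI]
  have bI : ∀ p, BM P0 fun y => (I p y : ℂ) := fun p => by
    refine anear_bm (C := 1) ?_ fun y => ?_
    · rw [show I p = fun y => if ξ y = p then 1 else 0 from funext (hI p)]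
      exact Measurable.ite (hξ p) measurable_const measurable_const
    · rw [hI]
      split_ifs <;> norm_num
  have bJ : ∀ p, BM P1 fun y => (I p (sw y) : ℂ) := fun p => hP _ (bI p)
  obtain ⟨q, mq, q0, hq⟩ : ∃ q : τ → Z.X → ℝ, (∀ p, Measurable[W.m] (q p)) ∧
      (∀ p, ∀ᵐ y ∂Z.μ, 0 ≤ q p y) ∧
      ∀ p, W.E (fun y => (I p y : ℂ)) =ᵐ[Z.μ] fun y => (q p y : ℂ) :=
    ⟨fun p => Z.μ[I p | W.m], fun p => stronglyMeasurable_condExp.measurable,
      fun p => condExp_nonneg (Eventually.of_forall (I0 p)),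
      fun p => (Complex.ofRealCLM.comp_condExp_comm (anear_int (bI p))).symm⟩
  have hq' : ∀ p, W.E (fun y => (I p (sw y) : ℂ)) =ᵐ[Z.μ] fun y => (q p y : ℂ) := fun p =>
    (anear_Esw eA hs hA (bI p).top).trans (hq p)
  have bq : ∀ p, BM W fun y => (q p y : ℂ) := fun p => ((bI p).E W).congr (hq p)
  have bR : ∀ p, BM W fun y => (R (q p y) : ℂ) := fun p =>
    anear_bm (mR.comp (mq p)) fun y => (abs_of_nonneg (hRS _).1.1).trans_le (hRS _).1.2
  have bS : ∀ p, BM W fun y => (S (q p y) : ℂ) := fun p =>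
    anear_bm (mS.comp (mq p)) fun y => (abs_of_nonneg (hRS _).2.1.1).trans_le (hRS _).2.1.2
  have eW : W ≤ P0 ⊔ P1 := e0.trans le_sup_left
  have bIJ : ∀ p, BM (P0 ⊔ P1) fun y => ((I p y * I p (sw y) : ℝ) : ℂ) := fun p =>
    anear_mul ((bI p).mono le_sup_left) ((bJ p).mono le_sup_right)
  have bT : ∀ p, BM (P0 ⊔ P1) fun y => ((R (q p y) * (I p y * I p (sw y)) : ℝ) : ℂ) := fun p =>
    anear_mul ((bR p).mono eW) (bIJ p)
  refine ⟨fun y => ∑ p, R (q p y) * (I p y * I p (sw y)), fun y => ∑ p, S (q p y), anear_sum bT,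
    anear_sum fun p => (bS p).mono eW, fun y => Finset.sum_nonneg fun p _ =>
      mul_nonneg (hRS _).1.1 (mul_nonneg (I0 _ _) (I0 _ _)),
    fun y => ⟨Finset.sum_nonneg fun p _ => (hRS _).2.1.1, ?_⟩, ?_, fun y hy => ?_, ?_,
    fun e be e0' => ?_⟩
  · simpa using Finset.sum_le_card_nsmul Finset.univ _ η fun p _ => (hRS (q p y)).2.1.2
  · have a1 : ∀ p, W.E (fun y => (R (q p y) : ℂ) * ((I p y : ℂ) * (I p (sw y) : ℂ)) +
        (S (q p y) : ℂ)) =ᵐ[Z.μ] fun y => (q p y : ℂ) := fun p => by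
      have t1 := ((bI p).top.mul (bJ p).top)
      filter_upwards [E_add (W := W) ((bR p).top.mul t1) (bS p).top, E_mul (bR p) t1,
        ci_iff_mul.1 (hc.mono le_sup_right le_rfl) _ _ (bI p) (bJ p), hq p, hq' p, (bS p).E_self,
        q0 p] with y h1 h2 h3 h4 h5 h6 h7
      rw [h1, h2, h3, h4, h5, h6]
      exact_mod_cast (hRS (q p y)).2.2.2 h7
    have a2 : (fun y => ((∑ p, R (q p y) * (I p y * I p (sw y)) + ∑ p, S (q p y) : ℝ) : ℂ)) =
        fun y => ∑ p, ((R (q p y) : ℂ) * ((I p y : ℂ) * (I p (sw y) : ℂ)) + (S (q p y) : ℂ)) := by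
      funext y
      push_cast
      rw [Finset.sum_add_distrib]
    have a3 : (fun y => ∑ p, (I p y : ℂ)) = fun _ => 1 := by
      funext y
      exact_mod_cast I1 y
    have a4 := E_sum (W := W) (s := Finset.univ) fun p _ => (bI p).top
    rw [a3] at a4
    rw [a2]
    filter_upwards [E_sum (W := W) (s := Finset.univ) fun p _ =>
      ((bR p).top.mul ((bI p).top.mul (bJ p).top)).add (bS p).top, ae_all_iff.2 a1,
      ae_all_iff.2 hq, a4, (bm_const (A := W) 1).E_self] with y h1 h2 h3 h4 h5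
    rw [h1, ← h5, h4]
    exact Finset.sum_congr rfl fun p _ => (h2 p).trans (h3 p).symm
  · obtain ⟨p, -, hp⟩ := Finset.exists_ne_zero_of_sum_ne_zero hy
    have h1 := right_ne_zero_of_mul hp
    have h2 := left_ne_zero_of_mul h1
    have h3 := right_ne_zero_of_mul h1
    rw [hI] at h2 h3
    rw [(ite_ne_right_iff.1 h2).1, (ite_ne_right_iff.1 h3).1]
  · filter_upwards [hi, ae_all_iff.2 fun p => hA _ ((bq p).mono eA)] with y h1 h2
    refine Finset.sum_congr rfl fun p _ => ?_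
    rw [h1, Complex.ofReal_inj.1 (h2 p), mul_comm (I p y)]
  · have eW' : W ≤ A ⊔ P0 := eA.trans le_sup_left
    have b1 : ∀ p, BM (A ⊔ P0) fun y => ((e y * I p y : ℝ) : ℂ) := fun p =>
      anear_mul be ((bI p).mono le_sup_right)
    have b2 : ∀ p, BM (A ⊔ P0) fun y => ((e y * I p y * R (q p y) : ℝ) : ℂ) := fun p =>
      anear_mul (b1 p) ((bR p).mono eW')
    have a1 : ∀ p, ∫ y, e y * I p y * R (q p y) * I p (sw y) ∂Z.μ ≤ ∫ y, e y * I p y ∂Z.μ := by
      intro p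
      have h1 : ∫ y, ((e y * I p y * R (q p y) * I p (sw y) : ℝ) : ℂ) ∂Z.μ =
          ∫ y, ((e y * I p y * R (q p y) * q p y : ℝ) : ℂ) ∂Z.μ := by
        simp only [Complex.ofReal_mul (e _ * I p _ * R (q p _))]
        rw [← int_mul_E (b2 p) (bJ p).top]
        refine integral_congr_ae ?_
        filter_upwards [hc.E_eq eW' (bJ p), hq' p] with y h2 h3
        rw [h2, h3]
      rw [integral_complex_ofReal, integral_complex_ofReal, Complex.ofReal_inj] at h1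
      rw [h1]
      refine integral_mono (anear_int (anear_mul (b2 p) ((bq p).mono eW'))) (anear_int (b1 p))
        fun y => ?_
      show e y * I p y * R (q p y) * q p y ≤ e y * I p y
      rw [mul_assoc]
      exact mul_le_of_le_one_right (mul_nonneg (e0' y) (I0 p y)) (hRS _).2.2.1
    calc ∫ y, e y * ∑ p, R (q p y) * (I p y * I p (sw y)) ∂Z.μ
        = ∫ y, ∑ p, e y * I p y * R (q p y) * I p (sw y) ∂Z.μ := by
          refine integral_congr_ae (Eventually.of_forall fun y => ?_)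
          show e y * ∑ p, R (q p y) * (I p y * I p (sw y)) =
            ∑ p, e y * I p y * R (q p y) * I p (sw y)
          rw [Finset.mul_sum]
          exact Finset.sum_congr rfl fun p _ => by ring
      _ = ∑ p, ∫ y, e y * I p y * R (q p y) * I p (sw y) ∂Z.μ :=
          integral_finsetSum _ fun p _ => anear_int (anear_mul (b2 p).top (bJ p).top)
      _ ≤ ∑ p, ∫ y, e y * I p y ∂Z.μ := Finset.sum_le_sum fun p _ => a1 p
      _ = ∫ y, ∑ p, e y * I p y ∂Z.μ := (integral_finsetSum _ fun p _ => anear_int (b1 p)).symm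
      _ = ∫ y, e y ∂Z.μ := by simp only [← Finset.mul_sum, I1, mul_one]

/-- Functions that are fixed by `sw` where a finite partition is fixed. -/
def anearS (A P0 : Fc Z) (sw : Z.X → Z.X) (G : Z.X → ℂ) : Prop :=
  BM (A ⊔ P0) G ∧ ∃ (τ : Type) (_ : Finite τ) (ξ : Z.X → τ),
    (∀ p, MeasurableSet[P0.m] {y | ξ y = p}) ∧ ∀ᵐ y ∂Z.μ, ξ (sw y) = ξ y → G (sw y) = G y

theorem anear_join {κ : Type} [Finite κ] {G : κ → Z.X → ℂ} (h : ∀ i, anearS A P0 sw (G i)) :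
    ∃ (τ : Type) (_ : Finite τ) (ξ : Z.X → τ), (∀ p, MeasurableSet[P0.m] {y | ξ y = p}) ∧
      ∀ᵐ y ∂Z.μ, ξ (sw y) = ξ y → ∀ i, G i (sw y) = G i y := by
  choose τ hτ ξ h1 h2 using fun i => (h i).2
  refine ⟨∀ i, τ i, inferInstance, fun y i => ξ i y, fun p => ?_, ?_⟩
  · have e : {y | (fun i => ξ i y) = p} = ⋂ i, {y | ξ i y = p i} := by
      ext y
      simp [funext_iff]
    rw [e]
    exact MeasurableSet.iInter fun i => h1 i (p i)
  · filter_upwards [ae_all_iff.2 h2] with y hy e i using hy i (congrFun e i)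

theorem anear_prod (hA : ∀ w, BM A w → (fun y => w (sw y)) =ᵐ[Z.μ] w) {a b : Z.X → ℂ}
    (ha : BM A a) (hb : BM P0 b) {δ : ℝ} (hδ : 0 < δ) :
    ∃ G, anearS A P0 sw G ∧ ‖L2 Z.μ (fun y => a y * b y) - L2 Z.μ G‖ ≤ δ := by
  obtain ⟨D, hD⟩ := ha.1
  obtain ⟨C, hC⟩ := hb.1
  have D0 := hD.nonneg
  obtain ⟨k, ξ, ψ, mξ, hψ⟩ := tw_simple P0.le hC hb.2 (ε := δ / (D + 1)) (by positivity)
  have bψ : BM P0 fun y => ψ (ξ y) := ⟨⟨_, thmb_bd (mξ.mono P0.le le_rfl) ψ⟩,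
    ((measurable_of_countable ψ).comp mξ).stronglyMeasurable.aestronglyMeasurable⟩
  refine ⟨fun y => a y * ψ (ξ y), ⟨(ha.mono le_sup_left).mul (bψ.mono le_sup_right), Fin k,
    inferInstance, ξ, fun p => mξ (measurableSet_singleton p), ?_⟩, ?_⟩
  · filter_upwards [hA a ha] with y h1 h2
    rw [h1, h2]
  · rw [← L2_sub (ha.top.mul hb.top).memLp (ha.top.mul bψ.top).memLp]
    simp only [← mul_sub]
    refine (hD.norm_L2_mul (hb.sub bψ).memLp).trans ?_
    rw [L2_sub hb.memLp bψ.memLp]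
    refine (mul_le_mul_of_nonneg_left hψ D0).trans ?_
    rw [← mul_div_assoc, div_le_iff₀ (by positivity)]
    linarith

theorem anear_appr (hA : ∀ w, BM A w → (fun y => w (sw y)) =ᵐ[Z.μ] w) {F : Z.X → ℂ}
    (hF : BM (A ⊔ P0) F) {δ : ℝ} (hδ : 0 < δ) :
    ∃ G, anearS A P0 sw G ∧ ‖L2 Z.μ F - L2 Z.μ G‖ ≤ δ := by
  obtain ⟨n, u, D, hu, h1⟩ := appr_sup hF (δ / 2) (by positivity)
  have h2 : ∀ l, ∃ G, anearS A P0 sw G ∧ ‖L2 Z.μ (u l) - L2 Z.μ G‖ ≤ δ / 2 / (n + 1) := fun l => by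
    obtain ⟨a, b, ha, hb, e⟩ := (hu l).2
    rw [e]
    exact anear_prod hA ha hb (by positivity)
  choose G hG h3 using h2
  obtain ⟨τ, hτ, ξ, h4, h5⟩ := anear_join hG
  refine ⟨fun y => ∑ l, G l y, ⟨bm_sum fun l _ => (hG l).1, τ, hτ, ξ, h4, ?_⟩, ?_⟩
  · filter_upwards [h5] with y hy e using Finset.sum_congr rfl fun l _ => hy e l
  · have h6 : ‖(L2 Z.μ fun y => ∑ l, u l y) - L2 Z.μ fun y => ∑ l, G l y‖ ≤ δ / 2 := by
      rw [L2_sum _ fun l _ => (hu l).1.memLp, L2_sum _ fun l _ => (hG l).1.memLp,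
        ← Finset.sum_sub_distrib]
      refine (norm_sum_le _ _).trans ((Finset.sum_le_card_nsmul _ _ _ fun l _ => h3 l).trans ?_)
      rw [Finset.card_univ, Fintype.card_fin, nsmul_eq_mul, ← mul_div_assoc,
        div_le_iff₀ (by positivity)]
      linarith
    linarith [norm_sub_le_norm_sub_add_norm_sub (L2 Z.μ F) (L2 Z.μ fun y => ∑ l, u l y)
      (L2 Z.μ fun y => ∑ l, G l y)]

end aux

theorem near_abs {Z : CS} {W A P0 P1 : Fc Z} {sw : Z.X → Z.X} (eA : W ≤ A) (e0 : W ≤ P0)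
    (e1 : W ≤ P1) (hs : Hom Z Z sw) (hi : ∀ᵐ y ∂Z.μ, sw (sw y) = y)
    (hA : ∀ w, BM A w → (fun y => w (sw y)) =ᵐ[Z.μ] w)
    (hP : ∀ k, BM P0 k → BM P1 fun y => k (sw y)) (hc : CI W (A ⊔ P0) P1) :
    Near W (A ⊔ P0) (P0 ⊔ P1) sw := by
  intro κ _ F hF ε hε
  obtain ⟨C, C1, hC⟩ := bm_bound (s := Finset.univ) fun i _ => hF i
  choose G hG h1 using fun i => anear_appr hA (hF i) (δ := ε / 4) (by positivity)
  obtain ⟨τ, hτ, ξ, h2, h3⟩ := anear_join hG
  have := Fintype.ofFinite τ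
  obtain ⟨η, hη, h4⟩ : ∃ η : ℝ, 0 < η ∧ 2 * C * (Fintype.card τ * η) ≤ ε / 2 := by
    refine ⟨ε / (4 * C * (Fintype.card τ + 1)), by positivity, ?_⟩
    rw [← mul_div_assoc, ← mul_div_assoc, div_le_iff₀ (by positivity)]
    nlinarith [mul_pos hε (zero_lt_one.trans_le C1)]
  obtain ⟨β, γ, bβ, bγ, β0, γ0, hE, h5, h6, h7⟩ := anear_wt eA e0 hs hi hA hP hc h2 hη
  refine ⟨fun y => β y + γ y, anear_add bβ bγ, fun y => add_nonneg (β0 y) (γ0 y).1, hE,
    fun i => ?_⟩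
  have be : BM (A ⊔ P0) fun y => ((‖F i y - G i y‖ : ℝ) : ℂ) := ((hF i).sub (hG i).1).norm
  have b1 := anear_mul be.top bβ.top
  have a1 : ∫ y, ‖F i y - G i y‖ * β y ∂Z.μ ≤ ε / 4 := by
    refine (h7 _ be fun y => norm_nonneg _).trans ((anear_L1 ((hF i).sub (hG i).1)).trans ?_)
    rw [L2_sub (hF i).memLp (hG i).1.memLp]
    exact h1 i
  have i1 := anear_int b1
  have i2 : Integrable (fun y => ‖F i (sw y) - G i (sw y)‖ * β (sw y)) Z.μ :=
    anear_int (bm_pb_top hs b1)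
  have i3 : Integrable (fun y => ‖F i (sw y) - G i (sw y)‖ * β (sw y) +
      ‖F i y - G i y‖ * β y) Z.μ := i2.add i1
  calc ∫ y, ‖F i (sw y) - F i y‖ * (β y + γ y) ∂Z.μ
      ≤ ∫ y, ‖F i (sw y) - G i (sw y)‖ * β (sw y) + ‖F i y - G i y‖ * β y + ε / 2 ∂Z.μ := by
        refine integral_mono_of_nonneg (Eventually.of_forall fun y =>
          mul_nonneg (norm_nonneg _) (add_nonneg (β0 y) (γ0 y).1)) (i3.add (integrable_const _)) ?_
        filter_upwards [h3, h6, (hC i (Finset.mem_univ i)).2,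
          ((hC i (Finset.mem_univ i)).comp hs.mp).2] with y c1 c2 c3 c4
        have d1 : ‖F i (sw y) - F i y‖ * γ y ≤ 2 * C * (Fintype.card τ * η) :=
          mul_le_mul ((norm_sub_le _ _).trans (by linarith)) (γ0 y).2 (γ0 y).1 (by linarith)
        have d2 : ‖F i (sw y) - F i y‖ * β y ≤
            (‖F i (sw y) - G i (sw y)‖ + ‖F i y - G i y‖) * β y := by
          by_cases hb : β y = 0
          · rw [hb, mul_zero, mul_zero]
          · refine mul_le_mul_of_nonneg_right ?_ (β0 y)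
            rw [c1 (h5 y hb) i, norm_sub_rev (F i y)]
            exact norm_sub_le_norm_sub_add_norm_sub _ _ _
        rw [c2]
        linarith
    _ ≤ ε := by
        rw [integral_add i3 (integrable_const _), integral_add i2 i1,
          anear_comp hs (f := fun y => ‖F i y - G i y‖ * β y) b1, integral_const, probReal_univ,
          one_smul]
        linarith

end Pool.Agent.Lib.MP_1db5af_an.Th
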