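import Pool.Agent.Lib.MP_1db5af_an.Th.ACubeA
import Pool.Agent.Lib.MP_1db5af_an.Th.ACubeB
import Pool.Agent.Lib.MP_1db5af_an.Th.ANear

set_option autoImplicit false

namespace Pool.Agent.Lib.MP_1db5af_an.Th

open MeasureTheory ProbabilityTheory Filter Topology ComplexConjugate
open scoped ENNReal NNReal InnerProductSpace

section gen

variable {Z Z' Z'' : CS} {S S' : Type} [MeasurableSpace S] [MeasurableSpace S'] {T : Z.X → Z'.X}

theorem acubec_comp {T' : Z'.X → Z''.X} (t : Hom Z Z' T) (t' : Hom Z' Z'' T') :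
    Hom Z Z'' fun y => T' (T y) :=
  ⟨t'.mp.comp t.mp, fun k => by
    filter_upwards [t.comm k, t.mp.quasiMeasurePreserving.ae (t'.comm k)] with z h1 h2
    rw [h1, h2]⟩

theorem acubec_pres (t : Hom Z Z' T) {B : Fc Z} {B' : Fc Z'} {p : Z.X → S} {p' : Z'.X → S'}
    (g' : Gens B' p' ∧ Measurable p') (g : Gens B p ∧ Measurable p) {ψ : S → S'}
    (hψ : Measurable ψ) (e : ∀ y, p' (T y) = ψ (p y)) (F : Z'.X → ℂ) (hF : BM B' F) :
    BM B fun y => F (T y) := by
  obtain ⟨φ, ⟨h1, C, h2⟩, h3⟩ := g'.1.exists g'.2 hF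
  refine (g.1.bm g.2 (φ := fun s => φ (ψ s)) ⟨h1.comp hψ, C, fun _ => h2 _⟩).congr ?_
  simpa only [e] using (ae_pb t h3).symm

theorem acubec_fix {T : Z.X → Z.X} (t : Hom Z Z T) {B : Fc Z} {p : Z.X → S}
    (g : Gens B p ∧ Measurable p) (e : ∀ y, p (T y) = p y) (F : Z.X → ℂ) (hF : BM B F) :
    (fun y => F (T y)) =ᵐ[Z.μ] F := by
  obtain ⟨φ, -, h3⟩ := g.1.exists g.2 hF
  refine EventuallyEq.trans ?_ h3.symm
  simpa only [e] using ae_pb t h3

theorem acubec_sup {A B : Fc Z} {p : Z.X → S} {q : Z.X → S'} (g : Gens A p ∧ Measurable p)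
    (g' : Gens B q ∧ Measurable q) :
    (Gens (A ⊔ B) fun z => (p z, q z)) ∧ Measurable fun z => (p z, q z) :=
  ⟨g.1.sup g'.1 g.2 g'.2, g.2.prodMk g'.2⟩

theorem acubec_le {κ : Type} {A : κ → Fc Z} {J : Finset κ} {a : κ} (ha : a ∈ J) :
    A a ≤ ⨆ i ∈ J, A i := le_iSup₂ (f := fun i (_ : i ∈ J) => A i) a ha

theorem acubec_cod {W M P : Fc Z} {pM pP : Z.X → Sg} (e : W ≤ M) (e' : W ≤ P)
    (h : Gens M pM ∧ Measurable pM ∧ ∀ k z, pM (Z.T k z) = shG k (pM z))
    (h' : Gens P pP ∧ Measurable pP ∧ ∀ k z, pP (Z.T k z) = shG k (pP z)) :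
    Cod Z W (fam M P) (fam pM pP) :=
  ⟨fun i => i.rec h.1 fun _ => h'.1, fun i => i.rec h.2.1 fun _ => h'.2.1,
    fun i => i.rec h.2.2 fun _ => h'.2.2, fun i => i.rec e fun _ => e'⟩

end gen

theorem acubec_pm (θ : Sg × Sg → Sg) (s : Equiv.Perm (Fin 4)) (i : Fin 4)
    (y : Option (Fin 4) → Sg) : thM θ i (pmM s y) = pmM s (thM θ (s i) y) := by
  funext j
  cases j <;> simp [thM, pmM]

theorem acubec_inv {s : Equiv.Perm (Fin 4)} (hs : ∀ i, s (s i) = i) (y : Option (Fin 4) → Sg) :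
    pmM s (pmM s y) = y := by
  funext j
  cases j <;> simp [pmM, hs]

section mod

variable {Y : CS} {W M M' P : Fc Y} {pM pM' pP : Y.X → Sg} {θ θ' : Sg × Sg → Sg}
  {ν ν' : Measure (Option (Fin 4) → Sg)} [IsProbabilityMeasure ν] [IsProbabilityMeasure ν']
  {h : Sys ν (piT shG)} {h' : Sys ν' (piT shG)} {V : Fc (mkZ ν h)} {V' : Fc (mkZ ν' h')}
  {A : Option (Fin 4) → Fc (mkZ ν h)} {A' : Option (Fin 4) → Fc (mkZ ν' h')}

theorem acubec_gens (m : Mod W (fam M P) (fam pM pP) h V A) (i : Option (Fin 4)) :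
    (Gens (A i) fun y : Option (Fin 4) → Sg => y i) ∧
      Measurable fun y : Option (Fin 4) → Sg => y i := ⟨m.gens i, measurable_pi_apply i⟩

theorem acubec_aut (m : Mod W (fam M P) (fam pM pP) h V A) (hθ : Measurable θ)
    (hθ' : Measurable θ') (t : ∀ i, Hom (mkZ ν h) (mkZ ν' h') (thM θ i))
    (t' : ∀ i, Hom (mkZ ν' h') (mkZ ν h) (thM θ' i))
    (l : ∀ i, ∀ᵐ y ∂ν, thM θ' i (thM θ i y) = y) (r : ∀ i, ∀ᵐ y ∂ν', thM θ i (thM θ' i y) = y)
    (i j : Fin 4) :
    Aut (A (some 0) ⊔ A (some 1) ⊔ (A (some 2) ⊔ A (some 3))) (A none ⊔ (A (some i) ⊔ A (some j)))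
      (fun y => thM θ' j (thM θ i y)) fun y => thM θ' i (thM θ j y) := by
  have G := acubec_gens m
  have k : ∀ i j, ∀ᵐ y ∂ν, thM θ' i (thM θ j (thM θ' j (thM θ i y))) = y := fun i j => by
    filter_upwards [l i, (t i).mp.quasiMeasurePreserving.ae (r j)] with y h1 h2
    rw [h2, h1]
  have g := acubec_sup (G none) (acubec_sup (G (some i)) (G (some j)))
  exact ⟨acubec_comp (t i) (t' j), acubec_comp (t j) (t' i), k i j, k j i,
    acubec_fix (acubec_comp (t i) (t' j)) (acubec_sup (acubec_sup (G (some 0)) (G (some 1)))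
      (acubec_sup (G (some 2)) (G (some 3)))) fun y => by simp [thM],
    acubec_pres (acubec_comp (t i) (t' j)) g g (ψ := fun s => (θ' (θ (s.1, s.2.1), s.2.2), s.2))
      (by fun_prop) fun y => by simp [thM],
    acubec_pres (acubec_comp (t j) (t' i)) g g (ψ := fun s => (θ' (θ (s.1, s.2.2), s.2.1), s.2))
      (by fun_prop) fun y => by simp [thM]⟩

theorem acubec_near (m : Mod W (fam M P) (fam pM pP) h V A)
    (m' : Mod W (fam M' P) (fam pM' pP) h' V' A') (hθ' : Measurable θ')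
    (t : ∀ i, Hom (mkZ ν h) (mkZ ν' h') (thM θ i)) (t' : ∀ i, Hom (mkZ ν' h') (mkZ ν h) (thM θ' i))
    (l : ∀ i, ∀ᵐ y ∂ν, thM θ' i (thM θ i y) = y) {i j a b : Fin 4} (e : pb (t i) V' = V)
    (ha : Equiv.swap i j a = a) (hb : Equiv.swap i j b = b)
    (hd : Disjoint {none, some a, some b, some i} ({some j} : Finset (Option (Fin 4)))) :
    Near V (A none ⊔ (A (some a) ⊔ A (some b))) (A (some i) ⊔ A (some j))
      fun y => thM θ' j (thM θ i y) := by
  have G := acubec_gens m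
  have G' := acubec_gens m'
  have g := acubec_sup (G none) (acubec_sup (G (some a)) (G (some b)))
  have g' := acubec_sup (G' none) (acubec_sup (G' (some a)) (G' (some b)))
  have s := pm_hom m (Equiv.swap i j)
  have s' := pm_hom m' (Equiv.swap i j)
  intro κ _ F hF ε hε
  have hH := fun x => acubec_pres (t' i) g (acubec_sup g' (G' (some i)))
    (ψ := fun s => (θ' (s.1.1, s.2), s.1.2)) (by fun_prop) (fun y => by simp [thM]) _ (hF x)
  obtain ⟨β, h1, h2, h3, h4⟩ := near_abs ((m'.le none).trans le_sup_left) (m'.le (some i))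
    (m'.le (some j)) s' (ae_of_all _ (acubec_inv (Equiv.swap_apply_self i j)))
    (acubec_fix s' g' fun y => by simp [pmM, ha, hb])
    (acubec_pres s' (G' (some i)) (G' (some j)) measurable_id fun y => by simp [pmM])
    ((m'.ci _ _ hd).mono (sup_le (sup_le (acubec_le (by simp)) (sup_le (acubec_le (by simp))
      (acubec_le (by simp)))) (acubec_le (by simp))) (acubec_le (by simp))) κ _ hH ε hε
  refine ⟨fun y => β (thM θ i y), acubec_pres (t i) (acubec_sup (G' (some i)) (G' (some j)))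
    (acubec_sup (G (some i)) (G (some j))) measurable_id (fun y => by simp [thM]) _ h1,
    fun _ => h2 _, e ▸ (E_pb (t i) h1.top).trans (ae_pb (t i) h3), fun x => ?_⟩
  refine le_trans (le_of_eq ?_) (h4 x)
  obtain ⟨_, k1, -⟩ := ((bm_pb_top s' (hH x)).sub (hH x).top).1
  obtain ⟨_, k2, -⟩ := h1.1
  have k3 := k1.norm.mul (Complex.continuous_re.comp_aestronglyMeasurable k2)
  rw [← (t i).mp.map_eq] at k3
  refine Eq.trans (integral_congr_ae ?_) ((integral_map (t i).mp.aemeasurable k3).symm.trans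
    (by rw [(t i).mp.map_eq]; rfl))
  filter_upwards [l i, ae_pb (acubec_comp (t i) (t' j))
    (acubec_fix s g (fun y => by simp [pmM, ha, hb]) _ (hF x))] with y k4 k5
  simp only [Pi.mul_apply, acubec_pm, Equiv.swap_apply_left, k4, k5, Complex.ofReal_re]

end mod

theorem exists_cube {ι : Type} [Fintype ι] {u : ι → ℕ → ℤ} {Y : CS} {W M M' P : Fc Y}
    (h : Dfn W M M' P) (hf : FailR u W M) :
    ∃ (Z : CS) (V N Og Oh : Fc Z) (g g' f f' sw pm : Z.X → Z.X),
      Cube V N Og Oh g g' f f' sw pm ∧ FailR u V N := by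
  obtain ⟨pM, gM⟩ := sym_fc M
  obtain ⟨pM', gM'⟩ := sym_fc M'
  obtain ⟨pP, gP⟩ := sym_fc P
  have c := acubec_cod h.leM h.leP gM gP
  have c' := acubec_cod h.leM' h.leP gM' gP
  obtain ⟨ν, _, hs, V, A, m⟩ := model c
  obtain ⟨ν', _, hs', V', A', m'⟩ := model c'
  obtain ⟨θ, hθ, e⟩ := (gM.1.sup gP.1 gM.2.1 gP.2.1).dd (gM.2.1.prodMk gP.2.1) gM'.1 gM'.2.1
    (le_sup_left.trans h.sup.ge)
  obtain ⟨θ', hθ', e'⟩ := (gM'.1.sup gP.1 gM'.2.1 gP.2.1).dd (gM'.2.1.prodMk gP.2.1) gM.1 gM.2.1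
    (le_sup_left.trans h.sup.le)
  have t := th_hom c c' m m' h.ci2 h.ci3 hθ e
  have t' := th_hom c' c m' m h.ci3 h.ci2 hθ' e'
  have l := th_inv c m h.ci2 hθ hθ' e e'
  have au := acubec_aut m hθ hθ' t t' l (th_inv c' m' h.ci3 hθ' hθ e' e)
  have G := acubec_gens m
  have wm : ∀ i j : Fin 4, Disjoint {some i} ({some j} : Finset (Option (Fin 4))) →
      WM V (A (some i) ⊔ A (some j)) := fun i j hd =>
    wm_prod (m.wm _ (h.cW.wm _)) (m.wm _ (h.cW.wm _)) (m.le _) (m.le _)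
      ((m.ci _ _ hd).mono (acubec_le (by simp)) (acubec_le (by simp)))
  have s := pm_hom m (Equiv.swap 0 1)
  have s' := pm_hom m (Equiv.swap 0 2 * Equiv.swap 1 3)
  have i1 := ae_of_all ν (acubec_inv (Equiv.swap_apply_self 0 1))
  have i2 := ae_of_all ν (acubec_inv (s := Equiv.swap 0 2 * Equiv.swap 1 3) (by decide))
  have p1 := acubec_pres s (acubec_sup (G (some 0)) (G (some 1)))
    (acubec_sup (G (some 0)) (G (some 1))) measurable_swap fun y => rfl
  have p2 := acubec_pres s' (G none) (G none) measurable_id fun y => rfl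
  refine ⟨mkZ ν hs, V, A none, A (some 0) ⊔ A (some 1), A (some 2) ⊔ A (some 3), _, _, _, _,
    pmM (Equiv.swap 0 1), pmM (Equiv.swap 0 2 * Equiv.swap 1 3), ⟨m.le _,
    (m.le _).trans le_sup_left, (m.le _).trans le_sup_left, ?_,
    (m.ci {none} {some 0, some 1, some 2, some 3} (by decide)).mono (acubec_le (by simp))
      (sup_le (sup_le (acubec_le (by simp)) (acubec_le (by simp)))
        (sup_le (acubec_le (by simp)) (acubec_le (by simp)))),
    (m.ci {some 0, some 1} {some 2, some 3} (by decide)).mono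
      (sup_le (acubec_le (by simp)) (acubec_le (by simp)))
      (sup_le (acubec_le (by simp)) (acubec_le (by simp))),
    m.wm none (h.cW.wm _), wm 0 1 (by decide), wm 2 3 (by decide), au 0 1, au 2 3,
    ⟨s, s, i1, i1, acubec_fix s (G none) fun y => rfl, p1, p1⟩,
    ⟨s', s', i2, i2, acubec_fix s' (G none) fun y => rfl, p2, p2⟩,
    fun φ hφ => th_mix c c' m m' h.ci2 h.ci3 h.ci1 hθ hθ' e e' (by decide) hφ,
    ae_of_all _ fun y => by rw [acubec_pm, acubec_pm]; rfl,
    ae_of_all _ fun y => by rw [acubec_pm, acubec_pm]; rfl,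
    acubec_pres s' (acubec_sup (G (some 0)) (G (some 1))) (acubec_sup (G (some 2)) (G (some 3)))
      measurable_id fun y => rfl,
    acubec_near m m' hθ' t t' l (th_W c c' m m' _) (by decide) (by decide) (by decide),
    acubec_near m m' hθ' t t' l (th_W c c' m m' _) (by decide) (by decide) (by decide)⟩,
    m.fail ι u none hf⟩
  refine top_le_iff.1 (m.top.ge.trans (iSup_le ?_))
  rintro (_ | i)
  · exact le_sup_left.trans le_sup_left
  · fin_cases i
    exacts [le_sup_left.trans (le_sup_right.trans le_sup_left),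
      le_sup_right.trans (le_sup_right.trans le_sup_left), le_sup_left.trans le_sup_right,
      le_sup_right.trans le_sup_right]

end Pool.Agent.Lib.MP_1db5af_an.Th
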