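import Pool.Agent.Lib.MP_1db5af_an.Th.Defs
import Pool.Agent.Lib.MP_1db5af_an.Ae.Defs

set_option autoImplicit false

namespace Pool.Agent.Lib.MP_1db5af_an.Th

open MeasureTheory ProbabilityTheory Filter Topology ComplexConjugate
open scoped ENNReal NNReal InnerProductSpace

/-- The completion of `m` inside the ambient σ-algebra. -/
@[reducible] def cmp {X : Type} (m : MeasurableSpace X) {m0 : MeasurableSpace X} (μ : Measure X) :
    MeasurableSpace X where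
  MeasurableSet' s := MeasurableSet[m0] s ∧ ∃ t, MeasurableSet[m] t ∧ s =ᵐ[μ] t
  measurableSet_empty := ⟨MeasurableSet.empty, ∅, @MeasurableSet.empty _ m, EventuallyEq.rfl⟩
  measurableSet_compl := fun _ ⟨h, t, ht, e⟩ => ⟨h.compl, tᶜ, ht.compl, e.compl⟩
  measurableSet_iUnion := fun f hf => by
    choose h t ht e using hf
    exact ⟨MeasurableSet.iUnion h, ⋃ i, t i, MeasurableSet.iUnion ht,
      EventuallyEq.countable_iUnion e⟩

/-- Factors: invariant σ-algebras that contain the null sets. -/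
@[ext] structure Fc (Z : CS) where
  m : MeasurableSpace Z.X
  le : m ≤ Z.ms
  null : ∀ s, MeasurableSet[Z.ms] s → Z.μ s = 0 → MeasurableSet[m] s
  inv : ∀ k, Measurable[m, m] (Z.T k)

namespace Fc

variable {Z : CS}

/-- The trivial factor. -/
def bot (Z : CS) : Fc Z where
  m := cmp ⊥ Z.μ
  le := fun _ h => h.1
  null := fun s hs h0 => ⟨hs, ∅, @MeasurableSet.empty _ ⊥, ae_eq_empty.2 h0⟩
  inv := fun k s ⟨hs, t, ht, e⟩ => ⟨Z.sys.meas k hs, Z.T k ⁻¹' t, by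
    rcases MeasurableSpace.measurableSet_bot_iff.1 ht with rfl | rfl
    · exact @MeasurableSet.empty _ ⊥
    · exact @MeasurableSet.univ _ ⊥,
    (Z.sys.mp k).quasiMeasurePreserving.preimage_ae_eq e⟩

theorem meas_of_ae (A : Fc Z) {s t : Set Z.X} (hs : MeasurableSet[Z.ms] s)
    (ht : MeasurableSet[A.m] t) (e : s =ᵐ[Z.μ] t) : MeasurableSet[A.m] s := by
  have h := ae_eq_set.1 e
  have h1 := A.null _ (hs.diff (A.le _ ht)) h.1
  have h2 := A.null _ ((A.le _ ht).diff hs) h.2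
  have : s = (t \ (t \ s)) ∪ (s \ t) := by
    ext x
    simp only [Set.mem_union, Set.mem_diff]
    tauto
  rw [this]
  exact (ht.diff h2).union h1

theorem bot_le' (A : Fc Z) : (bot Z).m ≤ A.m := fun _ ⟨hs, _, ht, e⟩ =>
  A.meas_of_ae hs (bot_le (a := A.m) _ ht) e

instance : CompleteLattice (Fc Z) where
  le A B := A.m ≤ B.m
  le_refl _ := le_rfl
  le_trans _ _ _ h h' := h.trans h'
  le_antisymm _ _ h h' := Fc.ext (le_antisymm h h')
  sup A B := ⟨A.m ⊔ B.m, sup_le A.le B.le, fun s hs h => le_sup_left (a := A.m) _ (A.null s hs h),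
    fun k => measurable_iff_comap_le.2 (by
      rw [MeasurableSpace.comap_sup]
      exact sup_le_sup (A.inv k).comap_le (B.inv k).comap_le)⟩
  le_sup_left _ _ := le_sup_left
  le_sup_right _ _ := le_sup_right
  sup_le _ _ _ h h' := sup_le h h'
  inf A B := ⟨A.m ⊓ B.m, inf_le_left.trans A.le, fun s hs h => ⟨A.null s hs h, B.null s hs h⟩,
    fun k _ hs => ⟨A.inv k hs.1, B.inv k hs.2⟩⟩
  inf_le_left _ _ := inf_le_left
  inf_le_right _ _ := inf_le_right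
  le_inf _ _ _ h h' := le_inf h h'
  top := ⟨Z.ms, le_rfl, fun _ hs _ => hs, Z.sys.meas⟩
  le_top A := A.le
  bot := bot Z
  bot_le A := bot_le' A
  sSup s := ⟨(bot Z).m ⊔ ⨆ A ∈ s, A.m, sup_le (bot Z).le (iSup₂_le fun A _ => A.le),
    fun t ht h => le_sup_left (a := (bot Z).m) _ ((bot Z).null t ht h),
    fun k => measurable_iff_comap_le.2 (by
      rw [MeasurableSpace.comap_sup, MeasurableSpace.comap_iSup]
      refine sup_le_sup ((bot Z).inv k).comap_le (iSup_mono fun A => ?_)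
      rw [MeasurableSpace.comap_iSup]
      exact iSup_mono fun _ => (A.inv k).comap_le)⟩
  isLUB_sSup s := ⟨fun A hA => le_trans (b := ⨆ A ∈ s, A.m)
      (le_iSup₂ (f := fun (A : Fc Z) (_ : A ∈ s) => A.m) A hA) le_sup_right,
    fun A hA => sup_le (bot_le' A) (iSup₂_le fun _ hB => hA hB)⟩
  sInf s := ⟨Z.ms ⊓ ⨅ A ∈ s, A.m, inf_le_left, fun t ht h => ⟨ht, by
      simp only [MeasurableSpace.measurableSet_iInf]
      exact fun A _ => A.null t ht h⟩,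
    fun k t ht => ⟨Z.sys.meas k ht.1, by
      have h2 := ht.2
      simp only [MeasurableSpace.measurableSet_iInf] at h2 ⊢
      exact fun A hA => A.inv k (h2 A hA)⟩⟩
  isGLB_sInf s := ⟨fun A hA => le_trans (b := ⨅ A ∈ s, A.m) inf_le_right (iInf₂_le A hA),
    fun A hA => le_inf A.le (le_iInf₂ fun _ hB => hA hB)⟩

theorem le_def {A B : Fc Z} : A ≤ B ↔ A.m ≤ B.m := Iff.rfl

theorem sup_m (A B : Fc Z) : (A ⊔ B).m = A.m ⊔ B.m := rfl

theorem inf_m (A B : Fc Z) : (A ⊓ B).m = A.m ⊓ B.m := rfl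

theorem top_m : (⊤ : Fc Z).m = Z.ms := rfl

/-- Conditional expectation on a factor. -/
noncomputable abbrev E (W : Fc Z) (f : Z.X → ℂ) : Z.X → ℂ := Z.μ[f | W.m]

end Fc

variable {Z : CS}

/-- Bounded functions measurable for the factor `W`. -/
def BM (W : Fc Z) (f : Z.X → ℂ) : Prop :=
  (∃ C, Bd Z.μ C f) ∧ AEStronglyMeasurable[W.m] f Z.μ

/-- Conditional independence of `A` and `B` over `D`. -/
def CI (D A B : Fc Z) : Prop := ∀ b, BM B b → (D ⊔ A).E b =ᵐ[Z.μ] D.E b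

/-- Relative weak mixing of `B` over `D`. -/
def WM (D B : Fc Z) : Prop := RWM D.m B.m Z.μ (Z.T 1)

/-- Factors over which the whole system is weakly mixing. -/
def Closed (C : Fc Z) : Prop := WM C ⊤

/-- Functions compact over `D`. -/
def CptF (D : Fc Z) (g : Z.X → ℂ) : Prop := Cpt D.m Z.μ (Z.T 1) g

/-- Factors that are distal over `A`. -/
inductive Dist (A : Fc Z) : Fc Z → Prop
  | base : Dist A A
  | step (B C : Fc Z) : Dist A B → B ≤ C → (∀ g, BM C g → CptF B g) → Dist A C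
  | lim (s : Set (Fc Z)) : s.Nonempty → DirectedOn (· ≤ ·) s → (∀ B ∈ s, Dist A B) →
      Dist A (sSup s)

/-- The distal closure. -/
def cl (A : Fc Z) : Fc Z := sInf {C | A ≤ C ∧ Closed C}

/-- Factor maps. -/
structure Hom (Z Y : CS) (π : Z.X → Y.X) : Prop where
  mp : MeasurePreserving π Z.μ Y.μ
  comm : ∀ k, ∀ᵐ z ∂Z.μ, π (Z.T k z) = Y.T k (π z)

/-- The pull back of a factor. -/
def pb {Y : CS} {π : Z.X → Y.X} (h : Hom Z Y π) (A : Fc Y) : Fc Z where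
  m := cmp (A.m.comap π) Z.μ
  le := fun _ hs => hs.1
  null := fun _ hs h0 => ⟨hs, ∅, @MeasurableSet.empty _ (A.m.comap π), ae_eq_empty.2 h0⟩
  inv := fun k s ⟨hs, _, ⟨t, ht, rfl⟩, e⟩ => ⟨Z.sys.meas k hs, π ⁻¹' (Y.T k ⁻¹' t),
    ⟨_, A.inv k ht, rfl⟩, ((Z.sys.mp k).quasiMeasurePreserving.preimage_ae_eq e).trans (by
      filter_upwards [h.comm k] with z hz
      change (π (Z.T k z) ∈ t) = (Y.T k (π z) ∈ t)
      rw [hz])⟩

variable {ι : Type}

/-- The product of the shifted functions. -/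
noncomputable def pr (Z : CS) (u : ι → ℕ → ℤ) (J : Finset ι) (f : ι → Z.X → ℂ) (n : ℕ) :
    Z.X → ℂ := fun x => ∏ a ∈ J, f a (Z.T (u a n) x)

/-- The relative statement for the labels in `J`. -/
def HR (u : ι → ℕ → ℤ) (J : Finset ι) : Prop :=
  ∀ (Z : CS) (W B : Fc Z), W ≤ B → WM W B → ∀ f : ι → Z.X → ℂ, (∀ a ∈ J, BM B (f a)) →
    ∀ a0 ∈ J, W.E (f a0) =ᵐ[Z.μ] 0 → Nul fun n => ‖L2 Z.μ (W.E (pr Z u J f n))‖

variable [Fintype ι]

/-- `L` is the limit of the multiple correlations along `U`. -/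
def TT (Z : CS) (u : ι → ℕ → ℤ) (U : Ultrafilter ℕ) (f : ι → Z.X → ℂ) (L : ℂ) : Prop :=
  Tendsto (av fun n => ∫ x, pr Z u Finset.univ f n x ∂Z.μ) U (𝓝 L)

/-- `F` is the dual function of `f` in the slot `a`. -/
def IsDual [DecidableEq ι] (Z : CS) (u : ι → ℕ → ℤ) (U : Ultrafilter ℕ) (a : ι)
    (f : ι → Z.X → ℂ) (F : Z.X → ℂ) : Prop :=
  (∀ b, BM ⊤ (f b)) ∧ BM ⊤ F ∧
    ∀ g, BM ⊤ g → TT Z u U (Function.update f a g) (∫ x, g x * F x ∂Z.μ)

/-- The limit system of `Y` relative to `W`. -/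
structure LSD (u : ι → ℕ → ℤ) (U : Ultrafilter ℕ) (Y : CS) (W : Fc Y) (Z : CS)
    (y : ι → Z.X → Y.X) (Θ : Fc Z) : Prop where
  hom : ∀ a, Hom Z Y (y a)
  lm : ∀ (κ : Type) [Fintype κ] (f : κ → ι → Y.X → ℂ), (∀ i a, BM ⊤ (f i a)) →
    Tendsto (av fun n => ∫ x, ∏ i, W.E (pr Y u Finset.univ (f i) n) x ∂Y.μ) U
      (𝓝 (∫ z, ∏ i, Θ.E (fun z => ∏ a, f i a (y a z)) z ∂Z.μ))

/-- The join of the copies of `A` in the slots of `J`. -/
def LSD.row {u : ι → ℕ → ℤ} {U : Ultrafilter ℕ} {Y : CS} {W : Fc Y} {y : ι → Z.X → Y.X}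
    {Θ : Fc Z} (h : LSD u U Y W Z y Θ) (J : Finset ι) (A : Fc Y) : Fc Z :=
  ⨆ a ∈ J, pb (h.hom a) A

/-- The standing hypotheses of the inductive step. -/
structure Hyp (u : ι → ℕ → ℤ) (U : Ultrafilter ℕ) : Prop where
  card : 3 ≤ Fintype.card ι
  le : (U : Filter ℕ) ≤ atTop
  hr : ∀ J : Finset ι, J ≠ Finset.univ → HR u J

/-- A triangle of closed factors with a nonzero dual function. -/
structure Tri [DecidableEq ι] (u : ι → ℕ → ℤ) (U : Ultrafilter ℕ) (o : ι) (Z : CS)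
    (W N N' P : Fc Z) (g : ι → Z.X → ℂ) (G : Z.X → ℂ) : Prop where
  cW : Closed W
  cN : Closed N
  cN' : Closed N'
  cP : Closed P
  leN : W ≤ N
  leN' : W ≤ N'
  leP : W ≤ P
  ci1 : CI W N N'
  ci2 : CI W N P
  ci3 : CI W N' P
  alg : N ≤ cl (N' ⊔ P)
  alg' : N' ≤ cl (N ⊔ P)
  dual : IsDual Z u U o g G
  bm : ∀ a, BM N (g a)
  ne : ¬ G =ᵐ[Z.μ] 0
  zero : W.E G =ᵐ[Z.μ] 0

/-- The relative statement fails for functions of `M` over `W`. -/
def FailR (u : ι → ℕ → ℤ) (W M : Fc Z) : Prop :=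
  ∃ (f : ι → Z.X → ℂ) (a : ι), (∀ b, BM M (f b)) ∧ W.E (f a) =ᵐ[Z.μ] 0 ∧
    ¬ Nul fun n => ‖L2 Z.μ (W.E (pr Z u Finset.univ f n))‖

/-- A triangle in which `M` and `M'` determine each other over `P`. -/
structure Dfn (W M M' P : Fc Z) : Prop where
  cW : Closed W
  leM : W ≤ M
  leM' : W ≤ M'
  leP : W ≤ P
  ci1 : CI W M M'
  ci2 : CI W M P
  ci3 : CI W M' P
  sup : M ⊔ P = M' ⊔ P

/-- `g` is close to the identity on given functions of `A` under a weight measurable for `O`. -/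
def Near (W A O : Fc Z) (g : Z.X → Z.X) : Prop :=
  ∀ (κ : Type) [Fintype κ] (F : κ → Z.X → ℂ), (∀ i, BM A (F i)) → ∀ ε : ℝ, 0 < ε →
    ∃ β : Z.X → ℝ, BM O (fun y => (β y : ℂ)) ∧ (∀ y, 0 ≤ β y) ∧
      W.E (fun y => (β y : ℂ)) =ᵐ[Z.μ] (fun _ => 1) ∧
      ∀ i, ∫ y, ‖F i (g y) - F i y‖ * β y ∂Z.μ ≤ ε

/-- An automorphism `g` with inverse `g'` that fixes `O` and preserves `A`. -/
structure Aut (O A : Fc Z) (g g' : Z.X → Z.X) : Prop where
  hom : Hom Z Z g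
  hom' : Hom Z Z g'
  left : ∀ᵐ y ∂Z.μ, g' (g y) = y
  right : ∀ᵐ y ∂Z.μ, g (g' y) = y
  fix : ∀ w, BM O w → (fun y => w (g y)) =ᵐ[Z.μ] w
  pres : ∀ F, BM A F → BM A fun y => F (g y)
  pres' : ∀ F, BM A F → BM A fun y => F (g' y)

/-- The cube: two independent random automorphisms of the fibres of `M` over `W`. -/
structure Cube (W M Og Oh : Fc Z) (g g' h h' sw pm : Z.X → Z.X) : Prop where
  leM : W ≤ M
  leg : W ≤ Og
  leh : W ≤ Oh
  top : M ⊔ Og ⊔ Oh = ⊤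
  ci1 : CI W M (Og ⊔ Oh)
  ci2 : CI W Og Oh
  wmM : WM W M
  wmg : WM W Og
  wmh : WM W Oh
  ag : Aut (Og ⊔ Oh) (M ⊔ Og) g g'
  ah : Aut (Og ⊔ Oh) (M ⊔ Oh) h h'
  asw : Aut M Og sw sw
  apm : Aut M M pm pm
  mix : ∀ φ, BM M φ → M.E (fun y => φ (g y)) =ᵐ[Z.μ] W.E φ
  swg : ∀ᵐ y ∂Z.μ, g' (sw y) = sw (g y)
  pmg : ∀ᵐ y ∂Z.μ, g (pm y) = pm (h y)
  pmO : ∀ k, BM Og k → BM Oh fun y => k (pm y)
  nearg : Near W (M ⊔ Oh) Og g
  nearh : Near W (M ⊔ Og) Oh h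

end Pool.Agent.Lib.MP_1db5af_an.Th
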