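import Pool.Agent.Lib.MP_1db5af_an.Th.ACl

set_option autoImplicit false

namespace Pool.Agent.Lib.MP_1db5af_an.Th

open MeasureTheory ProbabilityTheory Filter Topology ComplexConjugate
open scoped ENNReal NNReal InnerProductSpace

variable {Z Y : CS} {π : Z.X → Y.X} (h : Hom Z Y π) {A B D : Fc Y} {f : Y.X → ℂ}

include h

theorem apb_comap (A : Fc Y) : A.m.comap π ≤ Z.ms :=
  (MeasurableSpace.comap_mono A.le).trans h.mp.measurable.comap_le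

theorem apb_le (A : Fc Y) : A.m.comap π ≤ (pb h A).m := fun t ht =>
  ⟨apb_comap h A t ht, t, ht, EventuallyEq.rfl⟩

theorem apb_bd {C : ℝ} (hf : Bd Y.μ C f) : Bd Z.μ C fun z => f (π z) :=
  ⟨hf.1.comp_quasiMeasurePreserving h.mp.quasiMeasurePreserving,
    h.mp.quasiMeasurePreserving.ae hf.2⟩

theorem apb_ae {g : Y.X → ℂ} (e : f =ᵐ[Y.μ] g) :
    (fun z => f (π z)) =ᵐ[Z.μ] fun z => g (π z) := h.mp.quasiMeasurePreserving.ae e

theorem bm_pb (hf : BM A f) : BM (pb h A) fun z => f (π z) := by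
  obtain ⟨C, hC⟩ := hf.1
  obtain ⟨f', h1, -, h2⟩ := hf.version hC
  have h3 : Measurable[(pb h A).m] fun z => f' (π z) :=
    (h1.comp (measurable_iff_comap_le.2 le_rfl)).mono (apb_le h A) le_rfl
  exact ⟨⟨C, apb_bd h hC⟩, _, h3.stronglyMeasurable, apb_ae h h2⟩

theorem bm_pb_top (hf : BM A f) : BM ⊤ fun z => f (π z) := (bm_pb h hf).top

theorem exists_of_bm_pb {F : Z.X → ℂ} (hF : BM (pb h A) F) :
    ∃ f, BM A f ∧ F =ᵐ[Z.μ] fun z => f (π z) := by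
  obtain ⟨C, hC⟩ := hF.1
  obtain ⟨G, h1, h2⟩ := (cmp_aesm (apb_comap h A)).1 hF.2
  obtain ⟨f, h3, rfl⟩ := h1.exists_eq_measurable_comp (mY := A.m)
  have h4 : StronglyMeasurable f := h3.mono A.le
  refine ⟨f, ⟨⟨C, h4.aestronglyMeasurable, ?_⟩, h3.aestronglyMeasurable⟩, h2⟩
  rw [← h.mp.map_eq]
  refine (ae_map_iff h.mp.aemeasurable
    (measurableSet_le h4.norm.measurable measurable_const)).2 ?_
  filter_upwards [hC.2, h2] with z h5 h6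
  rwa [h6] at h5

theorem ae_pb {g : Y.X → ℂ} (e : f =ᵐ[Y.μ] g) : (fun z => f (π z)) =ᵐ[Z.μ] fun z => g (π z) :=
  apb_ae h e

theorem apb_int {E : Type} [NormedAddCommGroup E] [NormedSpace ℝ E] {φ : Y.X → E}
    (hφ : AEStronglyMeasurable φ Y.μ) : ∫ z, φ (π z) ∂Z.μ = ∫ y, φ y ∂Y.μ := by
  rw [← h.mp.map_eq] at hφ ⊢
  exact (integral_map h.mp.aemeasurable hφ).symm

theorem int_pb (hf : BM ⊤ f) : ∫ z, f (π z) ∂Z.μ = ∫ y, f y ∂Y.μ :=
  apb_int h hf.integrable.1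

theorem norm_L2_pb (hf : BM ⊤ f) : ‖L2 Z.μ fun z => f (π z)‖ = ‖L2 Y.μ f‖ := by
  rw [← sq_eq_sq₀ (norm_nonneg _) (norm_nonneg _), norm_L2_sq (bm_pb h hf).memLp,
    norm_L2_sq hf.memLp]
  exact apb_int h (φ := fun y => ‖f y‖ ^ 2) (hf.integrable.1.norm.pow 2)

theorem E_pb (hf : BM ⊤ f) : (pb h D).E (fun z => f (π z)) =ᵐ[Z.μ] fun z => D.E f (π z) := by
  refine E_eq_of_int (bm_pb_top h hf) (bm_pb h (hf.E D)) fun a ha => ?_
  obtain ⟨b, hb, e⟩ := exists_of_bm_pb h ha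
  have h1 : ∀ g, BM ⊤ g → ∫ z, a z * g (π z) ∂Z.μ = ∫ y, b y * g y ∂Y.μ := fun g hg => by
    rw [← int_pb h (hb.top.mul hg)]
    exact integral_congr_ae (e.mul EventuallyEq.rfl)
  rw [h1 f hf, h1 _ (hf.E D).top, int_mul_E hb hf]

theorem pr_pb {ι : Type} (u : ι → ℕ → ℤ) (J : Finset ι) (F : ι → Y.X → ℂ) (n : ℕ) :
    pr Z u J (fun a z => F a (π z)) n =ᵐ[Z.μ] fun z => pr Y u J F n (π z) := by
  filter_upwards [ae_all_iff.2 h.comm] with z hz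
  simp only [pr, hz]

theorem pb_mono (e : A ≤ B) : pb h A ≤ pb h B := fun _ ⟨hs, t, ht, e'⟩ =>
  ⟨hs, t, MeasurableSpace.comap_mono e t ht, e'⟩

theorem pb_sup : pb h (A ⊔ B) = pb h A ⊔ pb h B := by
  refine le_antisymm (fun s ⟨hs, t, ht, e⟩ => (pb h A ⊔ pb h B).meas_of_ae hs ?_ e)
    (sup_le (pb_mono h le_sup_left) (pb_mono h le_sup_right))
  rw [Fc.sup_m, MeasurableSpace.comap_sup] at ht
  exact sup_le_sup (apb_le h A) (apb_le h B) t ht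

theorem pb_le_iff {C : Fc Z} : pb h A ≤ C ↔ ∀ f, BM A f → BM C fun z => f (π z) := by
  refine ⟨fun e f hf => (bm_pb h hf).mono e, fun H => le_of_bm fun F hF => ?_⟩
  obtain ⟨f, hf, e⟩ := exists_of_bm_pb h hF
  exact (H f hf).congr e.symm

theorem ci_pb (hc : CI D A B) : CI (pb h D) (pb h A) (pb h B) := by
  intro b hb
  obtain ⟨f, hf, e⟩ := exists_of_bm_pb h hb
  rw [← pb_sup]
  exact ((E_congr e).trans ((E_pb h hf.top).trans (ae_pb h (hc f hf)))).trans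
    ((E_congr e).trans (E_pb h hf.top)).symm

theorem apb_zero {F : Z.X → ℂ} (hf : BM ⊤ f) (e : F =ᵐ[Z.μ] fun z => f (π z)) :
    (pb h D).E F =ᵐ[Z.μ] 0 ↔ D.E f =ᵐ[Y.μ] 0 := by
  have h1 := (E_congr (W := pb h D) e).trans (E_pb h hf)
  refine ⟨fun h0 => ae_eq_of_int (hf.E D).top (bm_const 0) fun a ha => ?_,
    fun h0 => h1.trans (ae_pb h h0)⟩
  have h2 : ∫ z, a (π z) * D.E f (π z) ∂Z.μ = 0 := by
    refine integral_eq_zero_of_ae ?_
    filter_upwards [h1.symm.trans h0] with z hz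
    simp only [Pi.zero_apply] at hz ⊢
    rw [hz, mul_zero]
  rw [← int_pb h (ha.mul (hf.E D).top)]
  simpa using h2

theorem apb_normE {F : Z.X → ℂ} (hf : BM ⊤ f) (e : F =ᵐ[Z.μ] fun z => f (π z)) :
    ‖L2 Z.μ ((pb h D).E F)‖ = ‖L2 Y.μ (D.E f)‖ := by
  rw [L2_congr ((E_congr e).trans (E_pb h hf)), norm_L2_pb h (hf.E D).top]

theorem apb_shift {F : Z.X → ℂ} (e : F =ᵐ[Z.μ] fun z => f (π z)) (k : ℤ) :
    (fun z => F (Z.T k z)) =ᵐ[Z.μ] fun z => f (Y.T k (π z)) := by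
  filter_upwards [(Z.sys.mp k).quasiMeasurePreserving.ae e, h.comm k] with z h1 h2
  rw [h1, h2]

theorem apb_cor {F : Z.X → ℂ} (hf : BM ⊤ f) (e : F =ᵐ[Z.μ] fun z => f (π z)) :
    (fun l : ℕ => ‖L2 Z.μ ((pb h D).E fun x => F ((Z.T 1)^[l] x) * conj (F x))‖) =
      fun l : ℕ => ‖L2 Y.μ (D.E fun x => f ((Y.T 1)^[l] x) * conj (f x))‖ := by
  funext l
  rw [mact_iter Z.sys.toMAct, mact_iter Y.sys.toMAct]
  refine apb_normE h ((hf.shift l).mul hf.star) ?_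
  filter_upwards [apb_shift h e l, e] with z h1 h2
  rw [h1, h2]

theorem wm_pb (hw : WM D B) : WM (pb h D) (pb h B) := by
  intro F C h1 h2 h3
  obtain ⟨f, hf, e⟩ := exists_of_bm_pb h (A := B) ⟨⟨C, h1⟩, h2⟩
  obtain ⟨C', hC⟩ := hf.1
  have h4 := hw f C' hC hf.2 ((apb_zero h hf.top e).1 h3)
  rwa [← apb_cor h hf.top e] at h4

theorem wm_of_pb (hw : WM (pb h D) (pb h B)) : WM D B := by
  intro f C h1 h2 h3
  have hf : BM B f := ⟨⟨C, h1⟩, h2⟩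
  have e : (fun z => f (π z)) =ᵐ[Z.μ] fun z => f (π z) := EventuallyEq.rfl
  have h4 := hw (fun z => f (π z)) C (apb_bd h h1) (bm_pb h hf).2 ((apb_zero h hf.top e).2 h3)
  have h5 := apb_cor h (D := D) hf.top e
  exact (congrArg (fun u => Tendsto (av u) atTop (𝓝 0)) h5).mp h4

theorem apb_dist {g : Y.X → ℂ} (hf : BM ⊤ f) (hg : BM ⊤ g) :
    ‖(L2 Z.μ fun z => f (π z)) - L2 Z.μ fun z => g (π z)‖ = ‖L2 Y.μ f - L2 Y.μ g‖ := by
  have e := norm_L2_pb h (f := fun y => f y - g y) (hf.sub hg)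
  rw [L2_sub hf.memLp hg.memLp] at e
  rw [← e, ← L2_sub (bm_pb h hf).memLp (bm_pb h hg).memLp]

theorem apb_cpt (hc : CptF D f) : CptF (pb h D) fun z => f (π z) := by
  obtain ⟨⟨C, hC⟩, H⟩ := hc
  refine ⟨⟨C, apb_bd h hC⟩, fun ε hε => ?_⟩
  obtain ⟨ι, _, Φ, M, h1, h2⟩ := H ε hε
  refine ⟨ι, inferInstance, fun k z => Φ k (π z), M, fun k => apb_bd h (h1 k), fun l => ?_⟩
  obtain ⟨c, h3, h4⟩ := h2 l
  refine ⟨fun k z => c k (π z), fun k =>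
    ⟨apb_bd h (h3 k).1, (bm_pb h (A := D) ⟨⟨M, (h3 k).1⟩, (h3 k).2⟩).2⟩, ?_⟩
  rw [mact_iter Y.sys.toMAct] at h4
  rw [mact_iter Z.sys.toMAct, L2_congr (apb_shift h EventuallyEq.rfl l)]
  exact (apb_dist h ((bm_top_iff.2 ⟨C, hC⟩).shift l) (bm_sum fun k _ =>
    (bm_top_iff.2 ⟨M, (h3 k).1⟩).mul (bm_top_iff.2 ⟨M, h1 k⟩))).trans_le h4

theorem pb_cl : pb h (cl A) ≤ cl (pb h A) := by
  have key : ∀ A', Dist A A' → pb h A' ≤ cl (pb h A) := by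
    intro A' hd
    induction hd with
    | base => exact le_cl _
    | step B C _ _ hc ih =>
      exact (pb_le_iff h).2 fun g hg =>
        cr (cl_closed _) le_top ((apb_cpt h (hc g hg)).mono ih) (bm_pb_top h hg)
    | lim s hs hd _ ih =>
      refine (pb_le_iff h).2 fun g hg => bm_of_appr (bm_pb_top h hg) fun ε hε => ?_
      obtain ⟨B, hB, h1⟩ := appr_dir hs hd hg hε
      exact ⟨_, (bm_pb h (hg.E B)).mono (ih B hB), (apb_dist h hg.top (hg.E B).top).trans_le h1⟩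
  exact key _ (cl_dist A)

theorem failR_pb {ι : Type} [Fintype ι] {u : ι → ℕ → ℤ} :
    FailR u (pb h D) (pb h A) ↔ FailR u D A := by
  have key : ∀ (F : ι → Z.X → ℂ) (f : ι → Y.X → ℂ), (∀ b, BM A (f b)) →
      (∀ b, F b =ᵐ[Z.μ] fun z => f b (π z)) →
      (fun n => ‖L2 Z.μ ((pb h D).E (pr Z u Finset.univ F n))‖) =
        fun n => ‖L2 Y.μ (D.E (pr Y u Finset.univ f n))‖ := by
    intro F f hf e
    funext n
    refine apb_normE h (bm_pr (fun b _ => (hf b).top) n) ?_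
    filter_upwards [ae_all_iff.2 fun b => apb_shift h (e b) (u b n)] with z hz
    exact Finset.prod_congr rfl fun b _ => hz b
  constructor
  · rintro ⟨F, a, h1, h2, h3⟩
    choose f hf e using fun b => exists_of_bm_pb h (h1 b)
    exact ⟨f, a, hf, (apb_zero h (hf a).top (e a)).1 h2, key F f hf e ▸ h3⟩
  · rintro ⟨f, a, h1, h2, h3⟩
    exact ⟨fun b z => f b (π z), a, fun b => bm_pb h (h1 b),
      (apb_zero h (h1 a).top EventuallyEq.rfl).2 h2,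
      (key _ f h1 fun _ => EventuallyEq.rfl).symm ▸ h3⟩

end Pool.Agent.Lib.MP_1db5af_an.Th
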