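import Pool.Agent.Lib.MP_1db5af_an.Th.Ker
import Pool.Agent.Lib.MP_1db5af_an.Dense

set_option autoImplicit false

namespace Pool.Agent.Lib.MP_1db5af_an.Th

open MeasureTheory ProbabilityTheory Filter Topology ComplexConjugate
open scoped ENNReal NNReal InnerProductSpace

section

variable {P X : Type} [TopologicalSpace P] [CompactSpace P] [PolishSpace P] [MeasurableSpace P]
  [BorelSpace P] [MeasurableSpace X]

theorem lim_abs (m : ℕ → Measure P) [∀ n, IsProbabilityMeasure (m n)] (U : Ultrafilter ℕ)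
    (hU : (U : Filter ℕ) ≤ atTop) : ∃ lam : Measure P, IsProbabilityMeasure lam ∧
      ∀ g : C(P, ℂ), Tendsto (av fun n => ∫ p, g p ∂m n) U (𝓝 (∫ p, g p ∂lam)) := by
  classical
  let M : ℕ → Measure P := fun N => (N : ℝ≥0∞)⁻¹ • ∑ n ∈ Finset.range N, m n
  have hM : ∀ N, 0 < N → IsProbabilityMeasure (M N) := fun N hN => ⟨by
    simp only [M, Measure.smul_apply, Measure.finsetSum_apply, measure_univ, Finset.sum_const,
      Finset.card_range, smul_eq_mul, nsmul_eq_mul, mul_one]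
    exact ENNReal.inv_mul_cancel (by simpa using hN.ne') (by simp)⟩
  let ν : ℕ → ProbabilityMeasure P := fun N =>
    if h : 0 < N then ⟨M N, hM N h⟩ else ⟨m 0, inferInstance⟩
  obtain ⟨lam, -, hl⟩ := isCompact_univ.ultrafilter_le_nhds (U.map ν) (by simp)
  refine ⟨lam, inferInstance, fun g => ?_⟩
  have hl' : Tendsto ν U (𝓝 lam) := hl
  refine ((ProbabilityMeasure.tendsto_iff_forall_integral_rclike_tendsto ℂ).1 hl'
    (BoundedContinuousFunction.mkOfCompact g)).congr' ?_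
  filter_upwards [hU (eventually_gt_atTop 0)] with N hN
  have e : (ν N : Measure P) = M N := congrArg Subtype.val (dif_pos hN)
  rw [e, integral_smul_measure, integral_finsetSum_measure fun n _ =>
    (BoundedContinuousFunction.mkOfCompact g).integrable (m n)]
  simp [av]

omit [TopologicalSpace P] [CompactSpace P] [PolishSpace P] [BorelSpace P] in
theorem lim_bd {ρ : Measure P} {μ : Measure X} {π : P → X} (hπ : MeasurePreserving π ρ μ) {C : ℝ}
    {f : X → ℂ} (h : Bd μ C f) : Bd ρ C fun p => f (π p) :=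
  ⟨h.1.comp_measurePreserving hπ, hπ.quasiMeasurePreserving.ae h.2⟩

omit [PolishSpace P] in
theorem lim_bd_cont (ρ : Measure P) (g : C(P, ℂ)) : Bd ρ ‖g‖ g :=
  ⟨g.continuous.aestronglyMeasurable, Eventually.of_forall g.norm_coe_le_norm⟩

omit [TopologicalSpace P] [CompactSpace P] [PolishSpace P] [BorelSpace P] in
theorem lim_est {ρ : Measure P} {μ : Measure X} {π : P → X} (hπ : MeasurePreserving π ρ μ) {D : ℝ}
    {h : P → ℂ} (hh : Bd ρ D h) {f g : X → ℂ} (hf : Integrable f μ) (hg : Integrable g μ) :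
    ‖∫ p, f (π p) * h p ∂ρ - ∫ p, g (π p) * h p ∂ρ‖ ≤ (∫ x, ‖f x - g x‖ ∂μ) * D := by
  have h1 := (hπ.integrable_comp_of_integrable (hf.sub hg)).norm.mul_const D
  have h2 : ∀ {f : X → ℂ}, Integrable f μ → Integrable (fun p => f (π p) * h p) ρ := fun hf =>
    (hπ.integrable_comp_of_integrable hf).mul_bdd hh.1 hh.2
  have h3 : ∫ x, ‖f x - g x‖ ∂ρ.map π = ∫ p, ‖f (π p) - g (π p)‖ ∂ρ :=
    integral_map hπ.aemeasurable (hπ.map_eq.symm ▸ (hf.sub hg).norm.1)
  rw [← integral_sub (h2 hf) (h2 hg), ← hπ.map_eq, h3, ← integral_mul_const]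
  refine norm_integral_le_of_norm_le h1 (hh.2.mono fun p hp => ?_)
  rw [← sub_mul, norm_mul]
  exact mul_le_mul_of_nonneg_left hp (norm_nonneg _)

theorem lim_close {l : Filter ℕ} {a : ℕ → ℂ} {z : ℂ} (h : ∀ ε : ℝ, 0 < ε → ∃ (b : ℕ → ℂ) (w : ℂ),
    Tendsto (av b) l (𝓝 w) ∧ (∀ n, ‖a n - b n‖ ≤ ε) ∧ ‖z - w‖ ≤ ε) : Tendsto (av a) l (𝓝 z) := by
  refine Metric.tendsto_nhds.2 fun ε hε => ?_
  obtain ⟨b, w, h1, h2, h3⟩ := h (ε / 3) (by positivity)
  filter_upwards [Metric.tendsto_nhds.1 h1 (ε / 3) (by positivity)] with N hN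
  have h4 := norm_av_le h2 N
  rw [av_sub, ← dist_eq_norm] at h4
  rw [← dist_eq_norm, dist_comm] at h3
  linarith [dist_triangle4 (av a N) (av b N) w z]

variable [TopologicalSpace X] [CompactSpace X] [PolishSpace X] [BorelSpace X]

omit [PolishSpace P] in
theorem lim_slots {ι : Type} {m : ℕ → Measure P} {lam : Measure P} {μ : Measure X}
    [IsProbabilityMeasure μ] {l : Filter ℕ} {π : ι → C(P, X)}
    (hm : ∀ a n, MeasurePreserving (π a) (m n) μ) (hl : ∀ a, MeasurePreserving (π a) lam μ)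
    (h : ∀ g : C(P, ℂ), Tendsto (av fun n => ∫ p, g p ∂m n) l (𝓝 (∫ p, g p ∂lam)))
    {f : ι → X → ℂ} {C : ℝ} (hf : ∀ a, Bd μ C (f a)) (s : Finset ι) (H : C(P, ℂ)) :
    Tendsto (av fun n => ∫ p, (∏ a ∈ s, f a (π a p)) * H p ∂m n) l
      (𝓝 (∫ p, (∏ a ∈ s, f a (π a p)) * H p ∂lam)) := by
  classical
  induction s using Finset.induction_on generalizing H with
  | empty => simpa using h H
  | insert a s ha ih =>
    simp only [Finset.prod_insert ha, mul_assoc]
    have hD : 0 < |C ^ s.card * ‖H‖| + 1 := by positivity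
    have hb : ∀ ρ : Measure P, (∀ a, MeasurePreserving (π a) ρ μ) →
        Bd ρ (|C ^ s.card * ‖H‖| + 1) fun p => (∏ a ∈ s, f a (π a p)) * H p := fun ρ hρ =>
      ((Bd.prod s fun b _ => lim_bd (hρ b) (hf b)).mul (lim_bd_cont ρ H)).mono
        ((le_abs_self _).trans (lt_add_one _).le)
    refine lim_close fun ε hε => ?_
    obtain ⟨g, h1, h2⟩ := (hf a).integrable.exists_boundedContinuous_integral_sub_le (div_pos hε hD)
    have h3 := ih (g.toContinuousMap.comp (π a) * H)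
    simp only [ContinuousMap.mul_apply, ContinuousMap.comp_apply, mul_left_comm _ (g.1 _)] at h3
    rw [le_div_iff₀ hD] at h1
    exact ⟨_, _, h3, fun n => (lim_est (hm a n) (hb _ fun b => hm b n) (hf a).integrable h2).trans h1,
      (lim_est (hl a) (hb _ hl) (hf a).integrable h2).trans h1⟩

end

theorem lim {ι : Type} [Fintype ι] (Z : CS) (u : ι → ℕ → ℤ) (U : Ultrafilter ℕ)
    (hU : (U : Filter ℕ) ≤ atTop) {K : Type} [TopologicalSpace K] [CompactSpace K] [PolishSpace K]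
    [MeasurableSpace K] [BorelSpace K] {TK : ℤ → K → K} (hTK : MAct TK)
    (hc : ∀ k, Continuous (TK k)) {c : ℕ → Z.X → K} (hm : ∀ n, Measurable (c n))
    (he : ∀ n k, ∀ᵐ x ∂Z.μ, c n (Z.T k x) = TK k (c n x)) :
    ∃ lam : Measure ((ι → Z.X) × K), IsProbabilityMeasure lam ∧ Sys lam (prodT (piT Z.T) TK) ∧
      (∀ a, MeasurePreserving (fun p => p.1 a) lam Z.μ) ∧
      ∀ (f : ι → Z.X → ℂ) (C : ℝ) (φ : C(K, ℂ)), (∀ a, Bd Z.μ C (f a)) →
        Tendsto (av fun n => ∫ x, (∏ a, f a (Z.T (u a n) x)) * φ (c n x) ∂Z.μ) U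
          (𝓝 (∫ p, (∏ a, f a (p.1 a)) * φ p.2 ∂lam)) := by
  let F : ℕ → Z.X → (ι → Z.X) × K := fun n x => (fun a => Z.T (u a n) x, c n x)
  have hF : ∀ n, Measurable (F n) := fun n =>
    (measurable_pi_lambda _ fun a => Z.sys.meas _).prodMk (hm n)
  have := fun n => Measure.isProbabilityMeasure_map (μ := Z.μ) (hF n).aemeasurable
  obtain ⟨lam, hp, h⟩ := lim_abs (fun n => Z.μ.map (F n)) U hU
  let π : ι → C((ι → Z.X) × K, Z.X) := fun a => ⟨fun p => p.1 a, by fun_prop⟩
  have h1 : ∀ a n, MeasurePreserving (π a) (Z.μ.map (F n)) Z.μ := fun a n =>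
    ⟨(π a).continuous.measurable, by
      rw [Measure.map_map (π a).continuous.measurable (hF n)]
      exact (Z.sys.mp (u a n)).map_eq⟩
  have h2 : ∀ a, MeasurePreserving (π a) lam Z.μ := fun a => ⟨(π a).continuous.measurable, by
    refine ext_of_forall_integral_eq_of_IsFiniteMeasure fun g => Complex.ofReal_injective ?_
    have h3 := h ⟨fun p => (g (π a p) : ℂ), by fun_prop⟩
    have h4 : ∀ ρ : Measure ((ι → Z.X) × K), ∫ p, (g (π a p) : ℂ) ∂ρ = (∫ x, g x ∂ρ.map (π a) : ℝ) :=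
      fun ρ => by
        rw [integral_map (π a).continuous.aemeasurable g.continuous.aestronglyMeasurable,
          integral_complex_ofReal]
    simp only [ContinuousMap.coe_mk, h4, (h1 a _).map_eq] at h3
    exact tendsto_nhds_unique h3 ((tendsto_av_const _).mono_left hU)⟩
  have key : ∀ (f : ι → Z.X → ℂ) (C : ℝ) (φ : C(K, ℂ)), (∀ a, Bd Z.μ C (f a)) →
      Tendsto (av fun n => ∫ x, (∏ a, f a (Z.T (u a n) x)) * φ (c n x) ∂Z.μ) U
        (𝓝 (∫ p, (∏ a, f a (p.1 a)) * φ p.2 ∂lam)) := fun f C φ hf => by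
    have h3 := lim_slots h1 h2 h hf Finset.univ (φ.comp ContinuousMap.snd)
    rwa [funext fun n => integral_map (hF n).aemeasurable ((Bd.prod _ fun b _ =>
      lim_bd (h1 b n) (hf b)).mul (lim_bd_cont _ (φ.comp ContinuousMap.snd))).1] at h3
  have hS := mact_prod (mact_pi (κ := ι) Z.sys.toMAct) hTK
  refine ⟨lam, hp, ⟨hS, fun k => ⟨hS.meas k, ?_⟩⟩, h2, key⟩
  refine Measure.ext_of_integral_prod_mul_boundedContinuousFunction fun f g =>
    Complex.ofReal_injective ?_
  have hf : ∀ a, Bd Z.μ (∑ a, ‖f a‖) fun x => (f a x : ℂ) := fun a =>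
    ⟨(by fun_prop : Continuous fun x => (f a x : ℂ)).aestronglyMeasurable,
      Eventually.of_forall fun x => by
        rw [Complex.norm_real]
        exact ((f a).norm_coe_le_norm x).trans
          (Finset.single_le_sum (fun b _ => norm_nonneg (f b)) (Finset.mem_univ a))⟩
  have h3 := key _ _ ⟨fun y => (g y : ℂ), by fun_prop⟩ hf
  have h4 := key _ _ ⟨fun y => (g (TK k y) : ℂ),
    Complex.continuous_ofReal.comp (g.continuous.comp (hc k))⟩ fun a => (hf a).comp (Z.sys.mp k)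
  have h5 : ∀ n, ∫ x, (∏ a, (f a (Z.T k (Z.T (u a n) x)) : ℂ)) * g (TK k (c n x)) ∂Z.μ =
      ∫ x, (∏ a, (f a (Z.T (u a n) x) : ℂ)) * g (c n x) ∂Z.μ := fun n => by
    have h6 := (by fun_prop : Continuous fun p : (ι → Z.X) × K =>
      (∏ a, (f a (p.1 a) : ℂ)) * g p.2).measurable.comp (hF n)
    conv_rhs => rw [← (Z.sys.mp k).map_eq]
    refine Eq.trans ?_ (integral_map (Z.sys.meas k).aemeasurable h6.aestronglyMeasurable).symm
    refine integral_congr_ae ?_
    filter_upwards [he n k] with x hx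
    simp only [Function.comp_apply, F, hx, ← Z.sys.add, add_comm]
  simp only [ContinuousMap.coe_mk, h5] at h3 h4
  rw [integral_map (hS.meas k).aemeasurable (by fun_prop : Continuous fun p : (ι → Z.X) × K =>
    (∏ a, f a (p.1 a)) * g p.2).aestronglyMeasurable, ← integral_complex_ofReal,
    ← integral_complex_ofReal]
  push_cast
  exact tendsto_nhds_unique h4 h3

end Pool.Agent.Lib.MP_1db5af_an.Th
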