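import Pool.Agent.Lib.MP_1db5af_an.Th.ABase
import Pool.Agent.Lib.MP_1db5af_an.Th.Lim
import Pool.Agent.Lib.MP_1db5af_an.Th.APb

set_option autoImplicit false

namespace Pool.Agent.Lib.MP_1db5af_an.Th

open MeasureTheory ProbabilityTheory Filter Topology ComplexConjugate
open scoped ENNReal NNReal InnerProductSpace

theorem als_bd_comp {X X' : Type} [MeasurableSpace X] [MeasurableSpace X'] {μ : Measure X}
    {ν : Measure X'} {π : X → X'} (hπ : MeasurePreserving π μ ν) {C : ℝ} {φ : X' → ℂ}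
    (h : Bd ν C φ) : Bd μ C fun x => φ (π x) :=
  ⟨h.1.comp_measurePreserving hπ, hπ.quasiMeasurePreserving.ae h.2⟩

theorem als_norm_comp {X X' : Type} [MeasurableSpace X] [MeasurableSpace X'] {μ : Measure X}
    {ν : Measure X'} {π : X → X'} (hπ : MeasurePreserving π μ ν) {φ : X' → ℂ}
    (h : MemLp φ 2 ν) : ‖L2 μ fun x => φ (π x)‖ = ‖L2 ν φ‖ := by
  have h1 : MemLp (fun x => φ (π x)) 2 μ := h.comp_measurePreserving hπ
  rw [L2_eq h, L2_eq h1, Lp.norm_toLp, Lp.norm_toLp]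
  exact congrArg ENNReal.toReal (eLpNorm_comp_measurePreserving h.1 hπ)

theorem als_prod_bd {X : Type} [MeasurableSpace X] {μ : Measure X} {κ : Type} (s : Finset κ)
    {F : κ → X → ℂ} (hF : ∀ i, Bd μ 1 (F i)) : Bd μ 1 fun x => ∏ i ∈ s, F i x := by
  have h := Bd.prod s fun i _ => hF i
  rwa [one_pow] at h

/-- Products of functions of the unit ball are Lipschitz in the mean. -/
theorem als_prod_lip {X : Type} [MeasurableSpace X] {μ : Measure X} [IsFiniteMeasure μ]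
    {κ : Type} (s : Finset κ) {F G : κ → X → ℂ} (hF : ∀ i, Bd μ 1 (F i))
    (hG : ∀ i, Bd μ 1 (G i)) :
    ‖L2 μ fun x => ∏ i ∈ s, F i x - ∏ i ∈ s, G i x‖ ≤
      ∑ i ∈ s, ‖L2 μ fun x => F i x - G i x‖ := by
  classical
  induction s using Finset.induction_on with
  | empty => simp [L2_zero]
  | insert j s hj ih =>
    have h1 := als_prod_bd s hF
    have h2 := als_prod_bd s hG
    have h3 := ((hF j).sub (hG j)).memLp
    have h4 := (h1.sub h2).memLp
    have e : (fun x => ∏ i ∈ insert j s, F i x - ∏ i ∈ insert j s, G i x) = fun x =>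
        (∏ i ∈ s, F i x) * (F j x - G j x) + G j x * (∏ i ∈ s, F i x - ∏ i ∈ s, G i x) := by
      funext x
      rw [Finset.prod_insert hj, Finset.prod_insert hj]
      ring
    rw [e, L2_add (h1.memLp_mul h3) ((hG j).memLp_mul h4), Finset.sum_insert hj]
    have h5 := h1.norm_L2_mul h3
    have h6 := (hG j).norm_L2_mul h4
    rw [one_mul] at h5 h6
    exact (norm_add_le _ _).trans (add_le_add h5 (h6.trans ih))

/-- The multilinear expression of the limit formula. -/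
noncomputable def alsI {Z : CS} {X ι κ : Type} [Fintype ι] [Fintype κ] (W : Fc Z)
    (π : ι → Z.X → X) (f : κ → ι → X → ℂ) : ℂ :=
  ∫ z, ∏ i, W.E (fun z => ∏ a, f i a (π a z)) z ∂Z.μ

section

variable {Z : CS} {X ι κ : Type} [Fintype ι] [Fintype κ] [MeasurableSpace X] {ν : Measure X}
  [IsFiniteMeasure ν] (W : Fc Z) {π : ι → Z.X → X}

theorem als_lip1 (hπ : ∀ a, MeasurePreserving (π a) Z.μ ν) {f g : ι → X → ℂ}
    (hf : ∀ a, Bd ν 1 (f a)) (hg : ∀ a, Bd ν 1 (g a)) :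
    ‖L2 Z.μ fun x => W.E (fun z => ∏ a, f a (π a z)) x - W.E (fun z => ∏ a, g a (π a z)) x‖ ≤
      ∑ a, ‖L2 ν (f a) - L2 ν (g a)‖ := by
  have hP : ∀ a, Bd Z.μ 1 fun z => f a (π a z) := fun a => als_bd_comp (hπ a) (hf a)
  have hQ : ∀ a, Bd Z.μ 1 fun z => g a (π a z) := fun a => als_bd_comp (hπ a) (hg a)
  have b1 : BM (⊤ : Fc Z) fun z => ∏ a, f a (π a z) := bm_top_iff.2 ⟨_, als_prod_bd _ hP⟩
  have b2 : BM (⊤ : Fc Z) fun z => ∏ a, g a (π a z) := bm_top_iff.2 ⟨_, als_prod_bd _ hQ⟩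
  have h1 := L2_congr (E_sub (W := W) b1 b2)
  have h2 := norm_L2_E_le (W := W) (b1.sub b2)
  have h3 := als_prod_lip Finset.univ hP hQ
  have h4 : ∀ a, ‖L2 Z.μ fun z => f a (π a z) - g a (π a z)‖ = ‖L2 ν (f a) - L2 ν (g a)‖ := by
    intro a
    rw [← L2_sub (hf a).memLp (hg a).memLp]
    exact als_norm_comp (φ := fun x => f a x - g a x) (hπ a) ((hf a).sub (hg a)).memLp
  simp only [h4] at h3
  rw [h1] at h2
  exact h2.trans h3

theorem als_lip (hπ : ∀ a, MeasurePreserving (π a) Z.μ ν) {f g : κ → ι → X → ℂ}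
    (hf : ∀ i a, Bd ν 1 (f i a)) (hg : ∀ i a, Bd ν 1 (g i a)) :
    ‖alsI W π f - alsI W π g‖ ≤ ∑ i, ∑ a, ‖L2 ν (f i a) - L2 ν (g i a)‖ := by
  have hP : ∀ i, Bd Z.μ 1 (W.E fun z => ∏ a, f i a (π a z)) := fun i =>
    (als_prod_bd _ fun a => als_bd_comp (hπ a) (hf i a)).condExp
  have hQ : ∀ i, Bd Z.μ 1 (W.E fun z => ∏ a, g i a (π a z)) := fun i =>
    (als_prod_bd _ fun a => als_bd_comp (hπ a) (hg i a)).condExp
  have h1 := als_prod_bd Finset.univ hP
  have h2 := als_prod_bd Finset.univ hQ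
  have h3 := norm_integral_le_L2 (h1.sub h2).memLp
  have h4 := als_prod_lip Finset.univ hP hQ
  have h5 := Finset.sum_le_sum fun i (_ : i ∈ Finset.univ) => als_lip1 W hπ (hf i) (hg i)
  rw [integral_sub h1.integrable h2.integrable] at h3
  exact h3.trans (h4.trans h5)

theorem als_scale (hπ : ∀ a, MeasurePreserving (π a) Z.μ ν) {g : κ → ι → X → ℂ}
    (hg : ∀ i a, Bd ν 1 (g i a)) (c : ℂ) :
    alsI W π (fun i a x => c * g i a x) =
      (c ^ Fintype.card ι) ^ Fintype.card κ * alsI W π g := by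
  rw [alsI, alsI, ← integral_const_mul]
  refine integral_congr_ae ?_
  have h1 : ∀ i, W.E (fun z => ∏ a, c * g i a (π a z)) =ᵐ[Z.μ]
      fun z => c ^ Fintype.card ι * W.E (fun z => ∏ a, g i a (π a z)) z := by
    intro i
    simp only [Finset.prod_mul_distrib, Finset.prod_const, Finset.card_univ]
    exact E_mul (bm_const _)
      (bm_top_iff.2 ⟨_, als_prod_bd _ fun a => als_bd_comp (hπ a) (hg i a)⟩)
  filter_upwards [ae_all_iff.2 h1] with z hz
  rw [Finset.prod_congr rfl fun i _ => hz i, Finset.prod_mul_distrib, Finset.prod_const,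
    Finset.card_univ]

end

theorem als_tendsto {U : Filter ℕ} {p : ℕ → ℂ} {L : ℂ}
    (h : ∀ ε : ℝ, 0 < ε → ∃ (q : ℕ → ℂ) (L' : ℂ), Tendsto (av q) U (𝓝 L') ∧
      (∀ n, ‖p n - q n‖ ≤ ε) ∧ ‖L - L'‖ ≤ ε) : Tendsto (av p) U (𝓝 L) := by
  refine Metric.tendsto_nhds.2 fun ε hε => ?_
  obtain ⟨q, L', h1, h2, h3⟩ := h (ε / 3) (by positivity)
  filter_upwards [Metric.tendsto_nhds.1 h1 (ε / 3) (by positivity)] with N hN
  have h4 := norm_av_le h2 N
  rw [av_sub] at h4
  rw [dist_eq_norm] at hN ⊢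
  have e : av p N - L = (av p N - av q N) + (av q N - L') - (L - L') := by ring
  rw [e]
  exact (norm_sub_le _ _).trans_lt (by linarith [norm_add_le (av p N - av q N) (av q N - L')])

theorem als_bm_cont (Y : CS) (φ : C(Y.X, ℂ)) : BM (⊤ : Fc Y) φ :=
  bm_top_iff.2 ⟨‖φ‖, φ.continuous.aestronglyMeasurable, ae_of_all _ φ.norm_coe_le_norm⟩

/-- Orthogonality to continuous functions of a factor map. -/
theorem als_ext {Z Y : CS} {π : Z.X → Y.X} (h : Hom Z Y π) {G : Z.X → ℂ} {C : ℝ}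
    (hG : Bd Z.μ C G) (h0 : ∀ φ : C(Y.X, ℂ), ∫ z, φ (π z) * G z ∂Z.μ = 0) {a : Z.X → ℂ}
    (ha : BM (pb h ⊤) a) : ∫ z, a z * G z ∂Z.μ = 0 := by
  obtain ⟨ψ, hψ, e⟩ := exists_of_bm_pb h ha
  have e1 : ∫ z, a z * G z ∂Z.μ = ∫ z, ψ (π z) * G z ∂Z.μ :=
    integral_congr_ae (e.mono fun z hz => by simp only [hz])
  have hC := hG.nonneg
  rw [e1, ← norm_le_zero_iff]
  refine le_of_forall_pos_le_add fun ε hε => ?_
  obtain ⟨φ, hφ⟩ := (ContinuousMap.toLp_denseRange ℂ Y.μ ℂ (p := 2)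
    ENNReal.ofNat_ne_top).exists_dist_lt (L2 Y.μ ψ) (ε := ε / (C + 1)) (by positivity)
  have hφ' := als_bm_cont Y φ
  have e2 : ContinuousMap.toLp (E := ℂ) 2 Y.μ ℂ φ = L2 Y.μ φ :=
    Lp.ext ((ContinuousMap.coeFn_toLp Y.μ φ).trans (L2_coe hφ'.memLp).symm)
  rw [e2, dist_eq_norm, ← L2_sub hψ.memLp hφ'.memLp, ← norm_L2_pb h (hψ.sub hφ')] at hφ
  have b0 : BM (⊤ : Fc Z) G := bm_top_iff.2 ⟨_, hG⟩
  have b1 := bm_pb_top h hψ
  have b2 := bm_pb_top h hφ'
  have e3 : ∫ z, ψ (π z) * G z ∂Z.μ = ∫ z, G z * (ψ (π z) - φ (π z)) ∂Z.μ := by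
    rw [← sub_zero (∫ z, ψ (π z) * G z ∂Z.μ), ← h0 φ,
      ← integral_sub (b1.mul b0).integrable (b2.mul b0).integrable]
    exact integral_congr_ae (ae_of_all _ fun z => by ring)
  rw [e3, zero_add]
  refine (norm_integral_le_L2 (b0.mul (b1.sub b2)).memLp).trans
    ((hG.norm_L2_mul (b1.sub b2).memLp).trans ?_)
  rw [lt_div_iff₀ (by positivity)] at hφ
  nlinarith [norm_nonneg (L2 Z.μ fun z => ψ (π z) - φ (π z))]

/-- The closed unit disc. -/
abbrev alsD : Type := Metric.closedBall (0 : ℂ) 1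

instance alsPol : PolishSpace alsD := Metric.isClosed_closedBall.polishSpace

/-- The space of codes. -/
abbrev alsK (ι : Type) : Type := (ι → ℕ) × ℤ → alsD

/-- The shift of codes. -/
def alsT (ι : Type) (k : ℤ) (s : alsK ι) : alsK ι := fun p => s (p.1, p.2 + k)

theorem als_contT (ι : Type) (k : ℤ) : Continuous (alsT ι k) :=
  continuous_pi fun _ => continuous_apply _

theorem als_mact (ι : Type) [Fintype ι] : MAct (alsT ι) where
  zero s := by
    funext p
    simp only [alsT, add_zero]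
  add k l s := by
    funext p
    simp only [alsT, add_assoc]
  meas k := (als_contT ι k).measurable

/-- A coordinate of the code. -/
def alsC {ι : Type} (i : ι → ℕ) : C(alsK ι, ℂ) :=
  ⟨fun s => (s (i, 0) : ℂ), continuous_subtype_val.comp (continuous_apply _)⟩

/-- The codes of the conditional expectations. -/
theorem als_code {ι : Type} [Fintype ι] (u : ι → ℕ → ℤ) (Y : CS) (W : Fc Y) {d : ℕ → Y.X → ℂ}
    (hd : ∀ i, Bd Y.μ 1 (d i)) : ∃ c : ℕ → Y.X → alsK ι, (∀ n, Measurable[W.m] (c n)) ∧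
      (∀ n k x, c n (Y.T k x) = alsT ι k (c n x)) ∧ ∀ n i,
        W.E (fun x => ∏ a, d (i a) (Y.T (u a n) x)) =ᵐ[Y.μ] fun x => alsC i (c n x) := by
  have hP : ∀ (n : ℕ) (i : ι → ℕ), Bd Y.μ 1 fun x => ∏ a, d (i a) (Y.T (u a n) x) := fun n i =>
    als_prod_bd _ fun a => (hd _).comp (Y.sys.mp _)
  choose v hv hb he using fun (n : ℕ) (i : ι → ℕ) =>
    BM.version ((bm_top_iff.2 ⟨_, hP n i⟩).E W) (hP n i).condExp
  refine ⟨fun n x p => ⟨v n p.1 (Y.T p.2 x), mem_closedBall_zero_iff.2 (hb _ _ _)⟩, fun n => ?_,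
    fun n k x => ?_, fun n i => ?_⟩
  · let _ := W.m
    exact measurable_pi_lambda _ fun p => Measurable.subtype_mk ((hv n p.1).comp (W.inv p.2))
  · funext p
    exact Subtype.ext (congrArg (v n p.1) (Y.sys.add _ _ _).symm)
  · refine (he n i).trans (ae_of_all _ fun x => ?_)
    exact congrArg (v n i) (Y.sys.zero x).symm

theorem exists_ls {ι : Type} [Fintype ι] (u : ι → ℕ → ℤ) (U : Ultrafilter ℕ)
    (hU : (U : Filter ℕ) ≤ atTop) (Y : CS) (W : Fc Y) :
    ∃ (Z : CS) (y : ι → Z.X → Y.X) (Θ : Fc Z), LSD u U Y W Z y Θ := by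
  obtain ⟨d, hd0, hdense⟩ := exists_dense_ball Y
  have hd : ∀ i, Bd Y.μ 1 (d i) := fun i =>
    ⟨(hd0 i).1.aestronglyMeasurable, ae_of_all _ (hd0 i).2⟩
  obtain ⟨c, hcm, hce, hcE⟩ := als_code u Y W hd
  obtain ⟨lam, hprob, hsys, hmp, hlim⟩ := lim Y u U hU (als_mact ι) (als_contT ι)
    (c := c) (fun n => (hcm n).mono W.le le_rfl) fun n k => ae_of_all _ (hce n k)
  let Z : CS := { X := (ι → Y.X) × alsK ι, μ := lam, T := prodT (piT Y.T) (alsT ι), sys := hsys }
  have : IsProbabilityMeasure (lam.map Prod.snd) :=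
    Measure.isProbabilityMeasure_map measurable_snd.aemeasurable
  let ZK : CS :=
    { X := alsK ι, μ := lam.map Prod.snd, T := alsT ι
      sys := sys_map hsys (als_mact ι) measurable_snd fun k => ae_of_all _ fun z => rfl }
  have hK : Hom Z ZK Prod.snd := ⟨⟨measurable_snd, rfl⟩, fun k => ae_of_all _ fun z => rfl⟩
  let y : ι → Z.X → Y.X := fun a z => z.1 a
  have hy : ∀ a, MeasurePreserving (y a) Z.μ Y.μ := hmp
  have hone : ∀ φ : C(alsK ι, ℂ), Tendsto (av fun n => ∫ x, φ (c n x) ∂Y.μ) U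
      (𝓝 (∫ p, φ p.2 ∂lam)) := by
    intro φ
    have h1 := hlim (fun _ _ => 1) _ φ fun _ => Bd.const 1
    simpa only [Finset.prod_const_one, one_mul] using h1
  have hP : ∀ i : ι → ℕ, Bd Z.μ 1 fun z => ∏ a, d (i a) (y a z) := fun i =>
    als_prod_bd _ fun a => als_bd_comp (hy a) (hd _)
  have hE : ∀ i : ι → ℕ, (pb hK ⊤).E (fun z => ∏ a, d (i a) (y a z)) =ᵐ[Z.μ]
      fun z => alsC i z.2 := by
    intro i
    have b1 : BM (⊤ : Fc Z) fun z => ∏ a, d (i a) (y a z) := bm_top_iff.2 ⟨_, hP i⟩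
    have b2 : BM (pb hK ⊤) fun z : Z.X => alsC i z.2 := bm_pb hK (als_bm_cont ZK (alsC i))
    obtain ⟨C, hC⟩ := (b1.sub b2.top).1
    refine E_eq_of_int b1 b2 fun a ha => ?_
    rw [← sub_eq_zero, ← integral_sub (ha.top.mul b1).integrable (ha.top.mul b2.top).integrable]
    simp only [← mul_sub]
    refine als_ext hK hC (fun φ => ?_) ha
    have b3 := bm_pb_top hK (als_bm_cont ZK φ)
    simp only [mul_sub]
    rw [integral_sub (b3.mul b1).integrable (b3.mul b2.top).integrable, sub_eq_zero]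
    have h1 := hlim (fun a => d (i a)) 1 φ fun a => hd _
    have h2 := hone (φ * alsC i)
    have e : (fun n => ∫ x, (∏ a, d (i a) (Y.T (u a n) x)) * φ (c n x) ∂Y.μ) =
        fun n => ∫ x, (φ * alsC i) (c n x) ∂Y.μ := by
      funext n
      have m1 : Measurable[W.m] fun x => φ (c n x) := φ.continuous.measurable.comp (hcm n)
      have b4 : BM W fun x => φ (c n x) :=
        ⟨⟨‖φ‖, (m1.mono W.le le_rfl).aestronglyMeasurable,
          ae_of_all _ fun x => φ.norm_coe_le_norm _⟩, m1.stronglyMeasurable.aestronglyMeasurable⟩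
      have b5 : BM (⊤ : Fc Y) fun x => ∏ a, d (i a) (Y.T (u a n) x) :=
        bm_top_iff.2 ⟨_, als_prod_bd _ fun a => (hd _).comp (Y.sys.mp _)⟩
      simp only [mul_comm _ (φ (c n _))]
      rw [← int_mul_E b4 b5]
      refine integral_congr_ae ((hcE n i).mono fun x hx => ?_)
      simp only [hx, ContinuousMap.mul_apply]
    rw [e] at h1
    refine Eq.trans ?_ (tendsto_nhds_unique h1 h2)
    exact integral_congr_ae (ae_of_all _ fun z => mul_comm _ _)
  have hT : ∀ n a, MeasurePreserving (Y.T (u a n)) Y.μ Y.μ := fun n a => Y.sys.mp _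
  refine ⟨Z, y, pb hK ⊤, fun a => ⟨hy a, fun k => ae_of_all _ fun z => rfl⟩, fun κ _ f hf => ?_⟩
  have h1 : ∀ i : κ → ι → ℕ,
      Tendsto (av fun n => alsI W (fun a => Y.T (u a n)) fun j a => d (i j a)) U
        (𝓝 (alsI (pb hK ⊤) y fun j a => d (i j a))) := by
    intro i
    have h2 := hone (∏ j, alsC (i j))
    have e1 : (fun n => alsI W (fun a => Y.T (u a n)) fun j a => d (i j a)) =
        fun n => ∫ x, (∏ j, alsC (i j)) (c n x) ∂Y.μ := by
      funext n
      refine integral_congr_ae ((ae_all_iff.2 fun j => hcE n (i j)).mono fun x hx => ?_)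
      simp only [hx, ContinuousMap.prod_apply]
    have e2 : (alsI (pb hK ⊤) y fun j a => d (i j a)) = ∫ p, (∏ j, alsC (i j)) p.2 ∂lam := by
      refine integral_congr_ae ((ae_all_iff.2 fun j => hE (i j)).mono fun x hx => ?_)
      simp only [hx, ContinuousMap.prod_apply]
    rw [e1, e2]
    exact h2
  have h2 : ∀ g : κ → ι → Y.X → ℂ, (∀ j a, Bd Y.μ 1 (g j a)) →
      Tendsto (av fun n => alsI W (fun a => Y.T (u a n)) g) U (𝓝 (alsI (pb hK ⊤) y g)) := by
    intro g hg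
    refine als_tendsto fun ε hε => ?_
    have hN : (0 : ℝ) < Fintype.card κ * Fintype.card ι + 1 := by positivity
    choose i hi using fun j a => hdense _ (hg j a) _ (div_pos hε hN)
    have hs : ∑ j, ∑ a, ‖L2 Y.μ (g j a) - L2 Y.μ (d (i j a))‖ ≤ ε := by
      refine (Finset.sum_le_sum fun j _ => Finset.sum_le_sum fun a _ => hi j a).trans ?_
      simp only [Finset.sum_const, Finset.card_univ, nsmul_eq_mul]
      rw [← mul_assoc, ← mul_div_assoc, div_le_iff₀ hN]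
      nlinarith
    exact ⟨_, _, h1 i, fun n => (als_lip W (hT n) hg fun j a => hd _).trans hs,
      (als_lip _ hy hg fun j a => hd _).trans hs⟩
  obtain ⟨C, hC, hb⟩ := bm_bound (s := (Finset.univ : Finset (κ × ι)))
    (F := fun p => f p.1 p.2) fun p _ => hf p.1 p.2
  have hC0 : (C : ℂ) ≠ 0 := Complex.ofReal_ne_zero.2 (by linarith)
  have hg : ∀ j a, Bd Y.μ 1 fun x => (C : ℂ)⁻¹ * f j a x := fun j a =>
    ((Bd.const _).mul (hb (j, a) (Finset.mem_univ _))).mono (le_of_eq (by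
      rw [norm_inv, Complex.norm_real, Real.norm_of_nonneg (by linarith)]
      exact inv_mul_cancel₀ (by linarith)))
  have e : f = fun j a x => (C : ℂ) * ((C : ℂ)⁻¹ * f j a x) := by
    funext j a x
    rw [mul_inv_cancel_left₀ hC0]
  have h3 := (h2 _ hg).const_mul (((C : ℂ) ^ Fintype.card ι) ^ Fintype.card κ)
  rw [← als_scale _ hy hg, ← e] at h3
  refine h3.congr fun N => ?_
  rw [← av_mul]
  refine congrArg (av · N) (funext fun n => ?_)
  rw [← als_scale _ (hT n) hg, ← e]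
  rfl

end Pool.Agent.Lib.MP_1db5af_an.Th
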