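import Pool.Agent.Lib.MP_1db5af_an.Th.ALc
import Pool.Agent.Lib.MP_1db5af_an.Th.ALs

set_option autoImplicit false

namespace Pool.Agent.Lib.MP_1db5af_an.Th

open MeasureTheory ProbabilityTheory Filter Topology ComplexConjugate
open scoped ENNReal NNReal InnerProductSpace

variable {ι : Type} [Fintype ι] [DecidableEq ι] {u : ι → ℕ → ℤ} {U : Ultrafilter ℕ}

theorem adesc_prod {X : Type} (o : ι) (f : ι → X → ℂ) (f0 : X → ℂ) (p : ι → X) :
    ∏ a, Function.update f o f0 a (p a) = f0 (p o) * ∏ a ∈ Finset.univ.erase o, f a (p a) := by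
  rw [← Finset.mul_prod_erase _ _ (Finset.mem_univ o), Function.update_self]
  exact congrArg _ (Finset.prod_congr rfl fun a ha => by
    rw [Function.update_of_ne (Finset.ne_of_mem_erase ha)])

omit [Fintype ι] in
theorem adesc_bm {Y : CS} {M : Fc Y} (o : ι) {f : ι → Y.X → ℂ} {f0 : Y.X → ℂ}
    (hf : ∀ a, BM M (f a)) (h0 : BM M f0) (a : ι) : BM M (Function.update f o f0 a) := by
  by_cases h : a = o
  · rwa [h, Function.update_self]
  · rw [Function.update_of_ne h]
    exact hf a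

/-- If the relative statement holds, one slot can be replaced by its conditional expectation. -/
theorem adesc_slot {Y Z : CS} {W M : Fc Y} {y : ι → Z.X → Y.X} {Θ : Fc Z}
    (h : LSD u U Y W Z y Θ) (hU : (U : Filter ℕ) ≤ atTop) (e : W ≤ M) (hn : ¬ FailR u W M) (o : ι)
    {f : ι → Y.X → ℂ} {f0 : Y.X → ℂ} (hf : ∀ a, BM M (f a)) (h0 : BM M f0) :
    Θ.E (fun z => f0 (y o z) * ∏ a ∈ Finset.univ.erase o, f a (y a z)) =ᵐ[Z.μ]
      fun z => W.E f0 (y o z) * Θ.E (fun z => ∏ a ∈ Finset.univ.erase o, f a (y a z)) z := by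
  have h1 : BM M (W.E f0) := (h0.E W).mono e
  have b1 := adesc_bm o hf h0
  have b2 := adesc_bm o hf h1
  have b3 := adesc_bm o hf (h0.sub h1)
  have h2 : Nul fun n => ‖L2 Y.μ (W.E (pr Y u Finset.univ
      (Function.update f o fun x => f0 x - W.E f0 x) n))‖ := by
    by_contra hc
    refine hn ⟨_, o, b3, ?_, hc⟩
    rw [Function.update_self]
    filter_upwards [E_sub (W := W) h0.top h1.top, (h0.E W).E_self] with x x1 x2
    rw [x1, x2, sub_self, Pi.zero_apply]
  have h3 := h.lq hU (fun a => (b1 a).top) (fun a => (b2 a).top) (by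
    refine Eq.mpr (congrArg Nul (funext fun n => congrArg norm ?_)) h2
    have p1 := (bm_pr (u := u) (J := Finset.univ) (fun a _ => b1 a) n).top
    have p2 := (bm_pr (u := u) (J := Finset.univ) (fun a _ => b2 a) n).top
    rw [← L2_sub (p1.E W).memLp (p2.E W).memLp]
    refine L2_congr ((E_sub p1 p2).symm.trans (E_congr (.of_forall fun x => ?_)))
    simp only [pr, adesc_prod, sub_mul])
  simp only [adesc_prod] at h3
  exact h3.trans (E_mul ((bm_pb (h.hom o) (h0.E W)).mono (h.la hU o))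
    (bm_prod fun a _ => bm_pb_top (h.hom a) (hf a)))

theorem adesc_ci {Y Z : CS} {W M : Fc Y} {y : ι → Z.X → Y.X} {Θ : Fc Z}
    (h : LSD u U Y W Z y Θ) (hU : (U : Filter ℕ) ≤ atTop) (e : W ≤ M) (hn : ¬ FailR u W M)
    (o : ι) : CI Θ (pb (h.hom o) M) (h.row (Finset.univ.erase o) M) := by
  rcases (Finset.univ.erase o).eq_empty_or_nonempty with he | hne
  · exact (ci_of_le (by simp [LSD.row, he])).symm
  refine ci_of_appr (P := BM (pb (h.hom o) M)) (fun a ha ε hε => ?_)
    (fun b hb => h.appr hne hb) ?_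
  · obtain ⟨C, hC⟩ := ha.1
    exact ⟨1, fun _ => a, C, fun _ => ⟨hC, ha⟩, by simpa using hε.le⟩
  · rintro a b - - ha ⟨f, hf, hb⟩
    obtain ⟨f0, h0, ha'⟩ := exists_of_bm_pb (h.hom o) ha
    have h1 := adesc_slot h hU e hn o hf h0
    have h2 := adesc_slot h hU e hn o (f := fun _ _ => 1) (fun _ => bm_const 1) h0
    simp only [Finset.prod_const_one, mul_one] at h2
    have h3 : (fun x => a x * b x) =ᵐ[Z.μ]
        fun z => f0 (y o z) * ∏ a ∈ Finset.univ.erase o, f a (y a z) := by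
      filter_upwards [ha', hb] with z z1 z2
      rw [z1, z2]
    filter_upwards [E_congr (W := Θ) h3, h1, h2, E_congr (W := Θ) ha', E_congr (W := Θ) hb,
      (bm_const (A := Θ) 1).E_self] with z z1 z2 z3 z4 z5 z6
    rw [z1, z2, z4, z5, z3, z6, mul_one]

theorem descent (H : Hyp u U) {o : ι} {Y : CS} {W M : Fc Y} (cW : Closed W) (e : W ≤ M)
    {g : ι → Y.X → ℂ} {G : Y.X → ℂ} (d : IsDual Y u U o g G) (hg : ∀ a, BM (cl M) (g a))
    (hne : ¬ G =ᵐ[Y.μ] 0) (h0 : W.E G =ᵐ[Y.μ] 0) : FailR u W M := by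
  by_contra hn
  obtain ⟨Z, y, Θ, h⟩ := exists_ls u U H.le Y W
  have hG : BM (cl M) G := d.bm fun b _ => hg b
  have h1 := (ci_cl' (adesc_ci h H.le e hn o)).int
    ((bm_pb (h.hom o) hG.star).mono ((pb_cl (h.hom o)).trans (cl_mono le_sup_left)))
    (b := fun z => ∏ a ∈ Finset.univ.erase o, g a (y a z))
    ((bm_prod fun a ha => (bm_pb (h.hom a) (hg a)).mono (h.le_row ha _)).mono
      ((h.row_cl _ M).trans (cl_mono le_sup_left)))
  have h2 := h.lw H le_top cW (J := ∅) (a := o) (Finset.notMem_empty o) (fun hc => by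
    have h3 := congrArg Finset.card hc
    have h4 := H.card
    simp only [insert_empty_eq, Finset.card_singleton, Finset.card_univ] at h3
    omega) hG.star.top
  have h3 : Θ ⊔ h.row ∅ ⊤ = Θ := by simp [LSD.row]
  rw [h3] at h2
  have h4 : W.E (fun x => conj (G x)) =ᵐ[Y.μ] fun _ => 0 := by
    filter_upwards [E_star (W := W) hG.top, h0] with x x1 x2
    rw [x1, x2, Pi.zero_apply, map_zero]
  have h5 := (h.lb (adesc_bm o d.1 hG.star.top)).unique (d.2.2 _ hG.star.top)
  simp only [adesc_prod] at h5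
  replace h1 := h5.symm.trans (h1.trans (integral_eq_zero_of_ae (by
    filter_upwards [h2, ae_pb (h.hom o) h4] with z z1 z2
    rw [z1, z2, zero_mul, Pi.zero_apply])))
  have h6 := norm_L2_int hG.top
  simp only [mul_comm (G _), h1, Complex.ofReal_eq_zero, ne_eq, OfNat.ofNat_ne_zero,
    not_false_eq_true, pow_eq_zero_iff, norm_eq_zero] at h6
  exact hne (ae_of_L2 hG.top (bm_const 0) (h6.trans L2_zero.symm))

end Pool.Agent.Lib.MP_1db5af_an.Th
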