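import Pool.Agent.Lib.MP_1db5af_an.Th.AHr

set_option autoImplicit false

namespace Pool.Agent.Lib.MP_1db5af_an.Th

open MeasureTheory ProbabilityTheory Filter Topology ComplexConjugate
open scoped ENNReal NNReal InnerProductSpace

variable {ι : Type} [Fintype ι] [DecidableEq ι] {u : ι → ℕ → ℤ} {U : Ultrafilter ℕ} {Z : CS}
  {f g : ι → Z.X → ℂ} {F : Z.X → ℂ} {a : ι} {L L' : ℂ}

omit [Fintype ι] [DecidableEq ι] in
theorem adual_bd {J : Finset ι} {C : ℝ} (h : ∀ b ∈ J, Bd Z.μ C (f b)) (n : ℕ) :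
    Bd Z.μ (C ^ J.card) (pr Z u J f n) :=
  Bd.prod J fun b hb => (h b hb).comp (Z.sys.mp _)

omit [Fintype ι] [DecidableEq ι] in
theorem adual_congr {J : Finset ι} (e : ∀ b ∈ J, f b =ᵐ[Z.μ] g b) (n : ℕ) :
    pr Z u J f n =ᵐ[Z.μ] pr Z u J g n := by
  filter_upwards [(eventually_all_finset J).2 fun b hb =>
    (Z.sys.mp (u b n)).quasiMeasurePreserving.ae_eq_comp (e b hb)] with x hx
  exact Finset.prod_congr rfl hx

theorem adual_pr (f : ι → Z.X → ℂ) (a : ι) (n : ℕ) : pr Z u Finset.univ f n =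
    fun x => f a (Z.T (u a n) x) * pr Z u (Finset.univ.erase a) f n x :=
  funext fun _ => (Finset.mul_prod_erase _ _ (Finset.mem_univ a)).symm

theorem adual_upd (f : ι → Z.X → ℂ) (a : ι) (k : Z.X → ℂ) :
    pr Z u (Finset.univ.erase a) (Function.update f a k) = pr Z u (Finset.univ.erase a) f :=
  funext₂ fun _ _ => Finset.prod_congr rfl fun b hb => by
    rw [Function.update_of_ne (Finset.ne_of_mem_erase hb)]

theorem adual_bm {C : Fc Z} (hf : ∀ b, b ≠ a → BM C (f b)) (n : ℕ) :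
    BM C fun x => pr Z u (Finset.univ.erase a) f n (Z.T (-u a n) x) :=
  (bm_pr (fun b hb => hf b (Finset.ne_of_mem_erase hb)) n).shift _

theorem adual_int {k : Z.X → ℂ} (hk : BM ⊤ k) (hf : ∀ b, b ≠ a → BM ⊤ (f b)) (n : ℕ) :
    ∫ x, pr Z u Finset.univ (Function.update f a k) n x ∂Z.μ =
      ∫ x, k x * pr Z u (Finset.univ.erase a) f n (Z.T (-u a n) x) ∂Z.μ := by
  rw [← int_shift (hk.mul (adual_bm hf n)) (u a n), adual_pr _ a, adual_upd, Function.update_self]
  simp only [← Z.sys.add, neg_add_cancel, Z.sys.zero]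

omit [Fintype ι] [DecidableEq ι] in
theorem adual_up {A : Fc Z} {k : Z.X → ℂ} [DecidableEq ι] (hk : BM A k)
    (hf : ∀ b, b ≠ a → BM A (f b)) (b : ι) : BM A (Function.update f a k b) := by
  rcases eq_or_ne b a with rfl | h
  · rwa [Function.update_self]
  · rw [Function.update_of_ne h]
    exact hf b h

theorem adual_E {C : Fc Z} {k : Z.X → ℂ} (hk : BM ⊤ k) (hf : ∀ b, b ≠ a → BM C (f b)) :
    TT Z u U (Function.update f a k) L ↔ TT Z u U (Function.update f a (C.E k)) L := by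
  have h := fun b hb => (hf b hb).top
  simp only [TT, adual_int hk h, adual_int (hk.E C).top h, mul_comm (k _), mul_comm (C.E k _),
    int_mul_E (adual_bm hf _) hk]

theorem exists_tt (hf : ∀ b, BM ⊤ (f b)) : ∃ L, TT Z u U f L := by
  obtain ⟨C, -, hC⟩ := bm_bound (s := Finset.univ) fun b _ => hf b
  exact exists_ulim U fun n => (adual_bd hC n).norm_integral

theorem TT.unique (h : TT Z u U f L) (h' : TT Z u U f L') : L = L' :=
  tendsto_nhds_unique h h'

theorem TT.congr (h : TT Z u U f L) (e : ∀ b, f b =ᵐ[Z.μ] g b) : TT Z u U g L := by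
  unfold TT at h ⊢
  rwa [← funext fun n => integral_congr_ae (adual_congr (u := u) (fun b _ => e b) n)]

theorem exists_dual (hf : ∀ b, BM ⊤ (f b)) (a : ι) : ∃ F, IsDual Z u U a f F := by
  obtain ⟨C, -, hC⟩ := bm_bound (s := Finset.univ.erase a) fun b _ => hf b
  have h1 := fun n => (adual_bd (u := u) hC n).comp (Z.sys.mp (-u a n))
  obtain ⟨Φ, -, h2, h3⟩ := wu_bd U (Bd.av (h1 0).nonneg h1)
  refine ⟨Φ, hf, bm_top_iff.2 ⟨_, h2⟩, fun k hk => ?_⟩
  obtain ⟨D, hD⟩ := hk.1
  refine (h3 k D hD).congr fun N => ?_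
  simp only [adual_int hk fun b _ => hf b, ← av_mul]
  simp only [av]
  rw [integral_smul, integral_finsetSum _ fun n _ => (hD.mul (h1 n)).integrable]

theorem IsDual.tt (h : IsDual Z u U a f F) : TT Z u U f (∫ x, f a x * F x ∂Z.μ) := by
  simpa only [Function.update_eq_self] using h.2.2 (f a) (h.1 a)

theorem IsDual.unique {F' : Z.X → ℂ} (h : IsDual Z u U a f F) (h' : IsDual Z u U a g F')
    (e : ∀ b, b ≠ a → f b =ᵐ[Z.μ] g b) : F =ᵐ[Z.μ] F' := by
  refine ae_eq_of_int h.2.1 h'.2.1 fun k hk =>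
    ((h.2.2 k hk).congr fun b => ?_).unique (h'.2.2 k hk)
  rcases eq_or_ne b a with rfl | hb
  · rw [Function.update_self, Function.update_self]
  · rw [Function.update_of_ne hb, Function.update_of_ne hb]
    exact e b hb

theorem IsDual.congr {F' : Z.X → ℂ} (h : IsDual Z u U a f F) (e : F =ᵐ[Z.μ] F') :
    IsDual Z u U a f F' := by
  refine ⟨h.1, h.2.1.congr e, fun k hk => ?_⟩
  rw [← integral_congr_ae (EventuallyEq.rfl.fun_mul e)]
  exact h.2.2 k hk

theorem IsDual.zero (h : IsDual Z u U a f F) {b : ι} (hb : b ≠ a) (e : f b =ᵐ[Z.μ] 0) :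
    F =ᵐ[Z.μ] 0 := by
  refine ae_eq_of_int h.2.1 (bm_const 0) fun k hk => (h.2.2 k hk).unique ?_
  have h1 : ∀ n, ∫ x, pr Z u Finset.univ (Function.update f a k) n x ∂Z.μ = 0 := fun n => by
    refine integral_eq_zero_of_ae ?_
    filter_upwards [(Z.sys.mp (u b n)).quasiMeasurePreserving.ae_eq_comp e] with x hx
    refine Finset.prod_eq_zero (Finset.mem_univ b) ?_
    rw [Function.update_of_ne hb]
    exact hx
  simp only [TT, h1, Pi.zero_apply, mul_zero, integral_zero]
  exact tendsto_const_nhds.congr fun N => by simp [av]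

theorem IsDual.bm {B : Fc Z} (h : IsDual Z u U a f F) (hf : ∀ b, b ≠ a → BM B (f b)) :
    BM B F := by
  refine (h.2.1.E B).congr (ae_eq_of_int (h.2.1.E B).top h.2.1 fun k hk => ?_)
  rw [← int_E_mul hk h.2.1]
  exact (h.2.2 _ (hk.E B).top).unique ((adual_E hk hf).1 (h.2.2 k hk))

theorem IsDual.pb {Y : CS} {π : Y.X → Z.X} (hπ : Hom Y Z π) (h : IsDual Z u U a f F) :
    IsDual Y u U a (fun b y => f b (π y)) fun y => F (π y) := by
  refine ⟨fun b => bm_pb_top hπ (h.1 b), bm_pb_top hπ h.2.1, fun k hk => ?_⟩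
  obtain ⟨k', hk', e⟩ := exists_of_bm_pb hπ (hk.E (Th.pb hπ ⊤))
  have h1 : ∫ y, k y * F (π y) ∂Y.μ = ∫ x, k' x * F x ∂Z.μ := by
    rw [← int_pb hπ (hk'.mul h.2.1), ← integral_congr_ae (e.fun_mul EventuallyEq.rfl)]
    simp only [mul_comm _ (F (π _)), int_mul_E (bm_pb hπ h.2.1) hk]
  have h2 : TT Y u U (fun b y => Function.update f a k' b (π y)) (∫ x, k' x * F x ∂Z.μ) := by
    unfold TT
    rw [funext fun n => (integral_congr_ae (pr_pb hπ u Finset.univ (Function.update f a k') n)).trans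
      (int_pb hπ (bm_pr (fun b _ => adual_up hk' (fun b _ => h.1 b) b) n))]
    exact h.2.2 k' hk'
  rw [h1, adual_E hk fun b _ => bm_pb hπ (h.1 b)]
  refine h2.congr fun b => ?_
  rcases eq_or_ne b a with rfl | hb
  · rw [Function.update_self, Function.update_self]
    exact e.symm
  · rw [Function.update_of_ne hb, Function.update_of_ne hb]

theorem adual_iff {p q : ℕ → ℂ} {r : ℕ → ℝ} (hU : (U : Filter ℕ) ≤ atTop) (hr : Nul r)
    (h : ∀ n, ‖p n - q n‖ ≤ r n) : Tendsto (av p) U (𝓝 L) ↔ Tendsto (av q) U (𝓝 L) := by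
  refine tendsto_iff_of_dist (Tendsto.mono_left (squeeze_zero (fun _ => dist_nonneg)
    (fun N => ?_) (nul_mono (fun _ => norm_nonneg _) h hr)) hU)
  rw [dist_eq_norm, ← av_sub]
  exact norm_av_le_av _ N

/-- A function of `C` in one slot projects all other slots. -/
theorem tt_E (H : Hyp u U) {C B : Fc Z} (e : C ≤ B) (hw : WM C B) (ha : BM C (f a))
    (hf : ∀ b, BM B (f b)) : TT Z u U f L ↔ TT Z u U (fun b => C.E (f b)) L := by
  obtain ⟨K, hK⟩ := ha.1
  refine adual_iff H.le (nul_mul K (hr_full (H.hr (Finset.univ.erase a) fun h =>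
    Finset.notMem_erase a Finset.univ (h.symm ▸ Finset.mem_univ a)) e hw fun b _ => hf b))
    fun n => ?_
  have h1 : BM ⊤ (pr Z u (Finset.univ.erase a) f n) := bm_pr (fun b _ => (hf b).top) n
  have h2 : BM ⊤ (pr Z u (Finset.univ.erase a) (fun b => C.E (f b)) n) :=
    bm_pr (fun b _ => ((hf b).E C).top) n
  have h3 := ha.shift (u a n)
  have h4 : (fun x => C.E (f a) (Z.T (u a n) x) *
      pr Z u (Finset.univ.erase a) (fun b => C.E (f b)) n x) =ᵐ[Z.μ] fun x => f a (Z.T (u a n) x) *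
      pr Z u (Finset.univ.erase a) (fun b => C.E (f b)) n x :=
    ((Z.sys.mp (u a n)).quasiMeasurePreserving.ae_eq_comp ha.E_self).fun_mul EventuallyEq.rfl
  rw [adual_pr f a, adual_pr _ a, ← int_mul_E h3 h1, integral_congr_ae h4,
    ← L2_sub (h1.E C).memLp h2.memLp]
  refine le_trans (le_of_eq (congrArg _ ?_)) ((norm_integral_le_L2
    (h3.top.mul ((h1.E C).top.sub h2)).memLp).trans
    ((hK.comp (Z.sys.mp _)).norm_L2_mul ((h1.E C).top.sub h2).memLp))
  simp only [mul_sub]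
  exact (integral_sub (h3.top.mul (h1.E C).top).integrable (h3.top.mul h2).integrable).symm

/-- Functions of `C` in all other slots project the remaining slot. -/
theorem tt_E' {C : Fc Z} (ha : BM ⊤ (f a)) (hf : ∀ b, b ≠ a → BM C (f b)) :
    TT Z u U f L ↔ TT Z u U (Function.update f a (C.E (f a))) L := by
  simpa only [Function.update_eq_self] using adual_E ha hf

theorem IsDual.E (H : Hyp u U) {C B : Fc Z} (e : C ≤ B) (hw : WM C B) (h : IsDual Z u U a f F)
    (hf : ∀ b, BM B (f b)) : IsDual Z u U a (fun b => C.E (f b)) (C.E F) := by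
  refine ⟨fun b => ((hf b).E C).top, (h.2.1.E C).top, fun k hk => ?_⟩
  rw [adual_E hk fun b _ => (hf b).E C, ← int_E_mul hk h.2.1]
  refine ((tt_E H e hw (a := a) (by rw [Function.update_self]; exact hk.E C)
    (adual_up ((hk.E C).mono e) fun b _ => hf b)).1 (h.2.2 _ (hk.E C).top)).congr fun b => ?_
  rcases eq_or_ne b a with rfl | hb
  · rw [Function.update_self, Function.update_self]
    exact (hk.E C).E_self
  · rw [Function.update_of_ne hb, Function.update_of_ne hb]

end Pool.Agent.Lib.MP_1db5af_an.Th
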