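import Pool.Agent.Lib.MP_1db5af_an.Th.ALc

set_option autoImplicit false

namespace Pool.Agent.Lib.MP_1db5af_an.Th

open MeasureTheory ProbabilityTheory Filter Topology ComplexConjugate
open scoped ENNReal NNReal InnerProductSpace

variable {ι : Type} [Fintype ι] [DecidableEq ι] {u : ι → ℕ → ℤ} {U : Ultrafilter ℕ}
  {Z Y : CS} {W : Fc Z} {z : ι → Y.X → Z.X} {Θ : Fc Y}

theorem grid_row (h : LSD u U Z W Y z Θ) (H : Hyp u U) {A : Fc Z} (hA : Closed A) (e : W ≤ A)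
    {ρ : Finset ι} (hρ : ρ ≠ Finset.univ) :
    CI (cl (Θ ⊔ h.row ρ A)) (cl (Θ ⊔ h.row ρ ⊤)) (cl (Θ ⊔ h.row Finset.univ A)) := by
  exact (ci_cl' (h.lrow H e le_top hA hρ).symm).mono
    (cl_mono (sup_le (le_sup_of_le_right le_sup_left) le_sup_left)) (cl_mono le_sup_left)

theorem agrida_graph {K V A B : Fc Y} (e : K ≤ V) (h1 : CI K A B) (h2 : CI K V (A ⊔ B)) :
    CI V A B := by
  have h3 : CI (K ⊔ A) V B :=
    (h2.symm.weak le_sup_left (sup_le le_sup_right (le_sup_of_le_left le_sup_left))).symm.mono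
      le_rfl le_sup_right
  exact ((h1.contr h3).weak e (le_sup_of_le_left le_sup_right)).mono le_sup_left le_rfl

theorem grid_ind (h : LSD u U Z W Y z Θ) (H : Hyp u U) {B1 B2 : Fc Z} (e1 : W ≤ B1) (e2 : W ≤ B2)
    (hc : CI W B1 B2) {ρ : Finset ι} (hρ : ρ ≠ Finset.univ) :
    CI (cl (Θ ⊔ h.row ρ ⊤)) (cl (h.row Finset.univ B1 ⊔ cl (Θ ⊔ h.row ρ ⊤)))
      (cl (h.row Finset.univ B2 ⊔ cl (Θ ⊔ h.row ρ ⊤))) := by
  have r1 : h.row ρ B1 ≤ h.row Finset.univ B1 := h.row_mono (Finset.subset_univ _) le_rfl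
  have r2 : h.row ρ B2 ≤ h.row Finset.univ B2 := h.row_mono (Finset.subset_univ _) le_rfl
  have h1 : CI (Θ ⊔ h.row ρ B1) (h.row Finset.univ B1) (h.row Finset.univ B2) :=
    (h.ld hc).weak le_sup_left (sup_le le_sup_right (le_sup_of_le_left r1))
  have h2 : CI (Θ ⊔ h.row ρ B1 ⊔ h.row ρ B2) (h.row Finset.univ B1) (h.row Finset.univ B2) :=
    (h1.symm.weak le_sup_left (sup_le le_sup_right (le_sup_of_le_left r2))).symm
  have h3 := (ci_cl' h2).mono (le_sup_left.trans (le_cl _)) (le_sup_left.trans (le_cl _))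
  have h4 := grid_row h H (cl_closed (B1 ⊔ B2)) ((e1.trans le_sup_left).trans (le_cl _)) hρ
  have e : cl (Θ ⊔ h.row ρ (cl (B1 ⊔ B2))) = cl (Θ ⊔ h.row ρ B1 ⊔ h.row ρ B2) := by
    refine cl_eq_cl (sup_le ((le_sup_of_le_left le_sup_left).trans (le_cl _))
      ((h.row_cl _ _).trans (cl_mono ?_))) (le_trans ?_ (le_cl _))
    · rw [h.row_sup, sup_assoc]
      exact le_sup_right
    · rw [sup_assoc, ← h.row_sup]
      exact sup_le_sup_left (h.row_mono le_rfl (le_cl _)) _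
  rw [e] at h4
  have h5 : h.row Finset.univ B1 ⊔ h.row Finset.univ B2 ≤
      cl (Θ ⊔ h.row Finset.univ (cl (B1 ⊔ B2))) := by
    rw [← h.row_sup]
    exact (le_sup_of_le_right (h.row_mono le_rfl (le_cl _))).trans (le_cl _)
  have h6 := ci_cl' (agrida_graph (cl_mono (sup_le (sup_le_sup_left (h.row_mono le_rfl le_top) _)
    (le_sup_of_le_right (h.row_mono le_rfl le_top)))) h3 (h4.mono le_rfl h5))
  rwa [(cl_closed _).cl_eq] at h6

theorem agrida_two (h : LSD u U Z W Y z Θ) (H : Hyp u U) {N : Fc Z} (hN : Closed N) (e : W ≤ N)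
    {a b : ι} (hab : a ≠ b) (ρ : Finset ι) :
    cl (Θ ⊔ pb (h.hom a) ⊤ ⊔ h.row ρ N) ⊓ cl (Θ ⊔ pb (h.hom b) ⊤ ⊔ h.row ρ N) ≤
      cl (Θ ⊔ pb (h.hom a) N ⊔ h.row ρ N) := by
  have hJ : insert a ({b} : Finset ι) ≠ Finset.univ := fun e => by
    have h1 := congrArg Finset.card e
    have h2 := H.card
    rw [Finset.card_pair hab, Finset.card_univ] at h1
    omega
  have r : h.row ρ N ≤ h.row Finset.univ N := h.row_mono (Finset.subset_univ _) le_rfl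
  have h1 := (h.lc' H e le_top hN (Finset.notMem_singleton.2 hab) hJ).weak
    (D' := Θ ⊔ pb (h.hom a) N ⊔ h.row ρ N) (le_sup_of_le_left le_sup_right)
    (sup_le (sup_le (le_sup_of_le_left (le_sup_of_le_left le_sup_left)) le_sup_right)
      (le_sup_of_le_left (le_sup_of_le_left (le_sup_of_le_right r))))
  refine le_trans (le_inf (inf_le_of_right_le (cl_mono ?_)) (inf_le_of_left_le (cl_mono ?_)))
    (cl_inf_le h1)
  · exact sup_le (sup_le (le_sup_of_le_left (le_sup_of_le_left le_sup_left)) (le_sup_of_le_left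
      (le_sup_of_le_right (h.le_row (Finset.mem_singleton_self b) _))))
      (le_sup_of_le_right le_sup_right)
  · exact sup_le (sup_le (le_sup_of_le_right (le_sup_of_le_left le_sup_left)) le_sup_left)
      (le_sup_of_le_right le_sup_right)

theorem agrida_E {B O : Fc Y} (e : B ≤ O) {c : Y.X → ℂ} (hc : BM (cl B) c) :
    BM (cl B) (O.E c) :=
  ((hc.E (cl B ⊓ O)).congr ((ec e).symm.E_eq inf_le_right hc).symm).mono inf_le_left

/-- The common part of the two slots is the closure of its trace on the other factors. -/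
theorem grid_cl (h : LSD u U Z W Y z Θ) (H : Hyp u U) {N B : Fc Z} (hN : Closed N) (e : W ≤ N)
    (hB : N ≤ cl B) {a b : ι} (hab : a ≠ b) {O : Fc Y}
    (hO : cl (Θ ⊔ h.row (Finset.univ \ {a, b}) ⊤) ≤ O) (ha : pb (h.hom a) B ≤ O)
    (hb : pb (h.hom b) B ≤ O) :
    cl (pb (h.hom a) N ⊔ cl (Θ ⊔ h.row (Finset.univ \ {a, b}) ⊤)) ⊓
        cl (pb (h.hom b) N ⊔ cl (Θ ⊔ h.row (Finset.univ \ {a, b}) ⊤)) ≤
      cl (cl (pb (h.hom a) N ⊔ cl (Θ ⊔ h.row (Finset.univ \ {a, b}) ⊤)) ⊓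
        cl (pb (h.hom b) N ⊔ cl (Θ ⊔ h.row (Finset.univ \ {a, b}) ⊤)) ⊓ O) := by
  generalize hρ : Finset.univ \ {a, b} = ρ at hO ⊢
  have hρ' : ρ ≠ Finset.univ := fun e => by
    have : a ∈ ρ := e ▸ Finset.mem_univ a
    simp [← hρ] at this
  have t1 : Θ ≤ cl (Θ ⊔ h.row ρ ⊤) := le_sup_left.trans (le_cl _)
  have t2 : h.row ρ N ≤ cl (Θ ⊔ h.row ρ ⊤) :=
    (le_sup_of_le_right (h.row_mono le_rfl le_top)).trans (le_cl _)
  have k1 : ∀ j, cl (Θ ⊔ h.row ρ N) ≤ cl (Θ ⊔ pb (h.hom j) N ⊔ h.row ρ N) := fun j =>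
    cl_mono (sup_le_sup_right le_sup_left _)
  have k2 : ∀ j, cl (Θ ⊔ pb (h.hom j) N ⊔ h.row ρ N) ≤ cl (Θ ⊔ h.row Finset.univ N) := fun j =>
    cl_mono (sup_le (sup_le_sup_left (h.le_row (Finset.mem_univ j) N) _)
      (le_sup_of_le_right (h.row_mono (Finset.subset_univ _) le_rfl)))
  have k3 : ∀ j, cl (pb (h.hom j) N ⊔ cl (Θ ⊔ h.row ρ ⊤)) ≤
      cl (cl (Θ ⊔ pb (h.hom j) N ⊔ h.row ρ N) ⊔ cl (Θ ⊔ h.row ρ ⊤)) := fun j =>
    cl_mono (sup_le_sup_right ((le_sup_of_le_left le_sup_right).trans (le_cl _)) _)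
  have k4 : ∀ j, cl (Θ ⊔ pb (h.hom j) N ⊔ h.row ρ N) ≤
      cl (pb (h.hom j) N ⊔ cl (Θ ⊔ h.row ρ ⊤)) := fun j =>
    cl_mono (sup_le (sup_le (le_sup_of_le_right t1) le_sup_left) (le_sup_of_le_right t2))
  have k5 : ∀ j, cl (Θ ⊔ pb (h.hom j) N ⊔ h.row ρ N) ≤ cl (Θ ⊔ pb (h.hom j) B ⊔ h.row ρ N) :=
    fun j => cl_le_cl (sup_le (sup_le ((le_sup_of_le_left le_sup_left).trans (le_cl _))
      ((pb_mono _ hB).trans ((pb_cl _).trans (cl_mono (le_sup_of_le_left le_sup_right)))))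
      (le_sup_right.trans (le_cl _)))
  have k6 : ∀ j, pb (h.hom j) B ≤ O → Θ ⊔ pb (h.hom j) B ⊔ h.row ρ N ≤ O := fun j hj =>
    sup_le (sup_le (t1.trans hO) hj) (t2.trans hO)
  have k7 : ∀ j, cl (Θ ⊔ pb (h.hom j) B ⊔ h.row ρ N) ≤ cl (Θ ⊔ pb (h.hom j) ⊤ ⊔ h.row ρ N) :=
    fun j => cl_mono (sup_le_sup_right (sup_le_sup_left (pb_mono _ le_top) _) _)
  have k8 : ∀ j, cl (Θ ⊔ h.row ρ ⊤) ≤ cl (pb (h.hom j) N ⊔ cl (Θ ⊔ h.row ρ ⊤)) := fun j =>
    le_sup_right.trans (le_cl _)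
  have h1 := il (cl_closed _) (cl_closed _) (k1 a) (k1 b)
    ((grid_row h H hN e hρ').mono le_rfl (sup_le (k2 a) (k2 b)))
  refine (inf_le_inf (k3 a) (k3 b)).trans (h1.trans (cl_le_cl (sup_le ?_
    ((le_inf (le_inf (k8 a) (k8 b)) hO).trans (le_cl _)))))
  refine le_trans (le_cl_of_ci (D := _ ⊓ O) (B := O) (CI.symm (ci_of_E inf_le_right fun c hc => ?_))
    (inf_le_of_left_le ((k5 a).trans (cl_mono (le_sup_of_le_left (k6 a ha))))))
    (cl_mono (inf_le_inf_right _ (inf_le_inf (k4 a) (k4 b))))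
  have h2 := ((agrida_E (k6 a ha) (hc.mono (inf_le_of_left_le (k5 a)))).mono (k7 a)).inf
    ((agrida_E (k6 b hb) (hc.mono (inf_le_of_right_le (k5 b)))).mono (k7 b))
  exact (h2.mono (le_inf (agrida_two h H hN e hab ρ)
    ((inf_comm _ _).le.trans (agrida_two h H hN e hab.symm ρ)))).inf (hc.E O)

end Pool.Agent.Lib.MP_1db5af_an.Th
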