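import Pool.Agent.Lib.MP_1db5af_an.Th.XDefs
import Pool.Agent.Lib.MP_1db5af_an.Th.Ker
import Pool.Agent.Lib.MP_1db5af_an.Th.ADen

set_option autoImplicit false

namespace Pool.Agent.Lib.MP_1db5af_an.Th

open MeasureTheory ProbabilityTheory Filter Topology ComplexConjugate Finset
open scoped ENNReal NNReal InnerProductSpace

variable {Z : CS} {W M A B D : Fc Z} {F G w : Z.X → ℂ} {C : ℝ}

theorem n1_nonneg (W : Fc Z) (F : Z.X → ℂ) : 0 ≤ n1 W F := by
  exact integral_nonneg fun _ => norm_nonneg _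

theorem n1_congr (h : F =ᵐ[Z.μ] G) : n1 W F = n1 W G := by
  exact integral_congr_ae ((E_congr (W := W) h).mono fun x hx => by simp only [hx])

theorem n1_congr_E (h : W.E F =ᵐ[Z.μ] W.E G) : n1 W F = n1 W G := by
  exact integral_congr_ae (h.mono fun x hx => by simp only [hx])

theorem n1_add (hF : Integrable F Z.μ) (hG : Integrable G Z.μ) :
    (n1 W fun x => F x + G x) ≤ n1 W F + n1 W G := by
  refine le_trans (integral_mono_ae integrable_condExp.norm
    (integrable_condExp.norm.add integrable_condExp.norm) ?_)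
    (integral_add integrable_condExp.norm integrable_condExp.norm).le
  filter_upwards [condExp_add hF hG W.m] with x hx
  exact (congrArg norm hx).le.trans (norm_add_le _ _)

theorem n1_le (W : Fc Z) (F : Z.X → ℂ) : n1 W F ≤ ∫ x, ‖F x‖ ∂Z.μ := by
  exact integral_norm_condExp_le F

theorem n1_mul (hw : Bd Z.μ C w) (hm : AEStronglyMeasurable[W.m] w Z.μ) (hF : Integrable F Z.μ) :
    (n1 W fun x => w x * F x) ≤ C * n1 W F := by
  rw [n1, n1, ← integral_const_mul]
  refine integral_mono_ae integrable_condExp.norm (integrable_condExp.norm.const_mul C) ?_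
  filter_upwards [eigb_pull hw hm hF, hw.2] with x h1 h2
  rw [show W.E (fun x => w x * F x) x = _ from h1, norm_mul]
  exact mul_le_mul_of_nonneg_right h2 (norm_nonneg _)

theorem xbase_cs (hF : MemLp F 2 Z.μ) (hG : MemLp G 2 Z.μ) :
    ∫ x, ‖F x * G x‖ ∂Z.μ ≤ ‖L2 Z.μ F‖ * ‖L2 Z.μ G‖ := by
  have h := integral_mul_norm_le_Lp_mul_Lq (μ := Z.μ) (f := F) (g := G)
    Real.HolderConjugate.two_two (by simpa using hF) (by simpa using hG)
  simp only [Real.rpow_two] at h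
  rw [← norm_L2_sq hF, ← norm_L2_sq hG, ← Real.sqrt_eq_rpow, ← Real.sqrt_eq_rpow,
    Real.sqrt_sq (norm_nonneg _), Real.sqrt_sq (norm_nonneg _)] at h
  simpa only [norm_mul] using h

theorem n1_cs (hF : MemLp F 2 Z.μ) (hG : MemLp G 2 Z.μ) :
    (n1 W fun x => F x * G x) ≤ ‖L2 Z.μ F‖ * ‖L2 Z.μ G‖ := by
  exact (n1_le W _).trans (xbase_cs hF hG)

theorem n1_le_L2 (hF : Bd Z.μ C F) : n1 W F ≤ ‖L2 Z.μ (W.E F)‖ := by
  have h1 : Bd Z.μ C (W.E F) := hF.condExp
  have h2 : Bd Z.μ ‖(1 : ℂ)‖ fun _ : Z.X => (1 : ℂ) := Bd.const 1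
  have h3 := xbase_cs h1.memLp h2.memLp
  simp only [mul_one] at h3
  exact h3.trans (mul_le_of_le_one_right (norm_nonneg _) (h2.norm_L2.trans norm_one.le))

/-- One direction by `n1_le_L2`, the other by `|E F|_2^2 <= C * n1` and `sq_av_le`. -/
theorem nul_n1_iff {F : ℕ → Z.X → ℂ} (hF : ∀ n, Bd Z.μ C (F n)) :
    (Nul fun n => n1 W (F n)) ↔ Nul fun n => ‖L2 Z.μ (W.E (F n))‖ := by
  refine ⟨fun h => ?_, fun h => nul_mono (fun n => n1_nonneg _ _) (fun n => n1_le_L2 (hF n)) h⟩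
  have h1 : ∀ n, ‖L2 Z.μ (W.E (F n))‖ ^ 2 ≤ C * n1 W (F n) := fun n => by
    have h2 : Bd Z.μ C (W.E (F n)) := (hF n).condExp
    rw [norm_L2_sq h2.memLp, n1, ← integral_const_mul]
    refine integral_mono_of_nonneg (Eventually.of_forall fun _ => sq_nonneg _)
      (integrable_condExp.norm.const_mul C) ?_
    filter_upwards [h2.2] with x hx
    rw [sq]
    exact mul_le_mul_of_nonneg_right hx (norm_nonneg _)
  have h2 := nul_mono (fun n => sq_nonneg _) h1 (nul_mul C h)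
  have h3 : Tendsto (fun N => av (fun n => ‖L2 Z.μ (W.E (F n))‖) N ^ 2) atTop (𝓝 0) :=
    squeeze_zero (fun _ => sq_nonneg _) (fun N => sq_av_le _ N) h2
  have h4 := h3.sqrt
  rw [Real.sqrt_zero] at h4
  exact h4.congr fun N => Real.sqrt_sq (av_nonneg (fun _ => norm_nonneg _) N)

theorem E_shift_L1 (W : Fc Z) (hF : Integrable F Z.μ) (k : ℤ) :
    W.E (fun x => F (Z.T k x)) =ᵐ[Z.μ] fun x => W.E F (Z.T k x) := by
  have hS := Z.sys.mp k
  refine (ae_eq_condExp_of_forall_setIntegral_eq W.le (hS.integrable_comp_of_integrable hF)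
    (fun s _ _ => (hS.integrable_comp_of_integrable integrable_condExp).integrableOn)
    (fun s hs _ => ?_)
    (stronglyMeasurable_condExp.comp_measurable (W.inv k)).aestronglyMeasurable).symm
  rw [← W.comap_eq k] at hs
  obtain ⟨t, ht, rfl⟩ := hs
  have h1 : ∀ {g : Z.X → ℂ}, Integrable g Z.μ →
      ∫ x in Z.T k ⁻¹' t, g (Z.T k x) ∂Z.μ = ∫ x in t, g x ∂Z.μ := by
    intro g hg
    rw [← setIntegral_map (W.le t ht) (hS.map_eq.symm ▸ hg.1) hS.aemeasurable, hS.map_eq]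
  exact (h1 integrable_condExp).trans ((setIntegral_condExp W.le hF ht).trans (h1 hF).symm)

theorem E_mul_L1 (hw : BM W w) (hF : Integrable F Z.μ) :
    W.E (fun x => w x * F x) =ᵐ[Z.μ] fun x => w x * W.E F x := by
  exact hw.1.elim fun _ hC => eigb_pull hC hw.2 hF

/-- Pull out of a square integrable factor (`condExp_bilin_of_aestronglyMeasurable_left`). -/
theorem E_mul_L2 (hw : MemLp w 2 Z.μ) (hm : AEStronglyMeasurable[W.m] w Z.μ)
    (hF : MemLp F 2 Z.μ) : W.E (fun x => w x * F x) =ᵐ[Z.μ] fun x => w x * W.E F x := by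
  exact condExp_bilin_of_aestronglyMeasurable_left (ContinuousLinearMap.mul ℝ ℂ) hm
    (hw.integrable_mul hF) (hF.integrable one_le_two)

theorem E_mid (h : W ≤ M) (hF : Integrable F Z.μ) (hw : BM M w) :
    W.E (fun x => M.E F x * w x) =ᵐ[Z.μ] W.E fun x => F x * w x := by
  simp only [mul_comm _ (w _)]
  exact (E_congr (E_mul_L1 hw hF).symm).trans (E_E h)

theorem aesm_shift (hF : AEStronglyMeasurable[W.m] F Z.μ) (k : ℤ) :
    AEStronglyMeasurable[W.m] (fun x => F (Z.T k x)) Z.μ := by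
  exact ⟨fun x => hF.mk F (Z.T k x), hF.stronglyMeasurable_mk.comp_measurable (W.inv k),
    (Z.sys.mp k).quasiMeasurePreserving.ae_eq_comp hF.ae_eq_mk⟩

theorem xbase_trunc {q : ℕ} (hq : q ≠ 0) (hF : Integrable (fun x => ‖F x‖ ^ q) Z.μ)
    (hm : AEStronglyMeasurable[A.m] F Z.μ) {ε : ℝ} (hε : 0 < ε) :
    ∃ f, BM A f ∧ ∫ x, ‖F x - f x‖ ^ q ∂Z.μ ≤ ε := by
  have h1 := hm.stronglyMeasurable_mk
  let f : ℕ → Z.X → ℂ := fun n => {x | ‖hm.mk F x‖ ≤ n}.indicator (hm.mk F)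
  have h2 : ∀ n, StronglyMeasurable[A.m] (f n) := fun n =>
    h1.indicator (h1.norm.measurableSet_le stronglyMeasurable_const)
  have h3 : ∀ n, BM A (f n) := fun n => ⟨⟨n, ((h2 n).mono A.le).aestronglyMeasurable,
    Eventually.of_forall fun x => by
      by_cases hx : ‖hm.mk F x‖ ≤ n
      · simp [f, hx]
      · simp [f, hx]⟩, (h2 n).aestronglyMeasurable⟩
  have h4 := tendsto_integral_of_dominated_convergence (μ := Z.μ)
    (F := fun n x => ‖F x - f n x‖ ^ q) (f := fun _ => 0) (fun x => ‖F x‖ ^ q)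
    (fun n => ((hm.mono A.le).sub ((h2 n).mono A.le).aestronglyMeasurable).norm.pow q) hF
    (fun n => by
      filter_upwards [hm.ae_eq_mk] with x hx
      by_cases h : ‖hm.mk F x‖ ≤ n
      · simp [f, h, hx, hq]
      · simp [f, h])
    (by
      filter_upwards [hm.ae_eq_mk] with x hx
      refine tendsto_const_nhds.congr' ?_
      filter_upwards [tendsto_natCast_atTop_atTop.eventually_ge_atTop ‖hm.mk F x‖] with n h
      simp [f, h, hx, hq])
  rw [integral_zero] at h4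
  obtain ⟨n, hn⟩ := (h4.eventually (ge_mem_nhds hε)).exists
  exact ⟨f n, h3 n, hn⟩

/-- Truncation: integrable functions of `A` are limits in mean of bounded functions of `A`. -/
theorem exists_bm_L1 (hF : Integrable F Z.μ) (hm : AEStronglyMeasurable[A.m] F Z.μ) {ε : ℝ}
    (hε : 0 < ε) : ∃ f, BM A f ∧ ∫ x, ‖F x - f x‖ ∂Z.μ ≤ ε := by
  simpa using xbase_trunc one_ne_zero (by simpa using hF.norm) hm hε

theorem exists_bm_L2 (hF : MemLp F 2 Z.μ) (hm : AEStronglyMeasurable[A.m] F Z.μ) {ε : ℝ}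
    (hε : 0 < ε) : ∃ f, BM A f ∧ ‖L2 Z.μ F - L2 Z.μ f‖ ≤ ε := by
  obtain ⟨f, h1, h2⟩ := xbase_trunc two_ne_zero
    ((memLp_two_iff_integrable_sq_norm hF.1).1 hF) hm (pow_pos hε 2)
  refine ⟨f, h1, ?_⟩
  rw [← norm_L2_sq (φ := fun x => F x - f x) (hF.sub h1.memLp), L2_sub hF h1.memLp] at h2
  exact (pow_le_pow_iff_left₀ (norm_nonneg _) hε.le two_ne_zero).1 h2

theorem CI.L1 (h : CI D A B) (hF : Integrable F Z.μ) (hm : AEStronglyMeasurable[B.m] F Z.μ) :
    (D ⊔ A).E F =ᵐ[Z.μ] D.E F := by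
  have hi : Integrable (fun x => ‖(D ⊔ A).E F x - D.E F x‖) Z.μ :=
    (integrable_condExp.sub integrable_condExp).norm
  have h0 : ∫ x, ‖(D ⊔ A).E F x - D.E F x‖ ∂Z.μ = 0 := by
    refine le_antisymm (le_of_forall_pos_le_add fun ε hε => ?_)
      (integral_nonneg fun _ => norm_nonneg _)
    obtain ⟨f, h1, h2⟩ := exists_bm_L1 hF hm (half_pos hε)
    have h3 := (n1_le (D ⊔ A) fun x => F x - f x).trans h2
    have h4 := (n1_le D fun x => F x - f x).trans h2
    refine le_trans (integral_mono_ae hi (integrable_condExp.norm.add integrable_condExp.norm) ?_)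
      ((integral_add integrable_condExp.norm integrable_condExp.norm).le.trans
        ((add_le_add h3 h4).trans (by linarith)))
    filter_upwards [condExp_sub hF h1.integrable (D ⊔ A).m, condExp_sub hF h1.integrable D.m,
      h f h1] with x e1 e2 e3
    refine le_trans (le_of_eq ?_) (norm_sub_le ((D ⊔ A).E (F - f) x) (D.E (F - f) x))
    rw [show (D ⊔ A).E (F - f) x = (D ⊔ A).E F x - (D ⊔ A).E f x from e1,
      show D.E (F - f) x = D.E F x - D.E f x from e2, e3, sub_sub_sub_cancel_right]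
  filter_upwards [(integral_eq_zero_iff_of_nonneg (fun _ => norm_nonneg _) hi).1 h0] with x hx
  exact sub_eq_zero.1 (norm_eq_zero.1 hx)

theorem CI.mul_L1 (h : CI D A B) (hF : Integrable F Z.μ) (hm : AEStronglyMeasurable[A.m] F Z.μ)
    (hG : BM B G) : D.E (fun x => F x * G x) =ᵐ[Z.μ] fun x => D.E F x * D.E G x := by
  obtain ⟨C, hC⟩ := hG.1
  refine (E_mid (M := D ⊔ B) le_sup_left hF (hG.mono le_sup_right)).symm.trans
    ((E_congr ((h.symm.L1 hF hm).mono fun x hx => ?_)).trans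
      (condExp_bilin_of_aestronglyMeasurable_left (ContinuousLinearMap.mul ℝ ℂ)
        (f := D.E F) stronglyMeasurable_condExp.aestronglyMeasurable
        (integrable_condExp.mul_bdd hC.1 hC.2) hG.integrable))
  exact congrArg (· * G x) hx

/-- Products of bounded functions are total in the square integrable functions of a join. -/
theorem ae_zero_of_prod (hF : MemLp F 2 Z.μ) (hm : AEStronglyMeasurable[(A ⊔ B).m] F Z.μ)
    (h : ∀ a b, BM A a → BM B b → ∫ x, a x * b x * F x ∂Z.μ = 0) : F =ᵐ[Z.μ] 0 := by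
  have hi := hF.integrable one_le_two
  exact (condExp_of_aestronglyMeasurable' (A ⊔ B).le hm hi).symm.trans (zero_sup hi h)

theorem appr_sup3 (hF : BM (A ⊔ B ⊔ D) F) : Appr Z.μ
    (fun G => ∃ a b d, BM A a ∧ BM B b ∧ BM D d ∧ G = fun x => a x * b x * d x) F := by
  refine appr_of_zero ?_ ?_ ?_ (fun g hg h => ?_) hF
  · rintro _ ⟨a, b, d, ha, hb, hd, rfl⟩
    exact ((ha.mono (le_sup_left.trans le_sup_left)).mul
      (hb.mono (le_sup_right.trans le_sup_left))).mul (hd.mono le_sup_right)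
  · rintro c _ ⟨a, b, d, ha, hb, hd, rfl⟩
    exact ⟨_, b, d, (bm_const c).mul ha, hb, hd, funext fun x => by ring⟩
  · rintro _ ⟨a, b, d, ha, hb, hd, rfl⟩
    exact ⟨_, _, _, ha.star, hb.star, hd.star, funext fun x => by rw [map_mul, map_mul]⟩
  · have hi := hg.integrable one_le_two
    refine zero_sup hi fun c d hc hd => ?_
    obtain ⟨K, hK⟩ := hd.1
    have h1 : Integrable (fun x => d x * g x) Z.μ := hi.bdd_mul hK.1 hK.2
    have h2 := zero_sup h1 fun a b ha hb => by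
      simpa only [mul_assoc] using h _ ⟨a, b, d, ha, hb, hd, rfl⟩
    simp only [mul_assoc]
    rw [← int_E (W := A ⊔ B), integral_congr_ae (E_mul_L1 hc h1)]
    refine integral_eq_zero_of_ae ?_
    filter_upwards [h2] with x hx
    rw [hx, Pi.zero_apply, mul_zero]

theorem mem_LM {v : Lp ℂ 2 Z.μ} : v ∈ LM M ↔ AEStronglyMeasurable[M.m] v Z.μ := by
  exact mem_lpMeas_iff_aestronglyMeasurable

theorem L2_mem_LM (hF : MemLp F 2 Z.μ) (hm : AEStronglyMeasurable[M.m] F Z.μ) :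
    L2 Z.μ F ∈ LM M := by
  exact mem_LM.2 (hm.congr (L2_coe hF).symm)

theorem LM_closed (M : Fc Z) : IsClosed (LM M : Set (Lp ℂ 2 Z.μ)) := by
  exact isClosed_aestronglyMeasurable M.le

theorem EL_coe (v : Lp ℂ 2 Z.μ) : EL M v =ᵐ[Z.μ] M.E v := by
  have h := (Lp.memLp v).condExpL2_ae_eq_condExp (𝕜 := ℂ) M.le
  rwa [Lp.toLp_coeFn] at h

theorem EL_L2 (hF : MemLp F 2 Z.μ) : EL M (L2 Z.μ F) = L2 Z.μ (M.E F) := by
  refine Lp.ext ((EL_coe _).trans ((E_congr (L2_coe hF)).trans ?_))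
  exact (L2_coe (hF.condExp one_le_two)).symm

theorem EL_mem (v : Lp ℂ 2 Z.μ) : EL M v ∈ LM M := by
  exact (condExpL2 ℂ ℂ M.le v).2

theorem EL_of_mem {v : Lp ℂ 2 Z.μ} (hv : v ∈ LM M) : EL M v = v := by
  exact Lp.ext ((EL_coe v).trans (condExp_of_aestronglyMeasurable' M.le (mem_LM.1 hv)
    ((Lp.memLp v).integrable one_le_two)))

theorem EL_inner {m : Lp ℂ 2 Z.μ} (hm : m ∈ LM M) (v : Lp ℂ 2 Z.μ) :
    ⟪m, EL M v⟫_ℂ = ⟪m, v⟫_ℂ := by
  rw [← inner_conj_symm, ← inner_conj_symm m v]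
  exact congrArg _ (inner_condExpL2_eq_inner_fun M.le v m (mem_LM.1 hm))

theorem LM_mul (hw : BM M w) {v : Lp ℂ 2 Z.μ} (hv : v ∈ LM M) : mulOp Z.μ w v ∈ LM M := by
  obtain ⟨C, hC⟩ := hw.1
  exact mem_LM.2 ((hw.2.mul (mem_LM.1 hv)).congr (mulOp_coe hC v).symm)

end Pool.Agent.Lib.MP_1db5af_an.Th
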