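import Pool.Agent.Lib.MP_1db5af_an.Th.ADual
import Pool.Agent.Lib.MP_1db5af_an.Th.ACl
import Pool.Agent.Lib.MP_1db5af_an.Th.XBase

set_option autoImplicit false

namespace Pool.Agent.Lib.MP_1db5af_an.Th

open MeasureTheory ProbabilityTheory Filter Topology ComplexConjugate
open scoped ENNReal NNReal InnerProductSpace

section Abs

variable {H : Type*} [NormedAddCommGroup H] [InnerProductSpace ℂ H]

theorem xtf_sq {P : H →L[ℂ] H} (h1 : ∀ x y, ⟪P x, y⟫_ℂ = ⟪x, P y⟫_ℂ) (h2 : ∀ x, P (P x) = P x)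
    (x : H) : ‖x‖ ^ 2 = ‖P x‖ ^ 2 + ‖x - P x‖ ^ 2 := by
  have h3 : ⟪P x, x - P x⟫_ℂ = 0 := by rw [h1, map_sub, h2, sub_self, inner_zero_right]
  have h4 := norm_add_sq_eq_norm_sq_add_norm_sq_of_inner_eq_zero _ _ h3
  rw [add_sub_cancel] at h4
  simpa only [sq] using h4

theorem xtf_le {P : H →L[ℂ] H} (h1 : ∀ x y, ⟪P x, y⟫_ℂ = ⟪x, P y⟫_ℂ) (h2 : ∀ x, P (P x) = P x)
    (x : H) : ‖P x‖ ≤ ‖x‖ := by
  refine (sq_le_sq₀ (norm_nonneg _) (norm_nonneg _)).1 ?_
  rw [xtf_sq h1 h2 x]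
  exact le_add_of_nonneg_right (sq_nonneg _)

theorem xtf_abs {P R S : H →L[ℂ] H} (p1 : ∀ x y, ⟪P x, y⟫_ℂ = ⟪x, P y⟫_ℂ)
    (p2 : ∀ x, P (P x) = P x) (r1 : ∀ x y, ⟪R x, y⟫_ℂ = ⟪x, R y⟫_ℂ) (r2 : ∀ x, R (R x) = R x)
    (s1 : ∀ x, P (S x) = S x) (s2 : ∀ x, R (S x) = S x) (s3 : ∀ x, S (P x) = S x)
    (s4 : ∀ x, S (R x) = S x) {F : H} (hF : P F = F) {j : ℕ}
    (h : (fun x => P (R (P x)))^[2] F = (fun x => P (R (P x)))^[j + 3] F)
    (hi : R ((fun x => P (R (P x)))^[2] F) = (fun x => P (R (P x)))^[2] F →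
      S ((fun x => P (R (P x)))^[2] F) = (fun x => P (R (P x)))^[2] F) : R F = S F := by
  set Q : H → H := fun x => P (R (P x)) with hQ
  have q1 : ∀ x, ‖Q x‖ ≤ ‖R (P x)‖ := fun x => xtf_le p1 p2 _
  have q2 : ∀ (n : ℕ) x, ‖Q^[n] x‖ ≤ ‖x‖ := fun n => by
    induction n with
    | zero => exact fun x => le_rfl
    | succ n ih => exact fun x => (ih _).trans ((q1 x).trans
        ((xtf_le r1 r2 _).trans (xtf_le p1 p2 _)))
  set G := Q^[2] F with hG
  have g1 : P G = G := p2 _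
  have g2 : ‖G‖ ≤ ‖R G‖ := by
    have e : Q^[j + 3] F = Q^[j] (Q G) := by
      rw [hG, Function.iterate_add_apply]
      rfl
    calc ‖G‖ = ‖Q^[j] (Q G)‖ := by rw [← e, ← h]
      _ ≤ ‖R (P G)‖ := (q2 j _).trans (q1 G)
      _ = _ := by rw [g1]
  have g3 : R G = G := by
    have k1 := xtf_sq r1 r2 G
    have k2 := pow_le_pow_left₀ (norm_nonneg _) g2 2
    have k3 : ‖G - R G‖ ^ 2 = 0 := le_antisymm (by linarith) (sq_nonneg _)
    exact (sub_eq_zero.1 (norm_eq_zero.1 (pow_eq_zero_iff two_ne_zero |>.1 k3))).symm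
  have g4 := hi g3
  have g5 : S G = S F := by
    change S (P (R (P (P (R (P F)))))) = S F
    rw [s3, s4, s3, s3, s4, s3]
  set F' := F - S F with hF'
  have f1 : P F' = F' := by rw [hF', map_sub, hF, s1]
  have f2 : Q (Q F') = 0 := by
    have e : Q (Q F') = G - S F := by
      change P (R (P (P (R (P (F - S F)))))) = P (R (P (P (R (P F))))) - S F
      simp only [map_sub, s1, s2]
    rw [e, ← g4, g5, sub_self]
  have f3 : Q F' = 0 := by
    refine inner_self_eq_zero (𝕜 := ℂ).1 ?_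
    have e : ⟪Q F', Q F'⟫_ℂ = ⟪F', Q (Q F')⟫_ℂ := by
      change ⟪P (R (P F')), Q F'⟫_ℂ = ⟪F', P (R (P (Q F')))⟫_ℂ
      rw [p1, r1, p1]
    rw [e, f2, inner_zero_right]
  have f4 : R F' = 0 := by
    refine inner_self_eq_zero (𝕜 := ℂ).1 ?_
    have e : ⟪F', Q F'⟫_ℂ = ⟪R F', R F'⟫_ℂ := by
      change ⟪F', P (R (P F'))⟫_ℂ = _
      rw [← p1, f1, r1, r2]
    rw [← e, f3, inner_zero_right]
  rwa [hF', map_sub, s2, sub_eq_zero] at f4

end Abs

variable {ι : Type} [Fintype ι] [DecidableEq ι] {u : ι → ℕ → ℤ} {U : Ultrafilter ℕ} {Z : CS}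

/-- Applying `P` in one slot has the effect of applying `P'` in all other slots. -/
def XtfRel (Z : CS) (u : ι → ℕ → ℤ) (U : Ultrafilter ℕ) (P P' : (Z.X → ℂ) → Z.X → ℂ) : Prop :=
  (∀ φ, BM ⊤ φ → BM ⊤ (P φ) ∧ BM ⊤ (P' φ)) ∧ ∀ (g : ι → Z.X → ℂ) (a : ι) (L : ℂ),
    (∀ b, BM ⊤ (g b)) → (TT Z u U (fun b => if b = a then P (g b) else g b) L ↔
      TT Z u U (fun b => if b = a then g b else P' (g b)) L)

theorem xtf_congr {f g : ι → Z.X → ℂ} {L : ℂ} (e : ∀ b, f b =ᵐ[Z.μ] g b) :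
    TT Z u U f L ↔ TT Z u U g L :=
  ⟨fun h => h.congr e, fun h => h.congr fun b => (e b).symm⟩

theorem xtf_rel (H : Hyp u U) {C : Fc Z} (hC : Closed C) : XtfRel Z u U C.E C.E := by
  refine ⟨fun φ h => ⟨(h.E C).top, (h.E C).top⟩, fun g a L hg => ?_⟩
  refine (tt_E H (a := a) le_top hC (by simpa using (hg a).E C)
      fun b => by split_ifs; exacts [((hg b).E C).top, hg b]).trans (Iff.trans ?_
    (tt_E' (a := a) (C := C) (by simpa using hg a) fun b hb => by simpa [hb] using (hg b).E C).symm)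
  refine xtf_congr fun b => ?_
  rcases eq_or_ne b a with rfl | hb
  · simpa using ((hg b).E C).E_self
  · simp [hb]

theorem XtfRel.comp {P P' S S' : (Z.X → ℂ) → Z.X → ℂ} (h : XtfRel Z u U P P')
    (h' : XtfRel Z u U S S') : XtfRel Z u U (fun φ => P (S φ)) fun φ => S' (P' φ) := by
  refine ⟨fun φ k => ⟨(h.1 _ (h'.1 φ k).1).1, (h'.1 _ (h.1 φ k).2).2⟩, fun g a L hg => ?_⟩
  have k1 := h.2 (fun b => if b = a then S (g b) else g b) a L fun b => by
    split_ifs; exacts [(h'.1 _ (hg b)).1, hg b]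
  have k2 := h'.2 (fun b => if b = a then g b else P' (g b)) a L fun b => by
    split_ifs; exacts [hg b, (h.1 _ (hg b)).2]
  refine Iff.trans ?_ (k1.trans (Iff.trans ?_ (k2.trans ?_))) <;>
    exact xtf_congr fun b => by by_cases hb : b = a <;> simp [hb]

theorem xtf_pow (hK : 3 ≤ Fintype.card ι) {Q : (Z.X → ℂ) → Z.X → ℂ} (h : XtfRel Z u U Q Q)
    {g : ι → Z.X → ℂ} (hg : ∀ b, BM ⊤ (g b)) (a : ι) (L : ℂ) :
    TT Z u U (Function.update g a (Q^[2] (g a))) L ↔
      TT Z u U (Function.update g a (Q^[2 * (Fintype.card ι - 1) - 3 + 3] (g a))) L := by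
  have b1 : ∀ (n : ℕ) φ, BM ⊤ φ → BM ⊤ (Q^[n] φ) := fun n => by
    induction n with
    | zero => exact fun φ k => k
    | succ n ih => exact fun φ k => ih _ (h.1 φ k).1
  let T : (ι → ℕ) → ℂ → Prop := fun m L => TT Z u U (fun b => Q^[m b] (g b)) L
  have t1 : ∀ (m : ι → ℕ) c L, T (fun b => if b = c then m b + 1 else m b) L ↔
      T (fun b => if b = c then m b else m b + 1) L := fun m c L => by
    refine Iff.trans ?_ ((h.2 (fun b => Q^[m b] (g b)) c L fun b => b1 _ _ (hg b)).trans ?_) <;>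
      exact xtf_congr fun b => by
        by_cases hb : b = c <;> simp only [hb, if_true, if_false, Function.iterate_succ_apply'] <;>
          rfl
  have t0 : ∀ {m m' : ι → ℕ} {L}, (∀ b, m b = m' b) → (T m L ↔ T m' L) := fun e => by
    rw [funext e]
  have t2 : ∀ (m : ι → ℕ) c L, T (fun b => if b = c then m b + 2 else m b) L ↔
      T (fun b => m b + 1) L := fun m c L =>
    (t0 fun b => by by_cases hb : b = c <;> simp [hb]).trans
      ((t1 (fun b => if b = c then m b + 1 else m b) c L).trans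
        (t0 fun b => by by_cases hb : b = c <;> simp [hb]))
  have t3 : ∀ (s : Finset ι), a ∉ s → ∀ (j : ℕ) L,
      T (fun b => if b = a then j else if b ∈ s then 2 else 0) L ↔
        T (fun b => if b = a then j + 2 * s.card else 0) L := by
    intro s
    induction s using Finset.induction_on with
    | empty => exact fun _ j L => t0 fun b => by simp
    | insert c s hcs ih =>
      intro ha j L
      rw [Finset.mem_insert, not_or] at ha
      have k1 := t2 (fun b => if b = a then j else if b ∈ s then 2 else 0) c L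
      have k2 := t2 (fun b => if b = a then j else if b ∈ s then 2 else 0) a L
      refine Iff.trans (t0 fun b => ?_) (k1.trans (k2.symm.trans (Iff.trans (t0 fun b => ?_)
        ((ih ha.2 (j + 2) L).trans (t0 fun b => ?_)))))
      · by_cases hb : b = c
        · subst hb
          simp [hcs, Ne.symm ha.1]
        · simp [hb]
      · by_cases hb : b = a <;> simp [hb]
      · rw [Finset.card_insert_of_notMem hcs]
        split_ifs <;> omega
  have t4 : ∀ n : ℕ, TT Z u U (Function.update g a (Q^[n] (g a))) L ↔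
      T (fun b => if b = a then n else 0) L := fun n => xtf_congr fun b => by
    by_cases hb : b = a
    · subst hb
      simp
    · simp [hb]
  have k1 := t2 (fun _ => 0) a L
  have k2 := t1 (fun b => if b = a then 0 else 1) a L
  have k3 := t3 (Finset.univ.erase a) (Finset.notMem_erase a _) 0 L
  rw [t4, t4]
  refine Iff.trans (t0 fun b => ?_) (k1.trans (Iff.trans (t0 fun b => ?_) (k2.trans
    (Iff.trans (t0 fun b => ?_) (k3.trans (t0 fun b => ?_))))))
  · simp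
  · by_cases hb : b = a <;> simp [hb]
  · by_cases hb : b = a <;> simp [hb]
  · rw [Finset.card_erase_of_mem (Finset.mem_univ a), Finset.card_univ]
    split_ifs <;> omega

theorem xtf_sym (A : Fc Z) (x y : Lp ℂ 2 Z.μ) : ⟪EL A x, y⟫_ℂ = ⟪x, EL A y⟫_ℂ := by
  rw [← EL_inner (EL_mem x) y, ← inner_conj_symm x, ← EL_inner (EL_mem y) x, inner_conj_symm]

theorem xtf_EE {A B : Fc Z} (e : A ≤ B) (x : Lp ℂ 2 Z.μ) : EL A (EL B x) = EL A x :=
  Lp.ext ((EL_coe _).trans ((E_congr (EL_coe x)).trans ((E_E e).trans (EL_coe x).symm)))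

theorem xtf_EE' {A B : Fc Z} (e : A ≤ B) (x : Lp ℂ 2 Z.μ) : EL B (EL A x) = EL A x :=
  EL_of_mem (mem_LM.2 ((mem_LM.1 (EL_mem x)).mono e))

theorem tf (H : Hyp u U) {Z : CS} {A B : Fc Z} (hA : Closed A) (hB : Closed B) {a : ι}
    {f : ι → Z.X → ℂ} {F : Z.X → ℂ} (h : IsDual Z u U a f F) (hF : BM A F) :
    B.E F =ᵐ[Z.μ] (A ⊓ B).E F := by
  set Q : (Z.X → ℂ) → Z.X → ℂ := fun φ => A.E (B.E (A.E φ)) with hQ
  have hR : XtfRel Z u U Q Q := (xtf_rel H hA).comp ((xtf_rel H hB).comp (xtf_rel H hA))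
  have b1 : ∀ (n : ℕ) φ, BM ⊤ φ → BM ⊤ (Q^[n] φ) := fun n => by
    induction n with
    | zero => exact fun φ k => k
    | succ n ih => exact fun φ k => ih _ (hR.1 φ k).1
  have b2 : ∀ (n : ℕ) φ ψ, BM ⊤ φ → BM ⊤ ψ →
      ∫ x, Q^[n] φ x * ψ x ∂Z.μ = ∫ x, φ x * Q^[n] ψ x ∂Z.μ := fun n => by
    induction n with
    | zero => exact fun _ _ _ _ => rfl
    | succ n ih =>
      intro φ ψ k1 k2
      have k3 := b1 n ψ k2
      rw [Function.iterate_succ_apply, ih _ _ (hR.1 φ k1).1 k2, Function.iterate_succ_apply', hQ,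
        int_E_mul ((k1.E A).E B).top k3, int_E_mul (k1.E A).top (k3.E A).top,
        int_E_mul k1 ((k3.E A).E B).top]
  have b3 : ∀ (n : ℕ) φ, BM ⊤ φ →
      L2 Z.μ (Q^[n] φ) = (fun x => EL A (EL B (EL A x)))^[n] (L2 Z.μ φ) := fun n => by
    induction n with
    | zero => exact fun _ _ => rfl
    | succ n ih =>
      intro φ k1
      rw [Function.iterate_succ_apply, ih _ (hR.1 φ k1).1, Function.iterate_succ_apply,
        EL_L2 k1.memLp, EL_L2 (k1.E A).memLp, EL_L2 ((k1.E A).E B).memLp]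
  have hK := H.card
  have b4 : Q^[2] F =ᵐ[Z.μ] Q^[2 * (Fintype.card ι - 1) - 3 + 3] F := by
    refine ae_eq_of_int (b1 _ _ hF.top) (b1 _ _ hF.top) fun φ hφ => ?_
    have k1 := xtf_pow hK hR (g := Function.update f a φ) (fun b => by
      rcases eq_or_ne b a with rfl | hb
      · rwa [Function.update_self]
      · rw [Function.update_of_ne hb]
        exact h.1 b) a
    simp only [Function.update_self, Function.update_idem] at k1
    rw [← b2 _ _ _ hφ hF.top, ← b2 _ _ _ hφ hF.top]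
    exact ((k1 _).1 (h.2.2 _ (b1 _ _ hφ))).unique (h.2.2 _ (b1 _ _ hφ))
  have b5 : BM A (Q^[2] F) := ((((hR.1 F hF.top).1.E A).E B).E A)
  have b6 := xtf_abs (xtf_sym A) (xtf_EE le_rfl) (xtf_sym B) (xtf_EE le_rfl)
    (S := EL (A ⊓ B)) (xtf_EE' inf_le_left) (xtf_EE' inf_le_right) (xtf_EE inf_le_left)
    (xtf_EE inf_le_right) (EL_of_mem (L2_mem_LM hF.memLp hF.2))
    (j := 2 * (Fintype.card ι - 1) - 3)
    (by rw [← b3 _ _ hF.top, ← b3 _ _ hF.top]; exact L2_congr b4) (by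
      rw [← b3 _ _ hF.top, EL_L2 b5.memLp]
      intro e
      have k1 := b5.inf ((b5.E B).congr (ae_of_L2 (b5.E B).top b5.top e))
      exact EL_of_mem (L2_mem_LM k1.memLp k1.2))
  rw [EL_L2 hF.memLp, EL_L2 hF.memLp] at b6
  exact ae_of_L2 (hF.E B).top (hF.E _).top b6

end Pool.Agent.Lib.MP_1db5af_an.Th
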