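import Pool.Agent.Lib.MP_1db5af_an.Th.AGridA
import Pool.Agent.Lib.MP_1db5af_an.Th.XTf
import Pool.Agent.Lib.MP_1db5af_an.Th.ALs

set_option autoImplicit false

namespace Pool.Agent.Lib.MP_1db5af_an.Th

open MeasureTheory ProbabilityTheory Filter Topology ComplexConjugate
open scoped ENNReal NNReal InnerProductSpace

variable {ι : Type} [Fintype ι] [DecidableEq ι] {u : ι → ℕ → ℤ} {U : Ultrafilter ℕ}

/-- One half of the mutual determination. -/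
theorem agridb_half {Y : CS} {W R0 R1 S0 S1 P : Fc Y} (d0 : Closed S0) (d1 : Closed S1)
    (f0 : W ≤ S0) (f1 : W ≤ S1) (eP : W ≤ P) (h3 : CI W (S0 ⊔ S1) P) (a0 : R0 ≤ cl (S0 ⊔ P))
    (a1 : R1 ≤ cl (S1 ⊔ P)) (m' : S0 ⊓ S1 ≤ cl (S0 ⊓ S1 ⊓ (R0 ⊔ R1 ⊔ P))) :
    R0 ⊓ R1 ⊓ (S0 ⊔ S1 ⊔ P) ≤ S0 ⊓ S1 ⊓ (R0 ⊔ R1 ⊔ P) ⊔ P := by
  have hC : R0 ⊓ R1 ≤ cl (S0 ⊓ S1 ⊔ P) := (inf_le_inf a0 a1).trans (il d0 d1 f0 f1 h3.symm)
  have hcl : cl (S0 ⊓ S1 ⊓ (R0 ⊔ R1 ⊔ P)) = S0 ⊓ S1 :=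
    le_antisymm (cl_le (d0.inf d1) inf_le_left) m'
  have hec : CI (S0 ⊓ S1 ⊓ (R0 ⊔ R1 ⊔ P)) (S0 ⊓ S1) (R0 ⊔ R1 ⊔ P) := by
    have := ec (B := S0 ⊓ S1 ⊓ (R0 ⊔ R1 ⊔ P)) (O := R0 ⊔ R1 ⊔ P) inf_le_right
    rwa [hcl] at this
  have hle : S0 ⊓ S1 ≤ S0 ⊔ S1 := inf_le_left.trans le_sup_left
  have hpi : CI (S0 ⊓ S1) (S0 ⊔ S1) (cl (S0 ⊓ S1 ⊔ P)) := by
    have k1 : CI (S0 ⊓ S1) (S0 ⊔ S1) P := h3.weak (le_inf f0 f1) (hle.trans le_sup_left)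
    have k2 := ci_cl hle le_sup_right k1.sup_right
    rw [(d0.inf d1).cl_eq] at k2
    exact k2.mono (le_cl _) (cl_mono (sup_le le_sup_right le_sup_left))
  refine le_of_bm fun f hf => ?_
  refine slice (W := W) (R := S0 ⊔ S1) (le_inf (le_inf f0 f1) (eP.trans le_sup_right))
    (inf_le_left.trans hle) h3 (hf.mono inf_le_right) fun p hp => ?_
  have k1 : BM (cl (S0 ⊓ S1 ⊔ P)) fun x => f x * p x :=
    (hf.mono (inf_le_left.trans hC)).mul (hp.mono (le_sup_right.trans (le_cl _)))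
  have k2 : BM (R0 ⊔ R1 ⊔ P) fun x => f x * p x :=
    (hf.mono (inf_le_left.trans (inf_le_left.trans (le_sup_left.trans le_sup_left)))).mul
      (hp.mono le_sup_right)
  exact (k2.E _).congr ((hpi.E_eq hle k1).trans (hec.E_eq inf_le_left k2)).symm

/-- The lattice part of the grid. -/
theorem grid_lat {Y : CS} {W R0 R1 S0 S1 P : Fc Y} (cW : Closed W) (c0 : Closed R0)
    (c1 : Closed R1) (d0 : Closed S0) (d1 : Closed S1) (e0 : W ≤ R0) (e1 : W ≤ R1) (f0 : W ≤ S0)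
    (f1 : W ≤ S1) (eP : W ≤ P) (h1 : CI W (R0 ⊔ R1) (S0 ⊔ S1)) (h2 : CI W (R0 ⊔ R1) P)
    (h3 : CI W (S0 ⊔ S1) P) (a0 : R0 ≤ cl (S0 ⊔ P)) (a1 : R1 ≤ cl (S1 ⊔ P))
    (b0 : S0 ≤ cl (R0 ⊔ P)) (b1 : S1 ≤ cl (R1 ⊔ P))
    (m : R0 ⊓ R1 ≤ cl (R0 ⊓ R1 ⊓ (S0 ⊔ S1 ⊔ P))) (m' : S0 ⊓ S1 ≤ cl (S0 ⊓ S1 ⊓ (R0 ⊔ R1 ⊔ P))) :
    Dfn W (R0 ⊓ R1 ⊓ (S0 ⊔ S1 ⊔ P)) (S0 ⊓ S1 ⊓ (R0 ⊔ R1 ⊔ P)) P := by
  have l0 : R0 ⊓ R1 ⊓ (S0 ⊔ S1 ⊔ P) ≤ R0 ⊔ R1 := inf_le_left.trans (inf_le_left.trans le_sup_left)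
  have l1 : S0 ⊓ S1 ⊓ (R0 ⊔ R1 ⊔ P) ≤ S0 ⊔ S1 := inf_le_left.trans (inf_le_left.trans le_sup_left)
  exact ⟨cW, le_inf (le_inf e0 e1) (eP.trans le_sup_right),
    le_inf (le_inf f0 f1) (eP.trans le_sup_right), eP, h1.mono l0 l1, h2.mono l0 le_rfl,
    h3.mono l1 le_rfl,
    le_antisymm (sup_le (agridb_half d0 d1 f0 f1 eP h3 a0 a1 m') le_sup_right)
      (sup_le (agridb_half c0 c1 e0 e1 eP h2 b0 b1 m) le_sup_right)⟩

theorem agridb_zero {Z : CS} {G : Z.X → ℂ} (hG : BM ⊤ G)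
    (h : ∫ x, conj (G x) * G x ∂Z.μ = 0) : G =ᵐ[Z.μ] 0 := by
  have h1 := norm_L2_int hG
  have h2 : ∫ x, G x * conj (G x) ∂Z.μ = 0 := by
    rw [← h]
    exact integral_congr_ae (Eventually.of_forall fun x => mul_comm _ _)
  rw [h2] at h1
  have h3 : ‖L2 Z.μ G‖ ^ 2 = 0 := by exact_mod_cast h1
  have h4 : L2 Z.μ G = 0 := norm_eq_zero.1 (pow_eq_zero_iff two_ne_zero |>.1 h3)
  exact ae_of_L2 (g := fun _ => 0) hG (bm_const 0) (h4.trans L2_zero.symm)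

/-- The pulled back dual function is seen by a factor that carries the other slots. -/
theorem agridb_ne {o : ι} {Z Y : CS} {W : Fc Z} {z : ι → Y.X → Z.X} {Θ R : Fc Y}
    (L : LSD u U Z W Y z Θ) {g : ι → Z.X → ℂ} {G : Z.X → ℂ} (h : IsDual Z u U o g G)
    (hR : ∀ a, a ≠ o → BM R fun y => g a (z a y))
    (h0 : R.E (fun y => G (z o y)) =ᵐ[Y.μ] 0) : G =ᵐ[Z.μ] 0 := by
  have hG := h.2.1
  have t1 := h.2.2 _ hG.star
  have hb : ∀ a, BM ⊤ (Function.update g o (fun x => conj (G x)) a) := fun a => by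
    by_cases e : a = o
    · subst e
      rw [Function.update_self]
      exact hG.star
    · rw [Function.update_of_ne e]
      exact h.1 a
  have t2 := (L.lb hb).unique t1
  refine agridb_zero hG ?_
  rw [← t2]
  have hQ : BM R fun y => ∏ a ∈ Finset.univ.erase o, g a (z a y) :=
    bm_prod fun a ha => hR a (Finset.ne_of_mem_erase ha)
  have hG0 : BM ⊤ fun y => G (z o y) := bm_pb_top (L.hom o) hG
  have e1 : ∀ y, ∏ a, Function.update g o (fun x => conj (G x)) a (z a y) =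
      (∏ a ∈ Finset.univ.erase o, g a (z a y)) * conj (G (z o y)) := fun y => by
    rw [← Finset.prod_erase_mul _ _ (Finset.mem_univ o), Function.update_self]
    congr 1
    exact Finset.prod_congr rfl fun a ha => by
      rw [Function.update_of_ne (Finset.ne_of_mem_erase ha)]
  simp only [e1]
  rw [← int_mul_E hQ hG0.star]
  refine (integral_congr_ae (g := fun _ => 0) ?_).trans (integral_zero _ _)
  filter_upwards [E_star (W := R) hG0, h0] with y k1 k2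
  rw [k1, k2]
  simp

theorem agridb_alg {Z Y : CS} {π : Y.X → Z.X} (hπ : Hom Y Z π) {N N' P : Fc Z} {W P' : Fc Y}
    (e : N ≤ cl (N' ⊔ P)) (e' : pb hπ P ≤ P') :
    cl (pb hπ N ⊔ W) ≤ cl (cl (pb hπ N' ⊔ W) ⊔ P') := by
  refine cl_le_cl (sup_le ?_ ?_)
  · refine (pb_mono hπ e).trans ((pb_cl hπ).trans (cl_mono ?_))
    rw [pb_sup]
    exact sup_le_sup (le_sup_left.trans (le_cl _)) e'
  · exact (le_sup_right.trans (le_cl _)).trans (le_sup_left.trans (le_cl _))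

theorem grid (H : Hyp u U) {o : ι} {Z : CS} {W N N' P : Fc Z} {g : ι → Z.X → ℂ} {G : Z.X → ℂ}
    (h : Tri u U o Z W N N' P g G) :
    ∃ (Y : CS) (W' M M' P' : Fc Y) (g' : ι → Y.X → ℂ) (G' : Y.X → ℂ), Dfn W' M M' P' ∧
      IsDual Y u U o g' G' ∧ (∀ a, BM (cl M) (g' a)) ∧ ¬ G' =ᵐ[Y.μ] 0 ∧ W'.E G' =ᵐ[Y.μ] 0 := by
  obtain ⟨Y, z, Θ, L⟩ := exists_ls u U H.le Z W
  obtain ⟨b, hb⟩ := Fintype.exists_ne_of_one_lt_card (by have := H.card; omega) o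
  have hoρ : o ∉ (Finset.univ \ {o, b} : Finset ι) := by simp
  have hρ : (Finset.univ \ {o, b} : Finset ι) ≠ Finset.univ := fun e =>
    hoρ (e.symm ▸ Finset.mem_univ o)
  have hρ' : insert o (Finset.univ \ {o, b} : Finset ι) ≠ Finset.univ := fun e => by
    have : b ∈ insert o (Finset.univ \ {o, b} : Finset ι) := e.symm ▸ Finset.mem_univ b
    simp [hb] at this
  have m := fun (A B : Fc Z) (hA : Closed A) (e : W ≤ A) (hB : A ≤ cl B) (O : Fc Y) =>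
    grid_cl L H hA e hB hb.symm (O := O)
  have ind := fun (A B : Fc Z) (e : W ≤ A) (e' : W ≤ B) (hc : CI W A B) =>
    grid_ind L H e e' hc hρ
  have lw := L.lw H le_top h.cW hoρ hρ' h.dual.2.1
  have hrow : ∀ a, a ≠ o → a ≠ b →
      pb (L.hom a) ⊤ ≤ cl (Θ ⊔ L.row (Finset.univ \ {o, b}) ⊤) := fun a e e' =>
    (L.le_row (by simp [e, e']) ⊤).trans (le_sup_right.trans (le_cl _))
  have cW' : Closed (cl (Θ ⊔ L.row (Finset.univ \ {o, b}) ⊤)) := cl_closed _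
  generalize cl (Θ ⊔ L.row (Finset.univ \ {o, b}) ⊤) = W' at m ind lw hrow cW'
  have r1 : ∀ (A : Fc Z) (a : ι), cl (pb (L.hom a) A ⊔ W') ≤ cl (L.row Finset.univ A ⊔ W') :=
    fun A a => cl_mono (sup_le_sup_right (L.le_row (Finset.mem_univ a) A) _)
  have r2 : cl (pb (L.hom o) P ⊔ pb (L.hom b) P ⊔ W') ≤ cl (L.row Finset.univ P ⊔ W') :=
    cl_mono (sup_le_sup_right
      (sup_le (L.le_row (Finset.mem_univ o) P) (L.le_row (Finset.mem_univ b) P)) _)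
  have w1 : ∀ A : Fc Y, W' ≤ cl (A ⊔ W') := fun A => le_sup_right.trans (le_cl _)
  have w2 : ∀ A : Fc Y, A ≤ cl (A ⊔ W') := fun A => le_sup_left.trans (le_cl _)
  have p0 : pb (L.hom o) P ≤ cl (pb (L.hom o) P ⊔ pb (L.hom b) P ⊔ W') :=
    le_sup_left.trans (w2 _)
  have p1 : pb (L.hom b) P ≤ cl (pb (L.hom o) P ⊔ pb (L.hom b) P ⊔ W') :=
    le_sup_right.trans (w2 _)
  have pW := w1 (pb (L.hom o) P ⊔ pb (L.hom b) P)
  generalize cl (pb (L.hom o) P ⊔ pb (L.hom b) P ⊔ W') = P' at r2 p0 p1 pW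
  have mm : ∀ A A' : Fc Z, Closed A → W ≤ A → A ≤ cl (A' ⊔ P) →
      cl (pb (L.hom o) A ⊔ W') ⊓ cl (pb (L.hom b) A ⊔ W') ≤
        cl (cl (pb (L.hom o) A ⊔ W') ⊓ cl (pb (L.hom b) A ⊔ W') ⊓
          (cl (pb (L.hom o) A' ⊔ W') ⊔ cl (pb (L.hom b) A' ⊔ W') ⊔ P')) := by
    intro A A' hA e e'
    refine m A _ hA e e' _ (pW.trans le_sup_right) ?_ ?_
    · rw [pb_sup]
      exact sup_le_sup ((w2 _).trans le_sup_left) p0
    · rw [pb_sup]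
      exact sup_le_sup ((w2 _).trans le_sup_right) p1
  have m1 := mm N N' h.cN h.leN h.alg
  have D := grid_lat cW' (cl_closed _) (cl_closed _) (cl_closed _) (cl_closed _) (w1 _) (w1 _)
    (w1 _) (w1 _) pW
    ((ind N N' h.leN h.leN' h.ci1).mono (sup_le (r1 N o) (r1 N b)) (sup_le (r1 N' o) (r1 N' b)))
    ((ind N P h.leN h.leP h.ci2).mono (sup_le (r1 N o) (r1 N b)) r2)
    ((ind N' P h.leN' h.leP h.ci3).mono (sup_le (r1 N' o) (r1 N' b)) r2)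
    (agridb_alg (L.hom o) h.alg p0) (agridb_alg (L.hom b) h.alg p1)
    (agridb_alg (L.hom o) h.alg' p0) (agridb_alg (L.hom b) h.alg' p1) m1
    (mm N' N h.cN' h.leN' h.alg')
  have dual := h.dual.pb (L.hom o)
  have hg0 : ∀ a, BM (cl (pb (L.hom o) N ⊔ W')) fun y => g a (z o y) := fun a =>
    (bm_pb (L.hom o) (h.bm a)).mono (w2 _)
  have hG0 : BM (cl (pb (L.hom o) N ⊔ W')) fun y => G (z o y) := dual.bm fun a _ => hg0 a
  have dualE := dual.E H inf_le_left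
    ((cl_closed (pb (L.hom b) N ⊔ W')).wm_inf (cl (pb (L.hom o) N ⊔ W'))) hg0
  refine ⟨Y, W', _, _, P', _, _, D, dualE, fun a => ((hg0 a).E _).mono m1, fun h0 => h.ne ?_, ?_⟩
  · refine agridb_ne L h.dual (R := cl (pb (L.hom b) N ⊔ W')) (fun a ha => ?_)
      ((tf H (cl_closed _) (cl_closed _) dual hG0).trans h0)
    by_cases e : a = b
    · subst e
      exact (bm_pb (L.hom a) (h.bm a)).mono (w2 _)
    · exact (bm_pb (L.hom a) (h.bm a).top).mono ((hrow a ha e).trans (w1 _))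
  · exact (E_E (le_inf (w1 _) (w1 _))).trans (lw.trans (ae_pb (L.hom o) h.zero))

end Pool.Agent.Lib.MP_1db5af_an.Th
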