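import Pool.Agent.Lib.MP_1db5af_an.Th.RelPi

set_option autoImplicit false

namespace Pool.Agent.Lib.MP_1db5af_an.Th

open MeasureTheory ProbabilityTheory Filter Topology ComplexConjugate
open scoped ENNReal NNReal InnerProductSpace

variable {ι : Type} {u : ι → ℕ → ℤ} {J : Finset ι}

theorem ahr_zero {p : ℕ → ℝ} (h : ∀ n, p n = 0) : Nul p := by
  rw [show p = fun _ => 0 from funext h]
  exact tendsto_av_const 0

theorem ahr_sq {p : ℕ → ℝ} (h0 : ∀ n, 0 ≤ p n) (h : Nul fun n => p n ^ 2) : Nul p := by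
  have h1 := h.sqrt
  rw [Real.sqrt_zero] at h1
  exact squeeze_zero (av_nonneg h0) (fun N => Real.le_sqrt_of_sq_le (sq_av_le p N)) h1

theorem ahr_re {r : ℕ → ℝ} {c : ℕ → ℂ} (e : ∀ n, c n = r n) {L : ℂ}
    (h : Tendsto (av c) atTop (𝓝 L)) : Tendsto (av r) atTop (𝓝 L.re) := by
  refine ((Complex.continuous_re.tendsto L).comp h).congr fun N => ?_
  have h1 := av_map Complex.reCLM c N
  simp only [Complex.reCLM_apply, e, Complex.ofReal_re] at h1
  exact h1.symm

theorem ahr_upd [DecidableEq ι] {Z : CS} (g : ι → Z.X → ℂ) {a : ι} (ha : a ∈ J) (φ : Z.X → ℂ)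
    (n : ℕ) (x : Z.X) : pr Z u J (Function.update g a φ) n x =
      φ (Z.T (u a n) x) * ∏ b ∈ J.erase a, g b (Z.T (u b n) x) := by
  rw [pr, ← Finset.mul_prod_erase J _ ha, Function.update_self]
  congr 1
  exact Finset.prod_congr rfl fun b hb => by
    rw [Function.update_of_ne (Finset.ne_of_mem_erase hb)]

theorem ahr_bm [DecidableEq ι] {Z : CS} {B : Fc Z} {g : ι → Z.X → ℂ} (hg : ∀ b ∈ J, BM B (g b))
    (a : ι) {φ : Z.X → ℂ} (hφ : BM B φ) : ∀ b ∈ J, BM B (Function.update g a φ b) := by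
  intro b hb
  rcases eq_or_ne b a with rfl | hne
  · rwa [Function.update_self]
  · rw [Function.update_of_ne hne]
    exact hg b hb

theorem ahr_tel (h : HR u J) {Z : CS} {W B : Fc Z} (e : W ≤ B) (hw : WM W B) (R : Finset ι)
    (hR : R ⊆ J) : ∀ f g : ι → Z.X → ℂ, (∀ a ∈ J, BM B (f a)) → (∀ a ∈ J, BM B (g a)) →
      (∀ a ∈ J, W.E (f a) =ᵐ[Z.μ] W.E (g a)) → (∀ a ∈ J, a ∉ R → f a = g a) →
      Nul fun n => ‖L2 Z.μ (W.E (pr Z u J f n)) - L2 Z.μ (W.E (pr Z u J g n))‖ := by
  classical
  induction R using Finset.induction_on with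
  | empty =>
    intro f g _ _ _ hfg
    refine ahr_zero fun n => ?_
    have e1 : pr Z u J f n = pr Z u J g n := funext fun x =>
      Finset.prod_congr rfl fun a ha => by rw [hfg a ha (Finset.notMem_empty a)]
    rw [e1, sub_self, norm_zero]
  | insert a R _ ih =>
    intro f g hf hg hE hfg
    have ha : a ∈ J := hR (Finset.mem_insert_self a R)
    have b1 := ahr_bm hg a (hf a ha)
    have b2 := ahr_bm hg a ((hf a ha).sub (hg a ha))
    have h1 := ih ((Finset.subset_insert a R).trans hR) f (Function.update g a (f a)) hf b1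
      (fun b hb => by
        rcases eq_or_ne b a with rfl | hne
        · rw [Function.update_self]
        · rw [Function.update_of_ne hne]
          exact hE b hb)
      (fun b hb hn => by
        rcases eq_or_ne b a with rfl | hne
        · rw [Function.update_self]
        · rw [Function.update_of_ne hne]
          exact hfg b hb fun hc => (Finset.mem_insert.1 hc).elim hne hn)
    have h2 := h Z W B e hw _ b2 a ha (by
      rw [Function.update_self]
      filter_upwards [E_sub (W := W) (hf a ha).top (hg a ha).top, hE a ha] with x h1 h2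
      rw [h1, h2, sub_self, Pi.zero_apply])
    refine nul_mono (fun n => norm_nonneg _) (fun n => ?_) (nul_add h1 h2)
    have e1 : pr Z u J (Function.update g a fun x => f a x - g a x) n = fun x =>
        pr Z u J (Function.update g a (f a)) n x - pr Z u J g n x := funext fun x => by
      have e2 := ahr_upd (u := u) g ha (g a) n x
      rw [Function.update_eq_self] at e2
      rw [ahr_upd g ha, ahr_upd g ha, e2, sub_mul]
    rw [e1, L2_congr (E_sub (bm_pr b1 n).top (bm_pr hg n).top),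
      L2_sub ((bm_pr b1 n).E W).memLp ((bm_pr hg n).E W).memLp]
    exact norm_sub_le_norm_sub_add_norm_sub _ _ _

theorem ahr_two {Z : CS} {W B : Fc Z} (e : W ≤ B) (hw : WM W B) {f g : Z.X → ℂ} (hf : BM B f)
    (h0 : W.E f =ᵐ[Z.μ] 0) (hg : BM ⊤ g) {d : ℕ → ℤ} (hd : WD d) :
    Nul fun n => ‖L2 Z.μ (W.E fun x => f x * g (Z.T (d n) x))‖ := by
  obtain ⟨C, hC⟩ := hf.1
  obtain ⟨D, hD⟩ := hg.1
  obtain ⟨f', mf, bf, ef⟩ := hf.top.version hC
  obtain ⟨g', mg, bg, eg⟩ := hg.version hD
  have mf' : Measurable f' := mf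
  have mg' : Measurable g' := mg
  obtain ⟨ν, hν, hS, hI⟩ := relpi (κ := Bool) Z W Z.sys.toMAct (p := fun _ => id)
    (fun _ => measurable_id) fun _ _ => ae_of_all _ fun _ => rfl
  have hb : ∀ k : ℤ, BM ⊤ fun x => f x * g (Z.T k x) := fun k => hf.top.mul (hg.shift k)
  have bd : ∀ (φ : Z.X → ℂ) (C : ℝ), Measurable φ → (∀ x, ‖φ x‖ ≤ C) →
      Bd ν (C * C) fun y => φ (y true) * conj (φ (y false)) := fun φ C m b =>
    Bd.mul ⟨(m.comp (measurable_pi_apply true)).aestronglyMeasurable, ae_of_all _ fun _ => b _⟩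
      (Bd.star ⟨(m.comp (measurable_pi_apply false)).aestronglyMeasurable,
        ae_of_all _ fun _ => b _⟩)
  obtain ⟨L, h1, h2⟩ := wk (C := max (C * C) (D * D)) hS hd
    ((bd f' C mf' bf).mono (le_max_left _ _)) ((bd g' D mg' bg).mono (le_max_right _ _))
  have key : ∀ k : ℤ, ∫ y, f' (y true) * conj (f' (y false)) *
      (g' (piT Z.T k y true) * conj (g' (piT Z.T k y false))) ∂ν =
      ((‖L2 Z.μ (W.E fun x => f x * g (Z.T k x))‖ ^ 2 : ℝ) : ℂ) := fun k => by
    have m1 : Measurable fun s => f' s * g' (Z.T k s) := mf'.mul (mg'.comp (Z.sys.meas k))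
    have b1 : ∀ s, ‖f' s * g' (Z.T k s)‖ ≤ C * D := fun s =>
      norm_mul_le_of_le (bf s) (bg _)
    have e1 : (fun x => f x * g (Z.T k x)) =ᵐ[Z.μ] fun x => f' x * g' (Z.T k x) :=
      ef.mul ((Z.sys.mp k).quasiMeasurePreserving.ae_eq_comp eg)
    have h3 := hI (fun i s => cond i (f' s * g' (Z.T k s)) (conj (f' s * g' (Z.T k s)))) (by
      rintro (_ | _)
      · exact ⟨Complex.continuous_conj.measurable.comp m1, C * D, fun s => by
          simpa only [cond_false, Complex.norm_conj] using b1 s⟩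
      · exact ⟨m1, C * D, b1⟩)
    simp only [Fintype.prod_bool, cond_true, cond_false, id] at h3
    rw [norm_L2_int ((hb k).E W).top]
    refine (integral_congr_ae (ae_of_all _ fun y => ?_)).trans (h3.trans (integral_congr_ae ?_))
    · simp only [piT, map_mul]
      ring
    · filter_upwards [E_congr (W := W) e1, E_star (W := W) ((hb k).congr e1)] with x h4 h5
      rw [h4, h5]
  have h3 := ahr_re (fun n => key (d n)) h1
  have h4 := ahr_re (fun l : ℕ => key l) h2
  have h5 : Nul fun l : ℕ => ‖L2 Z.μ (W.E fun x => f x * g (Z.T l x))‖ ^ 2 := by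
    refine nul_mono (fun _ => sq_nonneg _) (fun l => ?_)
      (nul_mul (C * D) (hw.bil' e hf h0 hg))
    rw [sq]
    exact mul_le_mul_of_nonneg_right ((norm_L2_E_le (hb l)).trans
      (hC.mul (hD.comp (Z.sys.mp l))).norm_L2) (norm_nonneg _)
  rw [tendsto_nhds_unique h4 h5] at h3
  exact ahr_sq (fun _ => norm_nonneg _) h3

theorem hr_full (h : HR u J) {Z : CS} {W B : Fc Z} (e : W ≤ B) (hw : WM W B) {f : ι → Z.X → ℂ}
    (hf : ∀ a ∈ J, BM B (f a)) :
    Nul fun n => ‖L2 Z.μ (W.E (pr Z u J f n)) - L2 Z.μ (pr Z u J (fun a => W.E (f a)) n)‖ := by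
  refine (ahr_tel h e hw J (Finset.Subset.refl J) f (fun a => W.E (f a)) hf
    (fun a ha => ((hf a ha).E W).mono e) (fun a ha => ((hf a ha).E W).E_self.symm)
    fun a ha hn => absurd ha hn).congr fun N => ?_
  congr 1
  funext n
  rw [L2_congr (bm_pr (u := u) (fun a ha => (hf a ha).E W) n).E_self]

theorem hr_small (hu : PW u) (h : J.card ≤ 2) : HR u J := by
  classical
  intro Z W B e hw f hf a0 ha0 h0
  have hc : (J.erase a0).card ≤ 1 := by
    rw [Finset.card_erase_of_mem ha0]
    omega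
  have hp : ∀ n x, pr Z u J f n x =
      f a0 (Z.T (u a0 n) x) * ∏ b ∈ J.erase a0, f b (Z.T (u b n) x) := fun n x =>
    (Finset.mul_prod_erase J (fun b => f b (Z.T (u b n) x)) ha0).symm
  rcases (J.erase a0).eq_empty_or_nonempty with h1 | ⟨a1, h1⟩
  · refine ahr_zero fun n => ?_
    have e1 : pr Z u J f n = fun x => f a0 (Z.T (u a0 n) x) := funext fun x => by
      rw [hp, h1, Finset.prod_empty, mul_one]
    have e2 : W.E (pr Z u J f n) =ᵐ[Z.μ] fun _ => 0 := by
      rw [e1]
      exact (E_shift (hf a0 ha0).top _).trans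
        ((Z.sys.mp (u a0 n)).quasiMeasurePreserving.ae_eq_comp h0)
    rw [L2_congr e2, L2_zero, norm_zero]
  · have h2 : J.erase a0 = {a1} :=
      Finset.eq_singleton_iff_unique_mem.2 ⟨h1, fun b hb => Finset.card_le_one.1 hc b hb a1 h1⟩
    obtain ⟨hne, h3⟩ := Finset.mem_erase.1 h1
    refine (ahr_two e hw (hf a0 ha0) h0 (hf a1 h3).top (hu.weyl a1 a0 hne)).congr fun N => ?_
    congr 1
    funext n
    have b1 : BM ⊤ fun x => f a0 x * f a1 (Z.T (u a1 n - u a0 n) x) :=
      (hf a0 ha0).top.mul ((hf a1 h3).top.shift _)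
    have e1 : pr Z u J f n =
        fun x => (fun x => f a0 x * f a1 (Z.T (u a1 n - u a0 n) x)) (Z.T (u a0 n) x) :=
      funext fun x => by
        rw [hp, h2, Finset.prod_singleton]
        simp only [← Z.sys.add, sub_add_cancel]
    rw [e1, L2_congr (E_shift b1 _), norm_L2_shift (b1.E W).top]

theorem pw_sub (hu : PW u) (J : Finset ι) : PW fun a : J => u a :=
  ⟨fun a b h => hu.weyl a b (Subtype.coe_ne_coe.2 h),
    fun a b h => hu.gap a b (Subtype.coe_ne_coe.2 h)⟩

theorem hr_sub (h : HR (fun a : J => u a) Finset.univ) : HR u J := by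
  intro Z W B e hw f hf a0 ha0 h0
  refine (h Z W B e hw (fun a => f a) (fun a _ => hf a a.2) ⟨a0, ha0⟩ (Finset.mem_univ _)
    h0).congr fun N => ?_
  congr 1
  funext n
  congr 3
  funext x
  exact Finset.prod_coe_sort J fun a => f a (Z.T (u a n) x)

theorem hr_sub' {J' : Finset J} (h : HR u (J'.map (Function.Embedding.subtype _))) :
    HR (fun a : J => u a) J' := by
  intro Z W B e hw f hf a0 ha0 h0
  have hx : ∀ a : J, Function.extend Subtype.val f (fun _ _ => 1) (a : ι) = f a := fun a =>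
    Subtype.val_injective.extend_apply _ _ a
  refine (h Z W B e hw (Function.extend Subtype.val f fun _ _ => 1) (fun a ha => ?_) a0
    (Finset.mem_map_of_mem _ ha0) (by rw [hx]; exact h0)).congr fun N => ?_
  · obtain ⟨b, hb, rfl⟩ := Finset.mem_map.1 ha
    rw [Function.Embedding.coe_subtype, hx]
    exact hf b hb
  · congr 1
    funext n
    congr 3
    funext x
    simp only [pr, Finset.prod_map, Function.Embedding.coe_subtype, hx]

theorem ha_sub (h : HA (fun a : J => u a) Finset.univ) : HA u J := by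
  intro A _ _ τ hτ Ω R hR hC x a0 ha0
  refine (h A τ hτ Ω R hR hC (fun a => x a) ⟨a0, ha0⟩ (Finset.mem_univ _)).congr fun N => ?_
  congr 1
  funext n
  rw [Finset.sum_coe_sort J fun a => τ (u a n) (x a)]

theorem ha_sub' {J' : Finset J} (h : HA u (J'.map (Function.Embedding.subtype _))) :
    HA (fun a : J => u a) J' := by
  intro A _ _ τ hτ Ω R hR hC x a0 ha0
  have hx : ∀ a : J, Function.extend Subtype.val x (fun _ => 0) (a : ι) = x a := fun a =>
    Subtype.val_injective.extend_apply _ _ a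
  refine (h A τ hτ Ω R hR hC (Function.extend Subtype.val x fun _ => 0) a0
    (Finset.mem_map_of_mem _ ha0)).congr fun N => ?_
  congr 1
  funext n
  simp only [Finset.sum_map, Function.Embedding.coe_subtype, hx]

theorem ha_small (h : J.card ≤ 1) : HA u J := by
  intro A _ _ τ hτ Ω R hR hC x a0 ha0
  have h2 : J = {a0} :=
    Finset.eq_singleton_iff_unique_mem.2 ⟨ha0, fun b hb => Finset.card_le_one.1 h b hb a0 ha0⟩
  refine ahr_zero fun n => ?_
  simp [h2]

end Pool.Agent.Lib.MP_1db5af_an.Th
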