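import Pool.Agent.Lib.MP_1db5af_an.Th.ACl

set_option autoImplicit false

namespace Pool.Agent.Lib.MP_1db5af_an.Th

open MeasureTheory ProbabilityTheory Filter Topology ComplexConjugate
open scoped ENNReal NNReal InnerProductSpace

variable {Z : CS} {A B B1 B2 D O : Fc Z}

theorem api_wm (e1 : D ≤ B1) (e2 : D ≤ B2) (hw : WM D B2) (h : CI D B1 B2) :
    CI (cl D) (cl B1) (cl B2) := by
  have h1 := ((fw hw e2 e1 h).weak (le_cl D) ((cl_mono e1).trans le_sup_left)).sup_right.symm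
  exact (fw ((cl_closed D).wm _) (cl_mono e1) le_sup_right h1).symm.mono le_rfl
    (cl_mono le_sup_left)

theorem ci_cl (e1 : D ≤ B1) (e2 : D ≤ B2) (h : CI D B1 B2) : CI (cl D) (cl B1) (cl B2) := by
  have e3 : D ≤ B2 ⊓ cl D := le_inf e2 (le_cl D)
  have h1 := api_wm le_sup_right inf_le_left ((cl_closed D).wm_inf B2)
    (h.symm.weak e3 (inf_le_left.trans le_sup_left)).symm.sup_left
  rw [cl_eq_cl inf_le_right (e3.trans (le_cl _))] at h1
  exact h1.mono (cl_mono le_sup_left) le_rfl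

/-- The form without inclusions. -/
theorem ci_cl' (h : CI D B1 B2) : CI (cl D) (cl (B1 ⊔ D)) (cl (B2 ⊔ D)) :=
  ci_cl le_sup_right le_sup_right h.sup_left.sup_right

theorem cl_inf_le (h : CI D B1 B2) : cl (B1 ⊔ D) ⊓ cl (B2 ⊔ D) ≤ cl D :=
  (ci_cl' h).inf_le

theorem le_cl_of_ci (h : CI D A B) (e : A ≤ cl (B ⊔ D)) : A ≤ cl D :=
  (le_inf (le_sup_left.trans (le_cl _)) e).trans (cl_inf_le h)

theorem ec (e : B ≤ O) : CI (cl B ⊓ O) (cl B) O := by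
  have h := (cl_closed B).wm_inf O
  rw [inf_comm] at h
  exact (fw h inf_le_right le_rfl (ci_of_le le_rfl)).mono (cl_mono (le_inf (le_cl B) e)) le_rfl

theorem api_il {R S W P Q : Fc Z} (h0 : Closed R) (e0 : W ≤ R) (e1 : R ≤ S) (h : CI W P S)
    (e : Q ≤ cl (R ⊔ P)) {q : Z.X → ℂ} (hq : BM Q q) : BM R (S.E q) := by
  have h1 := ci_cl' (h.symm.weak e0 (e1.trans le_sup_left))
  rw [h0.cl_eq, sup_comm P R] at h1
  exact (hq.E R).congr ((h1.mono (le_sup_left.trans (le_cl _)) e).E_eq e1 hq).symm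

theorem il {R0 R1 W P : Fc Z} (h0 : Closed R0) (h1 : Closed R1) (e0 : W ≤ R0) (e1 : W ≤ R1)
    (h : CI W P (R0 ⊔ R1)) : cl (R0 ⊔ P) ⊓ cl (R1 ⊔ P) ≤ cl ((R0 ⊓ R1) ⊔ P) := by
  have h2 : CI (R0 ⊓ R1) (R0 ⊔ R1) (cl (R0 ⊔ P) ⊓ cl (R1 ⊔ P)) :=
    ci_of_E inf_le_sup fun q hq => (api_il h0 e0 le_sup_left h inf_le_left hq).inf
      (api_il h1 e1 le_sup_right h inf_le_right hq)
  have e2 : P ≤ cl (R0 ⊔ P) ⊓ cl (R1 ⊔ P) :=
    le_inf (le_sup_right.trans (le_cl _)) (le_sup_right.trans (le_cl _))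
  refine le_cl_of_ci (h2.symm.weak le_sup_left (sup_le le_sup_right (e2.trans le_sup_left)))
    (inf_le_left.trans (cl_mono (sup_le_sup le_sup_left le_sup_right)))

end Pool.Agent.Lib.MP_1db5af_an.Th
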