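import Pool.Agent.Lib.MP_1db5af_an.Th.ADual
import Pool.Agent.Lib.MP_1db5af_an.Th.APi

set_option autoImplicit false

namespace Pool.Agent.Lib.MP_1db5af_an.Th

open MeasureTheory ProbabilityTheory Filter Topology ComplexConjugate
open scoped ENNReal NNReal InnerProductSpace

variable {ι : Type} [Fintype ι] [DecidableEq ι] {u : ι → ℕ → ℤ} {U : Ultrafilter ℕ}
  {Y Z : CS} {W : Fc Y} {y : ι → Z.X → Y.X} {Θ : Fc Z}

/-- Products of conditional expectations before the limit. -/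
noncomputable def alc_c (u : ι → ℕ → ℤ) (W : Fc Y) {κ : Type} [Fintype κ]
    (f : κ → ι → Y.X → ℂ) (n : ℕ) : Y.X → ℂ :=
  fun x => ∏ i, W.E (pr Y u Finset.univ (f i) n) x

/-- Products of conditional expectations in the limit system. -/
noncomputable def alc_C (y : ι → Z.X → Y.X) (Θ : Fc Z) {κ : Type} [Fintype κ]
    (f : κ → ι → Y.X → ℂ) : Z.X → ℂ :=
  fun z => ∏ i, Θ.E (fun z => ∏ a, f i a (y a z)) z

omit [DecidableEq ι] in
theorem alc_bm (h : LSD u U Y W Z y Θ) {J : Finset ι} {A : Fc Y} {f : ι → Y.X → ℂ}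
    (hf : ∀ a ∈ J, BM A (f a)) : BM ⊤ fun z => ∏ a ∈ J, f a (y a z) :=
  bm_prod fun a ha => bm_pb_top (h.hom a) (hf a ha)

omit [DecidableEq ι] in
theorem alc_bm_c {κ : Type} [Fintype κ] {f : κ → ι → Y.X → ℂ} (hf : ∀ i a, BM ⊤ (f i a))
    (n : ℕ) : BM ⊤ (alc_c u W f n) :=
  bm_prod fun i _ => ((bm_pr (fun a _ => hf i a) n).E W).top

omit [DecidableEq ι] in
theorem alc_bm_C (h : LSD u U Y W Z y Θ) {κ : Type} [Fintype κ] {f : κ → ι → Y.X → ℂ}
    (hf : ∀ i a, BM ⊤ (f i a)) : BM ⊤ (alc_C y Θ f) :=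
  bm_prod fun i _ => ((alc_bm h fun a _ => hf i a).E Θ).top

omit [Fintype ι] [DecidableEq ι] in
theorem alc_bd_pr {J : Finset ι} {A : Fc Y} {f : ι → Y.X → ℂ} (hf : ∀ a ∈ J, BM A (f a)) :
    ∃ C, ∀ n, Bd Y.μ C (pr Y u J f n) := by
  obtain ⟨C, -, hC⟩ := bm_bound hf
  exact ⟨_, fun n => Bd.prod J fun a ha => (hC a ha).comp (Y.sys.mp _)⟩

omit [DecidableEq ι] in
theorem alc_bd_c {κ : Type} [Fintype κ] {f : κ → ι → Y.X → ℂ} (hf : ∀ i a, BM ⊤ (f i a)) :
    ∃ C, ∀ n, ‖L2 Y.μ (alc_c u W f n)‖ ≤ C := by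
  choose C hC using fun i => alc_bd_pr (u := u) (J := Finset.univ) fun a _ => hf i a
  refine ⟨_, fun n => (Bd.prod (C := ∑ i, C i) Finset.univ fun i hi =>
    (hC i n).condExp.mono ?_).norm_L2⟩
  exact Finset.single_le_sum (fun j _ => (hC j n).nonneg) hi

omit [DecidableEq ι] in
theorem alc_inner (h : LSD u U Y W Z y Θ) {κ κ' : Type} [Fintype κ] [Fintype κ']
    {f : κ → ι → Y.X → ℂ} {g : κ' → ι → Y.X → ℂ} (hf : ∀ i a, BM ⊤ (f i a))
    (hg : ∀ i a, BM ⊤ (g i a)) :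
    Tendsto (av fun n => ⟪L2 Y.μ (alc_c u W g n), L2 Y.μ (alc_c u W f n)⟫_ℂ) U
      (𝓝 ⟪L2 Z.μ (alc_C y Θ g), L2 Z.μ (alc_C y Θ f)⟫_ℂ) := by
  have h1 := h.lm (κ ⊕ κ') (Sum.elim f fun j a x => conj (g j a x)) (by
    rintro (i | j) a
    · exact hf i a
    · exact (hg j a).star)
  simp only [Fintype.prod_sum_type, Sum.elim_inl, Sum.elim_inr] at h1
  have e1 : ∀ n, ⟪L2 Y.μ (alc_c u W g n), L2 Y.μ (alc_c u W f n)⟫_ℂ =
      ∫ x, (∏ i, W.E (pr Y u Finset.univ (f i) n) x) *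
        ∏ j, W.E (pr Y u Finset.univ (fun a x => conj (g j a x)) n) x ∂Y.μ := by
    intro n
    rw [inner_L2 (alc_bm_c hg n).memLp (alc_bm_c hf n).memLp]
    refine integral_congr_ae ?_
    filter_upwards [ae_all_iff.2 fun j =>
      E_star (W := W) (bm_pr (u := u) (J := Finset.univ) (fun a _ => hg j a) n)] with x hx
    simp only [alc_c, map_prod, ← hx]
    simp only [pr, map_prod]
    rfl
  have e2 : ⟪L2 Z.μ (alc_C y Θ g), L2 Z.μ (alc_C y Θ f)⟫_ℂ =
      ∫ z, (∏ i, Θ.E (fun z => ∏ a, f i a (y a z)) z) *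
        ∏ j, Θ.E (fun z => ∏ a, conj (g j a (y a z))) z ∂Z.μ := by
    rw [inner_L2 (alc_bm_C h hg).memLp (alc_bm_C h hf).memLp]
    refine integral_congr_ae ?_
    filter_upwards [ae_all_iff.2 fun j =>
      E_star (W := Θ) (alc_bm h (J := Finset.univ) fun a _ => hg j a)] with x hx
    simp only [alc_C, map_prod, ← hx]
  rw [e2]
  simpa only [e1] using h1

omit [DecidableEq ι] in
/-- Asymptotically equal products have equal limits. -/
theorem alc_lq (h : LSD u U Y W Z y Θ) {κ κ' : Type} [Fintype κ] [Fintype κ']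
    {f : κ → ι → Y.X → ℂ} {g : κ' → ι → Y.X → ℂ} (hf : ∀ i a, BM ⊤ (f i a))
    (hg : ∀ i a, BM ⊤ (g i a))
    (e : Tendsto (av fun n => ‖L2 Y.μ (alc_c u W f n) - L2 Y.μ (alc_c u W g n)‖) U (𝓝 0)) :
    alc_C y Θ f =ᵐ[Z.μ] alc_C y Θ g := by
  have key : ∀ {κ'' : Type} [Fintype κ''] {k : κ'' → ι → Y.X → ℂ}, (∀ i a, BM ⊤ (k i a)) →
      ⟪L2 Z.μ (alc_C y Θ k), L2 Z.μ (alc_C y Θ f) - L2 Z.μ (alc_C y Θ g)⟫_ℂ = 0 := by
    intro κ'' _ k hk
    obtain ⟨C, hC⟩ := alc_bd_c (u := u) (W := W) hk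
    have h1 := (alc_inner h hf hk).sub (alc_inner h hg hk)
    simp only [← av_sub, ← inner_sub_right] at h1
    refine tendsto_nhds_unique h1 (squeeze_zero_norm (fun N => ?_) (by simpa using e.const_mul C))
    rw [← av_rmul]
    exact (norm_av_le_av _ _).trans (av_mono fun n _ =>
      (norm_inner_le_norm _ _).trans (mul_le_mul_of_nonneg_right (hC n) (norm_nonneg _)))
  refine ae_of_L2 (alc_bm_C h hf) (alc_bm_C h hg) (sub_eq_zero.1 ?_)
  rw [← inner_self_eq_zero (𝕜 := ℂ), inner_sub_left, key hf, key hg, sub_zero]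

theorem LSD.lb (h : LSD u U Y W Z y Θ) {f : ι → Y.X → ℂ} (hf : ∀ a, BM ⊤ (f a)) :
    TT Y u U f (∫ z, ∏ a, f a (y a z) ∂Z.μ) := by
  have h1 := h.lm Unit (fun _ => f) fun _ => hf
  simpa only [TT, Finset.univ_unique, Finset.prod_singleton, int_E] using h1

theorem LSD.la (h : LSD u U Y W Z y Θ) (hU : (U : Filter ℕ) ≤ atTop) (a : ι) :
    pb (h.hom a) W ≤ Θ := by
  refine (pb_le_iff _).2 fun w hw => ?_
  let f : ι → Y.X → ℂ := fun b x => if b = a then w x else 1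
  have hf : ∀ b, BM ⊤ (f b) := fun b => by
    by_cases hb : b = a
    · simpa only [f, hb, if_true] using hw.top
    · simpa only [f, hb, if_false] using bm_const 1
  have e1 : ∀ n, L2 Y.μ (alc_c u W (fun _ : Unit => f) n) = L2 Y.μ fun x => w (Y.T (u a n) x) := by
    intro n
    refine L2_congr (EventuallyEq.trans (Eventually.of_forall fun x => ?_) (hw.shift _).E_self)
    simp only [alc_c, Finset.univ_unique, Finset.prod_singleton]
    congr 2
    funext x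
    simp [pr, f]
  have e2 : alc_C y Θ (fun _ : Unit => f) = Θ.E fun z => w (y a z) := by
    funext z
    simp [alc_C, f]
  have h1 := alc_inner h (f := fun _ : Unit => f) (g := fun _ : Unit => f) (fun _ => hf)
    fun _ => hf
  simp only [e1, e2, inner_self_eq_norm_sq_to_K, norm_L2_shift hw.top] at h1
  have h2 := tendsto_nhds_unique h1 ((tendsto_av_const _).mono_left hU)
  have hp := bm_pb_top (h.hom a) hw
  have h3 := norm_L2_sub_E (W := Θ) hp
  have h4 : ‖L2 Z.μ (Θ.E fun z => w (y a z))‖ ^ 2 = ‖L2 Y.μ w‖ ^ 2 := by exact_mod_cast h2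
  rw [norm_L2_pb (h.hom a) hw.top, h4, sub_self, sq_eq_zero_iff, norm_eq_zero, sub_eq_zero] at h3
  exact (hp.E Θ).congr (ae_of_L2 hp (hp.E Θ).top h3).symm

/-- Two tuples with asymptotically equal conditional expectations. -/
theorem LSD.lq (h : LSD u U Y W Z y Θ) (hU : (U : Filter ℕ) ≤ atTop) {f f' : ι → Y.X → ℂ}
    (hf : ∀ a, BM ⊤ (f a)) (hf' : ∀ a, BM ⊤ (f' a))
    (e : Nul fun n => ‖L2 Y.μ (W.E (pr Y u Finset.univ f n)) -
      L2 Y.μ (W.E (pr Y u Finset.univ f' n))‖) :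
    Θ.E (fun z => ∏ a, f a (y a z)) =ᵐ[Z.μ] Θ.E fun z => ∏ a, f' a (y a z) := by
  have e1 : ∀ (k : ι → Y.X → ℂ) n, alc_c u W (fun _ : Unit => k) n =
      W.E (pr Y u Finset.univ k n) := fun k n => by
    funext x
    simp [alc_c]
  have h1 := alc_lq h (f := fun _ : Unit => f) (g := fun _ : Unit => f') (fun _ => hf)
    (fun _ => hf') (by simpa only [e1] using Tendsto.mono_left e hU)
  filter_upwards [h1] with z hz
  simpa [alc_C] using hz

theorem LSD.row_mono (h : LSD u U Y W Z y Θ) {J J' : Finset ι} {A A' : Fc Y} (e : J ⊆ J')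
    (e' : A ≤ A') : h.row J A ≤ h.row J' A' :=
  iSup₂_le fun a ha => (pb_mono _ e').trans
    (le_iSup₂ (f := fun b (_ : b ∈ J') => pb (h.hom b) A') a (e ha))

theorem LSD.le_row (h : LSD u U Y W Z y Θ) {J : Finset ι} {a : ι} (ha : a ∈ J) (A : Fc Y) :
    pb (h.hom a) A ≤ h.row J A :=
  le_iSup₂ (f := fun b (_ : b ∈ J) => pb (h.hom b) A) a ha

theorem LSD.row_sup (h : LSD u U Y W Z y Θ) (J : Finset ι) (A B : Fc Y) :
    h.row J (A ⊔ B) = h.row J A ⊔ h.row J B := by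
  simp only [LSD.row, pb_sup, iSup_sup_eq]

theorem LSD.row_union (h : LSD u U Y W Z y Θ) (J J' : Finset ι) (A : Fc Y) :
    h.row (J ∪ J') A = h.row J A ⊔ h.row J' A :=
  Finset.iSup_union

theorem LSD.row_cl (h : LSD u U Y W Z y Θ) (J : Finset ι) (A : Fc Y) :
    h.row J (cl A) ≤ cl (h.row J A) :=
  iSup₂_le fun _ ha => (pb_cl _).trans (cl_mono (h.le_row ha A))

theorem alc_bm_row (h : LSD u U Y W Z y Θ) {J : Finset ι} {A : Fc Y} {f : ι → Y.X → ℂ}
    (hf : ∀ a ∈ J, BM A (f a)) : BM (h.row J A) fun z => ∏ a ∈ J, f a (y a z) :=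
  bm_prod fun a ha => (bm_pb (h.hom a) (hf a ha)).mono (h.le_row ha A)

theorem alc_pull (h : LSD u U Y W Z y Θ) {J : Finset ι} {A : Fc Y} {k : ι → Z.X → ℂ}
    (hk : ∀ a ∈ J, BM (pb (h.hom a) A) (k a)) : ∃ f : ι → Y.X → ℂ, (∀ a, BM A (f a)) ∧
      (fun z => ∏ a ∈ J, k a z) =ᵐ[Z.μ] fun z => ∏ a ∈ J, f a (y a z) := by
  have h1 : ∀ a, ∃ f : Y.X → ℂ, BM A f ∧ (a ∈ J → k a =ᵐ[Z.μ] fun z => f (y a z)) := fun a => by
    by_cases ha : a ∈ J
    · obtain ⟨f, h1, h2⟩ := exists_of_bm_pb _ (hk a ha)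
      exact ⟨f, h1, fun _ => h2⟩
    · exact ⟨_, bm_const 1, fun h' => absurd h' ha⟩
  choose f h1 h2 using h1
  refine ⟨f, h1, ?_⟩
  filter_upwards [(ae_ball_iff J.countable_toSet).2 h2] with z hz
  exact Finset.prod_congr rfl hz

theorem LSD.appr (h : LSD u U Y W Z y Θ) {J : Finset ι} {A : Fc Y} {F : Z.X → ℂ}
    (hJ : J.Nonempty) (hF : BM (h.row J A) F) : Appr Z.μ (fun v => ∃ f : ι → Y.X → ℂ, (∀ a, BM A (f a)) ∧
      v =ᵐ[Z.μ] fun z => ∏ a ∈ J, f a (y a z)) F := by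
  intro ε hε
  obtain ⟨n, v, D, h1, h2⟩ := appr_row hJ hF ε hε
  refine ⟨n, v, D, fun l => ⟨(h1 l).1, ?_⟩, h2⟩
  obtain ⟨k, hk, e⟩ := (h1 l).2
  rw [e]
  exact alc_pull h hk

/-- Conditional expectation on the join with a row. -/
theorem alc_E_row (h : LSD u U Y W Z y Θ) {D : Fc Z} {J : Finset ι} {A : Fc Y} {F G : Z.X → ℂ}
    (hF : BM ⊤ F) (hG : BM (D ⊔ h.row J A) G)
    (e : ∀ f : ι → Y.X → ℂ, (∀ a, BM A (f a)) →
      D.E (fun z => (∏ a ∈ J, f a (y a z)) * F z) =ᵐ[Z.μ]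
        D.E fun z => (∏ a ∈ J, f a (y a z)) * G z) : (D ⊔ h.row J A).E F =ᵐ[Z.μ] G := by
  have hd := hF.sub hG.top
  have h1 : (D ⊔ h.row J A).E (fun z => F z - G z) =ᵐ[Z.μ] 0 := by
    refine zero_sup hd.integrable fun θ b hθ hb => ?_
    have h2 : (h.row J A).E (fun z => θ z * (F z - G z)) =ᵐ[Z.μ] 0 := by
      refine zero_row (hθ.top.mul hd).integrable fun k hk => ?_
      obtain ⟨f, hf, e1⟩ := alc_pull h hk
      have hp := alc_bm h (J := J) fun a _ => hf a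
      have h3 : ∫ z, (∏ a ∈ J, k a z) * (θ z * (F z - G z)) ∂Z.μ =
          ∫ z, θ z * ((∏ a ∈ J, f a (y a z)) * F z - (∏ a ∈ J, f a (y a z)) * G z) ∂Z.μ :=
        integral_congr_ae (by
          filter_upwards [e1] with z hz
          rw [hz]
          ring)
      rw [h3, ← int_mul_E hθ ((hp.mul hF).sub (hp.mul hG.top))]
      refine integral_eq_zero_of_ae ?_
      filter_upwards [E_sub (W := D) (hp.mul hF) (hp.mul hG.top), e f hf] with z h4 h5
      rw [h4, h5, sub_self, mul_zero]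
      rfl
    have h3 : ∫ z, θ z * b z * (F z - G z) ∂Z.μ = ∫ z, b z * (θ z * (F z - G z)) ∂Z.μ :=
      integral_congr_ae (Eventually.of_forall fun z => by ring)
    rw [h3, ← int_mul_E hb (hθ.top.mul hd)]
    refine integral_eq_zero_of_ae ?_
    filter_upwards [h2] with z hz
    rw [hz]
    exact mul_zero _
  filter_upwards [h1, E_sub (W := D ⊔ h.row J A) hF hG.top, hG.E_self] with z h2 h3 h4
  rw [h3, h4] at h2
  exact sub_eq_zero.1 h2

theorem LSD.lc (h : LSD u U Y W Z y Θ) (H : Hyp u U) {A B : Fc Y} (e : W ≤ A) (e' : A ≤ B)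
    (hw : WM A B) {J : Finset ι} (hJ : J ≠ Finset.univ) {Φ : ι → Y.X → ℂ}
    (hΦ : ∀ a ∈ J, BM B (Φ a)) :
    (Θ ⊔ h.row Finset.univ A).E (fun z => ∏ a ∈ J, Φ a (y a z)) =ᵐ[Z.μ]
      fun z => ∏ a ∈ J, A.E (Φ a) (y a z) := by
  have hE : ∀ a ∈ J, BM A (A.E (Φ a)) := fun a ha => (hΦ a ha).E A
  refine alc_E_row h (alc_bm h hΦ)
    ((alc_bm_row h hE).mono ((h.row_mono J.subset_univ le_rfl).trans le_sup_right)) fun f hf => ?_
  have b1 : ∀ {Ψ : ι → Y.X → ℂ} {D : Fc Y}, (∀ a ∈ J, BM D (Ψ a)) → ∀ a,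
      BM ⊤ fun x => f a x * if a ∈ J then Ψ a x else 1 := fun hΨ a => by
    by_cases ha : a ∈ J
    · simpa only [ha, if_true] using (hf a).top.mul (hΨ a ha).top
    · simpa only [ha, if_false] using (hf a).top.mul (bm_const 1)
  have b2 : ∀ (Ψ : ι → Y.X → ℂ) (t : ι → Y.X), ∏ a, (f a (t a) * if a ∈ J then Ψ a (t a) else 1) =
      (∏ a, f a (t a)) * ∏ a ∈ J, Ψ a (t a) := fun Ψ t => by
    rw [Finset.prod_mul_distrib, Finset.prod_ite_mem, Finset.univ_inter]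
  have b3 : ∀ (Ψ : ι → Y.X → ℂ) n,
      pr Y u Finset.univ (fun a x => f a x * if a ∈ J then Ψ a x else 1) n =
        fun x => pr Y u Finset.univ f n x * pr Y u J Ψ n x := fun Ψ n =>
    funext fun x => b2 Ψ _
  obtain ⟨C, hC⟩ := alc_bd_pr (u := u) (J := Finset.univ) fun a _ => hf a
  have h1 := h.lq H.le (b1 hΦ) (b1 hE) (nul_mono (fun _ => norm_nonneg _) (fun n => ?_)
    (nul_mul C (hr_full (H.hr J hJ) e' hw hΦ)))
  · simpa only [b2] using h1
  have p1 := bm_pr (u := u) (J := Finset.univ) (fun a _ => hf a) n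
  have p2 := bm_pr (u := u) hΦ n
  have p3 := bm_pr (u := u) hE n
  have p4 := (p2.E A).sub p3
  have q1 := p1.top.mul p2.top
  have q2 := p1.mul (p2.E A)
  have q3 := p1.mul p3
  have r1 : W.E (fun x => pr Y u Finset.univ f n x * pr Y u J Φ n x) =ᵐ[Y.μ]
      W.E fun x => pr Y u Finset.univ f n x * A.E (pr Y u J Φ n) x :=
    (E_E e).symm.trans (E_congr (E_mul p1 p2.top))
  rw [b3, b3, L2_congr r1, ← L2_sub (q2.E W).memLp (q3.E W).memLp,
    ← L2_congr (E_sub q2.top q3.top), ← L2_sub (p2.E A).memLp p3.memLp]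
  refine (norm_L2_E_le (q2.sub q3).top).trans ?_
  simpa only [mul_sub] using (hC n).norm_L2_mul p4.memLp

theorem LSD.lc' (h : LSD u U Y W Z y Θ) (H : Hyp u U) {A B : Fc Y} (e : W ≤ A) (e' : A ≤ B)
    (hw : WM A B) {J : Finset ι} {a : ι} (ha : a ∉ J) (hJ : insert a J ≠ Finset.univ) :
    CI (pb (h.hom a) A) (Θ ⊔ h.row Finset.univ A ⊔ h.row J B) (pb (h.hom a) B) := by
  have e1 : pb (h.hom a) A ≤ Θ ⊔ h.row Finset.univ A :=
    (h.le_row (Finset.mem_univ a) A).trans le_sup_right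
  refine ci_of_E (e1.trans le_sup_left) fun b hb => ?_
  obtain ⟨Φ, hΦ, e2⟩ := exists_of_bm_pb _ hb
  have hG := bm_pb (h.hom a) (hΦ.E A)
  refine hG.congr ((E_congr e2).trans (alc_E_row h (bm_pb_top (h.hom a) hΦ)
    (hG.mono (e1.trans le_sup_left)) fun f hf => ?_)).symm
  have h1 := h.lc H e e' hw hJ (Φ := Function.update f a Φ) fun j _ => by
    by_cases hj : j = a
    · rwa [hj, Function.update_self]
    · rw [Function.update_of_ne hj]
      exact hf j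
  have h2 := h.lc H e e' hw (J := J) (fun hh => ha (hh ▸ Finset.mem_univ a)) fun j _ => hf j
  have b1 : ∀ (g : (Y.X → ℂ) → Y.X → ℂ) z,
      ∏ j ∈ insert a J, g (Function.update f a Φ j) (y j z) =
        (∏ j ∈ J, g (f j) (y j z)) * g Φ (y a z) := fun g z => by
    rw [Finset.prod_insert ha, Function.update_self, mul_comm]
    congr 1
    exact Finset.prod_congr rfl fun j hj => by
      rw [Function.update_of_ne (ne_of_mem_of_not_mem hj ha)]
  have b2 := b1 id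
  simp only [id] at b2
  simp only [b2, b1 A.E] at h1
  simp only [mul_comm _ (A.E Φ (y a _))] at h1 ⊢
  filter_upwards [h1, h2, E_mul (hG.mono e1) (alc_bm h (J := J) fun j _ => hf j)] with z c1 c2 c3
  rw [c1, c3, c2]

theorem LSD.lrow (h : LSD u U Y W Z y Θ) (H : Hyp u U) {A B : Fc Y} (e : W ≤ A) (e' : A ≤ B)
    (hw : WM A B) {J : Finset ι} (hJ : J ≠ Finset.univ) :
    CI (Θ ⊔ h.row J A) (Θ ⊔ h.row Finset.univ A) (h.row J B) := by
  rcases J.eq_empty_or_nonempty with rfl | hne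
  · exact (ci_of_le (by simp [LSD.row])).symm
  refine ci_of_E_appr (sup_le_sup_left (h.row_mono J.subset_univ le_rfl) _)
    (fun _ hb => h.appr hne hb) ?_
  rintro b - ⟨f, hf, e1⟩
  exact ((alc_bm_row h fun a _ => (hf a).E A).mono le_sup_right).congr
    ((E_congr e1).trans (h.lc H e e' hw hJ fun a _ => hf a)).symm

theorem LSD.ld (h : LSD u U Y W Z y Θ) {B1 B2 : Fc Y} (hc : CI W B1 B2) :
    CI Θ (h.row Finset.univ B1) (h.row Finset.univ B2) := by
  rcases (Finset.univ : Finset ι).eq_empty_or_nonempty with h0 | hne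
  · exact ci_of_le (by simp [LSD.row, h0])
  refine ci_of_appr (fun _ hb => h.appr hne hb) (fun _ hb => h.appr hne hb) ?_
  rintro a b - - ⟨f, hf, e1⟩ ⟨g, hg, e2⟩
  have h1 := alc_lq h (f := fun (_ : Unit) j x => f j x * g j x)
    (g := fun i : Bool => if i then f else g) (fun _ j => (hf j).top.mul (hg j).top)
    (by rintro (_ | _) j; exacts [(hg j).top, (hf j).top]) (by
      have : ∀ n, L2 Y.μ (alc_c u W (fun (_ : Unit) j x => f j x * g j x) n) =
          L2 Y.μ (alc_c u W (fun i : Bool => if i then f else g) n) := fun n => by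
        refine L2_congr ?_
        filter_upwards [ci_iff_mul.1 hc _ _ (bm_pr (u := u) (J := Finset.univ) (fun j _ => hf j) n)
          (bm_pr (u := u) (J := Finset.univ) (fun j _ => hg j) n)] with x hx
        have e3 : pr Y u Finset.univ (fun j x => f j x * g j x) n =
            fun x => pr Y u Finset.univ f n x * pr Y u Finset.univ g n x :=
          funext fun _ => Finset.prod_mul_distrib
        simpa [alc_c, e3] using hx
      simp only [this, sub_self, norm_zero]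
      have e4 : (av fun _ : ℕ => (0 : ℝ)) = fun _ => 0 := funext fun N => by simp [av]
      rw [e4]
      exact tendsto_const_nhds)
  filter_upwards [h1, E_congr (W := Θ) (e1.mul e2), E_congr (W := Θ) e1, E_congr (W := Θ) e2]
    with z c1 c2 c3 c4
  rw [c3, c4]
  simp only [alc_C, Finset.prod_mul_distrib, Finset.univ_unique, Finset.prod_singleton,
    Fintype.prod_bool, if_true, Bool.false_eq_true, if_false] at c1
  exact c2.trans c1

theorem LSD.lw (h : LSD u U Y W Z y Θ) (H : Hyp u U) {B : Fc Y} (e : W ≤ B) (hw : WM W B)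
    {J : Finset ι} {a : ι} (ha : a ∉ J) (hJ : insert a J ≠ Finset.univ) {Φ : Y.X → ℂ}
    (hΦ : BM B Φ) :
    (cl (Θ ⊔ h.row J B)).E (fun z => Φ (y a z)) =ᵐ[Z.μ] fun z => W.E Φ (y a z) := by
  have e1 : pb (h.hom a) W ≤ Θ ⊔ h.row J B := (h.la H.le a).trans le_sup_left
  have h1 := fw (wm_pb (h.hom a) hw) (pb_mono _ e) e1
    ((h.lc' H le_rfl e hw ha hJ).mono (sup_le_sup_right le_sup_left _) le_rfl)
  exact (h1.E_eq (e1.trans (le_cl _)) (bm_pb _ hΦ)).trans (E_pb _ hΦ.top)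

end Pool.Agent.Lib.MP_1db5af_an.Th
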