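import Pool.Agent.Lib.MP_1db5af_an.Th.XTf
import Pool.Agent.Lib.MP_1db5af_an.Th.APi

set_option autoImplicit false

namespace Pool.Agent.Lib.MP_1db5af_an.Th

open MeasureTheory ProbabilityTheory Filter Topology ComplexConjugate
open scoped ENNReal NNReal InnerProductSpace

variable {ι : Type} [Fintype ι] [DecidableEq ι] {u : ι → ℕ → ℤ} {U : Ultrafilter ℕ}

theorem atrib_lip {Z : CS} {a a' h : Z.X → ℂ} {C : ℝ} (ha : BM ⊤ a) (ha' : BM ⊤ a')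
    (hh : Bd Z.μ C h) :
    ‖∫ z, h z * a z ∂Z.μ - ∫ z, h z * a' z ∂Z.μ‖ ≤ C * ‖L2 Z.μ a - L2 Z.μ a'‖ := by
  have hb : BM ⊤ h := bm_top_iff.2 ⟨C, hh⟩
  rw [← integral_sub (hb.mul ha).integrable (hb.mul ha').integrable, ← L2_sub ha.memLp ha'.memLp]
  simp only [← mul_sub]
  exact (norm_integral_le_L2 (hb.mul (ha.sub ha')).memLp).trans (hh.norm_L2_mul (ha.sub ha').memLp)

/-- The integral passes to the infimum of a chain. -/
theorem atrib_chain {Z : CS} {φ φ' k : Z.X → ℂ} (hφ : BM ⊤ φ) (hφ' : BM ⊤ φ') (hk : BM ⊤ k)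
    {c : Set (Fc Z × Fc Z)} (hne : c.Nonempty) (hc : IsChain (· ≤ ·) c) {t : ℂ}
    (ht : ∀ p ∈ c, ∫ z, p.1.E φ z * p.2.E φ' z * k z ∂Z.μ = t) :
    ∫ z, (sInf (Prod.fst '' c)).E φ z * (sInf (Prod.snd '' c)).E φ' z * k z ∂Z.μ = t := by
  obtain ⟨C, hC⟩ := hφ.1
  obtain ⟨C', hC'⟩ := hφ'.1
  obtain ⟨D, hD⟩ := hk.1
  have h1 : DirectedOn (· ≥ ·) (Prod.fst '' c) := by
    rintro _ ⟨p, hp, rfl⟩ _ ⟨q, hq, rfl⟩
    rcases hc.total hp hq with h | h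
    · exact ⟨p.1, ⟨p, hp, rfl⟩, le_rfl, h.1⟩
    · exact ⟨q.1, ⟨q, hq, rfl⟩, h.1, le_rfl⟩
  have h2 : DirectedOn (· ≥ ·) (Prod.snd '' c) := by
    rintro _ ⟨p, hp, rfl⟩ _ ⟨q, hq, rfl⟩
    rcases hc.total hp hq with h | h
    · exact ⟨p.2, ⟨p, hp, rfl⟩, le_rfl, h.2⟩
    · exact ⟨q.2, ⟨q, hq, rfl⟩, h.2, le_rfl⟩
  have hC0 := hC.nonneg
  have hC0' := hC'.nonneg
  have hD0 := hD.nonneg
  refine eq_of_forall_dist_le fun ε hε => ?_
  have hM : 0 < C * D + C' * D + 1 := by positivity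
  obtain ⟨_, ⟨p, hp, rfl⟩, h3⟩ := E_chain (hne.image _) h1 hφ (div_pos hε hM)
  obtain ⟨_, ⟨q, hq, rfl⟩, h4⟩ := E_chain (hne.image _) h2 hφ' (div_pos hε hM)
  obtain ⟨r, hr, hrp, hrq⟩ : ∃ r ∈ c, r ≤ p ∧ r ≤ q := by
    rcases hc.total hp hq with h | h
    · exact ⟨p, hp, le_rfl, h⟩
    · exact ⟨q, hq, h, le_rfl⟩
  have h5 := h3 r.1 ⟨r, hr, rfl⟩ hrp.1
  have h6 := h4 r.2 ⟨r, hr, rfl⟩ hrq.2
  have h7 := atrib_lip (hφ.E r.1).top (hφ.E (sInf (Prod.fst '' c))).top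
    ((hC'.condExp (m := r.2.m)).mul hD)
  have h8 := atrib_lip (hφ'.E r.2).top (hφ'.E (sInf (Prod.snd '' c))).top
    ((hC.condExp (m := (sInf (Prod.fst '' c)).m)).mul hD)
  have e1 : ∫ z, r.2.E φ' z * k z * r.1.E φ z ∂Z.μ = t := by
    rw [← ht r hr]
    exact integral_congr_ae (Eventually.of_forall fun z => by ring)
  have e2 : ∫ z, r.2.E φ' z * k z * (sInf (Prod.fst '' c)).E φ z ∂Z.μ =
      ∫ z, (sInf (Prod.fst '' c)).E φ z * k z * r.2.E φ' z ∂Z.μ :=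
    integral_congr_ae (Eventually.of_forall fun z => by ring)
  have e3 : ∫ z, (sInf (Prod.fst '' c)).E φ z * k z * (sInf (Prod.snd '' c)).E φ' z ∂Z.μ =
      ∫ z, (sInf (Prod.fst '' c)).E φ z * (sInf (Prod.snd '' c)).E φ' z * k z ∂Z.μ :=
    integral_congr_ae (Eventually.of_forall fun z => by ring)
  rw [e1, e2] at h7
  rw [e3] at h8
  rw [dist_comm, dist_eq_norm]
  refine (norm_sub_le_norm_sub_add_norm_sub _ _ _).trans ((add_le_add h7 h8).trans ?_)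
  have h9 := mul_le_mul_of_nonneg_left h5 (mul_nonneg hC0' hD0)
  have h10 := mul_le_mul_of_nonneg_left h6 (mul_nonneg hC0 hD0)
  have h11 : (C * D + C' * D + 1) * (ε / (C * D + C' * D + 1)) = ε := mul_div_cancel₀ _ hM.ne'
  nlinarith [div_pos hε hM]

/-- A closed factor can be cut down without changing the integral. -/
theorem atrib_cut (H : Hyp u U) {Z : CS} {N Q : Fc Z} {o : ι} {g : ι → Z.X → ℂ} {F h : Z.X → ℂ}
    (cN : Closed N) (cQ : Closed Q) (d : IsDual Z u U o g F) (hh : BM Q h) :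
    ∫ z, h z * (N ⊓ Q).E (fun z => conj (F z)) z ∂Z.μ =
      ∫ z, h z * N.E (fun z => conj (F z)) z ∂Z.μ := by
  have hF := d.2.1
  have h1 := (tf H cN cQ (d.E H le_top cN d.1) (hF.E N)).trans (E_E inf_le_left)
  rw [← int_mul_E hh (hF.star.E N).top]
  refine integral_congr_ae ?_
  filter_upwards [h1, E_star (W := N ⊓ Q) hF, E_congr (W := Q) (E_star (W := N) hF),
    E_star (W := Q) (hF.E N).top] with z e1 e2 e3 e4
  rw [e2, e3, e4, e1]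

theorem tri_min (H : Hyp u U) {Z : CS} {W A0 A1 P : Fc Z} {o o' : ι} {g g' : ι → Z.X → ℂ}
    {F F' k : Z.X → ℂ} (cW : Closed W) (c0 : Closed A0) (c1 : Closed A1) (cP : Closed P)
    (e0 : W ≤ A0) (e1 : W ≤ A1) (eP : W ≤ P) (h1 : CI W A0 A1) (h2 : CI W A0 P) (h3 : CI W A1 P)
    (d : IsDual Z u U o g F) (d' : IsDual Z u U o' g' F') (hF : BM A0 F) (hF' : BM A1 F')
    (hk : BM P k) (h0 : W.E F =ᵐ[Z.μ] 0) (hne : ∫ z, conj (F z) * conj (F' z) * k z ∂Z.μ ≠ 0) :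
    ∃ (N N' : Fc Z) (g0 : ι → Z.X → ℂ) (G : Z.X → ℂ), Tri u U o Z W N N' P g0 G := by
  have hφ := hF.star
  have hφ' := hF'.star
  let S : Set (Fc Z × Fc Z)ᵒᵈ := {p | Closed p.1 ∧ Closed p.2 ∧ W ≤ p.1 ∧ W ≤ p.2 ∧ p.1 ≤ A0 ∧
    p.2 ≤ A1 ∧ ∫ z, Fc.E p.1 (fun z => conj (F z)) z * Fc.E p.2 (fun z => conj (F' z)) z * k z ∂Z.μ
      = ∫ z, conj (F z) * conj (F' z) * k z ∂Z.μ}
  have hS : OrderDual.toDual (A0, A1) ∈ S := by
    refine ⟨c0, c1, e0, e1, le_rfl, le_rfl, integral_congr_ae ?_⟩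
    filter_upwards [hφ.E_self, hφ'.E_self] with z a b
    change A0.E (fun z => conj (F z)) z * A1.E (fun z => conj (F' z)) z * k z = _
    rw [a, b]
  obtain ⟨⟨N, N'⟩, -, hm⟩ := zorn_le_nonempty₀ S (fun c hcS hc y hy => by
    refine ⟨(sInf (Prod.fst '' c), sInf (Prod.snd '' c)), ⟨closed_sInf ?_, closed_sInf ?_,
      le_sInf ?_, le_sInf ?_, le_trans (sInf_le ⟨y, hy, rfl⟩) (hcS hy).2.2.2.2.1,
      le_trans (sInf_le ⟨y, hy, rfl⟩) (hcS hy).2.2.2.2.2.1,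
      atrib_chain (c := c) hφ.top hφ'.top hk.top ⟨y, hy⟩ hc.symm
        fun p hp => (hcS hp).2.2.2.2.2.2⟩,
      fun z hz => ⟨sInf_le ⟨z, hz, rfl⟩, sInf_le ⟨z, hz, rfl⟩⟩⟩
    · rintro _ ⟨p, hp, rfl⟩
      exact (hcS hp).1
    · rintro _ ⟨p, hp, rfl⟩
      exact (hcS hp).2.1
    · rintro _ ⟨p, hp, rfl⟩
      exact (hcS hp).2.2.1
    · rintro _ ⟨p, hp, rfl⟩
      exact (hcS hp).2.2.2.1) _ hS
  obtain ⟨cN, cN', wN, wN', lN, lN', hI⟩ : Closed N ∧ Closed N' ∧ W ≤ N ∧ W ≤ N' ∧ N ≤ A0 ∧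
    N' ≤ A1 ∧ ∫ z, N.E (fun z => conj (F z)) z * N'.E (fun z => conj (F' z)) z * k z ∂Z.μ
      = ∫ z, conj (F z) * conj (F' z) * k z ∂Z.μ := hm.prop
  have wl : ∀ M : Fc Z, W ≤ cl (M ⊔ P) := fun M => (eP.trans le_sup_right).trans (le_cl _)
  have hb : ∀ (M : Fc Z) (φ : Z.X → ℂ), BM ⊤ φ → BM (cl (M ⊔ P)) fun z => M.E φ z * k z :=
    fun M φ h => ((h.E M).mono (le_sup_left.trans (le_cl _))).mul
      (hk.mono (le_sup_right.trans (le_cl _)))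
  have a1 : N ≤ cl (N' ⊔ P) := by
    have h4 := atrib_cut H cN (cl_closed (N' ⊔ P)) d (hb N' _ hφ'.top)
    have h5 : OrderDual.toDual (N ⊓ cl (N' ⊔ P), N') ∈ S := by
      refine ⟨cN.inf (cl_closed _), cN', le_inf wN (wl _), wN', inf_le_left.trans lN, lN', ?_⟩
      rw [← hI]
      refine Eq.trans (integral_congr_ae (Eventually.of_forall fun z => ?_))
        (h4.trans (integral_congr_ae (Eventually.of_forall fun z => ?_)))
      · change (N ⊓ cl (N' ⊔ P)).E _ z * N'.E _ z * k z = _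
        ring
      · ring
    exact (hm.le_of_ge h5 ⟨inf_le_left, le_rfl⟩).1.trans inf_le_right
  have a2 : N' ≤ cl (N ⊔ P) := by
    have h4 := atrib_cut H cN' (cl_closed (N ⊔ P)) d' (hb N _ hφ.top)
    have h5 : OrderDual.toDual (N, N' ⊓ cl (N ⊔ P)) ∈ S := by
      refine ⟨cN, cN'.inf (cl_closed _), wN, le_inf wN' (wl _), lN, inf_le_left.trans lN', ?_⟩
      rw [← hI]
      refine Eq.trans (integral_congr_ae (Eventually.of_forall fun z => ?_))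
        (h4.trans (integral_congr_ae (Eventually.of_forall fun z => ?_)))
      · change N.E _ z * (N' ⊓ cl (N ⊔ P)).E _ z * k z = _
        ring
      · ring
    exact (hm.le_of_ge h5 ⟨le_rfl, inf_le_left⟩).2.trans inf_le_right
  refine ⟨N, N', _, _, cW, cN, cN', cP, wN, wN', eP, h1.mono lN lN', h2.mono lN le_rfl,
    h3.mono lN' le_rfl, a1, a2, d.E H le_top cN d.1, fun a => (d.1 a).E N, fun h => hne ?_,
    (E_E wN).trans h0⟩
  rw [← hI, ← integral_zero Z.X ℂ (μ := Z.μ)]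
  refine integral_congr_ae ?_
  filter_upwards [h, E_star (W := N) hF.top] with z a b
  rw [b, a]
  simp

end Pool.Agent.Lib.MP_1db5af_an.Th
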