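import Pool.Agent.Lib.MP_1db5af_an.Th.Ker

set_option autoImplicit false

namespace Pool.Agent.Lib.MP_1db5af_an.Th

open MeasureTheory ProbabilityTheory Filter Topology ComplexConjugate
open scoped ENNReal NNReal InnerProductSpace

variable {A A' A'' : Type} [AddCommGroup A] [AddCommGroup A'] [AddCommGroup A''] [Countable A]
  [Countable A'] [Countable A''] {τ : ℤ → A →+ A} {τ' : ℤ → A' →+ A'} {τ'' : ℤ → A'' →+ A''}
  {Ω Y : MS}

omit [Countable A] in
theorem rsg_inv (h : Act τ) (k : ℤ) (x : A) : τ k (τ (-k) x) = x := by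
  rw [← h.add, add_neg_cancel, h.zero]

omit [Countable A] in
theorem rsg_inv' (h : Act τ) (k : ℤ) (x : A) : τ (-k) (τ k x) = x := by
  rw [← h.add, neg_add_cancel, h.zero]

omit [Countable A] in
theorem rsg_inj (h : Act τ) (k : ℤ) : Function.Injective (τ k) :=
  Function.LeftInverse.injective (rsg_inv' h k)

omit [Countable A] in
theorem rsg_ex (h : Act τ) (k : ℤ) {p q : A → Prop} (e : ∀ y, p y ↔ q (τ k y)) :
    (∃ y, p y) ↔ ∃ y, q y :=
  ⟨fun ⟨y, hy⟩ => ⟨_, (e y).1 hy⟩, fun ⟨y, hy⟩ => ⟨τ (-k) y, (e _).2 (by rwa [rsg_inv h])⟩⟩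

theorem rsg_span {R M X : Type} [Ring R] [AddCommGroup M] [Module R M] [Countable M]
    [MeasurableSpace X] {F : X → Set M} (hF : ∀ x, MeasurableSet {ω | x ∈ F ω}) (x : M) :
    MeasurableSet {ω | x ∈ Submodule.span R (F ω)} := by
  have e : ∀ ω, x ∈ Submodule.span R (F ω) ↔
      ∃ T : Finset M, (∀ y, y ∈ T → y ∈ F ω) ∧ x ∈ Submodule.span R (T : Set M) := fun ω =>
    ⟨Submodule.mem_span_finite_of_mem_span, fun ⟨T, h1, h2⟩ => Submodule.span_mono h1 h2⟩
  simp only [e]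
  exact measurableSet_setOfPred.2 (Measurable.exists fun T => (Measurable.forall fun y =>
    measurable_const.imp (measurableSet_setOfPred.1 (hF y))).and measurable_const)

theorem act_tau2 (h : Act τ) (h' : Act τ') : Act (tau2 τ τ') := by
  exact ⟨fun x => Prod.ext (h.zero _) (h'.zero _), fun k l x => Prod.ext (h.add _ _ _) (h'.add _ _ _)⟩

theorem act_tau {ι R : Type} [AddCommGroup R] : Act (tau ι R) := by
  refine ⟨fun x => ?_, fun k l x => ?_⟩
  · have e : shI (ι := ι) 0 = id := funext fun i => Prod.ext rfl (add_zero _)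
    change Finsupp.mapDomain (shI 0) x = x
    rw [e, Finsupp.mapDomain_id]
  · have e : shI (ι := ι) (k + l) = shI k ∘ shI l := funext fun i =>
      Prod.ext rfl (by change i.2 + (k + l) = i.2 + l + k; ring)
    change Finsupp.mapDomain (shI (k + l)) x = Finsupp.mapDomain (shI k) (Finsupp.mapDomain (shI l) x)
    rw [e, Finsupp.mapDomain_comp]

theorem tau_single {ι R : Type} [AddCommGroup R] (k : ℤ) (i : ι × ℤ) (c : R) :
    tau ι R k (Finsupp.single i c) = Finsupp.single (shI k i) c := by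
  exact Finsupp.mapDomain_single

theorem tau_ee {ι R : Type} [AddCommGroup R] [One R] (k : ℤ) (a : ι) (l : ℤ) :
    tau ι R k (ee a l) = ee a (l + k) := by
  exact tau_single k (a, l) 1

theorem tau_smul {ι R : Type} [Ring R] (k : ℤ) (c : R) (x : ι × ℤ →₀ R) :
    tau ι R k (c • x) = c • tau ι R k x := by
  exact Finsupp.mapDomain_smul c x

theorem mact_shS (h : Act τ) : MAct (shS τ) := by
  refine ⟨fun s => funext fun x => congrArg s (h.zero x), fun k l s => funext fun x => ?_,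
    fun k => measurable_pi_lambda _ fun x => measurable_pi_apply _⟩
  exact congrArg s (by rw [add_comm, h.add])

theorem cont_shS (k : ℤ) : Continuous (shS τ k) := by
  exact continuous_pi fun x => continuous_apply _

theorem dec_enc (K : AddSubgroup A) : dec (enc K) = K := by
  have e : {x | enc K x = true} = (K : Set A) := Set.ext fun x => by simp [enc]
  rw [dec, e, AddSubgroup.closure_eq]

theorem meas_closure {X : Type} [MeasurableSpace X] {F : X → Set A}
    (hF : ∀ x, MeasurableSet {ω | x ∈ F ω}) (x : A) :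
    MeasurableSet {ω | x ∈ AddSubgroup.closure (F ω)} := by
  have e := rsg_span (R := ℤ) hF x
  simp only [← Submodule.span_int_eq_addSubgroupClosure]
  exact e

theorem meas_span {R M X : Type} [Ring R] [Countable R] [AddCommGroup M] [Module R M] [Countable M]
    [MeasurableSpace X] {F : X → Set M} (hF : ∀ x, MeasurableSet {ω | x ∈ F ω}) (x : M) :
    MeasurableSet {ω | x ∈ Submodule.span R (F ω)} := by
  exact rsg_span hF x

theorem meas_dec (x : A) : MeasurableSet {s : A → Bool | x ∈ dec s} := by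
  exact meas_closure (F := fun s : A → Bool => {x | s x = true})
    (fun y => measurable_pi_apply (X := fun _ : A => Bool) y (measurableSet_singleton true)) x

theorem meas_enc {X : Type} [MeasurableSpace X] {K : X → AddSubgroup A}
    (hK : ∀ x, MeasurableSet {ω | x ∈ K ω}) : Measurable fun ω => enc (K ω) := by
  refine measurable_pi_lambda _ fun x => measurable_to_bool ?_
  convert hK x using 1
  ext ω
  simp [enc]

theorem closure_act (h : Act τ) {F F' : Set A} {k : ℤ} (hF : ∀ x, x ∈ F' ↔ τ k x ∈ F) (x : A) :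
    x ∈ AddSubgroup.closure F' ↔ τ k x ∈ AddSubgroup.closure F := by
  have key : ∀ {G G' : Set A} {l : ℤ}, (∀ x, x ∈ G' → τ l x ∈ G) → ∀ x,
      x ∈ AddSubgroup.closure G' → τ l x ∈ AddSubgroup.closure G := fun {G G' l} hG x hx =>
    (AddSubgroup.closure_le ((AddSubgroup.closure G).comap (τ l))).2
      (fun y hy => AddSubgroup.subset_closure (hG y hy)) hx
  refine ⟨key (fun x => (hF x).1) x, fun hx => ?_⟩
  have e := key (l := -k) (fun y hy => (hF _).2 (by rwa [rsg_inv h])) _ hx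
  rwa [rsg_inv' h] at e

theorem dec_shS (h : Act τ) (k : ℤ) (s : A → Bool) (x : A) :
    x ∈ dec (shS τ k s) ↔ τ k x ∈ dec s := by
  exact closure_act h (F := {y | s y = true}) (F' := {y | shS τ k s y = true}) (fun _ => Iff.rfl) x

theorem Rsg.enc_eqv {K : Ω.X → AddSubgroup A} (h : Rsg Ω τ K) :
    ∀ᵐ ω ∂Ω.ν, ∀ k, enc (K (Ω.T k ω)) = shS τ k (enc (K ω)) := by
  filter_upwards [h.eqv] with ω hω k
  funext x
  exact congrArg (fun p : Prop => @decide p (Classical.propDecidable p)) (propext (hω k x))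

theorem rsg_dec (h : Act τ) {s : Ω.X → A → Bool} (hs : Measurable s)
    (he : ∀ k, ∀ᵐ ω ∂Ω.ν, s (Ω.T k ω) = shS τ k (s ω)) : Rsg Ω τ fun ω => dec (s ω) := by
  refine ⟨fun x => hs (meas_dec x), ?_⟩
  filter_upwards [ae_all_iff.2 he] with ω hω k x
  rw [hω k, dec_shS h]

theorem rsg_top : Rsg Ω τ fun _ => ⊤ := by
  exact ⟨fun x => by simp, Eventually.of_forall fun _ _ _ => Iff.rfl⟩

theorem clo_top : Clo Ω τ fun _ => ⊤ := by
  intro x y
  have e : (av fun _ : ℕ => (0 : ℝ)) = fun _ => 0 := funext fun N => by simp [av]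
  simp only [AddSubgroup.mem_top, not_true, false_and, and_false, Set.ofPred_false,
    measureReal_empty, Nul, e]
  exact tendsto_const_nhds

theorem rsg_closure (h : Act τ) {F : Ω.X → Set A} (hF : ∀ x, MeasurableSet {ω | x ∈ F ω})
    (he : ∀ᵐ ω ∂Ω.ν, ∀ k x, x ∈ F (Ω.T k ω) ↔ τ k x ∈ F ω) :
    Rsg Ω τ fun ω => AddSubgroup.closure (F ω) := by
  exact ⟨meas_closure hF, he.mono fun ω hω k => closure_act h (hω k)⟩

theorem Rsg.inf {K K' : Ω.X → AddSubgroup A} (h : Rsg Ω τ K) (h' : Rsg Ω τ K') :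
    Rsg Ω τ fun ω => K ω ⊓ K' ω := by
  refine ⟨fun x => (h.meas x).inter (h'.meas x), ?_⟩
  filter_upwards [h.eqv, h'.eqv] with ω h1 h2 k x
  exact and_congr (h1 k x) (h2 k x)

theorem Rsg.sup (hτ : Act τ) {K K' : Ω.X → AddSubgroup A} (h : Rsg Ω τ K) (h' : Rsg Ω τ K') :
    Rsg Ω τ fun ω => K ω ⊔ K' ω := by
  simp only [AddSubgroup.sup_eq_closure]
  refine rsg_closure hτ (fun x => (h.meas x).union (h'.meas x)) ?_
  filter_upwards [h.eqv, h'.eqv] with ω h1 h2 k x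
  exact or_congr (h1 k x) (h2 k x)

theorem Rsg.comap {φ : A →+ A'} (hφ : ∀ k x, φ (τ k x) = τ' k (φ x)) {K : Ω.X → AddSubgroup A'}
    (h : Rsg Ω τ' K) : Rsg Ω τ fun ω => (K ω).comap φ := by
  refine ⟨fun x => h.meas (φ x), h.eqv.mono fun ω hω k x => ?_⟩
  rw [AddSubgroup.mem_comap, AddSubgroup.mem_comap, hφ]
  exact hω k _

theorem Rsg.map (hτ : Act τ) (hτ' : Act τ') {φ : A →+ A'} (hφ : ∀ k x, φ (τ k x) = τ' k (φ x))
    {K : Ω.X → AddSubgroup A} (h : Rsg Ω τ K) : Rsg Ω τ' fun ω => (K ω).map φ := by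
  refine ⟨fun x => measurableSet_setOfPred.2 (Measurable.exists fun y =>
    (measurableSet_setOfPred.1 (h.meas y)).and measurable_const), h.eqv.mono fun ω hω k x => ?_⟩
  refine rsg_ex hτ k fun y => and_congr (hω k y) ?_
  rw [hφ]
  exact (rsg_inj hτ' k).eq_iff.symm

theorem Clo.comap {φ : A →+ A'} (hφ : ∀ k x, φ (τ k x) = τ' k (φ x)) {K : Ω.X → AddSubgroup A'}
    (h : Clo Ω τ' K) : Clo Ω τ fun ω => (K ω).comap φ := by
  intro x y
  have e := h (φ x) (φ y)
  simpa only [AddSubgroup.mem_comap, map_sub, hφ, AddSubgroup.mem_top] using e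

theorem Rsg.prod {K : Ω.X → AddSubgroup A} {K' : Ω.X → AddSubgroup A'} (h : Rsg Ω τ K)
    (h' : Rsg Ω τ' K') : Rsg Ω (tau2 τ τ') fun ω => (K ω).prod (K' ω) := by
  refine ⟨fun x => (h.meas x.1).inter (h'.meas x.2), ?_⟩
  filter_upwards [h.eqv, h'.eqv] with ω h1 h2 k x
  exact and_congr (h1 k x.1) (h2 k x.2)

open Classical in
theorem Rsg.ite {K K' : Ω.X → AddSubgroup A} (h : Rsg Ω τ K) (h' : Rsg Ω τ K') {E : Set Ω.X}
    (hE : MeasurableSet E) (hi : ∀ᵐ ω ∂Ω.ν, ∀ k, Ω.T k ω ∈ E ↔ ω ∈ E) :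
    Rsg Ω τ fun ω => if ω ∈ E then K ω else K' ω := by
  refine ⟨fun x => ?_, ?_⟩
  · convert (hE.inter (h.meas x)).union (hE.compl.inter (h'.meas x)) using 1
    ext ω
    by_cases hω : ω ∈ E <;> simp [hω]
  · filter_upwards [h.eqv, h'.eqv, hi] with ω h1 h2 h3 k x
    by_cases hω : ω ∈ E
    · rw [if_pos hω, if_pos ((h3 k).2 hω)]
      exact h1 k x
    · rw [if_neg hω, if_neg (mt (h3 k).1 hω)]
      exact h2 k x

open Classical in
theorem Clo.ite {K K' : Ω.X → AddSubgroup A} (h : Clo Ω τ K) (h' : Clo Ω τ K') (E : Set Ω.X) :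
    Clo Ω τ fun ω => if ω ∈ E then K ω else K' ω := by
  intro x y
  refine nul_mono (fun _ => measureReal_nonneg) (fun l => ?_) (nul_add (h x y) (h' x y))
  refine (measureReal_mono fun ω hω => ?_).trans (measureReal_union_le _ _)
  by_cases e : ω ∈ E
  · exact Or.inl (by simpa only [Set.mem_ofPred_eq, if_pos e] using hω)
  · exact Or.inr (by simpa only [Set.mem_ofPred_eq, if_neg e] using hω)

theorem Rsg.ext {K : Ω.X → AddSubgroup A} (h : Rsg Ω τ K) {π : Y.X → Ω.X} (hπ : Ext Y Ω π) :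
    Rsg Y τ fun y => K (π y) := by
  refine ⟨fun x => hπ.qmp.measurable (h.meas x), ?_⟩
  filter_upwards [hπ.qmp.ae h.eqv, ae_all_iff.2 hπ.comm] with y h1 h2 k x
  rw [h2 k]
  exact h1 k x

theorem RW.ext {K B : Ω.X → AddSubgroup A} (h : RW Ω τ K B) (hK : Rsg Ω τ K) (hB : Rsg Ω τ B)
    {π : Y.X → Ω.X} (hπ : Ext Y Ω π) : RW Y τ (fun y => K (π y)) fun y => B (π y) := by
  intro x y
  have e := nul_ac hπ.qmp.absolutelyContinuous (h x y)
  have m : ∀ l : ℕ, MeasurableSet {ω | x ∈ B ω ∧ x ∉ K ω ∧ x - τ l y ∈ K ω} := fun l =>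
    (hB.meas x).inter ((hK.meas x).compl.inter (hK.meas _))
  simp only [map_measureReal_apply hπ.qmp.measurable (m _)] at e
  exact e

theorem RW.congr {K B K' B' : Ω.X → AddSubgroup A} (h : RW Ω τ K B)
    (e : ∀ᵐ ω ∂Ω.ν, K ω = K' ω ∧ B ω = B' ω) : RW Ω τ K' B' := by
  intro x y
  have e' : ∀ l : ℕ, Ω.ν.real {ω | x ∈ B' ω ∧ x ∉ K' ω ∧ x - τ l y ∈ K' ω} =
      Ω.ν.real {ω | x ∈ B ω ∧ x ∉ K ω ∧ x - τ l y ∈ K ω} := fun l =>
    measureReal_congr (eventuallyEq_set.2 (e.mono fun ω hω => by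
      simp only [Set.mem_ofPred_eq, hω.1, hω.2]))
  simp only [e']
  exact h x y

section Graph

variable {g g' : Ω.X → AddSubgroup (A × A')} {R : Ω.X → AddSubgroup A} {R' : Ω.X → AddSubgroup A'}

theorem Rsg.gdom (hτ : Act τ) (hτ' : Act τ') (h : Rsg Ω (tau2 τ τ') g) :
    Rsg Ω τ fun ω => gdom (g ω) := by
  exact h.map (act_tau2 hτ hτ') hτ (φ := AddMonoidHom.fst A A') fun _ _ => rfl

theorem Rsg.gker (h : Rsg Ω (tau2 τ τ') g) : Rsg Ω τ fun ω => gker (g ω) := by
  exact Rsg.comap (τ := τ) (τ' := tau2 τ τ') (φ := AddMonoidHom.inl A A')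
    (fun k x => Prod.ext rfl (map_zero (τ' k)).symm) h

theorem Rsg.gpre (hτ : Act τ) (hτ' : Act τ') (h : Rsg Ω (tau2 τ τ') g) (h' : Rsg Ω τ' R') :
    Rsg Ω τ fun ω => gpre (g ω) (R' ω) := by
  exact (h.inf (h'.comap (φ := AddMonoidHom.snd A A') fun _ _ => rfl)).gdom hτ hτ'

theorem Rsg.gflip (h : Rsg Ω (tau2 τ τ') g) : Rsg Ω (tau2 τ' τ) fun ω => gflip (g ω) := by
  exact h.comap (φ := (AddEquiv.prodComm (M := A') (N := A)).toAddMonoidHom) fun _ _ => rfl

theorem Rsg.gid (h : Rsg Ω τ R) : Rsg Ω (tau2 τ τ) fun ω => gid (R ω) := by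
  exact h.comap (φ := AddMonoidHom.fst A A - AddMonoidHom.snd A A)
    fun k x => (map_sub (τ k) x.1 x.2).symm

theorem Rsg.gzero (h : Rsg Ω τ' R') : Rsg Ω (tau2 τ τ') fun ω => gzero (R' ω) := by
  exact h.comap (φ := AddMonoidHom.snd A A') fun _ _ => rfl

theorem Rsg.gcomp (hτ' : Act τ') (h : Rsg Ω (tau2 τ τ') g) {f : Ω.X → AddSubgroup (A' × A'')}
    (h' : Rsg Ω (tau2 τ' τ'') f) : Rsg Ω (tau2 τ τ'') fun ω => gcomp (g ω) (f ω) := by
  refine ⟨fun x => measurableSet_setOfPred.2 (Measurable.exists fun y =>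
    (measurableSet_setOfPred.1 (h.meas (x.1, y))).and (measurableSet_setOfPred.1 (h'.meas (y, x.2)))), ?_⟩
  filter_upwards [h.eqv, h'.eqv] with ω h1 h2 k x
  exact rsg_ex hτ' k fun y => and_congr (h1 k (x.1, y)) (h2 k (y, x.2))

theorem Rsg.gadd (hτ' : Act τ') (h : Rsg Ω (tau2 τ τ') g) (h' : Rsg Ω (tau2 τ τ') g') :
    Rsg Ω (tau2 τ τ') fun ω => gadd (g ω) (g' ω) := by
  refine ⟨fun x => measurableSet_setOfPred.2 (Measurable.exists fun y =>
    (measurableSet_setOfPred.1 (h.meas (x.1, y))).and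
      (measurableSet_setOfPred.1 (h'.meas (x.1, x.2 - y)))), ?_⟩
  filter_upwards [h.eqv, h'.eqv] with ω h1 h2 k x
  refine rsg_ex hτ' k fun y => and_congr (h1 k (x.1, y)) ((h2 k (x.1, x.2 - y)).trans ?_)
  change (τ k x.1, τ' k (x.2 - y)) ∈ g' ω ↔ (τ k x.1, τ' k x.2 - τ' k y) ∈ g' ω
  rw [map_sub]

theorem Rsg.gneg (h : Rsg Ω (tau2 τ τ') g) : Rsg Ω (tau2 τ τ') fun ω => gneg (g ω) := by
  exact Rsg.comap (τ := tau2 τ τ') (τ' := tau2 τ τ')
    (φ := (AddMonoidHom.id A).prodMap (-AddMonoidHom.id A'))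
    (fun k x => Prod.ext rfl (map_neg (τ' k) x.2).symm) h

end Graph

end Pool.Agent.Lib.MP_1db5af_an.Th
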