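import Pool.Agent.Lib.MP_1db5af_an.Th.XEe
import Pool.Agent.Lib.MP_1db5af_an.Th.Rsg

set_option autoImplicit false

namespace Pool.Agent.Lib.MP_1db5af_an.Th

open MeasureTheory ProbabilityTheory Filter Topology ComplexConjugate Finset
open scoped ENNReal NNReal InnerProductSpace

variable {Z : CS} {W M Og Oh : Fc Z} {g g' h h' sw pm : Z.X → Z.X}
variable {ι : Type} [Fintype ι] [DecidableEq ι] {u : ι → ℕ → ℤ}

theorem xrs_mul (hC : Cube W M Og Oh g g' h h' sw pm) {φ ψ : Z.X → ℂ} (h1 : EE M Og g φ)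
    (h2 : BM ⊤ ψ) :
    ∀ᵐ y ∂Z.μ, W.E φ y = φ y → W.E (fun y => φ y * ψ y) y = φ y * W.E ψ y := by
  have he := h1.1.E W
  have nrm : ∀ z : ℂ, ‖z‖ = 1 → z * conj z = 1 := fun z hz => by
    rw [Complex.mul_conj, Complex.normSq_eq_norm_sq, hz]
    simp
  have e1 : (fun y => (W.E φ y * conj (W.E φ y)) * (φ y * ψ y)) =ᵐ[Z.μ]
      fun y => W.E φ y * ψ y := by
    filter_upwards [h1.unit hC, h1.2.1] with y hy hn
    rcases hy with hy | hy
    · rw [hy, zero_mul, zero_mul, zero_mul]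
    · rw [hy, nrm _ hn, one_mul]
  filter_upwards [E_congr (W := W) e1, E_mul (he.mul he.star) (h1.1.top.mul h2), E_mul he h2,
    h1.2.1] with y a1 a2 a3 hn hy
  rw [a2, a3, hy, nrm _ hn, one_mul] at a1
  exact a1

section

variable {A : Type} [AddCommGroup A] [Countable A] {τ : ℤ → A →+ A} {Φ : A → Z.X → ℂ}
  (hC : Cube W M Og Oh g g' h h' sw pm) (hE : ∀ x, EE M Og g (Φ x)) (h0 : Φ 0 = fun _ => 1)
  (hadd : ∀ x x', Φ (x + x') =ᵐ[Z.μ] fun y => Φ x y * Φ x' y)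
  (hneg : ∀ x, Φ (-x) =ᵐ[Z.μ] fun y => conj (Φ x y))

include hC hE h0 hadd hneg

theorem xrs_mem : ∀ᵐ y ∂Z.μ, ∀ x ∈ AddSubgroup.closure {x | W.E (Φ x) y ≠ 0},
    W.E (Φ x) y = Φ x y := by
  have a1 : ∀ᵐ y ∂Z.μ, ∀ x, W.E (Φ x) y = 0 ∨ W.E (Φ x) y = Φ x y :=
    ae_all_iff.2 fun x => (hE x).unit hC
  have a2 : ∀ᵐ y ∂Z.μ, W.E (Φ 0) y = Φ 0 y := by
    rw [h0]
    exact (bm_const 1).E_self
  have a3 : ∀ᵐ y ∂Z.μ, ∀ x x', W.E (Φ x) y = Φ x y → W.E (Φ x') y = Φ x' y →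
      W.E (Φ (x + x')) y = Φ (x + x') y := ae_all_iff.2 fun x => ae_all_iff.2 fun x' => by
    filter_upwards [xrs_mul hC (hE x) (hE x').1.top, E_congr (W := W) (hadd x x'), hadd x x']
      with y b1 b2 b3 c1 c2
    rw [b2, b3, b1 c1, c2]
  have a4 : ∀ᵐ y ∂Z.μ, ∀ x, W.E (Φ x) y = Φ x y → W.E (Φ (-x)) y = Φ (-x) y :=
    ae_all_iff.2 fun x => by
      filter_upwards [E_star (W := W) (hE x).1.top, E_congr (W := W) (hneg x), hneg x]
        with y b1 b2 b3 c1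
      rw [b2, b3, b1, c1]
  filter_upwards [a1, a2, a3, a4] with y b1 b2 b3 b4 x hx
  induction hx using AddSubgroup.closure_induction with
  | mem x hx => exact (b1 x).resolve_left hx
  | zero => exact b2
  | add x x' _ _ c1 c2 => exact b3 x x' c1 c2
  | neg x _ c => exact b4 x c

theorem xrs_n1 (x z : A) : (n1 W fun y => (Φ x y - W.E (Φ x) y) * Φ z y) =
    Z.μ.real {y | x + z ∈ AddSubgroup.closure {x | W.E (Φ x) y ≠ 0} ∧
      x ∉ AddSubgroup.closure {x | W.E (Φ x) y ≠ 0}} := by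
  have hm : ∀ x, MeasurableSet {y | x ∈ AddSubgroup.closure {x | W.E (Φ x) y ≠ 0}} :=
    meas_closure fun x =>
      ((stronglyMeasurable_condExp.mono W.le).measurable (measurableSet_singleton 0)).compl
  refine (integral_congr_ae ?_).trans (integral_indicator_one ((hm (x + z)).inter (hm x).compl))
  have he := (hE x).1.E W
  have e1 : (fun y => (Φ x y - W.E (Φ x) y) * Φ z y) =ᵐ[Z.μ]
      fun y => Φ (x + z) y - W.E (Φ x) y * Φ z y := by
    filter_upwards [hadd x z] with y hy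
    rw [hy, sub_mul]
  filter_upwards [E_congr (W := W) e1, E_sub (W := W) (hE (x + z)).1.top (he.top.mul (hE z).1.top),
    E_mul he (hE z).1.top, xrs_mem hC hE h0 hadd hneg, hadd x z, (hE (x + z)).2.1]
    with y b1 b2 b3 b4 b5 b6
  have b7 : ∀ x, x ∉ AddSubgroup.closure {x | W.E (Φ x) y ≠ 0} → W.E (Φ x) y = 0 :=
    fun x hx => by_contra fun hn => hx (AddSubgroup.subset_closure hn)
  rw [b1, b2, b3]
  by_cases hx : x ∈ AddSubgroup.closure {x | W.E (Φ x) y ≠ 0}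
  · rw [Set.indicator_of_notMem fun c => c.2 hx, norm_eq_zero]
    by_cases hz : z ∈ AddSubgroup.closure {x | W.E (Φ x) y ≠ 0}
    · rw [b4 _ (add_mem hx hz), b4 _ hx, b4 _ hz, b5, sub_self]
    · rw [b7 _ hz, b7 _ fun c => hz ((add_mem_cancel_left hx).1 c), mul_zero, sub_self]
  · rw [b7 _ hx, zero_mul, sub_zero]
    by_cases hz : x + z ∈ AddSubgroup.closure {x | W.E (Φ x) y ≠ 0}
    · rw [Set.indicator_of_mem (by exact ⟨hz, hx⟩), b4 _ hz, b6]
      rfl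
    · rw [Set.indicator_of_notMem fun c => hz c.1, b7 _ hz, norm_zero]

omit hC h0 hadd hneg in
theorem xrs_rsg (hτ : Act τ) (hs : ∀ k x, Φ (τ k x) =ᵐ[Z.μ] fun y => Φ x (Z.T k y)) :
    Rsg Z.toMS τ fun y => AddSubgroup.closure {x | W.E (Φ x) y ≠ 0} := by
  refine rsg_closure (Ω := Z.toMS) hτ (fun x =>
    ((stronglyMeasurable_condExp.mono W.le).measurable (measurableSet_singleton 0)).compl)
    (ae_all_iff.2 fun k => ae_all_iff.2 fun x => ?_)
  filter_upwards [E_congr (W := W) (hs k x), E_shift (W := W) (hE x).1.top k] with y b1 b2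
  show W.E (Φ x) (Z.T k y) ≠ 0 ↔ W.E (Φ (τ k x)) y ≠ 0
  rw [b1, b2]

theorem xrs_clo (hs : ∀ k x, Φ (τ k x) =ᵐ[Z.μ] fun y => Φ x (Z.T k y)) :
    Clo Z.toMS τ fun y => AddSubgroup.closure {x | W.E (Φ x) y ≠ 0} := by
  intro x z
  have he := (hE x).1.E W
  have hF := (hE x).1.sub (he.mono hC.leM)
  have e0 : W.E (fun y => Φ x y - W.E (Φ x) y) =ᵐ[Z.μ] 0 := by
    filter_upwards [E_sub (W := W) (hE x).1.top he.top, he.E_self] with y b1 b2
    rw [b1, b2, sub_self]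
    rfl
  refine nul_mono (fun _ => measureReal_nonneg) (fun l => ?_)
    (hC.wmM.bil' hC.leM hF e0 (hE (-z)).1.top)
  obtain ⟨C, hb⟩ := (hF.top.mul ((hE (-z)).1.top.shift l)).1
  refine le_trans (le_of_eq ?_) (n1_le_L2 hb)
  have e1 : (fun y => (Φ x y - W.E (Φ x) y) * Φ (-z) (Z.T l y)) =ᵐ[Z.μ]
      fun y => (Φ x y - W.E (Φ x) y) * Φ (τ l (-z)) y := by
    filter_upwards [hs l (-z)] with y hy
    rw [hy]
  rw [n1_congr e1, xrs_n1 hC hE h0 hadd hneg, map_neg, ← sub_eq_add_neg]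
  simp only [AddSubgroup.mem_top, true_and, and_comm]

omit [Countable A] hC hE hneg in
theorem xrs_sum {κ : Type} (s : Finset κ) (x : κ → A) :
    Φ (∑ a ∈ s, x a) =ᵐ[Z.μ] fun y => ∏ a ∈ s, Φ (x a) y := by
  induction s using Finset.cons_induction with
  | empty => simp only [sum_empty, prod_empty, h0, EventuallyEq.refl]
  | cons a s ha ih =>
    filter_upwards [hadd (x a) (∑ a ∈ s, x a), ih] with y b1 b2
    rw [sum_cons, prod_cons, b1, b2]

end

omit [DecidableEq ι] in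
theorem xrs_exists (hg : Hom Z Z g) {φ : ι → Z.X → ℂ} (hφ : ∀ a, EE M Og g (φ a)) :
    ∃ Φ : AA ι → Z.X → ℂ, (∀ x, EE M Og g (Φ x)) ∧ (Φ 0 = fun _ => 1) ∧
      (∀ x x', Φ (x + x') =ᵐ[Z.μ] fun y => Φ x y * Φ x' y) ∧
      (∀ x, Φ (-x) =ᵐ[Z.μ] fun y => conj (Φ x y)) ∧
      (∀ k x, Φ (tau ι ℤ k x) = fun y => Φ x (Z.T k y)) ∧
      ∀ a l, Φ (ee a l) = fun y => φ a (Z.T l y) := by
  obtain ⟨Φ, hΦ⟩ : ∃ Φ : AA ι → Z.X → ℂ,
      ∀ x y, Φ x y = x.prod fun i c => φ i.1 (Z.T i.2 y) ^ c := ⟨_, fun _ _ => rfl⟩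
  have good : ∀ᵐ y ∂Z.μ, ∀ l a, ‖φ a (Z.T l y)‖ = 1 :=
    sys_ae Z.sys (p := fun y => ∀ a, ‖φ a y‖ = 1) (ae_all_iff.2 fun a => (hφ a).2.1)
  have h0 : Φ 0 = fun _ => 1 := funext fun y => by rw [hΦ, Finsupp.prod_zero_index]
  have hadd : ∀ x x', Φ (x + x') =ᵐ[Z.μ] fun y => Φ x y * Φ x' y := fun x x' => by
    filter_upwards [good] with y hy
    rw [hΦ, hΦ, hΦ]
    exact Finsupp.prod_add_index' (fun _ => zpow_zero _) fun i =>
      zpow_add₀ (norm_ne_zero_iff.1 (by rw [hy]; exact one_ne_zero))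
  have hneg : ∀ x, Φ (-x) =ᵐ[Z.μ] fun y => conj (Φ x y) := fun x => by
    filter_upwards [good, hadd (-x) x] with y hy e
    rw [neg_add_cancel, h0] at e
    rw [← Complex.inv_eq_conj, eq_inv_of_mul_eq_one_left e.symm]
    rw [hΦ, Finsupp.prod, norm_prod]
    exact prod_eq_one fun i _ => by rw [norm_zpow, hy, one_zpow]
  have hee : ∀ a l, Φ (ee a l) = fun y => φ a (Z.T l y) := fun a l => funext fun y => by
    rw [hΦ, ee, Finsupp.prod_single_index (zpow_zero _), zpow_one]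
  refine ⟨Φ, fun x => ?_, h0, hadd, hneg, fun k x => funext fun y => ?_, hee⟩
  · let S : AddSubgroup (AA ι) :=
      { carrier := {x | EE M Og g (Φ x)}
        zero_mem' := by
          show EE M Og g (Φ 0)
          rw [h0]
          exact EE.one
        add_mem' := fun {x x'} b1 b2 => EE.congr hg (EE.mul b1 b2) (hadd x x').symm
        neg_mem' := fun {x} b => EE.congr hg (EE.star b) (hneg x).symm }
    show x ∈ S
    induction x using Finsupp.induction_linear with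
    | zero => exact S.zero_mem
    | add x x' b1 b2 => exact S.add_mem b1 b2
    | single i c =>
      have : ee i.1 i.2 ∈ S := by
        show EE M Og g (Φ _)
        rw [hee]
        exact (hφ i.1).shift hg i.2
      have e : Finsupp.single i c = c • (ee i.1 i.2 : AA ι) := by
        rw [ee, Finsupp.smul_single, smul_eq_mul, mul_one]
      rw [e]
      exact S.zsmul_mem this c
  · have inj : Function.Injective (shI (ι := ι) k) := fun i j e =>
      Prod.ext (Prod.ext_iff.1 e).1 (add_right_cancel (Prod.ext_iff.1 e).2)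
    rw [hΦ, hΦ, tau, Finsupp.mapDomain.addMonoidHom_apply, Finsupp.prod_mapDomain_index_inj inj]
    simp only [shI, Z.sys.add]

/-- For `x : AA ι` let `Φ x y = x.prod fun i c => φ i.1 (T i.2 y) ^ c` (integer powers; almost
everywhere all values have norm one). `Φ x` is in `EE`, `Φ (x + x') = Φ x * Φ x'`,
`Φ (-x) = conj (Φ x)`, `Φ (tau k x) = Φ x o T k` almost everywhere. `R ω` is the closure of
`{x | E_W (Φ x) ω ≠ 0}`, almost everywhere already a subgroup by `EE.unit` (on the set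
`B = {E_W Φ x ≠ 0}` one has `Φ x 1_B = E_W(Φ x) 1_B`, so `E_W(Φ x Φ x') = E_W(Φ x) E_W(Φ x')` on
`B`). `rsg_closure`. Closed: `F = Φ x - E_W(Φ x)` has `E_W F = 0` and equals `Φ x 1[x ∉ R]`, so
`|E_W(F * conj S^l Φ y)| = 1[x ∉ R, x - tau l y ∈ R]`; bilinear weak mixing with the shift on the
second factor, `nul_n1_iff`. Finally apply `HA` with `x a = ee a 0`: the term `n1` of the goal is the
measure of `{sum tau (u a n) (ee a 0) ∈ R, tau (u a1 n) (ee a1 0) ∉ R}`. -/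
theorem rs_nul (hA : HA u univ) (hC : Cube W M Og Oh g g' h h' sw pm) {φ : ι → Z.X → ℂ}
    (hφ : ∀ a, EE M Og g (φ a)) (a1 : ι) :
    Kil W (pr Z u (univ.erase a1) φ) (u a1) fun y => φ a1 y - W.E (φ a1) y := by
  obtain ⟨Φ, hE, h0, hadd, hneg, hs, hee⟩ := xrs_exists hC.ag.hom hφ
  have hs' : ∀ k x, Φ (tau ι ℤ k x) =ᵐ[Z.μ] fun y => Φ x (Z.T k y) := fun k x => by rw [hs]
  have H := hA (AA ι) (tau ι ℤ) act_tau Z.toMS _ (xrs_rsg (W := W) hE act_tau hs')
    (xrs_clo hC hE h0 hadd hneg hs') (fun a => ee a 0) a1 (mem_univ _)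
  refine nul_mono (fun _ => n1_nonneg _ _) (fun n => le_of_eq ?_) H
  have e1 : ∀ a, Φ (tau ι ℤ (u a n) (ee a 0)) = fun y => φ a (Z.T (u a n) y) := fun a => by
    rw [tau_ee, zero_add, hee]
  rw [← add_sum_erase _ _ (mem_univ a1)]
  refine (n1_congr ?_).trans (xrs_n1 hC hE h0 hadd hneg _ _)
  filter_upwards [xrs_sum h0 hadd (univ.erase a1) fun a => tau ι ℤ (u a n) (ee a 0),
    E_shift (W := W) (hφ a1).1.top (u a1 n)] with y b1 b2
  simp only [b1, e1, b2, pr]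

end Pool.Agent.Lib.MP_1db5af_an.Th
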