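import Pool.Agent.Lib.MP_1db5af_an.Th.XSpan
import Pool.Agent.Lib.MP_1db5af_an.Th.XRs

set_option autoImplicit false

namespace Pool.Agent.Lib.MP_1db5af_an.Th

open MeasureTheory ProbabilityTheory Filter Topology ComplexConjugate Finset
open scoped ENNReal NNReal InnerProductSpace

variable {Z : CS} {W M Og Oh : Fc Z} {g g' h h' sw pm : Z.X → Z.X}
variable {ι : Type} [Fintype ι] [DecidableEq ι] {u : ι → ℕ → ℤ} {U : Ultrafilter ℕ}

theorem xend_rho {J : Finset ι} {f : ι → Z.X → ℂ} (hf : ∀ b, BM M (f b)) :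
    ∃ R, ∀ n, MemLp (pr Z u J f n) 2 Z.μ ∧ ‖L2 Z.μ (pr Z u J f n)‖ ≤ R := by
  obtain ⟨C, hC⟩ := pr_bd (u := u) (J := J) fun b _ => (hf b).1
  exact ⟨C, fun n => ⟨(hC n).memLp, (hC n).norm_L2⟩⟩

theorem xend_split {a : ι} {f : ι → Z.X → ℂ} (hf : ∀ b, BM M (f b)) {F : Z.X → ℂ} (hF : BM M F)
    (hb : ¬Kil W (pr Z u (univ.erase a) f) (u a) F) :
    ∃ v ∈ HH u W M a, ¬Kil W (pr Z u (univ.erase a) f) (u a) v ∧
      (W.E F =ᵐ[Z.μ] 0 → EL W v = 0) := by
  obtain ⟨R, hR⟩ := xend_rho (u := u) (J := univ.erase a) hf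
  obtain ⟨n, v, h1, h2, h3⟩ := nn_hh_split (u := u) (W := W) (a := a) (L2_mem_LM hF.memLp hF.2)
  refine ⟨v, h2, fun h4 => hb ?_, fun h4 => ?_⟩
  · refine kil_congr (kil_add (fun n => (hR n).1) (Lp.memLp n) (Lp.memLp v) (h1.2 f hf) h4) ?_
    have h5 := L2_coe hF.memLp
    rw [h3] at h5
    exact (Lp.coeFn_add n v).symm.trans h5
  · have h5 : EL W n = 0 := Lp.ext ((EL_coe n).trans
      ((nn_zero ((Lp.memLp n).integrable one_le_two) h1).trans (Lp.coeFn_zero ℂ 2 Z.μ).symm))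
    have h6 := EL_L2 (M := W) hF.memLp
    rw [h3, map_add, h5, zero_add, L2_congr h4] at h6
    exact h6.trans L2_zero

theorem xend_step (H : Hyp u U) (hC : Cube W M Og Oh g g' h h' sw pm) {a : ι}
    {f : ι → Z.X → ℂ} (hf : ∀ b, BM M (f b)) {F : Z.X → ℂ} (hF : BM M F)
    (hb : ¬Kil W (pr Z u (univ.erase a) f) (u a) F) :
    ∃ φ, EE M Og g φ ∧ ¬Kil W (pr Z u (univ.erase a) f) (u a) φ := by
  obtain ⟨R, hR⟩ := xend_rho (u := u) (J := univ.erase a) hf
  obtain ⟨v, h1, h2, -⟩ := xend_split hf hF hb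
  by_contra hn
  push Not at hn
  refine h2 (kil_closure hR ?_ (hh_span H hC a h1))
  rintro _ ⟨w, φ, k1, k2, rfl⟩
  exact kil_congr (kil_mul (fun n => (hR n).1) k1 k2.1.memLp (hn φ k2))
    (L2_coe (k1.top.mul k2.1.top).memLp).symm

theorem xend_first (H : Hyp u U) (hC : Cube W M Og Oh g g' h h' sw pm) {a : ι}
    {f : ι → Z.X → ℂ} (hf : ∀ b, BM M (f b)) {F : Z.X → ℂ} (hF : BM M F) (h0 : W.E F =ᵐ[Z.μ] 0)
    (hb : ¬Kil W (pr Z u (univ.erase a) f) (u a) F) :
    ∃ φ, EE M Og g φ ∧ ¬Kil W (pr Z u (univ.erase a) f) (u a) fun y => φ y - W.E φ y := by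
  obtain ⟨R, hR⟩ := xend_rho (u := u) (J := univ.erase a) hf
  obtain ⟨v, h1, h2, h3⟩ := xend_split hf hF hb
  by_contra hn
  push Not at hn
  set T : Lp ℂ 2 Z.μ →L[ℂ] Lp ℂ 2 Z.μ := 1 - EL W with hT
  have h4 : T v = v := by rw [hT, sub_apply, h3 h0, sub_zero, one_apply_eq_self]
  have h5 := Submodule.topologicalClosure_map T _ ⟨v, hh_span H hC a h1, h4⟩
  rw [Submodule.map_span] at h5
  refine h2 (kil_closure hR ?_ h5)
  rintro _ ⟨_, ⟨w, φ, k1, k2, rfl⟩, rfl⟩
  have k3 := k1.top.mul k2.1.top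
  have k4 := k2.1.top.sub (k2.1.E W).top
  refine kil_congr (kil_mul (fun n => (hR n).1) k1 k4.memLp (hn φ k2)) ?_
  have k5 : T (L2 Z.μ fun y => w y * φ y) = L2 Z.μ fun y => w y * (φ y - W.E φ y) := by
    rw [hT, sub_apply, one_apply_eq_self, EL_L2 k3.memLp, L2_congr (E_mul k1 k2.1.top),
      ← L2_sub k3.memLp (k1.mul (k2.1.E W)).memLp]
    simp only [mul_sub]
  have k6 := (L2_coe (k1.top.mul k4).memLp).symm
  rw [← k5] at k6
  exact k6

theorem xend_iff {a : ι} (f : ι → Z.X → ℂ) (F : Z.X → ℂ) :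
    (Nul fun n => n1 W (pr Z u univ (Function.update f a F) n)) ↔
      Kil W (pr Z u (univ.erase a) f) (u a) F := by
  simp only [pr_update, Kil]

theorem cube_false (H : Hyp u U) (hA : HA u Finset.univ) {Z : CS} {W M Og Oh : Fc Z}
    {g g' h h' sw pm : Z.X → Z.X} (hc : Cube W M Og Oh g g' h h' sw pm) (hf : FailR u W M) :
    False := by
  obtain ⟨f, a, h1, h2, h3⟩ := hf
  obtain ⟨C, hC⟩ := pr_bd (u := u) (J := univ) fun b _ => (h1 b).1
  rw [← nul_n1_iff hC, ← Function.update_eq_self a f, xend_iff] at h3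
  obtain ⟨φ, k1, k2⟩ := xend_first H hc h1 (h1 a) h2 h3
  have k3 : BM M fun y => φ y - W.E φ y := k1.1.sub ((k1.1.E W).mono hc.leM)
  have key : ∀ s : Finset ι, a ∉ s → ∃ f' : ι → Z.X → ℂ, (∀ b, BM M (f' b)) ∧
      (∀ b ∈ s, EE M Og g (f' b)) ∧ (f' a = fun y => φ y - W.E φ y) ∧
      ¬Nul fun n => n1 W (pr Z u univ f' n) := by
    intro s
    induction s using Finset.induction_on with
    | empty =>
      refine fun _ => ⟨Function.update f a fun y => φ y - W.E φ y, fun b => ?_, by simp,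
        Function.update_self _ _ _, fun e => k2 ((xend_iff _ _).1 e)⟩
      rcases eq_or_ne b a with rfl | hb
      · rwa [Function.update_self]
      · rw [Function.update_of_ne hb]
        exact h1 b
    | insert c s hcs ih =>
      intro ha
      rw [mem_insert, not_or] at ha
      obtain ⟨f', b1, b2, b3, b4⟩ := ih ha.2
      rw [← Function.update_eq_self c f', xend_iff] at b4
      obtain ⟨ψ, c1, c2⟩ := xend_step H hc b1 (b1 c) b4
      refine ⟨Function.update f' c ψ, fun b => ?_, fun b hb => ?_, ?_,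
        fun e => c2 ((xend_iff _ _).1 e)⟩
      · rcases eq_or_ne b c with rfl | hb
        · rw [Function.update_self]
          exact c1.1
        · rw [Function.update_of_ne hb]
          exact b1 b
      · rcases eq_or_ne b c with rfl | hb'
        · rwa [Function.update_self]
        · rw [Function.update_of_ne hb']
          exact b2 b ((mem_insert.1 hb).resolve_left hb')
      · rw [Function.update_of_ne ha.1, b3]
  obtain ⟨f', b1, b2, b3, b4⟩ := key (univ.erase a) (notMem_erase a _)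
  have k4 := rs_nul hA hc (φ := Function.update f' a φ) (fun b => by
    rcases eq_or_ne b a with rfl | hb
    · rwa [Function.update_self]
    · rw [Function.update_of_ne hb]
      exact b2 b (mem_erase.2 ⟨hb, mem_univ b⟩)) a
  have e : pr Z u (univ.erase a) (Function.update f' a φ) = pr Z u (univ.erase a) f' := by
    funext n x
    exact prod_congr rfl fun b hb => by rw [Function.update_of_ne (mem_erase.1 hb).1]
  rw [Function.update_self, e, ← b3, ← xend_iff, Function.update_eq_self] at k4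
  exact b4 k4

end Pool.Agent.Lib.MP_1db5af_an.Th
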