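import Pool.Agent.Lib.MP_1db5af_an.Th.ATriA
import Pool.Agent.Lib.MP_1db5af_an.Th.ATriB
import Pool.Agent.Lib.MP_1db5af_an.Th.AGridB
import Pool.Agent.Lib.MP_1db5af_an.Th.ADesc
import Pool.Agent.Lib.MP_1db5af_an.Th.ACubeC
import Pool.Agent.Lib.MP_1db5af_an.Th.XEnd

set_option autoImplicit false

namespace Pool.Agent.Lib.MP_1db5af_an.Th

open MeasureTheory ProbabilityTheory Filter Topology ComplexConjugate
open scoped ENNReal NNReal InnerProductSpace

theorem hr_step {ι : Type} [Fintype ι] {u : ι → ℕ → ℤ} (hc : 3 ≤ Fintype.card ι)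
    (hr : ∀ J : Finset ι, J ≠ Finset.univ → HR u J) (hA : HA u Finset.univ) :
    HR u Finset.univ := by
  classical
  intro Z W B e hw f hf a0 _ h0
  by_contra hn
  obtain ⟨U, X', D', B', f', o, L, H, e', hw', hf', h0', hL, hne⟩ :=
    tri_double hc hr e hw ⟨f, a0, fun b => hf b (Finset.mem_univ b), h0, hn⟩
  obtain ⟨Z1, W1, A0, A1, P, o', g, g', F, F', k, cW, c0, c1, cP, e0, e1, eP, h1, h2, h3, d, d',
    hF, hF', hk, hz, hi⟩ := tri_start H e' hw' hf' h0' hL hne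
  obtain ⟨N, N', g0, G, ht⟩ := tri_min H cW c0 c1 cP e0 e1 eP h1 h2 h3 d d' hF hF' hk hz hi
  obtain ⟨Y, W2, M, M', P', g2, G2, hd, d2, hg2, n2, z2⟩ := grid H ht
  obtain ⟨Z3, V, N3, Og, Oh, a, a', b, b', sw, pm, hcube, hfail⟩ :=
    exists_cube hd (descent H hd.cW hd.leM d2 hg2 n2 z2)
  exact cube_false H hA hcube hfail

end Pool.Agent.Lib.MP_1db5af_an.Th
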