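import Pool.Agent.Lib.MP_1db5af_an.Th.ALc
import Pool.Agent.Lib.MP_1db5af_an.Th.ALs

set_option autoImplicit false

namespace Pool.Agent.Lib.MP_1db5af_an.Th

open MeasureTheory ProbabilityTheory Filter Topology ComplexConjugate
open scoped ENNReal NNReal InnerProductSpace

variable {ι : Type} [Fintype ι] [DecidableEq ι] {u : ι → ℕ → ℤ} {U : Ultrafilter ℕ}

theorem atria_ultra {p : ℕ → ℝ} {C : ℝ} (h0 : ∀ n, 0 ≤ p n) (h1 : ∀ n, p n ≤ C) (h : ¬ Nul p) :
    ∃ (U : Ultrafilter ℕ) (L : ℂ), (U : Filter ℕ) ≤ atTop ∧ L ≠ 0 ∧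
      Tendsto (av fun n => ((p n ^ 2 : ℝ) : ℂ)) U (𝓝 L) := by
  obtain ⟨U, δ, hU, hδ, h2⟩ := exists_ultra (p := fun n => p n ^ 2) (C := C ^ 2)
    (fun n => sq_nonneg _) (fun n => pow_le_pow_left₀ (h0 n) (h1 n) 2) fun hq => h (by
      have h3 := hq.sqrt
      rw [Real.sqrt_zero] at h3
      exact squeeze_zero (av_nonneg h0) (fun N => Real.le_sqrt_of_sq_le (sq_av_le p N)) h3)
  exact ⟨U, δ, hU, Complex.ofReal_ne_zero.2 hδ.ne', (Complex.continuous_ofReal.tendsto δ |>.comp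
    h2).congr fun N => (av_map Complex.ofRealCLM _ N).symm⟩

theorem atria_ne {Z : CS} {F g : Z.X → ℂ} (hF : BM ⊤ F) (h : ∫ x, g x * F x ∂Z.μ ≠ 0) :
    ∫ x, conj (F x) * F x ∂Z.μ ≠ 0 := fun h0 => h (by
  have h1 := norm_L2_int hF
  simp only [mul_comm (F _)] at h1
  rw [h0, Complex.ofReal_eq_zero, pow_eq_zero_iff two_ne_zero, norm_eq_zero] at h1
  have h2 := ae_of_L2 hF (bm_const 0) (h1.trans L2_zero.symm)
  refine integral_eq_zero_of_ae ?_
  filter_upwards [h2] with x hx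
  rw [hx, mul_zero, Pi.zero_apply])

omit [Fintype ι] in
theorem atria_upd {Z : CS} {B : Fc Z} {f : ι → Z.X → ℂ} {g : Z.X → ℂ} (hf : ∀ a, BM B (f a))
    (hg : BM B g) (o a : ι) : BM B (Function.update f o g a) := by
  rcases eq_or_ne a o with rfl | h
  · rwa [Function.update_self]
  · rw [Function.update_of_ne h]
    exact hf a

theorem atria_zero (H : Hyp u U) {X : CS} {D B : Fc X} (e : D ≤ B) (hw : WM D B)
    {f : ι → X.X → ℂ} {F : X.X → ℂ} {a b : ι} (hd : IsDual X u U a f F) (hf : ∀ a, BM B (f a))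
    (hb : b ≠ a) (h0 : D.E (f b) =ᵐ[X.μ] 0) : D.E F =ᵐ[X.μ] 0 :=
  (hd.E H e hw hf).zero hb h0

theorem atria_ci (H : Hyp u U) {X Z : CS} {D B : Fc X} (e : D ≤ B) (hw : WM D B)
    {y : ι → Z.X → X.X} {Θ : Fc Z} (h : LSD u U X D Z y Θ) {J : Finset ι} {a : ι} (ha : a ∉ J)
    (hJ : insert a J ≠ Finset.univ) : CI Θ (pb (h.hom a) B) (h.row J B) :=
  (((h.lc' H le_rfl e hw ha hJ).weak (h.la H.le a)
    ((le_sup_left.trans le_sup_left).trans le_sup_left)).mono le_sup_right le_rfl).symm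

omit [DecidableEq ι] in
theorem atria_card (hc : 3 ≤ Fintype.card ι) {J : Finset ι} (h : J.card ≤ 2) :
    J ≠ Finset.univ := fun e => by
  rw [e, Finset.card_univ] at h
  omega

/-- Doubling turns a failure into a nonzero limit of correlations. -/
theorem tri_double (hc : 3 ≤ Fintype.card ι) (hr : ∀ J : Finset ι, J ≠ Finset.univ → HR u J)
    {X : CS} {D B : Fc X} (e : D ≤ B) (hw : WM D B) (hf : FailR u D B) :
    ∃ (U : Ultrafilter ℕ) (X' : CS) (D' B' : Fc X') (f : ι → X'.X → ℂ) (o : ι) (L : ℂ),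
      Hyp u U ∧ D' ≤ B' ∧ WM D' B' ∧ (∀ a, BM B' (f a)) ∧ D'.E (f o) =ᵐ[X'.μ] 0 ∧
      TT X' u U f L ∧ L ≠ 0 := by
  obtain ⟨f, o, hf, h0, hn⟩ := hf
  obtain ⟨C, -, hC⟩ := bm_bound (s := Finset.univ) fun a _ => hf a
  have hg := fun n => (bm_pr (u := u) (J := Finset.univ) (fun a _ => hf a) n).top
  obtain ⟨U, L, hU, hL, ht⟩ := atria_ultra (C := C ^ (Finset.univ : Finset ι).card)
    (fun n => norm_nonneg _) (fun n => (norm_L2_E_le (hg n)).trans (Bd.prod _ fun a ha =>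
      (hC a ha).comp (X.sys.mp (u a n))).norm_L2) hn
  obtain ⟨Y, p, q, hp, hq, e1, e2, e3⟩ := exists_sq X D
  have key : ∀ g : X.X → ℂ, BM ⊤ g → (pb hp D).E (fun y => g (p y) * conj (g (q y))) =ᵐ[Y.μ]
      fun y => D.E g (p y) * conj (D.E g (p y)) := fun g hg => by
    have h1 := E_pb hq (D := D) hg
    rw [← e1] at h1
    filter_upwards [ci_iff_mul.1 e2 _ _ (bm_pb hp hg) (bm_pb hq hg).star, E_pb hp (D := D) hg,
      E_star (W := pb hp D) (bm_pb_top hq hg), h1, e3 _ (hg.E D)] with y a1 a2 a3 a4 a5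
    rw [a1, a2, a3, a4, a5]
  refine ⟨U, Y, pb hp D, pb hp B ⊔ pb hq B, fun a y => f a (p y) * conj (f a (q y)), o, L,
    ⟨hc, hU, hr⟩, (pb_mono hp e).trans le_sup_left,
    wm_prod (wm_pb hp hw) (e1 ▸ wm_pb hq hw) (pb_mono hp e) (e1 ▸ pb_mono hq e)
      (e2.mono (pb_mono hp le_top) (pb_mono hq le_top)),
    fun a => ((bm_pb hp (hf a)).mono le_sup_left).mul ((bm_pb hq (hf a)).star.mono le_sup_right),
    ?_, ?_, hL⟩
  · filter_upwards [key _ (hf o).top, ae_pb hp h0] with y a1 a2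
    rw [a1, a2, Pi.zero_apply, Pi.zero_apply, zero_mul]
  · refine ht.congr fun N => congrArg (av · N) (funext fun n => ?_)
    have h1 := (hg n).E D
    rw [norm_L2_int h1.top, ← int_pb hp (h1.mul h1.star).top, ← integral_congr_ae (key _ (hg n)),
      int_E]
    refine integral_congr_ae ?_
    filter_upwards [pr_pb hp u Finset.univ f n, pr_pb hq u Finset.univ f n] with y a1 a2
    rw [← a1, ← a2]
    simp only [pr, Finset.prod_mul_distrib, map_prod]

/-- The starting configuration in the limit system. -/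
theorem tri_start (H : Hyp u U) {X : CS} {D B : Fc X} (e : D ≤ B) (hw : WM D B)
    {f : ι → X.X → ℂ} {o : ι} {L : ℂ} (hf : ∀ a, BM B (f a)) (h0 : D.E (f o) =ᵐ[X.μ] 0)
    (hL : TT X u U f L) (hne : L ≠ 0) :
    ∃ (Z : CS) (W A0 A1 P : Fc Z) (o' : ι) (g g' : ι → Z.X → ℂ) (F F' k : Z.X → ℂ),
      Closed W ∧ Closed A0 ∧ Closed A1 ∧ Closed P ∧ W ≤ A0 ∧ W ≤ A1 ∧ W ≤ P ∧
      CI W A0 A1 ∧ CI W A0 P ∧ CI W A1 P ∧ IsDual Z u U o g F ∧ IsDual Z u U o' g' F' ∧
      BM A0 F ∧ BM A1 F' ∧ BM P k ∧ W.E F =ᵐ[Z.μ] 0 ∧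
      ∫ z, conj (F z) * conj (F' z) * k z ∂Z.μ ≠ 0 := by
  obtain ⟨o', ho⟩ := Fintype.exists_ne_of_one_lt_card (by linarith [H.card]) o
  obtain ⟨G, hG⟩ := exists_dual (u := u) (U := U) (fun a => (hf a).top) o'
  have b1 : BM B fun x => f o' x - D.E (f o') x := (hf o').sub (((hf o').E D).mono e)
  have hf1 := atria_upd hf b1 o'
  have t1 := hG.2.2 _ b1.top
  have n1 : ∫ x, (f o' x - D.E (f o') x) * G x ∂X.μ = L := by
    have h1 : ∫ x, D.E (f o') x * G x ∂X.μ = 0 := by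
      rw [int_E_mul (hf o').top hG.2.1]
      refine integral_eq_zero_of_ae ?_
      filter_upwards [atria_zero H e hw hG hf ho.symm h0] with x hx
      rw [hx]
      exact mul_zero _
    simp only [sub_mul]
    rw [integral_sub ((hf o').top.mul hG.2.1).integrable
      (((hf o').E D).top.mul hG.2.1).integrable, h1, sub_zero]
    exact hG.tt.unique hL
  have z1 : D.E (Function.update f o' (fun x => f o' x - D.E (f o') x) o') =ᵐ[X.μ] 0 := by
    rw [Function.update_self]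
    filter_upwards [E_sub (W := D) (hf o').top ((hf o').E D).top, ((hf o').E D).E_self]
      with x a1 a2
    rw [a1, a2, sub_self, Pi.zero_apply]
  rw [n1] at t1
  generalize Function.update f o' (fun x => f o' x - D.E (f o') x) = f1 at hf1 t1 z1
  obtain ⟨F, hF⟩ := exists_dual (u := u) (U := U) (fun a => (hf1 a).top) o
  have bF := hF.bm fun a _ => hf1 a
  have hf2 := atria_upd hf1 bF.star o
  obtain ⟨F', hF'⟩ := exists_dual (u := u) (U := U) (fun a => (hf2 a).top) o'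
  have bF' := hF'.bm fun a _ => hf2 a
  have hf3 := atria_upd hf2 bF'.star o'
  have n2 := atria_ne hF.2.1 (hF.tt.unique t1 ▸ hne)
  have n3 := atria_ne hF'.2.1 ((hF.2.2 _ hF.2.1.star).unique hF'.tt ▸ n2)
  obtain ⟨Z, y, Θ, h⟩ := exists_ls u U H.le X D
  rw [(hF'.2.2 _ hF'.2.1.star).unique (h.lb fun a => (hf3 a).top)] at n3
  have m0 : o ∉ Finset.univ \ {o, o'} := by simp
  have m1 : o' ∉ Finset.univ \ {o, o'} := by simp
  refine ⟨Z, cl Θ, cl (pb (h.hom o) B ⊔ Θ), cl (pb (h.hom o') B ⊔ Θ),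
    cl (h.row (Finset.univ \ {o, o'}) B ⊔ Θ), o', _, _, _, _,
    fun z => ∏ a ∈ Finset.univ \ {o, o'}, f1 a (y a z), cl_closed _, cl_closed _, cl_closed _,
    cl_closed _, cl_mono le_sup_right, cl_mono le_sup_right, cl_mono le_sup_right,
    ci_cl' ((atria_ci H e hw h (J := {o'}) (by simpa using ho.symm) (atria_card H.card
      Finset.card_le_two)).mono le_rfl (h.le_row (Finset.mem_singleton_self o') B)),
    ci_cl' (atria_ci H e hw h m0 fun e => ?_), ci_cl' (atria_ci H e hw h m1 fun e => ?_),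
    hF.pb (h.hom o), hF'.pb (h.hom o'),
    (bm_pb (h.hom o) bF).mono (le_sup_left.trans (le_cl _)),
    (bm_pb (h.hom o') bF').mono (le_sup_left.trans (le_cl _)),
    bm_prod fun a ha => (bm_pb (h.hom a) (hf1 a)).mono
      (((h.le_row ha B).trans le_sup_left).trans (le_cl _)), ?_, ?_⟩
  · exact (Finset.mem_insert.1 (e ▸ Finset.mem_univ o' :)).elim ho m1
  · exact (Finset.mem_insert.1 (e ▸ Finset.mem_univ o :)).elim ho.symm m0
  · have h1 := h.lw H e hw (Finset.notMem_empty o) (atria_card H.card (by simp)) bF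
    rw [show h.row ∅ B = ⊥ by simp [LSD.row], sup_bot_eq] at h1
    exact h1.trans (ae_pb (h.hom o) (atria_zero H e hw hF hf1 ho z1))
  · refine fun h1 => n3 (Eq.trans (congrArg _ (funext fun z => ?_)) h1)
    rw [← Finset.prod_sdiff (Finset.subset_univ {o, o'}), Finset.prod_pair ho.symm, mul_comm,
      Function.update_self, Function.update_of_ne ho.symm, Function.update_self]
    refine congrArg _ (Finset.prod_congr rfl fun a ha => ?_)
    rw [Function.update_of_ne (ne_of_mem_of_not_mem ha m1),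
      Function.update_of_ne (ne_of_mem_of_not_mem ha m0)]

end Pool.Agent.Lib.MP_1db5af_an.Th
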