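import Pool.Agent.Lib.MP_1db5af_an.Th.ADen
import Pool.Agent.Lib.MP_1db5af_an.Th.Ker
import Pool.Agent.Lib.MP_1db5af_an.Ae.Cpt
import Pool.Agent.Lib.MP_1db5af_an.Ae.Rwm

set_option autoImplicit false

namespace Pool.Agent.Lib.MP_1db5af_an.Th

open MeasureTheory ProbabilityTheory Filter Topology ComplexConjugate
open scoped ENNReal NNReal InnerProductSpace

variable {Z : CS} {A B C D : Fc Z} {f g : Z.X → ℂ}

/-- The conditional expectations of the functions `F l` are small on average. -/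
def awmN (D : Fc Z) (F : ℕ → Z.X → ℂ) : Prop := Nul fun l => ‖L2 Z.μ (D.E (F l))‖

section
variable {F G : ℕ → Z.X → ℂ}

theorem awm_congr (h : awmN D G) (e : ∀ l, A.E (F l) =ᵐ[Z.μ] D.E (G l)) : awmN A F := by
  simpa only [awmN, fun l => L2_congr (e l)] using h

theorem awm_sum {κ : Type} {s : Finset κ} {F : κ → ℕ → Z.X → ℂ} (hF : ∀ i ∈ s, ∀ l, BM ⊤ (F i l))
    (h : ∀ i ∈ s, awmN D (F i)) : awmN D fun l x => ∑ i ∈ s, F i l x := by
  refine nul_mono (fun _ => norm_nonneg _) (fun l => ?_) (nul_finsum s h)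
  rw [L2_congr (E_sum fun i hi => hF i hi l), L2_sum s fun i hi => ((hF i hi l).E D).memLp]
  exact norm_sum_le _ _

theorem awm_mul {H : ℕ → Z.X → ℂ} {c : ℝ} (hH : ∀ l, BM D (H l)) (hc : ∀ l, Bd Z.μ c (H l))
    (hF : ∀ l, BM ⊤ (F l)) (h : awmN D F) : awmN D fun l x => H l x * F l x := by
  refine nul_mono (fun _ => norm_nonneg _) (fun l => ?_) (nul_mul c h)
  rw [L2_congr (E_mul (hH l) (hF l))]
  exact (hc l).norm_L2_mul ((hF l).E D).memLp

theorem awm_appr (hF : ∀ l, BM ⊤ (F l)) {c : ℝ} (hc : 0 ≤ c) (h : ∀ ε : ℝ, 0 < ε → ∃ G, awmN D G ∧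
    ∀ l, BM ⊤ (G l) ∧ ‖L2 Z.μ fun x => F l x - G l x‖ ≤ c * ε) : awmN D F := by
  refine nul_of_forall (fun _ => norm_nonneg _) fun ε hε => ?_
  obtain ⟨G, hG, e⟩ := h (ε / (c + 1)) (by positivity)
  refine ⟨_, hG, fun l => ?_⟩
  have h1 := norm_L2_E_le (W := D) ((hF l).sub (e l).1)
  rw [L2_congr (E_sub (hF l) (e l).1), L2_sub ((hF l).E D).memLp ((e l).1.E D).memLp] at h1
  have h2 : c * (ε / (c + 1)) ≤ ε := by
    rw [← mul_div_assoc, div_le_iff₀ (by positivity)]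
    linarith
  linarith [norm_sub_norm_le (L2 Z.μ (D.E (F l))) (L2 Z.μ (D.E (G l))), (e l).2]

theorem awm_le (hF : ∀ l, BM ⊤ (F l)) (e : D ≤ A) (h : awmN A F) : awmN D F :=
  nul_mono (fun _ => norm_nonneg _) (fun l => (congrArg _ (L2_congr (E_E e).symm)).trans_le
    (norm_L2_E_le ((hF l).E A).top)) h

end

theorem awm_iff : WM D B ↔ ∀ f, BM B f → D.E f =ᵐ[Z.μ] 0 →
    awmN D fun l x => f (Z.T l x) * conj (f x) := by
  simp only [WM, RWM, mact_iter Z.sys.toMAct]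
  exact ⟨fun h f ⟨⟨C, hC⟩, hf⟩ => h f C hC hf, fun h f C hC hf => h f ⟨⟨C, hC⟩, hf⟩⟩

theorem awm_shift (hf : BM ⊤ f) (h0 : D.E f =ᵐ[Z.μ] 0) (k : ℤ) :
    D.E (fun x => f (Z.T k x)) =ᵐ[Z.μ] 0 :=
  (E_shift hf k).trans ((Z.sys.mp k).quasiMeasurePreserving.ae h0)

theorem awm_cen (e : D ≤ B) (hg : BM ⊤ g) : BM B (fun x => B.E g x - D.E g x) ∧
    D.E (fun x => B.E g x - D.E g x) =ᵐ[Z.μ] 0 := by
  refine ⟨(hg.E B).sub ((hg.E D).mono e), ?_⟩
  filter_upwards [E_sub (W := D) (hg.E B).top (hg.E D).top, E_E (f := g) e, (hg.E D).E_self]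
    with x h1 h2 h3
  rw [h1, h2, h3, sub_self, Pi.zero_apply]

theorem awm_cen' (e : D ≤ B) (hg : BM B g) :
    ∃ v, BM B v ∧ D.E v =ᵐ[Z.μ] 0 ∧ ∀ᵐ x ∂Z.μ, v x = g x - D.E g x :=
  ⟨_, (awm_cen e hg.top).1, (awm_cen e hg.top).2, hg.E_self.mono fun x hx => by simp only [hx]⟩

theorem awm_red (e : D ≤ B) (hf : BM B f) (h0 : D.E f =ᵐ[Z.μ] 0) (hg : BM ⊤ g) :
    D.E (fun x => f x * g x) =ᵐ[Z.μ] D.E fun x => (B.E g x - D.E g x) * f x := by
  simp only [sub_mul, mul_comm (B.E g _)]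
  filter_upwards [E_sub (W := D) (hf.top.mul (hg.E B).top) ((hg.E D).top.mul hf.top),
    E_mul (hg.E D) hf.top, h0, E_E (f := fun x => f x * g x) e,
    E_congr (W := D) (E_mul hf hg)] with x h1 h2 h3 h4 h5
  rw [h1, h2, h3, ← h4, h5, Pi.zero_apply, mul_zero, sub_zero]

theorem awm_star (hf : BM ⊤ f) (h0 : D.E f =ᵐ[Z.μ] 0) : D.E (fun x => conj (f x)) =ᵐ[Z.μ] 0 := by
  filter_upwards [E_star (W := D) hf, h0] with x h1 h2
  rw [h1, h2, Pi.zero_apply, map_zero]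

theorem awm_pol (h : WM D B) (hf : BM B f) (h0 : D.E f =ᵐ[Z.μ] 0) (hg : BM B g)
    (h1 : D.E g =ᵐ[Z.μ] 0) : awmN D fun l x => conj (g x) * f (Z.T l x) := by
  obtain ⟨p, hp⟩ : ∃ p : ℂ → Z.X → ℂ, p = fun c x => f x + c * g x := ⟨_, rfl⟩
  have hb : ∀ c, BM B (p c) := fun c => hp ▸ hf.add ((bm_const c).mul hg)
  have h2 : ∀ c, D.E (p c) =ᵐ[Z.μ] 0 := fun c => by
    rw [hp]
    filter_upwards [E_add (W := D) hf.top ((bm_const c).mul hg.top),
      E_mul (W := D) (bm_const c) hg.top, h0, h1] with x a1 a2 a3 a4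
    rw [a1, a2, a3, a4, Pi.zero_apply, mul_zero, add_zero]
  have h3 := fun c (l : ℕ) => (((hb c).shift l).mul (hb c).star).top
  have h4 := awm_sum (D := D) (s := Finset.univ) (F := fun (k : Fin 4) l x => Complex.I ^ (k : ℕ) / 4 *
      (p (Complex.I ^ (k : ℕ)) (Z.T l x) * conj (p (Complex.I ^ (k : ℕ)) x)))
    (fun k _ l => (bm_const _).mul (h3 _ l)) fun k _ => awm_mul (H := fun _ _ => _)
      (fun _ => bm_const _) (fun _ => Bd.const _) (h3 _) (awm_iff.1 h _ (hb _) (h2 _))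
  refine awm_congr h4 fun l => E_congr (Eventually.of_forall fun x => ?_)
  simp only [hp, Fin.sum_univ_four, Fin.val_zero, Fin.val_one, Fin.val_two, show ((3 : Fin 4) : ℕ) = 3
    from rfl, Complex.I_pow_three, Complex.I_sq, pow_zero, pow_one, map_add, map_mul, map_neg,
    map_one, Complex.conj_I]
  linear_combination (conj (g x) * f (Z.T l x) - g (Z.T l x) * conj (f x)) / 2 * Complex.I_sq

theorem WM.mono (h : WM D B) (e : A ≤ B) : WM D A := by
  exact awm_iff.2 fun f hf => awm_iff.1 h f (hf.mono e)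

theorem wm_self : WM D D := by
  refine awm_iff.2 fun f hf h0 => awm_congr (G := fun _ _ => 0) (D := D) ?_ fun l => E_congr ?_
  · simpa only [awmN, Nul, L2_congr (bm_const (A := D) 0).E_self, L2_zero, norm_zero]
      using tendsto_av_const (0 : ℝ)
  · filter_upwards [hf.E_self.symm.trans h0] with x hx
    rw [hx, Pi.zero_apply, map_zero, mul_zero]

/-- Bilinear form, `g` arbitrary, shift on the first factor. -/
theorem WM.bil (h : WM D B) (e : D ≤ B) (hf : BM B f) (h0 : D.E f =ᵐ[Z.μ] 0) (hg : BM ⊤ g) :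
    Nul fun l : ℕ => ‖L2 Z.μ (D.E fun x => f (Z.T l x) * g x)‖ := by
  refine awm_congr (awm_pol h hf h0 (awm_cen e hg).1.star (awm_star (awm_cen e hg).1.top
    (awm_cen e hg).2)) fun l => ?_
  simpa only [Complex.conj_conj] using awm_red e (hf.shift l) (awm_shift hf.top h0 l) hg

/-- Bilinear form, shift on the second factor. -/
theorem WM.bil' (h : WM D B) (e : D ≤ B) (hf : BM B f) (h0 : D.E f =ᵐ[Z.μ] 0) (hg : BM ⊤ g) :
    Nul fun l : ℕ => ‖L2 Z.μ (D.E fun x => f x * g (Z.T l x))‖ := by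
  refine awm_congr (h.bil e (awm_cen e hg).1 (awm_cen e hg).2 hf.top) fun l =>
    (awm_red e hf h0 (hg.shift l)).trans (E_congr ?_)
  filter_upwards [E_shift (W := B) hg l, E_shift (W := D) hg l] with x h1 h2
  rw [h1, h2]

theorem awm_join (h : WM D B) (e : D ≤ B) (e' : D ≤ A) (hc : CI D A B) (hf : BM B f)
    (h0 : D.E f =ᵐ[Z.μ] 0) (hg : BM (A ⊔ B) g) : awmN A fun l x => f (Z.T l x) * g x := by
  obtain ⟨c, hc'⟩ := hf.1
  refine awm_appr (fun l => (hf.shift l).top.mul hg.top) hc'.nonneg fun ε hε => ?_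
  obtain ⟨n, u, d, hu, e1⟩ := appr_sup hg ε hε
  choose a b ha hb hu using fun i => (hu i).2
  have hU : BM ⊤ fun x => ∑ i, u i x := bm_sum fun i _ => hu i ▸ (ha i).top.mul (hb i).top
  refine ⟨_, awm_sum (s := Finset.univ) (F := fun i l x => a i x * (f (Z.T l x) * b i x))
    (fun i _ l => (ha i).top.mul ((hf.shift l).mul (hb i)).top) fun i _ => ?_, fun l =>
    ⟨bm_sum fun i _ => (ha i).top.mul ((hf.shift l).mul (hb i)).top, ?_⟩⟩
  · obtain ⟨c', hc''⟩ := (ha i).1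
    exact awm_mul (fun _ => ha i) (fun _ => hc'') (fun l => ((hf.shift l).mul (hb i)).top)
      (awm_congr (h.bil e hf h0 (hb i).top) fun l => hc.E_eq e' ((hf.shift l).mul (hb i)))
  · rw [← L2_sub hg.memLp hU.memLp] at e1
    refine le_of_eq_of_le ?_ (((hc'.comp (Z.sys.mp l)).norm_L2_mul (hg.top.sub hU).memLp).trans
      (mul_le_mul_of_nonneg_left e1 hc'.nonneg))
    simp only [hu, mul_sub, Finset.mul_sum, mul_left_comm]

theorem wm_join (h : WM D B) (e : D ≤ B) (e' : D ≤ A) (hc : CI D A B) : WM A (A ⊔ B) := by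
  refine awm_iff.2 fun f hf h0 => ?_
  obtain ⟨c, hc'⟩ := hf.star.1
  refine awm_appr (fun l => ((hf.shift l).mul hf.star).top) hc'.nonneg fun ε hε => ?_
  obtain ⟨n, u, d, hu, e1⟩ := appr_sup hf (ε / 2) (half_pos hε)
  choose a b ha hb hu using fun i => (hu i).2
  have hU : BM ⊤ fun x => ∑ i, u i x := bm_sum fun i _ => hu i ▸ (ha i).top.mul (hb i).top
  choose v hv v0 ev using fun i => awm_cen' e (hb i)
  have h2 := fun i (l : ℕ) => ((hv i).shift l).top.mul hf.star.top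
  have hV : BM ⊤ fun x => ∑ i, a i x * v i x := bm_sum fun i _ => (ha i).top.mul (hv i).top
  refine ⟨_, awm_sum (s := Finset.univ)
    (F := fun i l x => a i (Z.T l x) * (v i (Z.T l x) * conj (f x)))
    (fun i _ l => ((ha i).shift l).top.mul (h2 i l)) fun i _ => ?_, fun l =>
    ⟨bm_sum fun i _ => ((ha i).shift l).top.mul (h2 i l), ?_⟩⟩
  · obtain ⟨c', hc''⟩ := (ha i).1
    exact awm_mul (fun l => (ha i).shift l) (fun l => hc''.comp (Z.sys.mp l)) (h2 i)
      (awm_join h e e' hc (hv i) (v0 i) hf.star)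
  · rw [← L2_sub hf.memLp hU.memLp] at e1
    have h3 := hf.top.sub hU
    have h4 : (fun x => f x - ∑ i, a i x * v i x) =ᵐ[Z.μ]
        fun x => (f x - ∑ i, u i x) - A.E (fun x => f x - ∑ i, u i x) x := by
      filter_upwards [E_sub (W := A) hf.top hU, h0, E_sum (W := A) (s := Finset.univ)
        fun i _ => (ha i).top.mul (hb i).top, ae_all_iff.2 fun i => E_mul (ha i) (hb i).top,
        ae_all_iff.2 fun i => hc.E_eq e' (hb i), ae_all_iff.2 ev] with x a1 a2 a3 a4 a5 a6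
      simp only [hu] at a1 ⊢
      simp only [a1, a2, a3, a4, a5, a6, mul_sub, Finset.sum_sub_distrib, Pi.zero_apply]
      ring
    have h5 := norm_sub_le (L2 Z.μ fun x => f x - ∑ i, u i x)
      (L2 Z.μ (A.E fun x => f x - ∑ i, u i x))
    rw [← L2_sub h3.memLp (h3.E A).memLp, ← L2_congr h4, ← norm_L2_shift (hf.top.sub hV) l] at h5
    refine le_of_eq_of_le ?_ ((hc'.norm_L2_mul ((hf.top.sub hV).shift l).memLp).trans
      (mul_le_mul_of_nonneg_left (h5.trans ?_) hc'.nonneg))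
    · simp only [mul_comm (conj _), sub_mul, Finset.sum_mul, mul_assoc]
    · linarith [norm_L2_E_le (W := A) h3]

theorem WM.trans (h : WM D A) (h' : WM A B) (e : D ≤ A) (e' : A ≤ B) : WM D B := by
  refine awm_iff.2 fun f hf h0 => ?_
  obtain ⟨v, hv, v0, ev⟩ := awm_cen' e' hf
  have h2 := hf.E A
  have h3 := fun l : ℕ => (hv.shift l).top.mul hf.star.top
  have h4 := fun l : ℕ => (h2.shift l).top.mul hf.star.top
  refine nul_mono (fun _ => norm_nonneg _) (fun l => ?_) (nul_add (awm_le h3 e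
    (h'.bil e' hv v0 hf.star.top)) (h.bil e h2 ((E_E e).trans h0) hf.star.top))
  refine le_of_eq_of_le ?_ (norm_add_le _ _)
  rw [← L2_add ((h3 l).E D).memLp ((h4 l).E D).memLp, ← L2_congr (E_add (h3 l) (h4 l))]
  refine congrArg _ (L2_congr (E_congr ?_))
  filter_upwards [(Z.sys.mp l).quasiMeasurePreserving.ae ev] with x hx
  rw [hx, ← add_mul, sub_add_cancel]

theorem wm_prod (h : WM D A) (h' : WM D B) (e : D ≤ A) (e' : D ≤ B) (hc : CI D A B) :
    WM D (A ⊔ B) := by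
  exact h.trans (wm_join h' e' e hc) e le_sup_left

theorem CptF.mono (h : CptF D g) (e : D ≤ A) : CptF A g := by
  refine ⟨h.1, fun ε hε => ?_⟩
  obtain ⟨ι, _, Φ, c, h1, h2⟩ := h.2 ε hε
  exact ⟨ι, _, Φ, c, h1, fun l => (h2 l).imp fun _ h3 =>
    ⟨fun k => ⟨(h3.1 k).1, (h3.1 k).2.mono e⟩, h3.2⟩⟩

/-- Functions compact over `D` are orthogonal to the weakly mixing part. -/
theorem cpt_orth (h : WM D B) (e : D ≤ B) (hg : CptF D g) (hf : BM B f) (h0 : D.E f =ᵐ[Z.μ] 0) :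
    ∫ x, g x * f x ∂Z.μ = 0 := by
  obtain ⟨c, hc⟩ := hf.1
  have hG := bm_top_iff.2 hg.1
  have key : Nul fun _ => ‖∫ x, g x * f x ∂Z.μ‖ := by
    refine nul_of_forall (fun _ => norm_nonneg _) fun ε hε => ?_
    have c0 := hc.nonneg
    obtain ⟨ι, _, Φ, d, h1, h2⟩ := hg.2 (ε / (c + 1)) (by positivity)
    have hΦ : ∀ k, BM ⊤ (Φ k) := fun k => bm_top_iff.2 ⟨d, h1 k⟩
    refine ⟨_, nul_finsum Finset.univ fun k _ => nul_mul d (h.bil e hf h0 (hΦ k)), fun l => ?_⟩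
    obtain ⟨u, hu, h3⟩ := h2 l
    have hu' : ∀ k, BM D (u k) := fun k => ⟨⟨d, (hu k).1⟩, (hu k).2⟩
    have h4 : BM ⊤ fun x => ∑ k, u k x * Φ k x := bm_sum fun k _ => (hu' k).top.mul (hΦ k)
    have h5 := fun k => (hf.shift l).top.mul (hΦ k)
    have h6 := (hG.shift l).sub h4
    rw [mact_iter Z.sys.toMAct, ← L2_sub (hG.shift l).memLp h4.memLp] at h3
    have h7 : ∫ x, g x * f x ∂Z.μ = ∑ k, ∫ x, u k x * (f (Z.T l x) * Φ k x) ∂Z.μ +
        ∫ x, f (Z.T l x) * (g (Z.T l x) - ∑ k, u k x * Φ k x) ∂Z.μ := by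
      rw [← int_shift (hG.mul hf.top) l, ← integral_finsetSum _ fun k _ =>
        ((hu' k).top.mul (h5 k)).integrable, ← integral_add (bm_sum fun k _ =>
        (hu' k).top.mul (h5 k)).integrable ((hf.shift l).top.mul h6).integrable]
      simp only [mul_sub, Finset.mul_sum, mul_left_comm, add_sub_cancel, mul_comm (g _)]
    rw [h7]
    refine (norm_add_le _ _).trans (add_le_add ((norm_sum_le _ _).trans
      (Finset.sum_le_sum fun k _ => ?_)) ?_)
    · rw [← int_mul_E (hu' k) (h5 k)]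
      exact (norm_integral_le_L2 ((hu' k).mul ((h5 k).E D)).memLp).trans
        ((hu k).1.norm_L2_mul ((h5 k).E D).memLp)
    · refine ((norm_integral_le_L2 ((hf.shift l).top.mul h6).memLp).trans
        ((hc.comp (Z.sys.mp l)).norm_L2_mul h6.memLp)).trans
        ((mul_le_mul_of_nonneg_left h3 c0).trans ?_)
      rw [← mul_div_assoc, div_le_iff₀ (by positivity)]
      linarith
  exact norm_eq_zero.1 (tendsto_nhds_unique (tendsto_av_const _) key)

theorem cr (h : WM D B) (e : D ≤ B) (hg : CptF D g) (hB : BM B g) : BM D g := by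
  have h1 := awm_cen e hB.top
  have h2 := awm_star h1.1.top h1.2
  have h3 := cpt_orth h e hg h1.1.star h2
  have h4 : ∫ x, D.E g x * conj (B.E g x - D.E g x) ∂Z.μ = 0 := by
    rw [← int_mul_E (hB.E D) h1.1.star.top, ← integral_zero Z.X ℂ (μ := Z.μ)]
    exact integral_congr_ae (h2.mono fun x hx => by simp only [hx, Pi.zero_apply, mul_zero])
  have h5 := norm_L2_int h1.1.top
  rw [integral_congr_ae (g := fun x => g x * conj (B.E g x - D.E g x) -
    D.E g x * conj (B.E g x - D.E g x)) (hB.E_self.mono fun x hx => by simp only [hx, sub_mul]),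
    integral_sub (hB.mul h1.1.star).integrable ((hB.E D).top.mul h1.1.star.top).integrable, h3, h4,
    sub_self, Complex.ofReal_eq_zero, sq_eq_zero_iff, norm_eq_zero,
    L2_sub (hB.E B).memLp (hB.E D).memLp, sub_eq_zero] at h5
  exact (hB.E D).congr ((ae_of_L2 (hB.E B).top (hB.E D).top h5).symm.trans hB.E_self)

theorem wm_of_cpt (e : D ≤ B) (h : ∀ g, CptF D g → BM B g → BM D g) : WM D B := by
  exact ae_rwm (Z.sys.mp 1) B.le (B.inv 1) e (D.comap_eq 1) fun g hg hm => (h g hg ⟨hg.1, hm⟩).2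

end Pool.Agent.Lib.MP_1db5af_an.Th
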