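import Pool.Agent.Lib.MP_1db5af_an.Th.AlgV

set_option autoImplicit false

namespace Pool.Agent.Lib.MP_1db5af_an.Th

open MeasureTheory ProbabilityTheory Filter Topology ComplexConjugate
open scoped ENNReal NNReal InnerProductSpace

theorem algf_fg {A : Type} [CommGroup A] {K H : Subgroup A} (h : H.FG) (hle : K ≤ H) : K.FG := by
  rw [Subgroup.fg_iff_add_fg] at h ⊢
  exact (Submodule.fg_iff_addSubgroup_fg (AddSubgroup.toIntSubmodule K.toAddSubgroup)).1
    (((Submodule.fg_iff_addSubgroup_fg (AddSubgroup.toIntSubmodule H.toAddSubgroup)).2 h).of_le hle)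

theorem algf_tors {F : Type} [Field F] {p : ℕ} [CharP F p] (hp : p ≠ 0) {y : Fˣ}
    (hy : IsIntegral ℤ (y : F)) : IsOfFinOrder y := by
  have := Algebra.finite_adjoin_of_finite_of_isIntegral (R := ℤ) (Set.finite_singleton (y : F))
    fun x hx => hx ▸ hy
  have : Finite (Algebra.adjoin ℤ {(y : F)}) := Module.finite_of_fg_torsion _ fun x =>
    ⟨⟨p, mem_nonZeroDivisors_of_ne_zero (Int.natCast_ne_zero.2 hp)⟩, Subtype.ext (by
      simp [Submonoid.smul_def])⟩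
  refine finite_powers.1 (((Set.toFinite (Algebra.adjoin ℤ {(y : F)} : Set F)).preimage
    Units.val_injective.injOn).subset ?_)
  rintro _ ⟨n, rfl⟩
  exact pow_mem (Algebra.self_mem_adjoin_singleton ℤ (y : F)) n

/-- An embedding of the ground field extends to every finitely generated subalgebra. -/
theorem algf_ext {L F : Type} [Field L] [Field F] [Algebra L F] (φ : L →+* ℂ) {s : Set F}
    (hs : s.Finite) : ∃ Φ : Algebra.adjoin L s →+* ℂ, ∀ x, Φ (algebraMap L _ x) = φ x := by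
  let _ : Algebra L ℂ := φ.toAlgebra
  have : Algebra.FiniteType L (Algebra.adjoin L s) := .adjoin_of_finite hs
  obtain ⟨m, hm⟩ := Ideal.exists_maximal (Algebra.adjoin L s)
  let _ := Ideal.Quotient.field m
  have := finite_of_finite_type_of_isJacobsonRing L (Algebra.adjoin L s ⧸ m)
  let ψ : (Algebra.adjoin L s ⧸ m) →ₐ[L] ℂ := IsAlgClosed.lift
  exact ⟨(ψ.comp (Ideal.Quotient.mkₐ L m)).toRingHom,
    fun x => (ψ.comp (Ideal.Quotient.mkₐ L m)).commutes x⟩

/-- The two largest terms of a vanishing sum are comparable. -/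
theorem algf_two {ι : Type} [Fintype ι] {x : ι → ℂ} {o : ι} (ho : x o ≠ 0) (h : ∑ a, x a = 0) :
    ∃ a b, a ≠ b ∧ x a ≠ 0 ∧ x b ≠ 0 ∧
      |Real.log ‖x a‖ - Real.log ‖x b‖| ≤ Real.log (Fintype.card ι) := by
  classical
  obtain ⟨a, -, ha⟩ := Finset.exists_max_image Finset.univ (fun a => ‖x a‖) ⟨o, Finset.mem_univ o⟩
  have h0 : 0 < ‖x a‖ := (norm_pos_iff.2 ho).trans_le (ha o (Finset.mem_univ o))
  have h1 : ‖x a‖ ≤ ∑ c ∈ Finset.univ.erase a, ‖x c‖ := by
    rw [← Finset.add_sum_erase _ _ (Finset.mem_univ a), add_eq_zero_iff_eq_neg] at h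
    rw [h, norm_neg]
    exact norm_sum_le _ _
  obtain ⟨b, hb, hb'⟩ := Finset.exists_max_image (Finset.univ.erase a) (fun a => ‖x a‖) (by
    rw [Finset.nonempty_iff_ne_empty]
    intro e
    rw [e, Finset.sum_empty] at h1
    linarith)
  have h2 : ‖x a‖ ≤ Fintype.card ι * ‖x b‖ := by
    refine h1.trans ((Finset.sum_le_card_nsmul _ _ _ hb').trans ?_)
    rw [nsmul_eq_mul]
    exact mul_le_mul_of_nonneg_right (Nat.cast_le.2 (Finset.card_le_univ _)) (norm_nonneg _)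
  have h3 : (0 : ℝ) < Fintype.card ι := Nat.cast_pos.2 (Fintype.card_pos_iff.2 ⟨o⟩)
  have h4 : 0 < ‖x b‖ := (mul_pos_iff_of_pos_left h3).1 (h0.trans_le h2)
  have h5 := Real.log_le_log h0 h2
  have h6 := Real.log_le_log h4 (ha b (Finset.mem_univ b))
  rw [Real.log_mul h3.ne' h4.ne'] at h5
  refine ⟨a, b, (Finset.ne_of_mem_erase hb).symm, norm_pos_iff.1 h0, norm_pos_iff.1 h4, ?_⟩
  rw [abs_of_nonneg (sub_nonneg.2 h6)]
  linarith

variable {ι Λ F : Type} [Fintype ι] [Group Λ] [Field F] {μ : ℤ → Λ → ℝ} {G : Subgroup Λ}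
  {s0 s1 : ℝ} {χ : G →* Fˣ}

theorem algf_bound (h : GrpOut μ G s0 s1) {M : ℕ} {H : Subgroup Fˣ} {t : ι → F} {q : ι → Fˣ}
    {o : ι} (hχ : ∀ c, χ c ∈ H) (hq : ∀ a, q a ∈ H)
    (rel : ∀ G0 : ℤ, ∃ (d : ι → ℤ) (c : ι → G) (z : ι → Fˣ), Far G0 d ∧
      (∀ a, μ (d a) (c a) < s0 ∧ z a ∈ H ∧ χ (c a) = z a ^ M * q a) ∧ ∑ a, t a * (z a : F) = 0)
    (R : Subring F) (Φ : R →+* ℂ) (hH : ∀ u ∈ H, (u : F) ∈ R) (ht : ∀ a, t a ∈ R)
    (ho : Φ ⟨t o, ht o⟩ ≠ 0) :
    ∃ B : ℝ, ∀ (d : ℤ) (c : G), μ d c < s0 → ‖Φ ⟨χ c, hH _ (hχ c)⟩‖ ≤ B := by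
  let w : H →* ℂ := Φ.toMonoidHom.comp
    (((Units.coeHom F).comp H.subtype).codRestrict R fun u => hH u u.2)
  have w0 : ∀ u, w u ≠ 0 := fun u => ((Group.isUnit u).map w).ne_zero
  let l : H →* Multiplicative ℝ := MonoidHom.mk' (fun u => Multiplicative.ofAdd (Real.log ‖w u‖))
    fun u v => by
      rw [map_mul, norm_mul, Real.log_mul (norm_ne_zero_iff.2 (w0 u)) (norm_ne_zero_iff.2 (w0 v)),
        ofAdd_add]
  obtain ⟨A, hA⟩ := (Set.finite_range fun p : ι × ι => M * (Real.log (Fintype.card ι) +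
    |Real.log ‖Φ ⟨t p.1, ht p.1⟩‖ - Real.log ‖Φ ⟨t p.2, ht p.2⟩‖|) +
      |(l ⟨q p.1, hq p.1⟩).toAdd - (l ⟨q p.2, hq p.2⟩).toAdd|).bddAbove
  obtain ⟨C, hC⟩ := alg_slope h (l.comp (χ.codRestrict H hχ)) A fun G0 => by
    obtain ⟨d, c, z, e1, e2, e3⟩ := rel G0
    obtain ⟨a, b, hab, e4, e5, e6⟩ := algf_two (x := fun a => Φ ⟨t a, ht a⟩ * w ⟨z a, (e2 a).2.1⟩)
      (mul_ne_zero ho (w0 _)) (by
        have e7 : ∑ a, (⟨t a, ht a⟩ * ⟨z a, hH _ (e2 a).2.1⟩ : R) = 0 :=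
          Subtype.ext ((map_sum R.subtype _ _).trans e3)
        have e8 := congrArg Φ e7
        simp only [map_sum, map_mul, map_zero] at e8
        exact e8)
    refine ⟨d a, d b, c a, c b, e1 a b hab, (e2 a).1, (e2 b).1, le_trans ?_ (hA ⟨(a, b), rfl⟩)⟩
    have e7 : ∀ a, (l.comp (χ.codRestrict H hχ) (c a)).toAdd =
        M * Real.log ‖w ⟨z a, (e2 a).2.1⟩‖ + (l ⟨q a, hq a⟩).toAdd := fun a => by
      have e8 : χ.codRestrict H hχ (c a) = ⟨z a, (e2 a).2.1⟩ ^ M * ⟨q a, hq a⟩ :=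
        Subtype.ext (e2 a).2.2
      rw [MonoidHom.comp_apply, e8, map_mul, map_pow, toAdd_mul, toAdd_pow, nsmul_eq_mul]
      rfl
    simp only [norm_mul] at e6
    rw [Real.log_mul (norm_ne_zero_iff.2 (left_ne_zero_of_mul e4)) (norm_ne_zero_iff.2 (w0 _)),
      Real.log_mul (norm_ne_zero_iff.2 (left_ne_zero_of_mul e5)) (norm_ne_zero_iff.2 (w0 _))] at e6
    rw [e7, e7, add_sub_add_comm, ← mul_sub]
    refine (abs_add_le _ _).trans (add_le_add_left ?_ _)
    rw [abs_mul, Nat.abs_cast]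
    refine mul_le_mul_of_nonneg_left ?_ (Nat.cast_nonneg M)
    have e8 := abs_le.1 e6
    have e9 := le_abs_self (Real.log ‖Φ ⟨t a, ht a⟩‖ - Real.log ‖Φ ⟨t b, ht b⟩‖)
    have e10 := neg_abs_le (Real.log ‖Φ ⟨t a, ht a⟩‖ - Real.log ‖Φ ⟨t b, ht b⟩‖)
    exact abs_le.2 ⟨by linarith, by linarith⟩
  refine ⟨Real.exp C, fun d c hc => ?_⟩
  exact (Real.log_le_iff_le_exp (norm_pos_iff.2 (w0 ⟨χ c, hχ c⟩))).1
    ((le_abs_self _).trans (hC d c hc))

theorem alg_fin (h : GrpOut μ G s0 s1) (H : AlgIn (ι := ι) μ G s0 χ) :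
    {y : Fˣ | ∃ (d : ℤ) (c : G), μ d c < s1 ∧ χ c = y}.Finite := by
  classical
  have hint := alg_int h H
  obtain ⟨M, H, t, q, o, -, hfg, ht, hχ, hq, rel⟩ := H
  set S := {y : Fˣ | ∃ (d : ℤ) (c : G), μ d c < s1 ∧ χ c = y}
  have hK : (Subgroup.closure S).FG := algf_fg hfg ((Subgroup.closure_le _).2 (by
    rintro _ ⟨d, c, -, rfl⟩
    exact hχ c))
  have hI : ∀ u ∈ Subgroup.closure S, IsIntegral ℤ (u : F) := by
    intro u hu
    induction hu using Subgroup.closure_induction'' with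
    | one => exact isIntegral_one
    | mem _ hx =>
      obtain ⟨d, c, h1, rfl⟩ := hx
      exact hint d c h1
    | inv_mem _ hx =>
      obtain ⟨d, c, h1, rfl⟩ := hx
      rw [← map_inv]
      exact hint (-d) c⁻¹ ((h.symm d c).trans_lt h1)
    | mul _ _ _ _ h1 h2 => exact h1.mul h2
  obtain ⟨p, hp⟩ := CharP.exists F
  rcases eq_or_ne p 0 with rfl | hp0
  swap
  · have := (Group.fg_iff_subgroup_fg _).2 hK
    have : Finite (Subgroup.closure S) := CommGroup.finite_of_fg_isMulTorsion _ fun u =>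
      (Subgroup.subtype_injective _).isOfFinOrder_iff.1 (algf_tors hp0 (hI u u.2))
    exact (Set.toFinite (Subgroup.closure S : Set Fˣ)).subset Subgroup.subset_closure
  have : CharZero F := CharP.charP_to_charZero F
  obtain ⟨T, hT, hTf⟩ := (Subgroup.fg_iff _).1 hK
  obtain ⟨U, hU, hUf⟩ := (Subgroup.fg_iff _).1 hfg
  let L := IntermediateField.adjoin ℚ (Units.val '' T : Set F)
  have : Finite (Units.val '' T : Set F) := hTf.image _
  have : FiniteDimensional ℚ L := IntermediateField.finiteDimensional_adjoin (by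
    rintro _ ⟨u, hu, rfl⟩
    exact (hI u (hT ▸ Subgroup.subset_closure hu)).tower_top)
  have : NumberField L := {}
  have hL : ∀ u ∈ Subgroup.closure S, (u : F) ∈ L := by
    intro u hu
    rw [← hT] at hu
    induction hu using Subgroup.closure_induction with
    | one => exact L.one_mem
    | mem x hx => exact IntermediateField.subset_adjoin _ _ ⟨x, hx, rfl⟩
    | mul _ _ _ _ h1 h2 => exact L.mul_mem h1 h2
    | inv _ _ h1 =>
      rw [Units.val_inv_eq_inv_val]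
      exact L.inv_mem h1
  have hB : ∀ φ : L →+* ℂ, ∃ B : ℝ, ∀ u (hu : u ∈ S),
      ‖φ ⟨u, hL u (Subgroup.subset_closure hu)⟩‖ ≤ B := by
    intro φ
    let s : Set F := (Units.val '' U ∪ (fun u : Fˣ => ((u⁻¹ : Fˣ) : F)) '' U) ∪
      insert (t o)⁻¹ (Set.range t)
    obtain ⟨Φ, hΦ⟩ := algf_ext φ (s := s)
      (((hUf.image _).union (hUf.image _)).union ((Set.finite_range t).insert _))
    have hH : ∀ u ∈ H, (u : F) ∈ (Algebra.adjoin L s).toSubring := by
      intro u hu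
      rw [← hU] at hu
      induction hu using Subgroup.closure_induction'' with
      | one => exact one_mem _
      | mem x hx => exact Algebra.subset_adjoin (Or.inl (Or.inl ⟨x, hx, rfl⟩))
      | inv_mem x hx => exact Algebra.subset_adjoin (Or.inl (Or.inr ⟨x, hx, rfl⟩))
      | mul _ _ _ _ h1 h2 => exact mul_mem h1 h2
    have ht' : ∀ a, t a ∈ (Algebra.adjoin L s).toSubring := fun a =>
      Algebra.subset_adjoin (Or.inr (Or.inr ⟨a, rfl⟩))
    obtain ⟨B, hB⟩ := algf_bound h hχ hq rel (Algebra.adjoin L s).toSubring Φ hH ht' (o := o) (by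
      have h1 : (⟨t o, ht' o⟩ : (Algebra.adjoin L s).toSubring) *
          ⟨(t o)⁻¹, Algebra.subset_adjoin (Or.inr (Or.inl rfl))⟩ = 1 :=
        Subtype.ext (mul_inv_cancel₀ ht)
      exact left_ne_zero_of_mul_eq_one ((map_mul Φ _ _).symm.trans ((congrArg Φ h1).trans
        (map_one Φ))))
    refine ⟨B, ?_⟩
    rintro _ ⟨d, c, h1, rfl⟩
    rw [← hΦ]
    exact hB d c (h1.trans_le h.le)
  choose B hB using hB
  obtain ⟨C, hC⟩ := (Set.finite_range B).bddAbove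
  refine (((NumberField.Embeddings.finite_of_norm_le L ℂ C).image Subtype.val).preimage
    Units.val_injective.injOn).subset fun u hu => ⟨⟨u, hL u (Subgroup.subset_closure hu)⟩,
      ⟨?_, fun φ => (hB φ u hu).trans (hC ⟨φ, rfl⟩)⟩, rfl⟩
  exact (isIntegral_algHom_iff (L.val.toRingHom.toIntAlgHom) Subtype.val_injective).1
    (hI u (Subgroup.subset_closure hu))

end Pool.Agent.Lib.MP_1db5af_an.Th
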