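import Pool.Agent.Lib.MP_1db5af_an.Th.CDefs

set_option autoImplicit false

namespace Pool.Agent.Lib.MP_1db5af_an.Th

open MeasureTheory ProbabilityTheory Filter Topology ComplexConjugate
open scoped ENNReal NNReal InnerProductSpace

theorem algv_two {ι F Γ : Type} [Fintype ι] [Field F] [LinearOrderedCommGroupWithZero Γ]
    (val : Valuation F Γ) {z : ι → F} {o : ι} (ho : z o ≠ 0) (h : ∑ a, z a = 0) :
    ∃ a b, a ≠ b ∧ val (z a) = val (z b) ∧ val (z a) ≠ 0 := by
  classical
  obtain ⟨a, _, ha⟩ := Finset.exists_max_image Finset.univ (fun a => val (z a))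
    ⟨o, Finset.mem_univ o⟩
  have h0 : val (z a) ≠ 0 := fun h1 => by
    have h2 := ha o (Finset.mem_univ o)
    rw [h1, le_zero_iff, Valuation.zero_iff] at h2
    exact ho h2
  by_contra hc
  have h1 := val.map_sum_eq_of_lt (s := Finset.univ) (f := z) (Finset.mem_univ a) fun b hb =>
    lt_of_le_of_ne (ha b (Finset.mem_univ b)) fun e => hc ⟨a, b, fun e' => by
      simp [e'] at hb, e.symm, h0⟩
  rw [h, map_zero] at h1
  exact h0 h1.symm

theorem algv_sep {Δ : Type} [CommGroup Δ] [Group.FG Δ] [IsMulTorsionFree Δ] {x : Δ}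
    (h : ∀ ψ : Δ →* Multiplicative ℤ, ψ x = 1) : x = 1 := by
  have : Module.Finite ℤ (Additive Δ) := Module.Finite.iff_addGroup_fg.2 inferInstance
  have : Module.Free ℤ (Additive Δ) := inferInstance
  have h1 : Additive.ofMul x = 0 := by
    refine (Module.forall_dual_apply_eq_zero_iff ℤ _).1 fun φ => ?_
    exact congrArg Multiplicative.toAdd (h (AddMonoidHom.toMultiplicativeRight φ.toAddMonoidHom))
  exact h1

variable {ι Λ F : Type} [Fintype ι] [Group Λ] [Field F] {μ : ℤ → Λ → ℝ} {G : Subgroup Λ}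
  {s0 s1 : ℝ} {χ : G →* Fˣ}

/-- A homomorphism whose values at two far apart places stay close is bounded. -/
theorem alg_slope (h : GrpOut μ G s0 s1) (v : G →* Multiplicative ℝ) (C : ℝ)
    (H : ∀ G0 : ℤ, ∃ (d d' : ℤ) (c c' : G), G0 < |d - d'| ∧ μ d c < s0 ∧ μ d' c' < s0 ∧
      |(v c).toAdd - (v c').toAdd| ≤ C) :
    ∃ C' : ℝ, ∀ (d : ℤ) (c : G), μ d c < s0 → |(v c).toAdd| ≤ C' := by
  obtain ⟨θ, C0, h1⟩ := h.slope v
  have h0 : θ = 0 := by
    by_contra h2
    have h3 : 0 < |θ| := abs_pos.2 h2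
    obtain ⟨d, d', c, c', e1, e2, e3, e4⟩ := H ⌈(C + 2 * C0) / |θ|⌉
    have e5 : (C + 2 * C0) / |θ| < |(d : ℝ) - d'| := by
      refine (Int.le_ceil _).trans_lt ?_
      exact_mod_cast e1
    rw [div_lt_iff₀ h3, ← abs_mul] at e5
    have e6 := abs_le.1 (h1 d c e2)
    have e7 := abs_le.1 (h1 d' c' e3)
    have e8 := abs_le.1 e4
    have e9 : |((d : ℝ) - d') * θ| ≤ C + 2 * C0 := abs_le.2 ⟨by linarith, by linarith⟩
    linarith
  exact ⟨C0, fun d c hc => by simpa [h0] using h1 d c hc⟩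

theorem algv_van (h : GrpOut μ G s0 s1) {Γ : Type} [CommGroup Γ] [IsMulTorsionFree Γ]
    (w : G →* Γ) {Y : Set Γ} (hY : Y.Finite)
    (H : ∀ G0 : ℤ, ∃ (d d' : ℤ) (c c' : G), G0 < |d - d'| ∧ μ d c < s0 ∧ μ d' c' < s0 ∧
      w c / w c' ∈ Y) (d : ℤ) (c : G) (hc : μ d c < s1) : w c = 1 := by
  have := h.fg
  have h1 : w.rangeRestrict c = 1 := algv_sep fun ψ => by
    obtain ⟨C, hC⟩ := ((hY.preimage (Subtype.val_injective (p := (· ∈ w.range))).injOn).image
      fun y => |(((ψ y).toAdd : ℤ) : ℝ)|).bddAbove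
    obtain ⟨C', hC'⟩ := alg_slope h ((AddMonoidHom.toMultiplicative (Int.castAddHom ℝ)).comp
      (ψ.comp w.rangeRestrict)) C fun G0 => by
        obtain ⟨d, d', c, c', e1, e2, e3, e4⟩ := H G0
        refine ⟨d, d', c, c', e1, e2, e3, ?_⟩
        have e5 := hC ⟨w.rangeRestrict c / w.rangeRestrict c', e4, rfl⟩
        simp only [map_div, toAdd_div, Int.cast_sub] at e5
        exact e5
    refine h.van (ψ.comp w.rangeRestrict) ⟨⌈C'⌉, fun d c hc => ?_⟩ d c hc
    have e1 : |(((ψ (w.rangeRestrict c)).toAdd : ℤ) : ℝ)| ≤ ⌈C'⌉ :=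
      (hC' d c hc).trans (Int.le_ceil _)
    exact_mod_cast e1
  exact congrArg Subtype.val h1

theorem alg_int (h : GrpOut μ G s0 s1) (H : AlgIn (ι := ι) μ G s0 χ) (d : ℤ) (c : G)
    (hc : μ d c < s1) : IsIntegral ℤ ((χ c : Fˣ) : F) := by
  obtain ⟨M, _, t, q, o, _, _, ht, _, _, H⟩ := H
  have h1 : ∀ V : ValuationSubring F, ((χ c : Fˣ) : F) ∈ V := fun V => by
    let u : Fˣ →* V.ValueGroupˣ := Units.map V.valuation.toMonoidWithZeroHom.toMonoidHom
    have hu : ∀ y : Fˣ, ((u y : V.ValueGroupˣ) : V.ValueGroup) = V.valuation y := fun _ => rfl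
    have : IsMulTorsionFree V.ValueGroupˣ :=
      Function.Injective.isMulTorsionFree (Units.coeHom _) Units.val_injective
    have h2 := algv_van h (u.comp χ) ((Set.finite_range fun p : ι × ι =>
      (V.valuation (t p.2) / V.valuation (t p.1)) ^ M * (V.valuation (q p.1) /
        V.valuation (q p.2))).preimage Units.val_injective.injOn) (fun G0 => by
      obtain ⟨d, c, z, e1, e2, e3⟩ := H G0
      obtain ⟨a, b, hab, e4, e5⟩ := algv_two V.valuation (z := fun a => t a * (z a : F))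
        (mul_ne_zero ht (z o).ne_zero) e3
      refine ⟨d a, d b, c a, c b, e1 a b hab, (e2 a).1, (e2 b).1, (a, b), ?_⟩
      simp only [map_mul] at e4 e5
      have e6 : V.valuation (t b) / V.valuation (t a) = V.valuation (z a) / V.valuation (z b) := by
        rw [div_eq_div_iff (left_ne_zero_of_mul e5) ((map_ne_zero _).2 (z b).ne_zero), ← e4,
          mul_comm]
      simp only [MonoidHom.comp_apply, Units.val_div_eq_div_val, hu, (e2 a).2.2, (e2 b).2.2,
        Units.val_mul, Units.val_pow_eq_pow_val, map_mul, map_pow, e6, div_pow,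
        mul_div_mul_comm]) d c hc
    have h3 : V.valuation ((χ c : Fˣ) : F) = 1 := congrArg Units.val h2
    exact (V.valuation_le_one_iff _).1 h3.le
  have h2 : ((χ c : Fˣ) : F) ∈ (integralClosure (Subring.closure (∅ : Set F)) F).toSubring := by
    rw [← iInf_valuationSubring_superset]
    exact Subring.mem_iInf.2 fun V => h1 V.1
  have h3 : IsIntegral (Subring.closure (∅ : Set F)) ((χ c : Fˣ) : F) := h2
  have : Algebra.IsIntegral ℤ (Subring.closure (∅ : Set F)) := ⟨fun x => by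
    have h4 : (x : F) ∈ (⊥ : Subring F) := by
      rw [← Subring.closure_empty]
      exact x.2
    obtain ⟨n, hn⟩ := Subring.mem_bot.1 h4
    have h5 : x = algebraMap ℤ _ n := Subtype.ext (by simp [← hn])
    rw [h5]
    exact isIntegral_algebraMap⟩
  exact isIntegral_trans _ h3

end Pool.Agent.Lib.MP_1db5af_an.Th
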