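import Pool.Agent.Lib.MP_1db5af_an.Th.BDefs

set_option autoImplicit false

namespace Pool.Agent.Lib.MP_1db5af_an.Th

variable {A A' A'' : Type} [AddCommGroup A] [AddCommGroup A'] [AddCommGroup A'']
  {R0 : AddSubgroup A} {R1 : AddSubgroup A'} {R2 : AddSubgroup A''}

theorem bg_sv {g : AddSubgroup (A × A')} (h : IsArr R0 R1 g) : SV R0 R1 g :=
  ⟨fun x hx => (h.1 x).2 hx, h.2⟩

theorem bg_mem_flip {g : AddSubgroup (A × A')} (x : A) (y : A') : (y, x) ∈ gflip g ↔ (x, y) ∈ g :=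
  Iff.rfl

theorem bg_flip {g : AddSubgroup (A × A')} (h : IsArr R0 R1 g) : IsArr R1 R0 (gflip g) :=
  ⟨h.2, h.1⟩

theorem bg_iff {g : AddSubgroup (A × A')} (h : IsArr R0 R1 g) {x : A} {y : A'}
    (hxy : (x, y) ∈ g) : x ∈ R0 ↔ y ∈ R1 := by
  rw [← h.1, ← h.2]
  constructor <;> intro e <;> simpa using g.sub_mem hxy e

theorem bg_comp {g : AddSubgroup (A × A')} {f : AddSubgroup (A' × A'')} (h : IsArr R0 R1 g)
    (h' : IsArr R1 R2 f) : IsArr R0 R2 (gcomp g f) :=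
  ⟨fun x => ⟨fun ⟨_, h1, h2⟩ => (bg_iff h h1).2 ((h'.1 _).1 h2),
      fun hx => ⟨0, (h.1 x).2 hx, f.zero_mem⟩⟩,
    fun z => ⟨fun ⟨_, h1, h2⟩ => (bg_iff h' h2).1 ((h.2 _).1 h1),
      fun hz => ⟨0, g.zero_mem, (h'.2 z).2 hz⟩⟩⟩

theorem bg_prod : IsArr R0 R1 (R0.prod R1) :=
  ⟨fun _ => ⟨fun h => h.1, fun h => ⟨h, R1.zero_mem⟩⟩,
    fun _ => ⟨fun h => h.2, fun h => ⟨R0.zero_mem, h⟩⟩⟩

end Pool.Agent.Lib.MP_1db5af_an.Th
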