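import Pool.Agent.Lib.MP_1db5af_an.Th.Ext

set_option autoImplicit false

namespace Pool.Agent.Lib.MP_1db5af_an.Th

open MeasureTheory ProbabilityTheory Filter Topology ComplexConjugate
open scoped ENNReal NNReal InnerProductSpace

variable {A A' : Type} [AddCommGroup A] [AddCommGroup A'] [Countable A] [Countable A']
  {τ : ℤ → A →+ A} {τ' : ℤ → A' →+ A'} {Ω : MS} {g : Ω.X → AddSubgroup (A × A')}

omit [AddCommGroup A] in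
theorem rel_trunc {E : A → Set Ω.X} (hE : ∀ x, MeasurableSet (E x)) {ε : ℝ} (hε : 0 < ε) :
    ∃ S : Finset A, Ω.ν.real ((⋃ x, E x) \ ⋃ x ∈ S, E x) ≤ ε := by
  have h1 := tendsto_measure_iInter_atTop (μ := Ω.ν)
    (s := fun S : Finset A => (⋃ x, E x) \ ⋃ x ∈ S, E x)
    (fun S => ((MeasurableSet.iUnion hE).diff
      (S.measurableSet_biUnion fun x _ => hE x)).nullMeasurableSet)
    (fun S S' h => Set.sdiff_subset_sdiff_right (Set.biUnion_subset_biUnion_left h))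
    ⟨∅, measure_ne_top _ _⟩
  have h2 : (⋂ S : Finset A, (⋃ x, E x) \ ⋃ x ∈ S, E x) = ∅ :=
    Set.eq_empty_of_forall_notMem fun ω h => by
      obtain ⟨x, hx⟩ := Set.mem_iUnion.1 (Set.mem_iInter.1 h ∅).1
      exact (Set.mem_iInter.1 h {x}).2 (Set.mem_biUnion (Finset.mem_singleton_self x) hx)
  rw [h2, measure_empty] at h1
  obtain ⟨S, hS⟩ := (h1.eventually (Iic_mem_nhds (ENNReal.ofReal_pos.2 hε))).exists
  exact ⟨S, ENNReal.toReal_le_of_le_ofReal hε.le hS⟩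

omit [Countable A] [Countable A'] in
theorem rel_dom {g : AddSubgroup (A × A')} {x : A} : x ∈ gdom g ↔ ∃ y, (x, y) ∈ g :=
  ⟨fun ⟨p, h, e⟩ => ⟨p.2, e ▸ h⟩, fun ⟨_, h⟩ => ⟨_, h, rfl⟩⟩

omit [Countable A] [Countable A'] in
theorem rel_pre {g : AddSubgroup (A × A')} {D : AddSubgroup A'} {x : A} :
    x ∈ gpre g D ↔ ∃ y, (x, y) ∈ g ∧ y ∈ D := rel_dom

theorem rwrel (hτ : Act τ) (hτ' : Act τ') (hg : Rsg Ω (tau2 τ τ') g) {C : Ω.X → AddSubgroup A}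
    (hC : Rsg Ω τ C) (hC' : Clo Ω τ C) {K B : Ω.X → AddSubgroup A'} (hK : Rsg Ω τ' K)
    (hB : Rsg Ω τ' B) (h0 : ∀ᵐ ω ∂Ω.ν, K ω ≤ B ω)
    (h1 : ∀ᵐ ω ∂Ω.ν, ∀ y ∈ B ω, ∃ x, (x, y) ∈ g ω)
    (h2 : ∀ᵐ ω ∂Ω.ν, ∀ x y, (x, y) ∈ g ω → (x ∈ C ω ↔ y ∈ K ω)) : RW Ω τ' K B := by
  intro y y'
  refine nul_of_forall (fun _ => measureReal_nonneg) fun ε hε => ?_
  obtain ⟨S, hS⟩ := rel_trunc (fun x => hg.meas (x, y)) (half_pos hε)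
  obtain ⟨S', hS'⟩ := rel_trunc (fun x => hg.meas (x, y')) (half_pos hε)
  refine ⟨_, nul_finsum (S ×ˢ S') fun p _ => hC' p.1 p.2, fun l => ?_⟩
  rw [← (Ω.sys.mp l).measureReal_preimage ((MeasurableSet.iUnion fun x => hg.meas (x, y')).diff
    (S'.measurableSet_biUnion fun x _ => hg.meas (x, y'))).nullMeasurableSet] at hS'
  refine le_trans ?_ (add_le_add (measureReal_biUnion_finset_le _ _)
    (((measureReal_union_le _ _).trans (add_le_add hS hS')).trans (add_halves ε).le))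
  refine le_trans (ENNReal.toReal_mono (measure_ne_top _ _) (measure_mono_ae ?_))
    (measureReal_union_le _ _)
  filter_upwards [h0, h1, h2, sys_ae Ω.sys h1, hB.eqv, hg.eqv] with ω e0 e1 e2 e3 e4 e5 ⟨b1, b2, b3⟩
  refine or_iff_not_imp_right.2 fun hn => ?_
  obtain ⟨x, hx, c1⟩ := Set.mem_iUnion₂.1 (not_not.1 fun c =>
    hn (.inl ⟨Set.mem_iUnion.2 (e1 y b1), c⟩))
  obtain ⟨x', hx', c2⟩ := Set.mem_iUnion₂.1 (not_not.1 fun c => hn (.inr ⟨Set.mem_iUnion.2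
    (e3 l y' ((e4 l y').2 (by simpa using (B ω).sub_mem b1 (e0 b3)))), c⟩))
  exact Set.mem_biUnion (x := (x, x')) (Finset.mem_product.2 ⟨hx, hx'⟩) ⟨trivial,
    fun c => b2 ((e2 x y c1).1 c), (e2 _ _ ((g ω).sub_mem c1 ((e5 l _).1 c2))).2 b3⟩

/-- Closed subgroups above the kernel are transported by a relation. -/
theorem rel_push (hτ : Act τ) (hτ' : Act τ') (hg : Rsg Ω (tau2 τ τ') g) {C : Ω.X → AddSubgroup A}
    (hC : Rsg Ω τ C) (hC' : Clo Ω τ C) (h : ∀ᵐ ω ∂Ω.ν, ∀ x, (x, 0) ∈ g ω → x ∈ C ω) :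
    ∃ C', Rsg Ω τ' C' ∧ Clo Ω τ' C' ∧
      ∀ᵐ ω ∂Ω.ν, ∀ x y, (x, y) ∈ g ω → (x ∈ C ω ↔ y ∈ C' ω) := by
  have h2 : ∀ᵐ ω ∂Ω.ν, ∀ x y, (x, y) ∈ g ω → (x ∈ C ω ↔ y ∈ gpre (gflip (g ω)) (C ω)) :=
    h.mono fun ω e x y c => ⟨fun c' => rel_pre.2 ⟨x, c, c'⟩, fun c' => by
      obtain ⟨x', c1, c2⟩ := rel_pre.1 c'
      have c3 : (x, y) - (x', y) ∈ g ω := (g ω).sub_mem c c1
      rw [Prod.mk_sub_mk, sub_self] at c3
      simpa using (C ω).add_mem (e _ c3) c2⟩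
  have hK := hg.gflip.gpre hτ' hτ hC
  have hB := hg.gflip.gdom hτ' hτ
  obtain ⟨C', c1, c2, c3⟩ := ext_clo hτ' hK hB (rwrel hτ hτ' hg hC hC' hK hB
    (.of_forall fun ω y c => rel_dom.2 ((rel_pre.1 c).imp fun _ c => c.1))
    (.of_forall fun ω y c => rel_dom.1 c) h2)
  refine ⟨C', c1, c2, ?_⟩
  filter_upwards [h2, c3] with ω e1 e2 x y c
  exact (e1 x y c).trans ⟨fun c' => e2.1 c', fun c' => e2.2 ⟨rel_dom.2 ⟨x, c⟩, c'⟩⟩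

theorem full_top : Full Ω τ fun _ => ⊤ :=
  fun _ _ _ h => h.mono fun _ => top_le_iff.1

theorem Full.mono {D D' : Ω.X → AddSubgroup A} (h : Full Ω τ D) (e : ∀ᵐ ω ∂Ω.ν, D ω ≤ D' ω) :
    Full Ω τ D' :=
  fun C h1 h2 h3 => h C h1 h2 ((e.and h3).mono fun _ c => c.1.trans c.2)

theorem full_pre (hτ : Act τ) (hτ' : Act τ') (hg : Rsg Ω (tau2 τ τ') g)
    {D : Ω.X → AddSubgroup A'} (hD : Rsg Ω τ' D) (h1 : Full Ω τ fun ω => gdom (g ω))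
    (h2 : Full Ω τ' D) : Full Ω τ fun ω => gpre (g ω) (D ω) := by
  intro C c1 c2 c3
  obtain ⟨C', d1, d2, d3⟩ := rel_push hτ hτ' (hg.gcomp hτ' hD.gid) c1 c2
    (c3.mono fun ω e x ⟨y, e1, e2⟩ => e (rel_pre.2 ⟨y, e1, by simpa [gid] using e2⟩))
  refine h1 C c1 c2 ?_
  filter_upwards [d3, h2 C' d1 d2 (d3.mono fun ω e y c =>
    (e 0 y ⟨0, (g ω).zero_mem, by simpa [gid] using c⟩).1 (C ω).zero_mem)] with ω e1 e2 x c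
  obtain ⟨y, c⟩ := rel_dom.1 c
  exact (e1 x y ⟨y, c, by simp [gid]⟩).2 (e2 ▸ trivial)

theorem full_inf (hτ : Act τ) {D D' : Ω.X → AddSubgroup A} (hD : Rsg Ω τ D) (hD' : Rsg Ω τ D')
    (h1 : Full Ω τ D) (h2 : Full Ω τ D') : Full Ω τ fun ω => D ω ⊓ D' ω := by
  refine (full_pre hτ hτ (hD.map hτ (act_tau2 hτ hτ)
    (φ := (AddMonoidHom.id A).prod (AddMonoidHom.id A)) fun _ _ => rfl) hD'
    (h1.mono (.of_forall fun ω x c => rel_dom.2 ⟨x, x, c, rfl⟩)) h2).mono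
    (.of_forall fun ω x c => ?_)
  obtain ⟨y, ⟨z, c1, c2⟩, c3⟩ := rel_pre.1 c
  obtain ⟨rfl, rfl⟩ := Prod.mk.inj c2
  exact ⟨c1, c3⟩

theorem ker_clo (hτ : Act τ) (hτ' : Act τ') (hg : Rsg Ω (tau2 τ τ') g) {R : Ω.X → AddSubgroup A'}
    (hR : Rsg Ω τ' R) (hR' : Clo Ω τ' R) (h : ∀ᵐ ω ∂Ω.ν, ∀ y, (0, y) ∈ g ω ↔ y ∈ R ω) :
    ∃ C, Rsg Ω τ C ∧ Clo Ω τ C ∧
      ∀ᵐ ω ∂Ω.ν, gker (g ω) ≤ C ω ∧ gdom (g ω) ⊓ C ω ≤ gker (g ω) := by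
  obtain ⟨C, c1, c2, c3⟩ := rel_push hτ' hτ hg.gflip hR hR' (h.mono fun ω e y c => (e y).1 c)
  refine ⟨C, c1, c2, ?_⟩
  filter_upwards [h, c3] with ω e1 e2
  refine ⟨fun x c => (e2 0 x c).1 (R ω).zero_mem, fun x c => ?_⟩
  obtain ⟨y, d⟩ := rel_dom.1 c.1
  have d1 : (x, y) - (0, y) ∈ g ω := (g ω).sub_mem d ((e1 y).2 ((e2 y x d).2 c.2))
  rwa [Prod.mk_sub_mk, sub_self, sub_zero] at d1

theorem rel_le (hτ : Act τ) {K K' : Ω.X → AddSubgroup A} (h : Rsg Ω τ K) (h' : Rsg Ω τ K') :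
    MeasurableSet {ω | K ω ≤ K' ω} ∧
      ∀ᵐ ω ∂Ω.ν, ∀ k, Ω.T k ω ∈ {ω | K ω ≤ K' ω} ↔ ω ∈ {ω | K ω ≤ K' ω} := by
  refine ⟨?_, ?_⟩
  · simp only [SetLike.le_def, Set.ofPred_forall]
    exact MeasurableSet.iInter fun x => by
      simpa only [← Set.ofPred_forall] using (h.meas x).imp (h'.meas x)
  filter_upwards [h.eqv, h'.eqv] with ω e e' k
  refine ⟨fun c x d => ?_, fun c x d => (e' k x).2 (c ((e k x).1 d))⟩
  have e1 : τ k (τ (-k) x) = x := by rw [← hτ.add, add_neg_cancel, hτ.zero]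
  exact e1 ▸ (e' k _).1 (c ((e k _).2 (e1.symm ▸ d)))

theorem z3 (hτ : Act τ) (hτ' : Act τ') (hg : Rsg Ω (tau2 τ τ') g) {R : Ω.X → AddSubgroup A'}
    (hR : Rsg Ω τ' R) (hR' : Clo Ω τ' R) (h : ∀ᵐ ω ∂Ω.ν, ∀ y, (0, y) ∈ g ω ↔ y ∈ R ω)
    {D : Ω.X → AddSubgroup A} (hD : Rsg Ω τ D) (hF : Full Ω τ fun ω => D ω ⊓ gdom (g ω)) :
    ∀ᵐ ω ∂Ω.ν, D ω ⊓ gdom (g ω) ≤ gker (g ω) → gdom (g ω) ≤ gker (g ω) := by
  obtain ⟨C, c1, c2, c3⟩ := ker_clo hτ hτ' hg hR hR' h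
  obtain ⟨d1, d2⟩ := rel_le hτ (hD.inf (hg.gdom hτ hτ')) hg.gker
  filter_upwards [c3, hF _ (c1.ite rsg_top d1 d2) (c2.ite clo_top _) (c3.mono fun ω e => by
    split_ifs with c
    exacts [le_trans c e.1, le_top])] with ω e1 e2 c
  rw [if_pos c] at e2
  exact (le_inf le_rfl (e2 ▸ le_top)).trans e1.2

end Pool.Agent.Lib.MP_1db5af_an.Th
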