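import Pool.Agent.Lib.MP_1db5af_an.Th.BAux
import Pool.Agent.Lib.MP_1db5af_an.Th.BGen
import Pool.Agent.Lib.MP_1db5af_an.Th.Rel

set_option autoImplicit false

namespace Pool.Agent.Lib.MP_1db5af_an.Th

open MeasureTheory ProbabilityTheory Filter Topology ComplexConjugate
open scoped ENNReal NNReal InnerProductSpace

variable {ι : Type} [Countable ι] {Z : CS} {R : Z.X → AddSubgroup (AA ι)} {Y : MS}
  {π π' : Y.X → Z.X}

theorem b_z2 (hR : Rsg Z.toMS (tau ι ℤ) R) (hC : Clo Z.toMS (tau ι ℤ) R) (hS : GSimple Z.toMS R)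
    (hπ : Ext Y Z.toMS π) (hπ' : Ext Y Z.toMS π') {g : Y.X → AddSubgroup (AA ι × AA ι)}
    (hg : Rsg Y (tt ι) g) (h : ∀ᵐ y ∂Y.ν, SV (R (π y)) (R (π' y)) (g y)) :
    ∀ᵐ y ∂Y.ν, ∀ i, (em i, 0) ∈ g y → em i ∉ R (π y) → GNull (R (π' y)) (g y) := by
  obtain ⟨C, h1, h2, h3⟩ := ker_clo act_tau act_tau hg (hR.ext hπ') (RW.ext hC hR rsg_top hπ')
    (h.mono fun _ hy => hy.2)
  have h4 := hS Y π hπ C h1 h2 (by
    filter_upwards [h, h3] with y e1 e2 x hx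
    exact e2.1 (e1.1 x hx))
  filter_upwards [h, h3, h4] with y e1 e2 e3 i hi hn p hp
  have e4 : C y = ⊤ := e3.resolve_right fun e => hn (e i.1 i.2 (e2.1 hi))
  have e5 : (p.1, 0) ∈ g y := e2.2 ⟨⟨p, hp, rfl⟩, e4 ▸ AddSubgroup.mem_top _⟩
  refine (e1.2 _).1 ?_
  simpa only [Prod.sub_def, sub_self, sub_zero] using (g y).sub_mem hp e5

section Alg

variable {A A' : Type} [AddCommGroup A] [AddCommGroup A'] {R0 : AddSubgroup A}
  {R1 : AddSubgroup A'} {g g' : AddSubgroup (A × A')}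

theorem bz2_mem {x : A} {y y' : A'} (h : (x, y) ∈ g) (h' : (x, y') ∈ g') :
    (x, y - y') ∈ gadd g (gneg g') :=
  ⟨y, h, show (x, -(y - y' - y)) ∈ g' by rwa [sub_sub_cancel_left, neg_neg]⟩

theorem bz2_sv (h : IsArr R0 R1 g) (h' : IsArr R0 R1 g') : SV R0 R1 (gadd g (gneg g')) := by
  refine ⟨fun x hx => ?_, fun z => ⟨fun ⟨y, h1, h2⟩ => ?_, fun hz => ?_⟩⟩
  · simpa only [sub_zero] using bz2_mem ((h.1 x).2 hx) ((h'.1 x).2 hx)
  · have h3 : -(z - y) ∈ R1 := (h'.2 _).1 h2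
    simpa only [neg_sub, sub_sub_cancel] using R1.sub_mem ((h.2 y).1 h1) h3
  · simpa only [sub_zero] using bz2_mem ((h.2 z).2 hz) g'.zero_mem

theorem bz2_sup (h : IsArr R0 R1 g) (hn : GNull R1 (gadd g (gneg g'))) (z : A') :
    (0, z) ∈ g ⊔ g' ↔ z ∈ R1 := by
  refine ⟨fun hz => ?_, fun hz => AddSubgroup.mem_sup_left ((h.2 z).2 hz)⟩
  obtain ⟨⟨x, y⟩, h1, ⟨x', y'⟩, h2, e⟩ := AddSubgroup.mem_sup.1 hz
  obtain ⟨e1, rfl⟩ := Prod.mk.inj e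
  have h3 : (x, -y') ∈ g' := by
    rw [show x = -x' from eq_neg_of_add_eq_zero_left e1]
    exact g'.neg_mem h2
  simpa only [sub_neg_eq_add] using hn _ (bz2_mem h1 h3)

theorem bz2_flip (x : A) (y : A') : (x, y) ∈ g ⊔ g' ↔ (y, x) ∈ gflip g ⊔ gflip g' := by
  simp only [AddSubgroup.mem_sup]
  exact ⟨fun ⟨p, h1, q, h2, e⟩ => ⟨p.swap, h1, q.swap, h2, congrArg Prod.swap e⟩,
    fun ⟨p, h1, q, h2, e⟩ => ⟨p.swap, h1, q.swap, h2, congrArg Prod.swap e⟩⟩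

end Alg

theorem b_join (hR : Rsg Z.toMS (tau ι ℤ) R) (hC : Clo Z.toMS (tau ι ℤ) R) (hS : GSimple Z.toMS R)
    (hπ : Ext Y Z.toMS π) (hπ' : Ext Y Z.toMS π') {g g' : Y.X → AddSubgroup (AA ι × AA ι)}
    (hg : Rsg Y (tt ι) g) (hg' : Rsg Y (tt ι) g')
    (h : ∀ᵐ y ∂Y.ν, IsArr (R (π y)) (R (π' y)) (g y))
    (h' : ∀ᵐ y ∂Y.ν, IsArr (R (π y)) (R (π' y)) (g' y)) :
    ∀ᵐ y ∂Y.ν, ∀ i j, (em i, em j) ∈ g y → (em i, em j) ∈ g' y → em i ∉ R (π y) →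
      IsArr (R (π y)) (R (π' y)) (g y ⊔ g' y) := by
  have h1 := b_z2 hR hC hS hπ hπ' (Rsg.gadd act_tau hg hg'.gneg) (by
    filter_upwards [h, h'] with y e e' using bz2_sv e e')
  have h2 := b_z2 hR hC hS hπ' hπ (Rsg.gadd act_tau hg.gflip hg'.gflip.gneg) (by
    filter_upwards [h, h'] with y e e' using bz2_sv (bg_flip e) (bg_flip e'))
  filter_upwards [h, h', h1, h2] with y e _ e1 e2 i j hi hi' hn
  have e3 := e1 i (by simpa only [sub_self] using bz2_mem hi hi') hn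
  have e4 := e2 j (by
    simpa only [sub_self] using bz2_mem ((bg_mem_flip _ _).2 hi) ((bg_mem_flip _ _).2 hi'))
    fun hj => hn ((bg_iff e hi).2 hj)
  exact ⟨fun x => (bz2_flip x 0).trans (bz2_sup (bg_flip e) e4 x), bz2_sup e e3⟩

end Pool.Agent.Lib.MP_1db5af_an.Th
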