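import Pool.Agent.Lib.MP_1db5af_an.Th.BArK
import Pool.Agent.Lib.MP_1db5af_an.Th.BZ2

set_option autoImplicit false

namespace Pool.Agent.Lib.MP_1db5af_an.Th

open MeasureTheory ProbabilityTheory Filter Topology ComplexConjugate
open scoped ENNReal NNReal InnerProductSpace

variable {ι : Type} [Countable ι] {Z : CS} {R : Z.X → AddSubgroup (AA ι)}
  {Λ : Kernel (Z.X × Z.X) (AA ι × AA ι → Bool)} [IsMarkovKernel Λ]

/-- Two arrows through a common marked pair lie in one arrow. -/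
theorem ark_join (hR : Rsg Z.toMS (tau ι ℤ) R) (hC : Clo Z.toMS (tau ι ℤ) R) (hS : GSimple Z.toMS R)
    (h : ArK Z R Λ) : ∀ᵐ p ∂Z.μ.prod Z.μ, ∀ a b l, ee a l ∉ R p.1 → ∀ z z' w w',
      Λ p {s | mpr a b l ∈ dec s ∧ z ∈ dec s} ≠ 0 → Λ p {s | mpr a b l ∈ dec s ∧ z' ∈ dec s} ≠ 0 →
      w ∈ AddSubgroup.closure {mpr a b l, z, z'} → w' ∈ AddSubgroup.closure {mpr a b l, z, z'} →
      Λ p {s | w ∈ dec s ∧ w' ∈ dec s} ≠ 0 := by
  classical
  have hA : Act (tt ι) := bx_act_tt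
  have hS2 := mact_prod (mact_shS hA) (mact_shS hA)
  have hE := eqv_prod (mact_shS hA) (mact_shS hA) h.eqv h.eqv
  let Y : MS := (Z.toMS.prod Z.toMS).cp hS2 (Λ ×ₖ Λ) hE
  have e2 : Ext2 Y Z.toMS (fun y => y.1.1) fun y => y.1.2 :=
    (bx_prod2 Z.toMS).comp (bx_cp (Z.toMS.prod Z.toMS) hS2 (Λ ×ₖ Λ) hE)
  have r1 : Rsg Y (tt ι) fun y => dec y.2.1 :=
    rsg_dec hA (measurable_fst.comp measurable_snd) fun k => Eventually.of_forall fun _ => rfl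
  have r2 : Rsg Y (tt ι) fun y => dec y.2.2 :=
    rsg_dec hA (measurable_snd.comp measurable_snd) fun k => Eventually.of_forall fun _ => rfl
  have q1 := hR.ext e2.fst
  have q2 := hR.ext e2.snd
  have a1 : ∀ᵐ y ∂Y.ν, IsArr (R y.1.1) (R y.1.2) (dec y.2.1) := by
    refine (Measure.ae_compProd_iff (bx_meas_arr q1.meas q2.meas r1.meas)).2 ?_
    filter_upwards [h.arr] with p hp
    rw [Kernel.prod_apply]
    exact Measure.quasiMeasurePreserving_fst.ae hp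
  have a2 : ∀ᵐ y ∂Y.ν, IsArr (R y.1.1) (R y.1.2) (dec y.2.2) := by
    refine (Measure.ae_compProd_iff (bx_meas_arr q1.meas q2.meas r2.meas)).2 ?_
    filter_upwards [h.arr] with p hp
    rw [Kernel.prod_apply]
    exact Measure.quasiMeasurePreserving_snd.ae hp
  have r3 := r1.sup hA r2
  have r4 := r3.ite r1 (E := {y | IsArr (R y.1.1) (R y.1.2) (dec y.2.1 ⊔ dec y.2.2)})
    (bx_meas_arr q1.meas q2.meas r3.meas) (bx_arr_inv act_tau act_tau q1 q2 r3)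
  have m := h.max Y _ _ e2 _ r4 (by
    filter_upwards [a1] with y hy
    split_ifs with h1
    · exact h1
    · exact hy)
  have key : ∀ᵐ y ∂Y.ν, ∀ a b l, ee a l ∉ R y.1.1 → mpr a b l ∈ dec y.2.1 →
      mpr a b l ∈ dec y.2.2 → ∀ w ∈ dec y.2.1 ⊔ dec y.2.2, ∀ w' ∈ dec y.2.1 ⊔ dec y.2.2,
        Λ y.1 {s | w ∈ dec s ∧ w' ∈ dec s} ≠ 0 := by
    filter_upwards [m, b_join hR hC hS e2.fst e2.snd r1 r2 a1 a2] with y h1 h2 a b l h3 h4 h5 w hw
      w' hw'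
    have h6 := h2 (a, l) (b, l) h4 h5 h3
    refine h1 w w' ?_ ?_
    · rwa [if_pos h6]
    · rwa [if_pos h6]
  filter_upwards [Measure.ae_ae_of_ae_compProd key] with p hp a b l h1 z z' w w' h2 h3 hw hw'
  rw [Kernel.prod_apply] at hp
  obtain ⟨s, ⟨⟨h4, h5⟩, h6, h7⟩, h8⟩ := Measure.exists_mem_of_measure_ne_zero_of_ae
    (s := {s | mpr a b l ∈ dec s ∧ z ∈ dec s} ×ˢ {s | mpr a b l ∈ dec s ∧ z' ∈ dec s})
    (by rw [Measure.prod_prod]; exact mul_ne_zero h2 h3) (ae_restrict_of_ae hp)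
  have h9 : AddSubgroup.closure {mpr a b l, z, z'} ≤ dec s.1 ⊔ dec s.2 := by
    rw [AddSubgroup.closure_le]
    rintro _ (rfl | rfl | rfl)
    · exact AddSubgroup.mem_sup_left h4
    · exact AddSubgroup.mem_sup_left h5
    · exact AddSubgroup.mem_sup_right h7
  exact h8 a b l h1 h4 h6 w (h9 hw) w' (h9 hw')

theorem ark_c1 (hR : Rsg Z.toMS (tau ι ℤ) R) (hC : Clo Z.toMS (tau ι ℤ) R) (hS : GSimple Z.toMS R)
    (h : ArK Z R Λ) : ∀ᵐ p ∂Z.μ.prod Z.μ, ∀ a b l, ee a l ∉ R p.1 → Rl Λ p a b l l →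
      IsArr (R p.1) (R p.2) (Cl Λ p a b l) ∧ mpr a b l ∈ Cl Λ p a b l ∧
      ∀ z ∈ Cl Λ p a b l, Λ p {s | mpr a b l ∈ dec s ∧ z ∈ dec s} ≠ 0 := by
  filter_upwards [ark_join hR hC hS h, h.arr] with p hp ha a b l h1 h2
  have m0 : ∀ z z' : AA ι × AA ι, mpr a b l ∈ AddSubgroup.closure {mpr a b l, z, z'} :=
    fun z z' => AddSubgroup.subset_closure (by simp)
  have m1 : ∀ z z' : AA ι × AA ι, z ∈ AddSubgroup.closure {mpr a b l, z, z'} :=
    fun z z' => AddSubgroup.subset_closure (by simp)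
  have m2 : ∀ z z' : AA ι × AA ι, z' ∈ AddSubgroup.closure {mpr a b l, z, z'} :=
    fun z z' => AddSubgroup.subset_closure (by simp)
  have key : ∀ z ∈ Cl Λ p a b l, Λ p {s | mpr a b l ∈ dec s ∧ z ∈ dec s} ≠ 0 := by
    intro z hz
    induction hz using AddSubgroup.closure_induction with
    | mem z hz => exact hz
    | zero => exact hp a b l h1 _ _ _ _ h2 h2 (m0 _ _) (zero_mem _)
    | add z z' _ _ hz hz' => exact hp a b l h1 _ _ _ _ hz hz' (m0 _ _) (add_mem (m1 _ _) (m2 _ _))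
    | neg z _ hz => exact hp a b l h1 _ _ _ _ hz hz (m0 _ _) (neg_mem (m1 _ _))
  have k1 : ∀ z ∈ Cl Λ p a b l, ∃ s, IsArr (R p.1) (R p.2) (dec s) ∧ z ∈ dec s := fun z hz => by
    obtain ⟨s, h3, h4⟩ := Measure.exists_mem_of_measure_ne_zero_of_ae (key z hz)
      (ae_restrict_of_ae ha)
    exact ⟨s, h4, h3.2⟩
  have k2 : ∀ z, (∀ s, IsArr (R p.1) (R p.2) (dec s) → z ∈ dec s) → z ∈ Cl Λ p a b l :=
    fun z hz => AddSubgroup.subset_closure fun h0 => h2 (measure_mono_null_ae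
      (ha.mono fun s hs h3 => ⟨h3.1, hz s hs⟩) h0)
  refine ⟨⟨fun x => ⟨fun hx => ?_, fun hx => k2 _ fun s hs => (hs.1 x).2 hx⟩,
    fun y => ⟨fun hy => ?_, fun hy => k2 _ fun s hs => (hs.2 y).2 hy⟩⟩,
    AddSubgroup.subset_closure h2, key⟩
  · obtain ⟨s, h3, h4⟩ := k1 _ hx
    exact (h3.1 x).1 h4
  · obtain ⟨s, h3, h4⟩ := k1 _ hy
    exact (h3.2 y).1 h4

theorem ark_c5 (hR : Rsg Z.toMS (tau ι ℤ) R) (hC : Clo Z.toMS (tau ι ℤ) R) (hS : GSimple Z.toMS R)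
    (h : ArK Z R Λ) : ∀ᵐ p ∂Z.μ.prod Z.μ, ∀ a b k l, ee a k ∉ R p.1 → ee a l ∉ R p.1 →
      Rl Λ p a b k k → Rl Λ p a b l l → (Rl Λ p a b k l ↔ Cl Λ p a b k = Cl Λ p a b l) := by
  filter_upwards [ark_join hR hC hS h, ark_c1 hR hC hS h] with p hp hc a b k l h1 h2 h3 h4
  have key : ∀ k l, ee a k ∉ R p.1 → Rl Λ p a b k k → Rl Λ p a b k l →
      Cl Λ p a b k ≤ Cl Λ p a b l := fun k l h1 h3 h5 z hz =>
    AddSubgroup.subset_closure (hp a b k h1 _ _ _ _ ((hc a b k h1 h3).2.2 z hz) h5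
      (AddSubgroup.subset_closure (by simp)) (AddSubgroup.subset_closure (by simp)))
  refine ⟨fun h5 => le_antisymm (key k l h1 h3 h5) (key l k h2 h4 ?_),
    fun h5 => (hc a b k h1 h3).2.2 _ (h5 ▸ (hc a b l h2 h4).2.1)⟩
  simpa only [Rl, and_comm] using h5

end Pool.Agent.Lib.MP_1db5af_an.Th
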