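import Pool.Agent.Lib.MP_1db5af_an.Th.Ker

set_option autoImplicit false

namespace Pool.Agent.Lib.MP_1db5af_an.Th

open MeasureTheory ProbabilityTheory Filter Topology ComplexConjugate
open scoped ENNReal NNReal InnerProductSpace

/-- A family of measurable sets is almost covered by countably many of its members. -/
theorem maxker_cover {X ι : Type} [MeasurableSpace X] (ν : Measure X) [IsFiniteMeasure ν]
    [Nonempty ι] (A : ι → Set X) (hA : ∀ j, MeasurableSet (A j)) :
    ∃ g : ℕ → ι, ∀ j, ν (A j \ ⋃ n, A (g n)) = 0 := by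
  obtain ⟨u, -, -, hu, hm⟩ := (isLUB_iSup (f := fun f : ℕ → ι => ν (⋃ n, A (f n)))).exists_seq_monotone_tendsto
    (Set.range_nonempty _)
  choose f hf using hm
  refine ⟨fun n => f (Nat.unpair n).1 (Nat.unpair n).2, fun j => ?_⟩
  set U : Set X := ⋃ n, A (f (Nat.unpair n).1 (Nat.unpair n).2) with hU
  have hUm : MeasurableSet U := MeasurableSet.iUnion fun n => hA _
  have h1 : (⨆ f : ℕ → ι, ν (⋃ n, A (f n))) ≤ ν U := by
    refine le_of_tendsto' hu fun k => ?_
    rw [← hf k]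
    refine measure_mono (Set.iUnion_subset fun n => ?_)
    refine Set.subset_iUnion_of_subset (Nat.pair k n) ?_
    simp only [Nat.unpair_pair]
    exact subset_rfl
  have h2 : ν (U ∪ A j) ≤ ⨆ f : ℕ → ι, ν (⋃ n, A (f n)) := by
    refine le_iSup_of_le (fun n => Nat.casesOn n j
      fun n => f (Nat.unpair n).1 (Nat.unpair n).2) (measure_mono ?_)
    refine Set.union_subset (Set.iUnion_subset fun n => ?_) ?_
    · exact Set.subset_iUnion_of_subset (n + 1) subset_rfl
    · exact Set.subset_iUnion_of_subset 0 subset_rfl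
  have h3 : ν U + ν (A j \ U) = ν (U ∪ A j) := by
    rw [← measure_union Set.disjoint_sdiff_right ((hA j).diff hUm), Set.union_sdiff_self]
  have h4 : ν U + ν (A j \ U) ≤ ν U + 0 := by
    rw [h3, add_zero]; exact h2.trans h1
  exact le_antisymm ((ENNReal.add_le_add_iff_left (measure_ne_top ν U)).1 h4) bot_le

/-- A dominated family of finite measures has a countable subfamily with the same null sets. -/
theorem maxker_dom {X ι : Type} [MeasurableSpace X] (ν : Measure X) [IsFiniteMeasure ν]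
    [Nonempty ι] (m : ι → Measure X) (hf : ∀ j, IsFiniteMeasure (m j)) (hm : ∀ j, m j ≪ ν) :
    ∃ g : ℕ → ι, ∀ N, (∀ n, m (g n) N = 0) → ∀ j, m j N = 0 := by
  have key : ∀ j N, m j N = 0 ↔ ν ({x | (m j).rnDeriv ν x ≠ 0} ∩ N) = 0 := by
    intro j N
    have := hf j
    rw [← withDensity_apply_eq_zero (Measure.measurable_rnDeriv _ _),
      Measure.withDensity_rnDeriv_eq _ _ (hm j)]
  obtain ⟨g, hg⟩ := maxker_cover ν (fun j => {x | (m j).rnDeriv ν x ≠ 0}) fun j =>
    ((Measure.measurable_rnDeriv (m j) ν) (measurableSet_singleton 0)).compl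
  refine ⟨g, fun N hN j => (key j N).2 ?_⟩
  have h0 : ν (⋃ n, {x | (m (g n)).rnDeriv ν x ≠ 0} ∩ N) = 0 :=
    measure_iUnion_null fun n => (key _ N).1 (hN n)
  refine measure_mono_null ?_ (measure_union_null (hg j) h0)
  intro x hx
  by_cases h : x ∈ ⋃ n, {x | (m (g n)).rnDeriv ν x ≠ 0}
  · obtain ⟨n, hn⟩ := Set.mem_iUnion.1 h
    exact Or.inr (Set.mem_iUnion.2 ⟨n, hn, hx.2⟩)
  · exact Or.inl ⟨hx.1, h⟩

/-- Weights that make a countable mixture finite. -/
theorem maxker_weights {X : Type} [MeasurableSpace X] (l : ℕ → Measure X)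
    (hl : ∀ n, IsFiniteMeasure (l n)) :
    ∃ c : ℕ → ℝ≥0∞, (∀ n, c n ≠ 0) ∧ (∀ n, c n ≠ ⊤) ∧
      IsFiniteMeasure (Measure.sum fun n => c n • l n) := by
  have h1 : ∀ n, l n Set.univ + 1 ≠ ⊤ := fun n =>
    ENNReal.add_ne_top.2 ⟨by have := hl n; exact measure_ne_top _ _, ENNReal.one_ne_top⟩
  have h0 : ∀ n, l n Set.univ + 1 ≠ 0 := fun n => by simp
  refine ⟨fun n => (2⁻¹ : ℝ≥0∞) ^ n * (l n Set.univ + 1)⁻¹, fun n => ?_, fun n => ?_, ⟨?_⟩⟩
  · exact mul_ne_zero (pow_ne_zero _ (by simp)) (ENNReal.inv_ne_zero.2 (h1 n))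
  · exact ENNReal.mul_ne_top (ENNReal.pow_ne_top (by simp)) (ENNReal.inv_ne_top.2 (h0 n))
  · rw [Measure.sum_apply _ MeasurableSet.univ]
    have : ∑' n, ((2⁻¹ : ℝ≥0∞) ^ n * (l n Set.univ + 1)⁻¹) • l n Set.univ ≤
        ∑' n, (2⁻¹ : ℝ≥0∞) ^ n := by
      refine ENNReal.tsum_le_tsum fun n => ?_
      rw [smul_eq_mul, mul_assoc]
      refine mul_le_of_le_one_right' ?_
      calc (l n Set.univ + 1)⁻¹ * l n Set.univ ≤ (l n Set.univ + 1)⁻¹ * (l n Set.univ + 1) := by
            gcongr; exact le_self_add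
        _ = 1 := ENNReal.inv_mul_cancel (h0 n) (h1 n)
    refine lt_of_le_of_lt this ?_
    rw [ENNReal.tsum_geometric]
    simp

theorem maxker (Y : MS) {S : Type} [MeasurableSpace S] [StandardBorelSpace S] [Nonempty S]
    {TS : ℤ → S → S} (hS : MAct TS) (Adm : Measure (Y.X × S) → Prop)
    (h1 : ∀ l, Adm l → IsFiniteMeasure l ∧ Sys l (prodT Y.T TS) ∧ l.fst ≪ Y.ν)
    (hmix : ∀ l : ℕ → Measure (Y.X × S), (∀ n, Adm (l n)) → IsFiniteMeasure (Measure.sum l) →
      Adm (Measure.sum l))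
    (hac : ∀ l l', Adm l → IsFiniteMeasure l' → Sys l' (prodT Y.T TS) → l' ≪ l → Adm l')
    (h0 : ∃ l, Adm l ∧ Y.ν ≪ l.fst)
    {κ : Type} [Countable κ] (E : κ → Set (Y.X × S)) (hE : ∀ i, MeasurableSet (E i)) :
    ∃ Λ : Kernel Y.X S, IsMarkovKernel Λ ∧ EqvK Y.ν Y.T TS Λ ∧ Adm (Y.ν ⊗ₘ Λ) ∧
      ∀ l, Adm l → ∀ᵐ p ∂l, ∀ i, p ∈ E i → Λ p.1 (Prod.mk p.1 ⁻¹' E i) ≠ 0 := by
  obtain ⟨l0, hl0, hν⟩ := h0
  have : Nonempty {l // Adm l} := ⟨⟨l0, hl0⟩⟩
  have hd : ∀ i, ∃ g : ℕ → {l // Adm l}, ∀ N, (∀ n, ((g n).1.restrict (E i)).fst N = 0) →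
      ∀ j : {l // Adm l}, (j.1.restrict (E i)).fst N = 0 := fun i =>
    maxker_dom Y.ν (fun j : {l // Adm l} => (j.1.restrict (E i)).fst)
      (fun j => by have := (h1 _ j.2).1; infer_instance)
      fun j => (Measure.absolutelyContinuous_of_le
        (Measure.fst_mono Measure.restrict_le_self)).trans (h1 _ j.2).2.2
  choose g hg using hd
  obtain ⟨e, he⟩ := exists_surjective_nat (Option (κ × ℕ))
  let m : Option (κ × ℕ) → {l // Adm l} := fun o => o.elim ⟨l0, hl0⟩ fun q => g q.1 q.2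
  obtain ⟨c, hc0, hct, hfin⟩ := maxker_weights (fun n => (m (e n)).1) fun n => (h1 _ (m (e n)).2).1
  set L : Measure (Y.X × S) := Measure.sum fun n => c n • (m (e n)).1 with hL
  have hLa : Adm L := by
    refine hmix _ (fun n => ?_) hfin
    have := (h1 _ (m (e n)).2).1
    refine hac _ _ (m (e n)).2 ⟨?_⟩ (sys_smul (h1 _ (m (e n)).2).2.1 _)
      (Measure.smul_absolutelyContinuous)
    exact ENNReal.mul_lt_top (hct n).lt_top (measure_lt_top _ _)
  have hmL : ∀ o, (m o).1 ≪ L := by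
    intro o
    obtain ⟨n, rfl⟩ := he o
    exact (Measure.absolutelyContinuous_smul (hc0 n)).trans
      (Measure.absolutelyContinuous_of_le (Measure.le_sum (fun n => c n • (m (e n)).1) n))
  have hνL : Y.ν ≪ L.fst := hν.trans ((hmL none).map measurable_fst)
  have heq : EqvK Y.ν Y.T TS L.condKernel := fun k =>
    hνL.ae_le (eqv_condKernel Y.sys.toMAct hS (h1 _ hLa).2.1 k)
  have hdis : L.fst ⊗ₘ L.condKernel = L := L.disintegrate L.condKernel
  refine ⟨L.condKernel, inferInstance, heq, ?_, fun l hl => ?_⟩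
  · refine hac L _ hLa inferInstance (sys_compProd Y.sys hS heq) ?_
    conv_rhs => rw [← hdis]
    exact hνL.compProd_left _
  · rw [ae_all_iff]
    intro i
    set N : Set Y.X := {y | L.condKernel y (Prod.mk y ⁻¹' E i) = 0} with hN
    have hNm : MeasurableSet N :=
      (Kernel.measurable_kernel_prodMk_left (κ := L.condKernel) (hE i)) (measurableSet_singleton 0)
    have hfst : ∀ l' : Measure (Y.X × S),
        (l'.restrict (E i)).fst N = l' (Prod.fst ⁻¹' N ∩ E i) := fun l' => by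
      rw [Measure.fst_apply hNm, Measure.restrict_apply (measurable_fst hNm)]
    have hL0 : L (Prod.fst ⁻¹' N ∩ E i) = 0 := by
      rw [← hdis, Measure.compProd_apply ((measurable_fst hNm).inter (hE i))]
      refine lintegral_eq_zero_of_ae_eq_zero (Eventually.of_forall fun y => ?_)
      by_cases hy : y ∈ N
      · exact measure_mono_null (fun s hs => hs.2) hy
      · have : Prod.mk y ⁻¹' (Prod.fst ⁻¹' N ∩ E i) = ∅ :=
          Set.eq_empty_of_forall_notMem fun s hs => hy hs.1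
        simp only [this, measure_empty, Pi.zero_apply]
    have hl1 := hg i N (fun n => by rw [hfst]; exact hmL (some (i, n)) hL0) ⟨l, hl⟩
    rw [hfst] at hl1
    rw [ae_iff]
    refine measure_mono_null (fun p hp => ?_) hl1
    simp only [Set.mem_ofPred_eq, Classical.not_imp, not_not] at hp
    exact ⟨hp.2, hp.1⟩

end Pool.Agent.Lib.MP_1db5af_an.Th
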