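import Pool.Agent.Lib.MP_1db5af_an.Th.BAux
import Pool.Agent.Lib.MP_1db5af_an.Th.BGen
import Pool.Agent.Lib.MP_1db5af_an.Th.MaxKer

set_option autoImplicit false

namespace Pool.Agent.Lib.MP_1db5af_an.Th

open MeasureTheory ProbabilityTheory Filter Topology ComplexConjugate
open scoped ENNReal NNReal InnerProductSpace

variable {ι : Type} [Countable ι] {Z : CS} {R : Z.X → AddSubgroup (AA ι)}

/-- Invariant laws of two points with an arrow. -/
def bark_Adm (Z : CS) (R : Z.X → AddSubgroup (AA ι))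
    (l : Measure ((Z.X × Z.X) × (AA ι × AA ι → Bool))) : Prop :=
  IsFiniteMeasure l ∧ Sys l (prodT (prodT Z.T Z.T) (shS (tt ι))) ∧ l.fst ≪ Z.μ.prod Z.μ ∧
    ∀ᵐ p ∂l, IsArr (R p.1.1) (R p.1.2) (dec p.2)

theorem bark_meas (hR : Rsg Z.toMS (tau ι ℤ) R) :
    MeasurableSet {p : (Z.X × Z.X) × (AA ι × AA ι → Bool) |
      IsArr (R p.1.1) (R p.1.2) (dec p.2)} :=
  bx_meas_arr (R := fun p : (Z.X × Z.X) × (AA ι × AA ι → Bool) => R p.1.1)
    (R' := fun p => R p.1.2) (g := fun p => dec p.2)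
    (fun x => measurable_fst.fst (hR.meas x)) (fun x => measurable_fst.snd (hR.meas x))
    fun z => measurable_snd (meas_dec z)

theorem bark_adm (hR : Rsg Z.toMS (tau ι ℤ) R) (Y : MS) {π : Y.X → Z.X × Z.X}
    (hπ : Ext Y (Z.toMS.prod Z.toMS) π) {g : Y.X → AddSubgroup (AA ι × AA ι)}
    (hg : Rsg Y (tt ι) g) (ha : ∀ᵐ y ∂Y.ν, IsArr (R (π y).1) (R (π y).2) (g y)) :
    bark_Adm Z R (Y.ν.map fun y => (π y, enc (g y))) := by
  have hm : Measurable fun y => (π y, enc (g y)) := hπ.qmp.measurable.prodMk (meas_enc hg.meas)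
  refine ⟨inferInstance, sys_map Y.sys
    (mact_prod (mact_prod Z.sys.toMAct Z.sys.toMAct) (mact_shS bx_act_tt)) hm fun k => ?_, ?_, ?_⟩
  · filter_upwards [hπ.comm k, hg.enc_eqv] with y h1 h2
    exact Prod.ext h1 (h2 k)
  · rw [Measure.fst, Measure.map_map measurable_fst hm]
    exact hπ.qmp.absolutelyContinuous
  · rw [ae_map_iff hm.aemeasurable (bark_meas hR)]
    filter_upwards [ha] with y h
    rwa [dec_enc]

theorem b_ark (hR : Rsg Z.toMS (tau ι ℤ) R) :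
    ∃ Λ : Kernel (Z.X × Z.X) (AA ι × AA ι → Bool), IsMarkovKernel Λ ∧ ArK Z R Λ := by
  have hmix : ∀ l : ℕ → Measure ((Z.X × Z.X) × (AA ι × AA ι → Bool)), (∀ n, bark_Adm Z R (l n)) →
      IsFiniteMeasure (Measure.sum l) → bark_Adm Z R (Measure.sum l) := by
    intro l h hf
    refine ⟨hf, sys_sum (h 0).2.1.toMAct fun n => (h n).2.1, ?_,
      Measure.ae_sum_iff.2 fun n => (h n).2.2.2⟩
    refine Measure.AbsolutelyContinuous.mk fun s hs h0 => ?_
    rw [Measure.fst_apply hs, Measure.sum_apply _ (measurable_fst hs), ENNReal.tsum_eq_zero]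
    intro n
    rw [← Measure.fst_apply hs]
    exact (h n).2.2.1 h0
  have hP : Rsg (Z.toMS.prod Z.toMS) (tt ι) fun p => (R p.1).prod (R p.2) :=
    Rsg.prod (hR.ext (bx_pfst _ _)) (hR.ext (bx_psnd _ _))
  have h0 : ∃ l, bark_Adm Z R l ∧ Z.μ.prod Z.μ ≪ l.fst := by
    refine ⟨_, bark_adm hR _ (bx_id _) hP (ae_of_all _ fun _ => bg_prod), ?_⟩
    rw [Measure.fst, Measure.map_map measurable_fst (measurable_id'.prodMk (meas_enc hP.meas))]
    exact (Measure.map_id (μ := Z.μ.prod Z.μ)).ge.absolutelyContinuous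
  obtain ⟨Λ, hM, he, hA, hmax⟩ := maxker (Z.toMS.prod Z.toMS) (mact_shS bx_act_tt) (bark_Adm Z R)
    (fun l h => ⟨h.1, h.2.1, h.2.2.1⟩) hmix
    (fun l l' h hf hs hac => ⟨hf, hs, (hac.map measurable_fst).trans h.2.2.1, hac.ae_le h.2.2.2⟩)
    h0 (fun z : (AA ι × AA ι) × (AA ι × AA ι) => {p | z.1 ∈ dec p.2 ∧ z.2 ∈ dec p.2})
    fun z => (measurable_snd (meas_dec z.1)).inter (measurable_snd (meas_dec z.2))
  refine ⟨Λ, hM, he, Measure.ae_ae_of_ae_compProd hA.2.2.2, fun Y π π' h g hg ha => ?_⟩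
  have hm : Measurable fun y => ((π y, π' y), enc (g y)) :=
    h.qmp.measurable.prodMk (meas_enc hg.meas)
  filter_upwards [ae_of_ae_map hm.aemeasurable (hmax _ (bark_adm hR Y h.ext hg ha))]
    with y hy z z' hz hz'
  exact hy (z, z') ⟨by simpa only [dec_enc] using hz, by simpa only [dec_enc] using hz'⟩

variable {Λ : Kernel (Z.X × Z.X) (AA ι × AA ι → Bool)} [IsMarkovKernel Λ]

theorem ark_meas_del (a b : ι) (l : ℤ) : Measurable fun p => del Λ p a b l := by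
  exact Λ.measurable_coe (meas_dec _)

theorem ark_meas_rl (a b : ι) (k l : ℤ) : MeasurableSet {p | Rl Λ p a b k l} := by
  exact (Λ.measurable_coe ((meas_dec _).inter (meas_dec _)) (measurableSet_singleton 0)).compl

theorem ark_meas_cl (a b : ι) (l : ℤ) (z : AA ι × AA ι) : MeasurableSet {p | z ∈ Cl Λ p a b l} := by
  exact meas_closure (F := fun p => {z | Λ p {s | mpr a b l ∈ dec s ∧ z ∈ dec s} ≠ 0})
    (fun z => (Λ.measurable_coe ((meas_dec _).inter (meas_dec z))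
      (measurableSet_singleton 0)).compl) z

theorem ark_rl_self (p : Z.X × Z.X) (a b : ι) (l : ℤ) : Rl Λ p a b l l ↔ del Λ p a b l ≠ 0 := by
  simp only [Rl, del, and_self]

theorem ark_shift (h : ArK Z R Λ) : ∀ᵐ p ∂Z.μ.prod Z.μ, ∀ (t : ℤ) (a b : ι),
    del Λ (Z.T t p.1, Z.T t p.2) a b 0 = del Λ p a b t ∧
    LL Z.toMS (fun a b q => Cl Λ q a b 0) a b t t p.1 p.2 = Cl Λ p a b t := by
  have hS := mact_shS (bx_act_tt (ι := ι))
  filter_upwards [ae_all_iff.2 h.eqv] with p hp t a b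
  have e : Λ (Z.T t p.1, Z.T t p.2) = (Λ p).map (shS (tt ι) t) := hp t
  have e2 : ∀ z, Λ (Z.T t p.1, Z.T t p.2) {s | mpr a b 0 ∈ dec s ∧ z ∈ dec s} =
      Λ p {s | mpr a b t ∈ dec s ∧ tt ι t z ∈ dec s} := fun z => by
    rw [e, Measure.map_apply (hS.meas t)
      (s := {s | mpr a b 0 ∈ dec s ∧ z ∈ dec s}) ((meas_dec _).inter (meas_dec z))]
    congr 1
    ext s
    simp only [Set.mem_preimage, Set.mem_ofPred_eq, dec_shS bx_act_tt, bx_tt_mpr, zero_add]
  constructor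
  · have := e2 (mpr a b 0)
    simpa only [del, bx_tt_mpr, zero_add, and_self] using this
  · ext z
    have e3 := closure_act bx_act_tt (k := t)
      (F := {z | Λ p {s | mpr a b t ∈ dec s ∧ z ∈ dec s} ≠ 0})
      (F' := {z | Λ (Z.T t p.1, Z.T t p.2) {s | mpr a b 0 ∈ dec s ∧ z ∈ dec s} ≠ 0})
      (fun z => by simp only [Set.mem_ofPred_eq, e2]) (tt ι (-t) z)
    rw [← bx_act_tt.add, add_neg_cancel, bx_act_tt.zero] at e3
    exact e3

/-- Pairwise unrelated times of probability at least `η`. -/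
theorem ark_count (p : Z.X × Z.X) (a b : ι) (η : ℝ≥0∞) (s : Finset ℤ)
    (h : ∀ k ∈ s, η ≤ del Λ p a b k) (h' : ∀ k ∈ s, ∀ l ∈ s, k ≠ l → ¬ Rl Λ p a b k l) :
    s.card * η ≤ 1 := by
  have hd : Set.Pairwise (s : Set ℤ)
      (Function.onFun (AEDisjoint (Λ p)) fun k => {c : AA ι × AA ι → Bool | mpr a b k ∈ dec c}) :=
    fun k hk l hl hkl => not_not.1 (h' k hk l hl hkl)
  calc (s.card : ℝ≥0∞) * η = ∑ _k ∈ s, η := by rw [Finset.sum_const, nsmul_eq_mul]
    _ ≤ ∑ k ∈ s, del Λ p a b k := Finset.sum_le_sum h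
    _ ≤ Λ p Set.univ := sum_measure_le_measure_univ (fun k _ => (meas_dec _).nullMeasurableSet) hd
    _ = 1 := measure_univ

end Pool.Agent.Lib.MP_1db5af_an.Th
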