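import Pool.Agent.Lib.MP_1db5af_an.Th.BArK

set_option autoImplicit false

namespace Pool.Agent.Lib.MP_1db5af_an.Th

open MeasureTheory ProbabilityTheory Filter Topology ComplexConjugate
open scoped ENNReal NNReal InnerProductSpace

variable {ι : Type} [Countable ι] {Z : CS} {R : Z.X → AddSubgroup (AA ι)}
  {Λ : Kernel (Z.X × Z.X) (AA ι × AA ι → Bool)} [IsMarkovKernel Λ]

theorem bart_ex {S : Type} [MeasurableSpace S] {m : Measure S} {E : Set S} {q : S → Prop}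
    (hE : m E ≠ 0) (hq : ∀ᵐ s ∂m, q s) : ∃ s ∈ E, q s :=
  Measure.exists_mem_of_measure_ne_zero_of_ae hE (ae_restrict_of_ae hq)

theorem ark_flip (hR : Rsg Z.toMS (tau ι ℤ) R) (h : ArK Z R Λ) :
    ∀ᵐ p ∂Z.μ.prod Z.μ, ∀ a b k l, Rl Λ p a b k l → Rl Λ (p.2, p.1) b a k l := by
  have e := (bx_prod2 Z.toMS).swap.comp
    (bx_cp (Z.toMS.prod Z.toMS) (mact_shS bx_act_tt) Λ h.eqv)
  have hg := (bx_rsg_dec (Ω := Z.toMS.prod Z.toMS) bx_act_tt Λ h.eqv).gflip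
  have h1 := h.max _ _ _ e _ hg (Measure.ae_compProd_of_ae_ae
    (bx_meas_arr (hR.ext e.fst).meas (hR.ext e.snd).meas hg.meas)
    (h.arr.mono fun p hp => hp.mono fun s hs => bg_flip hs))
  filter_upwards [Measure.ae_ae_of_ae_compProd h1] with p hp a b k l h2
  obtain ⟨s, hs, h3⟩ := bart_ex h2 hp
  exact h3 _ _ ((bg_mem_flip _ _).2 hs.1) ((bg_mem_flip _ _).2 hs.2)

theorem bart_comp (hR : Rsg Z.toMS (tau ι ℤ) R) (h : ArK Z R Λ) {Ω : MS} {π₀ π₁ π₂ : Ω.X → Z.X}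
    (h01 : Ext2 Ω Z.toMS π₀ π₁) (h12 : Ext2 Ω Z.toMS π₁ π₂) (h02 : Ext2 Ω Z.toMS π₀ π₂) :
    ∀ᵐ y ∂Ω.ν, ∀ a b c k l, Rl Λ (π₀ y, π₁ y) a b k l → Rl Λ (π₁ y, π₂ y) b c k l →
      Rl Λ (π₀ y, π₂ y) a c k l := by
  have hS := mact_shS (bx_act_tt (ι := ι))
  have hK := eqv_prod hS hS (bx_eqvK h01.ext h.eqv) (bx_eqvK h12.ext h.eqv)
  have e := h02.comp (bx_cp Ω (mact_prod hS hS) _ hK)
  have hg : Rsg (Ω.cp (mact_prod hS hS) _ hK) (tt ι) fun y => gcomp (dec y.2.1) (dec y.2.2) :=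
    (rsg_dec (Ω := Ω.cp (mact_prod hS hS) _ hK) bx_act_tt (s := fun y => y.2.1)
      measurable_snd.fst fun _ => ae_of_all _ fun _ => rfl).gcomp act_tau
      (rsg_dec (Ω := Ω.cp (mact_prod hS hS) _ hK) bx_act_tt (s := fun y => y.2.2)
        measurable_snd.snd fun _ => ae_of_all _ fun _ => rfl)
  have h1 := h.max _ _ _ e _ hg (Measure.ae_compProd_of_ae_ae
    (bx_meas_arr (hR.ext e.fst).meas (hR.ext e.snd).meas hg.meas) (by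
      filter_upwards [h01.qmp.ae h.arr, h12.qmp.ae h.arr] with y h2 h3
      rw [Kernel.prod_apply]
      filter_upwards [Measure.quasiMeasurePreserving_fst.ae h2,
        Measure.quasiMeasurePreserving_snd.ae h3] with s h4 h5
      exact bg_comp h4 h5))
  filter_upwards [Measure.ae_ae_of_ae_compProd h1] with y hy a b c k l h2 h3
  rw [Kernel.prod_apply] at hy
  obtain ⟨s, hs, h4⟩ := bart_ex ((Measure.prod_prod _ _).trans_ne (mul_ne_zero h2 h3)) hy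
  exact h4 _ _ ⟨_, hs.1.1, hs.2.1⟩ ⟨_, hs.1.2, hs.2.2⟩

theorem ark_trans (hR : Rsg Z.toMS (tau ι ℤ) R) (h : ArK Z R Λ) :
    ∀ᵐ y ∂(Z.μ.prod Z.μ).prod Z.μ, ∀ a b c k l, Rl Λ y.1 a b k l → Rl Λ (y.1.2, y.2) b c k l →
      Rl Λ (y.1.1, y.2) a c k l :=
  bart_comp hR h ((bx_prod2 Z.toMS).comp (bx_pfst _ Z.toMS))
    (bx_ext2 (bx_psnd Z.toMS Z.toMS) (bx_id Z.toMS))
    (bx_ext2 (bx_pfst Z.toMS Z.toMS) (bx_id Z.toMS))

theorem ark_trans' (hR : Rsg Z.toMS (tau ι ℤ) R) (h : ArK Z R Λ) :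
    ∀ᵐ y ∂(Z.μ.prod Z.μ).prod Z.μ, ∀ a b c k l, Rl Λ (y.1.1, y.2) a c k l →
      Rl Λ (y.1.2, y.2) b c k l → Rl Λ y.1 a b k l := by
  have e := bx_ext2 (bx_psnd Z.toMS Z.toMS) (bx_id Z.toMS)
  filter_upwards [bart_comp hR h (bx_ext2 (bx_pfst Z.toMS Z.toMS) (bx_id Z.toMS)) e.swap
    ((bx_prod2 Z.toMS).comp (bx_pfst _ Z.toMS)), e.qmp.ae (ark_flip hR h)] with y h1 h2 a b c k l
    h3 h4
  exact h1 a c b k l h3 (h2 b c k l h4)

end Pool.Agent.Lib.MP_1db5af_an.Th
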