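import Pool.Agent.Lib.MP_1db5af_an.Th.BArT

set_option autoImplicit false

namespace Pool.Agent.Lib.MP_1db5af_an.Th

open MeasureTheory ProbabilityTheory Filter Topology ComplexConjugate
open scoped ENNReal NNReal InnerProductSpace

variable {ι : Type} [Fintype ι] {u : ι → ℕ → ℤ} {Z : CS} {R : Z.X → AddSubgroup (AA ι)}
  {Λ : Kernel (Z.X × Z.X) (AA ι × AA ι → Bool)} [IsMarkovKernel Λ]

theorem b_cls (hR : Rsg Z.toMS (tau ι ℤ) R) (h : ArK Z R Λ) {Y : MS} {w : ι → Y.X → Z.X}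
    {Γ : ι → ι → Y.X → AddSubgroup (AA ι × AA ι)} {V : Set Y.X} (hL : LimS u Z R Y w Γ V)
    {o o' : ι} (ho : o' ≠ o) :
    ∃ B : ι → Set Z.X, (∀ a, MeasurableSet (B a)) ∧ (∀ a, ∀ x ∈ B a, ee a 0 ∉ R x) ∧
      (∀ᵐ p ∂Z.μ.prod Z.μ, ∀ a b, p.1 ∈ B a → p.2 ∈ B b → Rl Λ p a b 0 0) ∧
      ¬ Nul fun n => Z.μ.real {ω | SumIn u n (R ω) ∧ ∀ a, Z.T (u a n) ω ∈ B a} := by
  have hw : ∀ a, Measurable (w a) := fun a => by
    by_cases ha : a = o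
    · exact (hL.pair a o' fun e => ho (e.symm.trans ha)).fst.qmp.measurable
    · exact (hL.pair a o ha).fst.qmp.measurable
  have h1 : ∀ a b, a ≠ b → ∀ᵐ y ∂Y.ν, y ∈ V → Rl Λ (w a y, w b y) a b 0 0 := fun a b hab =>
    (h.max Y _ _ (hL.pair a b hab) _ (hL.rsg a b) (hL.arr a b hab)).mono fun y hy hV =>
      hy _ _ ((hL.mem y hV a).2 b) ((hL.mem y hV a).2 b)
  have h2 : ∀ᵐ p ∂Z.μ.prod Z.μ, Rl Λ p o' o 0 0 → ¬ ∀ᵐ x ∂Z.μ, ¬ Rl Λ (p.1, x) o' o 0 0 := by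
    have m1 := ark_meas_rl (Λ := Λ) o' o 0 0
    have m2 : MeasurableSet {q : Z.X | ∀ᵐ x ∂Z.μ, ¬ Rl Λ (q, x) o' o 0 0} := by
      simp only [ae_iff, not_not]
      exact measurable_measure_prodMk_left m1 (measurableSet_singleton 0)
    refine (Measure.ae_prod_iff_ae_ae (m1.imp (measurable_fst m2).compl)).2
      (.of_forall fun q => ?_)
    by_cases hq : ∀ᵐ x ∂Z.μ, ¬ Rl Λ (q, x) o' o 0 0
    · exact hq.mono fun x hx h' => absurd h' hx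
    · exact .of_forall fun _ _ => hq
  have h3 : ∀ᵐ y ∂Y.ν, ∀ a, ∀ᵐ x ∂Z.μ, y ∈ V → Rl Λ (w o' y, x) o' o 0 0 →
      Rl Λ (w a y, x) a o 0 0 := ae_all_iff.2 fun a => by
    by_cases ha : a = o'
    · exact .of_forall fun y => .of_forall fun x _ hx => ha ▸ hx
    · filter_upwards [h1 a o' ha, (hL.pair a o' ha).qmp.ae
        (Measure.ae_ae_of_ae_prod (ark_trans hR h))] with y y1 y2
      exact y2.mono fun x hx hV h' => hx a o' o 0 0 (y1 hV) h'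
  have h4 : ¬ ∀ᵐ x ∂Z.μ, ∀ᵐ y ∂Y.ν, ¬ (y ∈ V ∧ ∀ a, Rl Λ (w a y, x) a o 0 0) := fun hc => by
    have m : MeasurableSet {q : Z.X × Y.X | ¬ (q.2 ∈ V ∧ ∀ a, Rl Λ (w a q.2, q.1) a o 0 0)} := by
      have m0 : MeasurableSet {q : Z.X × Y.X | ∀ a, Rl Λ (w a q.2, q.1) a o 0 0} := by
        simp only [Set.ofPred_forall]
        exact MeasurableSet.iInter fun a =>
          (((hw a).comp measurable_snd).prodMk measurable_fst) (ark_meas_rl a o 0 0)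
      exact ((measurable_snd hL.measV).inter m0).compl
    refine hL.pos (measure_eq_zero_iff_ae_notMem.2 ?_)
    filter_upwards [(Measure.ae_ae_comm m).1 hc, h3, h1 o' o ho, (hL.pair o' o ho).qmp.ae h2]
      with y y1 y2 y3 y4 hV
    refine y4 (y3 hV) ?_
    filter_upwards [y1, ae_all_iff.2 y2] with x x1 x2 hx
    exact x1 ⟨hV, fun a => x2 a hV hx⟩
  have h5 := Measure.ae_ae_of_ae_prod
    (Measure.measurePreserving_swap.quasiMeasurePreserving.ae (ark_trans' hR h))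
  obtain ⟨x, x1, x2⟩ := ((not_eventually.1 h4).and_eventually h5).exists
  have mB : ∀ a, MeasurableSet {q | ee a 0 ∉ R q ∧ Rl Λ (q, x) a o 0 0} := fun a =>
    (hR.meas _).compl.inter (measurable_prodMk_right (ark_meas_rl a o 0 0))
  refine ⟨fun a => {q | ee a 0 ∉ R q ∧ Rl Λ (q, x) a o 0 0}, mB, fun a q hq => hq.1,
    x2.mono fun p hp a b ha hb => hp a b o 0 0 ha.2 hb.2, hL.back _ mB fun h0 => x1 ?_⟩
  exact (measure_eq_zero_iff_ae_notMem.1 h0).mono fun y hy h' =>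
    hy ⟨h'.1, fun a => ⟨(hL.mem y h'.1 a).1, h'.2 a⟩⟩

end Pool.Agent.Lib.MP_1db5af_an.Th
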