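import Pool.Agent.Lib.MP_1db5af_an.Th.BAux
import Pool.Agent.Lib.MP_1db5af_an.Th.Lim
import Pool.Agent.Lib.MP_1db5af_an.Th.Wk

set_option autoImplicit false

namespace Pool.Agent.Lib.MP_1db5af_an.Th

open MeasureTheory ProbabilityTheory Filter Topology ComplexConjugate
open scoped ENNReal NNReal InnerProductSpace

variable {ι : Type} [Fintype ι] {u : ι → ℕ → ℤ} {Z : CS} {R : Z.X → AddSubgroup (AA ι)}

theorem blim_re {p : ℕ → ℝ} {U : Filter ℕ} {L : ℝ}
    (h : Tendsto (av fun n => ((p n : ℝ) : ℂ)) U (𝓝 (L : ℂ))) : Tendsto (av p) U (𝓝 L) := by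
  refine ((Complex.continuous_re.tendsto _).comp h).congr fun N => ?_
  exact (av_map Complex.reCLM (fun n => ((p n : ℝ) : ℂ)) N).symm

theorem blim_ind {X : Type} [MeasurableSpace X] {ν : Measure X} {S : Set X} (hS : MeasurableSet S)
    {f : X → ℂ} (h : ∀ x, (x ∈ S → f x = 1) ∧ (x ∉ S → f x = 0)) :
    ∫ x, f x ∂ν = (ν.real S : ℂ) := by
  have e : f = S.indicator fun _ => (1 : ℂ) := funext fun x => by
    by_cases hx : x ∈ S
    · rw [(h x).1 hx, Set.indicator_of_mem hx]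
    · rw [(h x).2 hx, Set.indicator_of_notMem hx]
  rw [e, integral_indicator_const _ hS]
  simp

theorem blim_bd {X : Type} [MeasurableSpace X] {ν : Measure X} {S : Set X} (hS : MeasurableSet S) :
    Bd ν 1 (S.indicator fun _ => (1 : ℂ)) :=
  ⟨(measurable_const.indicator hS).aestronglyMeasurable, Eventually.of_forall fun x => by
    by_cases hx : x ∈ S <;> simp [hx]⟩

theorem blim_int {X X' K : Type} [MeasurableSpace X] [MeasurableSpace X'] [MeasurableSpace K]
    {ν : Measure X} {g : ι → X → X'} {c : X → K} (hg : ∀ a, Measurable (g a)) (hc : Measurable c)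
    {E : ι → Set X'} {C : Set K} (hE : ∀ a, MeasurableSet (E a)) (hC : MeasurableSet C) :
    ∫ x, (∏ a, (E a).indicator (fun _ => (1 : ℂ)) (g a x)) * C.indicator (fun _ => (1 : ℂ)) (c x) ∂ν
      = (ν.real {x | (∀ a, g a x ∈ E a) ∧ c x ∈ C} : ℂ) := by
  refine blim_ind ?_ fun x => ⟨fun hx => ?_, fun hx => ?_⟩
  · simp only [Set.ofPred_and, Set.ofPred_forall]
    exact (MeasurableSet.iInter fun a => hg a (hE a)).inter (hc hC)
  · rw [Set.indicator_of_mem hx.2, mul_one]
    exact Finset.prod_eq_one fun a _ => Set.indicator_of_mem (hx.1 a) _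
  · rcases not_and_or.1 hx with h | h
    · obtain ⟨a, ha⟩ := not_forall.1 h
      rw [Finset.prod_eq_zero (Finset.mem_univ a) (Set.indicator_of_notMem ha _), zero_mul]
    · rw [Set.indicator_of_notMem h, mul_zero]

theorem blim_dec {A : Type} [AddCommGroup A] {s : A → Bool} (h0 : s 0 = true)
    (h : ∀ x y, s x = true → s y = true → s (x - y) = true) {z : A} (hz : z ∈ dec s) :
    s z = true := by
  induction hz using AddSubgroup.closure_induction with
  | mem x hx => exact hx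
  | zero => exact h0
  | add x y _ _ hx hy => simpa using h _ _ hx (h _ _ h0 hy)
  | neg x _ hx => simpa using h _ _ h0 hx

theorem blim_clopen {A : Type} (z : A) (b : Bool) : IsClopen {s : A → Bool | s z = b} :=
  (isClopen_discrete {b}).preimage (continuous_apply z)

theorem blim_enc {A : Type} [AddCommGroup A] {K : AddSubgroup A} {z : A} :
    enc K z = true ↔ z ∈ K := by
  simp [enc]

/-- The action on tuples. -/
noncomputable def blim_t (ι : Type) (k : ℤ) : (ι → AA ι) →+ (ι → AA ι) := (tau ι ℤ k).compLeft ι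

/-- The sum of the shifted coordinates. -/
noncomputable def blim_s (u : ι → ℕ → ℤ) (n : ℕ) : (ι → AA ι) →+ AA ι where
  toFun z := ∑ a, tau ι ℤ (u a n) (z a)
  map_zero' := by simp
  map_add' _ _ := by simp [Finset.sum_add_distrib]

omit [Fintype ι] in
/-- A pair of coordinates. -/
noncomputable def blim_p (a b : ι) : (ι → AA ι) →+ AA ι × AA ι :=
  (Pi.evalAddMonoidHom (fun _ => AA ι) a).prod (Pi.evalAddMonoidHom (fun _ => AA ι) b)

omit [Fintype ι] in
theorem blim_act : Act (blim_t ι) :=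
  ⟨fun x => funext fun a => bx_act_tt.zero (x a, x a) |> congrArg Prod.fst,
    fun k l x => funext fun a => bx_act_tt.add k l (x a, x a) |> congrArg Prod.fst⟩

theorem blim_st (n : ℕ) (k : ℤ) (z : ι → AA ι) :
    blim_s u n (blim_t ι k z) = tau ι ℤ k (blim_s u n z) := by
  change ∑ a, tau ι ℤ (u a n) (tau ι ℤ k (z a)) = tau ι ℤ k (∑ a, tau ι ℤ (u a n) (z a))
  rw [map_sum]
  refine Finset.sum_congr rfl fun a _ => ?_
  rw [← act_tau.add, ← act_tau.add, add_comm]

/-- Convergence on cylinders. -/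
def blim_Cyl (u : ι → ℕ → ℤ) (Z : CS) (R : Z.X → AddSubgroup (AA ι)) (U : Filter ℕ)
    (lam : Measure ((ι → Z.X) × ((ι → AA ι) → Bool))) : Prop :=
  ∀ (E : ι → Set Z.X) (C : Set ((ι → AA ι) → Bool)), (∀ a, MeasurableSet (E a)) → IsClopen C →
    Tendsto (av fun n => Z.μ.real
        {x | (∀ a, Z.T (u a n) x ∈ E a) ∧ enc ((R x).comap (blim_s u n)) ∈ C}) U
      (𝓝 (lam.real {p | (∀ a, p.1 a ∈ E a) ∧ p.2 ∈ C}))

theorem blim_cyl (hR : Rsg Z.toMS (tau ι ℤ) R) (U : Ultrafilter ℕ)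
    (hU : (U : Filter ℕ) ≤ atTop) :
    ∃ lam : Measure ((ι → Z.X) × ((ι → AA ι) → Bool)), IsProbabilityMeasure lam ∧
      Sys lam (prodT (piT Z.T) (shS (blim_t ι))) ∧ blim_Cyl u Z R U lam := by
  have h1 : ∀ n, Rsg Z.toMS (blim_t ι) fun x => (R x).comap (blim_s u n) := fun n =>
    hR.comap (blim_st n)
  have hm : ∀ n, Measurable fun x => enc ((R x).comap (blim_s u n)) := fun n =>
    meas_enc (h1 n).meas
  obtain ⟨lam, h2, h3, -, h4⟩ := lim Z u U hU (mact_shS blim_act) cont_shS hm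
    fun n k => (h1 n).enc_eqv.mono fun x hx => hx k
  refine ⟨lam, h2, h3, fun E C hE hC => blim_re ?_⟩
  have h5 := h4 (fun a => (E a).indicator fun _ => 1) 1
    ⟨C.indicator fun _ => 1, hC.continuous_indicator continuous_const⟩ fun a => blim_bd (hE a)
  simp only [ContinuousMap.coe_mk] at h5
  rw [blim_int (g := fun a (p : (ι → Z.X) × ((ι → AA ι) → Bool)) => p.1 a)
    (fun a => (measurable_pi_apply a).comp measurable_fst) measurable_snd hE
    hC.isOpen.measurableSet] at h5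
  refine h5.congr fun N => ?_
  congr 1
  funext n
  exact blim_int (g := fun a x => Z.T (u a n) x) (fun a => Z.sys.meas _) (hm n) hE
    hC.isOpen.measurableSet

variable {U : Ultrafilter ℕ} {lam : Measure ((ι → Z.X) × ((ι → AA ι) → Bool))}
  [IsProbabilityMeasure lam]

theorem blim_null (h : blim_Cyl u Z R U lam) (hU : (U : Filter ℕ) ≤ atTop) {E : ι → Set Z.X}
    {C : Set ((ι → AA ι) → Bool)} (hE : ∀ a, MeasurableSet (E a)) (hC : IsClopen C)
    {F : ℕ → Set Z.X} (hF : Nul fun n => Z.μ.real (F n))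
    (hle : ∀ n, ∀ᵐ x ∂Z.μ, (∀ a, Z.T (u a n) x ∈ E a) → enc ((R x).comap (blim_s u n)) ∈ C →
      x ∈ F n) : lam {p | (∀ a, p.1 a ∈ E a) ∧ p.2 ∈ C} = 0 := by
  have h1 : Nul fun n => Z.μ.real
      {x | (∀ a, Z.T (u a n) x ∈ E a) ∧ enc ((R x).comap (blim_s u n)) ∈ C} :=
    nul_mono (fun _ => measureReal_nonneg) (fun n => ENNReal.toReal_mono (measure_ne_top _ _)
      (measure_mono_ae ((hle n).mono fun x hx hx' => hx hx'.1 hx'.2))) hF
  exact (measureReal_eq_zero_iff (measure_ne_top _ _)).1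
    (tendsto_nhds_unique (h E C hE hC) (h1.mono_left hU))

theorem blim_nul0 : Nul fun _ => Z.μ.real (∅ : Set Z.X) := by
  simpa [Nul] using tendsto_av_const (0 : ℝ)

theorem blim_one (h : blim_Cyl u Z R U lam) (hU : (U : Filter ℕ) ≤ atTop) (a : ι) {S : Set Z.X}
    {C : Set ((ι → AA ι) → Bool)} (hS : MeasurableSet S) (hC : IsClopen C)
    {F : ℕ → Set Z.X} (hF : Nul fun n => Z.μ.real (F n))
    (hle : ∀ n, ∀ᵐ x ∂Z.μ, Z.T (u a n) x ∈ S → enc ((R x).comap (blim_s u n)) ∈ C → x ∈ F n) :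
    ∀ᵐ p ∂lam, p.1 a ∈ S → p.2 ∉ C := by
  have h1 := blim_null h hU (E := fun c => {x | c = a → x ∈ S}) (fun c => by
    by_cases e : c = a
    · simpa [e] using hS
    · simp [e]) hC hF fun n => (hle n).mono fun x hx h1 => hx (h1 a rfl)
  filter_upwards [measure_eq_zero_iff_ae_notMem.1 h1] with p hp h2 h3
  exact hp ⟨fun c e => e ▸ h2, h3⟩

theorem blim_sub (h : blim_Cyl u Z R U lam) (hU : (U : Filter ℕ) ≤ atTop) :
    ∀ᵐ p ∂lam, ∀ z, z ∈ dec p.2 → p.2 z = true := by
  have h0 := blim_null h hU (E := fun _ => Set.univ) (fun _ => MeasurableSet.univ)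
    (blim_clopen 0 true).compl blim_nul0 fun n => Eventually.of_forall fun x _ hx =>
      hx (blim_enc.2 (zero_mem _))
  have h1 := fun z z' : ι → AA ι => blim_null h hU (E := fun _ => Set.univ)
    (fun _ => MeasurableSet.univ) (((blim_clopen z true).inter (blim_clopen z' true)).inter
      (blim_clopen (z - z') true).compl) blim_nul0 fun n => Eventually.of_forall fun x _ hx =>
      hx.2 (blim_enc.2 (sub_mem (blim_enc.1 hx.1.1) (blim_enc.1 hx.1.2)))
  filter_upwards [measure_eq_zero_iff_ae_notMem.1 h0, ae_all_iff.2 fun z => ae_all_iff.2 fun z' =>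
    measure_eq_zero_iff_ae_notMem.1 (h1 z z')] with p e0 e1 z hz
  refine blim_dec ?_ (fun x y hx hy => ?_) hz
  · by_contra hc
    exact e0 ⟨fun _ => trivial, hc⟩
  · by_contra hc
    exact e1 x y ⟨fun _ => trivial, ⟨hx, hy⟩, hc⟩

theorem blim_single [DecidableEq ι] (h : blim_Cyl u Z R U lam) (hU : (U : Filter ℕ) ≤ atTop)
    (hR : Rsg Z.toMS (tau ι ℤ) R) :
    ∀ᵐ p ∂lam, ∀ a x, x ∈ R (p.1 a) → Pi.single a x ∈ dec p.2 := by
  refine ae_all_iff.2 fun a => ae_all_iff.2 fun x => ?_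
  have h1 := blim_one h hU a (hR.meas x) (blim_clopen (Pi.single a x) true).compl blim_nul0
    fun n => hR.eqv.mono fun ω hω h1 h2 => h2 (blim_enc.2 (by
      change ∑ c, tau ι ℤ (u c n) ((Pi.single a x : ι → AA ι) c) ∈ R ω
      rw [Finset.sum_eq_single a (fun c _ e => by rw [Pi.single_eq_of_ne e, map_zero])
        (fun e => absurd (Finset.mem_univ a) e), Pi.single_eq_same]
      exact (hω _ _).1 h1))
  filter_upwards [h1] with p hp hx
  exact AddSubgroup.subset_closure (not_not.1 (hp hx))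

theorem blim_ker (h : blim_Cyl u Z R U lam) (hU : (U : Filter ℕ) ≤ atTop) (hp : HAp u)
    (hR : Rsg Z.toMS (tau ι ℤ) R) (hc : Clo Z.toMS (tau ι ℤ) R) :
    ∀ᵐ p ∂lam, ∀ a b z, a ≠ b → z b = 0 → p.2 z = true → z a ∈ R (p.1 a) := by
  classical
  refine ae_all_iff.2 fun a => ae_all_iff.2 fun b => ae_all_iff.2 fun z => ?_
  by_cases hab : a ≠ b ∧ z b = 0
  swap
  · exact Eventually.of_forall fun p h1 h2 => absurd ⟨h1, h2⟩ hab
  have h1 := blim_one h hU a (hR.meas (z a)).compl (blim_clopen z true)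
    (hp (Finset.univ.erase b) (Finset.erase_ne_self.2 (Finset.mem_univ b)) _ _ act_tau Z.toMS R hR
      hc z a (Finset.mem_erase.2 ⟨hab.1, Finset.mem_univ a⟩))
    fun n => hR.eqv.mono fun ω hω h1 h2 => ⟨by
      rw [Finset.sum_erase _ (by rw [hab.2, map_zero])]
      exact blim_enc.1 h2, fun h3 => h1 ((hω _ _).2 h3)⟩
  filter_upwards [h1] with p hp _ _ h2
  by_contra h3
  exact hp h3 h2

theorem blim_pair (h : blim_Cyl u Z R U lam) (hU : (U : Filter ℕ) ≤ atTop) (hu : PW u)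
    (he : Ergodic (Z.T 1) Z.μ) {a b : ι} (hab : a ≠ b) :
    Z.μ.prod Z.μ = lam.map fun p => (p.1 a, p.1 b) := by
  have hm : Measurable fun p : (ι → Z.X) × ((ι → AA ι) → Bool) => (p.1 a, p.1 b) := by fun_prop
  refine Measure.prod_eq fun s t hs ht => ?_
  have h1 := h (fun c => {x | (c = a → x ∈ s) ∧ (c = b → x ∈ t)}) Set.univ (fun c => by
    by_cases e : c = a
    · simpa [e, hab] using hs
    · by_cases e' : c = b
      · simpa [e', hab.symm] using ht
      · simp [e, e']) isClopen_univ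
  have h2 := wk_erg Z.sys he (hu.weyl b a hab.symm) (blim_bd hs) (blim_bd ht)
  rw [blim_ind hs fun x => ⟨fun hx => Set.indicator_of_mem hx _,
      fun hx => Set.indicator_of_notMem hx _⟩,
    blim_ind ht fun x => ⟨fun hx => Set.indicator_of_mem hx _,
      fun hx => Set.indicator_of_notMem hx _⟩, ← Complex.ofReal_mul] at h2
  have h3 : ∀ n, ∫ x, s.indicator (fun _ => (1 : ℂ)) x *
      t.indicator (fun _ => (1 : ℂ)) (Z.T (u b n - u a n) x) ∂Z.μ =
      (Z.μ.real {x | (∀ c, Z.T (u c n) x ∈ {x | (c = a → x ∈ s) ∧ (c = b → x ∈ t)}) ∧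
        enc ((R x).comap (blim_s u n)) ∈ Set.univ} : ℂ) := by
    intro n
    have h4 : MeasurableSet (s ∩ Z.T (u b n - u a n) ⁻¹' t) := hs.inter (Z.sys.meas _ ht)
    rw [blim_ind h4 fun x => ⟨fun hx => ?_, fun hx => ?_⟩, ← (Z.sys.mp (u a n)).measureReal_preimage
      h4.nullMeasurableSet]
    · congr 2
      ext x
      simp only [Set.mem_preimage, Set.mem_inter_iff, Set.mem_ofPred_eq, Set.mem_univ, and_true,
        ← Z.sys.add, sub_add_cancel]
      exact ⟨fun h5 c => ⟨fun e => e ▸ h5.1, fun e => e ▸ h5.2⟩,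
        fun h5 => ⟨(h5 a).1 rfl, (h5 b).2 rfl⟩⟩
    · rw [Set.indicator_of_mem hx.1, Set.indicator_of_mem (s := t) hx.2, mul_one]
    · rcases not_and_or.1 hx with h5 | h5
      · rw [Set.indicator_of_notMem h5, zero_mul]
      · rw [Set.indicator_of_notMem (s := t) h5, mul_zero]
  simp only [h3] at h2
  have h5 := tendsto_nhds_unique h1 ((blim_re h2).mono_left hU)
  rw [Measure.map_apply hm (hs.prod ht),
    ← ENNReal.toReal_eq_toReal_iff' (measure_ne_top _ _) (by finiteness), ENNReal.toReal_mul]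
  refine Eq.trans ?_ h5
  change lam.real _ = _
  congr 1
  ext p
  simp only [Set.mem_preimage, Set.mem_prod, Set.mem_ofPred_eq, Set.mem_univ, and_true]
  exact ⟨fun h5 c => ⟨fun e => e ▸ h5.1, fun e => e ▸ h5.2⟩,
    fun h5 => ⟨(h5 a).1 rfl, (h5 b).2 rfl⟩⟩

theorem blim_sum {K : AddSubgroup (AA ι)} {n : ℕ} :
    enc (K.comap (blim_s u n)) (fun a => ee a 0) = true ↔ SumIn u n K := by
  rw [blim_enc]
  change ∑ a, tau ι ℤ (u a n) (ee a 0) ∈ K ↔ _
  simp only [tau_ee, zero_add, SumIn]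

theorem b_lim (hu : PW u) (hp : HAp u) (hB : Base u Z R) :
    ∃ (Y : MS) (w : ι → Y.X → Z.X) (Γ : ι → ι → Y.X → AddSubgroup (AA ι × AA ι)) (V : Set Y.X),
      LimS u Z R Y w Γ V := by
  classical
  have hR := hB.rsg
  obtain ⟨U, δ, hU, hδ, hl⟩ := exists_ultra (C := 1) (fun _ => measureReal_nonneg)
    (fun _ => measureReal_le_one) hB.fail
  obtain ⟨lam, h1, h2, h3⟩ := blim_cyl (u := u) hR U hU
  let Y : MS := { X := (ι → Z.X) × ((ι → AA ι) → Bool), ν := lam, T := _, sys := h2 }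
  have hd : Rsg Y (blim_t ι) fun p => dec p.2 :=
    rsg_dec blim_act measurable_snd fun _ => Eventually.of_forall fun _ => rfl
  have hE : ∀ a, MeasurableSet {x | ee a 0 ∉ R x} := fun a => (hR.meas _).compl
  have hC := blim_clopen (fun a : ι => (ee a 0 : AA ι)) true
  refine ⟨Y, fun a p => p.1 a, fun a b p => (dec p.2).map (blim_p a b),
    {p | (∀ a, p.1 a ∈ {x | ee a 0 ∉ R x}) ∧ p.2 ∈ {s | s (fun a => ee a 0) = true}},
    fun a b hab => ⟨⟨((measurable_pi_apply a).comp measurable_fst).prodMk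
      ((measurable_pi_apply b).comp measurable_fst), ?_⟩,
      fun _ => Eventually.of_forall fun _ => rfl, fun _ => Eventually.of_forall fun _ => rfl⟩,
    fun a b => hd.map blim_act bx_act_tt fun _ _ => rfl, fun a b hab => ?_, ?_, ?_,
    fun y hy a => ⟨hy.1 a, fun b => ⟨_, AddSubgroup.subset_closure hy.2, rfl⟩⟩,
    fun B hB' h0 hn => h0 ?_⟩
  · exact (blim_pair h3 hU hu hB.erg hab).symm.absolutelyContinuous
  · filter_upwards [blim_sub h3 hU, blim_single h3 hU hR, blim_ker h3 hU hp hR hB.clo]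
      with p e1 e2 e3
    refine ⟨fun x => ⟨?_, fun hx => ⟨_, e2 a x hx, ?_⟩⟩, fun x => ⟨?_, fun hx => ⟨_, e2 b x hx, ?_⟩⟩⟩
    · rintro ⟨z, hz, e⟩
      obtain ⟨rfl, e'⟩ := Prod.ext_iff.1 e
      exact e3 a b z hab e' (e1 z hz)
    · simp [blim_p, hab.symm]
    · rintro ⟨z, hz, e⟩
      obtain ⟨e', rfl⟩ := Prod.ext_iff.1 e
      exact e3 b a z hab.symm e' (e1 z hz)
    · simp [blim_p, hab]
  · simp only [Set.ofPred_and, Set.ofPred_forall]
    exact (MeasurableSet.iInter fun a => ((measurable_pi_apply a).comp measurable_fst) (hE a)).inter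
      (measurable_snd hC.isOpen.measurableSet)
  · have h4 := h3 _ _ hE hC
    have h5 : ∀ n, Z.μ.real {x | (∀ a, Z.T (u a n) x ∈ {x | ee a 0 ∉ R x}) ∧
        enc ((R x).comap (blim_s u n)) ∈ {s : (ι → AA ι) → Bool | s (fun a => ee a 0) = true}} =
        Z.μ.real {ω | SumIn u n (R ω) ∧ ∀ a, ee a (u a n) ∉ R ω} := fun n => by
      refine measureReal_congr ?_
      filter_upwards [bx_ee_iff hR] with ω hω
      refine propext ?_
      change (∀ a, ee a 0 ∉ R (Z.T (u a n) ω)) ∧ _ = true ↔ _ ∧ _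
      rw [blim_sum, and_comm]
      refine and_congr_right fun _ => forall_congr' fun a => not_congr ?_
      exact (hω _ _ _).trans (by rw [zero_add])
    simp only [h5] at h4
    intro h0
    have h6 := tendsto_nhds_unique hl h4
    rw [h6] at hδ
    exact hδ.ne' ((measureReal_eq_zero_iff (measure_ne_top _ _)).2 h0)
  · refine measure_mono_null ?_ (blim_null h3 hU hB' hC hn fun n =>
      Eventually.of_forall fun x h4 h5 => ⟨blim_sum.1 h5, h4⟩)
    exact fun p hp' => ⟨hp'.2, hp'.1.2⟩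

end Pool.Agent.Lib.MP_1db5af_an.Th
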