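import Pool.Agent.Lib.MP_1db5af_an.Th.BCnt
import Pool.Agent.Lib.MP_1db5af_an.Th.BCls
import Pool.Agent.Lib.MP_1db5af_an.Th.BLim

set_option autoImplicit false

namespace Pool.Agent.Lib.MP_1db5af_an.Th

open MeasureTheory ProbabilityTheory Filter Topology ComplexConjugate
open scoped ENNReal NNReal InnerProductSpace

variable {ι : Type} [Fintype ι] {u : ι → ℕ → ℤ} {Z : CS} {R : Z.X → AddSubgroup (AA ι)}

theorem barr_freq {p : ℕ → ℝ} (h0 : ∀ n, 0 ≤ p n) (h : ¬ Nul p) :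
    ∃ δ : ℝ, 0 < δ ∧ ∃ᶠ n in atTop, δ ≤ p n := by
  by_contra! hn
  refine h (tendsto_av_of_tendsto (tendsto_order.2 ⟨fun a ha => ?_, fun a ha => hn a ha⟩))
  exact Eventually.of_forall fun n => ha.trans_le (h0 n)

/-- The bad rows have small measure. -/
theorem barr_rows {X : Type} [MeasurableSpace X] (μ : Measure X) [IsFiniteMeasure μ]
    {f : X × X → ℝ≥0∞} (hf : Measurable f) {B E : Set X} (hB : MeasurableSet B)
    (hE : MeasurableSet E) (h0 : μ E ≠ 0) (h : ∀ᵐ p ∂μ.prod μ, p.1 ∈ B → p.2 ∈ E → f p ≠ 0) :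
    (∀ η : ℝ≥0∞, MeasurableSet {x | 4 * μ (E ∩ {y | f (x, y) < η}) ≤ μ E}) ∧
    Tendsto (fun j : ℕ => μ.real (B \ {x | 4 * μ (E ∩ {y | f (x, y) < (j : ℝ≥0∞)⁻¹}) ≤ μ E}))
      atTop (𝓝 0) := by
  have m1 : ∀ η : ℝ≥0∞, MeasurableSet {x | 4 * μ (E ∩ {y | f (x, y) < η}) ≤ μ E} := fun η => by
    have : Measurable fun x => μ (Prod.mk x ⁻¹' (Prod.snd ⁻¹' E ∩ {p | f p < η})) :=
      measurable_measure_prodMk_left
        ((measurable_snd hE).inter (measurableSet_lt hf measurable_const))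
    exact measurableSet_le (this.const_mul 4) measurable_const
  refine ⟨m1, ?_⟩
  have an : ∀ x, Antitone fun j : ℕ => E ∩ {y | f (x, y) < (j : ℝ≥0∞)⁻¹} := fun x i j hij y hy =>
    ⟨hy.1, lt_of_lt_of_le hy.2 (ENNReal.inv_le_inv.2 (by exact_mod_cast hij))⟩
  have t1 := tendsto_measure_iInter_atTop (μ := μ)
    (s := fun j : ℕ => B \ {x | 4 * μ (E ∩ {y | f (x, y) < (j : ℝ≥0∞)⁻¹}) ≤ μ E})
    (fun j => (hB.diff (m1 _)).nullMeasurableSet)
    (fun i j hij x hx => ⟨hx.1, fun e => hx.2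
      (le_trans (mul_le_mul_right (measure_mono (an x hij)) 4) e)⟩) ⟨0, measure_ne_top _ _⟩
  have z : μ (⋂ j : ℕ, B \ {x | 4 * μ (E ∩ {y | f (x, y) < (j : ℝ≥0∞)⁻¹}) ≤ μ E}) = 0 := by
    refine measure_eq_zero_iff_ae_notMem.2 ?_
    filter_upwards [Measure.ae_ae_of_ae_prod h] with x hx hx'
    rw [Set.mem_iInter] at hx'
    have t2 := tendsto_measure_iInter_atTop (μ := μ)
      (s := fun j : ℕ => E ∩ {y | f (x, y) < (j : ℝ≥0∞)⁻¹})
      (fun j => (hE.inter (measurableSet_lt (hf.comp measurable_prodMk_left)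
        measurable_const)).nullMeasurableSet) (an x) ⟨0, measure_ne_top _ _⟩
    have z2 : μ (⋂ j : ℕ, E ∩ {y | f (x, y) < (j : ℝ≥0∞)⁻¹}) = 0 := by
      refine measure_eq_zero_iff_ae_notMem.2 ?_
      filter_upwards [hx] with y hy hy'
      rw [Set.mem_iInter] at hy'
      obtain ⟨j, hj⟩ := ENNReal.exists_inv_nat_lt (hy (hx' 0).1 (hy' 0).1)
      exact lt_asymm hj (hy' j).2
    rw [z2] at t2
    have t3 := ENNReal.Tendsto.const_mul (a := 4) t2 (Or.inr (by simp))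
    rw [mul_zero] at t3
    obtain ⟨j, hj⟩ := (t3.eventually (ge_mem_nhds (pos_iff_ne_zero.2 h0))).exists
    exact (hx' j).2 hj
  rw [z] at t1
  exact (ENNReal.tendsto_toReal ENNReal.zero_ne_top).comp t1

/-- Small changes of the target sets keep the failure. -/
theorem barr_keep {X : Type} [MeasurableSpace X] {μ : Measure X} [IsFiniteMeasure μ]
    {T : ℤ → X → X} (hT : Sys μ T) {S : ℕ → X → Prop} {B : ι → Set X} {G : ℕ → ι → Set X}
    (hB : ∀ a, MeasurableSet (B a)) (hG : ∀ j a, MeasurableSet (G j a))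
    (ht : ∀ a, Tendsto (fun j => μ.real (B a \ G j a)) atTop (𝓝 0))
    (h : ¬ Nul fun n => μ.real {ω | S n ω ∧ ∀ a, T (u a n) ω ∈ B a}) :
    ∃ j, ¬ Nul fun n => μ.real {ω | S n ω ∧ ∀ a, T (u a n) ω ∈ B a ∩ G j a} := by
  by_contra! hn
  refine h (nul_of_forall (fun n => measureReal_nonneg) fun ε hε => ?_)
  have t := tendsto_finsetSum Finset.univ fun a _ => ht a
  rw [Finset.sum_const_zero] at t
  obtain ⟨j, hj⟩ := (t.eventually (ge_mem_nhds hε)).exists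
  refine ⟨_, hn j, fun n => ?_⟩
  have s : {ω | S n ω ∧ ∀ a, T (u a n) ω ∈ B a} ⊆
      {ω | S n ω ∧ ∀ a, T (u a n) ω ∈ B a ∩ G j a} ∪ ⋃ a, T (u a n) ⁻¹' (B a \ G j a) := by
    intro ω hω
    by_cases e : ∀ a, T (u a n) ω ∈ G j a
    · exact Or.inl ⟨hω.1, fun a => ⟨hω.2 a, e a⟩⟩
    · obtain ⟨a, ha⟩ := not_forall.1 e
      exact Or.inr (Set.mem_iUnion.2 ⟨a, hω.2 a, ha⟩)
  refine (measureReal_mono s).trans ((measureReal_union_le _ _).trans ?_)
  gcongr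
  refine (measureReal_iUnion_fintype_le _).trans (le_trans (le_of_eq ?_) hj)
  exact Finset.sum_congr rfl fun a _ =>
    (hT.mp _).measureReal_preimage ((hB a).diff (hG j a)).nullMeasurableSet

theorem b_arr (h2 : ∃ a b : ι, a ≠ b) (hu : PW u) (hp : HAp u) (hB : Base u Z R) (hS : GSimple Z.toMS R) :
    ∃ B C D, ArrOut Z.toMS R B C D := by
  obtain ⟨o', o, ho⟩ := h2
  obtain ⟨Λ, _, hK⟩ := b_ark hB.rsg
  obtain ⟨Y, w, Γ, V, hL⟩ := b_lim hu hp hB
  obtain ⟨B, mB, mk, rl, fail⟩ := b_cls hB.rsg hK hL ho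
  have hE : Z.μ (B o) ≠ 0 := fun e => fail (nul_mono (q := fun _ => 0) (fun n => measureReal_nonneg)
    (fun n => by
      have s : {ω | SumIn u n (R ω) ∧ ∀ a, Z.T (u a n) ω ∈ B a} ⊆ Z.T (u o n) ⁻¹' B o :=
        fun ω hω => hω.2 o
      refine (measureReal_mono s).trans (le_of_eq ?_)
      rw [(Z.sys.mp _).measureReal_preimage (mB o).nullMeasurableSet, Measure.real, e,
        ENNReal.toReal_zero]) (tendsto_av_const 0))
  have rows := fun a => barr_rows Z.μ (ark_meas_del (Λ := Λ) a o 0) (mB a) (mB o) hE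
    (rl.mono fun p hp h1 h2 => (ark_rl_self p a o 0).1 (hp a o h1 h2))
  obtain ⟨j, hj⟩ := barr_keep (u := u) Z.sys (S := fun n ω => SumIn u n (R ω))
    (G := fun (j : ℕ) a => {x | 4 * Z.μ (B o ∩ {y | del Λ (x, y) a o 0 < (j : ℝ≥0∞)⁻¹}) ≤ Z.μ (B o)})
    mB (fun j a => (rows a).1 _) (fun a => (rows a).2) fail
  have mB' := fun a => (mB a).inter ((rows a).1 (j : ℝ≥0∞)⁻¹)
  obtain ⟨D, hD⟩ := b_cnt hB.rsg hB.clo hS hK mB' (fun a x hx => mk a x hx.1)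
    (rl.mono fun p hp a b h1 h2 => hp a b h1.1 h2.1) (mB o) hE
    (ENNReal.inv_ne_zero.2 (ENNReal.natCast_ne_top j)) fun a x hx => hx.2
  refine ⟨_, fun a b q => Cl Λ q a b 0, D, mB', fun a b z => ark_meas_cl a b 0 z, ?_, hD, ?_⟩
  · filter_upwards [rl, ark_c1 hB.rsg hB.clo hS hK] with p h1 h2 a b ha hb
    have h3 := h2 a b 0 (mk a _ ha.1) (h1 a b ha.1 hb.1)
    exact ⟨h3.1, h3.2.1, mk a _ ha.1⟩
  · obtain ⟨δ, hδ, hf⟩ := barr_freq (fun n => measureReal_nonneg) hj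
    refine ⟨δ, hδ, fun G => ?_⟩
    have ev : ∀ᶠ n in atTop, Far G fun a => u a n :=
      eventually_all.2 fun a => eventually_all.2 fun b => eventually_all.2 fun h => hu.gap a b h G
    obtain ⟨n, h1, h2⟩ := (hf.and_eventually ev).exists
    exact ⟨fun a => u a n, h2, h1⟩

end Pool.Agent.Lib.MP_1db5af_an.Th
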