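import Pool.Agent.Lib.MP_1db5af_an.Th.BDefs
import Pool.Agent.Lib.MP_1db5af_an.Th.Rsg

set_option autoImplicit false

namespace Pool.Agent.Lib.MP_1db5af_an.Th

open MeasureTheory ProbabilityTheory Filter Topology ComplexConjugate
open scoped ENNReal NNReal InnerProductSpace

variable {Y Y' Ω Ω' : MS} {ι : Type}

theorem bx_id (Ω : MS) : Ext Ω Ω fun x => x :=
  ⟨Measure.QuasiMeasurePreserving.id _, fun _ => ae_of_all _ fun _ => rfl⟩

theorem bx_comp {π : Y.X → Ω.X} {π' : Ω.X → Ω'.X} (h : Ext Y Ω π) (h' : Ext Ω Ω' π') :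
    Ext Y Ω' fun y => π' (π y) :=
  ⟨h'.qmp.comp h.qmp, fun k => by
    filter_upwards [h.comm k, h.qmp.ae (h'.comm k)] with y h1 h2
    rw [h1, h2]⟩

theorem bx_re (Ω : MS) {μ : Measure Ω.X} [IsFiniteMeasure μ] (h : Sys μ Ω.T) (hμ : μ ≪ Ω.ν) :
    Ext (Ω.re μ h) Ω fun x => x :=
  ⟨⟨measurable_id, by simpa using hμ⟩, fun _ => ae_of_all _ fun _ => rfl⟩

theorem bx_pfst (Ω Ω' : MS) : Ext (Ω.prod Ω') Ω fun p => p.1 :=
  ⟨Measure.quasiMeasurePreserving_fst, fun _ => ae_of_all _ fun _ => rfl⟩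

theorem bx_psnd (Ω Ω' : MS) : Ext (Ω.prod Ω') Ω' fun p => p.2 :=
  ⟨Measure.quasiMeasurePreserving_snd, fun _ => ae_of_all _ fun _ => rfl⟩

theorem bx_cp (Ω : MS) {S : Type} [MeasurableSpace S] {TS : ℤ → S → S} (hS : MAct TS)
    (Λ : Kernel Ω.X S) [IsMarkovKernel Λ] (hΛ : EqvK Ω.ν Ω.T TS Λ) :
    Ext (Ω.cp hS Λ hΛ) Ω fun p => p.1 :=
  ⟨⟨measurable_fst, by
    have : (Ω.ν ⊗ₘ Λ).fst = Ω.ν := Measure.fst_compProd _ _
    exact this.absolutelyContinuous⟩, fun _ => ae_of_all _ fun _ => rfl⟩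

theorem bx_eqvK {π : Y.X → Ω.X} (h : Ext Y Ω π) {S : Type} [MeasurableSpace S] {TS : ℤ → S → S}
    {Λ : Kernel Ω.X S} (hΛ : EqvK Ω.ν Ω.T TS Λ) :
    EqvK Y.ν Y.T TS (Λ.comap π h.qmp.measurable) :=
  eqv_comap h.qmp h.comm hΛ

theorem Ext2.fst {π π' : Y.X → Ω.X} (h : Ext2 Y Ω π π') : Ext Y Ω π :=
  ⟨Measure.quasiMeasurePreserving_fst.comp h.qmp, h.comm⟩

theorem Ext2.snd {π π' : Y.X → Ω.X} (h : Ext2 Y Ω π π') : Ext Y Ω π' :=
  ⟨Measure.quasiMeasurePreserving_snd.comp h.qmp, h.comm'⟩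

theorem Ext2.swap {π π' : Y.X → Ω.X} (h : Ext2 Y Ω π π') : Ext2 Y Ω π' π :=
  ⟨Measure.measurePreserving_swap.quasiMeasurePreserving.comp h.qmp, h.comm', h.comm⟩

theorem Ext2.ext {π π' : Y.X → Ω.X} (h : Ext2 Y Ω π π') :
    Ext Y (Ω.prod Ω) fun y => (π y, π' y) :=
  ⟨h.qmp, fun k => by
    filter_upwards [h.comm k, h.comm' k] with y h1 h2
    rw [h1, h2]; rfl⟩

theorem Ext2.comp {π π' : Y.X → Ω.X} (h : Ext2 Y Ω π π') {φ : Y'.X → Y.X} (h' : Ext Y' Y φ) :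
    Ext2 Y' Ω (fun y => π (φ y)) fun y => π' (φ y) :=
  ⟨h.qmp.comp h'.qmp, (bx_comp h' h.fst).comm, (bx_comp h' h.snd).comm⟩

theorem bx_prod2 (Ω : MS) : Ext2 (Ω.prod Ω) Ω (fun p => p.1) fun p => p.2 :=
  ⟨Measure.QuasiMeasurePreserving.id _, fun _ => ae_of_all _ fun _ => rfl,
    fun _ => ae_of_all _ fun _ => rfl⟩

theorem bx_ext2 {π : Y.X → Ω.X} {π' : Y'.X → Ω.X} (h : Ext Y Ω π) (h' : Ext Y' Ω π') :
    Ext2 (Y.prod Y') Ω (fun p => π p.1) fun p => π' p.2 :=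
  ⟨MeasureTheory.QuasiMeasurePreserving.prodMap h.qmp h'.qmp, (bx_comp (bx_pfst Y Y') h).comm,
    (bx_comp (bx_psnd Y Y') h').comm⟩

theorem bx_shI_zero (i : ι × ℤ) : shI 0 i = i := by
  simp [shI]

theorem bx_shI_add (k l : ℤ) (i : ι × ℤ) : shI k (shI l i) = shI (k + l) i := by
  simp only [shI, add_assoc, add_comm l k]

theorem bx_mact_shP : MAct (shP (ι := ι)) where
  zero s := by funext i; simp only [shP, bx_shI_zero]
  add k l s := by funext i; simp only [shP, bx_shI_add, add_comm l k]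
  meas k := measurable_pi_lambda _ fun _ => measurable_pi_apply _

theorem bx_act_tt : Act (tt ι) :=
  ⟨fun x => Prod.ext (act_tau.zero x.1) (act_tau.zero x.2),
    fun k l x => Prod.ext (act_tau.add k l x.1) (act_tau.add k l x.2)⟩

theorem bx_tau_em (k : ℤ) (i : ι × ℤ) : tau ι ℤ k (em i) = em (shI k i) :=
  tau_ee k i.1 i.2

theorem bx_tt_mpr (k : ℤ) (a b : ι) (l : ℤ) : tt ι k (mpr a b l) = mpr a b (l + k) :=
  Prod.ext (tau_ee k a l) (tau_ee k b l)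

theorem bx_ee_iff {R : Ω.X → AddSubgroup (AA ι)} (h : Rsg Ω (tau ι ℤ) R) :
    ∀ᵐ ω ∂Ω.ν, ∀ k a l, ee a l ∈ R (Ω.T k ω) ↔ ee a (l + k) ∈ R ω := by
  filter_upwards [h.eqv] with ω hω k a l
  rw [hω, tau_ee]

theorem bx_rsg_dec {A : Type} [AddCommGroup A] [Countable A] {τ : ℤ → A →+ A} (hτ : Act τ)
    (Λ : Kernel Ω.X (A → Bool)) [IsMarkovKernel Λ] (hΛ : EqvK Ω.ν Ω.T (shS τ) Λ) :
    Rsg (Ω.cp (mact_shS hτ) Λ hΛ) τ fun p => dec p.2 :=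
  rsg_dec (Ω := Ω.cp (mact_shS hτ) Λ hΛ) hτ measurable_snd fun _ => ae_of_all _ fun _ => rfl

theorem bx_meas_arr {X A A' : Type} [MeasurableSpace X] [AddCommGroup A] [AddCommGroup A']
    [Countable A] [Countable A'] {R : X → AddSubgroup A} {R' : X → AddSubgroup A'}
    {g : X → AddSubgroup (A × A')} (hR : ∀ x, MeasurableSet {ω | x ∈ R ω})
    (hR' : ∀ x, MeasurableSet {ω | x ∈ R' ω}) (hg : ∀ z, MeasurableSet {ω | z ∈ g ω}) :
    MeasurableSet {ω | IsArr (R ω) (R' ω) (g ω)} := by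
  simp only [measurableSet_setOf] at *
  exact (Measurable.forall fun x => (hg _).iff (hR x)).and
    (Measurable.forall fun y => (hg _).iff (hR' y))

theorem bx_meas_eq {X A : Type} [MeasurableSpace X] [AddCommGroup A] [Countable A]
    {K K' : X → AddSubgroup A} (h : ∀ x, MeasurableSet {ω | x ∈ K ω})
    (h' : ∀ x, MeasurableSet {ω | x ∈ K' ω}) : MeasurableSet {ω | K ω = K' ω} := by
  simp only [measurableSet_setOf, AddSubgroup.ext_iff] at *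
  exact Measurable.forall fun x => (h x).iff (h' x)

theorem bx_surj {A : Type} [AddCommGroup A] {τ : ℤ → A →+ A} (hτ : Act τ) (k : ℤ) :
    Function.Surjective (τ k) := fun x => ⟨τ (-k) x, by rw [← hτ.add, add_neg_cancel, hτ.zero]⟩

theorem bx_arr_inv {A A' : Type} [AddCommGroup A] [AddCommGroup A'] {τ : ℤ → A →+ A}
    {τ' : ℤ → A' →+ A'} (hτ : Act τ) (hτ' : Act τ') {R : Ω.X → AddSubgroup A}
    {R' : Ω.X → AddSubgroup A'} {g : Ω.X → AddSubgroup (A × A')} (hR : Rsg Ω τ R)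
    (hR' : Rsg Ω τ' R') (hg : Rsg Ω (tau2 τ τ') g) :
    ∀ᵐ ω ∂Ω.ν, ∀ k, IsArr (R (Ω.T k ω)) (R' (Ω.T k ω)) (g (Ω.T k ω)) ↔ IsArr (R ω) (R' ω) (g ω) := by
  filter_upwards [hR.eqv, hR'.eqv, hg.eqv] with ω h1 h2 h3 k
  simp only [IsArr, h1, h2, h3, tau2, AddMonoidHom.coe_prodMap, Prod.map, map_zero]
  exact and_congr ((bx_surj hτ k).forall (p := fun x => (x, 0) ∈ g ω ↔ x ∈ R ω)).symm
    ((bx_surj hτ' k).forall (p := fun y => (0, y) ∈ g ω ↔ y ∈ R' ω)).symm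

end Pool.Agent.Lib.MP_1db5af_an.Th
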