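import Pool.Agent.Lib.MP_1db5af_an.Th.BDefs
import Pool.Agent.Lib.MP_1db5af_an.Th.Rsg
import Pool.Agent.Lib.MP_1db5af_an.Th.Wk

set_option autoImplicit false

namespace Pool.Agent.Lib.MP_1db5af_an.Th

open MeasureTheory ProbabilityTheory Filter Topology ComplexConjugate
open scoped ENNReal NNReal InnerProductSpace

variable {A : Type} [AddCommGroup A] [Countable A] {τ : ℤ → A →+ A} {Ω : MS}
  {R : Ω.X → AddSubgroup A}

omit [Countable A] in
theorem bclo_inv (hR : Rsg Ω τ R) (k : ℤ) (a b : A) :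
    Ω.ν.real {ω | τ k a ∉ R ω ∧ τ k b ∈ R ω} = Ω.ν.real {ω | a ∉ R ω ∧ b ∈ R ω} := by
  have hm : MeasurableSet {ω | a ∉ R ω ∧ b ∈ R ω} := (hR.meas a).compl.inter (hR.meas b)
  rw [← (Ω.sys.mp k).measureReal_preimage hm.nullMeasurableSet]
  refine measureReal_congr ?_
  filter_upwards [hR.eqv] with ω h
  change (τ k a ∉ R ω ∧ τ k b ∈ R ω) = (a ∉ R (Ω.T k ω) ∧ b ∈ R (Ω.T k ω))
  rw [h k a, h k b]

omit [Countable A] in
theorem bclo_shift (hτ : Act τ) (hR : Rsg Ω τ R) (y : A) (m k l : ℤ) :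
    Ω.ν.real {ω | τ (m + k) y ∉ R ω ∧ τ (m + k) y - τ (m + l) y ∈ R ω} =
      Ω.ν.real {ω | τ k y ∉ R ω ∧ τ k y - τ l y ∈ R ω} := by
  rw [← bclo_inv hR m (τ k y) (τ k y - τ l y)]
  simp only [map_sub, hτ.add]

omit [Countable A] in
theorem bclo_symm (R : Ω.X → AddSubgroup A) (a b : A) :
    {ω | a ∉ R ω ∧ a - b ∈ R ω} = {ω | b ∉ R ω ∧ b - a ∈ R ω} := by
  have key : ∀ (K : AddSubgroup A) (a b : A), a ∉ K ∧ a - b ∈ K → b ∉ K ∧ b - a ∈ K := by
    rintro K a b ⟨h1, h2⟩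
    refine ⟨fun h => h1 ?_, ?_⟩
    · simpa using K.add_mem h2 h
    · simpa using K.neg_mem h2
  ext ω
  exact ⟨key _ _ _, key _ _ _⟩

theorem bclo_sum {P : ℕ → ℝ} (hP : ∀ n, 0 ≤ P n) {M : ℕ} (s : Finset ℕ) (g : ℕ → ℕ)
    (hg : Set.InjOn g s) (hM : ∀ l ∈ s, g l < M) :
    ∑ l ∈ s, P (g l) ≤ ∑ n ∈ Finset.range M, P n := by
  rw [← Finset.sum_image hg]
  refine Finset.sum_le_sum_of_subset_of_nonneg ?_ fun n _ _ => hP n
  intro n hn
  obtain ⟨l, hl, rfl⟩ := Finset.mem_image.1 hn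
  exact Finset.mem_range.2 (hM l hl)

theorem bclo_av {P : ℕ → ℝ} (hP : ∀ n, 0 ≤ P n) {M k : ℕ} (hk : k < M) {t : ℕ → ℝ}
    (h1 : ∀ l, k ≤ l → t l = P (l - k)) (h2 : ∀ l, l < k → t l = P (k - l)) :
    av t M ≤ 2 * av P M := by
  have e1 := bclo_sum hP (M := M) ((Finset.range M).filter fun l => k ≤ l) (fun l => l - k)
    (fun a ha b hb hab => by
      simp only [Finset.coe_filter, Set.mem_ofPred_eq] at ha hb
      simp only at hab
      omega)
    (fun l hl => by
      simp only [Finset.mem_filter, Finset.mem_range] at hl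
      omega)
  have e2 := bclo_sum hP (M := M) ((Finset.range M).filter fun l => ¬ k ≤ l) (fun l => k - l)
    (fun a ha b hb hab => by
      simp only [Finset.coe_filter, Set.mem_ofPred_eq] at ha hb
      simp only at hab
      omega)
    (fun l hl => by omega)
  have e3 := Finset.sum_filter_add_sum_filter_not (Finset.range M) (fun l => k ≤ l) t
  have e4 : ∑ l ∈ (Finset.range M).filter (fun l => k ≤ l), t l =
      ∑ l ∈ (Finset.range M).filter (fun l => k ≤ l), P (l - k) :=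
    Finset.sum_congr rfl fun l hl => h1 l (Finset.mem_filter.1 hl).2
  have e5 : ∑ l ∈ (Finset.range M).filter (fun l => ¬ k ≤ l), t l =
      ∑ l ∈ (Finset.range M).filter (fun l => ¬ k ≤ l), P (k - l) :=
    Finset.sum_congr rfl fun l hl => h2 l (not_le.1 (Finset.mem_filter.1 hl).2)
  simp only [av, smul_eq_mul]
  have e6 : ∑ l ∈ Finset.range M, t l ≤ 2 * ∑ n ∈ Finset.range M, P n := by linarith
  calc _ ≤ (M : ℝ)⁻¹ * (2 * ∑ n ∈ Finset.range M, P n) := by gcongr
    _ = _ := by ring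

theorem bclo_int {X : Type} [MeasurableSpace X] {ν : Measure X} {f : ℕ → X → ℝ}
    (hf : ∀ j, Integrable (f j) ν) (M : ℕ) :
    Integrable (fun ω => av (fun j => f j ω) M) ν ∧
      ∫ ω, av (fun j => f j ω) M ∂ν = av (fun j => ∫ ω, f j ω ∂ν) M := by
  simp only [av, smul_eq_mul]
  refine ⟨(integrable_finsetSum _ fun j _ => hf j).const_mul _, ?_⟩
  rw [integral_const_mul, integral_finsetSum _ fun j _ => hf j]

theorem bclo_cs {X : Type} [MeasurableSpace X] {ν : Measure X} [IsFiniteMeasure ν]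
    {E : ℕ → Set X} {F : ℕ → ℕ → Set X} (hE : ∀ j, MeasurableSet (E j))
    (hF : ∀ j i, MeasurableSet (F j i)) (h : ∀ j i, E j ∩ E i ⊆ F j i) {δ : ℝ} (hδ : 0 < δ)
    (M : ℕ) : av (fun j => ν.real (E j)) M ≤
      δ * ν.real Set.univ + δ⁻¹ * av (fun j => av (fun i => ν.real (F j i)) M) M := by
  have iE : ∀ j, Integrable ((E j).indicator fun _ => (1 : ℝ)) ν := fun j =>
    (integrable_const 1).indicator (hE j)
  have iF : ∀ j i, Integrable ((F j i).indicator fun _ => (1 : ℝ)) ν := fun j i =>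
    (integrable_const 1).indicator (hF j i)
  have a1 := bclo_int iE M
  have a2 := fun j => bclo_int (iF j) M
  have a3 := bclo_int (fun j => (a2 j).1) M
  have b1 : ∀ S : Set X, MeasurableSet S → ∫ ω, S.indicator (fun _ => (1 : ℝ)) ω ∂ν = ν.real S :=
    fun S hS => by rw [integral_indicator_const _ hS]; simp
  simp only [b1 _ (hE _)] at a1
  simp only [fun j => (a2 j).2, b1 _ (hF _ _)] at a3
  have key : ∀ ω, av (fun j => (E j).indicator (fun _ => (1 : ℝ)) ω) M ≤ δ + δ⁻¹ *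
      av (fun j => av (fun i => (F j i).indicator (fun _ => (1 : ℝ)) ω) M) M := by
    intro ω
    set s := av (fun j => (E j).indicator (fun _ => (1 : ℝ)) ω) M with hs
    have c1 : s * s ≤ av (fun j => av (fun i => (F j i).indicator (fun _ => (1 : ℝ)) ω) M) M := by
      conv_lhs => rw [mul_comm, hs, ← av_rmul]
      refine av_mono fun j _ => ?_
      rw [mul_comm, ← av_rmul]
      refine av_mono fun i _ => ?_
      by_cases hj : ω ∈ E j
      · by_cases hi : ω ∈ E i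
        · simp [hj, hi, h j i ⟨hj, hi⟩]
        · simp only [Set.indicator_of_notMem hi, mul_zero]
          exact Set.indicator_nonneg (fun _ _ => zero_le_one) _
      · simp only [Set.indicator_of_notMem hj, zero_mul]
        exact Set.indicator_nonneg (fun _ _ => zero_le_one) _
    have c2 : s ≤ δ + δ⁻¹ * (s * s) := by
      rw [← sub_nonneg]
      have : δ + δ⁻¹ * (s * s) - s = δ⁻¹ * ((s - δ / 2) ^ 2 + 3 / 4 * δ ^ 2) := by
        field_simp; ring
      rw [this]; positivity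
    refine c2.trans ?_
    gcongr
  rw [← a1.2, ← a3.2]
  refine (integral_mono a1.1 ((integrable_const δ).add (a3.1.const_mul δ⁻¹)) key).trans_eq ?_
  simp only [Pi.add_apply]
  rw [integral_add (integrable_const δ) (a3.1.const_mul δ⁻¹), integral_const_mul, integral_const]
  simp [mul_comm]

theorem b_qq_of_clo (hτ : Act τ) (hR : Rsg Ω τ R) (h : Clo Ω τ R) (y : A) :
    Tendsto (QQ Ω τ R y) atTop (𝓝 0) := by
  have hP := h y y
  set P : ℕ → ℝ := fun l => Ω.ν.real {ω | y ∈ (⊤ : AddSubgroup A) ∧ y ∉ R ω ∧ y - τ l y ∈ R ω}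
    with hPd
  have hP0 : ∀ n, 0 ≤ P n := fun n => measureReal_nonneg
  have e : ∀ k l : ℕ, k ≤ l →
      Ω.ν.real {ω | τ k y ∉ R ω ∧ τ k y - τ l y ∈ R ω} = P (l - k) := by
    intro k l hkl
    have := bclo_shift hτ hR y k 0 (l - k : ℕ)
    rw [add_zero, hτ.zero, ← Nat.cast_add, Nat.add_sub_cancel' hkl] at this
    rw [this, hPd]
    simp only [AddSubgroup.mem_top, true_and]
  have h2 : Tendsto (fun M => 2 * av P M) atTop (𝓝 0) := by simpa using hP.const_mul 2
  refine squeeze_zero (fun M => av_nonneg (fun k => av_nonneg (fun l => measureReal_nonneg) M) M)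
    (fun M => ?_) h2
  refine av_le (mul_nonneg zero_le_two (av_nonneg hP0 M)) fun k hk => ?_
  refine bclo_av hP0 hk (fun l hl => e k l hl) fun l hl => ?_
  rw [bclo_symm R, e l k hl.le]

theorem b_clo_of_qq (hτ : Act τ) (hR : Rsg Ω τ R)
    (h : ∀ y, ∀ ε : ℝ, 0 < ε → ∃ M, 0 < M ∧ QQ Ω τ R y M ≤ ε) : Clo Ω τ R := by
  intro x y
  set p : ℕ → ℝ := fun l => Ω.ν.real {ω | x ∈ (⊤ : AddSubgroup A) ∧ x ∉ R ω ∧ x - τ l y ∈ R ω}
    with hpd
  have hp0 : ∀ n, 0 ≤ p n := fun n => measureReal_nonneg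
  have hp1 : ∀ n, ‖p n‖ ≤ Ω.ν.real Set.univ := fun n => by
    rw [Real.norm_of_nonneg (hp0 n)]
    exact measureReal_mono (Set.subset_univ _)
  refine nul_of_forall hp0 fun ε hε => ?_
  have hV : 0 ≤ Ω.ν.real Set.univ := measureReal_nonneg
  set δ : ℝ := ε / (2 * (Ω.ν.real Set.univ + 1)) with hδd
  have hδ : 0 < δ := by positivity
  obtain ⟨M, hM, hQ⟩ := h y (δ * (ε / 2)) (by positivity)
  refine ⟨fun l => ∑ j ∈ Finset.range M, (M : ℝ)⁻¹ * (p l - p (l + j)), ?_, fun l => ?_⟩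
  · refine nul_finsum _ fun j _ => nul_mul _ ?_
    have := (av_shift hp1 j).neg
    rw [neg_zero] at this
    refine this.congr fun N => ?_
    rw [av_sub, neg_sub]
  · have hM' : (0 : ℝ) < M := by exact_mod_cast hM
    have e1 : ∑ j ∈ Finset.range M, (M : ℝ)⁻¹ * (p l - p (l + j)) =
        p l - av (fun j => p (l + j)) M := by
      rw [← Finset.mul_sum, Finset.sum_sub_distrib, Finset.sum_const, Finset.card_range]
      simp only [av, smul_eq_mul, nsmul_eq_mul]
      field_simp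
    have e2 := bclo_cs (ν := Ω.ν)
      (E := fun j => {ω | x ∈ (⊤ : AddSubgroup A) ∧ x ∉ R ω ∧ x - τ (l + j : ℕ) y ∈ R ω})
      (F := fun j i => {ω | τ (l + j) y ∉ R ω ∧ τ (l + j) y - τ (l + i) y ∈ R ω})
      (fun j => by
        simp only [AddSubgroup.mem_top, true_and]
        exact (hR.meas _).compl.inter (hR.meas _))
      (fun j i => (hR.meas _).compl.inter (hR.meas _))
      (fun j i ω hω => by
        obtain ⟨⟨-, h1, h2⟩, -, -, h3⟩ := hω
        push_cast at h2 h3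
        refine ⟨fun h4 => h1 ?_, ?_⟩
        · simpa using (R ω).add_mem h2 h4
        · have := (R ω).sub_mem h3 h2
          rwa [sub_sub_sub_cancel_left] at this) hδ M
    simp only [bclo_shift hτ hR] at e2
    have e3 : δ * Ω.ν.real Set.univ ≤ ε / 2 := by
      rw [hδd, div_mul_eq_mul_div, div_le_div_iff₀ (by positivity) (by positivity)]
      nlinarith
    have e4 : δ⁻¹ * QQ Ω τ R y M ≤ ε / 2 := by
      rw [inv_mul_le_iff₀ hδ]; exact hQ
    have e5 : av (fun j => p (l + j)) M ≤ δ * Ω.ν.real Set.univ + δ⁻¹ * QQ Ω τ R y M := e2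
    simp only [e1]
    linarith

end Pool.Agent.Lib.MP_1db5af_an.Th
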