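import Pool.Agent.Lib.MP_1db5af_an.Th.BArT
import Pool.Agent.Lib.MP_1db5af_an.Th.BArC

set_option autoImplicit false

namespace Pool.Agent.Lib.MP_1db5af_an.Th

open MeasureTheory ProbabilityTheory Filter Topology ComplexConjugate
open scoped ENNReal NNReal InnerProductSpace

theorem bcnt_img {α : Type} {f : ℤ → α} {K : Set ℤ} {D : ℕ}
    (h : ∀ s : Finset ℤ, ↑s ⊆ K → Set.InjOn f s → s.card ≤ D) (t : Finset α)
    (ht : ↑t ⊆ f '' K) : t.card ≤ D := by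
  classical
  obtain ⟨u, h1, h2, rfl⟩ := Finset.exists_subset_injOn_image_eq_of_surjOn K t ht
  exact Finset.card_image_le.trans (h u h1 h2)

theorem bcnt_enc {α : Type} {f : ℤ → α} {K : Set ℤ} {D : ℕ}
    (h : ∀ s : Finset ℤ, ↑s ⊆ K → Set.InjOn f s → s.card ≤ D) : (f '' K).encard ≤ D := by
  by_contra hn
  obtain ⟨t, h1, h2⟩ := Set.exists_subset_encard_eq (k := ((D + 1 : ℕ) : ℕ∞))
    (Order.add_one_le_of_lt (not_le.1 hn))
  lift t to Finset α using Set.finite_of_encard_eq_coe h2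
  have h3 := bcnt_img h t h1
  rw [Set.encard_coe_eq_coe_finsetCard, Nat.cast_inj] at h2
  omega

theorem bcnt_nat {c M : ℝ≥0∞} (hc : c ≠ 0) (hM : M ≠ ⊤) :
    ∃ D : ℕ, ∀ n : ℕ, n * c ≤ M → n ≤ D := by
  obtain ⟨D, hD⟩ := ENNReal.exists_nat_mul_gt hc hM
  refine ⟨D, fun n hn => not_lt.1 fun h => (hn.trans_lt hD).not_ge ?_⟩
  exact mul_le_mul_left (Nat.cast_le.2 h.le) c

theorem bcnt_int {X : Type} [MeasurableSpace X] {μ : Measure X} [IsProbabilityMeasure μ]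
    {s : Finset ℤ} {Y : ℤ → Set X} (hY : ∀ k, MeasurableSet (Y k)) {M : ℕ}
    (h : ∀ᵐ y ∂μ, ∀ t : Finset ℤ, (∀ k ∈ t, k ∈ s ∧ y ∈ Y k) → t.card ≤ M) :
    ∑ k ∈ s, μ (Y k) ≤ M := by
  classical
  simp only [← lintegral_indicator_one (hY _)]
  rw [← lintegral_finsetSum _ fun k _ => measurable_one.indicator (hY k)]
  refine (lintegral_mono_ae (g := fun _ => (M : ℝ≥0∞)) ?_).trans_eq (by simp)
  filter_upwards [h] with y hy
  simp only [Set.indicator_apply, Pi.one_apply, Finset.sum_boole]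
  exact Nat.cast_le.2 (hy _ fun k hk => Finset.mem_filter.1 hk)

theorem bcnt_half {X : Type} [MeasurableSpace X] {μ : Measure X} [IsFiniteMeasure μ]
    {E A B : Set X} (hA : 4 * μ (E ∩ A) ≤ μ E) (hB : 4 * μ (E ∩ B) ≤ μ E) :
    μ E ≤ 2 * μ (Aᶜ ∩ Bᶜ) := by
  have h1 : μ E ≤ μ (Aᶜ ∩ Bᶜ) + (μ (E ∩ A) + μ (E ∩ B)) :=
    (measure_mono fun x hx => by
      simp only [Set.mem_union, Set.mem_inter_iff, Set.mem_compl_iff]
      tauto).trans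
      ((measure_union_le _ (E ∩ A ∪ E ∩ B)).trans (add_le_add le_rfl (measure_union_le _ _)))
  lift μ E to ℝ≥0 using measure_ne_top _ _ with e
  lift μ (E ∩ A) to ℝ≥0 using measure_ne_top _ _ with a
  lift μ (E ∩ B) to ℝ≥0 using measure_ne_top _ _ with b
  lift μ (Aᶜ ∩ Bᶜ) to ℝ≥0 using measure_ne_top _ _ with c
  norm_cast at *
  nlinarith

variable {ι : Type} [Countable ι] {Z : CS} {R : Z.X → AddSubgroup (AA ι)}
  {Λ : Kernel (Z.X × Z.X) (AA ι × AA ι → Bool)} [IsMarkovKernel Λ]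

omit [Countable ι] [IsMarkovKernel Λ] in
theorem bcnt_rl {η : ℝ≥0∞} (hη : η ≠ 0) {p : Z.X × Z.X} {a b : ι} {k : ℤ}
    (h : η ≤ del Λ p a b k) : Rl Λ p a b k k := by
  rw [Rl]
  simp only [and_self]
  exact fun h0 => hη (le_zero_iff.1 (h.trans_eq h0))

open Classical in
theorem bcnt_row {η : ℝ≥0∞} {N : ℕ} (hN : ∀ n : ℕ, n * η ≤ 1 → n ≤ N)
    {p : Z.X × Z.X} {a b : ι} {s : Finset ℤ} (h1 : ∀ k ∈ s, η ≤ del Λ p a b k)
    (h2 : ∀ k ∈ s, ∀ l ∈ s, Rl Λ p a b k l → Cl Λ p a b k = Cl Λ p a b l) :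
    (s.image (Cl Λ p a b)).card ≤ N :=
  bcnt_img (K := s) (fun t ht hi => hN _ (ark_count p a b η t (fun k hk => h1 k (ht hk))
    fun k hk l hl e hr => e (hi hk hl (h2 k (ht hk) l (ht hl) hr)))) _ Finset.coe_image.le

/-- The count of arrows over good rows. -/
theorem b_cnt (hR : Rsg Z.toMS (tau ι ℤ) R) (hC : Clo Z.toMS (tau ι ℤ) R) (hS : GSimple Z.toMS R)
    (h : ArK Z R Λ) {B : ι → Set Z.X} (hB : ∀ a, MeasurableSet (B a))
    (hm : ∀ a, ∀ x ∈ B a, ee a 0 ∉ R x)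
    (hr : ∀ᵐ p ∂Z.μ.prod Z.μ, ∀ a b, p.1 ∈ B a → p.2 ∈ B b → Rl Λ p a b 0 0) {o : ι} {E : Set Z.X}
    (hE : MeasurableSet E) (hE0 : Z.μ E ≠ 0) {η : ℝ≥0∞} (hη : η ≠ 0)
    (hg : ∀ a, ∀ x ∈ B a, 4 * Z.μ (E ∩ {y | del Λ (x, y) a o 0 < η}) ≤ Z.μ E) :
    ∃ D : ℕ, ∀ᵐ p ∂Z.μ.prod Z.μ, ∀ a b, {g | ∃ k, Z.T k p.1 ∈ B a ∧ Z.T k p.2 ∈ B b ∧
      g = LL Z.toMS (fun a b q => Cl Λ q a b 0) a b k k p.1 p.2}.encard ≤ D := by
  classical
  obtain ⟨N, hN⟩ := bcnt_nat hη ENNReal.one_ne_top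
  obtain ⟨D, hD⟩ := bcnt_nat hE0 (M := 2 * (N * N : ℕ)) (by finiteness)
  have h1 := Measure.ae_ae_of_ae_prod ((ark_c5 hR hC hS h).and (ark_shift h))
  have h2 := bx_ee_iff hR
  refine ⟨D, ?_⟩
  filter_upwards [ark_c5 hR hC hS h, ark_shift h, sys_ae (sys_prod Z.sys Z.sys) hr,
    Measure.ae_ae_of_ae_prod (ark_trans' hR h), Measure.quasiMeasurePreserving_fst.ae (h1.and h2),
    Measure.quasiMeasurePreserving_snd.ae (h1.and h2)] with p a1 a2 a3 a4 ⟨a5, a6⟩ ⟨a7, a8⟩ a b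
  refine le_trans (Set.encard_le_encard ?_) (bcnt_enc (f := Cl Λ p a b)
    (K := {k | Z.T k p.1 ∈ B a ∧ Z.T k p.2 ∈ B b}) fun s hs hi => hD _ ?_)
  · rintro _ ⟨k, b1, b2, rfl⟩
    exact ⟨k, ⟨b1, b2⟩, (a2 k a b).2.symm⟩
  have m1 : ∀ k ∈ s, ee a k ∉ R p.1 := fun k hk e =>
    hm a _ (hs hk).1 ((a6 k a 0).2 (by rwa [zero_add]))
  have m2 : ∀ k ∈ s, ee b k ∉ R p.2 := fun k hk e =>
    hm b _ (hs hk).2 ((a8 k b 0).2 (by rwa [zero_add]))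
  have m3 : ∀ k ∈ s, Rl Λ p a b k k := fun k hk => by
    rw [ark_rl_self, ← (a2 k a b).1, ← ark_rl_self]
    exact a3 k a b (hs hk).1 (hs hk).2
  have m4 : ∀ (c : ι) (x : Z.X), MeasurableSet {y | del Λ (x, y) c o 0 < η} := fun c x =>
    measurableSet_lt ((ark_meas_del c o 0).comp measurable_prodMk_left) measurable_const
  have m5 := bcnt_int (μ := Z.μ) (s := s) (M := N * N) (Y := fun k => Z.T k ⁻¹'
    ({y | del Λ (Z.T k p.1, y) a o 0 < η}ᶜ ∩ {y | del Λ (Z.T k p.2, y) b o 0 < η}ᶜ))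
    (fun k => Z.sys.meas k ((m4 _ _).compl.inter (m4 _ _).compl)) (by
      filter_upwards [a4, a5, a7] with y b1 ⟨b2, b3⟩ ⟨b4, b5⟩ t ht
      have c0 : ∀ k ∈ t, k ∈ s ∧ η ≤ del Λ (p.1, y) a o k ∧ η ≤ del Λ (p.2, y) b o k :=
        fun k hk => ⟨(ht k hk).1, not_lt.1 fun e => (ht k hk).2.1 ((b3 k a o).1.trans_lt e),
          not_lt.1 fun e => (ht k hk).2.2 ((b5 k b o).1.trans_lt e)⟩
      have c1 := fun k hk l hl => b2 a o k l (m1 k (c0 k hk).1) (m1 l (c0 l hl).1)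
        (bcnt_rl hη (c0 k hk).2.1) (bcnt_rl hη (c0 l hl).2.1)
      have c2 := fun k hk l hl => b4 b o k l (m2 k (c0 k hk).1) (m2 l (c0 l hl).1)
        (bcnt_rl hη (c0 k hk).2.2) (bcnt_rl hη (c0 l hl).2.2)
      refine le_trans ?_ (Nat.mul_le_mul
        (bcnt_row hN (fun k hk => (c0 k hk).2.1) fun k hk l hl => (c1 k hk l hl).1)
        (bcnt_row hN (fun k hk => (c0 k hk).2.2) fun k hk l hl => (c2 k hk l hl).1))
      rw [← Finset.card_product]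
      refine Finset.card_le_card_of_injOn (fun k => (Cl Λ (p.1, y) a o k, Cl Λ (p.2, y) b o k))
        (fun k hk => Finset.mem_product.2
          ⟨Finset.mem_image_of_mem _ hk, Finset.mem_image_of_mem _ hk⟩) fun k hk l hl e => ?_
      have c3 := (c0 k hk).1
      have c4 := (c0 l hl).1
      exact hi c3 c4 ((a1 a b k l (m1 k c3) (m1 l c4) (m3 k c3) (m3 l c4)).1 (b1 a b o k l
        ((c1 k hk l hl).2 (congrArg Prod.fst e)) ((c2 k hk l hl).2 (congrArg Prod.snd e)))))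
  refine le_trans ?_ (mul_le_mul_right m5 2)
  rw [← nsmul_eq_mul, ← Finset.sum_const, Finset.mul_sum]
  refine Finset.sum_le_sum fun k hk => ?_
  rw [(Z.sys.mp k).measure_preimage ((m4 _ _).compl.inter (m4 _ _).compl).nullMeasurableSet]
  exact bcnt_half (hg a _ (hs hk).1) (hg b _ (hs hk).2)

end Pool.Agent.Lib.MP_1db5af_an.Th
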