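import Pool.Agent.Lib.MP_1db5af_an.Th.Defs

set_option autoImplicit false

namespace Pool.Agent.Lib.MP_1db5af_an.Th

open MeasureTheory ProbabilityTheory Filter Topology ComplexConjugate
open scoped ENNReal NNReal InnerProductSpace

section Gen

variable {κ A : Type} [AddCommGroup A]

/-- The relations generated by the leaves. -/
inductive Gen (R : κ → AddSubgroup A) (Lf : κ → κ → AddSubgroup (A × A) → Prop) :
    κ → κ → AddSubgroup (A × A) → Prop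
  | leaf {i j : κ} {g : AddSubgroup (A × A)} : Lf i j g → Gen R Lf i j g
  | id (i : κ) : Gen R Lf i i (gid (R i))
  | zero (i j : κ) : Gen R Lf i j (gzero (R j))
  | comp {i j k : κ} {g h : AddSubgroup (A × A)} :
      Gen R Lf i j g → Gen R Lf j k h → Gen R Lf i k (gcomp g h)
  | add {i j : κ} {g h : AddSubgroup (A × A)} :
      Gen R Lf i j g → Gen R Lf i j h → Gen R Lf i j (gadd g h)
  | neg {i j : κ} {g : AddSubgroup (A × A)} : Gen R Lf i j g → Gen R Lf i j (gneg g)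

/-- Generated relations are determined by their germs and by their values at marked points. -/
structure Germ (R : κ → AddSubgroup A) (Lf : κ → κ → AddSubgroup (A × A) → Prop) (Mk : Set A) :
    Prop where
  sv : ∀ i j g, Lf i j g → SV (R i) (R j) g
  g2 : ∀ i j g, Gen R Lf i j g → ∀ e ∈ Mk, e ∉ R i → (e, 0) ∈ g → GNull (R j) g
  g3 : ∀ i j j' g h, Gen R Lf i j g → Gen R Lf i j' h →
    (∀ x y, (x, y) ∈ g → x ∈ gdom h → y ∈ R j) → GNull (R j) g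

end Gen

variable {ι : Type}

/-- On every extension a closed subgroup above `R` is everything or has no new marked point. -/
def GSimple (Ω : MS) (R : Ω.X → AddSubgroup (AA ι)) : Prop :=
  ∀ (Y : MS) (π : Y.X → Ω.X), Ext Y Ω π → ∀ K : Y.X → AddSubgroup (AA ι), Rsg Y (tau ι ℤ) K →
    Clo Y (tau ι ℤ) K → (∀ᵐ y ∂Y.ν, R (π y) ≤ K y) →
    ∀ᵐ y ∂Y.ν, K y = ⊤ ∨ ∀ a k, ee a k ∈ K y → ee a k ∈ R (π y)

/-- The arrow seen from the times `k` and `l`. -/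
noncomputable def LL (Ω : MS) (C : ι → ι → Ω.X × Ω.X → AddSubgroup (AA ι × AA ι)) (a b : ι)
    (k l : ℤ) (p q : Ω.X) : AddSubgroup (AA ι × AA ι) :=
  (C a b (Ω.T k p, Ω.T l q)).comap ((tau ι ℤ (-k)).prodMap (tau ι ℤ (-l)))

/-- The canonical arrows between good points. -/
structure ArrOut [Fintype ι] (Ω : MS) (R : Ω.X → AddSubgroup (AA ι)) (B : ι → Set Ω.X)
    (C : ι → ι → Ω.X × Ω.X → AddSubgroup (AA ι × AA ι)) (D : ℕ) : Prop where
  mB : ∀ a, MeasurableSet (B a)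
  mC : ∀ a b z, MeasurableSet {p | z ∈ C a b p}
  arr : ∀ᵐ p ∂Ω.ν.prod Ω.ν, ∀ a b, p.1 ∈ B a → p.2 ∈ B b →
    IsArr (R p.1) (R p.2) (C a b p) ∧ (ee a 0, ee b 0) ∈ C a b p ∧ ee a 0 ∉ R p.1
  count : ∀ᵐ p ∂Ω.ν.prod Ω.ν, ∀ a b,
    {g | ∃ k, Ω.T k p.1 ∈ B a ∧ Ω.T k p.2 ∈ B b ∧ g = LL Ω C a b k k p.1 p.2}.encard ≤ D
  fail : ∃ δ : ℝ, 0 < δ ∧ ∀ G : ℤ, ∃ k : ι → ℤ, Far G k ∧
    δ ≤ Ω.ν.real {w | ∑ a, ee a (k a) ∈ R w ∧ ∀ a, Ω.T (k a) w ∈ B a}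

/-- The leaves at a tuple of points. -/
def Leaf {κ : Type} (Ω : MS) (B : ι → Set Ω.X)
    (C : ι → ι → Ω.X × Ω.X → AddSubgroup (AA ι × AA ι)) (p : κ → Ω.X) (i j : κ)
    (g : AddSubgroup (AA ι × AA ι)) : Prop :=
  i ≠ j ∧ ∃ a b k l, Ω.T k (p i) ∈ B a ∧ Ω.T l (p j) ∈ B b ∧ g = LL Ω C a b k l (p i) (p j)

/-- The marked points. -/
def Mark (ι : Type) : Set (AA ι) := {e | ∃ a k, e = ee a k}

/-- Generic tuples of points. -/
structure Good {κ : Type} (Ω : MS) (R : Ω.X → AddSubgroup (AA ι)) (B : ι → Set Ω.X)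
    (C : ι → ι → Ω.X × Ω.X → AddSubgroup (AA ι × AA ι)) (p : κ → Ω.X) : Prop where
  germ : Germ (fun i => R (p i)) (Leaf Ω B C p) (Mark ι)
  mark : ∀ i j, i ≠ j → ∀ a b k l, Ω.T k (p i) ∈ B a → Ω.T l (p j) ∈ B b →
    (ee a k, ee b l) ∈ LL Ω C a b k l (p i) (p j) ∧ ee a k ∉ R (p i) ∧ ee b l ∉ R (p j)

end Pool.Agent.Lib.MP_1db5af_an.Th
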