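import Pool.Agent.Lib.MP_1db5af_an.Th.Ker
import Pool.Agent.Lib.MP_1db5af_an.Th.GDefs

set_option autoImplicit false

namespace Pool.Agent.Lib.MP_1db5af_an.Th

open MeasureTheory ProbabilityTheory Filter Topology ComplexConjugate
open scoped ENNReal NNReal InnerProductSpace

/-- The same action with another invariant measure. -/
@[reducible] def MS.re (Ω : MS) (μ : Measure Ω.X) [IsFiniteMeasure μ] (h : Sys μ Ω.T) : MS :=
  { X := Ω.X, ν := μ, T := Ω.T, sys := h }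

/-- The product of two systems. -/
@[reducible] noncomputable def MS.prod (Ω Ω' : MS) : MS :=
  { X := Ω.X × Ω'.X, ν := Ω.ν.prod Ω'.ν, T := prodT Ω.T Ω'.T, sys := sys_prod Ω.sys Ω'.sys }

/-- The extension of a system by an equivariant kernel. -/
@[reducible] noncomputable def MS.cp (Ω : MS) {S : Type} [MeasurableSpace S] {TS : ℤ → S → S}
    (hS : MAct TS) (Λ : Kernel Ω.X S) [IsMarkovKernel Λ] (hΛ : EqvK Ω.ν Ω.T TS Λ) : MS :=
  { X := Ω.X × S, ν := Ω.ν ⊗ₘ Λ, T := prodT Ω.T TS, sys := sys_compProd Ω.sys hS hΛ }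

/-- Two equivariant maps whose joint law is absolutely continuous for the product measure. -/
structure Ext2 (Y Ω : MS) (π π' : Y.X → Ω.X) : Prop where
  qmp : Measure.QuasiMeasurePreserving (fun y => (π y, π' y)) Y.ν (Ω.ν.prod Ω.ν)
  comm : ∀ k, ∀ᵐ y ∂Y.ν, π (Y.T k y) = Ω.T k (π y)
  comm' : ∀ k, ∀ᵐ y ∂Y.ν, π' (Y.T k y) = Ω.T k (π' y)

section Abs

variable {A : Type} [AddCommGroup A]

/-- The double average that controls closedness. -/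
noncomputable def QQ (Ω : MS) (τ : ℤ → A →+ A) (R : Ω.X → AddSubgroup A) (y : A) (M : ℕ) : ℝ :=
  av (fun k : ℕ => av (fun l : ℕ => Ω.ν.real {ω | τ k y ∉ R ω ∧ τ k y - τ l y ∈ R ω}) M) M

end Abs

variable {ι : Type}

/-- The marked point of an index. -/
noncomputable abbrev em (i : ι × ℤ) : AA ι := ee i.1 i.2

/-- The action on pairs. -/
noncomputable abbrev tt (ι : Type) : ℤ → AA ι × AA ι →+ AA ι × AA ι := tau2 (tau ι ℤ) (tau ι ℤ)

/-- The action on sets of indices. -/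
def shP (k : ℤ) (s : ι × ℤ → Bool) : ι × ℤ → Bool := fun i => s (shI k i)

/-- The pair of marked points at time `l`. -/
noncomputable def mpr (a b : ι) (l : ℤ) : AA ι × AA ι := (ee a l, ee b l)

/-- The restriction of a subgroup to a set of indices. -/
noncomputable def rst (R : AddSubgroup (AA ι)) (s : ι × ℤ → Bool) : AddSubgroup (AA ι) :=
  R.comap (Finsupp.filterAddHom fun i => s i = true)

section Fin

variable [Fintype ι]

/-- The statement for all proper subsets of labels. -/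
def HAp (u : ι → ℕ → ℤ) : Prop := ∀ J : Finset ι, J ≠ Finset.univ → HA u J

/-- The sum of the marked points at the labels lies in `R`. -/
def SumIn (u : ι → ℕ → ℤ) (n : ℕ) (R : AddSubgroup (AA ι)) : Prop := ∑ a, ee a (u a n) ∈ R

/-- The failure of the statement at the marked points. -/
def FailB (u : ι → ℕ → ℤ) (Ω : MS) (R : Ω.X → AddSubgroup (AA ι)) : Prop :=
  ¬ Nul fun n => Ω.ν.real {ω | SumIn u n (R ω) ∧ ∀ a, ee a (u a n) ∉ R ω}

/-- An ergodic counterexample. -/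
structure Base (u : ι → ℕ → ℤ) (Z : CS) (R : Z.X → AddSubgroup (AA ι)) : Prop where
  erg : Ergodic (Z.T 1) Z.μ
  rsg : Rsg Z.toMS (tau ι ℤ) R
  clo : Clo Z.toMS (tau ι ℤ) R
  fail : FailB u Z.toMS R

/-- The random pseudometric on the marked points. -/
structure PDist (u : ι → ℕ → ℤ) (Z : CS) (R : Z.X → AddSubgroup (AA ι))
    (d : Z.X → ι × ℤ → ι × ℤ → ℝ) : Prop where
  meas : ∀ i j, Measurable fun ω => d ω i j
  nonneg : ∀ ω i j, 0 ≤ d ω i j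
  le_one : ∀ ω i j, d ω i j ≤ 1
  self : ∀ ω i, d ω i i = 0
  symm : ∀ ω i j, d ω i j = d ω j i
  tri : ∀ ω i j k, d ω i k ≤ d ω i j + d ω j k
  eqv : ∀ᵐ ω ∂Z.μ, ∀ k i j, d (Z.T k ω) i j = d ω (shI k i) (shI k j)
  max : ∀ (Y : MS) (π : Y.X → Z.X), Ext Y Z.toMS π → ∀ K : Y.X → AddSubgroup (AA ι),
    Rsg Y (tau ι ℤ) K → Clo Y (tau ι ℤ) K → (∀ᵐ y ∂Y.ν, R (π y) ≤ K y) →
    ∀ᵐ y ∂Y.ν, ∀ i j, d (π y) i j = 0 → (em i ∈ K y ↔ em j ∈ K y)
  cl : ∀ a b, Nul fun n => ∫ ω in {ω | SumIn u n (R ω)}, d ω (a, u a n) (b, u b n) ∂Z.μ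
  wk : ∀ a b, a ≠ b → ∀ (m : ℕ) (E : Set Z.X), MeasurableSet E → ∃ L : ℝ,
    Tendsto (av fun n => ∫ ω in E, (1 - d ω (a, 0) (b, u b n - u a n)) ^ m ∂Z.μ) atTop (𝓝 L) ∧
    Tendsto (av fun l : ℕ => ∫ ω in E, (1 - d ω (a, 0) (b, l)) ^ m ∂Z.μ) atTop (𝓝 L)

/-- Good points: finitely many classes. -/
structure GoodP (Z : CS) (R : Z.X → AddSubgroup (AA ι)) (d : Z.X → ι × ℤ → ι × ℤ → ℝ)
    (G : ι → Set Z.X) (D : ℕ) : Prop where
  meas : ∀ a, MeasurableSet (G a)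
  mark : ∀ a, ∀ ω ∈ G a, ee a 0 ∉ R ω
  fin : ∀ᵐ ω ∂Z.μ, ∀ s : Finset (ι × ℤ), (∀ i ∈ s, Z.T i.2 ω ∈ G i.1) →
    (∀ i ∈ s, ∀ j ∈ s, i ≠ j → d ω i j ≠ 0) → s.card ≤ D

/-- A measure on points with a class of marked points. -/
structure Cls (u : ι → ℕ → ℤ) (Z : CS) (R : Z.X → AddSubgroup (AA ι))
    (d : Z.X → ι × ℤ → ι × ℤ → ℝ) (m : Measure (Z.X × (ι × ℤ → Bool))) : Prop where
  sys : Sys m (prodT Z.T shP)
  ac : m.fst ≪ Z.μ
  cls : ∀ᵐ p ∂m, ∀ i, p.2 i = true → em i ∉ R p.1 ∧ ∀ j, p.2 j = true → d p.1 i j = 0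
  fail : ¬ Nul fun n => m.real {p | SumIn u n (R p.1) ∧ ∀ a, p.2 (a, u a n) = true}

end Fin

/-- The limit system with its arrows. -/
structure LimS [Fintype ι] (u : ι → ℕ → ℤ) (Z : CS) (R : Z.X → AddSubgroup (AA ι)) (Y : MS)
    (w : ι → Y.X → Z.X) (Γ : ι → ι → Y.X → AddSubgroup (AA ι × AA ι)) (V : Set Y.X) : Prop where
  pair : ∀ a b, a ≠ b → Ext2 Y Z.toMS (w a) (w b)
  rsg : ∀ a b, Rsg Y (tt ι) (Γ a b)
  arr : ∀ a b, a ≠ b → ∀ᵐ y ∂Y.ν, IsArr (R (w a y)) (R (w b y)) (Γ a b y)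
  measV : MeasurableSet V
  pos : Y.ν V ≠ 0
  mem : ∀ y ∈ V, ∀ a, ee a 0 ∉ R (w a y) ∧ ∀ b, mpr a b 0 ∈ Γ a b y
  back : ∀ B : ι → Set Z.X, (∀ a, MeasurableSet (B a)) → Y.ν (V ∩ {y | ∀ a, w a y ∈ B a}) ≠ 0 →
    ¬ Nul fun n => Z.μ.real {ω | SumIn u n (R ω) ∧ ∀ a, Z.T (u a n) ω ∈ B a}

/-- The maximal kernel of arrows between two independent points. -/
structure ArK (Z : CS) (R : Z.X → AddSubgroup (AA ι))
    (Λ : Kernel (Z.X × Z.X) (AA ι × AA ι → Bool)) : Prop where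
  eqv : EqvK (Z.μ.prod Z.μ) (prodT Z.T Z.T) (shS (tt ι)) Λ
  arr : ∀ᵐ p ∂Z.μ.prod Z.μ, ∀ᵐ s ∂Λ p, IsArr (R p.1) (R p.2) (dec s)
  max : ∀ (Y : MS) (π π' : Y.X → Z.X), Ext2 Y Z.toMS π π' →
    ∀ g : Y.X → AddSubgroup (AA ι × AA ι), Rsg Y (tt ι) g →
    (∀ᵐ y ∂Y.ν, IsArr (R (π y)) (R (π' y)) (g y)) →
    ∀ᵐ y ∂Y.ν, ∀ z z', z ∈ g y → z' ∈ g y → Λ (π y, π' y) {s | z ∈ dec s ∧ z' ∈ dec s} ≠ 0

section Ker

variable {X : Type} [MeasurableSpace X] (Λ : Kernel X (AA ι × AA ι → Bool))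

/-- The probability that the arrow passes through the pair at time `l`. -/
noncomputable def del (p : X) (a b : ι) (l : ℤ) : ℝ≥0∞ := Λ p {s | mpr a b l ∈ dec s}

/-- Some arrow passes through the pairs at times `k` and `l`. -/
def Rl (p : X) (a b : ι) (k l : ℤ) : Prop := Λ p {s | mpr a b k ∈ dec s ∧ mpr a b l ∈ dec s} ≠ 0

/-- The maximal arrow through the pair at time `l`. -/
noncomputable def Cl (p : X) (a b : ι) (l : ℤ) : AddSubgroup (AA ι × AA ι) :=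
  AddSubgroup.closure {z | Λ p {s | mpr a b l ∈ dec s ∧ z ∈ dec s} ≠ 0}

end Ker

end Pool.Agent.Lib.MP_1db5af_an.Th
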