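import Pool.Agent.Lib.MP_1db5af_an.Th.BWk
import Pool.Agent.Lib.MP_1db5af_an.Th.MaxKer

set_option autoImplicit false

namespace Pool.Agent.Lib.MP_1db5af_an.Th

open MeasureTheory ProbabilityTheory Filter Topology ComplexConjugate
open scoped ENNReal NNReal InnerProductSpace

variable {ι : Type} [Fintype ι] {u : ι → ℕ → ℤ} {Z : CS} {R : Z.X → AddSubgroup (AA ι)}

/-- The codes that separate two marked points. -/
def bdistF (i j : ι × ℤ) : Set (AA ι → Bool) := {s | ¬ (em i ∈ dec s ↔ em j ∈ dec s)}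

theorem bdist_measF (i j : ι × ℤ) : MeasurableSet (bdistF i j) :=
  ((measurableSet_setOfPred.1 (meas_dec (em i))).iff
    (measurableSet_setOfPred.1 (meas_dec (em j)))).not.setOf

theorem bdist_shF (k : ℤ) (i j : ι × ℤ) :
    shS (tau ι ℤ) k ⁻¹' bdistF i j = bdistF (shI k i) (shI k j) := by
  ext s
  simp only [bdistF, Set.mem_preimage, Set.mem_ofPred_eq, dec_shS act_tau, bx_tau_em]

/-- The events that define closedness. -/
def bdistC (Z : CS) (x y : AA ι) (n : ℕ) : Set (Z.X × (AA ι → Bool)) :=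
  {p | x ∈ (⊤ : AddSubgroup (AA ι)) ∧ x ∉ dec p.2 ∧ x - tau ι ℤ n y ∈ dec p.2}

theorem bdist_measC (Z : CS) (x y : AA ι) (n : ℕ) : MeasurableSet (bdistC Z x y n) :=
  (MeasurableSet.const _).inter ((measurable_snd (meas_dec x)).compl.inter
    (measurable_snd (meas_dec _)))

/-- Invariant measures carried by closed subgroups above `R`. -/
def bdistA (Z : CS) (R : Z.X → AddSubgroup (AA ι)) (l : Measure (Z.X × (AA ι → Bool))) : Prop :=
  (IsFiniteMeasure l ∧ Sys l (prodT Z.T (shS (tau ι ℤ))) ∧ l.fst ≪ Z.μ) ∧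
    (∀ x y, Nul fun n => l.real (bdistC Z x y n)) ∧ ∀ᵐ p ∂l, R p.1 ≤ dec p.2

theorem bdist_mix {l : ℕ → Measure (Z.X × (AA ι → Bool))} (h : ∀ n, bdistA Z R (l n))
    (hf : IsFiniteMeasure (Measure.sum l)) : bdistA Z R (Measure.sum l) := by
  refine ⟨⟨hf, sys_sum (mact_prod Z.sys.toMAct (mact_shS act_tau)) fun n => (h n).1.2.1, ?_⟩,
    fun x y => nul_sum (bdist_measC Z x y) fun n => (h n).2.1 x y,
    Measure.ae_sum_iff.2 fun n => (h n).2.2⟩
  refine Measure.AbsolutelyContinuous.mk fun s hs h0 => ?_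
  rw [Measure.fst_apply hs, Measure.sum_apply _ (measurable_fst hs), ENNReal.tsum_eq_zero]
  intro n
  rw [← Measure.fst_apply hs]
  exact (h n).1.2.2 h0

theorem bdist_ac {l l' : Measure (Z.X × (AA ι → Bool))} (h : bdistA Z R l)
    (hf : IsFiniteMeasure l') (hs : Sys l' (prodT Z.T (shS (tau ι ℤ)))) (ha : l' ≪ l) :
    bdistA Z R l' := by
  have := h.1.1
  exact ⟨⟨hf, hs, (ha.map measurable_fst).trans h.1.2.2⟩, fun x y => nul_ac ha (h.2.1 x y),
    ha.ae_le h.2.2⟩

theorem bdist_map (hR : Rsg Z.toMS (tau ι ℤ) R) {Y : MS} {π : Y.X → Z.X} (hπ : Ext Y Z.toMS π)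
    {K : Y.X → AddSubgroup (AA ι)} (hK : Rsg Y (tau ι ℤ) K) (hc : Clo Y (tau ι ℤ) K)
    (hle : ∀ᵐ y ∂Y.ν, R (π y) ≤ K y) : bdistA Z R (Y.ν.map fun y => (π y, enc (K y))) := by
  have m1 : Measurable π := hπ.qmp.measurable
  have m2 : Measurable fun y => enc (K y) := meas_enc hK.meas
  have m3 : Measurable fun y => (π y, enc (K y)) := m1.prodMk m2
  refine ⟨⟨inferInstance, sys_map Y.sys (mact_prod Z.sys.toMAct (mact_shS act_tau)) m3 fun k => ?_,
    ?_⟩, fun x y => ?_, ?_⟩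
  · filter_upwards [hπ.comm k, hK.enc_eqv] with y h1 h2
    exact Prod.ext h1 (h2 k)
  · rw [Measure.fst_map_prodMk m2]
    exact hπ.qmp.absolutelyContinuous
  · have e : (fun n => (Y.ν.map fun y => (π y, enc (K y))).real (bdistC Z x y n)) = fun n : ℕ =>
        Y.ν.real {ω | x ∈ (⊤ : AddSubgroup (AA ι)) ∧ x ∉ K ω ∧ x - tau ι ℤ n y ∈ K ω} := by
      funext n
      rw [map_measureReal_apply m3 (bdist_measC Z x y n)]
      simp only [bdistC, Set.preimage_ofPred_eq, dec_enc]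
    rw [e]
    exact hc x y
  · have m4 : MeasurableSet {p : Z.X × (AA ι → Bool) | R p.1 ≤ dec p.2} := by
      have e : {p : Z.X × (AA ι → Bool) | R p.1 ≤ dec p.2} =
          ⋂ x, (Prod.fst ⁻¹' {ω | x ∈ R ω})ᶜ ∪ Prod.snd ⁻¹' {s | x ∈ dec s} := by
        ext p
        simp only [Set.mem_ofPred_eq, Set.mem_iInter, Set.mem_union, Set.mem_compl_iff,
          Set.mem_preimage, SetLike.le_def, imp_iff_not_or]
      rw [e]
      exact MeasurableSet.iInter fun x =>
        (measurable_fst (hR.meas x)).compl.union (measurable_snd (meas_dec x))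
    refine (ae_map_iff m3.aemeasurable m4).2 (hle.mono fun y hy => ?_)
    simpa only [dec_enc] using hy

theorem bdist_int {S : Type} [MeasurableSpace S] (Λ : Kernel Z.X S) [IsMarkovKernel Λ]
    {E : Set Z.X} (hE : MeasurableSet E) {F : Set S} (hF : MeasurableSet F) :
    ∫ ω in E, (Λ ω).real F ∂Z.μ = (Z.μ ⊗ₘ Λ).real (E ×ˢ F) := by
  rw [measureReal_def, Measure.compProd_apply_prod hE hF]
  exact integral_toReal (Λ.measurable_coe hF).aemeasurable
    (ae_of_all _ fun ω => measure_lt_top _ _)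

theorem bdist_cl (hp : HAp u) (Λ : Kernel Z.X (AA ι → Bool))
    [IsMarkovKernel Λ] (hΛ : EqvK Z.μ Z.T (shS (tau ι ℤ)) Λ) (hA : bdistA Z R (Z.μ ⊗ₘ Λ))
    {a b : ι} (hab : a ≠ b) :
    Nul fun n => (Z.μ ⊗ₘ Λ).real
      {p | SumIn u n (R p.1) ∧ ee a (u a n) ∈ dec p.2 ∧ ee b (u b n) ∉ dec p.2} := by
  classical
  have hJ : Finset.univ.erase a ≠ Finset.univ := fun e =>
    Finset.notMem_erase a Finset.univ (e.symm ▸ Finset.mem_univ a)
  have h1 := hp _ hJ (AA ι) (tau ι ℤ) act_tau (Z.toMS.cp (mact_shS act_tau) Λ hΛ)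
    (fun p => dec p.2) (bx_rsg_dec (Ω := Z.toMS) act_tau Λ hΛ) hA.2.1 (fun c => ee c 0) b
    (Finset.mem_erase.2 ⟨hab.symm, Finset.mem_univ b⟩)
  refine nul_mono (fun _ => measureReal_nonneg) (fun n => ?_) h1
  refine ENNReal.toReal_mono (measure_ne_top _ _) (measure_mono_ae ?_)
  filter_upwards [hA.2.2] with p hle hs
  have h2 := hle hs.1
  rw [← Finset.add_sum_erase _ _ (Finset.mem_univ a)] at h2
  have h3 := (AddSubgroup.add_mem_cancel_left _ hs.2.1).1 h2
  have h4 : (∑ c ∈ Finset.univ.erase a, tau ι ℤ (u c n) (ee c 0) ∈ dec p.2) ∧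
      tau ι ℤ (u b n) (ee b 0) ∉ dec p.2 := by
    simp only [tau_ee, zero_add]
    exact ⟨h3, hs.2.2⟩
  exact h4

theorem b_dist (hu : PW u) (hp : HAp u) (hB : Base u Z R) : ∃ d, PDist u Z R d := by
  obtain ⟨Λ, hM, hΛ, hA, hmax⟩ := maxker Z.toMS (mact_shS (act_tau (ι := ι) (R := ℤ)))
    (bdistA Z R) (fun l h => h.1) (fun l h hf => bdist_mix h hf)
    (fun l l' h hf hs ha => bdist_ac h hf hs ha)
    ⟨_, bdist_map hB.rsg (bx_id Z.toMS) hB.rsg hB.clo (ae_of_all _ fun _ => le_rfl), by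
      rw [Measure.fst_map_prodMk (meas_enc hB.rsg.meas), Measure.map_id']⟩
    (fun q : (ι × ℤ) × ι × ℤ => Prod.snd ⁻¹' bdistF q.1 q.2)
    fun q => measurable_snd (bdist_measF _ _)
  have hself : ∀ i : ι × ℤ, bdistF i i = ∅ := fun i =>
    Set.eq_empty_of_forall_notMem fun s hs => hs Iff.rfl
  refine ⟨fun ω i j => (Λ ω).real (bdistF i j),
    fun i j => (Λ.measurable_coe (bdist_measF i j)).ennreal_toReal,
    fun _ _ _ => measureReal_nonneg, fun _ _ _ => measureReal_le_one,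
    fun ω i => by rw [hself, measureReal_empty], fun ω i j => ?_, fun ω i j k => ?_, ?_,
    fun Y π hπ K hK hc hle => ?_, fun a b => ?_, fun a b hab m E hE => ?_⟩
  · refine congrArg _ (Set.ext fun s => ?_)
    exact not_congr Iff.comm
  · refine (measureReal_mono fun s hs => ?_).trans (measureReal_union_le _ _)
    by_contra hn
    have h1 : em i ∈ dec s ↔ em j ∈ dec s := not_not.1 fun h => hn (Or.inl h)
    have h2 : em j ∈ dec s ↔ em k ∈ dec s := not_not.1 fun h => hn (Or.inr h)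
    exact hs (h1.trans h2)
  · filter_upwards [ae_all_iff.2 hΛ] with ω hω k i j
    rw [← bdist_shF, ← map_measureReal_apply ((mact_shS act_tau).meas k) (bdist_measF i j)]
    exact congrArg (fun m : Measure (AA ι → Bool) => m.real (bdistF i j)) (hω k)
  · have m3 : Measurable fun y => (π y, enc (K y)) := hπ.qmp.measurable.prodMk (meas_enc hK.meas)
    filter_upwards [ae_of_ae_map m3.aemeasurable (hmax _ (bdist_map hB.rsg hπ hK hc hle))]
      with y hy i j h0
    by_contra hn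
    refine hy (i, j) ?_ ((measureReal_eq_zero_iff (measure_ne_top _ _)).1 h0)
    have h1 : ¬ (em i ∈ dec (enc (K y)) ↔ em j ∈ dec (enc (K y))) := by
      rwa [dec_enc]
    exact h1
  · by_cases hab : a = b
    · subst hab
      simp only [hself, measureReal_empty, integral_zero]
      exact tendsto_av_const 0
    refine nul_mono (fun n => integral_nonneg fun _ => measureReal_nonneg) (fun n => ?_)
      (nul_add (bdist_cl hp Λ hΛ hA hab) (bdist_cl hp Λ hΛ hA (Ne.symm hab)))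
    rw [bdist_int Λ (E := {ω | SumIn u n (R ω)}) (hB.rsg.meas _) (bdist_measF _ _)]
    refine (measureReal_mono fun p hp => ?_).trans (measureReal_union_le _ _)
    have h1 : ¬ (ee a (u a n) ∈ dec p.2 ↔ ee b (u b n) ∈ dec p.2) := hp.2
    by_cases h2 : ee a (u a n) ∈ dec p.2
    · exact Or.inl ⟨hp.1, h2, fun h3 => h1 (iff_of_true h2 h3)⟩
    · exact Or.inr ⟨hp.1, not_not.1 fun h3 => h1 (iff_of_false h2 h3), h2⟩
  · have e : ∀ (ω : Z.X) (l : ℤ), 1 - (Λ ω).real (bdistF (a, 0) (b, l)) =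
        (Λ ω).real {s | s ∈ {s | ee a 0 ∈ dec s} ↔
          shS (tau ι ℤ) l s ∈ {s : AA ι → Bool | ee b 0 ∈ dec s}} := by
      intro ω l
      rw [← probReal_compl_eq_one_sub (bdist_measF _ _)]
      refine congrArg _ (Set.ext fun s => ?_)
      simp only [bdistF, Set.mem_compl_iff, Set.mem_ofPred_eq, not_not, dec_shS act_tau, tau_ee,
        zero_add]
    simp only [e]
    exact b_wkpow Z (mact_shS act_tau) Λ hΛ (meas_dec _) (meas_dec _) (hu.weyl b a hab.symm) m hE

end Pool.Agent.Lib.MP_1db5af_an.Th
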