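import Pool.Agent.Lib.MP_1db5af_an.Th.BClo
import Pool.Agent.Lib.MP_1db5af_an.Ae.ErgDec

set_option autoImplicit false

namespace Pool.Agent.Lib.MP_1db5af_an.Th

open MeasureTheory ProbabilityTheory Filter Topology ComplexConjugate
open scoped ENNReal NNReal InnerProductSpace

variable {A : Type} [AddCommGroup A] [Countable A] {τ : ℤ → A →+ A}

theorem berg_av {X : Type} [MeasurableSpace X] {ν : Measure X} {F : ℕ → X → ℝ}
    (h : ∀ n, Integrable (F n) ν) (N : ℕ) : Integrable (fun x => av (fun n => F n x) N) ν ∧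
      ∫ x, av (fun n => F n x) N ∂ν = av (fun n => ∫ x, F n x ∂ν) N := by
  simp only [av, smul_eq_mul]
  exact ⟨(integrable_finsetSum _ fun n _ => h n).const_mul _, by
    rw [integral_const_mul, integral_finsetSum _ fun n _ => h n]⟩

theorem berg_inf {X : Type} [MeasurableSpace X] {ν : Measure X} [IsFiniteMeasure ν]
    {q : ℕ → X → ℝ} (h : ∀ n, Integrable (q n) ν) (h0 : ∀ n x, 0 ≤ q n x)
    (ht : Tendsto (fun n => ∫ x, q n x ∂ν) atTop (𝓝 0)) :
    ∀ᵐ x ∂ν, ∀ ε : ℝ, 0 < ε → ∃ M, 0 < M ∧ q M x ≤ ε := by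
  have key : ∀ ε : ℝ, 0 < ε → ∀ᵐ x ∂ν, ∃ M, 0 < M ∧ q M x ≤ ε := by
    intro ε hε
    have h1 : ε * ν.real {x | ¬∃ M, 0 < M ∧ q M x ≤ ε} ≤ 0 := by
      refine ge_of_tendsto ht ((eventually_gt_atTop 0).mono fun M hM => le_trans ?_
        (mul_meas_ge_le_integral_of_nonneg (Eventually.of_forall (h0 M)) (h M) ε))
      exact mul_le_mul_of_nonneg_left (measureReal_mono fun x hx =>
        (not_le.1 fun e => hx ⟨M, hM, e⟩).le) hε.le
    rw [ae_iff, ← measureReal_eq_zero_iff]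
    exact le_antisymm (nonpos_of_mul_nonpos_right h1 hε) measureReal_nonneg
  filter_upwards [ae_all_iff.2 fun j : ℕ => key (1 / ((j : ℝ) + 1)) Nat.one_div_pos_of_nat]
    with x hx ε hε
  obtain ⟨j, hj⟩ := exists_nat_one_div_lt hε
  obtain ⟨M, hM, e⟩ := hx j
  exact ⟨M, hM, e.trans hj.le⟩

theorem berg_int {X : Type} {m : MeasurableSpace X} [mX : MeasurableSpace X]
    [StandardBorelSpace X] (ν : Measure X) [IsFiniteMeasure ν] (hm : m ≤ mX) {C : Set X}
    (hC : MeasurableSet C) : Integrable (fun x => (condExpKernel ν m x).real C) ν ∧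
      ∫ x, (condExpKernel ν m x).real C ∂ν = ν.real C := by
  have e := condExpKernel_ae_eq_condExp (μ := ν) hm hC
  refine ⟨integrable_condExp.congr e.symm, ?_⟩
  rw [integral_congr_ae e, integral_condExp hm, integral_indicator hC]
  simp

theorem b_erg (Ω : MS) [StandardBorelSpace Ω.X] (hτ : Act τ) {R : Ω.X → AddSubgroup A}
    (hR : Rsg Ω τ R) (hC : Clo Ω τ R) {E : ℕ → Set Ω.X} (hE : ∀ n, MeasurableSet (E n))
    (h : ¬ Nul fun n => Ω.ν.real (E n)) :
    ∃ (μ : Measure Ω.X) (_ : IsProbabilityMeasure μ) (hs : Sys μ Ω.T), Ergodic (Ω.T 1) μ ∧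
      Rsg (Ω.re μ hs) τ R ∧ Clo (Ω.re μ hs) τ R ∧ ¬ Nul fun n => μ.real (E n) := by
  have hm := MeasurableSpace.invariants_le (Ω.T 1)
  have h1 : ∃ᶠ x in ae Ω.ν, ¬ Nul fun n =>
      (condExpKernel Ω.ν (MeasurableSpace.invariants (Ω.T 1)) x).real (E n) := by
    refine not_eventually.1 fun h2 => h ?_
    have h3 := tendsto_integral_of_dominated_convergence (μ := Ω.ν) (fun _ => (1 : ℝ))
      (fun N => (berg_av (fun n => (berg_int Ω.ν hm (hE n)).1) N).1.aestronglyMeasurable)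
      (integrable_const _) (fun N => Eventually.of_forall fun x => norm_av_le (fun n => by
        rw [Real.norm_of_nonneg measureReal_nonneg]
        exact measureReal_le_one) N) h2
    simp only [(berg_av (fun n => (berg_int Ω.ν hm (hE n)).1) _).2, (berg_int Ω.ν hm (hE _)).2,
      integral_zero] at h3
    exact h3
  have h2 : ∀ y, ∀ᵐ x ∂Ω.ν, ∀ ε : ℝ, 0 < ε → ∃ M, 0 < M ∧ av (fun k : ℕ => av (fun l : ℕ =>
      (condExpKernel Ω.ν (MeasurableSpace.invariants (Ω.T 1)) x).real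
        {ω | τ k y ∉ R ω ∧ τ k y - τ l y ∈ R ω}) M) M ≤ ε := by
    intro y
    have hS : ∀ k l : ℕ, MeasurableSet {ω | τ k y ∉ R ω ∧ τ k y - τ l y ∈ R ω} := fun k l =>
      (hR.meas _).compl.inter (hR.meas _)
    have h3 := fun M k => berg_av (fun l => (berg_int Ω.ν hm (hS k l)).1) M
    refine berg_inf (fun M => (berg_av (fun k => (h3 M k).1) M).1)
      (fun M x => av_nonneg (fun k => av_nonneg (fun l => measureReal_nonneg) M) M) ?_
    simp only [(berg_av (fun k => (h3 _ k).1) _).2, (h3 _ _).2, (berg_int Ω.ν hm (hS _ _)).2]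
    exact b_qq_of_clo hτ hR hC y
  obtain ⟨x, a, b, c, d⟩ := (h1.and_eventually ((ae_ergdec (Ω.sys.mp 1)).and
    ((ErgDecAux.ErgDec_ae Ω.ν hm hR.eqv).and (ae_all_iff.2 h2)))).exists
  have hs := sys_of_one Ω.sys.toMAct b.toMeasurePreserving
  have hr : Rsg (Ω.re _ hs) τ R := ⟨hR.meas, c⟩
  exact ⟨_, inferInstance, hs, b, hr, b_clo_of_qq hτ hr d, a⟩

end Pool.Agent.Lib.MP_1db5af_an.Th
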