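import Pool.Agent.Lib.MP_1db5af_an.Th.Ker

set_option autoImplicit false

namespace Pool.Agent.Lib.MP_1db5af_an.Th

open MeasureTheory ProbabilityTheory Filter Topology ComplexConjugate
open scoped ENNReal NNReal InnerProductSpace

theorem finext_meas {X S I : Type} [MeasurableSpace X] [MeasurableSpace S] [StandardBorelSpace S]
    [Countable I] {G : I → Set X} (hG : ∀ i, MeasurableSet (G i)) {w : I → X → S}
    (hw : ∀ i, Measurable (w i)) :
    Measurable fun y => (({s | ∃ i, y ∈ G i ∧ s = w i y}.encard : ℕ∞) : ℝ≥0∞) := by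
  obtain ⟨e, he⟩ := exists_injective_nat I
  let H : I → Set X := fun i => G i ∩ ⋂ j, ⋂ _ : e j < e i, (G j ∩ {y | w j y = w i y})ᶜ
  have hH : ∀ i, MeasurableSet (H i) := fun i => (hG i).inter (MeasurableSet.iInter fun j =>
    MeasurableSet.iInter fun _ => ((hG j).inter (measurableSet_eq_fun (hw j) (hw i))).compl)
  have mH : ∀ i y, y ∈ H i ↔ y ∈ G i ∧ ∀ j, e j < e i → y ∈ G j → w j y ≠ w i y := fun i y => by
    simp [H]
  have key : ∀ y, (({s | ∃ i, y ∈ G i ∧ s = w i y}.encard : ℕ∞) : ℝ≥0∞) =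
      ∑' i, (H i).indicator 1 y := fun y => by
    have h1 : {s | ∃ i, y ∈ G i ∧ s = w i y} = (fun i => w i y) '' {i | y ∈ H i} := by
      refine Set.Subset.antisymm ?_ fun s ⟨i, hi, h⟩ => ⟨i, hi.1, h.symm⟩
      rintro s ⟨i, hi⟩
      obtain ⟨j, hj, hm⟩ := (InvImage.wf e wellFounded_lt).has_min {i | y ∈ G i ∧ s = w i y} ⟨i, hi⟩
      exact ⟨j, (mH j y).2 ⟨hj.1, fun l h1 h2 h3 => hm l ⟨h2, hj.2.trans h3.symm⟩ h1⟩, hj.2.symm⟩
    have h2 : Set.InjOn (fun i => w i y) {i | y ∈ H i} := fun i hi j hj h => by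
      rcases lt_trichotomy (e i) (e j) with h3 | h3 | h3
      · exact absurd h (((mH j y).1 hj).2 i h3 hi.1)
      · exact he h3
      · exact absurd h.symm (((mH i y).1 hi).2 j h3 hj.1)
    rw [h1, h2.encard_image, ← ENNReal.tsum_set_one, tsum_subtype {i | y ∈ H i} fun _ => (1 : ℝ≥0∞)]
    rfl
  simp only [key]
  exact Measurable.tsum fun i => measurable_one.indicator (hH i)

theorem finext (Y : MS) {S : Type} [MeasurableSpace S] [StandardBorelSpace S] {TS : ℤ → S → S}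
    (hS : MAct TS) {κ : Type} [Countable κ] {E : κ → Set Y.X} (hE : ∀ a, MeasurableSet (E a))
    {v : κ → Y.X → S} (hv : ∀ a, Measurable (v a)) (D : ℕ)
    (hD : ∀ᵐ y ∂Y.ν, {s | ∃ a t, Y.T t y ∈ E a ∧ s = TS (-t) (v a (Y.T t y))}.encard ≤ D) :
    ∃ m : Measure (Y.X × S), IsFiniteMeasure m ∧ Sys m (prodT Y.T TS) ∧
      ∀ A, MeasurableSet A →
        Y.ν {y | ∃ a t, Y.T t y ∈ E a ∧ (y, TS (-t) (v a (Y.T t y))) ∈ A} ≤ m A ∧
        m A ≤ D * Y.ν {y | ∃ a t, Y.T t y ∈ E a ∧ (y, TS (-t) (v a (Y.T t y))) ∈ A} := by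
  obtain ⟨V, hV⟩ : ∃ V : Y.X → Set S, ∀ y s,
      s ∈ V y ↔ ∃ a t, Y.T t y ∈ E a ∧ s = TS (-t) (v a (Y.T t y)) := ⟨_, fun _ _ => Iff.rfl⟩
  have hw : ∀ i : κ × ℤ, Measurable fun y => TS (-i.2) (v i.1 (Y.T i.2 y)) := fun i =>
    (hS.meas _).comp ((hv _).comp (Y.sys.meas _))
  have hG : ∀ A, MeasurableSet A → ∀ i : κ × ℤ, MeasurableSet
      {y | Y.T i.2 y ∈ E i.1 ∧ (y, TS (-i.2) (v i.1 (Y.T i.2 y))) ∈ A} := fun A hA i =>
    (Y.sys.meas _ (hE _)).inter (measurable_id.prodMk (hw i) hA)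
  have mV : ∀ y, MeasurableSet (V y) := fun y =>
    ((Set.countable_range fun i : κ × ℤ => TS (-i.2) (v i.1 (Y.T i.2 y))).mono fun s hs => by
      obtain ⟨a, t, -, h⟩ := (hV y s).1 hs
      exact ⟨(a, t), h.symm⟩).measurableSet
  have mf : ∀ A, MeasurableSet A →
      Measurable fun y => (((Prod.mk y ⁻¹' A ∩ V y).encard : ℕ∞) : ℝ≥0∞) := fun A hA => by
    refine Eq.mp (congrArg Measurable (funext fun y => ?_)) (finext_meas (hG A hA) hw)
    congr 2
    ext s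
    rw [Set.mem_inter_iff, hV]
    exact ⟨fun ⟨i, h1, h2⟩ => ⟨h2 ▸ h1.2, i.1, i.2, h1.1, h2⟩,
      fun ⟨h, a, t, h1, h2⟩ => ⟨(a, t), ⟨h1, h2 ▸ h⟩, h2⟩⟩
  have ef : ∀ A, MeasurableSet A → ∀ y, (Measure.count.restrict (V y)).map (Prod.mk y) A =
      (((Prod.mk y ⁻¹' A ∩ V y).encard : ℕ∞) : ℝ≥0∞) := fun A hA y => by
    rw [Measure.map_apply measurable_prodMk_left hA,
      Measure.restrict_apply (measurable_prodMk_left hA),
      Measure.count_apply ((measurable_prodMk_left hA).inter (mV y))]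
  obtain ⟨m, hm⟩ : ∃ m : Measure (Y.X × S), ∀ A, MeasurableSet A →
      m A = ∫⁻ y, (((Prod.mk y ⁻¹' A ∩ V y).encard : ℕ∞) : ℝ≥0∞) ∂Y.ν := by
    refine ⟨Y.ν.bind fun y => (Measure.count.restrict (V y)).map (Prod.mk y), fun A hA => ?_⟩
    rw [Measure.bind_apply hA (Measure.measurable_of_measurable_coe _ fun B hB => by
      simpa only [ef B hB] using mf B hB).aemeasurable]
    simp only [ef A hA]
  have main : ∀ A, MeasurableSet A →
      Y.ν {y | ∃ a t, Y.T t y ∈ E a ∧ (y, TS (-t) (v a (Y.T t y))) ∈ A} ≤ m A ∧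
      m A ≤ D * Y.ν {y | ∃ a t, Y.T t y ∈ E a ∧ (y, TS (-t) (v a (Y.T t y))) ∈ A} := fun A hA => by
    have hU : MeasurableSet {y | ∃ a t, Y.T t y ∈ E a ∧ (y, TS (-t) (v a (Y.T t y))) ∈ A} := by
      simp only [Set.ofPred_exists]
      exact MeasurableSet.iUnion fun a => MeasurableSet.iUnion fun t => hG A hA (a, t)
    rw [hm A hA, ← lintegral_indicator_const hU, ← lintegral_indicator_one hU]
    refine ⟨lintegral_mono fun y => Set.indicator_apply_le' (fun ⟨a, t, h1, h2⟩ => ?_)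
      fun _ => zero_le, lintegral_mono_ae (hD.mono fun y hy => Set.le_indicator_apply
        (fun _ => ?_) fun h => ?_)⟩
    · have e : 1 ≤ (Prod.mk y ⁻¹' A ∩ V y).encard :=
        Set.one_le_encard_iff_nonempty.2 ⟨_, h2, (hV y _).2 ⟨a, t, h1, rfl⟩⟩
      exact ENat.toENNReal_one.ge.trans (ENat.toENNReal_le.2 e)
    · have e : (Prod.mk y ⁻¹' A ∩ V y).encard ≤ D :=
        le_trans (Set.encard_le_encard fun s hs => (hV y s).1 hs.2) hy
      exact_mod_cast e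
    · have e : Prod.mk y ⁻¹' A ∩ V y = ∅ := Set.eq_empty_of_forall_notMem fun s hs => by
        obtain ⟨a, t, h1, rfl⟩ := (hV y s).1 hs.2
        exact h ⟨a, t, h1, hs.1⟩
      simp [e]
  have hP := mact_prod Y.sys.toMAct hS
  refine ⟨m, ⟨(main _ .univ).2.trans_lt (ENNReal.mul_lt_top (ENNReal.natCast_lt_top D)
    (measure_lt_top _ _))⟩, ⟨hP, fun k => ⟨hP.meas k, Measure.ext fun A hA => ?_⟩⟩, main⟩
  rw [Measure.map_apply (hP.meas k) hA, hm _ (hP.meas k hA), hm A hA,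
    ← (Y.sys.mp k).lintegral_comp (mf A hA)]
  refine lintegral_congr fun y => ?_
  have inj : Function.Injective (TS k) := Function.LeftInverse.injective (g := TS (-k)) fun s => by
    rw [← hS.add, neg_add_cancel, hS.zero]
  rw [← inj.encard_image]
  congr 2
  ext s
  rw [Set.mem_inter_iff, hV]
  constructor
  · rintro ⟨s, ⟨h, hs⟩, rfl⟩
    obtain ⟨a, t, h1, rfl⟩ := (hV y s).1 hs
    refine ⟨h, a, t - k, ?_⟩
    rw [← Y.sys.add, sub_add_cancel, ← hS.add, neg_sub, sub_eq_add_neg]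
    exact ⟨h1, rfl⟩
  · rintro ⟨h, a, t, h1, rfl⟩
    rw [← Y.sys.add] at h h1 ⊢
    have e : TS k (TS (-(t + k)) (v a (Y.T (t + k) y))) = TS (-t) (v a (Y.T (t + k) y)) := by
      rw [← hS.add, neg_add_rev, add_neg_cancel_left]
    exact ⟨_, ⟨show (Y.T k y, _) ∈ A from e ▸ h, (hV y _).2 ⟨a, t + k, h1, rfl⟩⟩, e⟩

end Pool.Agent.Lib.MP_1db5af_an.Th
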