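import Pool.Agent.Lib.MP_1db5af_an.Th.BMin
import Pool.Agent.Lib.MP_1db5af_an.Th.FinExt

set_option autoImplicit false

namespace Pool.Agent.Lib.MP_1db5af_an.Th

open MeasureTheory ProbabilityTheory Filter Topology ComplexConjugate
open scoped ENNReal NNReal InnerProductSpace

variable {ι : Type} [Fintype ι] {u : ι → ℕ → ℤ} {Z : CS} {R : Z.X → AddSubgroup (AA ι)}
  {d : Z.X → ι × ℤ → ι × ℤ → ℝ} {G : ι → Set Z.X} {D : ℕ}

open Classical in
/-- The class of a point among the good points. -/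
noncomputable def bfinCl (Z : CS) (d : Z.X → ι × ℤ → ι × ℤ → ℝ) (G : ι → Set Z.X) (ω : Z.X)
    (i : ι × ℤ) : ι × ℤ → Bool := fun j => decide (Z.T j.2 ω ∈ G j.1 ∧ d ω i j = 0)

omit [Fintype ι] in
theorem bfin_true {ω : Z.X} {i j : ι × ℤ} :
    bfinCl Z d G ω i j = true ↔ Z.T j.2 ω ∈ G j.1 ∧ d ω i j = 0 := by
  simp [bfinCl]

theorem bfin_meas (hd : PDist u Z R d) (hG : GoodP Z R d G D) (i : ι × ℤ) :
    Measurable fun ω => bfinCl Z d G ω i := by
  refine measurable_pi_lambda _ fun j => measurable_to_bool ?_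
  have e : (fun ω => bfinCl Z d G ω i j) ⁻¹' {true} =
      Z.T j.2 ⁻¹' G j.1 ∩ (fun ω => d ω i j) ⁻¹' {0} := by
    ext ω
    exact bfin_true
  rw [e]
  exact (Z.sys.meas _ (hG.meas _)).inter (hd.meas i j (measurableSet_singleton 0))

omit [Fintype ι] in
theorem bfin_shift {ω : Z.X} (h : ∀ k i j, d (Z.T k ω) i j = d ω (shI k i) (shI k j)) (a : ι)
    (t : ℤ) : shP (-t) (bfinCl Z d G (Z.T t ω) (a, 0)) = bfinCl Z d G ω (a, t) := by
  funext j
  rw [Bool.eq_iff_iff, shP, bfin_true, bfin_true, h, ← Z.sys.add]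
  simp [shI]

theorem bfin_zero (hd : PDist u Z R d) {ω : Z.X} {i j k : ι × ℤ} (h : d ω i j = 0)
    (h' : d ω i k = 0) : d ω j k = 0 := by
  have h1 := hd.tri ω j i k
  rw [hd.symm ω j i, h, h', add_zero] at h1
  exact le_antisymm h1 (hd.nonneg _ _ _)

theorem bfin_eq (hd : PDist u Z R d) {ω : Z.X} {i j : ι × ℤ} (h : d ω i j = 0) :
    bfinCl Z d G ω i = bfinCl Z d G ω j := by
  funext k
  rw [Bool.eq_iff_iff, bfin_true, bfin_true]
  exact and_congr_right fun _ =>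
    ⟨fun h' => bfin_zero hd h h', fun h' => bfin_zero hd ((hd.symm _ _ _).trans h) h'⟩

theorem bfin_card [Nonempty ι] (hd : PDist u Z R d) (hG : GoodP Z R d G D) :
    ∀ᵐ y ∂Z.μ, {s | ∃ a t, Z.T t y ∈ G a ∧
      s = shP (-t) (bfinCl Z d G (Z.T t y) (a, 0))}.encard ≤ D := by
  classical
  filter_upwards [hd.eqv, hG.fin] with y h1 h2
  simp only [bfin_shift h1]
  by_contra hn
  obtain ⟨S, hS, hc⟩ := Set.exists_subset_encard_eq (Order.add_one_le_of_lt (not_le.1 hn))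
  have hf : S.Finite := Set.finite_of_encard_eq_coe (k := D + 1) (by rw [hc]; rfl)
  have h3 : ∀ s ∈ S, ∃ i : ι × ℤ, Z.T i.2 y ∈ G i.1 ∧ s = bfinCl Z d G y i := fun s hs => by
    obtain ⟨a, t, h4, h5⟩ := hS hs
    exact ⟨(a, t), h4, h5⟩
  choose! f hf1 hf2 using h3
  have h4 := h2 (hf.toFinset.image f) (fun i hi => by
    obtain ⟨s, hs, rfl⟩ := Finset.mem_image.1 hi
    exact hf1 s (hf.mem_toFinset.1 hs)) fun i hi j hj hne h0 => by
    obtain ⟨s, hs, rfl⟩ := Finset.mem_image.1 hi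
    obtain ⟨s', hs', rfl⟩ := Finset.mem_image.1 hj
    refine hne (congrArg f ?_)
    rw [hf2 s (hf.mem_toFinset.1 hs), hf2 s' (hf.mem_toFinset.1 hs')]
    exact bfin_eq hd h0
  rw [Finset.card_image_of_injOn fun s hs s' hs' e => by
    rw [hf2 s (hf.mem_toFinset.1 hs), hf2 s' (hf.mem_toFinset.1 hs'), e]] at h4
  rw [hf.encard_eq_coe_toFinset_card] at hc
  have h5 : hf.toFinset.card = D + 1 := by exact_mod_cast hc
  omega

/-- The points over which a set contains a class. -/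
def bfinU (Z : CS) (d : Z.X → ι × ℤ → ι × ℤ → ℝ) (G : ι → Set Z.X)
    (A : Set (Z.X × (ι × ℤ → Bool))) : Set Z.X :=
  {y | ∃ a t, Z.T t y ∈ G a ∧ (y, shP (-t) (bfinCl Z d G (Z.T t y) (a, 0))) ∈ A}

theorem bfin_measU (hd : PDist u Z R d) (hG : GoodP Z R d G D) {A : Set (Z.X × (ι × ℤ → Bool))}
    (hA : MeasurableSet A) : MeasurableSet (bfinU Z d G A) := by
  have e : bfinU Z d G A = ⋃ a, ⋃ t, Z.T t ⁻¹' G a ∩
      (fun y => (y, shP (-t) (bfinCl Z d G (Z.T t y) (a, 0)))) ⁻¹' A := by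
    ext y
    simp [bfinU]
  rw [e]
  exact MeasurableSet.iUnion fun a => MeasurableSet.iUnion fun t =>
    (Z.sys.meas _ (hG.meas _)).inter (measurable_id.prodMk
      ((bx_mact_shP.meas _).comp ((bfin_meas hd hG _).comp (Z.sys.meas t))) hA)

omit [Fintype ι] in
theorem bfin_inv {A : Set (Z.X × (ι × ℤ → Bool))} (hA : prodT Z.T shP 1 ⁻¹' A = A) :
    Z.T 1 ⁻¹' bfinU Z d G A = bfinU Z d G A := by
  have key : ∀ (y : Z.X) (t : ℤ) (s : ι × ℤ → Bool),
      (Z.T 1 y, shP (-t) s) ∈ A ↔ (y, shP (-(t + 1)) s) ∈ A := fun y t s => by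
    have e : (Z.T 1 y, shP (-t) s) = prodT Z.T shP 1 (y, shP (-(t + 1)) s) := by
      rw [prodT, ← bx_mact_shP.add]
      simp
    rw [e]
    exact Set.ext_iff.1 hA _
  ext y
  constructor
  · rintro ⟨a, t, h1, h2⟩
    rw [← Z.sys.add] at h1 h2
    exact ⟨a, t + 1, h1, (key _ _ _).1 h2⟩
  · rintro ⟨a, t, h1, h2⟩
    refine ⟨a, t - 1, ?_, ?_⟩
    · rwa [← Z.sys.add, sub_add_cancel]
    · rwa [← Z.sys.add, key, sub_add_cancel]

theorem b_fin [Nonempty ι] (hB : Base u Z R) (hd : PDist u Z R d) (hG : GoodP Z R d G D)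
    (h : ¬ Nul fun n => Z.μ.real {ω | SumIn u n (R ω) ∧ (∀ a, Z.T (u a n) ω ∈ G a) ∧
      ∀ a b, d ω (a, u a n) (b, u b n) = 0}) :
    ∃ (m : Measure (Z.X × (ι × ℤ → Bool))) (_ : IsProbabilityMeasure m),
      Ergodic (prodT Z.T shP 1) m ∧ Cls u Z R d m := by
  obtain ⟨m, hm, hs, hA⟩ := finext Z.toMS (bx_mact_shP (ι := ι)) hG.meas
    (v := fun a ω => bfinCl Z d G ω (a, 0)) (fun a => bfin_meas hd hG _) D (bfin_card hd hG)
  have lo : ∀ A, MeasurableSet A → Z.μ (bfinU Z d G A) ≤ m A := fun A h => (hA A h).1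
  have nul : ∀ A, MeasurableSet A → Z.μ (bfinU Z d G A) = 0 → m A = 0 := fun A h h0 => by
    have h1 : m A ≤ D * Z.μ (bfinU Z d G A) := (hA A h).2
    rw [h0, mul_zero] at h1
    exact le_antisymm h1 bot_le
  have ev : ∀ i : ι × ℤ, Measurable fun p : Z.X × (ι × ℤ → Bool) => p.2 i = true := fun i =>
    have h1 : Measurable fun p : Z.X × (ι × ℤ → Bool) => p.2 i :=
      (measurable_pi_apply i).comp measurable_snd
    measurableSet_setOfPred.1 (h1 (measurableSet_singleton true))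
  have mr : ∀ x : AA ι, Measurable fun p : Z.X × (ι × ℤ → Bool) => x ∈ R p.1 := fun x =>
    measurableSet_setOfPred.1 (measurable_fst (hB.rsg.meas x))
  have md : ∀ i j : ι × ℤ, Measurable fun p : Z.X × (ι × ℤ → Bool) => d p.1 i j = 0 := fun i j =>
    measurableSet_setOfPred.1 (((hd.meas i j).comp measurable_fst) (measurableSet_singleton 0))
  have hE : ∀ n, MeasurableSet {p : Z.X × (ι × ℤ → Bool) |
      SumIn u n (R p.1) ∧ ∀ a, p.2 (a, u a n) = true} := fun n =>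
    measurableSet_setOfPred.2 ((mr _).and (Measurable.forall fun a => ev _))
  obtain ⟨μ, hμ, h1, h2, h3, h4⟩ := b_min
    { X := Z.X × (ι × ℤ → Bool), ν := m, T := prodT Z.T shP, sys := hs } (fun E hE' hi h0 => by
      rcases hB.erg.toPreErgodic.prob_eq_zero_or_one (bfin_measU hd hG hE') (bfin_inv hi) with
        h5 | h5
      · exact (h0 (nul E hE' h5)).elim
      · exact h5.symm.le.trans (lo E hE')) hE (fun hn => h (nul_mono
        (fun _ => measureReal_nonneg) (fun n => by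
          refine ENNReal.toReal_mono (measure_ne_top m _)
            ((measure_mono_ae ?_).trans (lo _ (hE n)))
          filter_upwards [hd.eqv] with y hy hy'
          obtain ⟨a⟩ := ‹Nonempty ι›
          refine ⟨a, u a n, hy'.2.1 a, hy'.1, fun b => ?_⟩
          rw [bfin_shift hy]
          exact bfin_true.2 ⟨hy'.2.1 b, hy'.2.2 a b⟩) hn))
  refine ⟨μ, hμ, h3, h1, Measure.AbsolutelyContinuous.mk fun N hN h0 => ?_, h2.ae_le ?_, h4⟩
  · rw [Measure.fst_apply hN]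
    refine h2 (nul _ (measurable_fst hN) (measure_mono_null ?_ h0))
    rintro y ⟨_, _, _, hy⟩
    exact hy
  · refine nul _ (measurableSet_setOfPred.2 (Measurable.forall fun i => (ev i).imp
      ((mr _).not.and (Measurable.forall fun j => (ev j).imp (md i j))))).compl ?_
    rw [measure_eq_zero_iff_ae_notMem]
    filter_upwards [hd.eqv, bx_ee_iff hB.rsg] with y hy hy'
    rintro ⟨a, t, -, h6⟩
    rw [bfin_shift hy] at h6
    refine h6 fun i hi => ⟨fun h7 => hG.mark _ _ (bfin_true.1 hi).1 ((hy' _ _ _).2 ?_),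
      fun j hj => bfin_zero hd (bfin_true.1 hi).2 (bfin_true.1 hj).2⟩
    rwa [zero_add]

end Pool.Agent.Lib.MP_1db5af_an.Th
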