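import Pool.Agent.Lib.MP_1db5af_an.Th.BAux
import Pool.Agent.Lib.MP_1db5af_an.Th.Wk

set_option autoImplicit false

namespace Pool.Agent.Lib.MP_1db5af_an.Th

open MeasureTheory ProbabilityTheory Filter Topology ComplexConjugate
open scoped ENNReal NNReal InnerProductSpace

theorem bgap_sep {I : Type} {e : I → I → ℝ} {P : I → Prop} {D : ℕ} (h0 : ∀ i j, 0 ≤ e i j)
    (hs : ∀ i, e i i = 0) (hy : ∀ i j, e i j = e j i) (ht : ∀ i j k, e i k ≤ e i j + e j k)
    (hf : ∀ s : Finset I, (∀ i ∈ s, P i) → (∀ i ∈ s, ∀ j ∈ s, i ≠ j → e i j ≠ 0) → s.card ≤ D) :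
    ∃ m : ℕ, ∀ i j, P i → P j → 0 < e i j → 1 / ((m : ℝ) + 1) ≤ e i j := by
  classical
  obtain ⟨s, hs2⟩ : ∃ s : Finset I, ∀ i, P i → ∃ r ∈ s, e i r = 0 := by
    by_contra hc
    push Not at hc
    have h1 : ∀ n : ℕ, ∃ s : Finset I, (∀ i ∈ s, P i) ∧
        (∀ i ∈ s, ∀ j ∈ s, i ≠ j → e i j ≠ 0) ∧ s.card = n := by
      intro n
      induction n with
      | zero => exact ⟨∅, by simp, by simp, rfl⟩
      | succ n ih =>
        obtain ⟨s, a1, a2, a3⟩ := ih
        obtain ⟨i, b1, b2⟩ := hc s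
        have hi : i ∉ s := fun hi => b2 i hi (hs i)
        refine ⟨insert i s, ?_, ?_, by rw [Finset.card_insert_of_notMem hi, a3]⟩
        · intro j hj
          rcases Finset.mem_insert.1 hj with rfl | hj
          exacts [b1, a1 j hj]
        · intro j hj k hk hjk
          rcases Finset.mem_insert.1 hj with rfl | hj' <;>
            rcases Finset.mem_insert.1 hk with rfl | hk'
          · exact absurd rfl hjk
          · exact b2 k hk'
          · rw [hy]; exact b2 j hj'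
          · exact a2 j hj' k hk' hjk
    obtain ⟨s, a1, a2, a3⟩ := h1 (D + 1)
    have := hf s a1 a2
    omega
  have h2 : ∀ᶠ m : ℕ in atTop, ∀ r ∈ s, ∀ r' ∈ s, 0 < e r r' → 1 / ((m : ℝ) + 1) ≤ e r r' := by
    refine (eventually_all_finset _).2 fun r _ => (eventually_all_finset _).2 fun r' _ => ?_
    by_cases hr : 0 < e r r'
    · exact ((tendsto_one_div_add_atTop_nhds_zero_nat (𝕜 := ℝ)).eventually_lt_const hr).mono
        fun m hm _ => hm.le
    · exact Eventually.of_forall fun m hm => absurd hm hr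
  obtain ⟨m, hm⟩ := h2.exists
  refine ⟨m, fun i j hi hj hij => ?_⟩
  obtain ⟨r, hr, e1⟩ := hs2 i hi
  obtain ⟨r', hr', e2⟩ := hs2 j hj
  have e3 : e i j = e r r' := by
    have a1 := ht i r j
    have a2 := ht r r' j
    have a3 := ht r i r'
    have a4 := ht i j r'
    have a5 := hy r i
    have a6 := hy r' j
    linarith
  rw [e3] at hij ⊢
  exact hm r hr r' hr' hij

variable {ι : Type} [Fintype ι] {u : ι → ℕ → ℤ} {Z : CS} {R : Z.X → AddSubgroup (AA ι)}
  {d : Z.X → ι × ℤ → ι × ℤ → ℝ} {G : ι → Set Z.X} {D : ℕ}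

theorem b_gap (hB : Base u Z R) (hd : PDist u Z R d) (hG : GoodP Z R d G D)
    (h : ¬ Nul fun n => Z.μ.real {ω | SumIn u n (R ω) ∧ ∀ a, Z.T (u a n) ω ∈ G a}) :
    ¬ Nul fun n => Z.μ.real {ω | SumIn u n (R ω) ∧ (∀ a, Z.T (u a n) ω ∈ G a) ∧
      ∀ a b, d ω (a, u a n) (b, u b n) = 0} := by
  intro h0
  refine h (nul_of_forall (fun _ => measureReal_nonneg) fun ε hε => ?_)
  let X : ℕ → Set Z.X := fun m => {ω | ∃ i j : ι × ℤ, Z.T i.2 ω ∈ G i.1 ∧ Z.T j.2 ω ∈ G j.1 ∧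
    0 < d ω i j ∧ d ω i j < 1 / ((m : ℝ) + 1)}
  have hXm : ∀ m, MeasurableSet (X m) := fun m => by
    simp only [X, Set.setOf_exists]
    refine MeasurableSet.iUnion fun i => MeasurableSet.iUnion fun j => ?_
    exact (Z.sys.meas _ (hG.meas _)).inter ((Z.sys.meas _ (hG.meas _)).inter
      ((measurableSet_lt measurable_const (hd.meas i j)).inter
        (measurableSet_lt (hd.meas i j) measurable_const)))
  have hXa : Antitone X := fun m m' hm ω ⟨i, j, a1, a2, a3, a4⟩ =>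
    ⟨i, j, a1, a2, a3, a4.trans_le (Nat.one_div_le_one_div hm)⟩
  have hX0 : Z.μ (⋂ m, X m) = 0 := by
    rw [measure_eq_zero_iff_ae_notMem]
    filter_upwards [hG.fin] with ω hω
    obtain ⟨m, hm⟩ := bgap_sep (P := fun i : ι × ℤ => Z.T i.2 ω ∈ G i.1) (hd.nonneg ω) (hd.self ω)
      (hd.symm ω) (hd.tri ω) hω
    intro hx
    obtain ⟨i, j, a1, a2, a3, a4⟩ := Set.mem_iInter.1 hx m
    exact absurd (hm i j a1 a2 a3) (not_le.2 a4)
  have hT := tendsto_measure_iInter_atTop (μ := Z.μ) (fun m => (hXm m).nullMeasurableSet) hXa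
    ⟨0, measure_ne_top _ _⟩
  rw [hX0] at hT
  have hT' : Tendsto (fun m => Z.μ.real (X m)) atTop (𝓝 0) :=
    (ENNReal.tendsto_toReal ENNReal.zero_ne_top).comp hT
  obtain ⟨m, hm⟩ := (hT'.eventually_lt_const hε).exists
  refine ⟨_, nul_add h0 (nul_finsum Finset.univ fun (p : ι × ι) _ =>
    nul_mul ((m : ℝ) + 1) (hd.cl p.1 p.2)), fun n => ?_⟩
  have hsub : {ω | SumIn u n (R ω) ∧ ∀ a, Z.T (u a n) ω ∈ G a} ⊆
      ({ω | SumIn u n (R ω) ∧ (∀ a, Z.T (u a n) ω ∈ G a) ∧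
        ∀ a b, d ω (a, u a n) (b, u b n) = 0} ∪ ⋃ p : ι × ι,
          {ω | 1 / ((m : ℝ) + 1) ≤ d ω (p.1, u p.1 n) (p.2, u p.2 n)} ∩ {ω | SumIn u n (R ω)}) ∪
        X m := by
    intro ω ⟨a1, a2⟩
    by_cases a3 : ∀ a b, d ω (a, u a n) (b, u b n) = 0
    · exact Or.inl (Or.inl ⟨a1, a2, a3⟩)
    · push Not at a3
      obtain ⟨a, b, a3⟩ := a3
      by_cases a4 : 1 / ((m : ℝ) + 1) ≤ d ω (a, u a n) (b, u b n)
      · exact Or.inl (Or.inr (Set.mem_iUnion.2 ⟨(a, b), a4, a1⟩))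
      · exact Or.inr ⟨(a, u a n), (b, u b n), a2 a, a2 b,
          (hd.nonneg _ _ _).lt_of_ne a3.symm, not_le.1 a4⟩
  refine (measureReal_mono hsub).trans ((measureReal_union_le _ _).trans (add_le_add
    ((measureReal_union_le _ _).trans (add_le_add le_rfl ?_)) hm.le))
  refine (measureReal_iUnion_fintype_le _).trans (Finset.sum_le_sum fun p _ => ?_)
  have h1 := mul_meas_ge_le_integral_of_nonneg (μ := Z.μ.restrict {ω | SumIn u n (R ω)})
    (f := fun ω => d ω (p.1, u p.1 n) (p.2, u p.2 n))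
    (Eventually.of_forall fun ω => hd.nonneg ω _ _)
    (Integrable.of_bound (hd.meas _ _).aestronglyMeasurable 1 (Eventually.of_forall fun ω => by
      rw [Real.norm_of_nonneg (hd.nonneg ω _ _)]; exact hd.le_one ω _ _)) (1 / ((m : ℝ) + 1))
  rw [measureReal_restrict_apply (measurableSet_le measurable_const (hd.meas _ _)), one_div,
    inv_mul_le_iff₀ (by positivity)] at h1
  simpa only [one_div] using h1

end Pool.Agent.Lib.MP_1db5af_an.Th
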