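import Pool.Agent.Lib.MP_1db5af_an.Th.BAux
import Pool.Agent.Lib.MP_1db5af_an.Th.Wk

set_option autoImplicit false

namespace Pool.Agent.Lib.MP_1db5af_an.Th

open MeasureTheory ProbabilityTheory Filter Topology ComplexConjugate
open scoped ENNReal NNReal InnerProductSpace

variable {ι : Type} [Fintype ι] {u : ι → ℕ → ℤ} {Z : CS} {R : Z.X → AddSubgroup (AA ι)}
  {d : Z.X → ι × ℤ → ι × ℤ → ℝ}

/-- Weak limits of averages. -/
def bgood_WL {X : Type} [MeasurableSpace X] (μ : Measure X) (U : Filter ℕ) (φ : ℕ → X → ℝ)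
    (Φ : X → ℝ) : Prop :=
  (∀ l, Integrable (φ l) μ) ∧ Integrable Φ μ ∧ ∀ A, MeasurableSet A →
    Tendsto (av fun l => ∫ x in A, φ l x ∂μ) U (𝓝 (∫ x in A, Φ x ∂μ))

section WL

variable {X : Type} [MeasurableSpace X] {μ : Measure X} {U : Filter ℕ}

theorem bgood_int [IsFiniteMeasure μ] {f : X → ℝ} (hm : Measurable f)
    (h : ∀ x, 0 ≤ f x ∧ f x ≤ 1) : Integrable f μ :=
  Integrable.of_bound hm.aestronglyMeasurable 1 (ae_of_all _ fun x => by
    rw [Real.norm_of_nonneg (h x).1]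
    exact (h x).2)

theorem bgood_le [U.NeBot] {φ φ' : ℕ → X → ℝ} {Φ Φ' : X → ℝ} (h : bgood_WL μ U φ Φ)
    (h' : bgood_WL μ U φ' Φ') {A : Set X} (hA : MeasurableSet A)
    (e : ∀ l, ∀ x ∈ A, φ l x ≤ φ' l x) : ∀ᵐ x ∂μ, x ∈ A → Φ x ≤ Φ' x := by
  rw [← ae_restrict_iff' hA]
  refine ae_le_of_forall_setIntegral_le h.2.1.restrict h'.2.1.restrict fun s hs _ => ?_
  rw [Measure.restrict_restrict hs]
  exact le_of_tendsto_of_tendsto' (h.2.2 _ (hs.inter hA)) (h'.2.2 _ (hs.inter hA)) fun N =>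
    av_mono fun l _ => setIntegral_mono_on (h.1 l).integrableOn (h'.1 l).integrableOn
      (hs.inter hA) fun x hx => e l x hx.2

theorem bgood_const [IsFiniteMeasure μ] (hU : U ≤ atTop) (c : ℝ) :
    bgood_WL μ U (fun _ _ => c) fun _ => c :=
  ⟨fun _ => integrable_const c, integrable_const c, fun _ _ => (tendsto_av_const _).mono_left hU⟩

theorem bgood_sum {κ : Type} (s : Finset κ) {φ : κ → ℕ → X → ℝ} {Φ : κ → X → ℝ}
    (h : ∀ i ∈ s, bgood_WL μ U (φ i) (Φ i)) :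
    bgood_WL μ U (fun l x => ∑ i ∈ s, φ i l x) fun x => ∑ i ∈ s, Φ i x := by
  refine ⟨fun l => integrable_finsetSum s fun i hi => (h i hi).1 l,
    integrable_finsetSum s fun i hi => (h i hi).2.1, fun A hA => ?_⟩
  rw [integral_finsetSum s fun i hi => (h i hi).2.1.restrict]
  refine (tendsto_finsetSum s fun i hi => (h i hi).2.2 A hA).congr fun N => ?_
  rw [← av_sum]
  congr 1
  funext l
  rw [integral_finsetSum s fun i hi => ((h i hi).1 l).restrict]

end WL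

theorem bgood_set (k : ℤ) {E : Set Z.X} (hE : MeasurableSet E) {g : Z.X → ℝ} (hg : Measurable g) :
    ∫ ω in Z.T k ⁻¹' E, g (Z.T k ω) ∂Z.μ = ∫ ω in E, g ω ∂Z.μ := by
  rw [← setIntegral_map hE hg.aestronglyMeasurable (Z.sys.meas k).aemeasurable,
    (Z.sys.mp k).map_eq]

theorem bgood_meas (hd : PDist u Z R d) (i j : ι × ℤ) (m : ℕ) :
    Measurable fun ω => (1 - d ω i j) ^ m := ((hd.meas i j).const_sub 1).pow_const m

theorem bgood_rng (hd : PDist u Z R d) (ω : Z.X) (i j : ι × ℤ) (m : ℕ) :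
    0 ≤ (1 - d ω i j) ^ m ∧ (1 - d ω i j) ^ m ≤ 1 :=
  ⟨pow_nonneg (sub_nonneg.2 (hd.le_one ω i j)) m,
    pow_le_one₀ (sub_nonneg.2 (hd.le_one ω i j)) (sub_le_self 1 (hd.nonneg ω i j))⟩

theorem bgood_d (hd : PDist u Z R d) (a b : ι) (k l : ℤ) (m : ℕ) {E : Set Z.X}
    (hE : MeasurableSet E) : ∫ ω in Z.T k ⁻¹' E, (1 - d ω (a, k) (b, l)) ^ m ∂Z.μ =
      ∫ ω in E, (1 - d ω (a, 0) (b, l - k)) ^ m ∂Z.μ := by
  rw [← bgood_set k hE (bgood_meas hd _ _ m)]
  refine integral_congr_ae (ae_restrict_of_ae ?_)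
  filter_upwards [hd.eqv] with ω h
  simp only [h, shI, zero_add, sub_add_cancel]

theorem bgood_shift (hd : PDist u Z R d) {U : Filter ℕ} (hU : U ≤ atTop) {a b : ι} {m : ℕ}
    {Φ : Z.X → ℝ} (hm : Measurable Φ)
    (h : bgood_WL Z.μ U (fun l ω => (1 - d ω (a, 0) (b, l)) ^ m) Φ) (k : ℤ) :
    bgood_WL Z.μ U (fun l ω => (1 - d ω (a, k) (b, l)) ^ m) fun ω => Φ (Z.T k ω) := by
  refine ⟨fun l => bgood_int (bgood_meas hd _ _ m) fun ω => bgood_rng hd ω _ _ m,
    (Z.sys.mp k).integrable_comp_of_integrable h.2.1, fun A hA => ?_⟩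
  have hE : MeasurableSet (Z.T (-k) ⁻¹' A) := Z.sys.meas _ hA
  have e : A = Z.T k ⁻¹' (Z.T (-k) ⁻¹' A) := by
    ext ω
    simp only [Set.mem_preimage, ← Z.sys.add, neg_add_cancel, Z.sys.zero]
  have h1 := ulim_shift hU (C := 1 * (Z.μ.restrict (Z.T (-k) ⁻¹' A)).real Set.univ)
    (p := fun l => ∫ ω in Z.T (-k) ⁻¹' A, (1 - d ω (a, 0) (b, l)) ^ m ∂Z.μ)
    (fun l => norm_integral_le_of_norm_le_const (f := fun ω => (1 - d ω (a, 0) (b, l)) ^ m)
      (ae_of_all _ fun ω => (Real.norm_of_nonneg (bgood_rng hd ω _ _ m).1).trans_le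
        (bgood_rng hd ω _ _ m).2)) (-k) (h.2.2 _ hE)
  rw [e, bgood_set k hE hm]
  simp only [bgood_d hd a b k _ m hE]
  exact h1

theorem bgood_pt (hd : PDist u Z R d) (σ : ι → ι) (ω : Z.X) (s : Finset (ι × ℤ)) {η : ℝ}
    (h1 : η ≤ 1) (hs : ∀ i ∈ s, ∀ i' ∈ s, i ≠ i' → η ≤ d ω i i') (l : ℤ) (m : ℕ) :
    ∑ i ∈ s, (1 - d ω i (σ i.1, l)) ^ m ≤ Fintype.card ι + s.card * (1 - η / 2) ^ m := by
  have h2 : 0 ≤ (1 - η / 2) ^ m := pow_nonneg (by linarith) m
  have h3 : (s.filter fun i => d ω i (σ i.1, l) < η / 2).card ≤ Fintype.card ι := by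
    refine Finset.card_le_card_of_injOn (t := Finset.univ) (fun i => σ i.1)
      (fun _ _ => Finset.mem_univ _) fun i hi i' hi' e => by_contra fun hne => ?_
    obtain ⟨h4, h5⟩ := Finset.mem_filter.1 hi
    obtain ⟨h6, h7⟩ := Finset.mem_filter.1 hi'
    have h8 := hd.tri ω i (σ i.1, l) i'
    rw [← show σ i.1 = σ i'.1 from e, hd.symm] at h7
    linarith [hs i h4 i' h6 hne]
  calc _ ≤ ∑ i ∈ s, ((if d ω i (σ i.1, l) < η / 2 then (1 : ℝ) else 0) + (1 - η / 2) ^ m) := by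
        refine Finset.sum_le_sum fun i _ => ?_
        split_ifs with h
        · linarith [(bgood_rng hd ω i (σ i.1, l) m).2]
        · rw [zero_add]
          exact pow_le_pow_left₀ (sub_nonneg.2 (hd.le_one _ _ _)) (by linarith [not_lt.1 h]) m
    _ ≤ _ := by
        rw [Finset.sum_add_distrib, Finset.sum_boole, Finset.sum_const, nsmul_eq_mul]
        exact add_le_add (Nat.cast_le.2 h3) le_rfl

theorem bgood_one (j : ℕ) : 1 / ((j : ℝ) + 1) ≤ 1 :=
  (div_le_one (by positivity)).2 (le_add_of_nonneg_left j.cast_nonneg)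

theorem bgood_count (hd : PDist u Z R d) {U : Filter ℕ} [U.NeBot] (hU : U ≤ atTop) {σ : ι → ι}
    {Φ : ι → ℕ → Z.X → ℝ} (hm : ∀ a m, Measurable (Φ a m))
    (h : ∀ a m, bgood_WL Z.μ U (fun l ω => (1 - d ω (a, 0) (σ a, l)) ^ m) (Φ a m)) :
    ∀ᵐ ω ∂Z.μ, ∀ (s : Finset (ι × ℤ)) (j m : ℕ),
      (∀ i ∈ s, ∀ i' ∈ s, i ≠ i' → 1 / ((j : ℝ) + 1) ≤ d ω i i') →
      ∑ i ∈ s, Φ i.1 m (Z.T i.2 ω) ≤ Fintype.card ι + s.card * (1 - 1 / ((j : ℝ) + 1) / 2) ^ m := by
  refine ae_all_iff.2 fun s => ae_all_iff.2 fun j => ae_all_iff.2 fun m => ?_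
  refine bgood_le (bgood_sum s fun i _ => bgood_shift hd hU (hm i.1 m) (h i.1 m) i.2)
    (bgood_const hU _) (A := {ω | ∀ i ∈ s, ∀ i' ∈ s, i ≠ i' → 1 / ((j : ℝ) + 1) ≤ d ω i i'}) ?_
    fun l ω hω => bgood_pt hd σ ω s (bgood_one j) hω l m
  simp only [Set.ofPred_forall]
  exact MeasurableSet.iInter fun i => .iInter fun _ => .iInter fun i' => .iInter fun _ =>
    .iInter fun _ => measurableSet_le measurable_const (hd.meas i i')

theorem bgood_tail {Φ : ℕ → Z.X → ℝ} (hm : ∀ m, Measurable (Φ m)) {c : ℝ} (hc : 0 < c) :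
    ∃ M, Z.μ.real ({ω | ∃ m, Φ m ω < c} \ {ω | ∃ m ≤ M, Φ m ω < c}) ≤ c := by
  have h1 := tendsto_measure_iInter_atTop (μ := Z.μ)
    (s := fun M => {ω | ∃ m, Φ m ω < c} \ {ω | ∃ m ≤ M, Φ m ω < c})
    (fun M => MeasurableSet.nullMeasurableSet (by measurability))
    (fun M M' e ω h => ⟨h.1, fun ⟨m, h1, h2⟩ => h.2 ⟨m, h1.trans e, h2⟩⟩) ⟨0, measure_ne_top _ _⟩
  have h2 : ⋂ M, {ω | ∃ m, Φ m ω < c} \ {ω | ∃ m ≤ M, Φ m ω < c} = ∅ :=
    Set.eq_empty_of_forall_notMem fun ω h => by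
      obtain ⟨m, h1⟩ := (Set.mem_iInter.1 h 0).1
      exact (Set.mem_iInter.1 h m).2 ⟨m, le_rfl, h1⟩
  rw [h2, measure_empty] at h1
  exact (((ENNReal.tendsto_toReal ENNReal.zero_ne_top).comp h1).eventually
    (ge_mem_nhds hc)).exists

theorem bgood_bad (hB : Base u Z R) (hd : PDist u Z R d) {U : Filter ℕ} [U.NeBot] (hU : U ≤ atTop)
    {a b : ι} (hab : b ≠ a) {Φ : ℕ → Z.X → ℝ} (hm : ∀ m, Measurable (Φ m))
    (h : ∀ m, bgood_WL Z.μ U (fun l ω => (1 - d ω (a, 0) (b, l)) ^ m) (Φ m)) {c : ℝ}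
    (hc : 0 < c) : ∃ (q : ℕ → ℝ) (L : ℝ), L ≤ c + c ∧ Tendsto (av q) atTop (𝓝 L) ∧
      ∀ n, Z.μ.real {ω | SumIn u n (R ω) ∧ ∃ m, Φ m (Z.T (u a n) ω) < c} ≤ q n := by
  obtain ⟨M, hM⟩ := bgood_tail hm hc
  have hE : MeasurableSet {ω | ∃ m ≤ M, Φ m ω < c} := by measurability
  have hF : MeasurableSet {ω | ∃ m, Φ m ω < c} := by measurability
  have han : ∀ᵐ ω ∂Z.μ, ∀ m ≤ M, Φ M ω ≤ Φ m ω := ae_all_iff.2 fun m => by
    by_cases e : m ≤ M
    · filter_upwards [bgood_le (h M) (h m) MeasurableSet.univ fun l ω _ =>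
        pow_le_pow_of_le_one (sub_nonneg.2 (hd.le_one _ _ _))
          (sub_le_self 1 (hd.nonneg _ _ _)) e] with ω h _ using h trivial
    · exact ae_of_all _ fun _ h => absurd h e
  generalize hEE : {ω | ∃ m ≤ M, Φ m ω < c} = E at hM hE
  obtain ⟨L, h1, h2⟩ := hd.wk a b hab.symm M E hE
  have h3 : L ≤ c := by
    rw [tendsto_nhds_unique (h2.mono_left hU) ((h M).2.2 E hE)]
    calc _ ≤ ∫ _ in E, c ∂Z.μ := by
          refine setIntegral_mono_on_ae (h M).2.1.integrableOn (integrable_const c).integrableOn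
            hE ?_
          filter_upwards [han] with ω h hω
          rw [← hEE] at hω
          obtain ⟨m, h4, h5⟩ := hω
          exact (h m h4).trans h5.le
      _ ≤ c := by
          rw [setIntegral_const, smul_eq_mul]
          exact mul_le_of_le_one_left hc.le measureReal_le_one
  refine ⟨fun n => ∫ ω in E, (1 - d ω (a, 0) (b, u b n - u a n)) ^ M ∂Z.μ +
    M * ∫ ω in {ω | SumIn u n (R ω)}, d ω (a, u a n) (b, u b n) ∂Z.μ + c, L + 0 + c,
    by linarith, ?_, fun n => ?_⟩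
  · refine ((h1.add (nul_mul M (hd.cl a b))).add (tendsto_av_const c)).congr fun N => ?_
    rw [av_add, av_add]
  have hS : MeasurableSet {ω | SumIn u n (R ω)} := hB.rsg.meas _
  have hA := hS.inter (Z.sys.meas (u a n) hE)
  have i1 : Integrable (fun ω => (1 - d ω (a, u a n) (b, u b n)) ^ M) Z.μ :=
    bgood_int (bgood_meas hd _ _ M) fun ω => bgood_rng hd ω _ _ M
  have i2 : Integrable (fun ω => d ω (a, u a n) (b, u b n)) Z.μ :=
    bgood_int (hd.meas _ _) fun ω => ⟨hd.nonneg ω _ _, hd.le_one ω _ _⟩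
  refine (measureReal_mono (s₂ := ({ω | SumIn u n (R ω)} ∩ Z.T (u a n) ⁻¹' E) ∪
    Z.T (u a n) ⁻¹' ({ω | ∃ m, Φ m ω < c} \ E)) fun ω hω => ?_).trans
    ((measureReal_union_le _ _).trans (add_le_add ?_ ?_))
  · by_cases e : Z.T (u a n) ω ∈ E
    · exact Or.inl ⟨hω.1, e⟩
    · exact Or.inr ⟨hω.2, e⟩
  · rw [← bgood_d hd a b _ _ M hE]
    calc _ = ∫ _ in {ω | SumIn u n (R ω)} ∩ Z.T (u a n) ⁻¹' E, (1 : ℝ) ∂Z.μ := by
          rw [setIntegral_const, smul_eq_mul, mul_one]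
      _ ≤ ∫ ω in {ω | SumIn u n (R ω)} ∩ Z.T (u a n) ⁻¹' E,
          ((1 - d ω (a, u a n) (b, u b n)) ^ M + M * d ω (a, u a n) (b, u b n)) ∂Z.μ := by
          refine setIntegral_mono_on (integrable_const _).integrableOn
            (i1.add (i2.const_mul _)).integrableOn hA fun ω _ => ?_
          have := one_add_mul_le_pow (a := -d ω (a, u a n) (b, u b n))
            (by linarith [hd.le_one ω (a, u a n) (b, u b n)]) M
          rw [← sub_eq_add_neg 1] at this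
          linarith
      _ ≤ _ := by
          rw [integral_add i1.restrict (i2.const_mul _).restrict, integral_const_mul]
          exact add_le_add (setIntegral_mono_set i1.integrableOn
            (ae_of_all _ fun ω => (bgood_rng hd ω _ _ M).1) Set.inter_subset_right.eventuallyLE)
            (mul_le_mul_of_nonneg_left (setIntegral_mono_set i2.integrableOn
              (ae_of_all _ fun ω => hd.nonneg ω _ _) Set.inter_subset_left.eventuallyLE)
              (Nat.cast_nonneg M))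
  · rwa [(Z.sys.mp _).measureReal_preimage (hF.diff hE).nullMeasurableSet]

theorem b_good (h2 : ∀ a : ι, ∃ b, b ≠ a) (hB : Base u Z R) (hd : PDist u Z R d) :
    ∃ G D, GoodP Z R d G D ∧
      ¬ Nul fun n => Z.μ.real {ω | SumIn u n (R ω) ∧ ∀ a, Z.T (u a n) ω ∈ G a} := by
  choose σ hσ using h2
  obtain ⟨U, δ, hU, hδ, hV⟩ := exists_ultra (C := 1) (fun _ => measureReal_nonneg)
    (fun _ => measureReal_le_one) hB.fail
  have hw := fun (a : ι) (m : ℕ) => wlim (μ := Z.μ) (C := 1) U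
    (φ := fun l ω => (1 - d ω (a, 0) (σ a, l)) ^ m) (fun l => bgood_meas hd _ _ m)
    fun l ω => bgood_rng hd ω _ _ m
  choose Φ hm hr hl using hw
  have hW : ∀ a m, bgood_WL Z.μ U (fun l ω => (1 - d ω (a, 0) (σ a, l)) ^ m) (Φ a m) :=
    fun a m => ⟨fun l => bgood_int (bgood_meas hd _ _ m) fun ω => bgood_rng hd ω _ _ m,
      bgood_int (hm a m) (hr a m), hl a m⟩
  have hK : (0 : ℝ) ≤ Fintype.card ι := Nat.cast_nonneg _
  obtain ⟨c, hc, hcδ⟩ : ∃ c : ℝ, 0 < c ∧ Fintype.card ι * (c + c) < δ := by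
    refine ⟨δ / (2 * Fintype.card ι + 1), by positivity, ?_⟩
    rw [← add_div, ← mul_div_assoc, div_lt_iff₀ (by positivity)]
    linarith
  refine ⟨fun a => {ω | ee a 0 ∉ R ω ∧ ∀ m, c ≤ Φ a m ω}, ⌊Fintype.card ι / c⌋₊,
    ⟨fun a => ?_, fun a ω h => h.1, ?_⟩, fun hN => ?_⟩
  · refine (hB.rsg.meas _).compl.inter ?_
    change MeasurableSet {ω | ∀ m, c ≤ Φ a m ω}
    rw [Set.ofPred_forall]
    exact MeasurableSet.iInter fun m => measurableSet_le measurable_const (hm a m)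
  · filter_upwards [bgood_count hd hU hm hW] with ω h s hs hne
    have h1 : ∀ᶠ j : ℕ in atTop, ∀ i ∈ s, ∀ i' ∈ s, i ≠ i' → 1 / ((j : ℝ) + 1) ≤ d ω i i' := by
      refine (eventually_all_finset s).2 fun i hi => (eventually_all_finset s).2 fun i' hi' => ?_
      by_cases e : i = i'
      · exact Eventually.of_forall fun _ h => absurd e h
      · exact (tendsto_one_div_add_atTop_nhds_zero_nat.eventually (ge_mem_nhds
          ((hd.nonneg ω i i').lt_of_ne' (hne i hi i' hi' e)))).mono fun _ h _ => h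
    obtain ⟨j, hj⟩ := h1.exists
    have h2 : (0 : ℝ) < 1 / ((j : ℝ) + 1) := Nat.one_div_pos_of_nat
    have h3 : 1 / ((j : ℝ) + 1) ≤ 1 := (bgood_one j)
    have h4 := ((tendsto_pow_atTop_nhds_zero_of_lt_one (r := 1 - 1 / ((j : ℝ) + 1) / 2)
      (by linarith) (by linarith)).const_mul (s.card : ℝ)).const_add (Fintype.card ι : ℝ)
    rw [mul_zero, add_zero] at h4
    refine Nat.le_floor ((le_div_iff₀ hc).2 (ge_of_tendsto' h4 fun m => ?_))
    refine le_trans ?_ (h s j m hj)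
    rw [← nsmul_eq_mul]
    exact Finset.card_nsmul_le_sum s _ c fun i hi => (hs i hi).2 m
  · choose q L hL hq hb using fun a => bgood_bad hB hd hU (hσ a) (hm a) (hW a) hc
    have h1 := (hN.add (tendsto_finsetSum Finset.univ fun a _ => hq a)).mono_left hU
    have h2 : δ ≤ 0 + ∑ a, L a := by
      refine le_of_tendsto_of_tendsto' hV h1 fun N => ?_
      rw [← av_sum, ← av_add]
      refine av_mono fun n _ => ?_
      refine le_trans ?_ ((measureReal_union_le _ _).trans (add_le_add le_rfl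
        ((measureReal_iUnion_fintype_le _).trans (Finset.sum_le_sum fun a _ => hb a n))))
      refine ENNReal.toReal_mono (measure_ne_top _ _) (measure_mono_ae ?_)
      filter_upwards [bx_ee_iff hB.rsg] with ω h hω
      by_cases e : ∀ a m, c ≤ Φ a m (Z.T (u a n) ω)
      · refine Or.inl ⟨hω.1, fun a => ⟨fun h' => hω.2 a ?_, e a⟩⟩
        simpa only [zero_add] using (h (u a n) a 0).1 h'
      · push Not at e
        obtain ⟨a, m, e⟩ := e
        exact Or.inr (Set.mem_iUnion.2 ⟨a, hω.1, m, e⟩)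
    have h3 : ∑ a, L a ≤ Fintype.card ι * (c + c) := by
      rw [← nsmul_eq_mul]
      exact Finset.sum_le_card_nsmul _ _ _ fun a _ => hL a
    linarith

end Pool.Agent.Lib.MP_1db5af_an.Th
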