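import Pool.Agent.Lib.MP_1db5af_an.Th.BAux
import Pool.Agent.Lib.MP_1db5af_an.Th.Rel

set_option autoImplicit false

namespace Pool.Agent.Lib.MP_1db5af_an.Th

open MeasureTheory ProbabilityTheory Filter Topology ComplexConjugate
open scoped ENNReal NNReal InnerProductSpace

variable {ι : Type} [Fintype ι] {u : ι → ℕ → ℤ} {Z : CS} {R : Z.X → AddSubgroup (AA ι)}
  {d : Z.X → ι × ℤ → ι × ℤ → ℝ}

/-- The projection onto a set of indices. -/
noncomputable def bsimp_fl (s : ι × ℤ → Bool) : AA ι →+ AA ι :=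
  Finsupp.filterAddHom fun i => s i = true

omit [Fintype ι] in
theorem bsimp_mem {K : AddSubgroup (AA ι)} {s : ι × ℤ → Bool} {x : AA ι} :
    x ∈ rst K s ↔ bsimp_fl s x ∈ K := Iff.rfl

omit [Fintype ι] in
theorem bsimp_pos {s : ι × ℤ → Bool} {i : ι × ℤ} (h : s i = true) (c : ℤ) :
    bsimp_fl s (Finsupp.single i c) = Finsupp.single i c :=
  Finsupp.filter_single_of_pos (p := fun i => s i = true) h

omit [Fintype ι] in
theorem bsimp_neg {s : ι × ℤ → Bool} {i : ι × ℤ} (h : ¬s i = true) (c : ℤ) :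
    bsimp_fl s (Finsupp.single i c) = 0 :=
  Finsupp.filter_single_of_neg (p := fun i => s i = true) h

omit [Fintype ι] in
theorem bsimp_tau (k : ℤ) (s : ι × ℤ → Bool) (x : AA ι) :
    bsimp_fl s (tau ι ℤ k x) = tau ι ℤ k (bsimp_fl (shP k s) x) := by
  induction x using Finsupp.induction_linear with
  | zero => simp only [map_zero]
  | add x y hx hy => simp only [map_add, hx, hy]
  | single i c =>
    rw [tau_single]
    by_cases h : s (shI k i) = true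
    · rw [bsimp_pos h, bsimp_pos (s := shP k s) h, tau_single]
    · rw [bsimp_neg h, bsimp_neg (s := shP k s) h, map_zero]

theorem bsimp_rsg {Y : MS} {s : Y.X → ι × ℤ → Bool} (hs : Measurable s)
    (he : ∀ k, ∀ᵐ y ∂Y.ν, s (Y.T k y) = shP k (s y)) :
    Rsg Y (tt ι) fun y => (bsimp_fl (s y)).graph := by
  refine ⟨fun z => ?_, ?_⟩
  · have e : {y | z ∈ (bsimp_fl (s y)).graph} =
        ⋂ i, (fun y => s y i) ⁻¹' {b | (if b = true then z.1 i else 0) = z.2 i} := by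
      ext y
      simp only [AddMonoidHom.mem_graph, Set.mem_ofPred_eq, Set.mem_iInter, Set.mem_preimage,
        Finsupp.ext_iff]
      rfl
    rw [e]
    exact MeasurableSet.iInter fun i =>
      (measurable_pi_apply i).comp hs MeasurableSet.of_discrete
  · filter_upwards [ae_all_iff.2 he] with y hy k z
    rw [hy, AddMonoidHom.mem_graph, AddMonoidHom.mem_graph]
    change _ ↔ bsimp_fl (s y) (tau ι ℤ k z.1) = tau ι ℤ k z.2
    rw [bsimp_tau]
    refine ⟨congrArg _, fun h => ?_⟩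
    have h1 := congrArg (tau ι ℤ (-k)) h
    rwa [← act_tau.add, ← act_tau.add, neg_add_cancel, act_tau.zero, act_tau.zero] at h1

omit [Fintype ι] in
theorem bsimp_gpre {A A' : Type} [AddCommGroup A] [AddCommGroup A'] {g : AddSubgroup (A × A')}
    {D : AddSubgroup A'} {x : A} : x ∈ gpre g D ↔ ∃ y, (x, y) ∈ g ∧ y ∈ D :=
  ⟨fun ⟨p, h, e⟩ => ⟨p.2, e ▸ h.1, h.2⟩, fun ⟨y, h, h'⟩ => ⟨(x, y), ⟨h, h'⟩, rfl⟩⟩

theorem bsimp_rst {Y : MS} {s : Y.X → ι × ℤ → Bool} (hs : Measurable s)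
    (he : ∀ k, ∀ᵐ y ∂Y.ν, s (Y.T k y) = shP k (s y)) {K : Y.X → AddSubgroup (AA ι)}
    (hK : Rsg Y (tau ι ℤ) K) (hc : Clo Y (tau ι ℤ) K) :
    Rsg Y (tau ι ℤ) (fun y => rst (K y) (s y)) ∧ Clo Y (tau ι ℤ) fun y => rst (K y) (s y) := by
  have hg := bsimp_rsg hs he
  have e : (fun y => rst (K y) (s y)) = fun y => gpre (bsimp_fl (s y)).graph (K y) := by
    funext y
    ext x
    rw [bsimp_gpre, bsimp_mem]
    exact ⟨fun h => ⟨bsimp_fl (s y) x, rfl, h⟩, fun ⟨_, h, h'⟩ => (h : bsimp_fl (s y) x = _) ▸ h'⟩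
  have h1 : Rsg Y (tau ι ℤ) fun y => rst (K y) (s y) := e ▸ hg.gpre act_tau act_tau hK
  exact ⟨h1, rwrel act_tau act_tau hg.gflip hK hc h1 rsg_top
    (Eventually.of_forall fun _ => le_top)
    (Eventually.of_forall fun y x _ => ⟨bsimp_fl (s y) x, rfl⟩)
    (Eventually.of_forall fun y x z h => by
      rw [bsimp_mem, show bsimp_fl (s y) z = x from h])⟩

/-- A closed subgroup above the restriction is seen by a closed subgroup above `R`. -/
theorem bsimp_lift {Y : MS} {s : Y.X → ι × ℤ → Bool} (hs : Measurable s)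
    (he : ∀ k, ∀ᵐ y ∂Y.ν, s (Y.T k y) = shP k (s y)) {Q K : Y.X → AddSubgroup (AA ι)}
    (hQ : Rsg Y (tau ι ℤ) Q) (hK : Rsg Y (tau ι ℤ) K) (hc : Clo Y (tau ι ℤ) K)
    (hle : ∀ᵐ y ∂Y.ν, rst (Q y) (s y) ≤ K y) :
    ∃ C, Rsg Y (tau ι ℤ) C ∧ Clo Y (tau ι ℤ) C ∧ (∀ᵐ y ∂Y.ν, Q y ≤ C y) ∧
      ∀ᵐ y ∂Y.ν, ∀ i, s y i = true → (em i ∈ C y ↔ em i ∈ K y) := by
  let δ : AA ι × AA ι →+ AA ι × AA ι := (AddMonoidHom.snd _ _).prod (AddMonoidHom.snd _ _)
  let g : Y.X → AddSubgroup (AA ι × AA ι) := fun y =>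
    gid (Q y) ⊓ (bsimp_fl (s y)).graph.comap δ
  have mg : ∀ y x z, (x, z) ∈ g y ↔ x - z ∈ Q y ∧ bsimp_fl (s y) z = z := fun _ _ _ => Iff.rfl
  have hg : Rsg Y (tt ι) g := hQ.gid.inf (Rsg.comap (φ := δ) (τ := tt ι) (τ' := tt ι)
    (fun _ _ => rfl) (bsimp_rsg hs he))
  have hK1 := hg.gpre act_tau act_tau hK
  have hB := hg.gpre act_tau act_tau (rsg_top (τ := tau ι ℤ))
  have key : ∀ᵐ y ∂Y.ν, ∀ z x, (x, z) ∈ g y → (z ∈ K y ↔ x ∈ gpre (g y) (K y)) := by
    filter_upwards [hle] with y hy z x hz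
    refine ⟨fun h => bsimp_gpre.2 ⟨z, hz, h⟩, fun h => ?_⟩
    obtain ⟨z', h1, h2⟩ := bsimp_gpre.1 h
    rw [mg] at hz h1
    have h3 : z - z' ∈ K y := hy (by
      rw [bsimp_mem, map_sub, hz.2, h1.2]
      simpa using (Q y).sub_mem h1.1 hz.1)
    simpa using (K y).add_mem h3 h2
  obtain ⟨C, c1, c2, c3⟩ := ext_clo act_tau hK1 hB (rwrel act_tau act_tau hg.gflip hK hc hK1 hB
    (Eventually.of_forall fun y x hx => (bsimp_gpre.1 hx).elim fun z hz =>
      bsimp_gpre.2 ⟨z, hz.1, trivial⟩)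
    (Eventually.of_forall fun y x hx => (bsimp_gpre.1 hx).imp fun _ hz => hz.1) key)
  refine ⟨C, c1, c2, ?_, ?_⟩
  · filter_upwards [c3] with y hy x hx
    exact hy.1 (bsimp_gpre.2 ⟨0, (mg _ _ _).2 ⟨by rwa [sub_zero], map_zero _⟩, (K y).zero_mem⟩)
  · filter_upwards [c3, key] with y h1 h2 i hi
    have h3 : (em i, em i) ∈ g y :=
      (mg _ _ _).2 ⟨by rw [sub_self]; exact (Q y).zero_mem, bsimp_pos hi 1⟩
    rw [h2 _ _ h3]
    exact ⟨fun h => h1.2 ⟨bsimp_gpre.2 ⟨_, h3, trivial⟩, h⟩, fun h => h1.1 h⟩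

theorem b_simp (hB : Base u Z R) (hd : PDist u Z R d) {m : Measure (Z.X × (ι × ℤ → Bool))}
    [IsProbabilityMeasure m] (he : Ergodic (prodT Z.T shP 1) m) (hm : Cls u Z R d m) :
    ∃ (Z' : CS) (R' : Z'.X → AddSubgroup (AA ι)), Base u Z' R' ∧ GSimple Z'.toMS R' := by
  let Z' : CS := { X := Z.X × (ι × ℤ → Bool), μ := m, T := prodT Z.T shP, sys := hm.sys }
  have hf : Ext Z'.toMS Z.toMS fun p => p.1 :=
    ⟨⟨measurable_fst, hm.ac⟩, fun _ => Eventually.of_forall fun _ => rfl⟩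
  obtain ⟨r1, r2⟩ := bsimp_rst (Y := Z'.toMS) (s := fun p => p.2) measurable_snd
    (fun _ => Eventually.of_forall fun _ => rfl) (hB.rsg.ext hf)
    (RW.ext hB.clo hB.rsg rsg_top hf)
  refine ⟨Z', fun p => rst (R p.1) p.2, ⟨he, r1, r2, fun h => hm.fail ?_⟩, ?_⟩
  · refine nul_mono (fun _ => measureReal_nonneg) (fun n => ?_) h
    refine ENNReal.toReal_mono (measure_ne_top m _) (measure_mono_ae ?_)
    filter_upwards [hm.cls] with p hp h1
    have h2 : ∀ a, bsimp_fl p.2 (ee a (u a n)) = ee a (u a n) := fun a => bsimp_pos (h1.2 a) 1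
    refine ⟨bsimp_mem.2 ?_, fun a h3 => (hp _ (h1.2 a)).1 ?_⟩
    · simp only [map_sum, h2]
      exact h1.1
    · rwa [bsimp_mem, h2] at h3
  · intro Y π hπ K hK hc hle
    have hπ' := bx_comp hπ hf
    obtain ⟨C, c1, c2, c3, c4⟩ := bsimp_lift (s := fun y => (π y).2)
      (measurable_snd.comp hπ.qmp.measurable)
      (fun k => (hπ.comm k).mono fun _ h => congrArg Prod.snd h) (hB.rsg.ext hπ') hK hc hle
    filter_upwards [hd.max Y _ hπ' C c1 c2 c3, c4, hle, hπ.qmp.ae hm.cls] with y h1 h2 h3 h4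
    have h5 : ∀ i, ¬(π y).2 i = true → em i ∈ rst (R (π y).1) (π y).2 := fun i hi =>
      bsimp_mem.2 ((bsimp_neg hi 1).symm ▸ zero_mem _)
    refine or_iff_not_imp_right.2 fun h => eq_top_iff.2 fun x _ => ?_
    simp only [not_forall] at h
    obtain ⟨a, k, h6, h7⟩ := h
    have h8 : (π y).2 (a, k) = true := by_contra fun hi => h7 (h5 _ hi)
    have h9 : ∀ j, em j ∈ K y := fun j => by
      by_cases hj : (π y).2 j = true
      · exact (h2 j hj).1 ((h1 _ j ((h4 _ h8).2 j hj)).1 ((h2 _ h8).2 h6))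
      · exact h3 (h5 j hj)
    induction x using Finsupp.induction_linear with
    | zero => exact zero_mem _
    | add x z hx hz => exact add_mem (hx trivial) (hz trivial)
    | single i c => simpa [em, ee] using (K y).zsmul_mem (h9 i) c

end Pool.Agent.Lib.MP_1db5af_an.Th
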