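import Pool.Agent.Lib.MP_1db5af_an.Th.CDefs

set_option autoImplicit false

namespace Pool.Agent.Lib.MP_1db5af_an.Th

open MeasureTheory ProbabilityTheory Filter Topology ComplexConjugate
open scoped ENNReal NNReal InnerProductSpace commutatorElement

theorem grp_comm {Λ : Type} [Group Λ] {S : Set Λ} (hS : ∀ s ∈ S, s⁻¹ ∈ S) {K : Subgroup Λ}
    (h1 : ∀ s ∈ S, ∀ k ∈ K, s * k * s⁻¹ ∈ K) (h2 : ∀ s ∈ S, ∀ t ∈ S, ⁅s, t⁆ ∈ K) :
    ∀ g ∈ Subgroup.closure S, ∀ g' ∈ Subgroup.closure S, ⁅g, g'⁆ ∈ K := by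
  have ind : ∀ p : Λ → Prop, (∀ s ∈ S, p s) → p 1 →
      (∀ a b, a ∈ Subgroup.closure S → p a → p b → p (a * b)) → ∀ g ∈ Subgroup.closure S, p g :=
    fun p e1 e2 e3 g hg => Subgroup.closure_induction'' (p := fun g _ => p g) e1
      (fun s hs => e1 _ (hS s hs)) e2 (fun a b ha _ => e3 a b ha) hg
  have p1 := ind (fun g => ∀ k ∈ K, g * k * g⁻¹ ∈ K) h1 (fun k hk => by simpa using hk)
    fun a b _ ha hb k hk => by
      have := ha _ (hb k hk)
      simpa only [mul_inv_rev, mul_assoc] using this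
  have p2 : ∀ t ∈ S, ∀ g ∈ Subgroup.closure S, ⁅g, t⁆ ∈ K := fun t ht =>
    ind (fun g => ⁅g, t⁆ ∈ K) (fun s hs => h2 s hs t ht) (by simp) fun a b ha e1 e2 => by
      have e : ⁅a * b, t⁆ = a * ⁅b, t⁆ * a⁻¹ * ⁅a, t⁆ := by
        simp only [commutatorElement_def]; group
      rw [e]
      exact K.mul_mem (p1 a ha _ e2) e1
  intro g hg
  exact ind (fun g' => ⁅g, g'⁆ ∈ K) (fun t ht => p2 t ht g hg) (by simp) fun a b ha e1 e2 => by
    have e : ⁅g, a * b⁆ = ⁅g, a⁆ * (a * ⁅g, b⁆ * a⁻¹) := by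
      simp only [commutatorElement_def]; group
    rw [e]
    exact K.mul_mem e1 (p1 a ha _ e2)

theorem grp_quasi {φ : ℤ → ℝ} {E : ℝ} (h : ∀ d d', |φ (d + d') - φ d - φ d'| ≤ E) :
    ∃ θ : ℝ, ∀ d : ℤ, |φ d - θ * d| ≤ E := by
  have hE : 0 ≤ E := (abs_nonneg _).trans (h 0 0)
  have h0 : |φ 0| ≤ E := by simpa using h 0 0
  have h1 : ∀ (n : ℕ) (d : ℤ), |φ ((n + 1) * d) - (n + 1) * φ d| ≤ n * E := fun n d => by
    induction n with
    | zero => simp
    | succ n ih =>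
      have e1 := abs_le.1 (h ((n + 1) * d) d)
      have e2 := abs_le.1 ih
      have e3 : (((n + 1 : ℕ) : ℤ) + 1) * d = (n + 1) * d + d := by push_cast; ring
      rw [e3]
      push_cast
      exact abs_le.2 ⟨by linarith, by linarith⟩
  have h2 : ∀ m d : ℤ, |φ (m * d) - m * φ d| ≤ (|(m : ℝ)| + 1) * E := fun m d => by
    rcases lt_trichotomy m 0 with hm | rfl | hm
    · obtain ⟨n, rfl⟩ : ∃ n : ℕ, m = -(n + 1) := ⟨(-m - 1).toNat, by omega⟩
      have e1 := abs_le.1 (h ((n + 1) * d) (-(n + 1) * d))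
      have e2 := abs_le.1 (h1 n d)
      have e3 := abs_le.1 h0
      rw [show ((n : ℤ) + 1) * d + -(n + 1) * d = 0 by ring] at e1
      push_cast
      rw [abs_neg, abs_of_pos (by positivity : (0 : ℝ) < n + 1)]
      exact abs_le.2 ⟨by linarith, by linarith⟩
    · simpa using h0
    · obtain ⟨n, rfl⟩ : ∃ n : ℕ, m = n + 1 := ⟨(m - 1).toNat, by omega⟩
      push_cast
      rw [abs_of_pos (by positivity : (0 : ℝ) < n + 1)]
      refine (h1 n d).trans ?_
      nlinarith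
  have h3 : ∀ (n : ℕ) (d : ℤ), |φ d - φ (n + 1) / (n + 1) * d| ≤
      E + (|(d : ℝ)| + 1) * E * (1 / ((n : ℝ) + 1)) := fun n d => by
    have hn : (0 : ℝ) < n + 1 := by positivity
    have e1 := abs_le.1 (h1 n d)
    have e2 := abs_le.1 (h2 d (n + 1))
    rw [mul_comm d] at e2
    have e3 : φ d - φ (n + 1) / (n + 1) * d = ((n + 1) * φ d - d * φ (n + 1)) / (n + 1) := by
      field_simp
    rw [e3, abs_div, abs_of_pos hn, div_le_iff₀ hn, add_mul E, mul_assoc _ _ ((n : ℝ) + 1),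
      one_div_mul_cancel hn.ne']
    exact abs_le.2 ⟨by linarith, by linarith⟩
  obtain ⟨θ, _, ψ, hψ, hθ⟩ := (isCompact_Icc (a := φ 1 - 3 * E) (b := φ 1 + 3 * E)).tendsto_subseq
    (x := fun n : ℕ => φ (n + 1) / (n + 1)) fun n => by
      have e1 := abs_le.1 (h3 n 1)
      have e2 : 1 / ((n : ℝ) + 1) ≤ 1 := by
        rw [div_le_one (by positivity)]
        linarith [(Nat.cast_nonneg n : (0 : ℝ) ≤ n)]
      have e3 := mul_le_mul_of_nonneg_left e2 hE
      simp only [Int.cast_one, abs_one, mul_one] at e1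
      exact ⟨by linarith, by linarith⟩
  refine ⟨θ, fun d => ?_⟩
  have e1 := ((tendsto_const_nhds (x := φ d)).sub (hθ.mul_const (d : ℝ))).abs
  have e2 := ((tendsto_one_div_add_atTop_nhds_zero_nat.comp hψ.tendsto_atTop).const_mul
    ((|(d : ℝ)| + 1) * E)).const_add E
  rw [mul_zero, add_zero] at e2
  exact le_of_tendsto_of_tendsto' e1 e2 fun n => h3 (ψ n) d

variable {Λ : Type} [Group Λ] {μ : ℤ → Λ → ℝ}

theorem grp_gap (h : Mu μ) :
    ∃ ρ : ℝ, 0 < ρ ∧ {c | μ 0 c < ρ}.Finite ∧ ∀ c, μ 0 c < ρ → μ 0 c = 0 := by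
  obtain ⟨η, hη, hf⟩ := h.fin
  have h1 : ∀ᶠ ρ in 𝓝[>] (0 : ℝ), ∀ c ∈ {c | μ 0 c < η}, μ 0 c ≠ 0 → ρ < μ 0 c :=
    (eventually_all_finite hf).2 fun c _ => by
      by_cases hc : μ 0 c = 0
      · exact Eventually.of_forall fun _ h2 => absurd hc h2
      · filter_upwards [mem_nhdsWithin_of_mem_nhds
          (Iio_mem_nhds (lt_of_le_of_ne (h.nonneg 0 c) (Ne.symm hc)))] with ρ h2 _ using h2
  obtain ⟨ρ, ⟨e1, e2⟩, e3⟩ := ((h1.and (mem_nhdsWithin_of_mem_nhds (Iio_mem_nhds hη))).and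
    self_mem_nhdsWithin).exists
  refine ⟨ρ, e3, hf.subset fun c hc => lt_trans hc e2, fun c hc => ?_⟩
  by_contra h2
  exact lt_asymm hc (e1 c (lt_trans hc e2) h2)

theorem grp_div (h : Mu μ) (d d' : ℤ) (c c' : Λ) : μ (d' - d) (c⁻¹ * c') ≤ μ d c + μ d' c' := by
  rw [← h.symm d c, sub_eq_neg_add]
  exact h.tri _ _ _ _

theorem grp_fib (h : Mu μ) {ρ : ℝ} (hf : {c | μ 0 c < ρ}.Finite) (L : ℤ) :
    {c | ∃ d, |d| ≤ L ∧ μ d c < ρ / 2}.Finite := by
  have h1 : ∀ d, {c | μ d c < ρ / 2}.Finite := fun d => by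
    rcases Set.eq_empty_or_nonempty {c | μ d c < ρ / 2} with h1 | ⟨c0, h1⟩
    · rw [h1]
      exact Set.finite_empty
    · refine (hf.image fun c => c0 * c).subset fun c hc => ⟨c0⁻¹ * c, ?_, by simp⟩
      have h2 := grp_div h d d c0 c
      rw [sub_self] at h2
      exact h2.trans_lt (by linarith [show μ d c0 < ρ / 2 from h1, show μ d c < ρ / 2 from hc])
  refine ((Set.finite_Icc (-L) L).biUnion fun d _ => h1 d).subset ?_
  rintro c ⟨d, e1, e2⟩
  exact Set.mem_biUnion (abs_le.1 e1) e2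

theorem grp_pow (h : Mu μ) (d : ℤ) (c : Λ) (n : ℕ) : μ (n * d) (c ^ n) ≤ n * μ d c := by
  induction n with
  | zero => simp [h.one]
  | succ n ih =>
    rw [pow_succ, Nat.cast_succ, Nat.cast_succ, add_mul, add_mul, one_mul, one_mul]
    linarith [h.tri (n * d) d (c ^ n) c]

theorem grp_van (h : Mu μ) (G : Subgroup Λ) [Group.FG G] {s0 : ℝ} (hs : 0 < s0) :
    ∃ s1 : ℝ, 0 < s1 ∧ s1 ≤ s0 ∧ ∀ ψ : G →* Multiplicative ℤ,
      (∃ C : ℤ, ∀ (d : ℤ) (c : G), μ d c < s0 → |(ψ c).toAdd| ≤ C) →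
      ∀ (d : ℤ) (c : G), μ d c < s1 → ψ c = 1 := by
  obtain ⟨T, hT, hT'⟩ := Group.fg_iff.1 (inferInstance : Group.FG G)
  have := hT'.to_subtype
  let W : ℕ → Submodule ℤ (T → ℤ) := fun n =>
    { carrier := {x | ∃ ψ : G →* Multiplicative ℤ, (∀ t : T, x t = (ψ t).toAdd) ∧
        ∀ (d : ℤ) (c : G), μ d c < s0 / (n + 1) → ψ c = 1}
      zero_mem' := ⟨1, fun _ => rfl, fun _ _ _ => rfl⟩
      add_mem' := fun ⟨ψ, e1, e2⟩ ⟨ψ', e3, e4⟩ => ⟨ψ * ψ', fun t => by simp [e1, e3],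
        fun d c hc => by simp [e2 d c hc, e4 d c hc]⟩
      smul_mem' := fun z _ ⟨ψ, e1, e2⟩ => ⟨(zpowGroupHom z).comp ψ, fun t => by simp [e1],
        fun d c hc => by simp [e2 d c hc]⟩ }
  have hW : Monotone W := fun n m hnm x ⟨ψ, e1, e2⟩ => ⟨ψ, e1, fun d c hc => e2 d c
    (hc.trans_le (by gcongr))⟩
  obtain ⟨n, hn⟩ := monotone_stabilizes_iff_noetherian.2 inferInstance ⟨W, hW⟩
  refine ⟨s0 / (n + 1), by positivity, div_le_self hs.le (by linarith [n.cast_nonneg (α := ℝ)]),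
    fun ψ ⟨C, hC⟩ => ?_⟩
  have h1 : (fun t : T => (ψ t).toAdd) ∈ W (max n C.toNat) := by
    refine ⟨ψ, fun _ => rfl, fun d c hc => ?_⟩
    set m := max n C.toNat with hm
    have e1 := hC ((m + 1 : ℕ) * d) (c ^ (m + 1)) (by
      refine (grp_pow h d c (m + 1)).trans_lt ?_
      rw [lt_div_iff₀ (by positivity)] at hc
      push_cast
      linarith)
    rw [map_pow, toAdd_pow, nsmul_eq_mul, abs_mul, Nat.abs_cast] at e1
    by_contra h2
    have e2 : 1 ≤ |(ψ c).toAdd| := Int.one_le_abs h2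
    have e3 : C < ((m + 1 : ℕ) : ℤ) := by omega
    nlinarith
  have h2 : W n = W (max n C.toNat) := hn _ (le_max_left _ _)
  rw [← h2] at h1
  obtain ⟨ψ', e1, e2⟩ := h1
  have h3 : ψ = ψ' := MonoidHom.eq_of_eqOn_dense hT fun t ht => e1 ⟨t, ht⟩
  rw [h3]
  exact e2

theorem grp {Λ : Type} [Group Λ] {μ : ℤ → Λ → ℝ} (h : Mu μ) :
    ∃ (G : Subgroup Λ) (s0 s1 : ℝ), GrpOut μ G s0 s1 := by
  obtain ⟨ρ, hρ, hf, hz⟩ := grp_gap h
  obtain ⟨J, hJ⟩ := h.synd (ρ / 8) (by positivity)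
  obtain ⟨L, f, g, hL, hg⟩ : ∃ (L : ℤ) (f : ℤ → ℤ) (g : ℤ → Λ),
      (∀ x, -L ≤ f x - x ∧ f x - x ≤ L) ∧ ∀ x, μ (f x) (g x) < ρ / 8 := by
    choose j hj c hc using hJ
    refine ⟨∑ i ∈ J, |i|, fun x => j (-x) - -x, fun x => c (-x), fun x => ?_, fun x => hc _⟩
    rw [← abs_le]
    simp only [sub_neg_eq_add, add_sub_cancel_right]
    exact Finset.single_le_sum (f := fun i : ℤ => |i|) (fun i _ => abs_nonneg i) (hj _)
  set S : Set Λ := {c | ∃ d, |d| ≤ 2 * L + 1 ∧ μ d c < ρ / 4} with hS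
  have hSf : S.Finite := (grp_fib h hf (2 * L + 1)).subset fun c ⟨d, e1, e2⟩ =>
    ⟨d, e1, by linarith⟩
  have := hSf.to_subtype
  set G := Subgroup.closure S with hG
  have hfg : Group.FG G := Group.closure_finite_fg S
  have step : ∀ d d' c c', μ d c < ρ / 8 → μ d' c' < ρ / 8 → |d' - d| ≤ 2 * L + 1 → c ∈ G →
      c' ∈ G := fun d d' c c' e1 e2 e3 e4 => by
    have e5 : c⁻¹ * c' ∈ G := Subgroup.subset_closure
      ⟨d' - d, e3, (grp_div h d d' c c').trans_lt (by linarith)⟩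
    simpa using G.mul_mem e4 e5
  have hgG : ∀ x, g x ∈ G := fun x => by
    induction x using Int.induction_on with
    | zero =>
      exact step 0 _ 1 _ (by rw [h.one]; positivity) (hg 0)
        (abs_le.2 (by have := hL 0; omega)) G.one_mem
    | succ n ih =>
      exact step _ _ _ _ (hg _) (hg _)
        (abs_le.2 (by have := hL n; have := hL (n + 1); omega)) ih
    | pred n ih =>
      exact step _ _ _ _ (hg _) (hg _)
        (abs_le.2 (by have := hL (-n); have := hL (-n - 1); omega)) ih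
  have hmem : ∀ d c, μ d c < ρ / 8 → c ∈ G := fun d c hc =>
    step _ _ _ _ (hg d) hc (abs_le.2 (by have := hL d; omega)) (hgG d)
  let K : Subgroup Λ :=
    { carrier := {c | μ 0 c = 0}
      one_mem' := h.one
      mul_mem' := fun {a b} ha hb => le_antisymm (by
        have := h.tri 0 0 a b
        rwa [show μ 0 a = 0 from ha, show μ 0 b = 0 from hb, add_zero, add_zero] at this)
        (h.nonneg _ _)
      inv_mem' := fun {a} ha => by
        have := h.symm 0 a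
        rw [neg_zero] at this
        exact this.trans ha }
  have hcomm := grp_comm (S := S) (K := K)
    (fun s ⟨d, e1, e2⟩ => ⟨-d, by rwa [abs_neg], by rwa [h.symm]⟩)
    (fun s ⟨d, _, e2⟩ k hk => hz _ (by
      have e3 := h.tri (d + 0) (-d) (s * k) s⁻¹
      have e4 := h.tri d 0 s k
      rw [show μ 0 k = 0 from hk] at e4
      rw [h.symm, show d + 0 + -d = 0 by ring] at e3
      linarith))
    (fun s ⟨d, _, e2⟩ t ⟨d', _, e2'⟩ => hz _ (by
      have e3 := h.tri (d + d' + -d) (-d') (s * t * s⁻¹) t⁻¹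
      have e4 := h.tri (d + d') (-d) (s * t) s⁻¹
      have e5 := h.tri d d' s t
      rw [h.symm] at e3 e4
      rw [show d + d' + -d + -d' = 0 by ring] at e3
      rw [commutatorElement_def]
      linarith))
  have : Finite (commutatorSet G) := by
    refine ((hf.preimage (Subtype.val_injective (p := (· ∈ G))).injOn).subset ?_).to_subtype
    rintro _ ⟨a, b, rfl⟩
    have e1 : μ 0 ⁅(a : Λ), (b : Λ)⁆ = 0 := hcomm a a.2 b b.2
    change μ 0 ⁅(a : Λ), (b : Λ)⁆ < ρ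
    rwa [e1]
  obtain ⟨s1, e1, e2, e3⟩ := grp_van h G (s0 := ρ / 8) (by positivity)
  refine ⟨G, ρ / 8, s1, e1, e2, h.symm, hfg, inferInstance, hmem, fun v => ?_, e3⟩
  obtain ⟨E, hE⟩ := (((grp_fib h hf (3 * L)).preimage
    (Subtype.val_injective (p := (· ∈ G))).injOn).image fun c => |(v c).toAdd|).bddAbove
  have hE' : ∀ (d : ℤ) (c : G), |d| ≤ 3 * L → μ d c < ρ / 2 → |(v c).toAdd| ≤ E :=
    fun d c e4 e5 => hE ⟨c, ⟨d, e4, e5⟩, rfl⟩
  obtain ⟨θ, hθ⟩ := grp_quasi (φ := fun x => (v ⟨g x, hgG x⟩).toAdd) (E := E) fun d d' => by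
    have e4 := hE' (f (d + d') - f d - f d')
      ((⟨g d', hgG d'⟩ : G)⁻¹ * ((⟨g d, hgG d⟩ : G)⁻¹ * ⟨g (d + d'), hgG _⟩))
      (abs_le.2 (by have := hL d; have := hL d'; have := hL (d + d'); omega)) (by
        have e5 := grp_div h (f d') (f (d + d') - f d) (g d') ((g d)⁻¹ * g (d + d'))
        have e6 := grp_div h (f d) (f (d + d')) (g d) (g (d + d'))
        refine e5.trans_lt ?_
        linarith [hg d, hg d', hg (d + d')])
    simp only [map_mul, map_inv, toAdd_mul, toAdd_inv] at e4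
    refine le_trans (le_of_eq ?_) e4
    congr 1
    ring
  refine ⟨θ, E + E, fun d c hc => ?_⟩
  have e4 := hE' (d - f d) ((⟨g d, hgG d⟩ : G)⁻¹ * c) (abs_le.2 (by have := hL d; omega))
    ((grp_div h (f d) d (g d) c).trans_lt (by linarith [hg d]))
  simp only [map_mul, map_inv, toAdd_mul, toAdd_inv] at e4
  have e5 := abs_le.1 e4
  have e6 := abs_le.1 (hθ d)
  exact abs_le.2 ⟨by linarith, by linarith⟩

end Pool.Agent.Lib.MP_1db5af_an.Th
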