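import Pool.Agent.Lib.MP_1db5af_an.Th.PatA

set_option autoImplicit false

namespace Pool.Agent.Lib.MP_1db5af_an.Th

open MeasureTheory ProbabilityTheory Filter Topology ComplexConjugate
open scoped ENNReal NNReal InnerProductSpace

theorem patb_sep {H : Set ℤ} (h0 : 0 ∈ H) (h1 : ∀ d ∈ H, -d ∈ H) {m : ℕ}
    (h : ∀ s : Finset ℤ, s.card = m → ∃ k ∈ s, ∃ l ∈ s, k ≠ l ∧ l - k ∈ H) :
    ∃ J : Finset ℤ, ∀ k, ∃ j ∈ J, j - k ∈ H := by
  by_contra hc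
  have h2 : ∀ n, ∃ s : Finset ℤ, s.card = n ∧ ∀ k ∈ s, ∀ l ∈ s, k ≠ l → l - k ∉ H := fun n => by
    induction n with
    | zero => exact ⟨∅, rfl, by simp⟩
    | succ n ih =>
      obtain ⟨s, e1, e2⟩ := ih
      obtain ⟨x, hx⟩ := not_forall.1 fun h3 => hc ⟨s, h3⟩
      have e3 : ∀ j ∈ s, j - x ∉ H := fun j hj h3 => hx ⟨j, hj, h3⟩
      have e4 : x ∉ s := fun h3 => e3 x h3 (by rwa [sub_self])
      refine ⟨insert x s, by rw [Finset.card_insert_of_notMem e4, e1], fun k hk l hl hkl => ?_⟩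
      rcases Finset.mem_insert.1 hk with rfl | hk' <;> rcases Finset.mem_insert.1 hl with rfl | hl'
      · exact absurd rfl hkl
      · exact e3 l hl'
      · exact fun h3 => e3 k hk' (by simpa using h1 _ h3)
      · exact e2 k hk' l hl' hkl
  obtain ⟨s, e1, e2⟩ := h2 m
  obtain ⟨k, hk, l, hl, e3, e4⟩ := h s e1
  exact e2 k hk l hl e3 e4

theorem patb_visits {Ω : MS} {E : Set Ω.X} (hE : MeasurableSet E) (h0 : Ω.ν E ≠ 0) (D : ℕ)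
    {p : Ω.X → Prop} (hp : ∀ᵐ r ∂Ω.ν, p r) :
    ∃ m : ℕ, ∀ s : Finset ℤ, s.card = m → ∃ r, p r ∧ ∃ t ⊆ s, D < t.card ∧ ∀ k ∈ t, Ω.T k r ∈ E := by
  classical
  obtain ⟨m, hm⟩ := ENNReal.exists_nat_mul_gt h0 (b := D * Ω.ν Set.univ) (by finiteness)
  refine ⟨m, fun s hs => ?_⟩
  by_contra hc
  refine absurd hm (not_lt.2 ?_)
  have h1 : ∀ k, MeasurableSet (Ω.T k ⁻¹' E) := fun k => Ω.sys.meas k hE
  calc m * Ω.ν E = ∑ k ∈ s, ∫⁻ r, (Ω.T k ⁻¹' E).indicator 1 r ∂Ω.ν := by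
        simp only [lintegral_indicator_one (h1 _),
          (Ω.sys.mp _).measure_preimage hE.nullMeasurableSet, Finset.sum_const, hs, nsmul_eq_mul]
    _ ≤ _ := by
        rw [← lintegral_finsetSum _ fun k _ => measurable_one.indicator (h1 k), ← lintegral_const]
        refine lintegral_mono_ae (hp.mono fun r hr => ?_)
        have h2 : (s.filter fun k => Ω.T k r ∈ E).card ≤ D := not_lt.1 fun h2 =>
          hc ⟨r, hr, _, Finset.filter_subset _ _, h2, fun k hk => (Finset.mem_filter.1 hk).2⟩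
        simp only [Set.indicator_apply, Set.mem_preimage, Pi.one_apply, Finset.sum_boole]
        exact_mod_cast h2

section Det

variable {ι ℛ : Type} [Ring ℛ] {o : ι}

theorem patb_shift {N N' : Submodule ℛ (ι × ℤ →₀ ℛ)} {k : ℤ} (h : ∀ x, x ∈ N' ↔ tau ι ℛ k x ∈ N)
    (j : ℛˣ × ι × ℤ) : j ∈ pat o N' ↔ el (j.1, o, j.2.2 + k) - ee o k ∈ N := by
  rw [pat, Set.mem_ofPred_eq, h, map_sub]
  simp [el, ee, tau, Finsupp.mapDomain.addMonoidHom, Finsupp.mapDomain_single, shI]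

theorem patb_ee {N N' : Submodule ℛ (ι × ℤ →₀ ℛ)} {k : ℤ} (h : ∀ x, x ∈ N' ↔ tau ι ℛ k x ∈ N)
    (a : ι) : ee a 0 ∈ N' ↔ ee a k ∈ N := by
  rw [h]
  simp [ee, tau, Finsupp.mapDomain.addMonoidHom, Finsupp.mapDomain_single, shI]

theorem patb_rel {N Nk Nl : Submodule ℛ (ι × ℤ →₀ ℛ)} {k l : ℤ}
    (hk : ∀ x, x ∈ Nk ↔ tau ι ℛ k x ∈ N) (hl : ∀ x, x ∈ Nl ↔ tau ι ℛ l x ∈ N) {c : ℛˣ}
    (h : el (c, o, l) - ee o k ∈ N) : pat o Nk = pact (l - k) c (pat o Nl) := by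
  have key : ∀ j : ℛˣ × ι × ℤ, (c * j.1, shI (l - k) j.2) ∈ pat o Nk ↔ j ∈ pat o Nl := fun j => by
    rw [patb_shift hk, patb_shift hl, ← N.sub_mem_iff_left h,
      ← N.smul_mem_iff' c (x := el (j.1, o, j.2.2 + l) - ee o l), Units.smul_def]
    simp [el, ee, shI, smul_sub, add_assoc]
  ext j
  refine ⟨fun hj => ⟨(c⁻¹ * j.1, shI (k - l) j.2), (key _).1 ?_, ?_⟩, ?_⟩
  · simpa [shI, add_assoc] using hj
  · simp [shI, add_assoc]
  · rintro ⟨j, hj, rfl⟩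
    exact (key j).2 hj

end Det

/-- The symmetric distance of two patterns. -/
noncomputable def pd {ι ℛ : Type} [Ring ℛ] (Ω : MS) (N : Ω.X → Submodule ℛ (ι × ℤ →₀ ℛ))
    (p q : Set (ℛˣ × ι × ℤ)) : ℝ≥0∞ := pe Ω N p q + pe Ω N q p

variable {ι ℛ : Type} [Fintype ι] [Ring ℛ] [Countable ℛ] {Ω : MS}
  {N : Ω.X → Submodule ℛ (ι × ℤ →₀ ℛ)} {o : ι}

omit [Fintype ι] [Countable ℛ] in
theorem pd_comm (p q : Set (ℛˣ × ι × ℤ)) : pd Ω N p q = pd Ω N q p := add_comm _ _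

theorem pd_tri (hN : ∀ x, MeasurableSet {w | x ∈ N w}) (p q r : Set (ℛˣ × ι × ℤ)) :
    pd Ω N p r ≤ pd Ω N p q + pd Ω N q r := by
  refine (add_le_add (pe_tri hN p q r) (pe_tri hN r q p)).trans (le_of_eq ?_)
  rw [pd, pd]
  ring

theorem pd_act (hN : Rsg Ω (tau ι ℛ) fun w => (N w).toAddSubgroup) (d : ℤ) (c : ℛˣ)
    (p q : Set (ℛˣ × ι × ℤ)) : pd Ω N (pact d c p) (pact d c q) = pd Ω N p q := by
  rw [pd, pd, pe_act hN, pe_act hN]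

theorem patb_ge (hN : ∀ x, MeasurableSet {w | x ∈ N w}) {p : Set (ℛˣ × ι × ℤ)}
    (q : Set (ℛˣ × ι × ℤ)) {j : ℛˣ × ι × ℤ} (hj : j ∈ p) :
    Ω.ν {w | el j ∉ N w ∧ ¬ ∃ j' ∈ q, el j - el j' ∈ N w} ≤ pe Ω N p q := by
  refine meas_le_lintegral₀ (pata_meas hN p q).aemeasurable fun w hw => ?_
  rw [← ENat.toENNReal_one, ENat.toENNReal_le, Set.one_le_encard_iff_nonempty]
  refine ⟨(N w).mkQ (el j), ⟨⟨j, hj, rfl⟩, fun e => hw.1 ((Submodule.Quotient.mk_eq_zero _).1 e)⟩,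
    fun ⟨⟨j', e1, e2⟩, _⟩ => hw.2 ⟨j', e1, (Submodule.Quotient.eq _).1 e2.symm⟩⟩

theorem patb_gen (h : CData Ω N o) (hB : Ω.ν {r | ee o 0 ∉ N r} ≠ 0) :
    ∃ (r0 : Ω.X) (D : ℕ), (∀ᵐ w ∂Ω.ν, (cls (N w) (pat o (N r0))).encard ≤ D) ∧
      ∀ ε : ℝ≥0∞, 0 < ε → ∃ E : Set Ω.X, MeasurableSet E ∧ Ω.ν E ≠ 0 ∧
        ∀ r ∈ E, ee o 0 ∉ N r ∧ pd Ω N (pat o (N r)) (pat o (N r0)) < ε := by
  have hN : ∀ x, MeasurableSet {w | x ∈ N w} := h.rsg.meas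
  have : Countable ℛˣ := Units.val_injective.countable
  obtain ⟨D, hD⟩ := h.count
  let C : Finset (ℛˣ × ι × ℤ) × ℕ → Set Ω.X := fun x =>
    {r | ee o 0 ∉ N r} ∩ {r | pd Ω N (pat o (N r)) x.1 < (x.2 : ℝ≥0∞)⁻¹}
  have hC : ∀ x, MeasurableSet (C x) := fun x => by
    have h1 : ∀ y, MeasurableSet {z : Ω.X × Ω.X | y ∈ N z.2} := fun y => measurable_snd (hN y)
    have h2 : ∀ j, MeasurableSet {z : Ω.X × Ω.X | j ∈ pat o (N z.1)} := fun j =>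
      measurable_fst (hN _)
    have h3 : ∀ j, MeasurableSet {_z : Ω.X × Ω.X | j ∈ (x.1 : Set (ℛˣ × ι × ℤ))} := fun j =>
      MeasurableSet.const _
    exact (hN _).compl.inter (measurableSet_lt
      (((cls_meas h1 h2 h3).lintegral_prod_right' (ν := Ω.ν)).add
        ((cls_meas h1 h3 h2).lintegral_prod_right' (ν := Ω.ν))) measurable_const)
  have h1 : ∀ᵐ r ∂Ω.ν, ∀ x, Ω.ν (C x) = 0 → r ∉ C x := ae_all_iff.2 fun x => by
    by_cases hx : Ω.ν (C x) = 0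
    · filter_upwards [measure_eq_zero_iff_ae_notMem.1 hx] with r hr _ using hr
    · exact Eventually.of_forall fun r h2 => absurd h2 hx
  obtain ⟨r0, e1, e2, e3⟩ := Measure.exists_mem_of_measure_ne_zero_of_ae hB
    (ae_restrict_of_ae (hD.and h1))
  refine ⟨r0, D, e2 e1, fun ε hε => ?_⟩
  obtain ⟨n, hn⟩ := ENNReal.exists_inv_nat_lt (ENNReal.half_pos hε.ne').ne'
  obtain ⟨q, e4, e5⟩ := pe_approx hN (e2 e1) (ε := (n : ℝ≥0∞)⁻¹)
    (ENNReal.inv_pos.2 (ENNReal.natCast_ne_top n))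
  have e6 : pd Ω N (pat o (N r0)) q < (n : ℝ≥0∞)⁻¹ := by rwa [pd, pe_of_subset e4, add_zero]
  refine ⟨C (q, n), hC _, fun e7 => e3 _ e7 ⟨e1, e6⟩, fun r hr => ⟨hr.1, ?_⟩⟩
  refine (pd_tri hN _ q _).trans_lt ?_
  rw [pd_comm (q : Set (ℛˣ × ι × ℤ)), ← ENNReal.add_halves ε]
  exact ENNReal.add_lt_add (lt_trans hr.2 hn) (e6.trans hn)

theorem pat_mu (h : CData Ω N o) :
    ∃ (μ : ℤ → ℛˣ → ℝ) (P : ℤ → Set (ι × ℤ →₀ ℛ)), Mu μ ∧
      (∀ᵐ w ∂Ω.ν, ∀ j, ((N w).mkQ '' P j).Finite) ∧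
      ∀ (j k : ℤ) (c : ℛˣ) (a : ι) (s : ℝ), μ (j - k) c < s →
        Ω.ν.real {w | ee a k ∉ N w ∧ ¬ ∃ ξ ∈ P j, ee a k - (c : ℛ) • ξ ∈ N w} ≤ s := by
  have hN : ∀ x, MeasurableSet {w | x ∈ N w} := h.rsg.meas
  have hB : Ω.ν {r | ee o 0 ∉ N r} ≠ 0 := fun h0 => by
    obtain ⟨δ, hδ, hF⟩ := h.fail
    obtain ⟨k, _, hk⟩ := hF 0
    rw [← (Ω.sys.mp (k o)).measure_preimage (s := {r | ee o 0 ∉ N r})
      (hN _).compl.nullMeasurableSet] at h0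
    have h1 : Ω.ν {w | ∑ a, ee a (k a) ∈ N w ∧ ∀ a, ee a (k a) ∉ N w} = 0 :=
      le_zero_iff.1 (le_of_le_of_eq (measure_mono_ae (h.rsg.eqv.mono fun w hw h2 h3 =>
        h2.2 o ((patb_ee (hw (k o)) o).1 h3))) h0)
    rw [Measure.real, h1] at hk
    exact absurd hk (not_le.2 hδ)
  obtain ⟨r0, D, hD, hE⟩ := patb_gen h hB
  set p := pat o (N r0) with hp
  have hm : ∀ a, ((1 : ℛˣ), a, (0 : ℤ)) ∈ p := fun a => by simp [hp, pat, el, ee]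
  have h1 : ∀ q, pe Ω N p q ≠ ⊤ := fun q =>
    ne_top_of_le_ne_top (b := ∫⁻ _, D ∂Ω.ν) (by rw [lintegral_const]; finiteness)
      (lintegral_mono_ae (hD.mono fun w hw => by
        simpa using ENat.toENNReal_le.2 ((Set.encard_le_encard Set.sdiff_subset).trans hw)))
  have h2 : ∀ d c, pact d c (pact (-d) c⁻¹ p) = p := fun d c => by
    rw [pact_pact, add_neg_cancel, mul_inv_cancel, pact_one]
  have h3 : ∀ d c, pd Ω N p (pact d c p) ≠ ⊤ := fun d c => ENNReal.add_ne_top.2 ⟨h1 _, by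
    conv_lhs => arg 4; rw [← h2 d c]
    rw [pe_act h.rsg]
    exact h1 _⟩
  have hs : ∀ d c, pd Ω N p (pact (-d) c⁻¹ p) = pd Ω N p (pact d c p) := fun d c => by
    rw [← pd_act h.rsg d c, h2, pd_comm]
  have h0 : pd Ω N p (pact 0 1 p) = 0 := by
    rw [pact_one, pd, pe_of_subset subset_rfl, add_zero]
  refine ⟨fun d c => (pd Ω N p (pact d c p)).toReal, fun j => el '' pact j 1 p,
    ⟨fun _ _ => ENNReal.toReal_nonneg, by rw [h0, ENNReal.toReal_zero], fun d c => by rw [hs],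
      fun d d' c c' => ?_, ?_, fun s hs0 => ?_⟩, ?_, fun j k c a s e => ?_⟩
  · rw [← ENNReal.toReal_add (h3 _ _) (h3 _ _)]
    refine ENNReal.toReal_mono (ENNReal.add_ne_top.2 ⟨h3 _ _, h3 _ _⟩) ?_
    rw [← pact_pact, ← pd_act h.rsg d c p (pact d' c' p)]
    exact pd_tri hN _ _ _
  · obtain ⟨η, e1, e2⟩ := pe_fin hN h.free hD fun e1 => hB (le_zero_iff.1
      (le_of_le_of_eq (le_of_eq_of_le (by simp [el, ee]) (patb_ge hN ∅ (hm o))) e1))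
    have e3 : min η 1 ≠ ⊤ := ne_top_of_le_ne_top ENNReal.one_ne_top (min_le_right _ _)
    refine ⟨(min η 1).toReal, ENNReal.toReal_pos (lt_min e1 one_pos).ne' e3,
      e2.subset fun c hc => ?_⟩
    exact lt_of_le_of_lt le_self_add
      (((ENNReal.toReal_lt_toReal (h3 _ _) e3).1 hc).trans_le (min_le_left _ _))
  · obtain ⟨E, e1, e2, e3⟩ := hE (ENNReal.ofReal s / 2)
      (ENNReal.half_pos (ENNReal.ofReal_pos.2 hs0).ne')
    obtain ⟨D', hD'⟩ := h.orb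
    obtain ⟨m, hm'⟩ := patb_visits e1 e2 D' (hD'.and h.rsg.eqv)
    refine patb_sep (H := {d | ∃ c, (pd Ω N p (pact d c p)).toReal < s}) (m := m)
      ⟨1, by rwa [h0, ENNReal.toReal_zero]⟩ (fun d ⟨c, hc⟩ => ⟨c⁻¹, by rwa [hs]⟩) fun t ht => ?_
    obtain ⟨r, ⟨e4, e5⟩, t', e6, e7, e8⟩ := hm' t ht
    by_contra hc
    refine absurd (e4 t' (fun k hk e9 => (e3 _ (e8 k hk)).1 ((patb_ee (e5 k) o).2 e9))
      fun k hk l hl hkl c e9 => hc ⟨k, e6 hk, l, e6 hl, hkl, c, ?_⟩) (not_le.2 e7)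
    refine ENNReal.toReal_lt_of_lt_ofReal ((pd_tri hN _ (pat o (N (Ω.T k r))) _).trans_lt ?_)
    rw [← ENNReal.add_halves (ENNReal.ofReal s)]
    refine ENNReal.add_lt_add (by rw [pd_comm]; exact (e3 _ (e8 k hk)).2) ?_
    rw [patb_rel (e5 k) (e5 l) e9, pd_act h.rsg]
    exact (e3 _ (e8 l hl)).2
  · filter_upwards [h.rsg.eqv, ae_all_iff.2 fun j => (Ω.sys.mp j).quasiMeasurePreserving.ae hD]
      with w e1 e2 j
    obtain ⟨φ, _, e3⟩ := pata_act (N := N w) (N' := N (Ω.T j w)) (e1 j) 1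
    have e4 : (cls (N w) (pact j 1 p)).Finite := by
      rw [e3]
      exact (Set.finite_of_encard_le_coe (e2 j)).image _
    rw [Set.image_image]
    exact Set.Finite.of_sdiff e4 (Set.finite_singleton _)
  · refine le_trans (ENNReal.toReal_mono (h3 _ _) (le_trans ?_ le_self_add)) e.le
    rw [← pe_act h.rsg k 1, pact_pact, add_sub_cancel, one_mul]
    refine le_trans (measure_mono ?_) (patb_ge hN _ (j := (1, a, k)) ⟨_, hm a, by simp [shI]⟩)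
    refine fun w hw => ⟨?_, fun ⟨j', e1, e2⟩ => hw.2 ?_⟩
    · simpa [el, ee] using hw.1
    · obtain ⟨j', e3, rfl⟩ := e1
      refine ⟨_, ⟨_, ⟨j', e3, rfl⟩, rfl⟩, ?_⟩
      simpa [el, ee] using e2

end Pool.Agent.Lib.MP_1db5af_an.Th
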