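import Pool.Agent.Lib.MP_1db5af_an.Th.Defs

set_option autoImplicit false

namespace Pool.Agent.Lib.MP_1db5af_an.Th

open MeasureTheory ProbabilityTheory Filter Topology ComplexConjugate
open scoped ENNReal NNReal InnerProductSpace

theorem ph_dil {p : ℕ → ℝ} (h0 : ∀ l, 0 ≤ p l) (h : Nul p) {j : ℕ} (hj : 0 < j) :
    Nul fun t => p (j * t) := by
  have h1 := (h.comp (tendsto_id.const_mul_atTop' hj)).const_mul (j : ℝ)
  rw [mul_zero] at h1
  refine squeeze_zero (fun L => av_nonneg (fun _ => h0 _) L) (fun L => ?_) h1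
  have hj' : (j : ℝ) ≠ 0 := by positivity
  simp only [av, Function.comp_apply, id, smul_eq_mul, Nat.cast_mul, mul_inv]
  rw [← mul_assoc, ← mul_assoc, mul_inv_cancel₀ hj', one_mul]
  refine mul_le_mul_of_nonneg_left ?_ (by positivity)
  rw [← Finset.sum_image (s := Finset.range L) (g := fun t => j * t) (f := p)
    fun a _ b _ e => Nat.eq_of_mul_eq_mul_left hj e]
  refine Finset.sum_le_sum_of_subset_of_nonneg (fun x hx => ?_) fun _ _ _ => h0 _
  obtain ⟨t, ht, rfl⟩ := Finset.mem_image.1 hx
  exact Finset.mem_range.2 (Nat.mul_lt_mul_of_pos_left (Finset.mem_range.1 ht) hj)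

theorem ph_count {g : ℕ → Prop} {e : ℕ → ℕ → Prop} [DecidablePred g] [DecidableRel e] {D : ℕ}
    (h : ∀ s : Finset ℕ, (∀ k ∈ s, g k) → (∀ k ∈ s, ∀ l ∈ s, k < l → ¬ e k l) → s.card ≤ D)
    (m : ℕ) : ∑ i ∈ Finset.range m, (if g i then 1 else 0 : ℝ) ≤
      D + ∑ j ∈ Finset.range m, ∑ i ∈ Finset.range j, if g i ∧ g j ∧ e i j then 1 else 0 := by
  classical
  have h1 := h ((Finset.range m).filter fun j => g j ∧ ∀ i < j, g i → ¬ e i j)
    (fun k hk => (Finset.mem_filter.1 hk).2.1) fun k hk l hl hkl =>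
      (Finset.mem_filter.1 hl).2.2 k hkl (Finset.mem_filter.1 hk).2.1
  have h2 : ∑ j ∈ Finset.range m, (if g j ∧ ∀ i < j, g i → ¬ e i j then 1 else 0 : ℝ) ≤ D := by
    rw [Finset.sum_boole]
    exact_mod_cast h1
  refine le_trans ?_ (add_le_add_left h2 _)
  rw [← Finset.sum_add_distrib]
  refine Finset.sum_le_sum fun j _ => ?_
  have h3 : ∀ i ∈ Finset.range j, (0 : ℝ) ≤ if g i ∧ g j ∧ e i j then 1 else 0 := fun i _ => by
    positivity
  by_cases hg : g j
  · by_cases h4 : ∀ i < j, g i → ¬ e i j
    · rw [if_pos hg, if_pos ⟨hg, h4⟩]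
      linarith [Finset.sum_nonneg h3]
    · rw [if_pos hg, if_neg fun h5 => h4 h5.2, zero_add]
      push Not at h4
      obtain ⟨i, e1, e2, e3⟩ := h4
      refine le_trans (le_of_eq ?_) (Finset.single_le_sum h3 (Finset.mem_range.2 e1))
      rw [if_pos ⟨e2, hg, e3⟩]
  · rw [if_neg hg]
    exact add_nonneg (by positivity) (Finset.sum_nonneg h3)

theorem ph {X : Type} [MeasurableSpace X] {ν : Measure X} [IsFiniteMeasure ν]
    {good : ℕ → Set X} {E : ℕ → ℕ → Set X} {β : ℝ} {p : ℕ → ℝ} (hβ : 0 < β)
    (hg : ∀ k, MeasurableSet (good k)) (hE : ∀ k l, MeasurableSet (E k l))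
    (h0 : ∀ l, 0 ≤ p l) (h1 : ∀ k, β ≤ ν.real (good k))
    (h2 : ∀ k l, k < l → ν.real (good k ∩ good l ∩ E k l) ≤ p (l - k)) (h3 : Nul p)
    (h4 : ∀ᵐ x ∂ν, ∃ (Q : Type) (F : Set Q) (val : ℕ → Q), F.Finite ∧
      (∀ k, x ∈ good k → val k ∈ F) ∧
      ∀ k l, k < l → x ∈ good k → x ∈ good l → val k = val l → x ∈ E k l) : False := by
  classical
  let A : ℕ → Set X := fun D => {x | ∀ s : Finset ℕ, (∀ k ∈ s, x ∈ good k) →
    (∀ k ∈ s, ∀ l ∈ s, k < l → x ∉ E k l) → s.card ≤ D}
  have hA : ∀ D, MeasurableSet (A D) := fun D => measurableSet_setOfPred.2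
    (Measurable.forall fun s => (Measurable.forall fun k => measurable_const.imp (hg k).mem).imp
      ((Measurable.forall fun k => measurable_const.imp (Measurable.forall fun l =>
        measurable_const.imp (measurable_const.imp (hE k l).mem.not))).imp measurable_const))
  obtain ⟨D, hD⟩ : ∃ D, ν.real (A D)ᶜ < β / 2 := by
    have e1 := tendsto_measure_of_ae_tendsto_indicator_of_isFiniteMeasure (μ := ν) atTop
      MeasurableSet.empty (fun D => (hA D).compl) (h4.mono fun x ⟨Q, F, val, e1, e2, e3⟩ => by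
        filter_upwards [eventually_ge_atTop e1.toFinset.card] with D hD
        refine iff_of_false (not_not.2 fun s e4 e5 => le_trans ?_ hD) (Set.notMem_empty x)
        refine Finset.card_le_card_of_injOn val (fun k hk => by simpa using e2 k (e4 k hk))
          fun k hk l hl e6 => ?_
        rcases lt_trichotomy k l with e7 | e7 | e7
        · exact absurd (e3 k l e7 (e4 k hk) (e4 l hl) e6) (e5 k hk l hl e7)
        · exact e7
        · exact absurd (e3 l k e7 (e4 l hl) (e4 k hk) e6.symm) (e5 l hl k hk e7))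
    rw [measure_empty] at e1
    have e2 : Tendsto (fun D => ν.real (A D)ᶜ) atTop (𝓝 0) :=
      (ENNReal.tendsto_toReal ENNReal.zero_ne_top).comp e1
    exact (e2.eventually (gt_mem_nhds (half_pos hβ))).exists
  have key : ∀ m t : ℕ, 0 < t → m * (β / 2) ≤ D * ν.real Set.univ +
      ∑ j ∈ Finset.range m, ∑ i ∈ Finset.range j, p ((j - i) * t) := fun m t ht => by
    have hi : ∀ s : Set X, MeasurableSet s → Integrable (s.indicator (1 : X → ℝ)) ν :=
      fun s hs => (integrable_const 1).indicator hs
    have e1 : ∫ x, ∑ i ∈ Finset.range m, (good (i * t) ∩ A D).indicator (1 : X → ℝ) x ∂ν ≤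
        ∫ x, (D : ℝ) + ∑ j ∈ Finset.range m, ∑ i ∈ Finset.range j,
          (good (i * t) ∩ good (j * t) ∩ E (i * t) (j * t)).indicator (1 : X → ℝ) x ∂ν := by
      refine integral_mono (integrable_finsetSum _ fun i _ => hi _ ((hg _).inter (hA D)))
        ((integrable_const _).add (integrable_finsetSum _ fun j _ => integrable_finsetSum _
          fun i _ => hi _ (((hg _).inter (hg _)).inter (hE _ _)))) fun x => ?_
      by_cases hx : x ∈ A D
      · have e2 := ph_count (g := fun i => x ∈ good (i * t)) (e := fun i j => x ∈ E (i * t) (j * t))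
          (D := D) (fun s e2 e3 => by
            rw [← Finset.card_image_of_injective s (mul_left_injective₀ ht.ne')]
            refine hx _ (fun k hk => ?_) fun k hk l hl hkl => ?_
            · obtain ⟨i, e4, rfl⟩ := Finset.mem_image.1 hk
              exact e2 i e4
            · obtain ⟨i, e4, rfl⟩ := Finset.mem_image.1 hk
              obtain ⟨j, e5, rfl⟩ := Finset.mem_image.1 hl
              exact e3 i e4 j e5 (lt_of_mul_lt_mul_right hkl ht.le)) m
        simpa only [Set.indicator_apply, Set.mem_inter_iff, hx, and_true, Pi.one_apply,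
          and_assoc] using e2
      · simp only [Set.indicator_of_notMem fun e : x ∈ good _ ∩ A D => hx e.2,
          Finset.sum_const_zero]
        exact add_nonneg (Nat.cast_nonneg D) (Finset.sum_nonneg fun j _ => Finset.sum_nonneg
          fun i _ => Set.indicator_nonneg (fun _ _ => zero_le_one) x)
    rw [integral_finsetSum _ fun i _ => hi _ ((hg _).inter (hA D)),
      integral_add (integrable_const _) (integrable_finsetSum _ fun j _ => integrable_finsetSum _
        fun i _ => hi _ (((hg _).inter (hg _)).inter (hE _ _))),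
      integral_finsetSum _ fun j _ => integrable_finsetSum _
        fun i _ => hi _ (((hg _).inter (hg _)).inter (hE _ _)), integral_const, smul_eq_mul,
      mul_comm] at e1
    refine le_trans ?_ (e1.trans (add_le_add_right (Finset.sum_le_sum fun j _ => ?_) _))
    · refine le_trans (by simp) (Finset.card_nsmul_le_sum (Finset.range m) _ (β / 2) fun i _ => ?_)
      rw [integral_indicator_one ((hg _).inter (hA D))]
      have e2 := le_measureReal_sdiff (μ := ν) (s₁ := good (i * t)) (s₂ := (A D)ᶜ)
      rw [Set.sdiff_compl] at e2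
      linarith [h1 (i * t)]
    · rw [integral_finsetSum _ fun i _ => hi _ (((hg _).inter (hg _)).inter (hE _ _))]
      refine Finset.sum_le_sum fun i hi' => ?_
      rw [integral_indicator_one (((hg _).inter (hg _)).inter (hE _ _)), Nat.sub_mul]
      exact h2 _ _ (Nat.mul_lt_mul_of_pos_right (Finset.mem_range.1 hi') ht)
  obtain ⟨m, hm⟩ := exists_nat_gt ((D * ν.real Set.univ + 1) / (β / 2))
  rw [div_lt_iff₀ (half_pos hβ)] at hm
  have e1 : Tendsto (av fun t => ∑ j ∈ Finset.range m, ∑ i ∈ Finset.range j, p ((j - i) * t))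
      atTop (𝓝 0) := by
    have e2 := tendsto_finsetSum (Finset.range m) fun j _ => tendsto_finsetSum (Finset.range j)
      fun i hi => ph_dil h0 h3 (Nat.sub_pos_of_lt (Finset.mem_range.1 hi))
    simp only [Finset.sum_const_zero] at e2
    exact e2.congr fun L => by simp only [av_sum]
  have e2 : Tendsto (av fun t : ℕ => (if t = 0 then 0 else 1 : ℝ)) atTop (𝓝 1) :=
    tendsto_av_of_tendsto (tendsto_const_nhds.congr' ((eventually_gt_atTop 0).mono fun t ht => by
      simp [ht.ne']))
  refine absurd (le_of_tendsto_of_tendsto' e2 e1 fun L => av_mono fun t _ => ?_) (by norm_num)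
  split_ifs with ht
  · exact Finset.sum_nonneg fun j _ => Finset.sum_nonneg fun i _ => h0 _
  · linarith [key m t (Nat.pos_of_ne_zero ht)]

end Pool.Agent.Lib.MP_1db5af_an.Th
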