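import Pool.Agent.Lib.MP_1db5af_an.Th.CRing
import Pool.Agent.Lib.MP_1db5af_an.Th.Grp
import Pool.Agent.Lib.MP_1db5af_an.Th.PatB
import Pool.Agent.Lib.MP_1db5af_an.Th.Ph
import Pool.Agent.Lib.MP_1db5af_an.Th.Rsg

set_option autoImplicit false

namespace Pool.Agent.Lib.MP_1db5af_an.Th

open MeasureTheory ProbabilityTheory Filter Topology ComplexConjugate
open scoped ENNReal NNReal InnerProductSpace

theorem cend_freq {X : Type} [MeasurableSpace X] {ν : Measure X} [IsFiniteMeasure ν]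
    {A : ℕ → Set X} (hA : ∀ n, MeasurableSet (A n)) {β : ℝ} (hβ : 0 < β)
    (h : ∀ n, β ≤ ν.real (A n)) {p : X → Prop} (hp : ∀ᵐ x ∂ν, p x) :
    ∃ x, p x ∧ ∃ᶠ n in atTop, x ∈ A n := by
  by_contra hc
  have h1 : ∀ᵐ x ∂ν, ∀ᶠ n in atTop, x ∈ A n ↔ x ∈ (∅ : Set X) := by
    filter_upwards [hp] with x hx
    have h2 : ¬ ∃ᶠ n in atTop, x ∈ A n := fun h3 => hc ⟨x, hx, h3⟩
    filter_upwards [not_frequently.1 h2] with n hn
    simpa using hn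
  have h2 := tendsto_measure_of_ae_tendsto_indicator_of_isFiniteMeasure atTop
    MeasurableSet.empty hA h1
  rw [measure_empty] at h2
  have h3 : Tendsto (fun n => ν.real (A n)) atTop (𝓝 0) :=
    (ENNReal.tendsto_toReal ENNReal.zero_ne_top).comp h2
  exact absurd (ge_of_tendsto' h3 h) (not_le.2 hβ)

theorem cend_pigeon {V : Type} [Finite V] {Q : V → ℕ → Prop} (h : ∃ᶠ n in atTop, ∃ v, Q v n) :
    ∃ v, ∃ᶠ n in atTop, Q v n := by
  by_contra hc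
  have h1 : ∀ᶠ n in atTop, ∀ v, ¬ Q v n :=
    eventually_all.2 fun v => not_frequently.1 fun h2 => hc ⟨v, h2⟩
  obtain ⟨n, ⟨v, h2⟩, h3⟩ := (h.and_eventually h1).exists
  exact h3 v h2

variable {ι ℛ : Type} [Fintype ι] [Ring ℛ]

theorem cend_alg {μ : ℤ → ℛˣ → ℝ} {G : Subgroup ℛˣ} {s0 s1 : ℝ} (h : GrpOut μ G s0 s1)
    {M : Type} [AddCommGroup M] [Module ℛ M] [Nontrivial ℛ] {Ξ : Set M} (hΞ : Ξ.Finite) (o : ι)
    (H : ∃ᶠ n : ℕ in atTop, ∃ (d : ι → ℤ) (c : ι → ℛˣ) (ξ : ι → M), Far n d ∧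
      (∀ a, μ (d a) (c a) < s0 ∧ ξ a ∈ Ξ) ∧ (∀ α : ℛ, α • ξ o = 0 → α = 0) ∧
      ∑ a, (c a : ℛ) • ξ a = 0) :
    ∃ σ : ℛ, σ ≠ 0 ∧ {y : ℛ | ∃ (d : ℤ) (c : ℛˣ), μ d c < s1 ∧ σ * (c : ℛ) = y}.Finite := by
  have := h.idx
  have := hΞ.to_subtype
  obtain ⟨v, hv⟩ := cend_pigeon (V := ι → Ξ × (G ⧸ Subgroup.center G))
    (Q := fun v n => ∃ (d : ι → ℤ) (c : ι → G), Far n d ∧
      (∀ a, μ (d a) (c a) < s0 ∧ QuotientGroup.mk (c a) = (v a).2) ∧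
      (∀ α : ℛ, α • ((v o).1 : M) = 0 → α = 0) ∧ ∑ a, ((c a : ℛˣ) : ℛ) • ((v a).1 : M) = 0)
    (H.mono fun n ⟨d, c, ξ, e1, e2, e3, e4⟩ =>
      ⟨fun a => (⟨ξ a, (e2 a).2⟩, QuotientGroup.mk ⟨c a, h.mem _ _ (e2 a).1⟩), d,
        fun a => ⟨c a, h.mem _ _ (e2 a).1⟩, e1, fun a => ⟨(e2 a).1, rfl⟩, e3, e4⟩)
  obtain ⟨_, _, _, _, _, hf, _⟩ := hv.exists
  refine c_ring h (fun a => (((v a).2.out : ℛˣ) : ℛ) • ((v a).1 : M)) (fun a => (v a).2.out) o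
    (fun α hα => ?_) fun G0 => ?_
  · rw [← mul_smul] at hα
    exact (Units.mul_left_eq_zero _).1 (hf _ hα)
  · obtain ⟨n, hn, d, c, e1, e2, _, e4⟩ := frequently_atTop.1 hv G0.toNat
    have hz : ∀ a, ((v a).2.out)⁻¹ * c a ∈ Subgroup.center G := fun a =>
      QuotientGroup.eq.1 ((QuotientGroup.out_eq' _).trans (e2 a).2.symm)
    have hl : ∀ a, ((v a).2.out)⁻¹ * c a * (v a).2.out = c a := fun a => by
      rw [← Subgroup.mem_center_iff.1 (hz a), mul_inv_cancel_left]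
    refine ⟨d, fun a => ((v a).2.out)⁻¹ * c a, fun a b hab => ?_, fun a => ⟨hz a, ?_⟩, ?_⟩
    · exact lt_of_le_of_lt (by omega) (e1 a b hab)
    · rw [hl]
      exact (e2 a).1
    · rw [← e4]
      refine Finset.sum_congr rfl fun a _ => ?_
      rw [← mul_smul, ← Units.val_mul, ← Subgroup.coe_mul, hl]

variable [Countable ℛ] {Ω : MS} {N : Ω.X → Submodule ℛ (ι × ℤ →₀ ℛ)} {o : ι}

/-- Off small sets the marked vectors are short units times finitely many classes. -/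
theorem cend_cover (hN : ∀ x, MeasurableSet {w | x ∈ N w}) {μ : ℤ → ℛˣ → ℝ}
    {P : ℤ → Set (ι × ℤ →₀ ℛ)} (hμ : Mu μ) (hP : ∀ᵐ w ∂Ω.ν, ∀ j, ((N w).mkQ '' P j).Finite)
    (hc : ∀ (j k : ℤ) (c : ℛˣ) (a : ι) (s : ℝ), μ (j - k) c < s →
      Ω.ν.real {w | ee a k ∉ N w ∧ ¬ ∃ ξ ∈ P j, ee a k - (c : ℛ) • ξ ∈ N w} ≤ s)
    {s : ℝ} (hs : 0 < s) :
    ∃ (L : ℤ) (d : ℤ → ℤ) (c : ℤ → ℛˣ) (Bad : ι → ℤ → Set Ω.X),
      (∀ k, |d k + k| ≤ L ∧ μ (d k) (c k) < s) ∧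
      (∀ a k, MeasurableSet (Bad a k) ∧ Ω.ν.real (Bad a k) ≤ s) ∧
      ∀ᵐ w ∂Ω.ν, ∃ Ξ : Set ((ι × ℤ →₀ ℛ) ⧸ N w), Ξ.Finite ∧ ∀ a k, w ∉ Bad a k → ee a k ∉ N w →
        ∃ ξ ∈ Ξ, (N w).mkQ (ee a k) = (c k : ℛ) • ξ := by
  obtain ⟨J, hJ⟩ := hμ.synd s hs
  choose j hj c hc' using hJ
  refine ⟨∑ i ∈ J, |i|, fun k => j k - k, c,
    fun a k => {w | ee a k ∉ N w ∧ ¬ ∃ ξ ∈ P (j k), ee a k - (c k : ℛ) • ξ ∈ N w},
    fun k => ⟨?_, hc' k⟩, fun a k => ⟨?_, hc _ _ _ _ _ (hc' k)⟩, ?_⟩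
  · rw [sub_add_cancel]
    exact Finset.single_le_sum (f := fun i : ℤ => |i|) (fun i _ => abs_nonneg i) (hj k)
  · refine (hN _).compl.inter (MeasurableSet.compl ?_)
    have e : {w | ∃ ξ ∈ P (j k), ee a k - (c k : ℛ) • ξ ∈ N w} =
        ⋃ ξ ∈ P (j k), {w | ee a k - (c k : ℛ) • ξ ∈ N w} := by
      ext w; simp
    change MeasurableSet {w | ∃ ξ ∈ P (j k), ee a k - (c k : ℛ) • ξ ∈ N w}
    rw [e]
    exact MeasurableSet.biUnion (Set.to_countable _) fun ξ _ => hN _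
  · filter_upwards [hP] with w hw
    refine ⟨⋃ i ∈ J, (N w).mkQ '' P i, J.finite_toSet.biUnion fun i _ => hw i,
      fun a k h1 h2 => ?_⟩
    obtain ⟨ξ, h3, h4⟩ := not_not.1 fun h3 => h1 ⟨h2, h3⟩
    refine ⟨(N w).mkQ ξ, Set.mem_biUnion (hj k) ⟨ξ, h3, rfl⟩, ?_⟩
    rw [← map_smul]
    exact (Submodule.Quotient.eq _).2 h4

theorem partC {ι ℛ : Type} [Fintype ι] [Ring ℛ] [Countable ℛ] {Ω : MS}
    {N : Ω.X → Submodule ℛ (ι × ℤ →₀ ℛ)} {o : ι} (h : CData Ω N o) : False := by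
  have hN : ∀ x, MeasurableSet {w | x ∈ N w} := h.rsg.meas
  obtain ⟨μ, P, hμ, hP, hc⟩ := pat_mu h
  obtain ⟨G, s0, s1, hG⟩ := grp hμ
  obtain ⟨δ, hδ, hF⟩ := h.fail
  have hs0 : 0 < s0 := hG.pos.trans_le hG.le
  have hK : (0 : ℝ) ≤ Fintype.card ι := Nat.cast_nonneg _
  obtain ⟨σ, hσ, hY⟩ : ∃ σ : ℛ, σ ≠ 0 ∧
      {y : ℛ | ∃ (d : ℤ) (c : ℛˣ), μ d c < s1 ∧ σ * (c : ℛ) = y}.Finite := by
    obtain ⟨L, d, c, Bad, h1, h2, h3⟩ := cend_cover hN hμ hP hc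
      (s := min s0 (δ / (2 * (Fintype.card ι + 1)))) (lt_min hs0 (by positivity))
    choose k hk hk' using fun n : ℕ => hF (n + 2 * L)
    have hV : ∀ n, MeasurableSet {w | ∑ a, ee a (k n a) ∈ N w ∧ ∀ a, ee a (k n a) ∉ N w} :=
      fun n => (hN _).inter (by
        change MeasurableSet {w | ∀ a, ee a (k n a) ∉ N w}
        rw [Set.ofPred_forall]
        exact MeasurableSet.iInter fun a => (hN (ee a (k n a))).compl)
    obtain ⟨w, ⟨hw1, Ξ, hΞ, hw2⟩, hw3⟩ := cend_freq (ν := Ω.ν)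
      (A := fun n => {w | ∑ a, ee a (k n a) ∈ N w ∧ ∀ a, ee a (k n a) ∉ N w} \ ⋃ a, Bad a (k n a))
      (fun n => (hV n).diff (MeasurableSet.iUnion fun a => (h2 a _).1)) (half_pos hδ)
      (fun n => by
        have e1 := le_measureReal_sdiff (μ := Ω.ν)
          (s₁ := {w | ∑ a, ee a (k n a) ∈ N w ∧ ∀ a, ee a (k n a) ∉ N w})
          (s₂ := ⋃ a, Bad a (k n a))
        have e2 := measureReal_iUnion_fintype_le (μ := Ω.ν) fun a => Bad a (k n a)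
        have e3 : ∑ a, Ω.ν.real (Bad a (k n a)) ≤
            Fintype.card ι * (δ / (2 * (Fintype.card ι + 1))) := by
          simpa using Finset.sum_le_card_nsmul Finset.univ _ _ fun a _ =>
            (h2 a (k n a)).2.trans (min_le_right _ _)
        have e4 : Fintype.card ι * (δ / (2 * (Fintype.card ι + 1))) ≤ δ / 2 := by
          rw [← mul_div_assoc, div_le_div_iff₀ (by positivity) (by positivity)]
          nlinarith
        linarith [hk' n]) (h.free.and h3)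
    obtain ⟨n0, ⟨_, hn0⟩, _⟩ := hw3.exists
    have : Nontrivial ℛ := by
      by_contra h4
      rw [not_nontrivial_iff_subsingleton] at h4
      refine hn0 o ?_
      rw [Subsingleton.elim (ee o (k n0 o)) 0]
      exact (N w).zero_mem
    refine cend_alg hG hΞ o (hw3.mono fun n ⟨⟨e1, e2⟩, e3⟩ => ?_)
    choose ξ hξ hξ' using fun a => hw2 a (k n a) (fun h4 => e3 (Set.mem_iUnion.2 ⟨a, h4⟩)) (e2 a)
    refine ⟨fun a => d (k n a), fun a => c (k n a), ξ, fun a b hab => ?_,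
      fun a => ⟨(h1 _).2.trans_le (min_le_left _ _), hξ a⟩, fun α hα => ?_, ?_⟩
    · have e4 := hk n a b hab
      have e5 := abs_le.1 (h1 (k n a)).1
      have e6 := abs_le.1 (h1 (k n b)).1
      change (n : ℤ) < |d (k n a) - d (k n b)|
      rw [lt_abs] at e4 ⊢
      omega
    · have e4 : (N w).mkQ ((α * ((c (k n o))⁻¹ : ℛˣ)) • ee o (k n o)) = 0 := by
        rw [map_smul, hξ', ← mul_smul, Units.inv_mul_cancel_right, hα]
      have e5 := (Submodule.Quotient.mk_eq_zero _).1 e4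
      rw [ee, Finsupp.smul_single, smul_eq_mul, mul_one] at e5
      exact (Units.mul_left_eq_zero _).1 ((hw1 _ _ e5).resolve_right (e2 o))
    · simp only [← hξ']
      rw [← map_sum]
      exact (Submodule.Quotient.mk_eq_zero _).2 e1
  obtain ⟨B, hB, hB0, hB1, hB2⟩ := h.nr σ hσ
  have hβ : 0 < Ω.ν.real B := ENNReal.toReal_pos hB0 (measure_ne_top _ _)
  obtain ⟨L, d, c, Bad, h1, h2, h3⟩ := cend_cover hN hμ hP hc
    (s := min s1 (Ω.ν.real B / 2)) (lt_min hG.pos (half_pos hβ))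
  refine ph (ν := Ω.ν) (good := fun k => Ω.T k ⁻¹' B \ Bad o k)
    (E := fun k l => {w | σ • (ee o (k : ℤ) - ee o (l : ℤ)) ∈ N w}) (half_pos hβ)
    (fun k => (Ω.sys.meas k hB).diff (h2 o k).1) (fun k l => hN _)
    (fun l => measureReal_nonneg) (fun k => ?_) (fun k l hkl => ?_) hB2 ?_
  · have e1 := le_measureReal_sdiff (μ := Ω.ν) (s₁ := Ω.T k ⁻¹' B) (s₂ := Bad o k)
    rw [(Ω.sys.mp k).measureReal_preimage hB.nullMeasurableSet] at e1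
    linarith [(h2 o k).2.trans (min_le_right _ _)]
  · have hm : MeasurableSet {w | w ∈ B ∧ Ω.T ((l - k : ℕ) : ℤ) w ∈ B ∧
        σ • (ee o 0 - ee o ((l - k : ℕ) : ℤ)) ∈ N w} :=
      hB.inter ((Ω.sys.meas _ hB).inter (hN _))
    rw [← (Ω.sys.mp k).measureReal_preimage hm.nullMeasurableSet]
    refine ENNReal.toReal_mono (measure_ne_top _ _) (measure_mono_ae ?_)
    have e0 : ((l - k : ℕ) : ℤ) + k = l := by omega
    filter_upwards [h.rsg.eqv] with w hw ⟨⟨e1, e2⟩, e3⟩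
    refine ⟨e1.1, ?_, (hw k _).2 ?_⟩
    · rw [← Ω.sys.add, e0]
      exact e2.1
    · rw [tau_smul, map_sub, tau_ee, tau_ee, zero_add, e0]
      exact e3
  · filter_upwards [h.rsg.eqv, h3] with w hw ⟨Ξ, hΞ, hw2⟩
    refine ⟨_, Set.image2 (fun (y : ℛ) ξ => y • ξ) _ Ξ, fun k => (N w).mkQ (σ • ee o (k : ℤ)),
      hY.image2 _ hΞ, fun k hk => ?_, fun k l _ _ _ e => ?_⟩
    · obtain ⟨ξ, e1, e2⟩ := hw2 o k hk.2 fun h4 => hB1 _ hk.1 ((hw k _).2 (by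
        rw [tau_ee, zero_add]
        exact h4))
      refine ⟨σ * c k, ⟨d k, c k, (h1 k).2.trans_le (min_le_left _ _), rfl⟩, ξ, e1, ?_⟩
      simp only [map_smul, e2, mul_smul]
    · rw [smul_sub]
      exact (Submodule.Quotient.eq _).1 e

end Pool.Agent.Lib.MP_1db5af_an.Th
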