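import Pool.Agent.Lib.MP_1db5af_an.Th.GOut
import Pool.Agent.Lib.MP_1db5af_an.Th.CEnd

set_option autoImplicit false

namespace Pool.Agent.Lib.MP_1db5af_an.Th

open MeasureTheory ProbabilityTheory Filter Topology ComplexConjugate
open scoped ENNReal NNReal InnerProductSpace

theorem gend_hit {Ω : MS} (he : Ergodic (Ω.T 1) Ω.ν) {W : Ω.X → Set Ω.X}
    (hW : MeasurableSet {p : Ω.X × Ω.X | p.2 ∈ W p.1}) :
    ∀ᵐ x ∂Ω.ν, ∀ᵐ r ∂Ω.ν, Ω.ν (W r) ≠ 0 → ∃ j, Ω.T j x ∈ W r := by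
  refine (Measure.ae_ae_comm (p := fun r x => Ω.ν (W r) ≠ 0 → ∃ j, Ω.T j x ∈ W r) ?_).1
    (Eventually.of_forall fun r => ?_)
  · refine measurableSet_setOfPred.2 (Measurable.imp (Measurable.not ?_) (Measurable.exists fun j =>
      hW.mem.comp (measurable_fst.prodMk ((Ω.sys.meas j).comp measurable_snd))))
    exact measurableSet_setOfPred.1 (measurableSet_eq_fun
      ((measurable_measure_prodMk_left (ν := Ω.ν) hW).comp measurable_fst) measurable_const)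
  · have h1 : MeasurableSet (W r) := measurable_prodMk_left hW
    rcases he.ae_mem_or_ae_notMem (s := ⋃ j, Ω.T j ⁻¹' W r)
      (MeasurableSet.iUnion fun j => Ω.sys.meas j h1) (by
        ext x
        simp only [Set.mem_preimage, Set.mem_iUnion, ← Ω.sys.add]
        exact ⟨fun ⟨j, h⟩ => ⟨_, h⟩, fun ⟨j, h⟩ => ⟨j - 1, by rwa [sub_add_cancel]⟩⟩) with h | h
    · exact h.mono fun x hx _ => Set.mem_iUnion.1 hx
    · refine Eventually.of_forall fun x h2 => absurd (measure_eq_zero_iff_ae_notMem.2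
        (h.mono fun y hy h3 => hy (Set.mem_iUnion.2 ⟨0, ?_⟩))) h2
      rwa [Set.mem_preimage, Ω.sys.zero]

theorem gend_visits {Ω : MS} {E : Set Ω.X} (hE : MeasurableSet E) (h0 : Ω.ν E ≠ 0) (D : ℕ) :
    ∃ m : ℕ, ∀ p : Ω.X → Prop, (∀ᵐ w ∂Ω.ν, p w) → ∀ s : Finset ℤ, s.card = m →
      ∃ w, p w ∧ ∃ t ⊆ s, D < t.card ∧ ∀ k ∈ t, Ω.T k w ∈ E := by
  classical
  obtain ⟨m, hm⟩ := ENNReal.exists_nat_mul_gt h0 (b := D * Ω.ν Set.univ) (by finiteness)
  refine ⟨m, fun p hp s hs => ?_⟩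
  by_contra hc
  refine absurd hm (not_lt.2 ?_)
  have h1 : ∀ k, MeasurableSet (Ω.T k ⁻¹' E) := fun k => Ω.sys.meas k hE
  calc m * Ω.ν E = ∑ k ∈ s, ∫⁻ r, (Ω.T k ⁻¹' E).indicator 1 r ∂Ω.ν := by
        simp only [lintegral_indicator_one (h1 _),
          (Ω.sys.mp _).measure_preimage hE.nullMeasurableSet, Finset.sum_const, hs, nsmul_eq_mul]
    _ ≤ _ := by
        rw [← lintegral_finsetSum _ fun k _ => measurable_one.indicator (h1 k), ← lintegral_const]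
        refine lintegral_mono_ae (hp.mono fun r hr => ?_)
        have h2 : (s.filter fun k => Ω.T k r ∈ E).card ≤ D := not_lt.1 fun h2 =>
          hc ⟨r, hr, _, Finset.filter_subset _ _, h2, fun k hk => (Finset.mem_filter.1 hk).2⟩
        simp only [Set.indicator_apply, Set.mem_preimage, Pi.one_apply, Finset.sum_boole]
        exact_mod_cast h2

theorem arr_false {ι : Type} [Fintype ι] [Nonempty ι] (Ω : MS) (he : Ergodic (Ω.T 1) Ω.ν)
    {R : Ω.X → AddSubgroup (AA ι)} {B : ι → Set Ω.X}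
    {C : ι → ι → Ω.X × Ω.X → AddSubgroup (AA ι × AA ι)} {D : ℕ} (hR : Rsg Ω (tau ι ℤ) R)
    (hC : Clo Ω (tau ι ℤ) R) (hS : GSimple Ω R) (hA : ArrOut Ω R B C D) : False := by
  classical
  obtain ⟨o⟩ : Nonempty ι := inferInstance
  obtain ⟨δ, hδ, hF⟩ := hA.fail
  have hB : Ω.ν (B o) ≠ 0 := fun h0 => by
    obtain ⟨k, _, hk⟩ := hF 0
    rw [← (Ω.sys.mp (k o)).measure_preimage (hA.mB o).nullMeasurableSet] at h0
    have h1 : Ω.ν {w | ∑ a, ee a (k a) ∈ R w ∧ ∀ a, Ω.T (k a) w ∈ B a} = 0 :=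
      measure_mono_null (fun w hw => hw.2 o) h0
    rw [Measure.real, h1] at hk
    exact absurd hk (not_le.2 hδ)
  have h0 : Ω.ν ≠ 0 := fun e => hB (by rw [e]; rfl)
  have : (ae Ω.ν).NeBot := ae_neBot.2 h0
  let W : ℤ → ℤ → Ω.X → Set Ω.X := fun k l r =>
    {w | Ω.T k w ∈ B o ∧ Ω.T l w ∈ B o ∧ LL Ω C o o k k r w = LL Ω C o o l l r w}
  have hW : ∀ k l, MeasurableSet {p : Ω.X × Ω.X | p.2 ∈ W k l p.1} := fun k l => by
    refine (((Ω.sys.meas k).comp measurable_snd) (hA.mB o)).inter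
      ((((Ω.sys.meas l).comp measurable_snd) (hA.mB o)).inter ?_)
    change MeasurableSet {p : Ω.X × Ω.X | LL Ω C o o k k p.1 p.2 = LL Ω C o o l l p.1 p.2}
    simp only [SetLike.ext_iff]
    exact measurableSet_setOfPred.2 (Measurable.forall fun y =>
      (measurableSet_setOfPred.1 (g_meas_ll hA measurable_fst measurable_snd _ _ _ _ y)).iff
        (measurableSet_setOfPred.1 (g_meas_ll hA measurable_fst measurable_snd _ _ _ _ y)))
  obtain ⟨z, ⟨z1, _⟩, z2, z3⟩ := Measure.exists_mem_of_measure_ne_zero_of_ae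
    (μ := Ω.ν.prod Ω.ν) (s := B o ×ˢ Set.univ) (by
      rw [Measure.prod_prod]
      exact mul_ne_zero hB (Measure.measure_univ_ne_zero.2 h0))
    (ae_restrict_of_ae ((g_good4 hR hC hS hA).and (Measure.quasiMeasurePreserving_snd.ae
      (ae_all_iff.2 fun k => ae_all_iff.2 fun l => gend_hit he (hW k l)))))
  have hw : ∀ᵐ w ∂Ω.ν, ∃ r, Good Ω R B C (gp4 z (w, r)) :=
    (Measure.ae_ae_of_ae_prod z2).mono fun w hw => hw.exists
  have hr : ∀ᵐ r ∂Ω.ν, ∀ᵐ w ∂Ω.ν, Good Ω R B C (gp4 z (w, r)) :=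
    Measure.ae_ae_of_ae_prod (Measure.measurePreserving_swap.quasiMeasurePreserving.ae z2)
  obtain ⟨w1, r1, hz'⟩ := hw.exists
  have c : Ctx Ω R B C o z := ⟨hz'.map (f := fun b => (false, b)) fun _ _ e => (Prod.mk.inj e).2,
    by rwa [Ω.sys.zero]⟩
  have := c.countable
  have hN := c.meas_N hR hA
  have hc := Measure.ae_ae_of_ae_prod hA.count
  refine partC (Ω := Ω) (N := c.N) (o := o) ⟨⟨hN, ?_⟩, ?_, ⟨Fintype.card ι * D, ?_⟩, ?_,
    ⟨δ, hδ, fun G => ?_⟩, fun σ hσ => ?_⟩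
  · filter_upwards [hw, hR.eqv] with w ⟨r, hp⟩ e k f using c.eqv hp false (e k) f
  · filter_upwards [hw] with w ⟨r, hp⟩ using c.free hp false
  · filter_upwards [hr, hc] with r e1 e2 h1
    filter_upwards [e1, e2] with w hp e3 using c.count hp h1 (e3 o)
  · obtain ⟨m, hm⟩ := gend_visits (hA.mB o) hB D
    refine ⟨m, ?_⟩
    filter_upwards [hr, hc, ae_all_iff.2 fun k => ae_all_iff.2 (z3 k)] with r e1 e2 e3 s e4 e5
    obtain ⟨w0, hp⟩ := e1.exists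
    have e6 : ∀ k ∈ s, Ω.T k r ∈ B o := fun k hk => (c.ee_iff hp true o k).1 (e4 k hk)
    have e7 : ∀ᵐ w ∂Ω.ν, ∀ k l, k ∈ s → l ∈ s → k ≠ l → w ∉ W k l r := by
      simp only [ae_all_iff]
      intro k l hk hl hkl
      by_contra h1
      obtain ⟨j, h2⟩ := e3 k l fun h2 => h1 (measure_eq_zero_iff_ae_notMem.1 h2)
      obtain ⟨u, hu⟩ := c.orb hp true (e6 k hk) (e6 l hl) h2.1 h2.2.1 h2.2.2
      exact e5 k hk l hl hkl u hu
    by_contra h1
    obtain ⟨s', h2, h3⟩ := Finset.exists_subset_card_eq (not_le.1 h1).le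
    obtain ⟨w, ⟨e8, e9⟩, t, h4, h5, h6⟩ := hm _ (e2.and e7) s' h3
    refine absurd h5 (not_lt.2 ?_)
    have h7 := le_trans (Set.encard_le_encard_of_injOn (s := (t : Set ℤ))
      (t := {g | ∃ k, Ω.T k r ∈ B o ∧ Ω.T k w ∈ B o ∧ g = LL Ω C o o k k r w})
      (f := fun k => LL Ω C o o k k r w) (fun k hk => ⟨k, e6 k (h2 (h4 hk)), h6 k hk, rfl⟩)
      fun k hk l hl e => not_not.1 fun hkl => e9 k l (h2 (h4 hk)) (h2 (h4 hl)) hkl
        ⟨h6 k hk, h6 l hl, e⟩) (e8 o o)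
    rwa [Set.encard_coe_eq_coe_finsetCard, Nat.cast_le] at h7
  · obtain ⟨k, e1, e2⟩ := hF G
    refine ⟨k, e1, e2.trans (ENNReal.toReal_mono (measure_ne_top _ _) (measure_mono_ae ?_))⟩
    filter_upwards [hw] with w ⟨r, hp⟩ e3 using
      ⟨c.fail hp false e3.1 e3.2, fun a => (c.ee_iff hp false a _).2 (e3.2 a)⟩
  · let E : AA ι × AA ι → Set Ω.X := fun y => {w | ee o 0 ∉ c.N w} ∩
      ({w | y ∈ gcomp (c.rep σ) (gpsi Ω R B C o z.1 w (o, 0))} ∩ {w | y.2 ∉ R w})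
    obtain ⟨y, hy⟩ : ∃ y, Ω.ν (E y) ≠ 0 := by
      by_contra h1
      refine hB (le_zero_iff.1 (le_of_le_of_eq (measure_mono_ae ?_)
        (measure_iUnion_null fun y => not_not.1 fun h2 => h1 ⟨y, h2⟩)))
      filter_upwards [hw] with w ⟨r, hp⟩ h2
      have h3 := (c.ee_iff hp false o 0).2 (by rwa [Ω.sys.zero])
      obtain ⟨y, h4, h5⟩ := c.nr1 hp false hσ h3
      exact Set.mem_iUnion.2 ⟨y, h3, h4, h5⟩
    refine ⟨E y, (hN _).compl.inter ((gcomp_meas (gpsi_meas hR hA _ _) _ y).inter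
      (hR.meas _).compl), hy, fun w h1 => h1.1, nul_mono (fun _ => measureReal_nonneg)
      (fun l => ENNReal.toReal_mono (measure_ne_top _ _) (measure_mono_ae ?_)) (hC y.2 y.2)⟩
    filter_upwards [hw, hR.eqv] with w ⟨r, hp⟩ e1 ⟨e2, ⟨_, ⟨x, e3, e4⟩, _⟩, e5⟩
    refine ⟨trivial, e2.2.2, c.nr2 hp false e2.2.1 ⟨x, e3, ?_⟩ e5⟩
    have e6 := (gpsi_shift (e1 l) _ _ _).1 e4
    rwa [shI, zero_add] at e6

end Pool.Agent.Lib.MP_1db5af_an.Th
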