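import Pool.Agent.Lib.MP_1db5af_an.Th.BRed
import Pool.Agent.Lib.MP_1db5af_an.Th.BDist
import Pool.Agent.Lib.MP_1db5af_an.Th.BGood
import Pool.Agent.Lib.MP_1db5af_an.Th.BGap
import Pool.Agent.Lib.MP_1db5af_an.Th.BFin
import Pool.Agent.Lib.MP_1db5af_an.Th.BSimp
import Pool.Agent.Lib.MP_1db5af_an.Th.BArr
import Pool.Agent.Lib.MP_1db5af_an.Th.GEnd

set_option autoImplicit false

namespace Pool.Agent.Lib.MP_1db5af_an.Th

theorem ha_step {ι : Type} [Fintype ι] {u : ι → ℕ → ℤ} (hu : PW u) (hc : 2 ≤ Fintype.card ι)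
    (hp : ∀ J : Finset ι, J ≠ Finset.univ → HA u J) : HA u Finset.univ := by
  by_contra h
  have h2 : ∃ a b : ι, a ≠ b := Fintype.exists_pair_of_one_lt_card hc
  obtain ⟨Z, R, hB⟩ := b_red hp h
  obtain ⟨d, hd⟩ := b_dist hu hp hB
  obtain ⟨G, D, hG, hf⟩ := b_good (Fintype.exists_ne_of_one_lt_card hc) hB hd
  obtain ⟨o, -⟩ := id h2
  have : Nonempty ι := ⟨o⟩
  obtain ⟨m, _, he, hm⟩ := b_fin hB hd hG (b_gap hB hd hG hf)
  obtain ⟨Z', R', hB', hS⟩ := b_simp hB hd he hm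
  obtain ⟨B, C, D', hA⟩ := b_arr h2 hu hp hB' hS
  exact arr_false Z'.toMS hB'.erg hB'.rsg hB'.clo hS hA

end Pool.Agent.Lib.MP_1db5af_an.Th
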