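import Pool.Agent.Lib.MP_1db5af_an.Th.BAux

set_option autoImplicit false

namespace Pool.Agent.Lib.MP_1db5af_an.Th

open MeasureTheory ProbabilityTheory Filter Topology ComplexConjugate
open scoped ENNReal NNReal InnerProductSpace

theorem bmin_inv {X : Type} [MeasurableSpace X] {T : ℤ → X → X} (h : MAct T) {A : Set X}
    (hA : T 1 ⁻¹' A = A) (k : ℤ) (x : X) : T k x ∈ A ↔ x ∈ A := by
  have h1 : ∀ y, T 1 y ∈ A ↔ y ∈ A := fun y => Set.ext_iff.1 hA y
  induction k using Int.induction_on with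
  | zero => rw [h.zero]
  | succ i ih => rw [add_comm, h.add, h1]; exact ih
  | pred i ih => rw [← h1, ← h.add, add_sub_cancel]; exact ih

theorem bmin_split {X : Type} [MeasurableSpace X] (ν : Measure X) [IsFiniteMeasure ν]
    {E : ℕ → Set X} (A : Set X) {B : Set X} (hB : MeasurableSet B)
    (h1 : Nul fun n => ν.real (A ∩ B ∩ E n)) (h2 : Nul fun n => ν.real (A ∩ Bᶜ ∩ E n)) :
    Nul fun n => ν.real (A ∩ E n) := by
  refine nul_mono (fun n => measureReal_nonneg) (fun n => le_of_eq ?_) (nul_add h1 h2)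
  rw [← measureReal_inter_add_sdiff (s := A ∩ E n) hB, Set.inter_right_comm A B,
    Set.inter_right_comm A Bᶜ, Set.sdiff_eq]

theorem bmin_piece (Ω : MS)
    (h1 : ∀ E, MeasurableSet E → Ω.T 1 ⁻¹' E = E → Ω.ν E ≠ 0 → 1 ≤ Ω.ν E) (E : ℕ → Set Ω.X)
    (k : ℕ) : ∀ A, MeasurableSet A → Ω.T 1 ⁻¹' A = A → (¬ Nul fun n => Ω.ν.real (A ∩ E n)) →
      Ω.ν.real A ≤ k → ∃ A, MeasurableSet A ∧ Ω.T 1 ⁻¹' A = A ∧
        (¬ Nul fun n => Ω.ν.real (A ∩ E n)) ∧
        ∀ B, MeasurableSet B → Ω.T 1 ⁻¹' B = B → Ω.ν (A ∩ B) = 0 ∨ Ω.ν (A ∩ Bᶜ) = 0 := by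
  induction k with
  | zero =>
    intro A _ _ h3 h4
    refine absurd (nul_mono (fun n => measureReal_nonneg) (fun n => ?_)
      (nul_finsum (∅ : Finset ℕ) (p := fun _ _ => 0) fun _ h =>
        absurd h (Finset.notMem_empty _))) h3
    exact (measureReal_mono Set.inter_subset_left).trans (by simpa using h4)
  | succ k ih =>
    intro A hA h2 h3 h4
    by_cases hc : ∀ B, MeasurableSet B → Ω.T 1 ⁻¹' B = B → Ω.ν (A ∩ B) = 0 ∨ Ω.ν (A ∩ Bᶜ) = 0
    · exact ⟨A, hA, h2, h3, hc⟩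
    push Not at hc
    obtain ⟨B, hB, hi, n1, n2⟩ := hc
    have i1 : Ω.T 1 ⁻¹' (A ∩ B) = A ∩ B := by rw [Set.preimage_inter, h2, hi]
    have i2 : Ω.T 1 ⁻¹' (A ∩ Bᶜ) = A ∩ Bᶜ := by
      rw [Set.preimage_inter, Set.preimage_compl, h2, hi]
    have g : ∀ D, 1 ≤ Ω.ν D → 1 ≤ Ω.ν.real D := fun D hD => by
      simpa [Measure.real] using ENNReal.toReal_mono (measure_ne_top _ _) hD
    have m1 := g _ (h1 _ (hA.inter hB) i1 n1)
    have m2 := g _ (h1 _ (hA.inter hB.compl) i2 n2)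
    have e : Ω.ν.real (A ∩ B) + Ω.ν.real (A ∩ Bᶜ) = Ω.ν.real A :=
      measureReal_inter_add_sdiff (s := A) hB
    push_cast at h4
    by_cases k1 : Nul fun n => Ω.ν.real (A ∩ B ∩ E n)
    · exact ih _ (hA.inter hB.compl) i2 (fun k2 => h3 (bmin_split _ A hB k1 k2)) (by linarith)
    · exact ih _ (hA.inter hB) i1 k1 (by linarith)

/-- A finite invariant measure whose invariant sets have measure zero or at least one has an
ergodic piece on which the failure persists. -/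
theorem b_min (Ω : MS)
    (h1 : ∀ E, MeasurableSet E → Ω.T 1 ⁻¹' E = E → Ω.ν E ≠ 0 → 1 ≤ Ω.ν E)
    {E : ℕ → Set Ω.X} (hE : ∀ n, MeasurableSet (E n)) (h : ¬ Nul fun n => Ω.ν.real (E n)) :
    ∃ (μ : Measure Ω.X) (_ : IsProbabilityMeasure μ), Sys μ Ω.T ∧ μ ≪ Ω.ν ∧ Ergodic (Ω.T 1) μ ∧
      ¬ Nul fun n => μ.real (E n) := by
  obtain ⟨A, hA, h2, h3, h4⟩ := bmin_piece Ω h1 E ⌈Ω.ν.real Set.univ⌉₊ Set.univ
    MeasurableSet.univ Set.preimage_univ (by simpa using h) (Nat.le_ceil _)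
  have h0 : Ω.ν A ≠ 0 := fun e => h3 (nul_mono (fun n => measureReal_nonneg) (fun n => by
      refine (measureReal_mono Set.inter_subset_left).trans ?_
      simp [Measure.real, e])
    (nul_finsum (∅ : Finset ℕ) (p := fun _ _ => 0) fun _ h => absurd h (Finset.notMem_empty _)))
  have hs : Sys (Ω.ν[|A]) Ω.T :=
    sys_smul (sys_restrict Ω.sys hA fun k =>
      Eventually.of_forall (bmin_inv Ω.sys.toMAct h2 k)) _
  refine ⟨Ω.ν[|A], cond_isProbabilityMeasure h0, hs, cond_absolutelyContinuous,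
    ⟨hs.mp 1, ⟨fun B hB hi => eventuallyConst_set'.2 ?_⟩⟩, fun hn => h3 ?_⟩
  · refine (h4 B hB hi).imp (fun e => ae_eq_empty.2 ?_) fun e => ae_eq_univ.2 ?_
    · rw [cond_apply hA, e, mul_zero]
    · rw [cond_apply hA, e, mul_zero]
  · refine nul_mono (fun n => measureReal_nonneg) (fun n => le_of_eq ?_)
      (nul_mul (Ω.ν.real A) hn)
    rw [Measure.real, Measure.real, Measure.real, cond_apply hA, ← ENNReal.toReal_mul,
      ← mul_assoc, ENNReal.mul_inv_cancel h0 (measure_ne_top _ _), one_mul]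

end Pool.Agent.Lib.MP_1db5af_an.Th
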