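import Pool.Agent.Lib.MP_1db5af_an.Th.BErg
import Pool.Agent.Lib.MP_1db5af_an.Th.BAux

set_option autoImplicit false

namespace Pool.Agent.Lib.MP_1db5af_an.Th

open MeasureTheory ProbabilityTheory Filter Topology ComplexConjugate
open scoped ENNReal NNReal InnerProductSpace

variable {ι : Type} [Fintype ι] {u : ι → ℕ → ℤ}

/-- A failure of the statement is a failure with all terms outside the subgroup. -/
theorem bred_all (hp : HAp u) {A : Type} [AddCommGroup A] [Countable A] {τ : ℤ → A →+ A}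
    (hτ : Act τ) {Ω : MS} {R : Ω.X → AddSubgroup A} (hR : Rsg Ω τ R) (hC : Clo Ω τ R) (x : ι → A)
    (a0 : ι) (h : Nul fun n => Ω.ν.real
      {ω | ∑ a, τ (u a n) (x a) ∈ R ω ∧ ∀ a, τ (u a n) (x a) ∉ R ω}) :
    Nul fun n => Ω.ν.real {ω | ∑ a, τ (u a n) (x a) ∈ R ω ∧ τ (u a0 n) (x a0) ∉ R ω} := by
  classical
  have h1 := nul_finsum (Finset.univ.erase a0) fun b hb =>
    hp (Finset.univ.erase b) (Finset.erase_ssubset (Finset.mem_univ b)).ne A τ hτ Ω R hR hC x a0
      (Finset.mem_erase.2 ⟨(Finset.ne_of_mem_erase hb).symm, Finset.mem_univ _⟩)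
  refine nul_mono (fun _ => measureReal_nonneg) (fun n => ?_) (nul_add h h1)
  refine le_trans ?_ (add_le_add le_rfl (measureReal_biUnion_finset_le _ _))
  refine le_trans (measureReal_mono (fun ω hω => ?_) (measure_ne_top _ _))
    (measureReal_union_le _ _)
  by_cases h2 : ∀ a, τ (u a n) (x a) ∉ R ω
  · exact Or.inl ⟨hω.1, h2⟩
  obtain ⟨b, hb⟩ := not_forall.1 h2
  rw [not_not] at hb
  refine Or.inr (Set.mem_iUnion₂.2 ⟨b, Finset.mem_erase.2 ⟨fun e => hω.2 (e ▸ hb),
    Finset.mem_univ _⟩, ?_, hω.2⟩)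
  rw [Finset.sum_erase_eq_sub (Finset.mem_univ b)]
  exact sub_mem hω.1 hb

theorem b_red (hp : HAp u) (h : ¬ HA u Finset.univ) :
    ∃ (Z : CS) (R : Z.X → AddSubgroup (AA ι)), Base u Z R := by
  simp only [HA, not_forall] at h
  obtain ⟨A, _, _, τ, hτ, Ω, R, hR, hC, x, a0, -, hN⟩ := h
  let φ : AA ι →+ A :=
    (Finsupp.linearCombination ℤ fun i : ι × ℤ => τ i.2 (x i.1)).toAddMonoidHom
  have hs : ∀ i c, φ (Finsupp.single i c) = c • τ i.2 (x i.1) := fun i c =>
    Finsupp.linearCombination_single ℤ c i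
  have he : ∀ a k, φ (ee a k) = τ k (x a) := fun a k => (hs (a, k) 1).trans (one_smul _ _)
  have hφ : ∀ k y, φ (tau ι ℤ k y) = τ k (φ y) := fun k =>
    DFunLike.congr_fun (Finsupp.addHom_ext (f := φ.comp (tau ι ℤ k)) (g := (τ k).comp φ)
      fun i c => by
        rw [AddMonoidHom.comp_apply, AddMonoidHom.comp_apply, tau_single, hs, hs, map_zsmul,
          ← hτ.add, add_comm]
        rfl)
  have hK := hR.comap hφ
  have hπ := meas_enc hK.meas
  let Ω' : MS :=
    { X := AA ι → Bool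
      ν := Ω.ν.map fun ω => enc ((R ω).comap φ)
      T := shS (tau ι ℤ)
      sys := sys_map Ω.sys (mact_shS act_tau) hπ fun k => hK.enc_eqv.mono fun _ h => h k }
  have hR' : Rsg Ω' (tau ι ℤ) fun s => dec s :=
    rsg_dec (Ω := Ω') (s := id) act_tau measurable_id fun _ => ae_of_all _ fun _ => rfl
  have hm : ∀ E : Set (AA ι → Bool), MeasurableSet E →
      Ω'.ν.real E = Ω.ν.real {ω | enc ((R ω).comap φ) ∈ E} := fun E hE =>
    map_measureReal_apply hπ hE
  have hC' : Clo Ω' (tau ι ℤ) fun s => dec s := fun y y' => by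
    have h1 := hC.comap hφ y y'
    refine Eq.mp (congrArg Nul (funext fun l => ?_)) h1
    refine Eq.trans ?_
      (hm _ ((MeasurableSet.const _).inter ((meas_dec _).compl.inter (meas_dec _)))).symm
    simp only [Set.mem_inter_iff, Set.mem_compl_iff, Set.mem_ofPred_eq, dec_enc]
    rfl
  have hE : ∀ n, MeasurableSet
      {s : AA ι → Bool | SumIn u n (dec s) ∧ ∀ a, ee a (u a n) ∉ dec s} := fun n =>
    (meas_dec _).inter (measurableSet_setOfPred.2 (Measurable.forall fun a =>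
      measurableSet_setOfPred.1 (meas_dec _).compl))
  obtain ⟨μ, _, hs', h1, h2, h3, h4⟩ := b_erg Ω' act_tau hR' hC' hE fun h1 => by
    refine hN (bred_all hp hτ hR hC x a0 (Eq.mp (congrArg Nul (funext fun n => ?_)) h1))
    rw [hm _ (hE n)]
    simp only [Set.mem_ofPred_eq, dec_enc, SumIn, AddSubgroup.mem_comap, map_sum, he]
  exact ⟨{ X := AA ι → Bool, μ := μ, T := shS (tau ι ℤ), sys := hs' }, fun s => dec s,
    h1, h2, h3, h4⟩

end Pool.Agent.Lib.MP_1db5af_an.Th
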