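import Pool.Agent.Lib.MP_1db5af_an.Th.BAux
import Pool.Agent.Lib.MP_1db5af_an.Th.Wk

set_option autoImplicit false

namespace Pool.Agent.Lib.MP_1db5af_an.Th

open MeasureTheory ProbabilityTheory Filter Topology ComplexConjugate
open scoped ENNReal NNReal InnerProductSpace

theorem bwk_set {X : Type} [MeasurableSpace X] {ν : Measure X} [IsProbabilityMeasure ν]
    {T : ℤ → X → X} (hT : Sys ν T) {d : ℕ → ℤ} (hd : WD d) {A B : Set X} (hA : MeasurableSet A)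
    (hB : MeasurableSet B) : ∃ L : ℝ,
    Tendsto (av fun n => ν.real (A ∩ T (d n) ⁻¹' B)) atTop (𝓝 L) ∧
    Tendsto (av fun l : ℕ => ν.real (A ∩ T l ⁻¹' B)) atTop (𝓝 L) := by
  have hb : ∀ {D : Set X}, MeasurableSet D → Bd ν 1 (D.indicator fun _ => (1 : ℂ)) := fun hD =>
    ⟨(measurable_const.indicator hD).aestronglyMeasurable, ae_of_all _ fun x =>
      (norm_indicator_le_norm_self _ x).trans norm_one.le⟩
  have e : ∀ k : ℤ, ν.real (A ∩ T k ⁻¹' B) = Complex.reCLM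
      (∫ x, A.indicator (fun _ => (1 : ℂ)) x * B.indicator (fun _ => (1 : ℂ)) (T k x) ∂ν) := by
    intro k
    have e1 : (fun x => A.indicator (fun _ => (1 : ℂ)) x * B.indicator (fun _ => (1 : ℂ)) (T k x)) =
        (A ∩ T k ⁻¹' B).indicator fun _ => (1 : ℂ) := by
      funext x
      by_cases h1 : x ∈ A <;> by_cases h2 : T k x ∈ B <;> simp [Set.indicator, h1, h2]
    rw [e1, integral_indicator_const _ (hA.inter (hT.meas k hB))]
    simp
  obtain ⟨L, h1, h2⟩ := wk hT hd (hb hA) (hb hB)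
  refine ⟨Complex.reCLM L, ((Complex.reCLM.continuous.tendsto L).comp h1).congr fun N => ?_,
    ((Complex.reCLM.continuous.tendsto L).comp h2).congr fun N => ?_⟩ <;>
  simp only [e, av_map, Function.comp]

theorem b_wkpow (Z : CS) {S : Type} [MeasurableSpace S] {TS : ℤ → S → S} (hS : MAct TS)
    (Λ : Kernel Z.X S) [IsMarkovKernel Λ] (hΛ : EqvK Z.μ Z.T TS Λ) {P P' : Set S}
    (hP : MeasurableSet P) (hP' : MeasurableSet P') {d : ℕ → ℤ} (hd : WD d) (m : ℕ) {E : Set Z.X}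
    (hE : MeasurableSet E) : ∃ L : ℝ,
    Tendsto (av fun n => ∫ ω in E, (Λ ω).real {s | s ∈ P ↔ TS (d n) s ∈ P'} ^ m ∂Z.μ) atTop (𝓝 L) ∧
    Tendsto (av fun l : ℕ => ∫ ω in E, (Λ ω).real {s | s ∈ P ↔ TS l s ∈ P'} ^ m ∂Z.μ) atTop
      (𝓝 L) := by
  obtain ⟨Q, _, hQ⟩ := exists_piK fun _ : Fin m => Λ
  have hs : Sys (Z.μ ⊗ₘ Q) (prodT Z.T (piT TS)) :=
    sys_compProd Z.sys (mact_pi hS) (eqv_pi hS (fun _ => hΛ) hQ)
  have hm : ∀ {D : Set S}, MeasurableSet D → ∀ q : Fin m → Prop,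
      MeasurableSet {p : Z.X × (Fin m → S) | ∀ i, p.2 i ∈ D ↔ q i} := fun hD q =>
    Measurable.setOf (Measurable.forall fun i =>
      (((measurable_pi_apply i).comp measurable_snd hD).mem).iff measurable_const)
  have hA : ∀ q : Fin m → Prop,
      MeasurableSet (Prod.fst ⁻¹' E ∩ {p : Z.X × (Fin m → S) | ∀ i, p.2 i ∈ P ↔ q i}) :=
    fun q => (measurable_fst hE).inter (hm hP q)
  choose L h1 h2 using fun q => bwk_set hs hd (hA q) (hm hP' q)
  have e : ∀ k : ℤ, ∫ ω in E, (Λ ω).real {s | s ∈ P ↔ TS k s ∈ P'} ^ m ∂Z.μ =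
      ∑ q : Fin m → Prop, (Z.μ ⊗ₘ Q).real ((Prod.fst ⁻¹' E ∩ {p | ∀ i, p.2 i ∈ P ↔ q i}) ∩
        prodT Z.T (piT TS) k ⁻¹' {p | ∀ i, p.2 i ∈ P' ↔ q i}) := by
    intro k
    have hD : MeasurableSet {s | s ∈ P ↔ TS k s ∈ P'} :=
      Measurable.setOf (hP.mem.iff (hS.meas k hP').mem)
    have hD' := MeasurableSet.univ_pi fun _ : Fin m => hD
    rw [← measureReal_iUnion_fintype (fun q q' hq => Set.disjoint_left.2 fun p h h' =>
      hq (funext fun i => propext ((h.1.2 i).symm.trans (h'.1.2 i))))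
      (fun q => (hA q).inter (hs.meas k (hm hP' q)))]
    have e1 : (⋃ q : Fin m → Prop,
        (Prod.fst ⁻¹' E ∩ {p : Z.X × (Fin m → S) | ∀ i, p.2 i ∈ P ↔ q i}) ∩
        prodT Z.T (piT TS) k ⁻¹' {p | ∀ i, p.2 i ∈ P' ↔ q i}) =
        E ×ˢ Set.univ.pi fun _ : Fin m => {s | s ∈ P ↔ TS k s ∈ P'} := by
      ext p
      rw [Set.mem_iUnion]
      exact ⟨fun ⟨q, h⟩ => ⟨h.1.1, fun i _ => (h.1.2 i).trans (h.2 i).symm⟩,
        fun h => ⟨fun i => p.2 i ∈ P, ⟨h.1, fun _ => Iff.rfl⟩, fun i => (h.2 i trivial).symm⟩⟩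
    rw [e1, measureReal_def, Measure.compProd_apply_prod hE hD', ← integral_toReal
      (Q.measurable_coe hD').aemeasurable (ae_of_all _ fun _ => measure_lt_top _ _)]
    refine integral_congr_ae (ae_of_all _ fun ω => ?_)
    simp only [hQ, Measure.pi_pi, Finset.prod_const, Finset.card_univ, Fintype.card_fin,
      ENNReal.toReal_pow, measureReal_def]
  refine ⟨∑ q, L q, (tendsto_finsetSum _ fun q _ => h1 q).congr fun N => ?_,
    (tendsto_finsetSum _ fun q _ => h2 q).congr fun N => ?_⟩ <;>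
  simp only [e, av_sum]

end Pool.Agent.Lib.MP_1db5af_an.Th
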