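import Pool.Agent.Lib.MP_1db5af_an.Th.Defs

set_option autoImplicit false

namespace Pool.Agent.Lib.MP_1db5af_an.Th

open MeasureTheory ProbabilityTheory Filter Topology ComplexConjugate
open scoped ENNReal NNReal InnerProductSpace

/-- A length function on `ℤ × Λ` with finite balls over each integer and syndetic projections. -/
structure Mu {Λ : Type} [Group Λ] (μ : ℤ → Λ → ℝ) : Prop where
  nonneg : ∀ d c, 0 ≤ μ d c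
  one : μ 0 1 = 0
  symm : ∀ d c, μ (-d) c⁻¹ = μ d c
  tri : ∀ d d' c c', μ (d + d') (c * c') ≤ μ d c + μ d' c'
  fin : ∃ η : ℝ, 0 < η ∧ {c | μ 0 c < η}.Finite
  synd : ∀ s : ℝ, 0 < s → ∃ J : Finset ℤ, ∀ k, ∃ j ∈ J, ∃ c, μ (j - k) c < s

/-- The group generated by the short elements. -/
structure GrpOut {Λ : Type} [Group Λ] (μ : ℤ → Λ → ℝ) (G : Subgroup Λ) (s0 s1 : ℝ) : Prop where
  pos : 0 < s1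
  le : s1 ≤ s0
  symm : ∀ d c, μ (-d) c⁻¹ = μ d c
  fg : Group.FG G
  idx : (Subgroup.center G).FiniteIndex
  mem : ∀ d c, μ d c < s0 → c ∈ G
  slope : ∀ v : G →* Multiplicative ℝ, ∃ θ C : ℝ, ∀ (d : ℤ) (c : G), μ d c < s0 →
    |(v c).toAdd - θ * d| ≤ C
  van : ∀ ψ : G →* Multiplicative ℤ, (∃ C : ℤ, ∀ (d : ℤ) (c : G), μ d c < s0 → |(ψ c).toAdd| ≤ C) →
    ∀ (d : ℤ) (c : G), μ d c < s1 → ψ c = 1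

/-- Linear relations between the values of `χ` at far apart places. -/
def AlgIn {ι Λ F : Type} [Fintype ι] [Group Λ] [Field F] (μ : ℤ → Λ → ℝ) (G : Subgroup Λ) (s0 : ℝ)
    (χ : G →* Fˣ) : Prop :=
  ∃ (M : ℕ) (H : Subgroup Fˣ) (t : ι → F) (q : ι → Fˣ) (o : ι), 0 < M ∧ H.FG ∧ t o ≠ 0 ∧
    (∀ c, χ c ∈ H) ∧ (∀ a, q a ∈ H) ∧ ∀ G0 : ℤ, ∃ (d : ι → ℤ) (c : ι → G) (z : ι → Fˣ), Far G0 d ∧
      (∀ a, μ (d a) (c a) < s0 ∧ z a ∈ H ∧ χ (c a) = z a ^ M * q a) ∧ ∑ a, t a * (z a : F) = 0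

variable {ι ℛ : Type} [Ring ℛ]

/-- The vector of a unit and a marked point. -/
noncomputable def el (j : ℛˣ × ι × ℤ) : ι × ℤ →₀ ℛ := Finsupp.single j.2 (j.1 : ℛ)

/-- The action of `ℤ × ℛˣ` on patterns. -/
def pact (d : ℤ) (c : ℛˣ) (p : Set (ℛˣ × ι × ℤ)) : Set (ℛˣ × ι × ℤ) :=
  (fun j => (c * j.1, shI d j.2)) '' p

/-- The nonzero classes of a pattern. -/
def cls (N : Submodule ℛ (ι × ℤ →₀ ℛ)) (p : Set (ℛˣ × ι × ℤ)) : Set ((ι × ℤ →₀ ℛ) ⧸ N) :=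
  ((fun j => N.mkQ (el j)) '' p) \ {0}

/-- The mean number of classes of `p` that are not classes of `q`. -/
noncomputable def pe (Ω : MS) (N : Ω.X → Submodule ℛ (ι × ℤ →₀ ℛ)) (p q : Set (ℛˣ × ι × ℤ)) : ℝ≥0∞ :=
  ∫⁻ w, ((cls (N w) p \ cls (N w) q).encard : ℝ≥0∞) ∂Ω.ν

/-- The pattern seen from a reference point. -/
def pat (o : ι) (N : Submodule ℛ (ι × ℤ →₀ ℛ)) : Set (ℛˣ × ι × ℤ) :=
  {j | el (j.1, o, j.2.2) - ee o 0 ∈ N}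

/-- The hypotheses of the last part. -/
structure CData [Fintype ι] (Ω : MS) (N : Ω.X → Submodule ℛ (ι × ℤ →₀ ℛ)) (o : ι) : Prop where
  rsg : Rsg Ω (tau ι ℛ) fun w => (N w).toAddSubgroup
  free : ∀ᵐ w ∂Ω.ν, ∀ (i : ι × ℤ) (α : ℛ), Finsupp.single i α ∈ N w → α = 0 ∨ ee i.1 i.2 ∈ N w
  count : ∃ D : ℕ, ∀ᵐ r ∂Ω.ν, ee o 0 ∉ N r → ∀ᵐ w ∂Ω.ν, (cls (N w) (pat o (N r))).encard ≤ D
  orb : ∃ D : ℕ, ∀ᵐ r ∂Ω.ν, ∀ s : Finset ℤ, (∀ k ∈ s, ee o k ∉ N r) →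
    (∀ k ∈ s, ∀ l ∈ s, k ≠ l → ∀ c : ℛˣ, el (c, o, l) - ee o k ∉ N r) → s.card ≤ D
  fail : ∃ δ : ℝ, 0 < δ ∧ ∀ G : ℤ, ∃ k : ι → ℤ, Far G k ∧
    δ ≤ Ω.ν.real {w | ∑ a, ee a (k a) ∈ N w ∧ ∀ a, ee a (k a) ∉ N w}
  nr : ∀ σ : ℛ, σ ≠ 0 → ∃ B : Set Ω.X, MeasurableSet B ∧ Ω.ν B ≠ 0 ∧ (∀ w ∈ B, ee o 0 ∉ N w) ∧
    Nul fun l : ℕ => Ω.ν.real {w | w ∈ B ∧ Ω.T l w ∈ B ∧ σ • (ee o 0 - ee o l) ∈ N w}

end Pool.Agent.Lib.MP_1db5af_an.Th
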