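import Pool.Agent.Lib.MP_1db5af_an.Th.AlgF

set_option autoImplicit false

namespace Pool.Agent.Lib.MP_1db5af_an.Th

open MeasureTheory ProbabilityTheory Filter Topology ComplexConjugate
open scoped ENNReal NNReal InnerProductSpace

theorem cring_prime {A R : Type} [CommRing A] [IsNoetherianRing A] [Ring R] [Nontrivial R]
    (π : A →+* R) : ∃ (P : Ideal A) (s : A), P.IsPrime ∧ ∀ α, α ∈ P ↔ π (α * s) = 0 := by
  have : Nontrivial (A ⧸ RingHom.ker π) :=
    Ideal.Quotient.nontrivial_iff.2 (RingHom.ker_ne_top π)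
  obtain ⟨P, hP⟩ := associatedPrimes.nonempty A (A ⧸ RingHom.ker π)
  obtain ⟨h1, x, hx⟩ := isAssociatedPrime_iff.1 hP
  obtain ⟨s, rfl⟩ := Ideal.Quotient.mk_surjective x
  refine ⟨P, s, h1, fun α => ?_⟩
  rw [hx, Submodule.mem_colon_singleton, Submodule.mem_bot, ← RingHom.mem_ker,
    ← Ideal.Quotient.eq_zero_iff_mem, map_mul]
  rfl

theorem cring_fun {ι A F : Type} [Fintype ι] [DecidableEq ι] [CommRing A] [Field F] (φ : A →+* F)
    (hφ : ∀ c : F, ∃ a b, φ b ≠ 0 ∧ φ b * c = φ a) (Rel : Submodule A (ι → A)) (o : ι)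
    (h1 : ∀ x : ι → A, (∀ a, φ (x a) = 0) → x ∈ Rel)
    (h2 : ∀ β : A, Pi.single o β ∈ Rel → φ β = 0) :
    ∃ t : ι → F, t o ≠ 0 ∧ ∀ x ∈ Rel, ∑ a, t a * φ (x a) = 0 := by
  set W : Submodule F (ι → F) := Submodule.span F {y | ∃ x ∈ Rel, y = fun a => φ (x a)} with hW
  have key : ∀ y ∈ W, ∃ β, ∃ x ∈ Rel, φ β ≠ 0 ∧ ∀ a, φ β * y a = φ (x a) := by
    intro y hy
    induction hy using Submodule.span_induction with
    | mem y hy =>
      obtain ⟨x, hx, rfl⟩ := hy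
      exact ⟨1, x, hx, by simp, fun a => by simp⟩
    | zero => exact ⟨1, 0, Rel.zero_mem, by simp, fun a => by simp⟩
    | add y y' _ _ ih ih' =>
      obtain ⟨β, x, hx, hβ, e⟩ := ih
      obtain ⟨β', x', hx', hβ', e'⟩ := ih'
      refine ⟨β * β', β' • x + β • x', Rel.add_mem (Rel.smul_mem _ hx) (Rel.smul_mem _ hx'),
        by rw [map_mul]; exact mul_ne_zero hβ hβ', fun a => ?_⟩
      simp only [Pi.add_apply, Pi.smul_apply, smul_eq_mul, map_add, map_mul, ← e a, ← e' a]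
      ring
    | smul c y _ ih =>
      obtain ⟨β, x, hx, hβ, e⟩ := ih
      obtain ⟨a0, b0, hb, hc⟩ := hφ c
      refine ⟨b0 * β, a0 • x, Rel.smul_mem _ hx, by rw [map_mul]; exact mul_ne_zero hb hβ,
        fun a => ?_⟩
      simp only [Pi.smul_apply, smul_eq_mul, map_mul, ← e a, ← hc]
      ring
  have hn : (Pi.single o 1 : ι → F) ∉ W := fun hy => by
    obtain ⟨β, x, hx, hβ, e⟩ := key _ hy
    refine hβ (h2 β ?_)
    have h3 : Pi.single o β - x ∈ Rel := h1 _ fun a => by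
      rw [Pi.sub_apply, map_sub, ← e a]
      by_cases ha : a = o
      · subst ha; simp
      · simp [Pi.single_eq_of_ne ha]
    simpa using Rel.add_mem h3 hx
  obtain ⟨f, hf, hf'⟩ := W.exists_dual_map_eq_bot_of_notMem hn inferInstance
  refine ⟨fun a => f (Pi.single a 1), hf, fun x hx => ?_⟩
  have h3 : f (fun a => φ (x a)) = 0 := by
    have h4 : f (fun a => φ (x a)) ∈ W.map f :=
      Submodule.mem_map_of_mem (Submodule.subset_span ⟨x, hx, rfl⟩)
    rwa [hf', Submodule.mem_bot] at h4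
  rw [LinearMap.pi_apply_eq_sum_univ] at h3
  rw [← h3]
  refine Finset.sum_congr rfl fun a _ => ?_
  rw [smul_eq_mul, mul_comm]
  refine congrArg (fun y => φ (x a) * f y) (funext fun j => ?_)
  rw [Pi.single_apply]
  exact if_congr eq_comm rfl rfl

theorem cring_roots {F : Type} [Field F] {M : ℕ} (hM : 0 < M) {Y : Set Fˣ} (hY : Y.Finite) :
    {z : Fˣ | z ^ M ∈ Y}.Finite := by
  classical
  refine (hY.biUnion (t := fun y => {z : Fˣ | z ^ M = y}) fun y _ => ?_).subset fun z hz =>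
    Set.mem_biUnion hz rfl
  refine (((Polynomial.nthRoots M (y : F)).toFinset.finite_toSet).preimage
    Units.val_injective.injOn).subset fun z hz => ?_
  simp only [Set.mem_preimage, Finset.mem_coe, Multiset.mem_toFinset,
    Polynomial.mem_nthRoots hM]
  rw [← hz, Units.val_pow_eq_pow_val]

theorem cring_factor {α β γ : Type} {S : Set α} {f : α → β} {g : α → γ} (hf : (f '' S).Finite)
    (h : ∀ x ∈ S, ∀ y ∈ S, f x = f y → g x = g y) : (g '' S).Finite := by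
  rcases S.eq_empty_or_nonempty with rfl | ⟨x0, _⟩
  · simp
  have : Nonempty α := ⟨x0⟩
  refine (hf.image fun v => g (Function.invFunOn f S v)).subset ?_
  rintro _ ⟨x, hx, rfl⟩
  exact ⟨f x, ⟨x, hx, rfl⟩, h _ (Function.invFunOn_mem ⟨x, hx, rfl⟩) _ hx
    (Function.invFunOn_eq ⟨x, hx, rfl⟩)⟩

/-- A field valued character of a finitely generated commutative group of units that detects
linear relations. -/
theorem cring_char {ι Z ℛ M : Type} [Fintype ι] [CommGroup Z] [Group.FG Z] [Ring ℛ] [Nontrivial ℛ]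
    [AddCommGroup M] [Module ℛ M] (ρ : Z →* ℛ) (ε : ι → M) (o : ι)
    (hε : ∀ α : ℛ, α • ε o = 0 → α = 0) :
    ∃ (F : Type) (_ : Field F) (χ : Z →* Fˣ) (σ : ℛ) (t : ι → F), σ ≠ 0 ∧ t o ≠ 0 ∧
      (∀ z z', χ z = χ z' → σ * ρ z = σ * ρ z') ∧
      ∀ z : ι → Z, ∑ a, ρ (z a) • ε a = 0 → ∑ a, t a * (χ (z a) : F) = 0 := by
  classical
  have : Monoid.FG Z := Group.fg_iff_monoid_fg.1 inferInstance
  have : IsNoetherianRing (MonoidAlgebra ℤ Z) := Algebra.FiniteType.isNoetherianRing ℤ _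
  set π : MonoidAlgebra ℤ Z →+* ℛ := (MonoidAlgebra.lift ℤ ℛ Z ρ).toRingHom with hπ
  have hπo : ∀ z, π (MonoidAlgebra.of ℤ Z z) = ρ z := fun z => MonoidAlgebra.lift_of ρ z
  obtain ⟨P, s, hP, hs⟩ := cring_prime π
  set φ : MonoidAlgebra ℤ Z →+* FractionRing (MonoidAlgebra ℤ Z ⧸ P) :=
    (algebraMap (MonoidAlgebra ℤ Z ⧸ P) _).comp (Ideal.Quotient.mk P) with hφ
  have hφ0 : ∀ α, φ α = 0 ↔ π (α * s) = 0 := fun α => by
    rw [← hs, hφ, RingHom.comp_apply, map_eq_zero_iff _ (IsFractionRing.injective _ _),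
      Ideal.Quotient.eq_zero_iff_mem]
  let Rel : Submodule (MonoidAlgebra ℤ Z) (ι → MonoidAlgebra ℤ Z) :=
    { carrier := {x | ∑ a, π (x a * s) • ε a = 0}
      zero_mem' := by simp
      add_mem' := fun {x y} hx hy => by
        simp only [Set.mem_ofPred_eq, Pi.add_apply, add_mul, map_add, add_smul,
          Finset.sum_add_distrib] at hx hy ⊢
        rw [hx, hy, add_zero]
      smul_mem' := fun c x hx => by
        simp only [Set.mem_ofPred_eq, Pi.smul_apply, smul_eq_mul, mul_assoc] at hx ⊢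
        simp only [map_mul π c, mul_smul, ← Finset.smul_sum]
        rw [hx, smul_zero] }
  have hRel : ∀ x, x ∈ Rel ↔ ∑ a, π (x a * s) • ε a = 0 := fun x => Iff.rfl
  obtain ⟨t, ht, ht'⟩ := cring_fun φ (fun c => by
      obtain ⟨a, b, hb, rfl⟩ := IsFractionRing.div_surjective (A := MonoidAlgebra ℤ Z ⧸ P) c
      obtain ⟨a, rfl⟩ := Ideal.Quotient.mk_surjective a
      obtain ⟨b, rfl⟩ := Ideal.Quotient.mk_surjective b
      have hb' : φ b ≠ 0 :=
        IsFractionRing.to_map_ne_zero_of_mem_nonZeroDivisors (R := MonoidAlgebra ℤ Z ⧸ P) hb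
      exact ⟨a, b, hb', mul_div_cancel₀ _ hb'⟩) Rel o
    (fun x hx => (hRel x).2 (Finset.sum_eq_zero fun a _ => by rw [(hφ0 _).1 (hx a), zero_smul]))
    (fun β hβ => (hφ0 β).2 (hε _ (by
      rw [hRel, Finset.sum_eq_single o (fun b _ hb => by simp [Pi.single_eq_of_ne hb])
        (fun h => absurd (Finset.mem_univ o) h), Pi.single_eq_same] at hβ
      exact hβ)))
  have hc : ∀ z, π (MonoidAlgebra.of ℤ Z z * s) = π s * ρ z := fun z => by
    rw [mul_comm, map_mul, hπo]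
  refine ⟨FractionRing (MonoidAlgebra ℤ Z ⧸ P), inferInstance,
    (φ.toMonoidHom.comp (MonoidAlgebra.of ℤ Z)).toHomUnits, π s, t, fun h0 => ?_, ht,
    fun z z' e => ?_, fun z hz => ?_⟩
  · have h1 := (hφ0 1).2 (by rwa [one_mul])
    rw [map_one] at h1
    exact one_ne_zero h1
  · have e' : φ (MonoidAlgebra.of ℤ Z z) = φ (MonoidAlgebra.of ℤ Z z') := congrArg Units.val e
    have h1 := (hφ0 (MonoidAlgebra.of ℤ Z z - MonoidAlgebra.of ℤ Z z')).1
      (by rw [map_sub, e', sub_self])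
    rwa [sub_mul, map_sub, hc, hc, sub_eq_zero] at h1
  · refine ht' (fun a => MonoidAlgebra.of ℤ Z (z a)) ((hRel _).2 ?_)
    simp only [hc, mul_smul, ← Finset.smul_sum]
    rw [hz, smul_zero]

variable {ι ℛ : Type} [Fintype ι] [Ring ℛ] {μ : ℤ → ℛˣ → ℝ} {G : Subgroup ℛˣ} {s0 s1 : ℝ}

/-- Relations in a module with a free vector give a nonzero `σ` with finitely many translates. -/
theorem c_ring (h : GrpOut μ G s0 s1) {M : Type} [AddCommGroup M] [Module ℛ M] [Nontrivial ℛ]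
    (ε : ι → M) (κ : ι → G) (o : ι) (hε : ∀ α : ℛ, α • ε o = 0 → α = 0)
    (H : ∀ G0 : ℤ, ∃ (d : ι → ℤ) (l : ι → G), Far G0 d ∧
      (∀ a, l a ∈ Subgroup.center G ∧ μ (d a) (l a * κ a : G) < s0) ∧
      ∑ a, (((l a : G) : ℛˣ) : ℛ) • ε a = 0) :
    ∃ σ : ℛ, σ ≠ 0 ∧ {y : ℛ | ∃ (d : ℤ) (c : ℛˣ), μ d c < s1 ∧ σ * (c : ℛ) = y}.Finite := by
  have := h.fg
  have := h.idx
  have hfg : Group.FG (Subgroup.center G) := inferInstance
  let cg : CommGroup (Subgroup.center G) :=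
    { (inferInstance : Group (Subgroup.center G)) with
      mul_comm := fun a b => Subtype.ext (Subgroup.mem_center_iff.1 b.2 a) }
  let ρ : Subgroup.center G →* ℛ :=
    (Units.coeHom ℛ).comp (G.subtype.comp (Subgroup.center G).subtype)
  obtain ⟨F, _, χ0, σ, t, hσ, ht, h1, h2⟩ := @cring_char ι _ ℛ M _ cg hfg _ _ _ _ ρ ε o hε
  set χ : G →* Fˣ := χ0.comp (MonoidHom.transferCenterPow G) with hχ
  have hM : 0 < (Subgroup.center G).index := Nat.pos_of_ne_zero Subgroup.FiniteIndex.index_ne_zero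
  have hz : ∀ z : Subgroup.center G, χ z = χ0 z ^ (Subgroup.center G).index := fun z => by
    rw [← map_pow]
    rfl
  have hA : AlgIn (ι := ι) μ G s0 χ := by
    refine ⟨_, χ0.range, t, fun a => χ (κ a), o, hM, (Group.fg_iff_subgroup_fg _).1
      (Group.fg_range χ0), ht, fun c => ⟨_, rfl⟩, fun a => ⟨_, rfl⟩, fun G0 => ?_⟩
    obtain ⟨d, l, e1, e2, e3⟩ := H G0
    exact ⟨d, fun a => l a * κ a, fun a => χ0 ⟨l a, (e2 a).1⟩, e1,
      fun a => ⟨(e2 a).2, ⟨_, rfl⟩, by rw [map_mul, ← hz]⟩,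
      h2 (fun a => ⟨l a, (e2 a).1⟩) e3⟩
  have hY := alg_fin h hA
  refine ⟨σ, hσ, ?_⟩
  let r : G → G := fun c => (QuotientGroup.mk c : G ⧸ Subgroup.center G).out
  have hr : ∀ c, (r c)⁻¹ * c ∈ Subgroup.center G := fun c =>
    QuotientGroup.eq.1 (QuotientGroup.out_eq' _)
  let lam : G → Subgroup.center G := fun c => ⟨_, hr c⟩
  have hl : ∀ c, c = (lam c : G) * r c := fun c => by
    rw [← Subgroup.mem_center_iff.1 (lam c).2 (r c)]
    exact (mul_inv_cancel_left _ _).symm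
  have hfin := cring_factor (S := {c : G | ∃ d, μ d c < s1})
    (f := fun c => ((QuotientGroup.mk c : G ⧸ Subgroup.center G), χ0 (lam c)))
    (g := fun c => σ * ((c : ℛˣ) : ℛ)) ?_ ?_
  · refine hfin.subset ?_
    rintro _ ⟨d, c, hc, rfl⟩
    exact ⟨⟨c, h.mem d c (hc.trans_le h.le)⟩, ⟨d, hc⟩, rfl⟩
  · refine (Set.finite_univ.prod (cring_roots hM (Set.Finite.image2
      (fun (y : Fˣ) (k : G ⧸ Subgroup.center G) => y * (χ k.out)⁻¹) hY
      Set.finite_univ))).subset ?_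
    rintro _ ⟨c, ⟨d, hc⟩, rfl⟩
    refine ⟨Set.mem_univ _, χ c, ⟨d, c, hc, rfl⟩, QuotientGroup.mk c, Set.mem_univ _, ?_⟩
    change χ c * (χ (r c))⁻¹ = χ0 (lam c) ^ _
    rw [← hz, mul_inv_eq_iff_eq_mul, ← map_mul, ← hl]
  · intro x _ y _ e
    obtain ⟨e1, e2⟩ := Prod.mk.inj e
    have e3 : r x = r y := congrArg Quotient.out e1
    have e4 : σ * ρ (lam x) = σ * ρ (lam y) := h1 _ _ e2
    have e5 : ∀ c : G, ((c : ℛˣ) : ℛ) = ρ (lam c) * ((r c : ℛˣ) : ℛ) := fun c => by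
      conv_lhs => rw [hl c]
      rfl
    change σ * ((x : ℛˣ) : ℛ) = σ * ((y : ℛˣ) : ℛ)
    rw [e5 x, e5 y, ← mul_assoc, ← mul_assoc, e4, e3]

end Pool.Agent.Lib.MP_1db5af_an.Th
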