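import Pool.Agent.Lib.MP_1db5af_an.Spec

set_option autoImplicit false

namespace Pool.Agent.Lib.MP_1db5af_an.Th

open MeasureTheory ProbabilityTheory Filter Topology ComplexConjugate

instance polBool {κ : Type} [Countable κ] : PolishSpace (κ → Bool) := by
  have : SecondCountableTopology Bool := inferInstance
  infer_instance

/-- A measurable action of the integers. -/
structure MAct {X : Type} [MeasurableSpace X] (T : ℤ → X → X) : Prop where
  zero : ∀ x, T 0 x = x
  add : ∀ k l x, T (k + l) x = T k (T l x)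
  meas : ∀ k, Measurable (T k)

/-- A measure preserving action of the integers. -/
structure Sys {X : Type} [MeasurableSpace X] (μ : Measure X) (T : ℤ → X → X) : Prop
    extends MAct T where
  mp : ∀ k, MeasurePreserving (T k) μ μ

/-- The product of two actions. -/
def prodT {X Y : Type} (T : ℤ → X → X) (T' : ℤ → Y → Y) (k : ℤ) (p : X × Y) : X × Y :=
  (T k p.1, T' k p.2)

/-- The diagonal action on a power. -/
def piT {κ X : Type} (T : ℤ → X → X) (k : ℤ) (p : κ → X) : κ → X := fun i => T k (p i)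

/-- A kernel that is equivariant almost everywhere. -/
def EqvK {X Y : Type} [MeasurableSpace X] [MeasurableSpace Y] (μ : Measure X) (T : ℤ → X → X)
    (T' : ℤ → Y → Y) (Λ : Kernel X Y) : Prop :=
  ∀ k, ∀ᵐ x ∂μ, Λ (T k x) = (Λ x).map (T' k)

/-- An equidistributed integer sequence. -/
def WD (d : ℕ → ℤ) : Prop :=
  ∀ θ : UnitAddCircle, θ ≠ 0 → Tendsto (av fun n => fourier (d n) θ) atTop (𝓝 0)

/-- Labels whose pairwise differences are equidistributed and tend to infinity. -/
structure PW {ι : Type} (u : ι → ℕ → ℤ) : Prop where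
  weyl : ∀ a b, a ≠ b → WD fun n => u a n - u b n
  gap : ∀ a b, a ≠ b → ∀ G : ℤ, ∀ᶠ n in atTop, G < |u a n - u b n|

/-- The averages of `p` tend to zero. -/
def Nul (p : ℕ → ℝ) : Prop := Tendsto (av p) atTop (𝓝 0)

/-- Finite measure systems. -/
structure MS where
  X : Type
  [ms : MeasurableSpace X]
  ν : Measure X
  [fin : IsFiniteMeasure ν]
  T : ℤ → X → X
  sys : Sys ν T

attribute [instance] MS.ms MS.fin

/-- Compact probability systems. -/
structure CS where
  X : Type
  [top : TopologicalSpace X]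
  [cpt : CompactSpace X]
  [pol : PolishSpace X]
  [ms : MeasurableSpace X]
  [bor : BorelSpace X]
  μ : Measure X
  [prob : IsProbabilityMeasure μ]
  T : ℤ → X → X
  sys : Sys μ T

attribute [instance] CS.top CS.cpt CS.pol CS.ms CS.bor CS.prob

/-- The underlying finite measure system. -/
@[reducible] def CS.toMS (Z : CS) : MS := { X := Z.X, ν := Z.μ, T := Z.T, sys := Z.sys }

/-- An equivariant map that sends the measure to an absolutely continuous one. -/
structure Ext (Y Ω : MS) (π : Y.X → Ω.X) : Prop where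
  qmp : Measure.QuasiMeasurePreserving π Y.ν Ω.ν
  comm : ∀ k, ∀ᵐ y ∂Y.ν, π (Y.T k y) = Ω.T k (π y)

section Grp

variable {A A' : Type} [AddCommGroup A] [AddCommGroup A']

/-- An action of the integers by additive maps. -/
structure Act (τ : ℤ → A →+ A) : Prop where
  zero : ∀ x, τ 0 x = x
  add : ∀ k l x, τ (k + l) x = τ k (τ l x)

/-- The product of two additive actions. -/
def tau2 (τ : ℤ → A →+ A) (τ' : ℤ → A' →+ A') (k : ℤ) : A × A' →+ A × A' :=
  (τ k).prodMap (τ' k)

/-- Random subgroups. -/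
structure Rsg (Ω : MS) (τ : ℤ → A →+ A) (K : Ω.X → AddSubgroup A) : Prop where
  meas : ∀ x, MeasurableSet {ω | x ∈ K ω}
  eqv : ∀ᵐ ω ∂Ω.ν, ∀ k x, x ∈ K (Ω.T k ω) ↔ τ k x ∈ K ω

/-- No element of `B` recurs modulo `K`. -/
def RW (Ω : MS) (τ : ℤ → A →+ A) (K B : Ω.X → AddSubgroup A) : Prop :=
  ∀ x y : A, Nul fun l : ℕ => Ω.ν.real {ω | x ∈ B ω ∧ x ∉ K ω ∧ x - τ l y ∈ K ω}

/-- Closed random subgroups. -/
def Clo (Ω : MS) (τ : ℤ → A →+ A) (K : Ω.X → AddSubgroup A) : Prop := RW Ω τ K fun _ => ⊤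

/-- Every closed random subgroup above `D` is everything. -/
def Full (Ω : MS) (τ : ℤ → A →+ A) (D : Ω.X → AddSubgroup A) : Prop :=
  ∀ C, Rsg Ω τ C → Clo Ω τ C → (∀ᵐ ω ∂Ω.ν, D ω ≤ C ω) → ∀ᵐ ω ∂Ω.ν, C ω = ⊤

open Classical in
/-- The code of a subgroup. -/
noncomputable def enc (K : AddSubgroup A) : A → Bool := fun x => decide (x ∈ K)

/-- The subgroup generated by a code. -/
def dec (s : A → Bool) : AddSubgroup A := AddSubgroup.closure {x | s x = true}

/-- The action on codes. -/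
def shS (τ : ℤ → A →+ A) (k : ℤ) (s : A → Bool) : A → Bool := fun x => s (τ k x)

/-- The domain of a relation. -/
def gdom (g : AddSubgroup (A × A')) : AddSubgroup A := g.map (AddMonoidHom.fst A A')

/-- The kernel of a relation. -/
def gker (g : AddSubgroup (A × A')) : AddSubgroup A := g.comap (AddMonoidHom.inl A A')

/-- The preimage of a subgroup under a relation. -/
def gpre (g : AddSubgroup (A × A')) (D : AddSubgroup A') : AddSubgroup A :=
  gdom (g ⊓ D.comap (AddMonoidHom.snd A A'))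

/-- The converse of a relation. -/
def gflip (g : AddSubgroup (A × A')) : AddSubgroup (A' × A) :=
  g.comap (AddEquiv.prodComm (M := A') (N := A)).toAddMonoidHom

/-- A relation that is a homomorphism from a subgroup of `A / R` to `A' / R'`. -/
def SV (R : AddSubgroup A) (R' : AddSubgroup A') (g : AddSubgroup (A × A')) : Prop :=
  (∀ x ∈ R, (x, 0) ∈ g) ∧ ∀ y, (0, y) ∈ g ↔ y ∈ R'

/-- A relation that is an isomorphism from a subgroup of `A / R` to a subgroup of `A' / R'`. -/
def IsArr (R : AddSubgroup A) (R' : AddSubgroup A') (g : AddSubgroup (A × A')) : Prop :=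
  (∀ x, (x, 0) ∈ g ↔ x ∈ R) ∧ ∀ y, (0, y) ∈ g ↔ y ∈ R'

/-- The identity modulo `R`. -/
def gid (R : AddSubgroup A) : AddSubgroup (A × A) :=
  R.comap (AddMonoidHom.fst A A - AddMonoidHom.snd A A)

/-- The zero map modulo `R'`. -/
def gzero (R' : AddSubgroup A') : AddSubgroup (A × A') := R'.comap (AddMonoidHom.snd A A')

/-- Composition of relations: first `g`, then `h`. -/
def gcomp {A'' : Type} [AddCommGroup A''] (g : AddSubgroup (A × A'))
    (h : AddSubgroup (A' × A'')) : AddSubgroup (A × A'') where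
  carrier := {p | ∃ y, (p.1, y) ∈ g ∧ (y, p.2) ∈ h}
  zero_mem' := ⟨0, g.zero_mem, h.zero_mem⟩
  add_mem' := fun ⟨y, h1, h2⟩ ⟨y', h3, h4⟩ => ⟨y + y', g.add_mem h1 h3, h.add_mem h2 h4⟩
  neg_mem' := fun ⟨y, h1, h2⟩ => ⟨-y, g.neg_mem h1, h.neg_mem h2⟩

/-- The sum of two relations as maps. -/
def gadd (g h : AddSubgroup (A × A')) : AddSubgroup (A × A') where
  carrier := {p | ∃ y, (p.1, y) ∈ g ∧ (p.1, p.2 - y) ∈ h}
  zero_mem' := ⟨0, g.zero_mem, by rw [sub_zero]; exact h.zero_mem⟩
  add_mem' := fun {p q} ⟨y, h1, h2⟩ ⟨y', h3, h4⟩ => ⟨y + y', g.add_mem h1 h3, by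
    have := h.add_mem h2 h4
    rwa [Prod.mk_add_mk, ← add_sub_add_comm] at this⟩
  neg_mem' := fun {p} ⟨y, h1, h2⟩ => ⟨-y, g.neg_mem h1, by
    have := h.neg_mem h2
    rwa [Prod.neg_mk, neg_sub'] at this⟩

/-- The negative of a relation as a map. -/
def gneg (g : AddSubgroup (A × A')) : AddSubgroup (A × A') :=
  g.comap ((AddMonoidHom.id A).prodMap (-AddMonoidHom.id A'))

/-- All values of `g` lie in `R'`. -/
def GNull (R' : AddSubgroup A') (g : AddSubgroup (A × A')) : Prop := ∀ p ∈ g, p.2 ∈ R'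

/-- `g` and `h` agree modulo `R'` on their common domain. -/
def GEq (R' : AddSubgroup A') (g h : AddSubgroup (A × A')) : Prop :=
  ∀ x y y', (x, y) ∈ g → (x, y') ∈ h → y - y' ∈ R'

end Grp

/-- The algebraic statement for the labels in `J`. -/
def HA {ι : Type} (u : ι → ℕ → ℤ) (J : Finset ι) : Prop :=
  ∀ (A : Type) [AddCommGroup A] [Countable A] (τ : ℤ → A →+ A), Act τ →
    ∀ (Ω : MS) (R : Ω.X → AddSubgroup A), Rsg Ω τ R → Clo Ω τ R → ∀ (x : ι → A), ∀ a0 ∈ J,
      Nul fun n => Ω.ν.real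
        {ω | ∑ a ∈ J, τ (u a n) (x a) ∈ R ω ∧ τ (u a0 n) (x a0) ∉ R ω}

/-- The shift of the index set. -/
def shI {ι : Type} (k : ℤ) (i : ι × ℤ) : ι × ℤ := (i.1, i.2 + k)

/-- The shift of the free module. -/
noncomputable def tau (ι R : Type) [AddCommGroup R] (k : ℤ) : (ι × ℤ →₀ R) →+ (ι × ℤ →₀ R) :=
  Finsupp.mapDomain.addMonoidHom (shI k)

/-- The free abelian group on the marked points. -/
abbrev AA (ι : Type) : Type := ι × ℤ →₀ ℤ

/-- The basis of the free module. -/
noncomputable def ee {ι R : Type} [Zero R] [One R] (a : ι) (k : ℤ) : ι × ℤ →₀ R :=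
  Finsupp.single (a, k) 1

/-- Pairwise gaps larger than `G`. -/
def Far {ι : Type} (G : ℤ) (k : ι → ℤ) : Prop := ∀ a b, a ≠ b → G < |k a - k b|

end Pool.Agent.Lib.MP_1db5af_an.Th
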