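import Pool.Agent.Lib.MP_1db5af_an.Th.Rsg
import Pool.Agent.Lib.MP_1db5af_an.Th.Wk
import Pool.Agent.Lib.MP_1db5af_an.Th.Ph

set_option autoImplicit false

namespace Pool.Agent.Lib.MP_1db5af_an.Th

open MeasureTheory ProbabilityTheory Filter Topology ComplexConjugate
open scoped ENNReal NNReal InnerProductSpace

variable {A : Type} [AddCommGroup A] [Countable A] {τ : ℤ → A →+ A} {Ω : MS}

theorem ext_greedy {α : Type} (r : α → α → Prop) (rr : ∀ a, r a a)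
    (rt : ∀ a b c, r a b → r b c → r a c) (f : α → ℝ) (C : ℝ) (hb : ∀ a, f a ≤ C)
    (hm : ∀ a b, r a b → f a ≤ f b)
    (hc : ∀ s : ℕ → α, (∀ n, r (s n) (s (n + 1))) → ∃ b, ∀ n, r (s n) b) (a0 : α) :
    ∃ a, ∀ b, r a b → f b ≤ f a := by
  have step : ∀ (n : ℕ) (a : α), ∃ a', r a a' ∧ ∀ b, r a b → f b ≤ f a' + 1 / ((n : ℝ) + 1) := by
    intro n a
    have h1 : BddAbove (f '' {b | r a b}) := ⟨C, by rintro _ ⟨b, -, rfl⟩; exact hb b⟩
    obtain ⟨_, ⟨a', h2, rfl⟩, h3⟩ := exists_lt_of_lt_csSup (s := f '' {b | r a b})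
      ⟨_, a, rr a, rfl⟩ (sub_lt_self _ (Nat.one_div_pos_of_nat (n := n)))
    exact ⟨a', h2, fun b h4 => by linarith [le_csSup h1 ⟨b, h4, rfl⟩]⟩
  choose g g1 g2 using step
  let s : ℕ → α := fun n => Nat.rec a0 g n
  obtain ⟨a, ha⟩ := hc s fun n => g1 n (s n)
  refine ⟨a, fun b h => le_of_forall_pos_le_add fun ε hε => ?_⟩
  obtain ⟨n, hn⟩ := exists_nat_one_div_lt hε
  have h1 : f b ≤ f (s (n + 1)) + 1 / ((n : ℝ) + 1) := g2 n (s n) b (rt _ _ _ (ha n) h)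
  linarith [hm _ _ (ha (n + 1))]

theorem exh (P : (Ω.X → AddSubgroup A) → Prop)
    (hm : ∀ K, P K → ∀ x, MeasurableSet {ω | x ∈ K ω})
    (hc : ∀ K : ℕ → Ω.X → AddSubgroup A, (∀ n, P (K n)) →
      (∀ n, ∀ᵐ ω ∂Ω.ν, K n ω ≤ K (n + 1) ω) → P fun ω => ⨆ n, K n ω)
    {K0 : Ω.X → AddSubgroup A} (h0 : P K0) :
    ∃ K, P K ∧ ∀ K', P K' → (∀ᵐ ω ∂Ω.ν, K ω ≤ K' ω) → ∀ᵐ ω ∂Ω.ν, K' ω ≤ K ω := by
  obtain ⟨w, w0, w1⟩ := ENNReal.exists_pos_sum_of_countable (ε := 1) one_ne_zero A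
  let f : (Ω.X → AddSubgroup A) → ℝ≥0∞ := fun K => ∑' x, w x * Ω.ν {ω | x ∈ K ω}
  have f1 : ∀ K, f K ≤ Ω.ν Set.univ := fun K => by
    refine (ENNReal.tsum_le_tsum fun x =>
      mul_le_mul_right (measure_mono (Set.subset_univ _)) _).trans ?_
    rw [ENNReal.tsum_mul_right]
    exact mul_le_of_le_one_left' w1.le
  have f2 : ∀ K, f K ≠ ∞ := fun K => ne_top_of_le_ne_top (measure_ne_top _ _) (f1 K)
  have f3 : ∀ K K' : Ω.X → AddSubgroup A, (∀ᵐ ω ∂Ω.ν, K ω ≤ K' ω) → ∀ x,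
      {ω | x ∈ K ω} ≤ᵐ[Ω.ν] {ω | x ∈ K' ω} := fun K K' h x => h.mono fun ω hω hx => hω hx
  have f4 : ∀ K K' : Ω.X → AddSubgroup A, (∀ᵐ ω ∂Ω.ν, K ω ≤ K' ω) → ∀ x,
      w x * Ω.ν {ω | x ∈ K ω} ≤ w x * Ω.ν {ω | x ∈ K' ω} := fun K K' h x =>
    mul_le_mul_right (measure_mono_ae (f3 K K' h x)) _
  obtain ⟨K, hK⟩ := ext_greedy (α := {K // P K}) (fun K K' => ∀ᵐ ω ∂Ω.ν, K.1 ω ≤ K'.1 ω)
    (fun _ => Eventually.of_forall fun _ => le_rfl)
    (fun _ _ _ h h' => (h.and h').mono fun _ hω => hω.1.trans hω.2) (fun K => (f K.1).toReal)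
    (Ω.ν Set.univ).toReal (fun K => ENNReal.toReal_mono (measure_ne_top _ _) (f1 _))
    (fun K K' h => ENNReal.toReal_mono (f2 _) (ENNReal.tsum_le_tsum (f4 _ _ h)))
    (fun s hs => ⟨⟨_, hc (fun n => (s n).1) (fun n => (s n).2) hs⟩, fun n =>
      Eventually.of_forall fun ω => le_iSup (fun n => (s n).1 ω) n⟩) ⟨K0, h0⟩
  refine ⟨K.1, K.2, fun K' h1 h2 => ?_⟩
  have h3 := (ENNReal.toReal_le_toReal (f2 _) (f2 _)).1 (hK ⟨K', h1⟩ h2)
  refine (ae_all_iff.2 fun x => (ae_eq_of_ae_subset_of_measure_ge (f3 _ _ h2 x) ?_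
    (hm _ K.2 x).nullMeasurableSet (measure_ne_top _ _))).mono fun ω hω x hx => (hω x).mpr hx
  refine not_lt.1 fun h4 => not_lt.2 h3 (ENNReal.tsum_lt_tsum (i := x) (f2 _) (f4 _ _ h2) ?_)
  exact ENNReal.mul_lt_mul_right (ENNReal.coe_ne_zero.2 (w0 x).ne') ENNReal.coe_ne_top h4

omit [Countable A] in
theorem ext_vec {F : Set A} {d : A} (h : d ∈ AddSubgroup.closure F) :
    ∃ (m : ℕ) (v : Fin m → A), (∀ i, v i ∈ F ∨ -v i ∈ F) ∧ ∑ i, v i = d := by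
  have h1 : d ∈ (AddSubgroup.closure F).toAddSubmonoid := h
  rw [AddSubgroup.closure_toAddSubmonoid] at h1
  obtain ⟨l, h2, rfl⟩ := AddSubmonoid.exists_list_of_mem_closure h1
  exact ⟨l.length, fun i => l[i.1], fun i => h2 _ (List.getElem_mem _), Fin.sum_univ_getElem l⟩

omit [Countable A] in
theorem ext_fin {C : AddSubgroup A} {Φ : A → ℝ} {ε : ℝ} (hε : 0 < ε)
    (h : ∀ s : Finset A, (∀ a ∈ s, ∀ b ∈ s, a - b ∈ C → a = b) → ∑ z ∈ s, Φ z ≤ 1) :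
    ((QuotientAddGroup.mk : A → A ⧸ C) '' {z | ε ≤ Φ z}).Finite := by
  by_contra hi
  obtain ⟨s, h1, h2⟩ := Set.exists_subset_bijOn {z | ε ≤ Φ z} (QuotientAddGroup.mk : A → A ⧸ C)
  have h3 : s.Infinite := fun hs => hi (h2.image_eq ▸ hs.image _)
  obtain ⟨n, hn⟩ := exists_nat_gt (1 / ε)
  obtain ⟨t, h4, h5⟩ := h3.exists_subset_card_eq n
  have h6 := h t fun a ha b hb e =>
    h2.injOn (h4 ha) (h4 hb) (QuotientAddGroup.eq_iff_sub_mem.2 e)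
  have h7 := Finset.card_nsmul_le_sum t Φ ε fun z hz => h1 (h4 hz)
  rw [h5, nsmul_eq_mul] at h7
  rw [div_lt_iff₀ hε] at hn
  linarith

omit [Countable A] in
/-- The weak limits of the return indicators. -/
theorem ext_phi {C : Ω.X → AddSubgroup A} (hC : Rsg Ω τ C) (U : Ultrafilter ℕ) (y : A) :
    ∃ Φ : A → Ω.X → ℝ, (∀ z, Measurable (Φ z)) ∧ (∀ z, Integrable (Φ z) Ω.ν) ∧
      ∀ z E, MeasurableSet E → Tendsto (av fun l : ℕ => Ω.ν.real (E ∩ {ω | z - τ l y ∈ C ω})) U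
        (𝓝 (∫ ω in E, Φ z ω ∂Ω.ν)) := by
  have h := fun z : A => wlim (μ := Ω.ν) (C := 1) U
    (φ := fun l => {ω | z - τ l y ∈ C ω}.indicator 1)
    (fun l => measurable_one.indicator (hC.meas _)) fun l ω =>
      ⟨Set.indicator_nonneg (fun _ _ => zero_le_one) _,
        Set.indicator_le_self' (fun _ _ => zero_le_one) _⟩
  choose Φ h1 h2 h3 using h
  refine ⟨Φ, h1, fun z => Integrable.of_bound (h1 z).aestronglyMeasurable 1
    (Eventually.of_forall fun ω => by rw [Real.norm_of_nonneg (h2 z ω).1]; exact (h2 z ω).2),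
    fun z E hE => ?_⟩
  have h4 := h3 z E hE
  simp only [integral_indicator_one (hC.meas _), measureReal_restrict_apply (hC.meas _)] at h4
  simpa only [Set.inter_comm] using h4

theorem ext_eqv (hτ : Act τ) {C : Ω.X → AddSubgroup A} (hC : Rsg Ω τ C) {U : Ultrafilter ℕ}
    (hU : (U : Filter ℕ) ≤ atTop) {y : A} {Φ : A → Ω.X → ℝ} (h1 : ∀ z, Measurable (Φ z))
    (h2 : ∀ z, Integrable (Φ z) Ω.ν)
    (h3 : ∀ z E, MeasurableSet E → Tendsto (av fun l : ℕ => Ω.ν.real (E ∩ {ω | z - τ l y ∈ C ω})) U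
      (𝓝 (∫ ω in E, Φ z ω ∂Ω.ν))) : ∀ᵐ ω ∂Ω.ν, ∀ k z, Φ z (Ω.T k ω) = Φ (τ k z) ω := by
  refine ae_all_iff.2 fun k => ae_all_iff.2 fun z => ?_
  have hk := Ω.sys.mp k
  refine Integrable.ae_eq_of_forall_setIntegral_eq (fun ω => Φ z (Ω.T k ω)) _
    (hk.integrable_comp_of_integrable (h2 z)) (h2 _) fun E hE _ => ?_
  have hE' : MeasurableSet (Ω.T (-k) ⁻¹' E) := Ω.sys.meas _ hE
  have e1 : Ω.T k ⁻¹' (Ω.T (-k) ⁻¹' E) = E := by
    ext ω
    rw [Set.mem_preimage, Set.mem_preimage, ← Ω.sys.add, neg_add_cancel, Ω.sys.zero]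
  have e2 := setIntegral_map (μ := Ω.ν) (g := Ω.T k) (f := Φ z) hE'
    (h1 z).aestronglyMeasurable hk.measurable.aemeasurable
  rw [hk.map_eq, e1] at e2
  have h4 := ulim_shift hU (p := fun l => Ω.ν.real (E ∩ {ω | τ k z - τ l y ∈ C ω}))
    (C := Ω.ν.real Set.univ) (fun l => by
      rw [abs_of_nonneg measureReal_nonneg]; exact measureReal_mono (Set.subset_univ _)) k
    (h3 (τ k z) E hE)
  have h5 := h3 z _ hE'
  rw [e2] at h5
  refine tendsto_nhds_unique h5 (h4.congr fun N => congrFun (congrArg av (funext fun l => ?_)) N)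
  rw [← hk.measureReal_preimage (hE'.inter (hC.meas _)).nullMeasurableSet, Set.preimage_inter, e1]
  refine measureReal_congr ((ae_eq_refl E).inter ?_)
  filter_upwards [hC.eqv] with ω hω
  refine propext ?_
  show τ k z - τ (l + k) y ∈ C ω ↔ z - τ l y ∈ C (Ω.T k ω)
  rw [hω, map_sub, add_comm, hτ.add]

theorem ext_bes {C : Ω.X → AddSubgroup A} (hC : Rsg Ω τ C) {U : Ultrafilter ℕ}
    {y : A} {Φ : A → Ω.X → ℝ} (h2 : ∀ z, Integrable (Φ z) Ω.ν)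
    (h3 : ∀ z E, MeasurableSet E → Tendsto (av fun l : ℕ => Ω.ν.real (E ∩ {ω | z - τ l y ∈ C ω})) U
      (𝓝 (∫ ω in E, Φ z ω ∂Ω.ν))) : ∀ᵐ ω ∂Ω.ν, ∀ s : Finset A,
      (∀ a ∈ s, ∀ b ∈ s, a - b ∈ C ω → a = b) → ∑ z ∈ s, Φ z ω ≤ 1 := by
  refine ae_all_iff.2 fun s => ?_
  have hS : MeasurableSet {ω | ∀ a ∈ s, ∀ b ∈ s, a - b ∈ C ω → a = b} := by
    have := fun x => measurableSet_setOfPred.1 (hC.meas x)
    refine measurableSet_setOfPred.2 (Measurable.forall fun a => measurable_const.imp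
      (Measurable.forall fun b => measurable_const.imp ((this _).imp measurable_const)))
  refine (ae_restrict_iff' hS).1 (ae_le_of_forall_setIntegral_le (g := fun _ => 1)
    (integrable_finsetSum s fun z _ => h2 z).restrict (integrable_const _) fun E hE _ => ?_)
  rw [Measure.restrict_restrict hE, integral_finsetSum s fun z _ => (h2 z).restrict,
    setIntegral_const, smul_eq_mul, mul_one]
  refine le_of_tendsto' (tendsto_finsetSum s fun z _ => h3 z _ (hE.inter hS)) fun N => ?_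
  rw [← av_sum]
  refine av_le measureReal_nonneg fun l _ => ?_
  rw [← measureReal_biUnion_finset (fun a ha b hb hab => ?_) fun z _ =>
    (hE.inter hS).inter (hC.meas _)]
  · exact measureReal_mono (Set.iUnion₂_subset fun z _ => Set.inter_subset_left)
  · refine Set.disjoint_left.2 fun ω h4 h5 => hab (h4.1.2 a ha b hb ?_)
    simpa using (C ω).sub_mem h4.2 h5.2

omit [Countable A] in
/-- The pigeonhole step. -/
theorem ext_ph (hτ : Act τ) {K B C : Ω.X → AddSubgroup A} (hK : Rsg Ω τ K) (hB : Rsg Ω τ B)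
    (hC : Rsg Ω τ C) (h : RW Ω τ K B) (hBC : ∀ᵐ ω ∂Ω.ν, B ω ⊓ C ω ≤ K ω) {F : Ω.X → Set A}
    (hF : ∀ x, MeasurableSet {ω | x ∈ F ω})
    (he : ∀ᵐ ω ∂Ω.ν, ∀ k x, x ∈ F (Ω.T k ω) ↔ τ k x ∈ F ω)
    (hf : ∀ᵐ ω ∂Ω.ν, ((QuotientAddGroup.mk : A → A ⧸ C ω) '' F ω).Finite) (b : A) (m : ℕ)
    (v : Fin m → A) : ∀ᵐ ω ∂Ω.ν,
      ¬ (b ∈ B ω ∧ b ∉ K ω ∧ (∀ i, v i ∈ F ω ∨ -v i ∈ F ω) ∧ b - ∑ i, v i ∈ C ω) := by
  let E := {ω | b ∈ B ω ∧ b ∉ K ω ∧ (∀ i, v i ∈ F ω ∨ -v i ∈ F ω) ∧ b - ∑ i, v i ∈ C ω}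
  have hE : MeasurableSet E := by
    have a1 := fun x => measurableSet_setOfPred.1 (hF x)
    exact measurableSet_setOfPred.2 ((measurableSet_setOfPred.1 (hB.meas b)).and
      ((measurableSet_setOfPred.1 (hK.meas b)).not.and ((Measurable.forall fun i =>
        (a1 _).or (a1 _)).and (measurableSet_setOfPred.1 (hC.meas _)))))
  refine (measure_eq_zero_iff_ae_notMem (s := E)).1 (by_contra fun h0 => ?_)
  refine ph (ν := Ω.ν) (good := fun k => Ω.T k ⁻¹' E) (E := fun k l => {ω | τ k b - τ l b ∈ K ω})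
    (β := Ω.ν.real E) (ENNReal.toReal_pos h0 (measure_ne_top _ _)) (fun k => Ω.sys.meas _ hE)
    (fun k l => hK.meas _) (fun l => measureReal_nonneg)
    (fun k => ((Ω.sys.mp k).measureReal_preimage hE.nullMeasurableSet).ge) (fun k l hkl => ?_)
    (h b b) ?_
  · rw [← (Ω.sys.mp k).measureReal_preimage
      (s := {ω | b ∈ B ω ∧ b ∉ K ω ∧ b - τ ((l - k : ℕ) : ℤ) b ∈ K ω})
      ((hB.meas b).inter ((hK.meas b).compl.inter (hK.meas _))).nullMeasurableSet]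
    refine ENNReal.toReal_mono (measure_ne_top _ _) (measure_mono_ae ?_)
    filter_upwards [hK.eqv] with ω hω h1
    refine ⟨h1.1.1.1, h1.1.1.2.1, ?_⟩
    rw [hω, map_sub, ← hτ.add, Nat.cast_sub hkl.le, add_sub_cancel]
    exact h1.2
  · filter_upwards [hBC, he, hf, hB.eqv, hC.eqv] with ω a1 a2 a3 a4 a5
    have a6 : ((QuotientAddGroup.mk : A → A ⧸ C ω) '' F ω ∪
        -((QuotientAddGroup.mk : A → A ⧸ C ω) '' F ω)).Finite := a3.union a3.neg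
    refine ⟨A ⧸ C ω, _, fun k => ((τ k b : A) : A ⧸ C ω),
      (Set.Finite.pi' fun _ : Fin m => a6).image fun w => ∑ i, w i, fun k hk => ?_,
      fun k l _ hk hl e => a1 ⟨(B ω).sub_mem ((a4 _ _).1 hk.1) ((a4 _ _).1 hl.1),
        QuotientAddGroup.eq_iff_sub_mem.1 e⟩⟩
    refine ⟨fun i => ((τ k (v i) : A) : A ⧸ C ω), fun i => ?_, ?_⟩
    · rcases hk.2.2.1 i with h1 | h1
      · exact Or.inl ⟨_, (a2 _ _).1 h1, rfl⟩
      · exact Or.inr ⟨_, (a2 _ _).1 h1, by rw [map_neg, QuotientAddGroup.mk_neg]⟩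
    · have h1 := (a5 _ _).1 hk.2.2.2
      rw [map_sub, map_sum] at h1
      exact ((QuotientAddGroup.eq_iff_sub_mem.2 h1).trans (QuotientAddGroup.mk_sum _ _)).symm

theorem ext_clo (hτ : Act τ) {K B : Ω.X → AddSubgroup A} (hK : Rsg Ω τ K) (hB : Rsg Ω τ B)
    (h : RW Ω τ K B) :
    ∃ C, Rsg Ω τ C ∧ Clo Ω τ C ∧ ∀ᵐ ω ∂Ω.ν, K ω ≤ C ω ∧ B ω ⊓ C ω ≤ K ω := by
  obtain ⟨C, ⟨hC, hKC⟩, hmax⟩ := exh (Ω := Ω)
    (fun C => Rsg Ω τ C ∧ ∀ᵐ ω ∂Ω.ν, K ω ≤ C ω ∧ B ω ⊓ C ω ≤ K ω) (fun C h => h.1.meas)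
    (fun C h1 h2 => by
      refine ⟨?_, ?_⟩
      · simp only [AddSubgroup.iSup_eq_closure]
        refine rsg_closure hτ (fun x => ?_) ?_
        · simp only [Set.mem_iUnion, Set.ofPred_exists]
          exact MeasurableSet.iUnion fun n => (h1 n).1.meas x
        · filter_upwards [ae_all_iff.2 fun n => (h1 n).1.eqv] with ω hω k x
          simp only [Set.mem_iUnion]
          exact exists_congr fun n => hω n k x
      · filter_upwards [ae_all_iff.2 fun n => (h1 n).2, ae_all_iff.2 h2] with ω a1 a2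
        refine ⟨(a1 0).1.trans (le_iSup (fun n => C n ω) 0), fun x hx => ?_⟩
        obtain ⟨n, hn⟩ := (AddSubgroup.mem_iSup_of_directed
          (monotone_nat_of_le_succ a2).directed_le).1 hx.2
        exact (a1 n).2 ⟨hx.1, hn⟩)
    (K0 := K) ⟨hK, Eventually.of_forall fun _ => ⟨le_rfl, inf_le_right⟩⟩
  refine ⟨C, hC, fun x y => by_contra fun hn => ?_, hKC⟩
  obtain ⟨U, δ, hU, hδ, hl⟩ := exists_ultra (C := Ω.ν.real Set.univ)
    (fun _ => measureReal_nonneg) (fun _ => measureReal_mono (Set.subset_univ _)) hn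
  obtain ⟨Φ, h1, h2, h3⟩ := ext_phi hC U y
  have hM : 0 < Ω.ν.real Set.univ + 1 := add_pos_of_nonneg_of_pos measureReal_nonneg one_pos
  have hε : 0 < δ / (Ω.ν.real Set.univ + 1) := div_pos hδ hM
  have hF : ∀ z, MeasurableSet {ω | z ∈ {z | δ / (Ω.ν.real Set.univ + 1) ≤ Φ z ω}} := fun z =>
    measurableSet_le measurable_const (h1 z)
  have he : ∀ᵐ ω ∂Ω.ν, ∀ k z, z ∈ {z | δ / (Ω.ν.real Set.univ + 1) ≤ Φ z (Ω.T k ω)} ↔
      τ k z ∈ {z | δ / (Ω.ν.real Set.univ + 1) ≤ Φ z ω} :=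
    (ext_eqv hτ hC hU h1 h2 h3).mono fun ω hω k z => by
      rw [Set.mem_ofPred_eq, Set.mem_ofPred_eq, hω]
  have h4 := ae_all_iff.2 fun b => ae_all_iff.2 fun m => ae_all_iff.2 fun v =>
    ext_ph hτ hK hB hC h (hKC.mono fun _ hω => hω.2) hF he
      ((ext_bes hC h2 h3).mono fun ω hω => ext_fin hε hω) b m v
  have h5 := hmax _ ⟨hC.sup hτ (rsg_closure hτ hF he), by
    filter_upwards [hKC, h4] with ω a1 a2
    refine ⟨a1.1.trans le_sup_left, fun b hb => by_contra fun hb' => ?_⟩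
    obtain ⟨c, hc, d, hd, e⟩ := AddSubgroup.mem_sup.1 hb.2
    obtain ⟨m, v, hv, rfl⟩ := ext_vec hd
    exact a2 b m v ⟨hb.1, hb', hv, by rwa [← e, add_sub_cancel_right]⟩⟩
    (Eventually.of_forall fun _ => le_sup_left)
  have hE : MeasurableSet {ω | x ∉ C ω} := (hC.meas x).compl
  have h6 : δ = ∫ ω in {ω | x ∉ C ω}, Φ x ω ∂Ω.ν := by
    refine tendsto_nhds_unique hl ((h3 x _ hE).congr fun N =>
      congrFun (congrArg av (funext fun l => congrArg _ ?_)) N)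
    ext ω
    simp
  have h7 := setIntegral_mono_on_ae (g := fun _ => δ / (Ω.ν.real Set.univ + 1))
    (h2 x).integrableOn (integrable_const _) hE (h5.mono fun ω hω hx => not_lt.1 fun h8 =>
      hx (hω (AddSubgroup.mem_sup_right (AddSubgroup.subset_closure h8.le))))
  rw [← h6, setIntegral_const, smul_eq_mul, ← mul_div_assoc, le_div_iff₀ hM] at h7
  have h8 : Ω.ν.real {ω | x ∉ C ω} ≤ Ω.ν.real Set.univ := measureReal_mono (Set.subset_univ _)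
  nlinarith

end Pool.Agent.Lib.MP_1db5af_an.Th
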