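import Pool.Agent.Lib.MP_1db5af_an.Th.GCat
import Pool.Agent.Lib.MP_1db5af_an.Th.Rel
import Pool.Agent.Lib.MP_1db5af_an.Th.FinExt

set_option autoImplicit false

namespace Pool.Agent.Lib.MP_1db5af_an.Th

open MeasureTheory ProbabilityTheory Filter Topology ComplexConjugate
open scoped ENNReal NNReal InnerProductSpace

/-- Words in the leaves. -/
inductive Wd (L κ : Type) : Type
  | leaf (l : L) : Wd L κ
  | id (i : κ) : Wd L κ
  | zero (j : κ) : Wd L κ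
  | comp (u v : Wd L κ) : Wd L κ
  | add (u v : Wd L κ) : Wd L κ
  | neg (u : Wd L κ) : Wd L κ

variable {L κ A : Type} [AddCommGroup A]

/-- A code of words. -/
def Wd.code (f : L → ℕ) (g : κ → ℕ) : Wd L κ → ℕ
  | .leaf l => Nat.pair 0 (f l)
  | .id i => Nat.pair 1 (g i)
  | .zero j => Nat.pair 2 (g j)
  | .comp u v => Nat.pair 3 (Nat.pair (u.code f g) (v.code f g))
  | .add u v => Nat.pair 4 (Nat.pair (u.code f g) (v.code f g))
  | .neg u => Nat.pair 5 (u.code f g)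

instance [Countable L] [Countable κ] : Countable (Wd L κ) := by
  obtain ⟨f, hf⟩ := exists_injective_nat L
  obtain ⟨g, hg⟩ := exists_injective_nat κ
  refine Function.Injective.countable (f := Wd.code f g) fun u => ?_
  induction u with
  | leaf l => intro v e; cases v <;> simp_all [Wd.code, hf.eq_iff]
  | id i => intro v e; cases v <;> simp_all [Wd.code, hg.eq_iff]
  | zero j => intro v e; cases v <;> simp_all [Wd.code, hg.eq_iff]
  | comp u u' ih ih' =>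
    intro v e
    cases v <;> simp only [Wd.code, Nat.pair_eq_pair] at e <;> try omega
    rw [ih e.2.1, ih' e.2.2]
  | add u u' ih ih' =>
    intro v e
    cases v <;> simp only [Wd.code, Nat.pair_eq_pair] at e <;> try omega
    rw [ih e.2.1, ih' e.2.2]
  | neg u ih =>
    intro v e
    cases v <;> simp only [Wd.code, Nat.pair_eq_pair] at e <;> try omega
    rw [ih e.2]

/-- The relation described by a word. -/
def Wd.ev (R : κ → AddSubgroup A) (f : L → AddSubgroup (A × A)) : Wd L κ → AddSubgroup (A × A)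
  | .leaf l => f l
  | .id i => gid (R i)
  | .zero j => gzero (R j)
  | .comp u v => gcomp (u.ev R f) (v.ev R f)
  | .add u v => gadd (u.ev R f) (v.ev R f)
  | .neg u => gneg (u.ev R f)

/-- Well formed words with leaves in `Λ`. -/
inductive Wd.Ok (src tgt : L → κ) (Λ : Set L) : Wd L κ → κ → κ → Prop
  | leaf {l : L} : l ∈ Λ → Wd.Ok src tgt Λ (.leaf l) (src l) (tgt l)
  | id (i : κ) : Wd.Ok src tgt Λ (.id i) i i
  | zero (i j : κ) : Wd.Ok src tgt Λ (.zero j) i j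
  | comp {u v : Wd L κ} {i j k : κ} :
      Wd.Ok src tgt Λ u i j → Wd.Ok src tgt Λ v j k → Wd.Ok src tgt Λ (.comp u v) i k
  | add {u v : Wd L κ} {i j : κ} :
      Wd.Ok src tgt Λ u i j → Wd.Ok src tgt Λ v i j → Wd.Ok src tgt Λ (.add u v) i j
  | neg {u : Wd L κ} {i j : κ} : Wd.Ok src tgt Λ u i j → Wd.Ok src tgt Λ (.neg u) i j

variable {src tgt : L → κ} {Λ Λ' : Set L} {w w' : Wd L κ} {i j j' : κ}

theorem Wd.Ok.mono (h : Wd.Ok src tgt Λ w i j) (e : Λ ⊆ Λ') : Wd.Ok src tgt Λ' w i j := by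
  induction h with
  | leaf hl => exact .leaf (e hl)
  | id i => exact .id i
  | zero i j => exact .zero i j
  | comp _ _ e1 e2 => exact e1.comp e2
  | add _ _ e1 e2 => exact e1.add e2
  | neg _ e1 => exact e1.neg

theorem Wd.Ok.congr (h : Wd.Ok src tgt Λ w i j) (R : κ → AddSubgroup A)
    {f f' : L → AddSubgroup (A × A)} (e : ∀ l ∈ Λ, f l = f' l) : w.ev R f = w.ev R f' := by
  induction h with
  | leaf hl => exact e _ hl
  | id i => rfl
  | zero i j => rfl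
  | comp _ _ e1 e2 => simp only [Wd.ev, e1, e2]
  | add _ _ e1 e2 => simp only [Wd.ev, e1, e2]
  | neg _ e1 => simp only [Wd.ev, e1]

theorem Gen.word {R : κ → AddSubgroup A} {Lf : κ → κ → AddSubgroup (A × A) → Prop} {V : L → Prop}
    {f : L → AddSubgroup (A × A)}
    (hL : ∀ i j g, Lf i j g → ∃ l, src l = i ∧ tgt l = j ∧ V l ∧ g = f l)
    {g : AddSubgroup (A × A)} (h : Gen R Lf i j g) :
    ∃ (w : Wd L κ) (Λ : Finset L), (∀ l ∈ Λ, V l) ∧ Wd.Ok src tgt Λ w i j ∧ g = w.ev R f := by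
  classical
  induction h with
  | leaf e =>
    obtain ⟨l, rfl, rfl, e1, rfl⟩ := hL _ _ _ e
    exact ⟨.leaf l, {l}, by simpa using e1, .leaf (by simp), rfl⟩
  | id i => exact ⟨.id i, ∅, by simp, .id i, rfl⟩
  | zero i j => exact ⟨.zero j, ∅, by simp, .zero i j, rfl⟩
  | comp _ _ e1 e2 =>
    obtain ⟨u, s, e3, e4, rfl⟩ := e1
    obtain ⟨v, t, e5, e6, rfl⟩ := e2
    exact ⟨.comp u v, s ∪ t, fun l hl => (Finset.mem_union.1 hl).elim (e3 l) (e5 l),
      (e4.mono (by simp)).comp (e6.mono (by simp)), rfl⟩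
  | add _ _ e1 e2 =>
    obtain ⟨u, s, e3, e4, rfl⟩ := e1
    obtain ⟨v, t, e5, e6, rfl⟩ := e2
    exact ⟨.add u v, s ∪ t, fun l hl => (Finset.mem_union.1 hl).elim (e3 l) (e5 l),
      (e4.mono (by simp)).add (e6.mono (by simp)), rfl⟩
  | neg _ e1 =>
    obtain ⟨u, s, e3, e4, rfl⟩ := e1
    exact ⟨.neg u, s, e3, e4.neg, rfl⟩

/-- Countably many leaves generate countably many relations. -/
theorem gen_countable [Countable L] [Countable κ] {R : κ → AddSubgroup A}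
    {Lf : κ → κ → AddSubgroup (A × A) → Prop} {V : L → Prop} {f : L → AddSubgroup (A × A)}
    (hL : ∀ i j g, Lf i j g → ∃ l, src l = i ∧ tgt l = j ∧ V l ∧ g = f l) (i j : κ) :
    {g | Gen R Lf i j g}.Countable :=
  (Set.countable_range fun w : Wd L κ => w.ev R f).mono fun _ hg => by
    obtain ⟨w, _, _, _, e⟩ := Gen.word hL hg
    exact ⟨w, e.symm⟩

/-- A closed subgroup above `R` is everything or has no new marked point. -/
def SimpAt (Z : MS) (τ : ℤ → A →+ A) (Mk : Set A) (R : Z.X → AddSubgroup A) : Prop :=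
  ∀ K, Rsg Z τ K → Clo Z τ K → (∀ᵐ z ∂Z.ν, R z ≤ K z) →
    ∀ᵐ z ∂Z.ν, K z = ⊤ ∨ ∀ e ∈ Mk, e ∈ K z → e ∈ R z

variable [Countable A] {τ : ℤ → A →+ A} {Mk : Set A}

section Inner

variable {Z : MS} {R : κ → Z.X → AddSubgroup A} {f : L → Z.X → AddSubgroup (A × A)}

theorem gae_word (hτ : Act τ) (hR : ∀ i, Rsg Z τ (R i)) (hS : ∀ i, SimpAt Z τ Mk (R i))
    (hf : ∀ l ∈ Λ, Rsg Z (tau2 τ τ) (f l) ∧ ∀ᵐ z ∂Z.ν, SV (R (src l) z) (R (tgt l) z) (f l z) ∧
      ∃ e ∈ Mk, e ∈ gdom (f l z) ∧ e ∉ R (src l) z) (h : Wd.Ok src tgt Λ w i j) :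
    Rsg Z (tau2 τ τ) (fun z => w.ev (fun i => R i z) fun l => f l z) ∧
      (∀ᵐ z ∂Z.ν, SV (R i z) (R j z) (w.ev (fun i => R i z) fun l => f l z)) ∧
      Full Z τ fun z => gdom (w.ev (fun i => R i z) fun l => f l z) := by
  induction h with
  | @leaf l hl =>
    refine ⟨(hf l hl).1, (hf l hl).2.mono fun z hz => hz.1, fun K e1 e2 e3 => ?_⟩
    filter_upwards [hS _ K e1 e2 (by
      filter_upwards [(hf l hl).2, e3] with z e4 e5 x hx using
        e5 (gcat_dom.2 ⟨0, e4.1.1 x hx⟩)), (hf l hl).2, e3] with z e4 ⟨_, e, e5, e6, e7⟩ e8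
    exact e4.resolve_right fun e9 => e7 (e9 e e5 (e8 e6))
  | id i => exact ⟨(hR i).gid, Eventually.of_forall fun _ => sv_gid, full_top.mono
      (Eventually.of_forall fun z x _ => gcat_dom.2 ⟨x, gcat_id.2 (by simp)⟩)⟩
  | zero i j => exact ⟨(hR j).gzero, Eventually.of_forall fun _ => sv_gzero, full_top.mono
      (Eventually.of_forall fun z x _ => gcat_dom.2 ⟨0, (R j z).zero_mem⟩)⟩
  | comp _ _ e1 e2 =>
    refine ⟨e1.1.gcomp hτ e2.1, (e1.2.1.and e2.2.1).mono fun z hz => hz.1.comp hz.2,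
      (full_pre hτ hτ e1.1 (e2.1.gdom hτ hτ) e1.2.2 e2.2.2).mono
        (Eventually.of_forall fun z x hx => ?_)⟩
    obtain ⟨y, e3, e4⟩ := gcat_dom.1 hx
    obtain ⟨y', e5⟩ := gcat_dom.1 e4
    exact gcat_dom.2 ⟨y', y, e3, e5⟩
  | add _ _ e1 e2 =>
    refine ⟨e1.1.gadd hτ e2.1, (e1.2.1.and e2.2.1).mono fun z hz => hz.1.add hz.2,
      (full_inf hτ (e1.1.gdom hτ hτ) (e2.1.gdom hτ hτ) e1.2.2 e2.2.2).mono
        (Eventually.of_forall fun z x hx => ?_)⟩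
    obtain ⟨y, e3⟩ := gcat_dom.1 hx.1
    obtain ⟨y', e4⟩ := gcat_dom.1 hx.2
    exact gcat_dom.2 ⟨y + y', y, e3, by simpa using e4⟩
  | neg _ e1 =>
    refine ⟨e1.1.gneg, e1.2.1.mono fun z hz => hz.neg,
      e1.2.2.mono (Eventually.of_forall fun z x hx => ?_)⟩
    obtain ⟨y, e3⟩ := gcat_dom.1 hx
    exact gcat_dom.2 ⟨-y, gcat_neg.2 (by simpa using e3)⟩

omit [Countable A] in
theorem gae_null {P Q : AddSubgroup A} {g : AddSubgroup (A × A)} (hg : SV P Q g)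
    (h : gdom g ≤ gker g) : GNull Q g := fun ⟨x, y⟩ e => by
  simpa using hg.refl x y 0 e (h (gcat_dom.2 ⟨y, e⟩))

/-- The two properties of a pair of relations. -/
def G23 (Mk : Set A) (P Q : AddSubgroup A) (g h : AddSubgroup (A × A)) : Prop :=
  (∀ e ∈ Mk, e ∉ P → (e, 0) ∈ g → GNull Q g) ∧
    ((∀ x y, (x, y) ∈ g → x ∈ gdom h → y ∈ Q) → GNull Q g)

theorem gae_inner (hτ : Act τ) (hR : ∀ i, Rsg Z τ (R i)) (hC : ∀ i, Clo Z τ (R i))
    (hS : ∀ i, SimpAt Z τ Mk (R i))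
    (hf : ∀ l ∈ Λ, Rsg Z (tau2 τ τ) (f l) ∧ ∀ᵐ z ∂Z.ν, SV (R (src l) z) (R (tgt l) z) (f l z) ∧
      ∃ e ∈ Mk, e ∈ gdom (f l z) ∧ e ∉ R (src l) z) (h : Wd.Ok src tgt Λ w i j)
    (h' : Wd.Ok src tgt Λ w' i j') :
    ∀ᵐ z ∂Z.ν, G23 Mk (R i z) (R j z) (w.ev (fun i => R i z) fun l => f l z)
      (w'.ev (fun i => R i z) fun l => f l z) := by
  obtain ⟨e1, e2, e3⟩ := gae_word hτ hR hS hf h
  obtain ⟨e4, _, e5⟩ := gae_word hτ hR hS hf h'
  obtain ⟨K, k1, k2, k3⟩ := ker_clo hτ hτ e1 (hR j) (hC j) (e2.mono fun z hz => hz.2)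
  filter_upwards [e2, k3, hS i K k1 k2 (by
      filter_upwards [e2, k3] with z e6 e7 x hx using e7.1 (e6.1 x hx)),
    z3 hτ hτ e1 (hR j) (hC j) (e2.mono fun z hz => hz.2) (e4.gdom hτ hτ)
      (full_inf hτ (e4.gdom hτ hτ) (e1.gdom hτ hτ) e5 e3)] with z e6 e7 e8 e9
  refine ⟨fun e he he' e10 => gae_null e6 fun x hx => e7.2 ⟨hx, ?_⟩,
    fun e10 => gae_null e6 (e9 fun x hx => ?_)⟩
  · rw [e8.resolve_right fun e11 => he' (e11 e he (e7.1 e10))]
    trivial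
  · obtain ⟨y, e11⟩ := gcat_dom.1 hx.2
    exact e6.right (by simpa using e10 x y e11 hx.1) e11

end Inner

variable {Y : MS} {R : κ → Y.X → AddSubgroup A} {V : L → Set Y.X}
  {F : L → Y.X → AddSubgroup (A × A)} {D : ℕ}

theorem gae_pair [Countable L] (hτ : Act τ) (hM : ∀ k, ∀ e ∈ Mk, τ k e ∈ Mk)
    (hR : ∀ i, Rsg Y τ (R i)) (hC : ∀ i, Clo Y τ (R i))
    (hS : ∀ (Z : MS) (π : Z.X → Y.X), Ext Z Y π → ∀ i, SimpAt Z τ Mk fun z => R i (π z))
    (hV : ∀ l, MeasurableSet (V l)) (hF : ∀ l x, MeasurableSet {y | x ∈ F l y})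
    (hL : ∀ l, ∀ᵐ y ∂Y.ν, y ∈ V l → SV (R (src l) y) (R (tgt l) y) (F l y) ∧
      ∃ e ∈ Mk, e ∈ gdom (F l y) ∧ e ∉ R (src l) y)
    (hD : ∀ l, ∀ᵐ y ∂Y.ν,
      {g | ∃ t, Y.T t y ∈ V l ∧ g = (F l (Y.T t y)).comap (tau2 τ τ (-t))}.encard ≤ D)
    (Λ : Finset L) (h : Wd.Ok src tgt Λ w i j) (h' : Wd.Ok src tgt Λ w' i j') :
    ∀ᵐ y ∂Y.ν, (∀ l ∈ Λ, y ∈ V l) → G23 Mk (R i y) (R j y)
      (w.ev (fun i => R i y) fun l => F l y) (w'.ev (fun i => R i y) fun l => F l y) := by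
  classical
  have h2 := act_tau2 hτ hτ
  have hT : MAct (piT (κ := L) (shS (tau2 τ τ))) := mact_pi (mact_shS h2)
  let v : Y.X → L → A × A → Bool := fun y l => if l ∈ Λ then enc (F l y) else fun _ => false
  have hv : Measurable v := measurable_pi_lambda _ fun l => by
    by_cases hl : l ∈ Λ
    · simpa only [v, if_pos hl] using meas_enc (hF l)
    · simpa only [v, if_neg hl] using measurable_const
  have hE : MeasurableSet {y | ∀ l ∈ Λ, y ∈ V l} :=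
    measurableSet_setOfPred.2 (Measurable.forall fun l => measurable_const.imp (hV l).mem)
  obtain ⟨m, m1, m2, m3⟩ := finext Y hT (κ := Unit) (E := fun _ => {y | ∀ l ∈ Λ, y ∈ V l})
    (fun _ => hE) (v := fun _ => v) (fun _ => hv) (D ^ Λ.card) (by
      filter_upwards [ae_all_iff.2 hD] with y hy
      refine le_trans (Set.encard_le_encard (t := (fun (G : Λ → AddSubgroup (A × A)) (l : L) =>
        if hl : l ∈ Λ then enc (G ⟨l, hl⟩) else fun _ => false) '' Set.univ.pi fun l : Λ =>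
          {g | ∃ t, Y.T t y ∈ V l ∧ g = (F l (Y.T t y)).comap (tau2 τ τ (-t))}) ?_)
        ((Set.encard_image_le _ _).trans ?_)
      · rintro _ ⟨_, t, e1, rfl⟩
        refine ⟨fun l => (F l (Y.T t y)).comap (tau2 τ τ (-t)), fun l _ => ⟨t, e1 l l.2, rfl⟩,
          funext fun l => ?_⟩
        by_cases hl : l ∈ Λ
        · simp only [piT, v, dif_pos hl, if_pos hl]
          rfl
        · simp only [piT, v, dif_neg hl, if_neg hl]
          rfl
      · rw [Set.encard_pi_eq_prod_encard]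
        simpa using Finset.prod_le_pow_card Finset.univ _ (D : ℕ∞) fun (l : Λ) _ => hy l)
  let Z : MS := { X := Y.X × (L → A × A → Bool), ν := m, T := _, sys := m2 }
  have hπ : Ext Z Y Prod.fst := ⟨⟨measurable_fst, Measure.AbsolutelyContinuous.mk fun s hs e => by
    rw [Measure.map_apply measurable_fst hs]
    refine le_zero_iff.1 ((m3 _ (measurable_fst hs)).2.trans
      (le_of_eq (mul_eq_zero_of_right _ (measure_mono_null ?_ e))))
    exact fun y ⟨_, _, _, hy⟩ => hy⟩,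
    fun _ => Eventually.of_forall fun _ => rfl⟩
  have h3 : ∀ᵐ z ∂m, ∃ t, (∀ l ∈ Λ, Y.T t z.1 ∈ V l) ∧
      z.2 = piT (shS (tau2 τ τ)) (-t) (v (Y.T t z.1)) := by
    have e1 : MeasurableSet {z : Y.X × (L → A × A → Bool) | ¬ ∃ t, (∀ l ∈ Λ, Y.T t z.1 ∈ V l) ∧
        z.2 = piT (shS (tau2 τ τ)) (-t) (v (Y.T t z.1))} :=
      measurableSet_setOfPred.2 (Measurable.exists fun t =>
        (hE.mem.comp ((Y.sys.meas t).comp measurable_fst)).and (measurableSet_setOfPred.1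
          (measurableSet_eq_fun measurable_snd ((hT.meas _).comp
            (hv.comp ((Y.sys.meas t).comp measurable_fst)))))).not
    refine le_zero_iff.1 ((m3 _ e1).2.trans
      (le_of_eq (mul_eq_zero_of_right _ (measure_mono_null ?_ measure_empty))))
    exact fun y ⟨_, t, e2, e3⟩ => (e3 ⟨t, e2, rfl⟩).elim
  have h4 := gae_inner (Z := Z) (R := fun i z => R i z.1) (f := fun l z => dec (z.2 l)) hτ
    (fun i => (hR i).ext hπ) (fun i => RW.ext (hC i) (hR i) rsg_top hπ) (hS Z _ hπ)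
    (fun l hl => ⟨rsg_dec h2 ((measurable_pi_apply l).comp measurable_snd)
      fun _ => Eventually.of_forall fun _ => rfl, by
        filter_upwards [h3, hπ.qmp.ae (sys_ae Y.sys (hL l)), hπ.qmp.ae (hR (src l)).eqv,
          hπ.qmp.ae (hR (tgt l)).eqv] with z ⟨t, e1, e2⟩ e3 e4 e5
        obtain ⟨e6, e, e7, e8, e9⟩ := e3 t (e1 l hl)
        have e10 : ∀ x y, (x, y) ∈ dec (z.2 l) ↔ (τ (-t) x, τ (-t) y) ∈ F l (Y.T t z.1) :=
          fun x y => by
            rw [e2, piT, dec_shS h2]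
            simp only [v, if_pos (show l ∈ Λ from hl), dec_enc]
            rfl
        obtain ⟨y, e8⟩ := gcat_dom.1 e8
        refine ⟨⟨fun x hx => (e10 _ _).2 ?_, fun y => ?_⟩, τ t e, hM t e e7,
          gcat_dom.2 ⟨τ t y, (e10 _ _).2 ?_⟩, fun e11 => e9 ((e4 t e).2 e11)⟩
        · rw [map_zero]
          exact e6.1 _ ((e4 t _).2 (by rwa [rsg_inv hτ]))
        · rw [e10, map_zero, e6.2, e5, rsg_inv hτ]
        · rwa [rsg_inv' hτ, rsg_inv' hτ]⟩) h h'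
  have h5 := (m3 _ (measurableSet_toMeasurable m _)).1.trans
    (le_of_eq ((measure_toMeasurable _).trans (ae_iff.1 h4)))
  filter_upwards [measure_eq_zero_iff_ae_notMem.1 (le_zero_iff.1 h5)] with y hy hy'
  have e1 : ∀ l ∈ (Λ : Set L), F l y = dec (v y l) := fun l hl => by
    simp only [v, if_pos (show l ∈ Λ from hl), dec_enc]
  rw [h.congr _ e1, h'.congr _ e1]
  by_contra e2
  refine hy ⟨(), 0, by rwa [Y.sys.zero], subset_toMeasurable _ _ ?_⟩
  rw [Y.sys.zero, neg_zero, hT.zero]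
  exact e2

theorem gae_germ [Countable L] [Countable κ] (hτ : Act τ) (hM : ∀ k, ∀ e ∈ Mk, τ k e ∈ Mk)
    (hR : ∀ i, Rsg Y τ (R i)) (hC : ∀ i, Clo Y τ (R i))
    (hS : ∀ (Z : MS) (π : Z.X → Y.X), Ext Z Y π → ∀ i, SimpAt Z τ Mk fun z => R i (π z))
    (hV : ∀ l, MeasurableSet (V l)) (hF : ∀ l x, MeasurableSet {y | x ∈ F l y})
    (hL : ∀ l, ∀ᵐ y ∂Y.ν, y ∈ V l → SV (R (src l) y) (R (tgt l) y) (F l y) ∧
      ∃ e ∈ Mk, e ∈ gdom (F l y) ∧ e ∉ R (src l) y)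
    (hD : ∀ l, ∀ᵐ y ∂Y.ν,
      {g | ∃ t, Y.T t y ∈ V l ∧ g = (F l (Y.T t y)).comap (tau2 τ τ (-t))}.encard ≤ D)
    {Lf : Y.X → κ → κ → AddSubgroup (A × A) → Prop}
    (hLf : ∀ y i j g, Lf y i j g → ∃ l, src l = i ∧ tgt l = j ∧ y ∈ V l ∧ g = F l y) :
    ∀ᵐ y ∂Y.ν, Germ (fun i => R i y) (Lf y) Mk := by
  classical
  have h1 : ∀ᵐ y ∂Y.ν, ∀ (Λ : Finset L) (w w' : Wd L κ) (i j j' : κ), Wd.Ok src tgt Λ w i j →
      Wd.Ok src tgt Λ w' i j' → (∀ l ∈ Λ, y ∈ V l) → G23 Mk (R i y) (R j y)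
        (w.ev (fun i => R i y) fun l => F l y) (w'.ev (fun i => R i y) fun l => F l y) := by
    simp only [ae_all_iff]
    exact fun Λ w w' i j j' h h' => gae_pair hτ hM hR hC hS hV hF hL hD Λ h h'
  filter_upwards [h1, ae_all_iff.2 hL] with y e1 e2
  have e3 : ∀ i j j' g h, Gen (fun i => R i y) (Lf y) i j g → Gen (fun i => R i y) (Lf y) i j' h →
      G23 Mk (R i y) (R j y) g h := fun i j j' g h hg hh => by
    obtain ⟨u, s, e3, e4, rfl⟩ := Gen.word (hLf y) hg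
    obtain ⟨v, t, e5, e6, rfl⟩ := Gen.word (hLf y) hh
    exact e1 (s ∪ t) u v i j j' (e4.mono (by simp)) (e6.mono (by simp))
      fun l hl => (Finset.mem_union.1 hl).elim (e3 l) (e5 l)
  refine ⟨fun i j g hg => ?_, fun i j g hg => (e3 i j j g g hg hg).1,
    fun i j j' g h hg hh => (e3 i j j' g h hg hh).2⟩
  obtain ⟨l, rfl, rfl, e4, rfl⟩ := hLf y i j g hg
  exact (e2 l e4).1

end Pool.Agent.Lib.MP_1db5af_an.Th
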