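import Pool.Agent.Lib.MP_1db5af_an.Th.GDefs

set_option autoImplicit false

namespace Pool.Agent.Lib.MP_1db5af_an.Th

variable {κ A : Type} [AddCommGroup A]

section Rel

variable {P Q S : AddSubgroup A} {g g' h h' k : AddSubgroup (A × A)} {x y : A}

theorem gcat_id : (x, y) ∈ gid P ↔ x - y ∈ P := Iff.rfl

theorem gcat_zero : (x, y) ∈ gzero P ↔ y ∈ P := Iff.rfl

theorem gcat_neg : (x, y) ∈ gneg g ↔ (x, -y) ∈ g := Iff.rfl

theorem gcat_comp : (x, y) ∈ gcomp g h ↔ ∃ z, (x, z) ∈ g ∧ (z, y) ∈ h := Iff.rfl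

theorem gcat_add : (x, y) ∈ gadd g h ↔ ∃ z, (x, z) ∈ g ∧ (x, y - z) ∈ h := Iff.rfl

theorem gcat_dom : x ∈ gdom g ↔ ∃ y, (x, y) ∈ g := by
  simp [gdom]

theorem SV.refl (hg : SV P Q g) : GEq Q g g := fun x y y' e1 e2 =>
  (hg.2 _).1 (by simpa using g.sub_mem e1 e2)

theorem SV.left (hg : SV P Q g) {x' : A} (e : x - x' ∈ P) (e1 : (x, y) ∈ g) : (x', y) ∈ g := by
  simpa using g.sub_mem e1 (hg.1 _ e)

theorem SV.right (hg : SV P Q g) {y' : A} (e : y - y' ∈ Q) (e1 : (x, y) ∈ g) : (x, y') ∈ g := by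
  simpa using g.sub_mem e1 ((hg.2 _).2 e)

theorem GEq.symm (e : GEq Q g h) : GEq Q h g := fun x y y' e1 e2 => by
  simpa using Q.neg_mem (e x y' y e2 e1)

theorem sv_gid : SV P P (gid P) :=
  ⟨fun x hx => gcat_id.2 (by simpa using hx), fun y => by simp [gcat_id]⟩

theorem sv_gzero : SV P Q (gzero Q) := ⟨fun _ _ => Q.zero_mem, fun _ => Iff.rfl⟩

theorem SV.comp (hg : SV P Q g) (hh : SV Q S h) : SV P S (gcomp g h) :=
  ⟨fun x hx => ⟨0, hg.1 x hx, h.zero_mem⟩, fun y => ⟨fun ⟨z, e1, e2⟩ =>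
    (hh.2 y).1 (hh.left (by simpa using (hg.2 z).1 e1) e2),
    fun e => ⟨0, g.zero_mem, (hh.2 y).2 e⟩⟩⟩

theorem SV.add (hg : SV P Q g) (hh : SV P Q h) : SV P Q (gadd g h) :=
  ⟨fun x hx => ⟨0, hg.1 x hx, by simpa using hh.1 x hx⟩, fun y => ⟨fun ⟨z, e1, e2⟩ => by
    simpa using Q.add_mem ((hg.2 z).1 e1) ((hh.2 _).1 e2),
    fun e => ⟨0, g.zero_mem, by simpa using (hh.2 y).2 e⟩⟩⟩

theorem SV.neg (hg : SV P Q g) : SV P Q (gneg g) :=
  ⟨fun x hx => gcat_neg.2 (by simpa using hg.1 x hx), fun y => by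
    rw [gcat_neg, hg.2, neg_mem_iff]⟩

theorem gnull_sub : GNull Q (gadd g (gneg h)) ↔ GEq Q g h :=
  ⟨fun e x y y' e1 e2 => e (x, y - y') ⟨y, e1, gcat_neg.2 (by simpa using e2)⟩,
    fun e ⟨x, y⟩ ⟨z, e1, e2⟩ => by simpa using e x z _ e1 (gcat_neg.1 e2)⟩

theorem geq_zero : GEq Q g (gzero Q) ↔ GNull Q g :=
  ⟨fun e ⟨x, y⟩ e1 => by simpa using e x y 0 e1 Q.zero_mem,
    fun e x y _ e1 e2 => Q.sub_mem (e (x, y) e1) e2⟩

theorem GEq.add (e : GEq Q g g') (e' : GEq Q h h') : GEq Q (gadd g h) (gadd g' h') :=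
  fun x y y' ⟨z, e1, e2⟩ ⟨z', e3, e4⟩ => by
    have := Q.add_mem (e x z z' e1 e3) (e' x _ _ e2 e4)
    convert this using 1
    abel

theorem GEq.neg (e : GEq Q g g') : GEq Q (gneg g) (gneg g') := fun x y y' e1 e2 => by
  have := Q.neg_mem (e x _ _ (gcat_neg.1 e1) (gcat_neg.1 e2))
  convert this using 1
  abel

theorem GEq.comp (hh : SV Q S h) (e : GEq Q g g') (e' : GEq S h h') :
    GEq S (gcomp g h) (gcomp g' h') := fun x y y' ⟨z, e1, e2⟩ ⟨z', e3, e4⟩ =>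
  e' z' y y' (hh.left (e x z z' e1 e3) e2) e4

end Rel

variable {R : κ → AddSubgroup A} {Lf : κ → κ → AddSubgroup (A × A) → Prop} {Mk : Set A}
  {i j k l : κ} {g h : AddSubgroup (A × A)}

theorem Germ.gen_sv (D : Germ R Lf Mk) (hg : Gen R Lf i j g) : SV (R i) (R j) g := by
  induction hg with
  | leaf e => exact D.sv _ _ _ e
  | id i => exact sv_gid
  | zero i j => exact sv_gzero
  | comp _ _ e1 e2 => exact e1.comp e2
  | add _ _ e1 e2 => exact e1.add e2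
  | neg _ e => exact e.neg

/-- Equality of germs. -/
def Germ.rel (D : Germ R Lf Mk) (i j : κ) : Setoid {g // Gen R Lf i j g} where
  r g h := GEq (R j) g.1 h.1
  iseqv := ⟨fun g => (D.gen_sv g.2).refl, GEq.symm, fun {a b c} e1 e2 =>
    gnull_sub.1 (D.g3 i j j _ _ (a.2.add c.2.neg) b.2 fun x y ⟨z, e3, e4⟩ e5 => by
      obtain ⟨y', e5⟩ := gcat_dom.1 e5
      have := (R j).add_mem (e1 x z y' e3 e5) (e2 x y' _ e5 (gcat_neg.1 e4))
      convert this using 1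
      abel)⟩

/-- The germs of relations from `i` to `j`. -/
def GH (D : Germ R Lf Mk) (i j : κ) : Type := Quotient (D.rel i j)

variable {D : Germ R Lf Mk}

/-- The germ of a generated relation. -/
def GH.mk (D : Germ R Lf Mk) (hg : Gen R Lf i j g) : GH D i j := Quotient.mk (D.rel i j) ⟨g, hg⟩

theorem GH.mk_eq {hg : Gen R Lf i j g} {hh : Gen R Lf i j h} :
    GH.mk D hg = GH.mk D hh ↔ GEq (R j) g h := Quotient.eq

theorem GH.surj (ξ : GH D i j) : ∃ (g : AddSubgroup (A × A)) (hg : Gen R Lf i j g),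
    GH.mk D hg = ξ := by
  obtain ⟨⟨g, hg⟩, rfl⟩ := Quotient.exists_rep ξ
  exact ⟨g, hg, rfl⟩

instance : Zero (GH D i j) := ⟨GH.mk D (Gen.zero i j)⟩

instance : Add (GH D i j) :=
  ⟨Quotient.map₂ (fun g h => ⟨_, g.2.add h.2⟩) fun _ _ e _ _ e' => GEq.add e e'⟩

instance : Neg (GH D i j) := ⟨Quotient.map (fun g => ⟨_, g.2.neg⟩) fun _ _ e => GEq.neg e⟩

/-- Composition of germs. -/
def GH.comp : GH D i j → GH D j k → GH D i k :=
  Quotient.map₂ (fun g h => ⟨_, g.2.comp h.2⟩) fun _ _ e h _ e' =>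
    GEq.comp (D.gen_sv h.2) e e'

theorem GH.mk_add (hg : Gen R Lf i j g) (hh : Gen R Lf i j h) :
    GH.mk D (hg.add hh) = GH.mk D hg + GH.mk D hh := rfl

theorem GH.mk_comp (hg : Gen R Lf i j g) (hh : Gen R Lf j k h) :
    GH.mk D (hg.comp hh) = (GH.mk D hg).comp (GH.mk D hh) := rfl

theorem GH.mk_eq_zero {hg : Gen R Lf i j g} : GH.mk D hg = 0 ↔ GNull (R j) g :=
  GH.mk_eq.trans geq_zero

instance : AddCommGroup (GH D i j) where
  add_assoc a b c := by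
    obtain ⟨g, hg, rfl⟩ := a.surj
    obtain ⟨h, hh, rfl⟩ := b.surj
    obtain ⟨k, hk, rfl⟩ := c.surj
    refine (GH.mk_eq (hg := (hg.add hh).add hk) (hh := hg.add (hh.add hk))).2 ?_
    rintro x y y' ⟨y1, ⟨y0, e1, e2⟩, e3⟩ ⟨z0, e4, z1, e5, e6⟩
    have := (R j).add_mem ((R j).add_mem ((D.gen_sv hg).refl x _ _ e1 e4)
      ((D.gen_sv hh).refl x _ _ e2 e5)) ((D.gen_sv hk).refl x _ _ e3 e6)
    convert this using 1
    dsimp only
    abel
  zero_add a := by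
    obtain ⟨g, hg, rfl⟩ := a.surj
    refine (GH.mk_eq (hg := (Gen.zero i j).add hg) (hh := hg)).2 ?_
    rintro x y y' ⟨z, e1, e2⟩ e3
    have := (R j).add_mem (gcat_zero.1 e1) ((D.gen_sv hg).refl x _ _ e2 e3)
    convert this using 1
    abel
  add_zero a := by
    obtain ⟨g, hg, rfl⟩ := a.surj
    refine (GH.mk_eq (hg := hg.add (Gen.zero i j)) (hh := hg)).2 ?_
    rintro x y y' ⟨z, e1, e2⟩ e3
    have := (R j).add_mem (gcat_zero.1 e2) ((D.gen_sv hg).refl x _ _ e1 e3)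
    convert this using 1
    abel
  add_comm a b := by
    obtain ⟨g, hg, rfl⟩ := a.surj
    obtain ⟨h, hh, rfl⟩ := b.surj
    refine (GH.mk_eq (hg := hg.add hh) (hh := hh.add hg)).2 ?_
    rintro x y y' ⟨z, e1, e2⟩ ⟨z', e3, e4⟩
    have := (R j).add_mem ((D.gen_sv hg).refl x _ _ e1 e4) ((D.gen_sv hh).refl x _ _ e2 e3)
    convert this using 1
    abel
  neg_add_cancel a := by
    obtain ⟨g, hg, rfl⟩ := a.surj
    refine (GH.mk_eq_zero (hg := hg.neg.add hg)).2 ?_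
    rintro ⟨x, y⟩ ⟨z, e1, e2⟩
    simpa using (D.gen_sv hg).refl x _ _ e2 (gcat_neg.1 e1)
  nsmul := nsmulRec
  zsmul := zsmulRec

/-- The identity germ. -/
def GH.one (D : Germ R Lf Mk) (i : κ) : GH D i i := GH.mk D (Gen.id i)

theorem GH.comp_assoc (a : GH D i j) (b : GH D j k) (c : GH D k l) :
    (a.comp b).comp c = a.comp (b.comp c) := by
  obtain ⟨g, hg, rfl⟩ := a.surj
  obtain ⟨h, hh, rfl⟩ := b.surj
  obtain ⟨f, hf, rfl⟩ := c.surj
  refine (GH.mk_eq (hg := (hg.comp hh).comp hf) (hh := hg.comp (hh.comp hf))).2 ?_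
  rintro x y y' ⟨y1, ⟨y0, e1, e2⟩, e3⟩ e4
  exact (D.gen_sv (hg.comp (hh.comp hf))).refl x _ _ ⟨y0, e1, y1, e2, e3⟩ e4

theorem GH.one_comp (a : GH D i j) : (GH.one D i).comp a = a := by
  obtain ⟨g, hg, rfl⟩ := a.surj
  refine (GH.mk_eq (hg := (Gen.id i).comp hg) (hh := hg)).2 ?_
  rintro x y y' ⟨z, e1, e2⟩ e3
  exact (D.gen_sv hg).refl z _ _ e2 ((D.gen_sv hg).left (gcat_id.1 e1) e3)

theorem GH.comp_one (a : GH D i j) : a.comp (GH.one D j) = a := by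
  obtain ⟨g, hg, rfl⟩ := a.surj
  refine (GH.mk_eq (hg := hg.comp (Gen.id j)) (hh := hg)).2 ?_
  rintro x y y' ⟨z, e1, e2⟩ e3
  exact (D.gen_sv hg).refl x _ _ ((D.gen_sv hg).right (gcat_id.1 e2) e1) e3

theorem GH.add_comp (a b : GH D i j) (c : GH D j k) : (a + b).comp c = a.comp c + b.comp c := by
  obtain ⟨g, hg, rfl⟩ := a.surj
  obtain ⟨h, hh, rfl⟩ := b.surj
  obtain ⟨f, hf, rfl⟩ := c.surj
  refine (GH.mk_eq (hg := (hg.add hh).comp hf) (hh := (hg.comp hf).add (hh.comp hf))).2 ?_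
  rintro x y y' ⟨y1, ⟨y0, e1, e2⟩, e3⟩ ⟨z, ⟨z1, e4, e5⟩, z2, e6, e7⟩
  refine (D.gen_sv hf).refl (z1 + z2) _ _ ((D.gen_sv hf).left ?_ e3) (by
    simpa using f.add_mem e5 e7)
  have := (R j).add_mem ((D.gen_sv hg).refl x _ _ e1 e4) ((D.gen_sv hh).refl x _ _ e2 e6)
  convert this using 1
  abel

theorem GH.comp_add (a : GH D i j) (b c : GH D j k) : a.comp (b + c) = a.comp b + a.comp c := by
  obtain ⟨g, hg, rfl⟩ := a.surj
  obtain ⟨h, hh, rfl⟩ := b.surj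
  obtain ⟨f, hf, rfl⟩ := c.surj
  refine (GH.mk_eq (hg := hg.comp (hh.add hf)) (hh := (hg.comp hh).add (hg.comp hf))).2 ?_
  rintro x y y' ⟨y1, e1, y0, e2, e3⟩ e4
  exact (D.gen_sv ((hg.comp hh).add (hg.comp hf))).refl x _ _
    ⟨y0, ⟨y1, e1, e2⟩, y1, e1, e3⟩ e4

/-- Composition with a fixed germ on the right. -/
def GH.compR (i : κ) (c : GH D j k) : GH D i j →+ GH D i k :=
  AddMonoidHom.mk' (fun a => a.comp c) fun a b => GH.add_comp a b c

/-- Composition with a fixed germ on the left. -/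
def GH.compL (a : GH D i j) (k : κ) : GH D j k →+ GH D i k :=
  AddMonoidHom.mk' a.comp (GH.comp_add a)

theorem GH.zero_comp (c : GH D j k) : (0 : GH D i j).comp c = 0 := map_zero (GH.compR i c)

theorem GH.comp_zero (a : GH D i j) : a.comp (0 : GH D j k) = 0 := map_zero (a.compL k)

instance : Ring (GH D i i) where
  mul := GH.comp
  one := GH.one D i
  mul_assoc := GH.comp_assoc
  one_mul := GH.one_comp
  mul_one := GH.comp_one
  left_distrib := GH.comp_add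
  right_distrib := GH.add_comp
  zero_mul := GH.zero_comp
  mul_zero := GH.comp_zero
  neg_add_cancel := neg_add_cancel
  zsmul := zsmulRec

theorem GH.mul_def (a b : GH D i i) : a * b = a.comp b := rfl

theorem GH.one_def : (1 : GH D i i) = GH.one D i := rfl

/-- Two generated relations that agree at a marked point have the same germ. -/
theorem GH.mk_eq_of_mark (hg : Gen R Lf i j g) (hh : Gen R Lf i j h) {e y : A} (he : e ∈ Mk)
    (he' : e ∉ R i) (e1 : (e, y) ∈ g) (e2 : (e, y) ∈ h) : GH.mk D hg = GH.mk D hh :=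
  GH.mk_eq.2 (gnull_sub.1 (D.g2 i j _ (hg.add hh.neg) e he he'
    ⟨y, e1, gcat_neg.2 (by simpa using e2)⟩))

/-- The germ ring of a smaller family embeds into the germ ring of a larger one. -/
theorem GH.exists_incl {κ0 : Type} {R0 : κ0 → AddSubgroup A}
    {Lf0 : κ0 → κ0 → AddSubgroup (A × A) → Prop} (D0 : Germ R0 Lf0 Mk) (D : Germ R Lf Mk) {o0 : κ0}
    {o : κ} (hR : R0 o0 = R o) (hG : ∀ {g}, Gen R0 Lf0 o0 o0 g → Gen R Lf o o g) :
    ∃ φ : GH D0 o0 o0 →+* GH D o o, Function.Injective φ ∧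
      ∀ (g : AddSubgroup (A × A)) (hg : Gen R0 Lf0 o0 o0 g), φ (GH.mk D0 hg) = GH.mk D (hG hg) := by
  let f : GH D0 o0 o0 → GH D o o := Quotient.map (fun g => ⟨g.1, hG g.2⟩) fun _ _ e => by
    change GEq (R o) _ _
    rw [← hR]
    exact e
  have hf : ∀ (g : AddSubgroup (A × A)) (hg : Gen R0 Lf0 o0 o0 g),
      f (GH.mk D0 hg) = GH.mk D (hG hg) := fun _ _ => rfl
  refine ⟨RingHom.mk' ⟨⟨f, ?_⟩, fun a b => ?_⟩ fun a b => ?_, fun a b e => ?_, hf⟩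
  · refine (GH.mk_eq (hg := hG (Gen.id o0)) (hh := Gen.id o)).2 ?_
    rw [hR]
    exact sv_gid.refl
  · obtain ⟨g, hg, rfl⟩ := a.surj
    obtain ⟨h, hh, rfl⟩ := b.surj
    rfl
  · obtain ⟨g, hg, rfl⟩ := a.surj
    obtain ⟨h, hh, rfl⟩ := b.surj
    rfl
  · obtain ⟨g, hg, rfl⟩ := a.surj
    obtain ⟨h, hh, rfl⟩ := b.surj
    exact GH.mk_eq.2 (hR ▸ (GH.mk_eq (hg := hG hg) (hh := hG hh)).1 e)

theorem Gen.map {κ0 : Type} {Lf0 : κ0 → κ0 → AddSubgroup (A × A) → Prop} (f : κ0 → κ)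
    (hL : ∀ i j g, Lf0 i j g → Lf (f i) (f j) g) {i j : κ0}
    (hg : Gen (fun i => R (f i)) Lf0 i j g) : Gen R Lf (f i) (f j) g := by
  induction hg with
  | leaf e => exact Gen.leaf (hL _ _ _ e)
  | id i => exact Gen.id _
  | zero i j => exact Gen.zero _ _
  | comp _ _ e1 e2 => exact e1.comp e2
  | add _ _ e1 e2 => exact e1.add e2
  | neg _ e => exact e.neg

theorem Germ.map {κ0 : Type} {Lf0 : κ0 → κ0 → AddSubgroup (A × A) → Prop} (D : Germ R Lf Mk)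
    (f : κ0 → κ) (hL : ∀ i j g, Lf0 i j g → Lf (f i) (f j) g) :
    Germ (fun i => R (f i)) Lf0 Mk :=
  ⟨fun i j g e => D.sv _ _ g (hL i j g e), fun _ _ g e => D.g2 _ _ g (e.map f hL),
    fun _ _ _ g h e e' => D.g3 _ _ _ g h (e.map f hL) (e'.map f hL)⟩

end Pool.Agent.Lib.MP_1db5af_an.Th
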