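import Pool.Agent.Lib.MP_1db5af_an.Th.GAe

set_option autoImplicit false

namespace Pool.Agent.Lib.MP_1db5af_an.Th

open MeasureTheory ProbabilityTheory Filter Topology ComplexConjugate
open scoped ENNReal NNReal InnerProductSpace

/-- A pair as a function. -/
def gsel {X : Type} (z : X × X) : Bool → X
  | false => z.1
  | true => z.2

/-- Two pairs as a function. -/
def gp4 {X : Type} (z z' : X × X) (i : Bool × Bool) : X := gsel (gsel (z, z') i.1) i.2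

variable {ι : Type} {Ω : MS} {R : Ω.X → AddSubgroup (AA ι)} {B : ι → Set Ω.X}
  {C : ι → ι → Ω.X × Ω.X → AddSubgroup (AA ι × AA ι)} {D : ℕ}

theorem g_ll {a b : ι} {k l : ℤ} {p q : Ω.X} {x y : AA ι} : (x, y) ∈ LL Ω C a b k l p q ↔
    (tau ι ℤ (-k) x, tau ι ℤ (-l) y) ∈ C a b (Ω.T k p, Ω.T l q) := Iff.rfl

theorem g_ll_shift {a b : ι} {k l s t : ℤ} {p q : Ω.X} {x y : AA ι} :
    (x, y) ∈ LL Ω C a b k l (Ω.T s p) (Ω.T t q) ↔
      (tau ι ℤ s x, tau ι ℤ t y) ∈ LL Ω C a b (k + s) (l + t) p q := by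
  rw [g_ll, g_ll, ← act_tau.add, ← act_tau.add, ← Ω.sys.add, ← Ω.sys.add,
    show -(k + s) + s = -k by ring, show -(l + t) + t = -l by ring]

theorem g_inv (k : ℤ) (x : AA ι) : tau ι ℤ k (tau ι ℤ (-k) x) = x := by
  rw [← act_tau.add, add_neg_cancel, act_tau.zero]

theorem Good.map {κ κ0 : Type} {p : κ → Ω.X} (h : Good Ω R B C p) {f : κ0 → κ}
    (hf : Function.Injective f) : Good Ω R B C fun i => p (f i) :=
  ⟨h.germ.map f fun _ _ _ e => ⟨hf.ne e.1, e.2⟩, fun _ _ e => h.mark _ _ (hf.ne e)⟩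

variable [Fintype ι]

theorem g_meas_ll (hA : ArrOut Ω R B C D) {X : Type} [MeasurableSpace X] {f g : X → Ω.X}
    (hf : Measurable f) (hg : Measurable g) (a b : ι) (k l : ℤ) (z : AA ι × AA ι) :
    MeasurableSet {x | z ∈ LL Ω C a b k l (f x) (g x)} :=
  (((Ω.sys.meas k).comp hf).prodMk ((Ω.sys.meas l).comp hg)) (hA.mC a b _)

theorem g_arr (hR : Rsg Ω (tau ι ℤ) R) (hA : ArrOut Ω R B C D) :
    ∀ᵐ p ∂Ω.ν.prod Ω.ν, ∀ a b k l, Ω.T k p.1 ∈ B a → Ω.T l p.2 ∈ B b →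
      IsArr (R p.1) (R p.2) (LL Ω C a b k l p.1 p.2) ∧
        (ee a k, ee b l) ∈ LL Ω C a b k l p.1 p.2 ∧ ee a k ∉ R p.1 ∧ ee b l ∉ R p.2 := by
  filter_upwards [ae_all_iff.2 fun k => ae_all_iff.2 fun l =>
    ((Ω.sys.mp k).prod (Ω.sys.mp l)).quasiMeasurePreserving.ae hA.arr,
    Measure.quasiMeasurePreserving_fst.ae hR.eqv, Measure.quasiMeasurePreserving_snd.ae hR.eqv]
    with p e1 e2 e3 a b k l h1 h2
  obtain ⟨e4, e5, e6⟩ := e1 k l a b h1 h2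
  have e7 : IsArr (R p.1) (R p.2) (LL Ω C a b k l p.1 p.2) := ⟨fun x => by
    rw [g_ll, map_zero]
    exact (e4.1 _).trans (by rw [Prod.map_fst, e2, g_inv]), fun y => by
    rw [g_ll, map_zero]
    exact (e4.2 _).trans (by rw [Prod.map_snd, e3, g_inv])⟩
  have e8 : (ee a k, ee b l) ∈ LL Ω C a b k l p.1 p.2 := by
    rw [g_ll, tau_ee, tau_ee, add_neg_cancel, add_neg_cancel]
    exact e5
  have e9 : ee a k ∉ R p.1 := fun h => e6 ((e2 k _).2 (by rwa [tau_ee, zero_add]))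
  refine ⟨e7, e8, e9, fun h => e9 ((e7.1 _).1 ?_)⟩
  simpa using AddSubgroup.sub_mem _ e8 ((e7.2 _).2 h)

theorem g_cnt (hA : ArrOut Ω R B C D) :
    ∀ᵐ p ∂Ω.ν.prod Ω.ν, ∀ a b k l, {g | ∃ t, (Ω.T k (Ω.T t p.1) ∈ B a ∧ Ω.T l (Ω.T t p.2) ∈ B b) ∧
      g = (LL Ω C a b k l (Ω.T t p.1) (Ω.T t p.2)).comap
        (tau2 (tau ι ℤ) (tau ι ℤ) (-t))}.encard ≤ D := by
  filter_upwards [ae_all_iff.2 fun k => ae_all_iff.2 fun l =>
    ((Ω.sys.mp k).prod (Ω.sys.mp l)).quasiMeasurePreserving.ae hA.count] with p e1 a b k l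
  refine le_trans (Set.encard_le_encard ?_) ((Set.encard_image_le
    (AddSubgroup.comap ((tau ι ℤ (-k)).prodMap (tau ι ℤ (-l)))) _).trans (e1 k l a b))
  rintro _ ⟨t, ⟨e2, e3⟩, rfl⟩
  have e4 : ∀ k q, Ω.T t (Ω.T k q) = Ω.T k (Ω.T t q) := fun k q => by
    rw [← Ω.sys.add, ← Ω.sys.add, add_comm]
  refine ⟨_, ⟨t, by rwa [Prod.map_fst, e4], by rwa [Prod.map_snd, e4], rfl⟩, ?_⟩
  ext ⟨x, y⟩
  change (tau ι ℤ (-t) (tau ι ℤ (-k) x), tau ι ℤ (-t) (tau ι ℤ (-l) y)) ∈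
      C a b (Ω.T t (Ω.T k p.1), Ω.T t (Ω.T l p.2)) ↔
    (tau ι ℤ (-k) (tau ι ℤ (-t) x), tau ι ℤ (-l) (tau ι ℤ (-t) y)) ∈
      C a b (Ω.T k (Ω.T t p.1), Ω.T l (Ω.T t p.2))
  simp only [← act_tau.add, e4, add_comm (-t)]

theorem g_good (hR : Rsg Ω (tau ι ℤ) R) (hC : Clo Ω (tau ι ℤ) R) (hS : GSimple Ω R)
    (hA : ArrOut Ω R B C D) {κ : Type} [Countable κ] (Y : MS) (π : κ → Y.X → Ω.X)
    (h1 : ∀ i, Measure.QuasiMeasurePreserving (π i) Y.ν Ω.ν)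
    (h2 : ∀ i k y, π i (Y.T k y) = Ω.T k (π i y))
    (h3 : ∀ i j, i ≠ j →
      Measure.QuasiMeasurePreserving (fun y => (π i y, π j y)) Y.ν (Ω.ν.prod Ω.ν)) :
    ∀ᵐ y ∂Y.ν, Good Ω R B C fun i => π i y := by
  have hE : ∀ i, Ext Y Ω (π i) := fun i => ⟨h1 i, fun k => Eventually.of_forall (h2 i k)⟩
  have h4 := gae_germ (Y := Y) (L := {l : κ × κ // l.1 ≠ l.2} × ι × ι × ℤ × ℤ) (Mk := Mark ι)
    (src := fun l => l.1.1.1) (tgt := fun l => l.1.1.2) (R := fun i y => R (π i y))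
    (V := fun l => {y | Ω.T l.2.2.2.1 (π l.1.1.1 y) ∈ B l.2.1 ∧
      Ω.T l.2.2.2.2 (π l.1.1.2 y) ∈ B l.2.2.1})
    (F := fun l y => LL Ω C l.2.1 l.2.2.1 l.2.2.2.1 l.2.2.2.2 (π l.1.1.1 y) (π l.1.1.2 y)) (D := D)
    (Lf := fun y => Leaf Ω B C fun i => π i y) act_tau
    (fun k _ ⟨a, l, e⟩ => ⟨a, l + k, by rw [e, tau_ee]⟩) (fun i => hR.ext (hE i))
    (fun i => RW.ext hC hR rsg_top (hE i))
    (fun Z ρ hρ i K e1 e2 e3 => (hS Z (fun z => π i (ρ z)) ⟨(h1 i).comp hρ.qmp,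
      fun k => (hρ.comm k).mono fun z hz => by rw [hz, h2]⟩ K e1 e2 e3).mono fun z hz =>
        hz.imp_right fun e4 _ ⟨a, k, e5⟩ => e5 ▸ e4 a k)
    (fun l => (((Ω.sys.meas _).comp (h1 _).measurable) (hA.mB _)).inter
      (((Ω.sys.meas _).comp (h1 _).measurable) (hA.mB _)))
    (fun l x => g_meas_ll hA (h1 _).measurable (h1 _).measurable _ _ _ _ x)
    (fun l => ((h3 _ _ l.1.2).ae (g_arr hR hA)).mono fun y hy e => by
      obtain ⟨e1, e2, e3, _⟩ := hy _ _ _ _ e.1 e.2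
      exact ⟨⟨fun x hx => (e1.1 x).2 hx, e1.2⟩, _, ⟨_, _, rfl⟩, gcat_dom.2 ⟨_, e2⟩, e3⟩)
    (fun l => ((h3 _ _ l.1.2).ae (g_cnt hA)).mono fun y hy => by
      simpa only [Set.mem_ofPred_eq, h2] using hy l.2.1 l.2.2.1 l.2.2.2.1 l.2.2.2.2)
    (fun y i j g ⟨e, a, b, k, l, e1, e2, e3⟩ => ⟨(⟨(i, j), e⟩, a, b, k, l), rfl, rfl, ⟨e1, e2⟩, e3⟩)
  have h5 : ∀ᵐ y ∂Y.ν, ∀ i j, i ≠ j → ∀ a b k l, Ω.T k (π i y) ∈ B a → Ω.T l (π j y) ∈ B b →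
      (ee a k, ee b l) ∈ LL Ω C a b k l (π i y) (π j y) ∧ ee a k ∉ R (π i y) ∧
        ee b l ∉ R (π j y) :=
    ae_all_iff.2 fun i => ae_all_iff.2 fun j => ae_all_iff.2 fun e =>
      ((h3 i j e).ae (g_arr hR hA)).mono fun y hy a b k l e1 e2 => (hy a b k l e1 e2).2
  filter_upwards [h4, h5] with y e1 e2 using ⟨e1, e2⟩

theorem g_good4 (hR : Rsg Ω (tau ι ℤ) R) (hC : Clo Ω (tau ι ℤ) R) (hS : GSimple Ω R)
    (hA : ArrOut Ω R B C D) :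
    ∀ᵐ z ∂Ω.ν.prod Ω.ν, ∀ᵐ z' ∂Ω.ν.prod Ω.ν, Good Ω R B C (gp4 z z') := by
  have s1 : ∀ {X : Type} [MeasurableSpace X] (m : Measure X) [SFinite m] (b : Bool),
      Measure.QuasiMeasurePreserving (fun z => gsel z b) (m.prod m) m := fun m _ b => by
    cases b
    · exact Measure.quasiMeasurePreserving_fst
    · exact Measure.quasiMeasurePreserving_snd
  have s2 : ∀ {X : Type} [MeasurableSpace X] (m : Measure X) [SFinite m] (b b' : Bool), b ≠ b' →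
      Measure.QuasiMeasurePreserving (fun z => (gsel z b, gsel z b')) (m.prod m) (m.prod m) :=
    fun m _ b b' h => by
      cases b <;> cases b'
      · exact absurd rfl h
      · exact Measure.QuasiMeasurePreserving.id _
      · exact Measure.measurePreserving_swap.quasiMeasurePreserving
      · exact absurd rfl h
  refine Measure.ae_ae_of_ae_prod (p := fun y => Good Ω R B C (gp4 y.1 y.2)) (g_good hR hC hS hA
    { X := (Ω.X × Ω.X) × Ω.X × Ω.X, ν := (Ω.ν.prod Ω.ν).prod (Ω.ν.prod Ω.ν), T := _,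
      sys := sys_prod (sys_prod Ω.sys Ω.sys) (sys_prod Ω.sys Ω.sys) }
    (fun i y => gp4 y.1 y.2 i) (fun i => (s1 Ω.ν i.2).comp (s1 _ i.1))
    (fun ⟨b, b'⟩ k y => by cases b <;> cases b' <;> rfl) fun ⟨b, c⟩ ⟨b', c'⟩ h => ?_)
  by_cases e : b = b'
  · subst e
    exact (s2 Ω.ν c c' fun e => h (by rw [e])).comp (s1 _ b)
  · exact (QuasiMeasurePreserving.prodMap (s1 Ω.ν c) (s1 Ω.ν c')).comp (s2 _ b b' e)

end Pool.Agent.Lib.MP_1db5af_an.Th
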