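import Pool.Agent.Lib.MP_1db5af_an.Th.GGood

set_option autoImplicit false

namespace Pool.Agent.Lib.MP_1db5af_an.Th

open MeasureTheory ProbabilityTheory Filter Topology ComplexConjugate
open scoped ENNReal NNReal InnerProductSpace

section Sum

variable {A I : Type} [AddCommGroup A]

/-- The sum of a list of relations. -/
def gsum (P : AddSubgroup A) (G : I → AddSubgroup (A × A)) : List I → AddSubgroup (A × A)
  | [] => gzero P
  | i :: s => gadd (G i) (gsum P G s)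

theorem gsum_mk {κ : Type} {R : κ → AddSubgroup A} {Lf : κ → κ → AddSubgroup (A × A) → Prop}
    {Mk : Set A} (D : Germ R Lf Mk) {i j : κ} {G : I → AddSubgroup (A × A)}
    (hG : ∀ s, Gen R Lf i j (G s)) (L : List I) :
    ∃ h : Gen R Lf i j (gsum (R j) G L), GH.mk D h = (L.map fun s => GH.mk D (hG s)).sum := by
  induction L with
  | nil => exact ⟨Gen.zero i j, rfl⟩
  | cons s L ih =>
    obtain ⟨h, e⟩ := ih
    exact ⟨(hG s).add h, by rw [List.map_cons, List.sum_cons, ← e]; rfl⟩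

theorem gsum_shift {P P' : AddSubgroup A} {G G' : I → AddSubgroup (A × A)} {t : A →+ A}
    (ht : Function.Surjective t) (hP : ∀ y, y ∈ P' ↔ t y ∈ P)
    (hG : ∀ s x y, (x, y) ∈ G' s ↔ (x, t y) ∈ G s) (L : List I) (x y : A) :
    (x, y) ∈ gsum P' G' L ↔ (x, t y) ∈ gsum P G L := by
  induction L generalizing y with
  | nil => exact hP y
  | cons s L ih =>
    simp only [gsum, gcat_add, hG, ih, map_sub]
    exact (ht.exists (p := fun z => (x, z) ∈ G s ∧ (x, t y - z) ∈ gsum P G L)).symm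

theorem gnull_shift {P P' : AddSubgroup A} {g g' : AddSubgroup (A × A)} {t : A →+ A}
    (ht : Function.Surjective t) (hP : ∀ y, y ∈ P' ↔ t y ∈ P)
    (hg : ∀ x y, (x, y) ∈ g' ↔ (x, t y) ∈ g) : GNull P' g' ↔ GNull P g :=
  ⟨fun h ⟨x, y⟩ e => by
    obtain ⟨y, rfl⟩ := ht y
    exact (hP y).1 (h (x, y) ((hg x y).2 e)), fun h ⟨x, y⟩ e => (hP y).2 (h _ ((hg x y).1 e))⟩

variable [Countable A] {X : Type} [MeasurableSpace X]

theorem gsum_meas {P : X → AddSubgroup A} {G : X → I → AddSubgroup (A × A)}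
    (hP : ∀ y, MeasurableSet {w | y ∈ P w}) (hG : ∀ s z, MeasurableSet {w | z ∈ G w s})
    (L : List I) (z : A × A) : Measurable fun w => z ∈ gsum (P w) (G w) L := by
  induction L generalizing z with
  | nil => exact measurableSet_setOfPred.1 (hP z.2)
  | cons s L ih =>
    exact Measurable.exists fun y => (measurableSet_setOfPred.1 (hG s (z.1, y))).and (ih _)

theorem gcomp_meas {G : X → AddSubgroup (A × A)} (hG : ∀ z, MeasurableSet {w | z ∈ G w})
    (h : AddSubgroup (A × A)) (z : A × A) : MeasurableSet {w | z ∈ gcomp h (G w)} :=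
  measurableSet_setOfPred.2 (Measurable.exists fun y =>
    measurable_const.and (measurableSet_setOfPred.1 (hG (y, z.2))))

end Sum

variable {ι : Type}

/-- A generic pair of base points. -/
structure Ctx (Ω : MS) (R : Ω.X → AddSubgroup (AA ι)) (B : ι → Set Ω.X)
    (C : ι → ι → Ω.X × Ω.X → AddSubgroup (AA ι × AA ι)) (o : ι) (z : Ω.X × Ω.X) : Prop where
  good : Good Ω R B C (gsel z)
  mem : Ω.T 0 z.1 ∈ B o

open Classical in
/-- The arrow from the base point to a marked point of `w`. -/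
noncomputable def gpsi (Ω : MS) (R : Ω.X → AddSubgroup (AA ι)) (B : ι → Set Ω.X)
    (C : ι → ι → Ω.X × Ω.X → AddSubgroup (AA ι × AA ι)) (o : ι) (x w : Ω.X) (i : ι × ℤ) :
    AddSubgroup (AA ι × AA ι) :=
  if Ω.T i.2 w ∈ B i.1 then LL Ω C o i.1 0 i.2 x w else gzero (R w)

variable {Ω : MS} {R : Ω.X → AddSubgroup (AA ι)} {B : ι → Set Ω.X}
  {C : ι → ι → Ω.X × Ω.X → AddSubgroup (AA ι × AA ι)} {o : ι} {z z' : Ω.X × Ω.X}

theorem gpsi_shift {k : ℤ} {x0 w : Ω.X} (hR : ∀ x, x ∈ R (Ω.T k w) ↔ tau ι ℤ k x ∈ R w) (i : ι × ℤ)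
    (x y : AA ι) : (x, y) ∈ gpsi Ω R B C o x0 (Ω.T k w) i ↔
      (x, tau ι ℤ k y) ∈ gpsi Ω R B C o x0 w (shI k i) := by
  have e : Ω.T (shI k i).2 w = Ω.T i.2 (Ω.T k w) := Ω.sys.add _ _ _
  rw [gpsi, gpsi, e, show (shI k i).1 = i.1 from rfl]
  split_ifs
  · have := g_ll_shift (C := C) (a := o) (b := i.1) (k := 0) (l := i.2) (s := 0) (t := k)
      (p := x0) (q := w) (x := x) (y := y)
    rwa [Ω.sys.zero, act_tau.zero, add_zero] at this
  · exact hR y

/-- The germ ring. -/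
abbrev Ctx.RR (c : Ctx Ω R B C o z) : Type := GH c.good.germ false false

/-- A relation that represents an element of the germ ring. -/
noncomputable def Ctx.rep (c : Ctx Ω R B C o z) (α : c.RR) : AddSubgroup (AA ι × AA ι) :=
  α.surj.choose

/-- The random submodule of relations between the marked points. -/
noncomputable def Ctx.N (c : Ctx Ω R B C o z) (w : Ω.X) : Submodule c.RR (ι × ℤ →₀ c.RR) :=
  Submodule.span c.RR {f | GNull (R w)
    (gsum (R w) (fun i => gcomp (c.rep (f i)) (gpsi Ω R B C o z.1 w i)) f.support.toList)}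

theorem Ctx.countable [Countable ι] (c : Ctx Ω R B C o z) : Countable c.RR := by
  have : Countable {g // Gen (fun i => R (gsel z i)) (Leaf Ω B C (gsel z)) false false g} :=
    (gen_countable (L := Bool × Bool × ι × ι × ℤ × ℤ) (src := fun l => l.1)
    (tgt := fun l => l.2.1) (V := fun _ => True) (R := fun i => R (gsel z i))
    (Lf := Leaf Ω B C (gsel z)) (f := fun l =>
      LL Ω C l.2.2.1 l.2.2.2.1 l.2.2.2.2.1 l.2.2.2.2.2 (gsel z l.1) (gsel z l.2.1))
    (fun i j _ ⟨_, a, b, k, l, _, _, e⟩ => ⟨(i, j, a, b, k, l), rfl, rfl, trivial, e⟩)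
    false false).to_subtype
  exact inferInstanceAs (Countable (Quotient _))

/-- Generated relations between four points. -/
abbrev Gen4 (Ω : MS) (R : Ω.X → AddSubgroup (AA ι)) (B : ι → Set Ω.X)
    (C : ι → ι → Ω.X × Ω.X → AddSubgroup (AA ι × AA ι)) (z z' : Ω.X × Ω.X) :=
  Gen (fun i => R (gp4 z z' i)) (Leaf Ω B C (gp4 z z'))

theorem g_up {i j : Bool} {g : AddSubgroup (AA ι × AA ι)} (z' : Ω.X × Ω.X)
    (h : Gen (fun i => R (gsel z i)) (Leaf Ω B C (gsel z)) i j g) :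
    Gen4 Ω R B C z z' (false, i) (false, j) g :=
  Gen.map (R := fun i => R (gp4 z z' i)) (fun b => (false, b))
    (fun _ _ _ e => ⟨fun e' => e.1 (Prod.mk.inj e').2, e.2⟩) h

theorem g_leaf {κ : Type} {p : κ → Ω.X} {i j : κ} (h : i ≠ j) {a b : ι} {k l : ℤ}
    (h1 : Ω.T k (p i) ∈ B a) (h2 : Ω.T l (p j) ∈ B b) :
    Gen (fun i => R (p i)) (Leaf Ω B C p) i j (LL Ω C a b k l (p i) (p j)) :=
  Gen.leaf ⟨h, a, b, k, l, h1, h2, rfl⟩

/-- The germ of a leaf. -/
noncomputable def Good.lf {κ : Type} {p : κ → Ω.X} (hp : Good Ω R B C p) {i j : κ} (h : i ≠ j) {a b : ι} {k l : ℤ}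
    (h1 : Ω.T k (p i) ∈ B a) (h2 : Ω.T l (p j) ∈ B b) : GH hp.germ i j :=
  GH.mk hp.germ (g_leaf h h1 h2)

section Leaf

variable {κ : Type} {p : κ → Ω.X} (hp : Good Ω R B C p) {i j m : κ} {a b d : ι} {k l n : ℤ}

theorem Good.lf_comp (h : i ≠ j) (h' : j ≠ m) (h'' : i ≠ m) (h1 : Ω.T k (p i) ∈ B a)
    (h2 : Ω.T l (p j) ∈ B b) (h3 : Ω.T n (p m) ∈ B d) :
    (hp.lf h h1 h2).comp (hp.lf h' h2 h3) = hp.lf h'' h1 h3 :=
  GH.mk_eq_of_mark ((g_leaf h h1 h2).comp (g_leaf h' h2 h3)) (g_leaf h'' h1 h3) ⟨a, k, rfl⟩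
    (hp.mark i j h a b k l h1 h2).2.1
    ⟨_, (hp.mark i j h a b k l h1 h2).1, (hp.mark j m h' b d l n h2 h3).1⟩
    (hp.mark i m h'' a d k n h1 h3).1

theorem Good.lf_inv (h : i ≠ j) (h1 : Ω.T k (p i) ∈ B a) (h2 : Ω.T l (p j) ∈ B b) :
    (hp.lf h h1 h2).comp (hp.lf h.symm h2 h1) = GH.one hp.germ i :=
  GH.mk_eq_of_mark ((g_leaf h h1 h2).comp (g_leaf h.symm h2 h1)) (Gen.id i) ⟨a, k, rfl⟩
    (hp.mark i j h a b k l h1 h2).2.1
    ⟨_, (hp.mark i j h a b k l h1 h2).1, (hp.mark j i h.symm b a l k h2 h1).1⟩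
    (gcat_id.2 (sub_self (ee a k : AA ι) ▸ zero_mem _))

theorem Good.lf_ne (h : i ≠ j) (h1 : Ω.T k (p i) ∈ B a) (h2 : Ω.T l (p j) ∈ B b) :
    hp.lf h h1 h2 ≠ 0 := fun e =>
  (hp.mark i j h a b k l h1 h2).2.2 (GH.mk_eq_zero.1 e _ (hp.mark i j h a b k l h1 h2).1)

end Leaf

variable (c : Ctx Ω R B C o z) (hp : Good Ω R B C (gp4 z z')) (b : Bool)

theorem g_ne (b b' : Bool) : (false, b) ≠ (true, b') := by simp

theorem Ctx.rep_gen (α : c.RR) :
    Gen (fun i => R (gsel z i)) (Leaf Ω B C (gsel z)) false false (c.rep α) :=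
  α.surj.choose_spec.choose

theorem Ctx.mk_rep (α : c.RR) : GH.mk c.good.germ (c.rep_gen α) = α :=
  α.surj.choose_spec.choose_spec

include c in
theorem Ctx.psi_gen (z' : Ω.X × Ω.X) (b : Bool) (i : ι × ℤ) :
    Gen4 Ω R B C z z' (false, false) (true, b) (gpsi Ω R B C o z.1 (gsel z' b) i) := by
  unfold gpsi
  split_ifs with h
  · exact g_leaf (p := gp4 z z') (g_ne false b) c.mem h
  · exact Gen.zero (R := fun i => R (gp4 z z' i)) _ (true, b)

/-- The embedding of the germ ring. -/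
noncomputable def Ctx.phi : c.RR →+* GH hp.germ (false, false) (false, false) :=
  (GH.exists_incl c.good.germ hp.germ (o0 := false) (o := (false, false)) rfl (g_up z')).choose

theorem Ctx.phi_inj : Function.Injective (c.phi hp) :=
  (GH.exists_incl c.good.germ hp.germ (o0 := false) (o := (false, false)) rfl
    (g_up z')).choose_spec.1

theorem Ctx.phi_mk {g : AddSubgroup (AA ι × AA ι)}
    (hg : Gen (fun i => R (gsel z i)) (Leaf Ω B C (gsel z)) false false g) :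
    c.phi hp (GH.mk c.good.germ hg) = GH.mk hp.germ (g_up z' hg) :=
  (GH.exists_incl c.good.germ hp.germ (o0 := false) (o := (false, false)) rfl
    (g_up z')).choose_spec.2 g hg

/-- The germ of the arrow to a marked point. -/
noncomputable def Ctx.ps (i : ι × ℤ) : GH hp.germ (false, false) (true, b) :=
  GH.mk hp.germ (c.psi_gen z' b i)

theorem Ctx.ps_pos {i : ι × ℤ} (h : Ω.T i.2 (gsel z' b) ∈ B i.1) :
    c.ps hp b i = hp.lf (g_ne false b) c.mem h := by
  simp only [Ctx.ps, Good.lf, gpsi, if_pos h]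
  rfl

theorem Ctx.ps_neg {i : ι × ℤ} (h : Ω.T i.2 (gsel z' b) ∉ B i.1) : c.ps hp b i = 0 := by
  simp only [Ctx.ps, gpsi, if_neg h]
  rfl

theorem Ctx.ps_ne {i : ι × ℤ} : c.ps hp b i ≠ 0 ↔ Ω.T i.2 (gsel z' b) ∈ B i.1 :=
  ⟨fun h => not_not.1 fun e => h (c.ps_neg hp b e),
    fun h => by rw [c.ps_pos hp b h]; exact hp.lf_ne _ _ _⟩

theorem Ctx.mk_term (α : c.RR) (i : ι × ℤ) :
    GH.mk hp.germ ((g_up z' (c.rep_gen α)).comp (c.psi_gen z' b i)) =
      (c.phi hp α).comp (c.ps hp b i) := by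
  rw [GH.mk_comp (g_up z' (c.rep_gen α)), ← c.phi_mk hp (c.rep_gen α), c.mk_rep]
  rfl

/-- The evaluation of the free module in the germs. -/
noncomputable def Ctx.lam : (ι × ℤ →₀ c.RR) →+ GH hp.germ (false, false) (true, b) :=
  Finsupp.liftAddHom fun i => (GH.compR _ (c.ps hp b i)).comp (c.phi hp).toAddMonoidHom

theorem Ctx.lam_single (i : ι × ℤ) (α : c.RR) :
    c.lam hp b (Finsupp.single i α) = (c.phi hp α).comp (c.ps hp b i) :=
  Finsupp.liftAddHom_apply_single _ _ _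

theorem Ctx.lam_ee (a : ι) (k : ℤ) : c.lam hp b (ee a k) = c.ps hp b (a, k) := by
  rw [ee, c.lam_single, map_one]
  exact GH.one_comp _

theorem Ctx.lam_smul (α : c.RR) (f : ι × ℤ →₀ c.RR) :
    c.lam hp b (α • f) = (c.phi hp α).comp (c.lam hp b f) := by
  induction f using Finsupp.induction_linear with
  | zero => rw [smul_zero, map_zero, GH.comp_zero]
  | add f g e1 e2 => rw [smul_add, map_add, map_add, e1, e2, GH.comp_add]
  | single i β =>
    rw [Finsupp.smul_single, c.lam_single, c.lam_single, smul_eq_mul, map_mul, GH.mul_def,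
      GH.comp_assoc]

theorem Ctx.null_iff (k : ℤ) (f : ι × ℤ →₀ c.RR) :
    GNull (R (gsel z' b)) (gsum (R (gsel z' b)) (fun i => gcomp (c.rep (f i))
      (gpsi Ω R B C o z.1 (gsel z' b) (shI k i))) f.support.toList) ↔
      c.lam hp b (tau ι c.RR k f) = 0 := by
  obtain ⟨h, e⟩ := gsum_mk hp.germ
    (fun i => (g_up z' (c.rep_gen (f i))).comp (c.psi_gen z' b (shI k i))) f.support.toList
  refine (GH.mk_eq_zero (D := hp.germ) (hg := h)).symm.trans ?_
  rw [e, Finset.sum_map_toList]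
  conv_rhs => rw [← f.sum_single, Finsupp.sum, map_sum, map_sum]
  simp only [tau_single, c.lam_single, ← c.mk_term]

/-- The kernel of the evaluation after a shift. -/
noncomputable def Ctx.ker (k : ℤ) : Submodule c.RR (ι × ℤ →₀ c.RR) where
  carrier := {f | c.lam hp b (tau ι c.RR k f) = 0}
  zero_mem' := by simp
  add_mem' := fun {f g} e1 e2 => by
    simp only [Set.mem_ofPred_eq, map_add] at e1 e2 ⊢
    rw [e1, e2, add_zero]
  smul_mem' := fun α f e => by
    simp only [Set.mem_ofPred_eq] at e ⊢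
    rw [tau_smul, c.lam_smul, e, GH.comp_zero]

theorem Ctx.mem_shift {k : ℤ}
    (hR : ∀ x, x ∈ R (Ω.T k (gsel z' b)) ↔ tau ι ℤ k x ∈ R (gsel z' b)) (f : ι × ℤ →₀ c.RR) :
    f ∈ c.N (Ω.T k (gsel z' b)) ↔ c.lam hp b (tau ι c.RR k f) = 0 := by
  have ht : Function.Surjective (tau ι ℤ k) := fun x => ⟨_, g_inv k x⟩
  have h2 : c.N (Ω.T k (gsel z' b)) = c.ker hp b k := by
    rw [← (c.ker hp b k).span_eq, Ctx.N]
    congr 1
    ext f
    refine Iff.trans (gnull_shift ht hR (gsum_shift ht hR (fun i x y => ?_) _)) (c.null_iff hp b k f)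
    simp only [gcat_comp, gpsi_shift hR]
  rw [h2]
  rfl

include hp in
theorem Ctx.mem_N (f : ι × ℤ →₀ c.RR) : f ∈ c.N (gsel z' b) ↔ c.lam hp b f = 0 := by
  have := c.mem_shift hp b (k := 0) (fun x => by rw [Ω.sys.zero, act_tau.zero]) f
  rwa [Ω.sys.zero, act_tau.zero] at this

include hp in
theorem Ctx.ee_iff (a : ι) (k : ℤ) : ee a k ∉ c.N (gsel z' b) ↔ Ω.T k (gsel z' b) ∈ B a := by
  rw [c.mem_N hp, c.lam_ee]
  exact c.ps_ne hp b

variable [Fintype ι] {D : ℕ}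

theorem gpsi_meas (hR : Rsg Ω (tau ι ℤ) R) (hA : ArrOut Ω R B C D) (x : Ω.X) (i : ι × ℤ)
    (y : AA ι × AA ι) : MeasurableSet {w | y ∈ gpsi Ω R B C o x w i} := by
  have e : {w | y ∈ gpsi Ω R B C o x w i} =
      (Ω.T i.2 ⁻¹' B i.1 ∩ {w | y ∈ LL Ω C o i.1 0 i.2 x w}) ∪
        ((Ω.T i.2 ⁻¹' B i.1)ᶜ ∩ {w | y.2 ∈ R w}) := by
    ext w
    by_cases h : Ω.T i.2 w ∈ B i.1
    · simp [gpsi, h]
    · simp [gpsi, h, gzero]
  have h1 := Ω.sys.meas i.2 (hA.mB i.1)
  rw [e]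
  exact (h1.inter (g_meas_ll hA measurable_const measurable_id _ _ _ _ y)).union
    (h1.compl.inter (hR.meas _))

theorem Ctx.meas_N (hR : Rsg Ω (tau ι ℤ) R) (hA : ArrOut Ω R B C D) (f : ι × ℤ →₀ c.RR) :
    MeasurableSet {w | f ∈ c.N w} := by
  have := c.countable
  exact meas_span (fun f => measurableSet_setOfPred.2 (Measurable.forall fun y =>
    (gsum_meas hR.meas (fun i => gcomp_meas (gpsi_meas hR hA _ i) _) _ y).imp
      (measurableSet_setOfPred.1 (hR.meas _)))) f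

end Pool.Agent.Lib.MP_1db5af_an.Th
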