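import Pool.Agent.Lib.MP_1db5af_an.Th.GMod
import Pool.Agent.Lib.MP_1db5af_an.Th.CDefs

set_option autoImplicit false

namespace Pool.Agent.Lib.MP_1db5af_an.Th

open MeasureTheory ProbabilityTheory Filter Topology ComplexConjugate
open scoped ENNReal NNReal InnerProductSpace

theorem gout_card {α β : Type} {S : Set α} {T : Set β} (r : α → β → Prop)
    (h1 : ∀ x ∈ S, ∃ y ∈ T, r x y) (h2 : ∀ x x' y, r x y → r x' y → x = x') :
    S.encard ≤ T.encard := by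
  rcases S.eq_empty_or_nonempty with rfl | ⟨x0, h0⟩
  · simp
  have : Nonempty β := ⟨(h1 x0 h0).choose⟩
  choose! f e1 e2 using h1
  exact Set.encard_le_encard_of_injOn (f := f) e1 fun x hx x' hx' e =>
    h2 x x' _ (e2 x hx) (e ▸ e2 x' hx')

variable {ι : Type} {Ω : MS} {R : Ω.X → AddSubgroup (AA ι)} {B : ι → Set Ω.X}
  {C : ι → ι → Ω.X × Ω.X → AddSubgroup (AA ι × AA ι)} {o : ι} {z z' : Ω.X × Ω.X}
  (c : Ctx Ω R B C o z) (hp : Good Ω R B C (gp4 z z')) (b : Bool)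

include hp

theorem Ctx.free (i : ι × ℤ) (α : c.RR) (h : Finsupp.single i α ∈ c.N (gsel z' b)) :
    α = 0 ∨ ee i.1 i.2 ∈ c.N (gsel z' b) := by
  refine or_iff_not_imp_right.2 fun h1 => c.phi_inj hp ?_
  have h2 := (c.ee_iff hp b _ _).1 h1
  rw [c.mem_N hp, c.lam_single, c.ps_pos hp b h2] at h
  rw [map_zero, ← GH.comp_one (c.phi hp α), ← hp.lf_inv (g_ne false b) c.mem h2, ← GH.comp_assoc, h,
    GH.zero_comp]

theorem Ctx.count [Fintype ι] {D : ℕ} (h0 : ee o 0 ∉ c.N z'.2)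
    (hD : ∀ a, {g | ∃ k, Ω.T k z'.2 ∈ B o ∧ Ω.T k z'.1 ∈ B a ∧
      g = LL Ω C o a k k z'.2 z'.1}.encard ≤ D) :
    (cls (c.N z'.1) (pat o (c.N z'.2))).encard ≤ (Fintype.card ι * D : ℕ) := by
  refine le_trans (gout_card (T := ⋃ a, {g | ∃ k, Ω.T k z'.2 ∈ B o ∧ Ω.T k z'.1 ∈ B a ∧
      g = LL Ω C o a k k z'.2 z'.1}) (fun ξ g => ∃ f, (c.N z'.1).mkQ f = ξ ∧
      ∃ hg : Gen4 Ω R B C z z' (true, true) (true, false) g,
        c.lam hp false f = (c.ps hp true (o, 0)).comp (GH.mk hp.germ hg)) ?_ ?_)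
    ((Set.encard_iUnion_le_of_fintype _).trans ?_)
  · rintro _ ⟨⟨⟨u, a, k⟩, e1, rfl⟩, e2⟩
    have e3 : (c.phi hp u).comp (c.ps hp true (o, k)) = c.ps hp true (o, 0) := by
      have := (c.mem_N hp true _).1 e1
      rwa [map_sub, c.lam_ee, el, c.lam_single, sub_eq_zero] at this
    have e4 : Ω.T k z'.2 ∈ B o := (c.ps_ne hp true (i := (o, k))).1 fun e => by
      rw [e, GH.comp_zero] at e3
      exact h0 ((c.mem_N hp true _).2 (by rw [c.lam_ee, ← e3]))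
    have e5 : Ω.T k z'.1 ∈ B a := (c.ps_ne hp false (i := (a, k))).1 fun e =>
      e2 ((Submodule.Quotient.mk_eq_zero _).2 ((c.mem_N hp false _).2 (by
        rw [el, c.lam_single, e, GH.comp_zero])))
    have hne : ((true, true) : Bool × Bool) ≠ (true, false) := by simp
    refine ⟨_, Set.mem_iUnion.2 ⟨a, k, e4, e5, rfl⟩, _, rfl, g_leaf (p := gp4 z z') hne e4 e5, ?_⟩
    rw [el, c.lam_single, ← e3, GH.comp_assoc, c.ps_pos hp false (i := (a, k)) e5,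
      c.ps_pos hp true (i := (o, k)) e4]
    exact congrArg _ (hp.lf_comp (g_ne false true) hne (g_ne false false) c.mem e4 e5).symm
  · rintro _ _ g ⟨f, rfl, _, e1⟩ ⟨f', rfl, _, e2⟩
    exact (Submodule.Quotient.eq _).2 ((c.mem_N hp false _).2 (by rw [map_sub, e1, e2, sub_self]))
  · simpa using Finset.sum_le_card_nsmul Finset.univ _ (D : ℕ∞) fun a _ => hD a

theorem Ctx.orb {k l j : ℤ} (h1 : Ω.T k (gsel z' b) ∈ B o) (h2 : Ω.T l (gsel z' b) ∈ B o)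
    (h3 : Ω.T k (Ω.T j z.2) ∈ B o) (h4 : Ω.T l (Ω.T j z.2) ∈ B o)
    (h : LL Ω C o o k k (gsel z' b) (Ω.T j z.2) = LL Ω C o o l l (gsel z' b) (Ω.T j z.2)) :
    ∃ u : c.RRˣ, el (u, o, l) - ee o k ∈ c.N (gsel z' b) := by
  rw [← Ω.sys.add] at h3 h4
  have e1 : LL Ω C o o k (k + j) (gsel z' b) z.2 = LL Ω C o o l (l + j) (gsel z' b) z.2 := by
    ext ⟨x, y⟩
    have e := fun k => g_ll_shift (C := C) (a := o) (b := o) (k := k) (l := k) (s := 0) (t := j)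
      (p := gsel z' b) (q := z.2) (x := x) (y := tau ι ℤ (-j) y)
    simp only [Ω.sys.zero, act_tau.zero, add_zero, g_inv] at e
    rw [← e, ← e, h]
  have n0 : false ≠ true := by simp
  have e2 : ∀ {s t : ℤ} (hs : Ω.T s z.2 ∈ B o) (ht : Ω.T t z.2 ∈ B o),
      ((c.good.lf n0 c.mem hs).comp (c.good.lf n0.symm ht c.mem) : c.RR) *
        (c.good.lf n0 c.mem ht).comp (c.good.lf n0.symm hs c.mem) = 1 := fun hs ht => by
    rw [GH.mul_def, GH.comp_assoc, ← GH.comp_assoc (c.good.lf n0.symm ht c.mem),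
      c.good.lf_inv n0.symm ht c.mem, GH.one_comp, c.good.lf_inv n0 c.mem hs, GH.one_def]
  refine ⟨⟨_, _, e2 h3 h4, e2 h4 h3⟩, (c.mem_N hp b _).2 ?_⟩
  have n1 : ((false, false) : Bool × Bool) ≠ (false, true) := by simp
  have n2 := g_ne true b
  have e3 : c.phi hp ((c.good.lf n0 c.mem h3).comp (c.good.lf n0.symm h4 c.mem)) =
      (hp.lf n1 c.mem h3).comp (hp.lf n1.symm h4 c.mem) :=
    c.phi_mk hp ((g_leaf n0 c.mem h3).comp (g_leaf n0.symm h4 c.mem))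
  have e4 : hp.lf n2.symm h1 h3 = hp.lf n2.symm h2 h4 :=
    GH.mk_eq.2 (e1 ▸ (hp.germ.gen_sv (g_leaf (p := gp4 z z') n2.symm h1 h3)).refl)
  have e5 : hp.lf n2 h4 h2 = hp.lf n2 h3 h1 := by
    rw [← GH.comp_one (hp.lf n2 h4 h2), ← hp.lf_inv n2.symm h1 h3, ← GH.comp_assoc, e4,
      hp.lf_inv n2 h4 h2, GH.one_comp]
  rw [map_sub, c.lam_ee, el, c.lam_single, sub_eq_zero, c.ps_pos hp b (i := (o, l)) h2,
    c.ps_pos hp b (i := (o, k)) h1]
  refine (congrArg (GH.comp · _) e3).trans ?_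
  simp only [GH.comp_assoc]
  rw [hp.lf_comp n1.symm (g_ne false b) n2 h4 c.mem h2, e5,
    hp.lf_comp n1 n2 (g_ne false b) c.mem h3 h1]

theorem Ctx.fail [Fintype ι] {k : ι → ℤ} (h1 : ∑ a, ee a (k a) ∈ R (gsel z' b))
    (h2 : ∀ a, Ω.T (k a) (gsel z' b) ∈ B a) : ∑ a, ee a (k a) ∈ c.N (gsel z' b) := by
  classical
  have h3 : ∀ s : Finset ι, ∃ (g : AddSubgroup (AA ι × AA ι))
      (hg : Gen4 Ω R B C z z' (false, false) (true, b) g),
      GH.mk hp.germ hg = ∑ a ∈ s, c.ps hp b (a, k a) ∧ (ee o 0, ∑ a ∈ s, ee a (k a)) ∈ g := by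
    intro s
    induction s using Finset.induction_on with
    | empty =>
      exact ⟨_, Gen.zero (R := fun i => R (gp4 z z' i)) _ (true, b), rfl, gcat_zero.2 (by simp)⟩
    | insert a s ha ih =>
      obtain ⟨g, hg, e1, e2⟩ := ih
      refine ⟨_, (g_leaf (p := gp4 z z') (g_ne false b) c.mem (h2 a)).add hg, ?_, _,
        (hp.mark _ _ (g_ne false b) _ _ _ _ c.mem (h2 a)).1, ?_⟩
      · rw [Finset.sum_insert ha, ← e1, c.ps_pos hp b (i := (a, k a)) (h2 a)]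
        rfl
      · simpa only [Finset.sum_insert ha, add_sub_cancel_left] using e2
  obtain ⟨g, hg, e1, e2⟩ := h3 Finset.univ
  rw [c.mem_N hp, map_sum]
  simp only [c.lam_ee]
  rw [← e1]
  exact GH.mk_eq_zero.2 (hp.germ.g2 _ _ g hg _ ⟨o, 0, rfl⟩
    (hp.mark _ _ (g_ne false b) _ _ _ _ c.mem (h2 o)).2.1
    ((hp.germ.gen_sv hg).right (by rwa [sub_zero]) e2))

theorem Ctx.nr1 {σ : c.RR} (hσ : σ ≠ 0) (h : ee o 0 ∉ c.N (gsel z' b)) :
    ∃ y ∈ gcomp (c.rep σ) (gpsi Ω R B C o z.1 (gsel z' b) (o, 0)), y.2 ∉ R (gsel z' b) := by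
  by_contra h1
  refine (c.free hp b (o, 0) σ ((c.mem_N hp b _).2 ?_)).elim hσ h
  rw [c.lam_single, ← c.mk_term]
  exact GH.mk_eq_zero.2 fun y hy => not_not.1 fun e => h1 ⟨y, hy, e⟩

theorem Ctx.nr2 {σ : c.RR} {l : ℤ} {x y y' : AA ι}
    (h1 : (x, y) ∈ gcomp (c.rep σ) (gpsi Ω R B C o z.1 (gsel z' b) (o, 0)))
    (h2 : (x, y') ∈ gcomp (c.rep σ) (gpsi Ω R B C o z.1 (gsel z' b) (o, l)))
    (h : σ • (ee o 0 - ee o l) ∈ c.N (gsel z' b)) : y - y' ∈ R (gsel z' b) := by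
  rw [c.mem_N hp, smul_sub, map_sub, sub_eq_zero, c.lam_smul, c.lam_smul, c.lam_ee, c.lam_ee,
    ← c.mk_term, ← c.mk_term] at h
  exact GH.mk_eq.1 h x y y' h1 h2

theorem Ctx.eqv {k : ℤ} (hR : ∀ x, x ∈ R (Ω.T k (gsel z' b)) ↔ tau ι ℤ k x ∈ R (gsel z' b))
    (f : ι × ℤ →₀ c.RR) : f ∈ c.N (Ω.T k (gsel z' b)) ↔ tau ι c.RR k f ∈ c.N (gsel z' b) := by
  rw [c.mem_shift hp b hR, c.mem_N hp]

end Pool.Agent.Lib.MP_1db5af_an.Th
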