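import Pool.Agent.Lib.MP_1db5af_an.Th.AMain
import Pool.Agent.Lib.MP_1db5af_an.Th.BMain

set_option autoImplicit false

namespace Pool.Agent.Lib.MP_1db5af_an.Th

open MeasureTheory ProbabilityTheory Filter Topology ComplexConjugate
open scoped ENNReal NNReal InnerProductSpace

theorem ind_card {ι : Type} {J : Finset ι} {J' : Finset J} (h : J' ≠ Finset.univ) :
    (J'.map (Function.Embedding.subtype _)).card < J.card := by
  rw [Finset.card_map]
  have := Finset.card_lt_card (Finset.ssubset_univ_iff.2 h)
  rwa [Finset.card_univ, Fintype.card_coe] at this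

theorem ha_all {ι : Type} {u : ι → ℕ → ℤ} (hu : PW u) (J : Finset ι) : HA u J := by
  induction' e : J.card using Nat.strong_induction_on with k ih generalizing J
  by_cases h : J.card ≤ 1
  · exact ha_small h
  · refine ha_sub (ha_step (pw_sub hu J) (by rw [Fintype.card_coe]; omega) fun J' hJ' => ?_)
    exact ha_sub' (ih _ (e ▸ ind_card hJ') _ rfl)

theorem hr_all {ι : Type} {u : ι → ℕ → ℤ} (hu : PW u) (J : Finset ι) : HR u J := by
  induction' e : J.card using Nat.strong_induction_on with k ih generalizing J
  by_cases h : J.card ≤ 2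
  · exact hr_small hu h
  · refine hr_sub (hr_step (by rw [Fintype.card_coe]; omega) (fun J' hJ' => ?_)
      (ha_all (pw_sub hu J) _))
    exact hr_sub' (ih _ (e ▸ ind_card hJ') _ rfl)

end Pool.Agent.Lib.MP_1db5af_an.Th
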