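import Pool.Agent.Lib.MP_1db5af_an.Th.CDefs

set_option autoImplicit false

namespace Pool.Agent.Lib.MP_1db5af_an.Th

open MeasureTheory ProbabilityTheory Filter Topology ComplexConjugate
open scoped ENNReal NNReal InnerProductSpace

theorem pata_rep {X Q : Type} (code : X → ℕ) (hc : Function.Injective code) {π : X → Q}
    (hπ : Function.Surjective π) (S : Set Q) :
    {x | π x ∈ S ∧ ∀ x', π x' = π x → code x ≤ code x'}.encard = S.encard := by
  classical
  rw [← Set.InjOn.encard_image (f := π) fun x hx y hy e =>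
    hc (le_antisymm (hx.2 y e.symm) (hy.2 x e))]
  congr 1
  refine Set.Subset.antisymm (fun _ ⟨x, hx, e⟩ => e ▸ hx.1) fun ξ hξ => ?_
  obtain ⟨x, hx, h1⟩ := (InvImage.wf code wellFounded_lt).has_min {x | π x = ξ} (hπ ξ)
  exact ⟨x, ⟨by rwa [show π x = ξ from hx], fun x' e => not_lt.1 (h1 x' (e.trans hx))⟩, hx⟩

theorem pata_disj {α κ : Type} (s : Finset κ) {A : κ → Set α}
    (h : ∀ c c' x, x ∈ A c → x ∈ A c' → c = c') (T : Set α) (hT : ∀ c ∈ s, A c ⊆ T) :
    ∑ c ∈ s, (A c).encard ≤ T.encard := by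
  classical
  induction s using Finset.induction_on generalizing T with
  | empty => simp
  | insert c s hc ih =>
    rw [Finset.sum_insert hc, ← Set.encard_sdiff_add_encard_inter T (A c), add_comm,
      Set.inter_eq_right.2 (hT c (Finset.mem_insert_self _ _))]
    gcongr
    exact ih _ fun c' hc' x hx => ⟨hT c' (Finset.mem_insert_of_mem hc') hx,
      fun h1 => hc (h _ _ x hx h1 ▸ hc')⟩

theorem pata_overlap {Q κ : Type} (s : Finset κ) (φ : κ → Q → Q) {P : Set Q} {D : ℕ}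
    (hD : P.encard ≤ D) (h : ∀ ξ ∈ P, ∀ c c', φ c ξ = φ c' ξ → c = c') :
    s.card * P.encard ≤ ∑ c ∈ s, (P \ φ c '' P).encard + D * D := by
  have h1 := pata_disj s (A := fun c => {x : Q × Q | x.1 ∈ P ∧ x.2 ∈ P ∧ x.1 = φ c x.2})
    (fun c c' x e1 e2 => h _ e1.2.1 _ _ (e1.2.2.symm.trans e2.2.2)) (P ×ˢ P)
    fun c _ x hx => ⟨hx.1, hx.2.1⟩
  rw [Set.encard_prod] at h1
  calc s.card * P.encard = ∑ c ∈ s, ((P \ φ c '' P).encard + (P ∩ φ c '' P).encard) := by
        simp only [Set.encard_sdiff_add_encard_inter, Finset.sum_const, nsmul_eq_mul]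
    _ ≤ _ := by
        rw [Finset.sum_add_distrib]
        gcongr
        refine le_trans (Finset.sum_le_sum fun c _ => ?_) (h1.trans (mul_le_mul' hD hD))
        refine le_trans (Set.encard_le_encard ?_) (Set.encard_image_le Prod.fst _)
        rintro _ ⟨e1, ξ, e2, rfl⟩
        exact ⟨(φ c ξ, ξ), ⟨e1, e2, rfl⟩, rfl⟩

section Det

variable {ι ℛ : Type} [Ring ℛ]

theorem pata_el (d : ℤ) (c : ℛˣ) (j : ℛˣ × ι × ℤ) :
    el (c * j.1, shI d j.2) = (c : ℛ) • tau ι ℛ d (el j) := by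
  simp [el, tau, Finsupp.mapDomain.addMonoidHom, Finsupp.mapDomain_single]

theorem pata_mono (N : Submodule ℛ (ι × ℤ →₀ ℛ)) {p q : Set (ℛˣ × ι × ℤ)} (h : p ⊆ q) :
    cls N p ⊆ cls N q := Set.sdiff_subset_sdiff_left (Set.image_mono h)

theorem pata_img {N N' : Submodule ℛ (ι × ℤ →₀ ℛ)} {φ : (ι × ℤ →₀ ℛ) ⧸ N' → (ι × ℤ →₀ ℛ) ⧸ N}
    (h1 : Function.Injective φ) (h0 : φ 0 = 0) {d : ℤ} {c : ℛˣ}
    (h2 : ∀ j, φ (N'.mkQ (el j)) = N.mkQ (el (c * j.1, shI d j.2))) (p : Set (ℛˣ × ι × ℤ)) :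
    cls N (pact d c p) = φ '' cls N' p := by
  rw [cls, cls, Set.image_sdiff h1, Set.image_singleton, h0, pact, Set.image_image,
    Set.image_image]
  simp only [h2]

theorem pata_act {N N' : Submodule ℛ (ι × ℤ →₀ ℛ)} {d : ℤ} (h : ∀ x, x ∈ N' ↔ tau ι ℛ d x ∈ N)
    (c : ℛˣ) : ∃ φ : (ι × ℤ →₀ ℛ) ⧸ N' → (ι × ℤ →₀ ℛ) ⧸ N, Function.Injective φ ∧
      ∀ p, cls N (pact d c p) = φ '' cls N' p := by
  let ψ := N'.mapQ N (Finsupp.lmapDomain ℛ ℛ (shI d)) fun x hx => (h x).1 hx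
  have hψ : Function.Injective ψ := (injective_iff_map_eq_zero ψ).2 fun ξ hξ => by
    obtain ⟨x, rfl⟩ := N'.mkQ_surjective ξ
    exact (Submodule.Quotient.mk_eq_zero _).2 ((h x).2 ((Submodule.Quotient.mk_eq_zero _).1 hξ))
  have h1 : Function.Injective fun ξ => (c : ℛ) • ψ ξ := (MulAction.injective c).comp hψ
  refine ⟨_, h1, pata_img h1 (by simp) fun j => ?_⟩
  rw [pata_el, map_smul]
  rfl

theorem pata_smul (N : Submodule ℛ (ι × ℤ →₀ ℛ)) (c : ℛˣ) (p : Set (ℛˣ × ι × ℤ)) :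
    cls N (pact 0 c p) = (fun ξ => (c : ℛ) • ξ) '' cls N p := by
  refine pata_img (φ := fun ξ => (c : ℛ) • ξ) (MulAction.injective c) (by simp) (fun j => ?_) p
  rw [← map_smul]
  simp [el, shI]

end Det

variable {ι ℛ : Type} [Countable ι] [Ring ℛ] [Countable ℛ] {Ω : MS}
  {N : Ω.X → Submodule ℛ (ι × ℤ →₀ ℛ)}

theorem cls_meas {Y : Type} [MeasurableSpace Y] {N : Y → Submodule ℛ (ι × ℤ →₀ ℛ)}
    {p q : Y → Set (ℛˣ × ι × ℤ)} (hN : ∀ x, MeasurableSet {y | x ∈ N y})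
    (hp : ∀ j, MeasurableSet {y | j ∈ p y}) (hq : ∀ j, MeasurableSet {y | j ∈ q y}) :
    Measurable fun y => ((cls (N y) (p y) \ cls (N y) (q y)).encard : ℝ≥0∞) := by
  obtain ⟨code, hc⟩ := exists_injective_nat (ι × ℤ →₀ ℛ)
  have : Countable ℛˣ := Units.val_injective.countable
  have h0 : ∀ x x', Measurable fun y => (N y).mkQ x = (N y).mkQ x' := fun x x' => by
    simp only [Submodule.mkQ_apply, Submodule.Quotient.eq]
    exact measurableSet_setOfPred.1 (hN _)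
  have h1 : ∀ r : Y → Set (ℛˣ × ι × ℤ), (∀ j, MeasurableSet {y | j ∈ r y}) → ∀ x,
      Measurable fun y => (N y).mkQ x ∈ cls (N y) (r y) := fun r hr x =>
    (Measurable.exists fun j => (measurableSet_setOfPred.1 (hr j)).and (h0 (el j) x)).and
      (h0 x 0).not
  simp only [← fun y => pata_rep code hc (N y).mkQ_surjective (cls (N y) (p y) \ cls (N y) (q y))]
  refine Measurable.of_discrete.comp (measurable_encard.comp (measurable_set_iff.2 fun x => ?_))
  exact ((h1 p hp x).and (h1 q hq x).not).and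
    (Measurable.forall fun x' => (h0 x' x).imp measurable_const)

omit [Countable ι] [Countable ℛ] in
theorem pe_of_subset {p q : Set (ℛˣ × ι × ℤ)} (h : p ⊆ q) : pe Ω N p q = 0 := by
  simp only [pe, Set.sdiff_eq_empty.2 (pata_mono _ h), Set.encard_empty, ENat.toENNReal_zero,
    lintegral_zero]

theorem pata_meas (hN : ∀ x, MeasurableSet {w | x ∈ N w}) (p q : Set (ℛˣ × ι × ℤ)) :
    Measurable fun w => ((cls (N w) p \ cls (N w) q).encard : ℝ≥0∞) :=
  cls_meas (p := fun _ => p) (q := fun _ => q) hN (fun _ => MeasurableSet.const _)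
    fun _ => MeasurableSet.const _

theorem pe_tri (hN : ∀ x, MeasurableSet {w | x ∈ N w}) (p q r : Set (ℛˣ × ι × ℤ)) :
    pe Ω N p r ≤ pe Ω N p q + pe Ω N q r := by
  rw [pe, pe, pe, ← lintegral_add_left (pata_meas hN p q)]
  refine lintegral_mono fun w => ?_
  rw [← ENat.toENNReal_add, ENat.toENNReal_le]
  refine le_trans (Set.encard_le_encard fun ξ hξ => ?_) (Set.encard_union_le _ _)
  by_cases h : ξ ∈ cls (N w) q
  · exact Or.inr ⟨h, hξ.2⟩
  · exact Or.inl ⟨hξ.1, h⟩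

omit [Countable ι] [Countable ℛ] in
theorem pact_pact (d d' : ℤ) (c c' : ℛˣ) (p : Set (ℛˣ × ι × ℤ)) :
    pact d c (pact d' c' p) = pact (d + d') (c * c') p := by
  simp only [pact, Set.image_image, shI, mul_assoc, add_assoc, add_comm d' d]

omit [Countable ι] [Countable ℛ] in
theorem pact_one (p : Set (ℛˣ × ι × ℤ)) : pact 0 1 p = p := by
  simp [pact, shI]

theorem pe_act (hN : Rsg Ω (tau ι ℛ) fun w => (N w).toAddSubgroup) (d : ℤ) (c : ℛˣ)
    (p q : Set (ℛˣ × ι × ℤ)) : pe Ω N (pact d c p) (pact d c q) = pe Ω N p q := by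
  rw [pe, pe, ← (Ω.sys.mp d).lintegral_comp (pata_meas hN.meas p q)]
  refine lintegral_congr_ae (hN.eqv.mono fun w hw => ?_)
  obtain ⟨φ, h1, h2⟩ := pata_act (N := N w) (N' := N (Ω.T d w)) (hw d) c
  simp only [h2, ← Set.image_sdiff h1, h1.injOn.encard_image]

theorem pe_approx (hN : ∀ x, MeasurableSet {w | x ∈ N w}) {p : Set (ℛˣ × ι × ℤ)} {D : ℕ}
    (hD : ∀ᵐ w ∂Ω.ν, (cls (N w) p).encard ≤ D) {ε : ℝ≥0∞} (hε : 0 < ε) :
    ∃ q : Finset (ℛˣ × ι × ℤ), (q : Set (ℛˣ × ι × ℤ)) ⊆ p ∧ pe Ω N p q < ε := by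
  classical
  have : Countable ℛˣ := Units.val_injective.countable
  rcases p.eq_empty_or_nonempty with rfl | hp
  · exact ⟨∅, by simp, by rwa [pe_of_subset (Set.empty_subset _)]⟩
  obtain ⟨f, rfl⟩ := (Set.to_countable p).exists_eq_range hp
  have h1 := tendsto_lintegral_of_dominated_convergence (μ := Ω.ν)
    (F := fun n w => ((cls (N w) (Set.range f) \
      cls (N w) ((Finset.range n).image f : Finset _)).encard : ℝ≥0∞)) (f := fun _ => 0)
    (fun _ => D) (fun n => pata_meas hN _ _)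
    (fun n => hD.mono fun w hw => by
      have := ENat.toENNReal_le.2 ((Set.encard_le_encard (Set.sdiff_subset
        (t := cls (N w) ((Finset.range n).image f : Finset _)))).trans hw)
      simpa using this)
    (by rw [lintegral_const]; finiteness) (hD.mono fun w hw => by
      refine tendsto_const_nhds.congr' ?_
      have h2 : ∀ᶠ n in atTop, ∀ ξ ∈ cls (N w) (Set.range f),
          ξ ∈ cls (N w) ((Finset.range n).image f : Finset _) :=
        (eventually_all_finite (Set.finite_of_encard_le_coe hw)).2 fun ξ ⟨⟨_, ⟨i, rfl⟩, e⟩, e'⟩ =>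
          (eventually_gt_atTop i).mono fun n hn => ⟨⟨f i, by
            simpa using ⟨i, hn, rfl⟩, e⟩, e'⟩
      filter_upwards [h2] with n hn
      rw [Set.sdiff_eq_empty.2 hn, Set.encard_empty, ENat.toENNReal_zero])
  rw [lintegral_zero] at h1
  obtain ⟨n, hn⟩ := (h1.eventually (gt_mem_nhds hε)).exists
  exact ⟨_, by simp, hn⟩

/-- Only finitely many units almost fix a pattern of positive mass. -/
theorem pe_fin (hN : ∀ x, MeasurableSet {w | x ∈ N w})
    (hf : ∀ᵐ w ∂Ω.ν, ∀ (i : ι × ℤ) (α : ℛ), Finsupp.single i α ∈ N w → α = 0 ∨ ee i.1 i.2 ∈ N w)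
    {p : Set (ℛˣ × ι × ℤ)} {D : ℕ} (hD : ∀ᵐ w ∂Ω.ν, (cls (N w) p).encard ≤ D)
    (h0 : pe Ω N p ∅ ≠ 0) :
    ∃ η : ℝ≥0∞, 0 < η ∧ {c : ℛˣ | pe Ω N p (pact 0 c p) < η}.Finite := by
  have he : ∀ w, cls (N w) p \ cls (N w) ∅ = cls (N w) p := fun w => by simp [cls]
  have h1 : ∀ s : Finset ℛˣ, s.card * pe Ω N p ∅ ≤
      ∑ c ∈ s, pe Ω N p (pact 0 c p) + D * D * Ω.ν Set.univ := fun s => by
    simp only [pe]
    rw [← lintegral_const_mul _ (pata_meas hN p ∅), ← lintegral_finsetSum _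
      fun c _ => pata_meas hN _ _, ← lintegral_const, ← lintegral_add_right _ measurable_const]
    refine lintegral_mono_ae ?_
    filter_upwards [hf, hD] with w e1 e2
    have e3 := ENat.toENNReal_le.2 (pata_overlap s (fun (c : ℛˣ) ξ => (c : ℛ) • ξ) e2 (by
      rintro _ ⟨⟨j, _, rfl⟩, e3⟩ c c' e4
      have e5 : ((c : ℛ) - c') • el j ∈ N w := by
        rw [← Submodule.Quotient.mk_eq_zero, ← Submodule.mkQ_apply, map_smul, sub_smul]
        exact sub_eq_zero.2 e4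
      rw [el, Finsupp.smul_single, smul_eq_mul] at e5
      rcases e1 _ _ e5 with e6 | e6
      · exact Units.val_injective (sub_eq_zero.1 ((Units.mul_left_eq_zero _).1 e6))
      · refine absurd ((Submodule.Quotient.mk_eq_zero _).2 ?_) e3
        have e7 := (N w).smul_mem (j.1 : ℛ) e6
        rwa [ee, Finsupp.smul_single, smul_eq_mul, mul_one] at e7))
    simp only [he, pata_smul]
    have e4 : ∀ g : ℛˣ → ℕ∞, ((∑ c ∈ s, g c : ℕ∞) : ℝ≥0∞) = ∑ c ∈ s, (g c : ℝ≥0∞) :=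
      fun g => map_sum ENat.toENNRealRingHom g s
    simpa only [ENat.toENNReal_add, ENat.toENNReal_mul, ENat.toENNReal_coe, e4] using e3
  have h2 : pe Ω N p ∅ ≠ ⊤ := by
    refine ne_top_of_le_ne_top (b := ∫⁻ _, D ∂Ω.ν) (by rw [lintegral_const]; finiteness)
      (lintegral_mono_ae (hD.mono fun w hw => ?_))
    simpa [he] using ENat.toENNReal_le.2 hw
  set η := pe Ω N p ∅ / 2 with hη
  have h3 : η ≠ 0 := (ENNReal.half_pos h0).ne'
  have h4 : η ≠ ⊤ := by finiteness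
  refine ⟨η, pos_iff_ne_zero.2 h3, ?_⟩
  by_contra h5
  obtain ⟨n, hn⟩ := ENNReal.exists_nat_mul_gt h3
    (b := D * D * Ω.ν Set.univ) (by finiteness)
  obtain ⟨s, hs, rfl⟩ := Set.Infinite.exists_subset_card_eq h5 n
  have h6 := h1 s
  rw [← ENNReal.add_halves (pe Ω N p ∅), mul_add, ← hη] at h6
  have h7 : ∑ c ∈ s, pe Ω N p (pact 0 c p) ≤ s.card * η := by
    simpa using Finset.sum_le_card_nsmul s _ η fun c hc => (hs hc).le
  have h8 := h6.trans (add_le_add_left h7 _)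
  exact absurd ((ENNReal.add_le_add_iff_left (by finiteness)).1 h8) (not_le.2 hn)

end Pool.Agent.Lib.MP_1db5af_an.Th
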