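import Pool.Agent.Lib.MP_1db5af_an.Th.XBase
import Pool.Agent.Lib.MP_1db5af_an.Th.APb

set_option autoImplicit false

namespace Pool.Agent.Lib.MP_1db5af_an.Th

open MeasureTheory ProbabilityTheory Filter Topology ComplexConjugate Finset
open scoped ENNReal NNReal InnerProductSpace

variable {Z : CS} {W M Og Oh : Fc Z} {g g' h h' sw pm : Z.X → Z.X}
  {O A D : Fc Z} {F φ k w w' : Z.X → ℂ}

theorem xaut_ae (H : Hom Z Z g) {P : Z.X → Prop} (e : ∀ᵐ y ∂Z.μ, P y) : ∀ᵐ y ∂Z.μ, P (g y) :=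
  H.mp.quasiMeasurePreserving.ae e

theorem xaut_hom (H : Hom Z Z g) (H' : Hom Z Z h) : Hom Z Z fun y => g (h y) :=
  ⟨H.mp.comp H'.mp, fun l => by
    filter_upwards [H'.comm l, xaut_ae H' (H.comm l)] with y h1 h2
    rw [h1, h2]⟩

theorem Aut.symm (H : Aut O A g g') : Aut O A g' g :=
  ⟨H.hom', H.hom, H.right, H.left, fun w hw => by
    filter_upwards [xaut_ae H.hom' (H.fix w hw), H.right] with y h1 h2
    rw [← h1, h2], H.pres', H.pres⟩

theorem Aut.mono (H : Aut O A g g') (hD : D ≤ O) : Aut D A g g' :=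
  ⟨H.hom, H.hom', H.left, H.right, fun w hw => H.fix w (hw.mono hD), H.pres, H.pres'⟩

theorem Aut.top (H : Aut O A g g') : Aut O ⊤ g g' :=
  ⟨H.hom, H.hom', H.left, H.right, H.fix, fun _ hF => bm_pb_top H.hom hF,
    fun _ hF => bm_pb_top H.hom' hF⟩

theorem Aut.comp (H : Aut O A g g') (H' : Aut O A h h') :
    Aut O A (fun y => g (h y)) fun y => h' (g' y) := by
  refine ⟨xaut_hom H.hom H'.hom, xaut_hom H'.hom' H.hom', ?_, ?_, fun w hw => ?_,
    fun F hF => H'.pres _ (H.pres F hF), fun F hF => H.pres' _ (H'.pres' F hF)⟩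
  · filter_upwards [xaut_ae H'.hom H.left, H'.left] with y h1 h2
    rw [h1, h2]
  · filter_upwards [xaut_ae H.hom' H'.right, H.right] with y h1 h2
    rw [h1, h2]
  · filter_upwards [xaut_ae H'.hom (H.fix w hw), H'.fix w hw] with y h1 h2
    rw [h1, h2]

theorem xaut_bm (hw : AEStronglyMeasurable[O.m] w Z.μ) {ψ : ℂ → ℂ} (hψ : Continuous ψ)
    (hb : ∀ z, ‖ψ z‖ ≤ 1) : BM O fun y => ψ (w y) :=
  have h := hψ.comp_aestronglyMeasurable hw
  ⟨⟨1, h.mono O.le, Eventually.of_forall fun _ => hb _⟩, h⟩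

theorem xaut_meas (H : Aut O A g g') : Measurable[A.m, A.m] g := fun s hs => by
  obtain ⟨f, hf, e⟩ := (H.pres _ (bm_ind hs)).2
  refine A.meas_of_ae (H.hom.mp.measurable (A.le _ hs))
    (hf.measurable (measurableSet_singleton (1 : ℂ))) ?_
  filter_upwards [e] with y hy
  change (g y ∈ s) = (f y = 1)
  rw [← hy]
  by_cases h : g y ∈ s <;> simp [h]

theorem Aut.fix_ae (H : Aut O A g g') (hw : AEStronglyMeasurable[O.m] w Z.μ) :
    (fun y => w (g y)) =ᵐ[Z.μ] w := by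
  have h0 : ∀ z : ℂ, (0 : ℝ) < 1 + ‖z‖ := fun z => by positivity
  have h1 : ∀ z : ℂ, ((1 + ‖z‖ : ℝ) : ℂ) ≠ 0 := fun z => Complex.ofReal_ne_zero.2 (h0 z).ne'
  have hc : Continuous fun z : ℂ => ((1 + ‖z‖ : ℝ) : ℂ)⁻¹ := Continuous.inv₀ (by fun_prop) h1
  have hn : ∀ z : ℂ, ‖((1 + ‖z‖ : ℝ) : ℂ)⁻¹‖ = (1 + ‖z‖)⁻¹ := fun z => by
    rw [norm_inv, Complex.norm_real, Real.norm_of_nonneg (h0 z).le]
  filter_upwards [H.fix _ (xaut_bm hw hc fun z => by
      rw [hn]; exact inv_le_one_of_one_le₀ (by linarith [norm_nonneg z])),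
    H.fix _ (xaut_bm hw (ψ := fun z => z * ((1 + ‖z‖ : ℝ) : ℂ)⁻¹) (continuous_id.mul hc) fun z => by
      rw [norm_mul, hn, ← div_eq_mul_inv, div_le_one (h0 z)]
      exact le_add_of_nonneg_left zero_le_one)] with y e1 e2
  rw [e1] at e2
  exact mul_right_cancel₀ (inv_ne_zero (h1 _)) e2

theorem Aut.pres_ae (H : Aut O A g g') (hF : AEStronglyMeasurable[A.m] F Z.μ) :
    AEStronglyMeasurable[A.m] (fun y => F (g y)) Z.μ := by
  obtain ⟨f, hf, e⟩ := hF
  exact ⟨fun y => f (g y), hf.comp_measurable (xaut_meas H), xaut_ae H.hom e⟩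

theorem xaut_int (H : Hom Z Z g) (hF : Integrable F Z.μ) : Integrable (fun y => F (g y)) Z.μ :=
  (H.mp.integrable_comp hF.1).2 hF

theorem xaut_set (H : Hom Z Z g) (hF : Integrable F Z.μ) {t : Set Z.X} (ht : MeasurableSet t) :
    ∫ y in g ⁻¹' t, F (g y) ∂Z.μ = ∫ y in t, F y ∂Z.μ := by
  rw [← setIntegral_map ht (H.mp.map_eq.symm ▸ hF.1) H.mp.measurable.aemeasurable, H.mp.map_eq]

theorem Aut.cond (H : Aut O A g g') (hF : Integrable F Z.μ) :
    A.E (fun y => F (g y)) =ᵐ[Z.μ] fun y => A.E F (g y) := by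
  refine (ae_eq_condExp_of_forall_setIntegral_eq A.le (xaut_int H.hom hF)
    (fun s _ _ => (xaut_int H.hom integrable_condExp).integrableOn) (fun s hs _ => ?_)
    (H.pres_ae stronglyMeasurable_condExp.aestronglyMeasurable)).symm
  have ht := xaut_meas H.symm hs
  have e : s =ᵐ[Z.μ] g ⁻¹' (g' ⁻¹' s) := by
    filter_upwards [H.left] with y hy
    change (y ∈ s) = (g' (g y) ∈ s)
    rw [hy]
  rw [setIntegral_congr_set e, setIntegral_congr_set e,
    xaut_set H.hom integrable_condExp (A.le _ ht), xaut_set H.hom hF (A.le _ ht),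
    setIntegral_condExp A.le hF ht]

theorem Aut.cond_fix (H : Aut O A g g') (hD : D ≤ O) (hF : Integrable F Z.μ) :
    D.E (fun y => F (g y)) =ᵐ[Z.μ] D.E F := by
  have H' : Aut D D g g' := ⟨H.hom, H.hom', H.left, H.right, (H.mono hD).fix,
    fun F hF => hF.congr ((H.mono hD).fix F hF).symm,
    fun F hF => hF.congr ((H.symm.mono hD).fix F hF).symm⟩
  exact (H'.cond hF).trans (H'.fix_ae stronglyMeasurable_condExp.aestronglyMeasurable)

theorem Hom.shift (H : Hom Z Z g) (F : Z.X → ℂ) (l : ℤ) :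
    (fun y => F (g (Z.T l y))) =ᵐ[Z.μ] fun y => F (Z.T l (g y)) := by
  filter_upwards [H.comm l] with y hy
  rw [hy]

theorem Cube.wm_top (hC : Cube W M Og Oh g g' h h' sw pm) : WM W ⊤ := by
  rw [← hC.top, sup_assoc]
  exact wm_prod hC.wmM (wm_prod hC.wmg hC.wmh hC.leg hC.leh hC.ci2) hC.leM
    (hC.leg.trans le_sup_left) hC.ci1

theorem xaut_ci {P Q : Fc Z} (h1 : CI W M (P ⊔ Q)) (h2 : CI W P Q) : CI W P (M ⊔ Q) :=
  (h2.symm.contr ((h1.symm.weak le_sup_left (sup_le le_sup_right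
    (le_sup_right.trans le_sup_left))).symm.mono le_rfl le_sup_left)).symm.mono le_rfl
      (sup_comm _ _).le

theorem Cube.ci_g (hC : Cube W M Og Oh g g' h h' sw pm) : CI W Og (M ⊔ Oh) :=
  xaut_ci hC.ci1 hC.ci2

theorem Cube.ci_h (hC : Cube W M Og Oh g g' h h' sw pm) : CI W Oh (M ⊔ Og) :=
  xaut_ci (hC.ci1.mono le_rfl (sup_comm _ _).le) hC.ci2.symm

/-- For functions of `M v Oh` the conditional expectations on `M v Og` and on `M` agree. -/
theorem Cube.E_Mg (hC : Cube W M Og Oh g g' h h' sw pm) (hF : Integrable F Z.μ)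
    (hm : AEStronglyMeasurable[(M ⊔ Oh).m] F Z.μ) : (M ⊔ Og).E F =ᵐ[Z.μ] M.E F :=
  (hC.ci_g.symm.weak hC.leM (le_sup_left.trans le_sup_left)).symm.L1 hF hm

theorem Cube.E_M (hC : Cube W M Og Oh g g' h h' sw pm) (hk : BM (Og ⊔ Oh) k) :
    M.E k =ᵐ[Z.μ] W.E k :=
  hC.ci1.E_eq hC.leM hk

theorem Cube.E_g (hC : Cube W M Og Oh g g' h h' sw pm) (hφ : Integrable φ Z.μ)
    (hm : AEStronglyMeasurable[M.m] φ Z.μ) : Og.E φ =ᵐ[Z.μ] W.E φ := by
  have := (hC.ci1.symm.mono le_sup_left le_rfl).L1 hφ hm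
  rwa [sup_eq_right.2 hC.leg] at this

theorem Cube.E2 (hC : Cube W M Og Oh g g' h h' sw pm) (hφ : Integrable φ Z.μ)
    (hm : AEStronglyMeasurable[M.m] φ Z.μ) (hk : BM (Og ⊔ Oh) k) :
    W.E (fun y => φ y * k y) =ᵐ[Z.μ] fun y => W.E φ y * W.E k y :=
  hC.ci1.mul_L1 hφ hm hk

theorem Cube.E3 (hC : Cube W M Og Oh g g' h h' sw pm) (hφ : Integrable φ Z.μ)
    (hm : AEStronglyMeasurable[M.m] φ Z.μ) (hw : BM Og w) (hw' : BM Oh w') :
    W.E (fun y => φ y * w y * w' y) =ᵐ[Z.μ] fun y => W.E φ y * W.E w y * W.E w' y := by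
  simp only [mul_assoc]
  filter_upwards [hC.E2 hφ hm ((hw.mono le_sup_left).mul (hw'.mono le_sup_right)),
    ci_iff_mul.1 hC.ci2 w w' hw hw'] with y h1 h2
  rw [h1, h2]

/-- `mix` for integrable functions. -/
theorem Cube.mix_L1 (hC : Cube W M Og Oh g g' h h' sw pm) (hφ : Integrable φ Z.μ)
    (hm : AEStronglyMeasurable[M.m] φ Z.μ) : M.E (fun y => φ (g y)) =ᵐ[Z.μ] W.E φ := by
  have hi : Integrable (M.E (fun y => φ (g y)) - W.E φ) Z.μ :=
    integrable_condExp.sub integrable_condExp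
  have h0 : ∫ y, ‖(M.E (fun y => φ (g y)) - W.E φ) y‖ ∂Z.μ = 0 := by
    refine le_antisymm (le_of_forall_pos_le_add fun ε hε => ?_)
      (integral_nonneg fun _ => norm_nonneg _)
    obtain ⟨f, hf, he⟩ := exists_bm_L1 hφ hm (half_pos hε)
    have hd : Integrable (fun y => φ y - f y) Z.μ := hφ.sub hf.integrable
    have h1 := n1_le M fun y => φ (g y) - f (g y)
    have h2 := n1_le W fun y => φ y - f y
    have h3 : ∫ y, ‖φ (g y) - f (g y)‖ ∂Z.μ = ∫ y, ‖φ y - f y‖ ∂Z.μ := by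
      rw [← integral_map (f := fun y => ‖φ y - f y‖) hC.ag.hom.mp.measurable.aemeasurable
        (hC.ag.hom.mp.map_eq.symm ▸ hd.1.norm), hC.ag.hom.mp.map_eq]
    have h4 : ∫ y, ‖(M.E (fun y => φ (g y)) - W.E φ) y‖ ∂Z.μ ≤
        (n1 M fun y => φ (g y) - f (g y)) + n1 W fun y => φ y - f y := by
      rw [n1, n1, ← integral_add integrable_condExp.norm integrable_condExp.norm]
      refine integral_mono_ae hi.norm (integrable_condExp.norm.add integrable_condExp.norm) ?_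
      filter_upwards [condExp_sub (xaut_int hC.ag.hom hφ) (xaut_int hC.ag.hom hf.integrable) M.m,
        condExp_sub hφ hf.integrable W.m, hC.mix f hf] with y e1 e2 e3
      refine le_trans (le_of_eq (congrArg _ ?_)) (norm_sub_le _ _)
      change M.E (fun y => φ (g y)) y - W.E φ y =
        M.E ((fun y => φ (g y)) - fun y => f (g y)) y - W.E (φ - f) y
      simp only [Fc.E, Pi.sub_apply] at e1 e2 e3 ⊢
      linear_combination e3 - e1 + e2
    linarith
  filter_upwards [(integral_eq_zero_iff_of_nonneg (fun _ => norm_nonneg _) hi.norm).1 h0] with y hy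
  exact sub_eq_zero.1 (norm_eq_zero.1 hy)

theorem Cube.hpm (hC : Cube W M Og Oh g g' h h' sw pm) : ∀ᵐ y ∂Z.μ, h (pm y) = pm (g y) := by
  filter_upwards [xaut_ae hC.apm.hom hC.pmg, hC.apm.left,
    xaut_ae (xaut_hom hC.ah.hom hC.apm.hom) hC.apm.left] with y h1 h2 h3
  rw [← h3, ← h1, h2]

end Pool.Agent.Lib.MP_1db5af_an.Th
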