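import Pool.Agent.Lib.MP_1db5af_an.Th.XU

set_option autoImplicit false

namespace Pool.Agent.Lib.MP_1db5af_an.Th

open MeasureTheory ProbabilityTheory Filter Topology ComplexConjugate Finset
open scoped ENNReal NNReal InnerProductSpace

variable {Z : CS} {W M Og Oh : Fc Z} {g g' h h' sw pm : Z.X → Z.X}
  {k : Z.X → ℂ} {C : ℝ}

theorem xbes_abs {H : Type*} [NormedAddCommGroup H] [InnerProductSpace ℂ H] {r : ℕ} (κ : H)
    {v : Fin r → H} {s : Fin r → ℝ} (h1 : ∀ i j, i ≠ j → ⟪v i, v j⟫_ℂ = 0)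
    (h2 : ∀ i, ‖v i‖ ^ 2 ≤ s i) (h3 : ∀ i, RCLike.re ⟪κ, v i⟫_ℂ = s i) :
    ∑ i, s i ≤ ‖κ‖ ^ 2 := by
  have e1 : ‖∑ i, v i‖ ^ 2 = ∑ i, ‖v i‖ ^ 2 := by
    rw [← inner_self_eq_norm_sq (𝕜 := ℂ), sum_inner, map_sum]
    refine sum_congr rfl fun i _ => ?_
    rw [inner_sum, sum_eq_single i (fun j _ hj => h1 i j hj.symm) (by simp),
      inner_self_eq_norm_sq]
  have e2 := norm_sub_sq (𝕜 := ℂ) κ (∑ i, v i)
  rw [e1, inner_sum, map_sum, sum_congr rfl fun i _ => h3 i] at e2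
  have e3 := sum_le_sum (s := univ) fun i _ => h2 i
  nlinarith [sq_nonneg ‖κ - ∑ i, v i‖]

theorem xbes_pp {A : Set Z.X} {ψ : Lp ℂ 2 Z.μ}
    (h : M.E (fun x => ψ x * conj (ψ x)) =ᵐ[Z.μ] ind A) :
    ∀ᵐ x ∂Z.μ, pp M.m Z.μ ψ x ≤ 1 ∧ (x ∈ Aᶜ → pp M.m Z.μ ψ x = 0) := by
  filter_upwards [(pp_coe (W := M.m) ψ).symm.trans h] with x hx
  by_cases hA : x ∈ A
  · rw [ind_mem hA, Complex.ofReal_eq_one] at hx
    exact ⟨hx.le, fun h => absurd hA h⟩
  · rw [ind_not hA, Complex.ofReal_eq_zero] at hx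
    exact ⟨hx.le.trans zero_le_one, fun _ => hx⟩

theorem xbes_bm (hk : Bd Z.μ C k) {ψ : Lp ℂ 2 Z.μ} (h : ∀ᵐ x ∂Z.μ, pp M.m Z.μ ψ x ≤ 1) :
    BM M (M.E fun x => k x * ψ x) := by
  have hi : Integrable (fun x => k x * ψ x) Z.μ :=
    (hk.memLp_mul (Lp.memLp ψ)).integrable one_le_two
  refine ⟨⟨C ^ 2 + 1, integrable_condExp.1, ?_⟩, stronglyMeasurable_condExp.aestronglyMeasurable⟩
  have h1 := condExp_mono (m := M.m) hi.norm ((integrable_const (C ^ 2)).add (pp_int ψ)) (by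
    filter_upwards [hk.2] with x hx
    have := mul_le_mul_of_nonneg_right hx (norm_nonneg (ψ x))
    rw [norm_mul, Pi.add_apply]
    nlinarith [sq_nonneg (C - ‖ψ x‖), sq_nonneg C, sq_nonneg ‖ψ x‖])
  filter_upwards [norm_condExp_le (m := M.m) (μ := Z.μ) fun x => k x * ψ x, h1, h,
    condExp_add (integrable_const (C ^ 2)) (pp_int ψ) M.m] with x a1 a2 a3 a4
  rw [a4, condExp_const M.le, Pi.add_apply] at a2
  exact a1.trans (a2.trans (add_le_add_right a3 _))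

theorem uop_bessel (hC : Cube W M Og Oh g g' h h' sw pm) (hk : Bd Z.μ C k)
    (hkm : AEStronglyMeasurable[Og.m] k Z.μ) {r : ℕ} {A : Set Z.X} {φ : Fin r → Lp ℂ 2 Z.μ}
    (hA : MeasurableSet[W.m] A) (hφ : ∀ i, φ i ∈ LM M)
    (ho : ∀ i j, W.E (fun x => φ i x * conj (φ j x)) =ᵐ[Z.μ] if i = j then ind A else 0) :
    ∑ i, ‖Uop M hC.ag.hom k (φ i)‖ ^ 2 ≤ C ^ 2 * Z.μ.real A := by
  have hg := hC.ag.hom
  have hAM : MeasurableSet[M.m] A := hC.leM _ hA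
  have hA0 : MeasurableSet A := M.le _ hAM
  have hB : BM Og k := ⟨⟨C, hk⟩, hkm⟩
  obtain ⟨ψ, hψ⟩ : ∃ ψ : Fin r → Lp ℂ 2 Z.μ, ∀ i, ψ i =ᵐ[Z.μ] fun y => φ i (g y) :=
    ⟨_, fun i => L2_coe ((Lp.memLp (φ i)).comp_measurePreserving hg.mp)⟩
  have ho' : ∀ i j, M.E (fun x => ψ i x * conj (ψ j x)) =ᵐ[Z.μ] if i = j then ind A else 0 :=
    fun i j => (E_congr (by
      filter_upwards [hψ i, hψ j] with x a1 a2
      rw [a1, a2])).trans ((hC.mix_L1 (eiga_int (φ i) (φ j)) ((mem_LM.1 (hφ i)).mul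
        (Complex.continuous_conj.comp_aestronglyMeasurable (mem_LM.1 (hφ j))))).trans (ho i j))
  have hp := fun i => xbes_pp (A := A) (by simpa using ho' i i)
  have hs : ∀ i, ∀ᵐ x ∂Z.μ, ψ i x = ind A x * ψ i x := fun i => by
    have e := eigb_split hA0 (ψ i)
    rw [(pp_ind_zero M.le hAM.compl (ψ i)).2 ((hp i).mono fun _ h => h.2), add_zero] at e
    have := mulOp_coe (ind_bd (μ := Z.μ) hA0) (ψ i)
    rwa [e] at this
  have hc : ∀ i, BM M (Uop M hC.ag.hom k (φ i)) := fun i =>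
    (xbes_bm hk ((hp i).mono fun _ h => h.1)).congr ((E_congr (by
      filter_upwards [hψ i] with x a1
      rw [a1])).trans (uop_coe _ hB _).symm)
  have hn : ∀ i, ⟪Uop M hC.ag.hom k (φ i), Uop M hC.ag.hom k (φ i)⟫_ℂ = _ := fun i =>
    uop_inner _ hB (uop_mem _ k (φ i)) (φ i)
  obtain ⟨c, hc0⟩ : ∃ c : Fin r → Lp ℂ 2 Z.μ, ∀ i, Uop M hC.ag.hom k (φ i) = c i :=
    ⟨_, fun _ => rfl⟩
  simp only [hc0] at hc hn ⊢
  have hI := ind_bd (μ := Z.μ) hA0
  have hv : ∀ i, mulOp Z.μ (fun x => conj (c i x)) (ψ i) =ᵐ[Z.μ] fun x => conj (c i x) * ψ i x :=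
    fun i => (hc i).1.elim fun _ h => mulOp_coe h.star _
  have key : ∀ i j, ⟪mulOp Z.μ (fun x => conj (c i x)) (ψ i),
      mulOp Z.μ (fun x => conj (c j x)) (ψ j)⟫_ℂ =
      ∫ x, (if j = i then ind A else 0) x * (c i x * conj (c j x)) ∂Z.μ := fun i j => by
    have e := E_mul_L1 ((hc i).mul (hc j).star) (eiga_int (ψ j) (ψ i))
    rw [eiga_inner]
    refine (integral_congr_ae ?_).trans ((int_E (W := M)).symm.trans (integral_congr_ae
      (e.trans ?_)))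
    · filter_upwards [hv i, hv j] with x a1 a2
      rw [a1, a2, map_mul, Complex.conj_conj]
      ring
    · filter_upwards [ho' j i] with x a1
      rw [a1, mul_comm]
  refine (xbes_abs (L2 Z.μ fun x => conj (k x) * ind A x)
    (v := fun i => mulOp Z.μ (fun x => conj (c i x)) (ψ i)) (fun i j hij => ?_) (fun i => ?_)
    fun i => ?_).trans ?_
  · rw [key, if_neg hij.symm]
    simp
  · rw [← inner_self_eq_norm_sq (𝕜 := ℂ), key, if_pos rfl, ← mulOp_inner hI, sq]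
    refine (re_inner_le_norm _ _).trans (mul_le_mul_of_nonneg_left ?_ (norm_nonneg _))
    have := hI.norm_L2_mul (Lp.memLp (c i))
    rwa [one_mul, L2_Lp, ← mulOp_apply hI] at this
  · rw [← inner_self_eq_norm_sq (𝕜 := ℂ), hn, eiga_inner]
    refine congrArg _ (integral_congr_ae ?_)
    filter_upwards [hv i, hs i, hψ i, L2_coe (hk.star.mul hI).memLp] with x a1 a2 a3 a4
    have a5 : conj (ind A x) = ind A x := by
      by_cases hx : x ∈ A
      · rw [ind_mem hx, map_one]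
      · rw [ind_not hx, map_zero]
    rw [a1, a4, ← a3, map_mul, Complex.conj_conj, a5]
    linear_combination (-conj (c i x) * k x) * a2
  · have e : ‖L2 Z.μ (ind A)‖ ^ 2 = Z.μ.real A := by
      rw [norm_L2_sq hI.memLp, ← integral_indicator_one hA0]
      refine integral_congr_ae (Eventually.of_forall fun x => ?_)
      by_cases hx : x ∈ A <;> simp [ind, hx]
    rw [← e, ← mul_pow]
    exact pow_le_pow_left₀ (norm_nonneg _) (hk.star.norm_L2_mul hI.memLp) 2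

end Pool.Agent.Lib.MP_1db5af_an.Th
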