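import Pool.Agent.Lib.MP_1db5af_an.Th.XBase

set_option autoImplicit false

namespace Pool.Agent.Lib.MP_1db5af_an.Th

open MeasureTheory ProbabilityTheory Filter Topology ComplexConjugate Finset
open scoped ENNReal NNReal InnerProductSpace

variable {Z : CS} {W M : Fc Z} {ρ : ℕ → Z.X → ℂ} {k : ℕ → ℤ} {F G w : Z.X → ℂ} {R : ℝ}
variable {ι : Type} [Fintype ι] [DecidableEq ι] {u : ι → ℕ → ℤ} {a : ι}

theorem kil_congr (h : Kil W ρ k F) (e : F =ᵐ[Z.μ] G) : Kil W ρ k G := by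
  have : (fun n => n1 W fun x => G (Z.T (k n) x) * ρ n x) =
      fun n => n1 W fun x => F (Z.T (k n) x) * ρ n x := by
    funext n
    refine n1_congr ?_
    filter_upwards [(Z.sys.mp (k n)).quasiMeasurePreserving.ae e] with x hx
    rw [hx]
  rw [Kil, this]
  exact h

theorem xkil_mem (hF : MemLp F 2 Z.μ) (l : ℤ) : MemLp (fun x => F (Z.T l x)) 2 Z.μ :=
  hF.comp_measurePreserving (Z.sys.mp l)

theorem xkil_int (hF : MemLp F 2 Z.μ) (hG : MemLp G 2 Z.μ) (l : ℤ) :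
    Integrable (fun x => F (Z.T l x) * G x) Z.μ :=
  MemLp.integrable_mul (xkil_mem hF l) hG

theorem xkil_zero : Kil W ρ k fun _ => 0 := by
  refine nul_mono (fun n => n1_nonneg _ _) (fun n => ?_)
    (nul_finsum (∅ : Finset ℕ) (p := fun _ _ => 0) fun _ h => absurd h (notMem_empty _))
  refine (n1_le _ _).trans ?_
  simp

theorem xkil_add (hρ : ∀ n, MemLp (ρ n) 2 Z.μ) (hF : MemLp F 2 Z.μ) (hG : MemLp G 2 Z.μ)
    (h1 : Kil W ρ k F) (h2 : Kil W ρ k G) : Kil W ρ k fun x => F x + G x := by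
  refine nul_mono (fun n => n1_nonneg _ _) (fun n => ?_) (nul_add h1 h2)
  simp only [add_mul]
  exact n1_add (xkil_int hF (hρ n) _) (xkil_int hG (hρ n) _)

theorem xkil_mul (hρ : ∀ n, MemLp (ρ n) 2 Z.μ) (hw : BM W w) (hF : MemLp F 2 Z.μ)
    (h : Kil W ρ k F) : Kil W ρ k fun x => w x * F x := by
  obtain ⟨⟨C, hC⟩, hm⟩ := hw
  refine nul_mono (fun n => n1_nonneg _ _) (fun n => ?_) (nul_mul C h)
  simp only [mul_assoc]
  exact n1_mul (hC.comp (Z.sys.mp (k n))) (aesm_shift hm (k n)) (xkil_int hF (hρ n) _)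

theorem xkil_near (hρ : ∀ n, MemLp (ρ n) 2 Z.μ ∧ ‖L2 Z.μ (ρ n)‖ ≤ R) (hF : MemLp F 2 Z.μ)
    (h : ∀ ε : ℝ, 0 < ε → ∃ G, MemLp G 2 Z.μ ∧ Kil W ρ k G ∧ ‖L2 Z.μ F - L2 Z.μ G‖ ≤ ε) :
    Kil W ρ k F := by
  have hR : 0 ≤ R := (norm_nonneg _).trans (hρ 0).2
  refine nul_of_forall (fun n => n1_nonneg _ _) fun ε hε => ?_
  obtain ⟨G, hG, h1, h2⟩ := h (ε / (R + 1)) (by positivity)
  refine ⟨_, h1, fun n => ?_⟩
  have hD : MemLp (fun x => F x - G x) 2 Z.μ := hF.sub hG
  have e : (fun x => F (Z.T (k n) x) * ρ n x) = fun x => G (Z.T (k n) x) * ρ n x +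
      (F (Z.T (k n) x) - G (Z.T (k n) x)) * ρ n x := by
    funext x
    ring
  rw [e]
  refine (n1_add (xkil_int hG (hρ n).1 _) (xkil_int hD (hρ n).1 _)).trans ?_
  refine add_le_add le_rfl ((n1_cs (xkil_mem hD _) (hρ n).1).trans ?_)
  rw [norm_L2_comp (Z.sys.mp (k n)) hD, L2_sub hF hG]
  calc _ ≤ ε / (R + 1) * (R + 1) :=
        mul_le_mul h2 ((hρ n).2.trans (by linarith)) (norm_nonneg _) (by positivity)
    _ = ε := div_mul_cancel₀ _ (by positivity)

theorem xkil_sum (hρ : ∀ n, MemLp (ρ n) 2 Z.μ) {κ : Type} (s : Finset κ) {g : κ → Z.X → ℂ}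
    (hg : ∀ i ∈ s, MemLp (g i) 2 Z.μ ∧ Kil W ρ k (g i)) :
    Kil W ρ k fun x => ∑ i ∈ s, g i x := by
  classical
  induction s using Finset.induction_on with
  | empty => simpa using xkil_zero
  | insert i s hi ih =>
    simp only [sum_insert hi]
    have h1 : ∀ j ∈ s, MemLp (g j) 2 Z.μ ∧ Kil W ρ k (g j) := fun j hj =>
      hg j (mem_insert_of_mem hj)
    exact xkil_add hρ (hg i (mem_insert_self _ _)).1 (memLp_finsetSum s fun j hj => (h1 j hj).1)
      (hg i (mem_insert_self _ _)).2 (ih h1)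

/-- The classes that are annihilated form a closed subspace (`n1_add`, `n1_mul`, `n1_cs`,
`nul_of_forall`). -/
theorem kil_closure (hρ : ∀ n, MemLp (ρ n) 2 Z.μ ∧ ‖L2 Z.μ (ρ n)‖ ≤ R) {S : Set (Lp ℂ 2 Z.μ)}
    (hS : ∀ v ∈ S, Kil W ρ k v) {v : Lp ℂ 2 Z.μ}
    (hv : v ∈ (Submodule.span ℂ S).topologicalClosure) : Kil W ρ k v := by
  have h1 : ∀ g ∈ Submodule.span ℂ S, Kil W ρ k g := by
    intro g hg
    induction hg using Submodule.span_induction with
    | mem g hg => exact hS g hg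
    | zero => exact kil_congr xkil_zero (Lp.coeFn_zero ℂ 2 Z.μ).symm
    | add g g' _ _ h h' =>
      exact kil_congr (xkil_add (fun n => (hρ n).1) (Lp.memLp g) (Lp.memLp g') h h')
        (Lp.coeFn_add g g').symm
    | smul c g _ h =>
      exact kil_congr (xkil_mul (fun n => (hρ n).1) (bm_const c) (Lp.memLp g) h)
        (Lp.coeFn_smul c g).symm
  refine xkil_near hρ (Lp.memLp v) fun ε hε => ?_
  obtain ⟨g, hg, hd⟩ := Metric.mem_closure_iff.1 hv ε hε
  refine ⟨g, Lp.memLp g, h1 g hg, ?_⟩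
  rw [L2_Lp, L2_Lp, ← dist_eq_norm]
  exact hd.le

theorem kil_add (hρ : ∀ n, MemLp (ρ n) 2 Z.μ) (hF : MemLp F 2 Z.μ) (hG : MemLp G 2 Z.μ)
    (h1 : Kil W ρ k F) (h2 : Kil W ρ k G) : Kil W ρ k fun x => F x + G x := by
  exact xkil_add hρ hF hG h1 h2

theorem kil_appr (hρ : ∀ n, MemLp (ρ n) 2 Z.μ ∧ ‖L2 Z.μ (ρ n)‖ ≤ R) {P : (Z.X → ℂ) → Prop}
    (hP : ∀ G C, Bd Z.μ C G → P G → Kil W ρ k G) (hF : MemLp F 2 Z.μ) (h : Appr Z.μ P F) :
    Kil W ρ k F := by
  refine xkil_near hρ hF fun ε hε => ?_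
  obtain ⟨n, g, D, h1, h2⟩ := h ε hε
  exact ⟨_, memLp_finsetSum univ fun l _ => (h1 l).1.memLp,
    xkil_sum (fun n => (hρ n).1) univ fun l _ => ⟨(h1 l).1.memLp, hP _ D (h1 l).1 (h1 l).2⟩, h2⟩

theorem kil_mul (hρ : ∀ n, MemLp (ρ n) 2 Z.μ) (hw : BM W w) (hF : MemLp F 2 Z.μ)
    (h : Kil W ρ k F) : Kil W ρ k fun x => w x * F x := by
  exact xkil_mul hρ hw hF h

omit [Fintype ι] [DecidableEq ι] in
theorem xkil_bd {J : Finset ι} {f : ι → Z.X → ℂ} (hf : ∀ b ∈ J, ∃ C, Bd Z.μ C (f b)) :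
    ∃ C, ∀ n, Bd Z.μ C (pr Z u J f n) := by
  obtain ⟨D, -, hD⟩ := tw_unif J hf
  exact ⟨D ^ J.card, fun n => Bd.prod J fun b hb => (hD b hb).comp (Z.sys.mp (u b n))⟩

omit [Fintype ι] in
theorem xkil_update {J : Finset ι} (hJ : a ∈ J) (f : ι → Z.X → ℂ) (F : Z.X → ℂ) (n : ℕ)
    (x : Z.X) : pr Z u J (Function.update f a F) n x =
      F (Z.T (u a n) x) * pr Z u (J.erase a) f n x := by
  simp only [pr]
  rw [← mul_prod_erase J _ hJ, Function.update_self]
  congr 1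
  exact prod_congr rfl fun b hb => by rw [Function.update_of_ne (ne_of_mem_erase hb)]

/-- Slot by slot: induction on the set of slots already replaced, `kil_appr` in one slot with
the weights `ρ n * pr (J.erase b)`. -/
theorem kil_slots (hρ : ∀ n, MemLp (ρ n) 2 Z.μ ∧ ‖L2 Z.μ (ρ n)‖ ≤ R) (J : Finset ι)
    {P : (Z.X → ℂ) → Prop}
    (H : ∀ f : ι → Z.X → ℂ, (∀ b ∈ J, (∃ C, Bd Z.μ C (f b)) ∧ P (f b)) →
      Nul fun n => n1 W fun x => ρ n x * pr Z u J f n x)
    {f : ι → Z.X → ℂ} (hf : ∀ b ∈ J, (∃ C, Bd Z.μ C (f b)) ∧ Appr Z.μ P (f b)) :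
    Nul fun n => n1 W fun x => ρ n x * pr Z u J f n x := by
  have key : ∀ (K : Finset ι) (f : ι → Z.X → ℂ), (∀ b ∈ J, ∃ C, Bd Z.μ C (f b)) →
      (∀ b ∈ J, b ∈ K → Appr Z.μ P (f b)) → (∀ b ∈ J, b ∉ K → P (f b)) →
      Nul fun n => n1 W fun x => ρ n x * pr Z u J f n x := by
    intro K
    induction K using Finset.induction_on with
    | empty => exact fun f h1 _ h3 => H f fun b hb => ⟨h1 b hb, h3 b hb (notMem_empty b)⟩
    | insert c K hc ih =>
      intro f h1 h2 h3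
      by_cases hJ : c ∈ J
      · obtain ⟨C, hC⟩ := xkil_bd (u := u) (J := J.erase c) (f := f) fun b hb =>
          h1 b (mem_of_mem_erase hb)
        have e : ∀ G : Z.X → ℂ, (Nul fun n => n1 W fun x =>
            ρ n x * pr Z u J (Function.update f c G) n x) ↔
            Kil W (fun n x => pr Z u (J.erase c) f n x * ρ n x) (u c) G := fun G => by
          rw [Kil]
          refine iff_of_eq (congrArg Nul (funext fun n => congrArg (n1 W) (funext fun x => ?_)))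
          rw [xkil_update hJ]
          ring
        have k1 := e (f c)
        rw [Function.update_eq_self] at k1
        obtain ⟨D, hD⟩ := h1 c hJ
        refine k1.2 (kil_appr (R := C * R) (P := P) (fun n => ⟨(hC n).memLp_mul (hρ n).1,
          ((hC n).norm_L2_mul (hρ n).1).trans
            (mul_le_mul_of_nonneg_left (hρ n).2 (hC n).nonneg)⟩) (fun G E hG hP => ?_) hD.memLp
          (h2 c hJ (mem_insert_self _ _)))
        refine (e G).1 (ih _ (fun b hb => ?_) (fun b hb hK => ?_) fun b hb hK => ?_)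
        · by_cases hb' : b = c
          · rw [hb', Function.update_self]
            exact ⟨E, hG⟩
          · rw [Function.update_of_ne hb']
            exact h1 b hb
        · rw [Function.update_of_ne (ne_of_mem_of_not_mem hK hc)]
          exact h2 b hb (mem_insert_of_mem hK)
        · by_cases hb' : b = c
          · rw [hb', Function.update_self]
            exact hP
          · rw [Function.update_of_ne hb']
            exact h3 b hb fun h => (mem_insert.1 h).elim hb' hK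
      · exact ih f h1 (fun b hb hK => h2 b hb (mem_insert_of_mem hK)) fun b hb hK =>
          h3 b hb fun h => (mem_insert.1 h).elim (fun e => hJ (e ▸ hb)) hK
  exact key J f (fun b hb => (hf b hb).1) (fun b hb _ => (hf b hb).2) fun b hb h => absurd hb h

theorem pr_bd {J : Finset ι} {f : ι → Z.X → ℂ} (hf : ∀ b ∈ J, ∃ C, Bd Z.μ C (f b)) :
    ∃ C, ∀ n, Bd Z.μ C (pr Z u J f n) := by
  exact xkil_bd hf

theorem pr_update (f : ι → Z.X → ℂ) (F : Z.X → ℂ) (n : ℕ) :
    pr Z u univ (Function.update f a F) n =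
      fun x => F (Z.T (u a n) x) * pr Z u (univ.erase a) f n x := by
  exact funext fun x => xkil_update (mem_univ a) f F n x

theorem nn_congr (h : NN u W M a F) (e : F =ᵐ[Z.μ] G) : NN u W M a G := by
  exact ⟨h.1.congr e, fun f hf => kil_congr (h.2 f hf) e⟩

theorem nn_closure {v : Lp ℂ 2 Z.μ}
    (hv : v ∈ (Submodule.span ℂ {v : Lp ℂ 2 Z.μ | NN u W M a v}).topologicalClosure) :
    NN u W M a v := by
  refine ⟨mem_LM.1 (Submodule.topologicalClosure_minimal _
    (Submodule.span_le.2 fun g hg => mem_LM.2 hg.1) (LM_closed M) hv), fun f hf => ?_⟩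
  obtain ⟨C, hC⟩ := xkil_bd (u := u) (J := univ.erase a) (f := f) fun b _ => (hf b).1
  exact kil_closure (fun n => ⟨(hC n).memLp, (hC n).norm_L2⟩) (fun g hg => hg.2 f hf) hv

theorem nn_mul (hW : W ≤ M) (hw : BM W w) (hF : MemLp F 2 Z.μ) (h : NN u W M a F) :
    NN u W M a fun x => w x * F x := by
  refine ⟨(hw.mono hW).2.mul h.1, fun f hf => ?_⟩
  obtain ⟨C, hC⟩ := xkil_bd (u := u) (J := univ.erase a) (f := f) fun b _ => (hf b).1
  exact kil_mul (fun n => (hC n).memLp) hw hF (h.2 f hf)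

/-- Take all other functions equal to one: the averages are constant. -/
theorem nn_zero (hF : Integrable F Z.μ) (h : NN u W M a F) : W.E F =ᵐ[Z.μ] 0 := by
  have h1 := h.2 (fun _ _ => 1) fun _ => bm_const 1
  have hi : Integrable (fun x => ‖W.E F x‖) Z.μ := integrable_condExp.norm
  have e : (fun n => n1 W fun x => F (Z.T (u a n) x) *
      pr Z u (univ.erase a) (fun _ _ => 1) n x) = fun _ => ∫ x, ‖W.E F x‖ ∂Z.μ := by
    funext n
    simp only [pr, prod_const_one, mul_one, n1]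
    have h2 := (Z.sys.mp (u a n)).map_eq
    have h3 := integral_map (Z.sys.mp (u a n)).aemeasurable (h2.symm ▸ hi.1)
    rw [h2] at h3
    rw [h3]
    refine integral_congr_ae ?_
    filter_upwards [E_shift_L1 W hF (u a n)] with x hx
    rw [hx]
  rw [Kil, e, Nul] at h1
  have h4 : Tendsto (av fun _ : ℕ => ∫ x, ‖W.E F x‖ ∂Z.μ) atTop (𝓝 (∫ x, ‖W.E F x‖ ∂Z.μ)) :=
    tendsto_const_nhds.congr' ((eventually_gt_atTop 0).mono fun N hN => (av_const _ hN).symm)
  have h5 := (integral_eq_zero_iff_of_nonneg (fun x => norm_nonneg _) hi).1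
    (tendsto_nhds_unique h4 h1)
  filter_upwards [h5] with x hx
  exact norm_eq_zero.1 hx

theorem mem_HH {v : Lp ℂ 2 Z.μ} : v ∈ HH u W M a ↔
    v ∈ LM M ∧ ∀ n : Lp ℂ 2 Z.μ, NN u W M a n → ⟪n, v⟫_ℂ = 0 := by
  rw [HH, Submodule.mem_inf, Submodule.mem_orthogonal]
  exact and_congr_right fun _ => ⟨fun h n hn => h n (Submodule.subset_span hn), fun h n hn =>
    h n (nn_closure (Submodule.le_topologicalClosure _ hn))⟩

theorem HH_closed : IsClosed (HH u W M a : Set (Lp ℂ 2 Z.μ)) := by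
  exact (LM_closed M).inter (Submodule.isClosed_orthogonal _)

theorem HH_mul (hW : W ≤ M) (hw : BM W w) {v : Lp ℂ 2 Z.μ} (hv : v ∈ HH u W M a) :
    mulOp Z.μ w v ∈ HH u W M a := by
  obtain ⟨h1, h2⟩ := mem_HH.1 hv
  refine mem_HH.2 ⟨LM_mul (hw.mono hW) h1, fun n hn => ?_⟩
  obtain ⟨C, hC⟩ := hw.1
  have e := mulOp_adj hC.star n v
  simp only [Complex.conj_conj] at e
  rw [← e]
  exact h2 _ (nn_congr (nn_mul hW hw.star (Lp.memLp n) hn) (mulOp_coe hC.star n).symm)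

/-- Orthogonal projection on the closed span of the negligible classes. -/
theorem nn_hh_split {v : Lp ℂ 2 Z.μ} (hv : v ∈ LM M) :
    ∃ n H : Lp ℂ 2 Z.μ, NN u W M a n ∧ H ∈ HH u W M a ∧ v = n + H := by
  set K := (Submodule.span ℂ {v : Lp ℂ 2 Z.μ | NN u W M a v}).topologicalClosure with hK
  have : CompleteSpace K := (Submodule.isClosed_topologicalClosure _).completeSpace_coe
  obtain ⟨n, hn, H, hH, e⟩ := K.exists_add_mem_mem_orthogonal v
  have h1 := nn_closure hn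
  refine ⟨n, H, h1, mem_HH.2 ⟨?_, fun m hm => (Submodule.mem_orthogonal _ _).1 hH m
    (Submodule.le_topologicalClosure _ (Submodule.subset_span hm))⟩, e⟩
  have : H = v - n := by rw [e, add_sub_cancel_left]
  rw [this]
  exact (LM M).sub_mem hv (mem_LM.2 h1.1)

end Pool.Agent.Lib.MP_1db5af_an.Th
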