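import Pool.Agent.Lib.MP_1db5af_an.Th.XAut
import Pool.Agent.Lib.MP_1db5af_an.Th.XKil
import Pool.Agent.Lib.MP_1db5af_an.Th.AHr

set_option autoImplicit false

namespace Pool.Agent.Lib.MP_1db5af_an.Th

open MeasureTheory ProbabilityTheory Filter Topology ComplexConjugate Finset
open scoped ENNReal NNReal InnerProductSpace

variable {Z : CS} {W M Og Oh : Fc Z} {g g' h h' sw pm : Z.X → Z.X}
variable {ι : Type} [Fintype ι] [DecidableEq ι] {u : ι → ℕ → ℤ} {U : Ultrafilter ℕ}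

omit [Fintype ι] in
theorem xcoma_upd {J : Finset ι} (f : ι → Z.X → ℂ) {a : ι} (ha : a ∈ J) (φ : Z.X → ℂ)
    (n : ℕ) (x : Z.X) : pr Z u J (Function.update f a φ) n x =
      φ (Z.T (u a n) x) * pr Z u (J.erase a) f n x := by
  rw [pr, ← Finset.mul_prod_erase J _ ha, Function.update_self]
  congr 1
  exact Finset.prod_congr rfl fun b hb => by
    rw [Function.update_of_ne (Finset.ne_of_mem_erase hb)]

theorem xcoma_one (H : Hyp u U) {O : Fc Z} (e : W ≤ O) (hw : WM W O) {a b : ι} (hb : b ≠ a)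
    {β w : Z.X → ℂ} (hβ : BM O β) (hβ1 : W.E β =ᵐ[Z.μ] fun _ => 1) (h0 : BM O w) :
    Nul fun n => ‖L2 Z.μ fun x => W.E (fun x => w (Z.T (u a n) x)) x -
      W.E (fun x => w (Z.T (u a n) x) * pr Z u ((univ.erase a).erase b) (fun _ => β) n x) x‖ := by
  have ha : a ∈ univ.erase b := mem_erase.2 ⟨hb.symm, mem_univ a⟩
  refine (hr_full (H.hr (univ.erase b) (erase_ssubset (mem_univ b)).ne) e hw
    (f := Function.update (fun _ => β) a w) fun c _ => ?_).congr fun N => ?_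
  · rcases eq_or_ne c a with rfl | hc
    · rwa [Function.update_self]
    · rwa [Function.update_of_ne hc]
  congr 1
  funext n
  have e1 : (fun c => W.E (Function.update (fun _ => β) a w c)) =
      Function.update (fun _ => W.E β) a (W.E w) :=
    funext fun c => Function.apply_update (fun _ => W.E) _ a w c
  have e2 : pr Z u (univ.erase b) (Function.update (fun _ => W.E β) a (W.E w)) n =ᵐ[Z.μ]
      W.E fun x => w (Z.T (u a n) x) := by
    filter_upwards [E_shift (W := W) h0.top (u a n), sys_ae Z.sys hβ1] with x h1 h2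
    rw [xcoma_upd _ ha, h1, pr, prod_eq_one fun c _ => h2 _, mul_one]
  rw [e1, L2_congr e2, funext (xcoma_upd _ ha w n), erase_right_comm,
    L2_sub ((h0.shift _).E W).memLp (((h0.shift _).mul (bm_pr (fun _ _ => hβ) n)).E W).memLp,
    norm_sub_rev]

theorem xcoma_abs (hC : Cube W M Og Oh g g' h h' sw pm) {φ A A' Q Q' : ℕ → Z.X → ℂ}
    (hφ : ∀ n, BM M (φ n)) (hA : ∀ n, BM Og (A n)) (hA' : ∀ n, BM Oh (A' n))
    (hQ : ∀ n, BM Og (Q n)) (hQ' : ∀ n, BM Oh (Q' n)) {C D D' : ℝ} (b1 : ∀ n, Bd Z.μ C (φ n))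
    (b2 : ∀ n, Bd Z.μ D (A' n)) (b3 : ∀ n, Bd Z.μ D' (Q n))
    (h1 : Nul fun n => ‖L2 Z.μ fun x => W.E (A n) x - W.E (Q n) x‖)
    (h2 : Nul fun n => ‖L2 Z.μ fun x => W.E (A' n) x - W.E (Q' n) x‖) :
    Nul fun n => n1 W fun x => φ n x * A n x * A' n x - φ n x * Q n x * Q' n x := by
  refine nul_mono (fun n => n1_nonneg _ _) (fun n => ?_)
    (nul_add (nul_mul (C * D) h1) (nul_mul (C * D') h2))
  have t1 := ((hφ n).top.mul (hA n).top).mul (hA' n).top
  have t2 := ((hφ n).top.mul (hQ n).top).mul (hQ' n).top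
  obtain ⟨R, hR⟩ := (t1.sub t2).1
  have m1 := (((hA n).E W).sub ((hQ n).E W)).memLp
  have m2 := (((hA' n).E W).sub ((hQ' n).E W)).memLp
  have c1 : Bd Z.μ (C * D) fun x => W.E (φ n) x * W.E (A' n) x :=
    (b1 n).condExp.mul (b2 n).condExp
  have c2 : Bd Z.μ (C * D') fun x => W.E (φ n) x * W.E (Q n) x :=
    (b1 n).condExp.mul (b3 n).condExp
  have e1 : W.E (fun x => φ n x * A n x * A' n x - φ n x * Q n x * Q' n x) =ᵐ[Z.μ] fun x =>
      W.E (φ n) x * W.E (A' n) x * (W.E (A n) x - W.E (Q n) x) +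
        W.E (φ n) x * W.E (Q n) x * (W.E (A' n) x - W.E (Q' n) x) := by
    filter_upwards [E_sub (W := W) t1 t2, hC.E3 (hφ n).integrable (hφ n).2 (hA n) (hA' n),
      hC.E3 (hφ n).integrable (hφ n).2 (hQ n) (hQ' n)] with x e1 e2 e3
    rw [e1, e2, e3]
    ring
  refine (n1_le_L2 hR).trans ?_
  rw [L2_congr e1, L2_add (c1.memLp_mul m1) (c2.memLp_mul m2)]
  exact (norm_add_le _ _).trans (add_le_add (c1.norm_L2_mul m1) (c2.norm_L2_mul m2))

/-- The weights can be removed. By `kil_appr` and `appr_sup3` (with `top`) take `F = m w w'`.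
Then `E3` splits the conditional expectation into a bounded `M` part times
`E_W(S^(u a) w * pr β) * E_W(S^(u a) w' * pr β') - S^(u a) E_W w * S^(u a) E_W w'`, and
`hr_full` for `(W, Og)` on `univ.erase b2` with the family `update (fun _ => β) a w`
(same for `(W, Oh)` on `univ.erase b1`) shows that this tends to zero. -/
theorem coma (H : Hyp u U) (hC : Cube W M Og Oh g g' h h' sw pm) {a b1 b2 : ι} (h1 : b1 ≠ a)
    (h2 : b2 ≠ a) {f : ι → Z.X → ℂ} (hf : ∀ b, BM M (f b)) {β β' F : Z.X → ℂ} (hβ : BM Og β)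
    (hβ1 : W.E β =ᵐ[Z.μ] fun _ => 1) (hβ' : BM Oh β') (hβ1' : W.E β' =ᵐ[Z.μ] fun _ => 1)
    (hF : BM ⊤ F) :
    Kil W (fun n x => pr Z u (univ.erase a) f n x *
      (1 - pr Z u ((univ.erase a).erase b2) (fun _ => β) n x *
        pr Z u ((univ.erase a).erase b1) (fun _ => β') n x)) (u a) F := by
  obtain ⟨C1, c1⟩ := pr_bd (u := u) (J := univ.erase a) fun b _ => (hf b).1
  obtain ⟨C2, c2⟩ := pr_bd (u := u) (J := (univ.erase a).erase b2) (f := fun _ => β)
    fun _ _ => hβ.1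
  obtain ⟨C3, c3⟩ := pr_bd (u := u) (J := (univ.erase a).erase b1) (f := fun _ => β')
    fun _ _ => hβ'.1
  have hρ := fun n => (c1 n).mul ((Bd.const (μ := Z.μ) 1).sub ((c2 n).mul (c3 n)))
  refine kil_appr (fun n => ⟨(hρ n).memLp, (hρ n).norm_L2⟩) ?_ hF.memLp
    (appr_sup3 (A := M) (B := Og) (D := Oh) (by rwa [hC.top]))
  rintro _ - - ⟨m, w, w', hm, hw, hw', rfl⟩
  obtain ⟨D1, d1⟩ := hm.1
  obtain ⟨D2, d2⟩ := hw.1
  obtain ⟨D3, d3⟩ := hw'.1
  refine (xcoma_abs hC (fun n => (hm.shift (u a n)).mul (bm_pr (fun b _ => hf b) n))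
    (fun n => hw.shift (u a n)) (fun n => hw'.shift (u a n))
    (fun n => (hw.shift (u a n)).mul (bm_pr (fun _ _ => hβ) n))
    (fun n => (hw'.shift (u a n)).mul (bm_pr (fun _ _ => hβ') n))
    (fun n => (d1.comp (Z.sys.mp _)).mul (c1 n)) (fun n => d3.comp (Z.sys.mp _))
    (fun n => (d2.comp (Z.sys.mp _)).mul (c2 n))
    (xcoma_one H hC.leg hC.wmg h2 hβ hβ1 hw) (xcoma_one H hC.leh hC.wmh h1 hβ' hβ1' hw')).congr
    fun N => ?_
  congr 1
  funext n
  congr 1
  funext x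
  ring

end Pool.Agent.Lib.MP_1db5af_an.Th
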