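import Pool.Agent.Lib.MP_1db5af_an.Th.XAut
import Pool.Agent.Lib.MP_1db5af_an.Th.XKil
import Pool.Agent.Lib.MP_1db5af_an.Th.AHr

set_option autoImplicit false

namespace Pool.Agent.Lib.MP_1db5af_an.Th

open MeasureTheory ProbabilityTheory Filter Topology ComplexConjugate Finset
open scoped ENNReal NNReal InnerProductSpace

variable {Z : CS} {W M Og Oh : Fc Z} {g g' h h' sw pm : Z.X → Z.X}
variable {ι : Type} [Fintype ι] [DecidableEq ι] {u : ι → ℕ → ℤ} {U : Ultrafilter ℕ}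

/-- `hr_full` for `(W, top)` on `univ.erase a` (`wm_top`) with the family
`update wt b (d * wt b)`; all other conditional expectations are one. -/
theorem comn_avg (H : Hyp u U) (hC : Cube W M Og Oh g g' h h' sw pm) {a b : ι} (hb : b ≠ a)
    {wt : ι → Z.X → ℂ} (hwt : ∀ c, BM ⊤ (wt c)) (hwt1 : ∀ c, W.E (wt c) =ᵐ[Z.μ] fun _ => 1)
    {d : Z.X → ℂ} (hd : BM ⊤ d) :
    Nul fun n => ‖∫ x, d (Z.T (u b n) x) * pr Z u (univ.erase a) wt n x ∂Z.μ -
      ∫ x, d x * wt b x ∂Z.μ‖ := by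
  have hbJ : b ∈ univ.erase a := mem_erase.2 ⟨hb, mem_univ b⟩
  have hJ : univ.erase a ≠ univ := fun e => notMem_erase a univ (e.symm ▸ mem_univ a)
  have hdw := hd.mul (hwt b)
  let F : ι → Z.X → ℂ := Function.update wt b fun x => d x * wt b x
  have hFb : F b = fun x => d x * wt b x := Function.update_self ..
  have hFc : ∀ c, c ≠ b → F c = wt c := fun c hc => Function.update_of_ne hc ..
  have hF : ∀ c, BM ⊤ (F c) := fun c => by
    by_cases hc : c = b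
    · rw [hc, hFb]
      exact hdw
    · rw [hFc c hc]
      exact hwt c
  refine nul_mono (fun _ => norm_nonneg _) (fun n => ?_)
    (hr_full (H.hr _ hJ) le_top hC.wm_top fun c _ => hF c)
  have b1 : BM ⊤ (pr Z u (univ.erase a) F n) := bm_pr (fun c _ => hF c) n
  have b2 : BM ⊤ (pr Z u (univ.erase a) (fun c => W.E (F c)) n) :=
    bm_pr (fun c _ => ((hF c).E W).top) n
  have b3 := (b1.E W).top
  have e1 : ∀ x, d (Z.T (u b n) x) * pr Z u (univ.erase a) wt n x =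
      pr Z u (univ.erase a) F n x := by
    intro x
    simp only [pr]
    rw [← mul_prod_erase _ _ hbJ, ← mul_prod_erase _ _ hbJ, hFb, ← mul_assoc]
    exact congrArg _ (prod_congr rfl fun c hc => by rw [hFc c (ne_of_mem_erase hc)])
  have e2 : pr Z u (univ.erase a) (fun c => W.E (F c)) n =ᵐ[Z.μ]
      fun x => W.E (fun x => d x * wt b x) (Z.T (u b n) x) := by
    filter_upwards [ae_all_iff.2 fun c =>
      (Z.sys.mp (u c n)).quasiMeasurePreserving.ae (hwt1 c)] with x hx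
    simp only [pr]
    rw [← mul_prod_erase _ _ hbJ, hFb, prod_eq_one fun c hc => by
      rw [hFc c (ne_of_mem_erase hc)]
      exact hx c, mul_one]
  have e3 : ∫ x, d x * wt b x ∂Z.μ =
      ∫ x, pr Z u (univ.erase a) (fun c => W.E (F c)) n x ∂Z.μ := by
    rw [integral_congr_ae e2, int_shift (hdw.E W).top, int_E]
  simp only [e1]
  rw [e3, ← int_E (W := W), ← integral_sub b3.integrable b2.integrable,
    ← L2_sub b3.memLp b2.memLp]
  exact norm_integral_le_L2 (b3.sub b2).memLp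

theorem comn_aesm {O : Fc Z} {β : Z.X → ℝ} (hβ : BM O fun y => (β y : ℂ)) :
    AEStronglyMeasurable β Z.μ := by
  have h1 := Complex.continuous_re.comp_aestronglyMeasurable hβ.integrable.1
  simpa only [Complex.ofReal_re] using h1

theorem comn_integrable {O : Fc Z} {β : Z.X → ℝ} (hβ : BM O fun y => (β y : ℂ))
    (h0 : ∀ y, 0 ≤ β y) {F : Z.X → ℂ} (hF : BM ⊤ F) :
    Integrable (fun y => ‖F y‖ * β y) Z.μ := by
  have h1 := (hF.mul hβ.top).integrable.norm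
  simpa only [norm_mul, Complex.norm_real, Real.norm_of_nonneg (h0 _)] using h1

/-- Change of variables by an automorphism that fixes the weight. -/
theorem comn_int {O A : Fc Z} (H : Aut O A g g') {β : Z.X → ℝ} (hβ : BM O fun y => (β y : ℂ))
    {F : Z.X → ℂ} (hF : BM ⊤ F) :
    ∫ y, ‖F (g y)‖ * β y ∂Z.μ = ∫ y, ‖F y‖ * β y ∂Z.μ := by
  have h1 : AEStronglyMeasurable (fun y => ‖F y‖ * β y) (Z.μ.map g) := by
    rw [H.hom.mp.map_eq]
    exact hF.integrable.1.norm.mul (comn_aesm hβ)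
  have h2 := integral_map H.hom.mp.aemeasurable h1
  rw [H.hom.mp.map_eq] at h2
  rw [h2]
  refine integral_congr_ae ((H.fix _ hβ).mono fun y hy => ?_)
  simp only [Complex.ofReal_inj] at hy
  simp only [hy]

theorem comn_one {O A A' : Fc Z} (Hh : Aut O A' h h') (Hg : Aut O A g g') {β : Z.X → ℝ}
    (hβ : BM O fun y => (β y : ℂ)) (h0 : ∀ y, 0 ≤ β y) {f : Z.X → ℂ} (hf : BM ⊤ f) {ε : ℝ}
    (h1 : ∫ y, ‖f (g y) - f y‖ * β y ∂Z.μ ≤ ε)
    (h2 : ∫ y, ‖f (h (g y)) - f (h y)‖ * β y ∂Z.μ ≤ ε) :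
    ∫ y, ‖f (h (g y)) - f (g (h y))‖ * β y ∂Z.μ ≤ 2 * ε := by
  have b1 := bm_pb_top Hg.hom hf
  have b2 := bm_pb_top Hh.hom hf
  have b3 := bm_pb_top Hg.hom b2
  have b4 := bm_pb_top Hh.hom b1
  have h3 := comn_int Hh hβ (b1.sub hf)
  have i1 := comn_integrable hβ h0 (b3.sub b2)
  have i2 := comn_integrable hβ h0 (b4.sub b2)
  refine (integral_mono (comn_integrable hβ h0 (b3.sub b4)) (i1.add i2) fun y => ?_).trans ?_
  · simp only [Pi.add_apply, ← add_mul]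
    refine mul_le_mul_of_nonneg_right ?_ (h0 y)
    rw [norm_sub_rev (f (g (h y)))]
    exact norm_sub_le_norm_sub_add_norm_sub _ _ _
  · simp only [Pi.add_apply]
    rw [integral_add i1 i2, h3]
    linarith

theorem comn_cov {O A A' : Fc Z} (Hh : Aut O A' h h') (Hg : Aut O A g g') {β : Z.X → ℝ}
    (hβ : BM O fun y => (β y : ℂ)) {f : Z.X → ℂ} (hf : BM ⊤ f) :
    ∫ y, ‖f (h (g (h' (g' y)))) - f y‖ * β y ∂Z.μ =
      ∫ y, ‖f (h (g y)) - f (g (h y))‖ * β y ∂Z.μ := by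
  have b1 := (bm_pb_top Hg.hom' (bm_pb_top Hh.hom' (bm_pb_top Hg.hom
    (bm_pb_top Hh.hom hf)))).sub hf
  rw [← comn_int Hg hβ b1, ← comn_int Hh hβ (bm_pb_top Hg.hom b1)]
  refine integral_congr_ae ?_
  filter_upwards [Hh.left, Hh.hom.mp.quasiMeasurePreserving.ae Hg.left] with y e1 e2
  rw [e2, e1]

/-- First `β'` from `nearh` for the functions `f i`, `f i o g` (in `M v Og`), then `β` from
`nearg` for `f i`, `f i o h` (in `M v Oh`) with `ε / (2 (sup β' + 1))`. With `β`: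
`|f h g - f g h| <= |(f h) g - f h| + |f - f g| o h`, and the weights are fixed by `h`.
With `β'` alone exchange the roles. -/
theorem comn_near (hC : Cube W M Og Oh g g' h h' sw pm) {κ : Type} [Fintype κ]
    {f : κ → Z.X → ℂ} (hf : ∀ i, BM M (f i)) {ε : ℝ} (hε : 0 < ε) :
    ∃ β β' : Z.X → ℝ, BM Og (fun y => (β y : ℂ)) ∧ BM Oh (fun y => (β' y : ℂ)) ∧
      (∀ y, 0 ≤ β y) ∧ (∀ y, 0 ≤ β' y) ∧ W.E (fun y => (β y : ℂ)) =ᵐ[Z.μ] (fun _ => 1) ∧
      W.E (fun y => (β' y : ℂ)) =ᵐ[Z.μ] (fun _ => 1) ∧ ∀ i,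
        ∫ y, ‖f i (h (g (h' (g' y)))) - f i y‖ * β y ∂Z.μ ≤ ε ∧
        ∫ y, ‖f i (h (g (h' (g' y)))) - f i y‖ * β' y ∂Z.μ ≤ ε ∧
        ∫ y, ‖f i (h (g (h' (g' y)))) - f i y‖ * (β y * β' y) ∂Z.μ ≤ ε := by
  obtain ⟨β', hb', h0', hE', hn'⟩ := hC.nearh (κ ⊕ κ) (Sum.elim f fun i y => f i (g y))
    (by
      rintro (i | i)
      · exact (hf i).mono le_sup_left
      · exact hC.ag.pres _ ((hf i).mono le_sup_left)) (ε / 2) (by positivity)
  obtain ⟨C, hbd⟩ := hb'.1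
  have hC0 := hbd.nonneg
  obtain ⟨β, hb, h0, hE, hn⟩ := hC.nearg (κ ⊕ κ) (Sum.elim f fun i y => f i (h y))
    (by
      rintro (i | i)
      · exact (hf i).mono le_sup_left
      · exact hC.ah.pres _ ((hf i).mono le_sup_left)) (ε / (2 * (C + 1))) (by positivity)
  refine ⟨β, β', hb, hb', h0, h0', hE, hE', fun i => ?_⟩
  have hO := hb.mono (le_sup_left : Og ≤ Og ⊔ Oh)
  have hO' := hb'.mono (le_sup_right : Oh ≤ Og ⊔ Oh)
  have h1 : ∫ y, ‖f i (h (g (h' (g' y)))) - f i y‖ * β y ∂Z.μ ≤ ε / (C + 1) := by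
    rw [comn_cov hC.ah hC.ag hO (hf i).top]
    refine (comn_one hC.ah hC.ag hO h0 (hf i).top (hn (.inl i)) (hn (.inr i))).trans (le_of_eq ?_)
    field_simp
  refine ⟨h1.trans (div_le_self hε.le (by linarith)), ?_, ?_⟩
  · rw [comn_cov hC.ah hC.ag hO' (hf i).top]
    have h2 := comn_one hC.ag hC.ah hO' h0' (hf i).top (hn' (.inl i)) (hn' (.inr i))
    simp only [norm_sub_rev (f i (g (h _)))] at h2
    linarith
  · have b1 := (bm_pb_top hC.ag.hom' (bm_pb_top hC.ah.hom' (bm_pb_top hC.ag.hom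
      (bm_pb_top hC.ah.hom (hf i).top)))).sub (hf i).top
    have i1 := comn_integrable hb h0 b1
    have h2 : ∫ y, ‖f i (h (g (h' (g' y)))) - f i y‖ * (β y * β' y) ∂Z.μ ≤
        ∫ y, (C + 1) * (‖f i (h (g (h' (g' y)))) - f i y‖ * β y) ∂Z.μ := by
      refine integral_mono_of_nonneg (ae_of_all _ fun y =>
        mul_nonneg (norm_nonneg _) (mul_nonneg (h0 y) (h0' y))) (i1.const_mul _) ?_
      filter_upwards [hbd.2] with y hy
      rw [Complex.norm_real, Real.norm_of_nonneg (h0' y)] at hy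
      rw [← mul_assoc, mul_comm]
      exact mul_le_mul_of_nonneg_right (by linarith) (mul_nonneg (norm_nonneg _) (h0 y))
    rw [integral_const_mul] at h2
    rw [le_div_iff₀ (by linarith), mul_comm] at h1
    exact h2.trans h1

theorem comn_prod {J : Finset ι} {p q : ι → ℂ} {C : ℝ} (hC : 1 ≤ C)
    (hp : ∀ b ∈ J, ‖p b‖ ≤ C ∧ ‖q b‖ ≤ C) :
    ‖∏ b ∈ J, q b - ∏ b ∈ J, p b‖ ≤ C ^ J.card * ∑ b ∈ J, ‖q b - p b‖ := by
  induction J using Finset.induction_on with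
  | empty => simp
  | insert j J hj ih =>
    have h1 := ih fun b hb => hp b (mem_insert_of_mem hb)
    have h2 : ‖∏ b ∈ J, q b‖ ≤ C ^ J.card := by
      rw [norm_prod, ← prod_const]
      exact prod_le_prod (fun _ _ => norm_nonneg _) fun b hb => (hp b (mem_insert_of_mem hb)).2
    have h3 := (hp j (mem_insert_self _ _)).1
    have h4 : C ^ J.card ≤ C * C ^ J.card := le_mul_of_one_le_left (by positivity) hC
    have e : q j * ∏ b ∈ J, q b - p j * ∏ b ∈ J, p b =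
        (∏ b ∈ J, q b) * (q j - p j) + p j * (∏ b ∈ J, q b - ∏ b ∈ J, p b) := by ring
    rw [prod_insert hj, prod_insert hj, sum_insert hj, card_insert_of_notMem hj, pow_succ', e,
      mul_add, mul_assoc C _ (∑ b ∈ J, _)]
    refine (norm_add_le _ _).trans (add_le_add ?_ ?_)
    · rw [norm_mul]
      exact mul_le_mul_of_nonneg_right (h2.trans h4) (norm_nonneg _)
    · rw [norm_mul]
      exact mul_le_mul h3 h1 (norm_nonneg _) (by linarith)

/-- Telescoping of a product against a nonnegative weight. -/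
theorem comn_tele {J : Finset ι} {f f' : ι → Z.X → ℂ} {C : ℝ} (hC : 1 ≤ C)
    (hf : ∀ b ∈ J, Bd Z.μ C (f b) ∧ Bd Z.μ C (f' b)) (n : ℕ) :
    ∀ᵐ x ∂Z.μ, ‖pr Z u J f' n x - pr Z u J f n x‖ ≤
      C ^ J.card * ∑ b ∈ J, ‖f' b (Z.T (u b n) x) - f b (Z.T (u b n) x)‖ := by
  have h1 : ∀ᵐ x ∂Z.μ, ∀ b ∈ J, ‖f b (Z.T (u b n) x)‖ ≤ C ∧ ‖f' b (Z.T (u b n) x)‖ ≤ C :=
    (Filter.eventually_all_finset J).2 fun b hb =>
      ((hf b hb).1.comp (Z.sys.mp _)).2.and ((hf b hb).2.comp (Z.sys.mp _)).2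
  exact h1.mono fun x hx => comn_prod hC hx

end Pool.Agent.Lib.MP_1db5af_an.Th
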