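import Pool.Agent.Lib.MP_1db5af_an.Th.XComA
import Pool.Agent.Lib.MP_1db5af_an.Th.XComN

set_option autoImplicit false

namespace Pool.Agent.Lib.MP_1db5af_an.Th

open MeasureTheory ProbabilityTheory Filter Topology ComplexConjugate Finset
open scoped ENNReal NNReal InnerProductSpace

variable {Z : CS} {W M Og Oh : Fc Z} {g g' h h' sw pm : Z.X → Z.X}
variable {ι : Type} [Fintype ι] [DecidableEq ι] {u : ι → ℕ → ℤ} {U : Ultrafilter ℕ}

omit [Fintype ι] [DecidableEq ι] in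
/-- Moving the automorphism to the other factors. -/
theorem xcomb_move {O : Fc Z} {γ γ' : Z.X → Z.X} (A : Aut O ⊤ γ γ') (hW : W ≤ O) (J : Finset ι)
    {φ w : Z.X → ℂ} {f : ι → Z.X → ℂ} (hφ : BM ⊤ φ) (hf : ∀ b, BM ⊤ (f b)) (hw : BM O w)
    (k : ℤ) (n : ℕ) :
    W.E (fun x => (φ (γ (Z.T k x)) - φ (Z.T k x)) * (pr Z u J f n x * w x)) =ᵐ[Z.μ]
      W.E fun x => φ (Z.T k x) * (pr Z u J (fun b y => f b (γ' y)) n x - pr Z u J f n x) * w x := by
  have p1 : BM ⊤ (pr Z u J f n) := bm_pr (fun b _ => hf b) n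
  have p2 : BM ⊤ (pr Z u J (fun b y => f b (γ' y)) n) := bm_pr (fun b _ => A.pres' _ (hf b)) n
  have a1 := ((A.pres _ hφ).shift k).mul (p1.mul hw.top)
  have a2 := (hφ.shift k).mul (p1.mul hw.top)
  have a3 := (hφ.shift k).mul (p2.mul hw.top)
  have e1 : (fun x => φ (γ (Z.T k x)) * (pr Z u J f n x * w x)) =ᵐ[Z.μ] fun x =>
      φ (Z.T k (γ x)) * (pr Z u J (fun b y => f b (γ' y)) n (γ x) * w (γ x)) := by
    have h1 : ∀ᵐ x ∂Z.μ, ∀ b ∈ J, γ' (γ (Z.T (u b n) x)) = Z.T (u b n) x :=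
      (Filter.eventually_all_finset J).2 fun b _ =>
        (Z.sys.mp (u b n)).quasiMeasurePreserving.ae A.left
    filter_upwards [A.hom.shift φ k, A.fix w hw, h1,
      pr_pb A.hom u J (fun b y => f b (γ' y)) n] with x x1 x2 x3 x4
    rw [x1, x2, ← x4]
    congr 2
    exact Finset.prod_congr rfl fun b hb => (congrArg (f b) (x3 b hb)).symm
  have e2 := (E_congr (W := W) e1).trans (A.cond_fix hW a3.integrable)
  have e3 := E_sub (W := W) a1 a2
  have e4 := E_sub (W := W) a3 a2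
  simp only [sub_mul, mul_sub, mul_assoc]
  filter_upwards [e2, e3, e4] with x x2 x3 x4
  rw [x3, x4, x2]

/-- The mean of the second part. -/
theorem xcomb_bound (J : Finset ι) {φ : Z.X → ℂ} {f f' : ι → Z.X → ℂ} {C C' : ℝ} (hC : 1 ≤ C)
    (hφ : Bd Z.μ C' φ) (hC' : 0 ≤ C') (hf : ∀ b ∈ J, Bd Z.μ C (f b) ∧ Bd Z.μ C (f' b))
    {w : Z.X → ℝ} (hw : BM ⊤ fun x => (w x : ℂ)) (h0 : ∀ x, 0 ≤ w x) (k : ℤ) (n : ℕ) :
    (n1 W fun x => φ (Z.T k x) * (pr Z u J f' n x - pr Z u J f n x) * w x) ≤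
      C' * C ^ J.card * ∑ b ∈ J, ∫ x, ‖f' b (Z.T (u b n) x) - f b (Z.T (u b n) x)‖ * w x ∂Z.μ := by
  have hi : ∀ b ∈ J, Integrable
      (fun x => ‖f' b (Z.T (u b n) x) - f b (Z.T (u b n) x)‖ * w x) Z.μ := fun b hb => by
    have h1 : BM ⊤ (f b) := bm_top_iff.2 ⟨C, (hf b hb).1⟩
    have h2 : BM ⊤ (f' b) := bm_top_iff.2 ⟨C, (hf b hb).2⟩
    simpa using (((h2.sub h1).norm.shift (u b n)).mul hw).integrable.re
  refine (n1_le W _).trans ?_
  rw [← integral_finsetSum _ hi, ← integral_const_mul]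
  refine integral_mono_of_nonneg (Eventually.of_forall fun x => norm_nonneg _)
    ((integrable_finsetSum _ hi).const_mul _) ?_
  filter_upwards [comn_tele (u := u) hC hf n,
    (Z.sys.mp k).quasiMeasurePreserving.ae hφ.2] with x x1 x2
  rw [norm_mul, norm_mul, Complex.norm_real, Real.norm_of_nonneg (h0 x), ← Finset.sum_mul]
  calc _ ≤ C' * (C ^ J.card * ∑ b ∈ J, ‖f' b (Z.T (u b n) x) - f b (Z.T (u b n) x)‖) * w x :=
        mul_le_mul_of_nonneg_right (mul_le_mul x2 x1 (norm_nonneg _) hC') (h0 x)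
    _ = _ := by ring

/-- The commutator of the two automorphisms moves functions of `M` by negligible functions. -/
theorem comb (H : Hyp u U) (hC : Cube W M Og Oh g g' h h' sw pm) (a : ι) {φ : Z.X → ℂ}
    (hφ : BM M φ) : NN u W M a fun y => M.E (fun y => φ (g (h (g' (h' y))))) y - φ y := by
  have A := (hC.ag.top.comp hC.ah.top).comp (hC.ag.top.symm.comp hC.ah.top.symm)
  set γ : Z.X → Z.X := fun y => g (h (g' (h' y))) with hγ
  set γ' : Z.X → Z.X := fun y => h (g (h' (g' y))) with hγ'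
  have hWO : W ≤ Og ⊔ Oh := hC.leg.trans le_sup_left
  have h1 : BM ⊤ fun y => φ (γ y) := A.pres _ hφ.top
  have hF : BM ⊤ fun y => φ (γ y) - φ y := h1.sub hφ.top
  refine ⟨((h1.E M).sub hφ).2, fun f hf => ?_⟩
  set J := univ.erase a with hJ
  have e0 : M.E (fun y => φ (γ y) - φ y) =ᵐ[Z.μ] fun y => M.E (fun y => φ (γ y)) y - φ y := by
    filter_upwards [E_sub (W := M) h1 hφ.top, hφ.E_self] with x x1 x2
    rw [x1, x2]
  refine kil_congr ?_ e0
  have e1 : ∀ n, (n1 W fun x => M.E (fun y => φ (γ y) - φ y) (Z.T (u a n) x) * pr Z u J f n x) =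
      n1 W fun x => (φ (γ (Z.T (u a n) x)) - φ (Z.T (u a n) x)) * pr Z u J f n x := fun n => by
    refine n1_congr_E (EventuallyEq.trans (E_congr ?_)
      (E_mid hC.leM (hF.shift (u a n)).integrable (bm_pr (fun b _ => hf b) n)))
    filter_upwards [E_shift (W := M) hF (u a n)] with x x1
    rw [x1]
  unfold Kil
  simp only [e1]
  obtain ⟨b1, hb1, b2, hb2, hb⟩ : ∃ b1 ∈ J, ∃ b2 ∈ J, b1 ≠ b2 := Finset.one_lt_card.1 (by
    rw [hJ, card_erase_of_mem (mem_univ a), card_univ]; have := H.card; omega)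
  obtain ⟨C, C1, hCf⟩ := bm_bound (s := J) (A := ⊤) (F := f) fun b _ => (hf b).top
  obtain ⟨C₂, C2, hCf'⟩ := bm_bound (s := J) (A := ⊤) (F := fun b y => f b (γ' y))
    fun b _ => A.pres' _ (hf b).top
  obtain ⟨C', C3, hC'⟩ := bm_bound (s := J) (A := M) (F := fun _ => φ) fun _ _ => hφ
  have hB : ∀ b ∈ J, Bd Z.μ (max C C₂) (f b) ∧ Bd Z.μ (max C C₂) fun y => f b (γ' y) :=
    fun b hb => ⟨⟨(hCf b hb).1, (hCf b hb).2.mono fun _ hx => hx.trans (le_max_left _ _)⟩,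
      ⟨(hCf' b hb).1, (hCf' b hb).2.mono fun _ hx => hx.trans (le_max_right _ _)⟩⟩
  set K := C' * max C C₂ ^ J.card with hK
  have K0 : 0 ≤ K := by positivity
  refine nul_of_forall (fun n => n1_nonneg _ _) fun ε hε => ?_
  obtain ⟨β, β', p1, p2, p3, p4, p5, p6, p7⟩ := comn_near hC hf
    (ε := ε / (K * J.card + 1)) (by positivity)
  let wr : ι → Z.X → ℝ := fun c y => (if c = b2 then 1 else β y) * (if c = b1 then 1 else β' y)
  have w0 : ∀ c y, 0 ≤ wr c y := fun c y =>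
    mul_nonneg (by split_ifs; exacts [zero_le_one, p3 y]) (by split_ifs; exacts [zero_le_one, p4 y])
  have w1 : ∀ c, (BM (Og ⊔ Oh) fun y => (wr c y : ℂ)) ∧
      W.E (fun y => (wr c y : ℂ)) =ᵐ[Z.μ] (fun _ => 1) ∧
      ∫ y, ‖f c (γ' y) - f c y‖ * wr c y ∂Z.μ ≤ ε / (K * J.card + 1) := fun c => by
    by_cases c1 : c = b1
    · have c2 : c ≠ b2 := c1 ▸ hb
      simpa only [wr, if_pos c1, if_neg c2, mul_one] using ⟨p1.mono le_sup_left, p5, (p7 c).1⟩
    by_cases c2 : c = b2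
    · simpa only [wr, if_pos c2, if_neg c1, one_mul] using ⟨p2.mono le_sup_right, p6, (p7 c).2.1⟩
    · simp only [wr, if_neg c1, if_neg c2, Complex.ofReal_mul]
      refine ⟨(p1.mono le_sup_left).mul (p2.mono le_sup_right), ?_, (p7 c).2.2⟩
      filter_upwards [hC.ci2.mul_L1 p1.integrable p1.2 p2, p5, p6] with x x1 x2 x3
      rw [x1, x2, x3, mul_one]
  have w2 : ∀ n x, pr Z u J (fun c y => (wr c y : ℂ)) n x =
      ((∏ c ∈ J, wr c (Z.T (u c n) x) : ℝ) : ℂ) := fun n x => by simp [pr]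
  have w3 : ∀ n x, pr Z u (J.erase b2) (fun _ y => (β y : ℂ)) n x *
      pr Z u (J.erase b1) (fun _ y => (β' y : ℂ)) n x =
      ((∏ c ∈ J, wr c (Z.T (u c n) x) : ℝ) : ℂ) := fun n x => by
    have q : ∀ (b : ι) (v : ι → ℝ), ∏ c ∈ J, (if c = b then 1 else v c) = ∏ c ∈ J.erase b, v c :=
      fun b v => by
        rw [← Finset.prod_erase J (f := fun c => if c = b then 1 else v c) (a := b) (if_pos rfl)]
        exact Finset.prod_congr rfl fun c hc => if_neg (ne_of_mem_erase hc)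
    simp only [wr, Finset.prod_mul_distrib, q, pr]
    push_cast
    rfl
  have w4 : ∀ n, BM (Og ⊔ Oh) fun x => ((∏ c ∈ J, wr c (Z.T (u c n) x) : ℝ) : ℂ) := fun n => by
    simpa only [← w2] using bm_pr (u := u) (J := J) (fun c _ => (w1 c).1) n
  have k1 := coma H hC (ne_of_mem_erase hb1) (ne_of_mem_erase hb2) hf p1 p5 p2 p6 hF
  have k2 : ∀ b ∈ J, Nul _ := fun b hb => comn_avg H hC (ne_of_mem_erase hb)
    (wt := fun c y => (wr c y : ℂ)) (fun c => (w1 c).1.top) (fun c => (w1 c).2.1)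
    ((A.pres' _ (hf b).top).sub (hf b).top).norm
  refine ⟨_, nul_add k1 (nul_mul K (nul_finsum J k2)), fun n => ?_⟩
  have pf : BM ⊤ (pr Z u J f n) := bm_pr (fun b _ => (hf b).top) n
  have s1 := n1_add (W := W)
    ((hF.shift (u a n)).mul (pf.mul ((bm_const 1).sub (w4 n).top))).integrable
    ((hF.shift (u a n)).mul (pf.mul (w4 n).top)).integrable
  have s2 := (n1_congr_E (xcomb_move (u := u) A hWO J hφ.top (fun b => (hf b).top) (w4 n)
    (u a n) n)).trans_le (xcomb_bound J (C1.trans (le_max_left _ _)) (hC' b1 hb1) (by positivity) hB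
      (w4 n).top (fun x => Finset.prod_nonneg fun c _ => w0 c _) (u a n) n)
  have s3 : ∀ b ∈ J, ∫ x, ‖f b (γ' (Z.T (u b n) x)) - f b (Z.T (u b n) x)‖ *
      ∏ c ∈ J, wr c (Z.T (u c n) x) ∂Z.μ ≤
      ‖∫ x, (‖f b (γ' (Z.T (u b n) x)) - f b (Z.T (u b n) x)‖ : ℂ) *
        pr Z u J (fun c y => (wr c y : ℂ)) n x ∂Z.μ -
        ∫ x, (‖f b (γ' x) - f b x‖ : ℂ) * (wr b x : ℂ) ∂Z.μ‖ + ε / (K * J.card + 1) := by
    intro b _
    simp only [w2, ← Complex.ofReal_mul, integral_ofReal, integral_complex_ofReal,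
      ← Complex.ofReal_sub, Complex.norm_real, Real.norm_eq_abs]
    linarith [(w1 b).2.2, le_abs_self (∫ x, ‖f b (γ' (Z.T (u b n) x)) - f b (Z.T (u b n) x)‖ *
      ∏ c ∈ J, wr c (Z.T (u c n) x) ∂Z.μ - ∫ x, ‖f b (γ' x) - f b x‖ * wr b x ∂Z.μ)]
  have s4 := mul_le_mul_of_nonneg_left (Finset.sum_le_sum s3) K0
  rw [Finset.sum_add_distrib, Finset.sum_const, nsmul_eq_mul, mul_add] at s4
  have s5 : K * (J.card * (ε / (K * J.card + 1))) ≤ ε := by
    rw [← mul_assoc, ← mul_div_assoc, div_le_iff₀ (by positivity)]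
    nlinarith
  have s6 : (fun x => (φ (γ (Z.T (u a n) x)) - φ (Z.T (u a n) x)) * pr Z u J f n x) = fun x =>
      (φ (γ (Z.T (u a n) x)) - φ (Z.T (u a n) x)) *
        (pr Z u J f n x * (1 - ((∏ c ∈ J, wr c (Z.T (u c n) x) : ℝ) : ℂ))) +
      (φ (γ (Z.T (u a n) x)) - φ (Z.T (u a n) x)) *
        (pr Z u J f n x * ((∏ c ∈ J, wr c (Z.T (u c n) x) : ℝ) : ℂ)) := by
    funext x; ring
  simp only [← hJ, w3]
  rw [s6]
  linarith

end Pool.Agent.Lib.MP_1db5af_an.Th
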