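import Pool.Agent.Lib.MP_1db5af_an.Th.XEigA

set_option autoImplicit false

namespace Pool.Agent.Lib.MP_1db5af_an.Th

open MeasureTheory Filter Topology ComplexConjugate InnerProductSpace

variable {X : Type*} {W : MeasurableSpace X} [m0 : MeasurableSpace X] {μ : Measure X}
  [IsProbabilityMeasure μ] {C D : ℝ} {w : X → ℂ} {A : Set X}

/-- The indicator function of a set. -/
noncomputable def ind (A : Set X) : X → ℂ := A.indicator fun _ => 1

omit [IsProbabilityMeasure μ] in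
theorem ind_bd (hA : MeasurableSet A) : Bd μ 1 (ind A) := by
  simpa [ind] using tw_bd_ind (μ := μ) hA 1

omit [IsProbabilityMeasure μ] in
theorem ind_aesm (hA : MeasurableSet[W] A) : AEStronglyMeasurable[W] (ind A) μ :=
  (stronglyMeasurable_const.indicator hA).aestronglyMeasurable

omit m0 in
theorem ind_mem {x : X} (h : x ∈ A) : ind A x = 1 := Set.indicator_of_mem h _

omit m0 in
theorem ind_not {x : X} (h : x ∉ A) : ind A x = 0 := Set.indicator_of_notMem h _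

omit [IsProbabilityMeasure μ] in
theorem eigb_pull (hw : Bd μ C w) (hm : AEStronglyMeasurable[W] w μ) {F : X → ℂ}
    (hF : Integrable F μ) : μ[fun x => w x * F x | W] =ᵐ[μ] fun x => w x * (μ[F | W]) x :=
  condExp_bilin_of_aestronglyMeasurable_left (ContinuousLinearMap.mul ℝ ℂ) hm
    (hF.bdd_mul hw.1 hw.2) hF

/-- The conditional square norm. -/
noncomputable def pp (W : MeasurableSpace X) {m0 : MeasurableSpace X} (μ : Measure X)
    (v : Lp ℂ 2 μ) : X → ℝ := μ[fun x => ‖v x‖ ^ 2 | W]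

omit [IsProbabilityMeasure μ] in
theorem pp_int (v : Lp ℂ 2 μ) : Integrable (fun x => ‖v x‖ ^ 2) μ :=
  (Lp.memLp v).norm.integrable_sq

omit [IsProbabilityMeasure μ] in
theorem pp_nonneg (v : Lp ℂ 2 μ) : ∀ᵐ x ∂μ, 0 ≤ pp W μ v x :=
  condExp_nonneg (Eventually.of_forall fun _ => sq_nonneg _)

omit [IsProbabilityMeasure μ] in
theorem pp_meas (v : Lp ℂ 2 μ) : Measurable[W] (pp W μ v) :=
  stronglyMeasurable_condExp.measurable

omit [IsProbabilityMeasure μ] in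
theorem pp_coe (v : Lp ℂ 2 μ) :
    μ[fun x => v x * conj (v x) | W] =ᵐ[μ] fun x => ((pp W μ v x : ℝ) : ℂ) := by
  have h1 := Complex.ofRealCLM.comp_condExp_comm (m := W) (pp_int v)
  have e : (fun x => v x * conj (v x)) = Complex.ofRealCLM ∘ fun x => ‖v x‖ ^ 2 := by
    funext x
    simp [Complex.mul_conj']
  rw [e]
  exact h1.symm

theorem pp_ind (hW : W ≤ m0) (hA : MeasurableSet[W] A) (v : Lp ℂ 2 μ) :
    ‖mulOp μ (ind A) v‖ ^ 2 = ∫ x in A, pp W μ v x ∂μ := by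
  rw [pp, setIntegral_condExp hW (pp_int v) hA, ← L2_Lp (mulOp μ (ind A) v),
    norm_L2_sq (Lp.memLp _), ← integral_indicator (hW A hA)]
  refine integral_congr_ae ?_
  filter_upwards [mulOp_coe (ind_bd (hW A hA)) v] with x hx
  rw [hx]
  by_cases h : x ∈ A <;> simp [ind, h]

theorem pp_ind_zero (hW : W ≤ m0) (hA : MeasurableSet[W] A) (v : Lp ℂ 2 μ) :
    mulOp μ (ind A) v = 0 ↔ ∀ᵐ x ∂μ, x ∈ A → pp W μ v x = 0 := by
  rw [← norm_eq_zero, ← pow_eq_zero_iff two_ne_zero, pp_ind hW hA,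
    setIntegral_eq_zero_iff_of_nonneg_ae (ae_restrict_of_ae (pp_nonneg v))
      integrable_condExp.integrableOn]
  exact ae_restrict_iff' (hW A hA)

omit [IsProbabilityMeasure μ] in
theorem eigb_split (hA : MeasurableSet A) (v : Lp ℂ 2 μ) :
    mulOp μ (ind A) v + mulOp μ (ind Aᶜ) v = v := by
  refine Lp.ext ?_
  filter_upwards [Lp.coeFn_add (mulOp μ (ind A) v) (mulOp μ (ind Aᶜ) v),
    mulOp_coe (ind_bd hA) v, mulOp_coe (ind_bd hA.compl) v] with x h1 h2 h3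
  rw [h1, Pi.add_apply, h2, h3]
  by_cases h : x ∈ A <;> simp [ind, h]

omit [IsProbabilityMeasure μ] in
theorem eigb_idem (hA : MeasurableSet A) (v : Lp ℂ 2 μ) :
    mulOp μ (ind A) (mulOp μ (ind A) v) = mulOp μ (ind A) v := by
  rw [mulOp_mul (ind_bd hA) (ind_bd hA)]
  congr 2
  funext x
  by_cases h : x ∈ A <;> simp [ind, h]

theorem eigb_cond_zero (hW : W ≤ m0) {F : X → ℂ} (hF : Integrable F μ)
    (h : ∀ s, MeasurableSet[W] s → ∫ x, ind s x * F x ∂μ = 0) : μ[F | W] =ᵐ[μ] 0 := by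
  refine (ae_eq_condExp_of_forall_setIntegral_eq hW hF
    (fun s _ _ => (integrable_zero _ _ _).integrableOn) (fun s hs _ => ?_)
    stronglyMeasurable_zero.aestronglyMeasurable).symm
  rw [← integral_indicator (hW s hs), ← integral_indicator (hW s hs), Set.indicator_zero',
    Pi.zero_def, integral_zero, ← h s hs]
  congr 1
  funext x
  by_cases hx : x ∈ s <;> simp [ind, hx]

omit [IsProbabilityMeasure μ] in
theorem eigb_normalize {δ : ℝ} (hδ : 0 < δ) (hW : W ≤ m0) (hA : MeasurableSet[W] A)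
    (v : Lp ℂ 2 μ) (h : ∀ x ∈ A, δ ≤ pp W μ v x) :
    ∃ (w : X → ℂ) (C : ℝ), Bd μ C w ∧ AEStronglyMeasurable[W] w μ ∧
      μ[fun x => mulOp μ w v x * conj (mulOp μ w v x) | W] =ᵐ[μ] ind A := by
  set w : X → ℂ := A.indicator fun x => (((√(pp W μ v x))⁻¹ : ℝ) : ℂ) with hw
  have h1 : StronglyMeasurable[W] w :=
    (Complex.measurable_ofReal.comp (pp_meas v).sqrt.inv).stronglyMeasurable.indicator hA
  have h2 : Bd μ (√δ)⁻¹ w := by
    refine ⟨(h1.mono hW).aestronglyMeasurable, Eventually.of_forall fun x => ?_⟩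
    by_cases hx : x ∈ A
    · rw [hw, Set.indicator_of_mem hx, Complex.norm_real, Real.norm_of_nonneg (by positivity)]
      exact inv_anti₀ (Real.sqrt_pos.2 hδ) (Real.sqrt_le_sqrt (h x hx))
    · rw [hw, Set.indicator_of_notMem hx, norm_zero]
      positivity
  refine ⟨w, _, h2, h1.aestronglyMeasurable, ?_⟩
  have h3 : (fun x => mulOp μ w v x * conj (mulOp μ w v x)) =ᵐ[μ]
      fun x => (w x * conj (w x)) * (v x * conj (v x)) := by
    filter_upwards [mulOp_coe h2 v] with x hx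
    rw [hx, map_mul]
    ring
  refine (condExp_congr_ae h3).trans ((eigb_pull (h2.mul h2.star)
    (h1.aestronglyMeasurable.mul (tw_aesm_conj h1.aestronglyMeasurable)) (eiga_int v v)).trans ?_)
  filter_upwards [pp_coe (W := W) v] with x hx
  rw [hx]
  by_cases hxA : x ∈ A
  · have h4 : 0 < pp W μ v x := hδ.trans_le (h x hxA)
    rw [ind_mem hxA, hw, Set.indicator_of_mem hxA, Complex.conj_ofReal]
    norm_cast
    rw [← mul_inv, Real.mul_self_sqrt h4.le, inv_mul_cancel₀ h4.ne']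
  · rw [ind_not hxA, hw, Set.indicator_of_notMem hxA]
    simp

omit [IsProbabilityMeasure μ] in
theorem eigb_level {f : X → ℝ} {p : X → Prop} (h0 : ∀ᵐ x ∂μ, 0 ≤ f x)
    (h : ¬∀ᵐ x ∂μ, p x → f x = 0) : ∃ δ : ℝ, 0 < δ ∧ μ {x | p x ∧ δ ≤ f x} ≠ 0 := by
  by_contra hc
  push Not at hc
  refine h ?_
  have h1 : ∀ n : ℕ, ∀ᵐ x ∂μ, ¬(p x ∧ 1 / ((n : ℝ) + 1) ≤ f x) := fun n =>
    measure_eq_zero_iff_ae_notMem.1 (hc _ Nat.one_div_pos_of_nat)
  filter_upwards [ae_all_iff.2 h1, h0] with x hx h2 hp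
  by_contra h3
  obtain ⟨n, hn⟩ := exists_nat_one_div_lt (lt_of_le_of_ne h2 (Ne.symm h3))
  exact hx n ⟨hp, hn.le⟩

/-- `V` contains `r` vectors that are orthonormal over `W` on a set of positive measure. -/
def Rk (W : MeasurableSpace X) {m0 : MeasurableSpace X} (μ : Measure X)
    (V : Submodule ℂ (Lp ℂ 2 μ)) (r : ℕ) : Prop :=
  ∃ (A : Set X) (φ : Fin r → Lp ℂ 2 μ), MeasurableSet[W] A ∧ μ A ≠ 0 ∧ (∀ i, φ i ∈ V) ∧
    ∀ i j, μ[fun x => φ i x * conj (φ j x) | W] =ᵐ[μ] if i = j then ind A else 0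

theorem eigb_sub (hW : W ≤ m0) (hA : MeasurableSet[W] A) (h0 : μ A ≠ 0)
    {V : Submodule ℂ (Lp ℂ 2 μ)} (hV : ∀ v ∈ V, mulOp μ (ind A) v = v) {r : ℕ} (h : Rk W μ V r) :
    ∃ (A' : Set X) (φ : Fin r → Lp ℂ 2 μ), A' ⊆ A ∧ MeasurableSet[W] A' ∧ μ A' ≠ 0 ∧
      (∀ i, φ i ∈ V) ∧
      ∀ i j, μ[fun x => φ i x * conj (φ j x) | W] =ᵐ[μ] if i = j then ind A' else 0 := by
  obtain ⟨A', φ, h1, h2, h3, h4⟩ := h
  cases r with
  | zero => exact ⟨A, φ, subset_rfl, hA, h0, h3, fun i => i.elim0⟩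
  | succ r =>
    have k1 : mulOp μ (ind Aᶜ) (φ 0) = 0 := by
      have := eigb_split (hW A hA) (φ 0)
      rwa [hV _ (h3 0), add_eq_left] at this
    have k2 := (pp_ind_zero hW hA.compl _).1 k1
    have k3 : ∀ᵐ x ∂μ, x ∈ A' → x ∈ A := by
      have k4 := h4 0 0
      rw [if_pos rfl] at k4
      filter_upwards [k2, k4, pp_coe (W := W) (φ 0)] with x e1 e2 e3 hx
      by_contra hn
      rw [e3, e1 hn, ind_mem hx] at e2
      simp at e2
    have k5 : (A' ∩ A : Set X) =ᵐ[μ] A' := by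
      filter_upwards [k3] with x hx
      exact propext ⟨fun h => h.1, fun h => ⟨h, hx h⟩⟩
    refine ⟨A' ∩ A, φ, Set.inter_subset_right, h1.inter hA, by rwa [measure_congr k5], h3,
      fun i j => (h4 i j).trans ?_⟩
    split_ifs
    · exact (indicator_ae_eq_of_ae_eq_set k5).symm
    · rfl

/-- Closed subspaces that are invariant under a family of operators. -/
def Inv {H : Type*} [NormedAddCommGroup H] [NormedSpace ℂ H] (G : Set (H →L[ℂ] H))
    (V : Submodule ℂ H) : Prop :=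
  IsClosed (V : Set H) ∧ ∀ T ∈ G, ∀ v ∈ V, T v ∈ V

theorem eigb_key (hW : W ≤ m0) {G : Set (Lp ℂ 2 μ →L[ℂ] Lp ℂ 2 μ)}
    (hG : ∀ w C, Bd μ C w → AEStronglyMeasurable[W] w μ → mulOp μ w ∈ G)
    (hc : ∀ T ∈ G, ∀ T' ∈ G, Commute T T') {V V1 V2 : Submodule ℂ (Lp ℂ 2 μ)} {s : ℕ}
    (hmin : ∀ V' ≤ V, Inv G V' → V' ≠ ⊥ → Rk W μ V' s) (hV : ¬Rk W μ V (s + 1))
    (h1 : Inv G V1) (h2 : Inv G V2) (l1 : V1 ≤ V) (l2 : V2 ≤ V)
    (ho : ∀ x ∈ V1, ∀ y ∈ V2, ⟪y, x⟫_ℂ = 0) {v1 v2 : Lp ℂ 2 μ} (m1 : v1 ∈ V1) (m2 : v2 ∈ V2) :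
    ∀ᵐ x ∂μ, pp W μ v1 x ≠ 0 → pp W μ v2 x = 0 := by
  by_contra hn
  obtain ⟨δ, hδ, hA0⟩ := eigb_level (pp_nonneg (W := W) v2) hn
  set A := {x | pp W μ v1 x ≠ 0 ∧ δ ≤ pp W μ v2 x} with hAd
  have hA : MeasurableSet[W] A :=
    ((pp_meas v1) (measurableSet_singleton 0).compl).inter ((pp_meas v2) measurableSet_Ici)
  have hAG := hG _ _ (ind_bd (hW A hA)) (ind_aesm hA)
  let V' : Submodule ℂ (Lp ℂ 2 μ) :=
    V1 ⊓ LinearMap.eqLocus (mulOp μ (ind A)).toLinearMap LinearMap.id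
  have hV' : ∀ v, v ∈ V' ↔ v ∈ V1 ∧ mulOp μ (ind A) v = v := fun v => Iff.rfl
  have k1 : Inv G V' := by
    refine ⟨h1.1.inter (isClosed_eq (mulOp μ (ind A)).continuous continuous_id),
      fun T hT v hv => (hV' _).2 ⟨h1.2 T hT v ((hV' v).1 hv).1, ?_⟩⟩
    rw [← mul_apply_eq_comp, (hc _ hAG T hT).eq, mul_apply_eq_comp, ((hV' v).1 hv).2]
  have k2 : V' ≠ ⊥ := by
    intro e
    have k3 : mulOp μ (ind A) v1 ∈ V' := (hV' _).2 ⟨h1.2 _ hAG _ m1, eigb_idem (hW A hA) _⟩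
    rw [e, Submodule.mem_bot, pp_ind_zero hW hA] at k3
    refine hA0 (measure_eq_zero_iff_ae_notMem.2 ?_)
    filter_upwards [k3] with x hx hxA
    exact hxA.1 (hx hxA)
  obtain ⟨A', φ, a1, a2, a3, a4, a5⟩ := eigb_sub hW hA hA0 (fun v hv => ((hV' v).1 hv).2)
    (hmin V' (inf_le_left.trans l1) k1 k2)
  obtain ⟨w, C, b1, b2, b3⟩ := eigb_normalize hδ hW a2 v2 fun x hx => (a1 hx).2
  have b4 : mulOp μ w v2 ∈ V2 := h2.2 _ (hG _ _ b1 b2) _ m2
  have b5 : ∀ i, μ[fun x => φ i x * conj (mulOp μ w v2 x) | W] =ᵐ[μ] 0 := fun i =>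
    eigb_cond_zero hW (eiga_int _ _) fun t ht => by
      rw [← mulOp_inner (ind_bd (hW t ht))]
      exact ho _ (h1.2 _ (hG _ _ (ind_bd (hW t ht)) (ind_aesm ht)) _ ((hV' _).1 (a4 i)).1) _ b4
  have b6 : ∀ i, μ[fun x => mulOp μ w v2 x * conj (φ i x) | W] =ᵐ[μ] 0 := fun i =>
    eigb_cond_zero hW (eiga_int _ _) fun t ht => by
      rw [← mulOp_inner (ind_bd (hW t ht)), ← inner_conj_symm,
        ho _ ((hV' _).1 (a4 i)).1 _ (h2.2 _ (hG _ _ (ind_bd (hW t ht)) (ind_aesm ht)) _ b4),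
        map_zero]
  refine hV ⟨A', Fin.cons (mulOp μ w v2) φ, a2, a3, fun i => ?_, fun i j => ?_⟩
  · refine Fin.cases (l2 b4) (fun i => l1 ((hV' _).1 (a4 i)).1) i
  · refine Fin.cases ?_ (fun i => ?_) i <;> refine Fin.cases ?_ (fun j => ?_) j
    · simpa using b3
    · simpa [(Fin.succ_ne_zero j).symm] using b6 j
    · simpa using b5 i
    · simpa using a5 i j

end Pool.Agent.Lib.MP_1db5af_an.Th
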