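import Pool.Agent.Lib.MP_1db5af_an.Th.ADefs
import Pool.Agent.Lib.MP_1db5af_an.Th.XEigB

set_option autoImplicit false

namespace Pool.Agent.Lib.MP_1db5af_an.Th

open MeasureTheory ProbabilityTheory Filter Topology ComplexConjugate Finset
open scoped ENNReal NNReal InnerProductSpace

variable {Z : CS} {ι : Type}

/-- The mean size of a conditional expectation. -/
noncomputable def n1 (W : Fc Z) (F : Z.X → ℂ) : ℝ := ∫ x, ‖W.E F x‖ ∂Z.μ

/-- The weights `ρ n` annihilate the shifts of `F` over `W` on average. -/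
def Kil (W : Fc Z) (ρ : ℕ → Z.X → ℂ) (k : ℕ → ℤ) (F : Z.X → ℂ) : Prop :=
  Nul fun n => n1 W fun x => F (Z.T (k n) x) * ρ n x

/-- Square integrable classes that are measurable for `M`. -/
noncomputable def LM (M : Fc Z) : Submodule ℂ (Lp ℂ 2 Z.μ) := lpMeas ℂ ℂ M.m 2 Z.μ

/-- Conditional expectation as an operator. -/
noncomputable def EL (M : Fc Z) : Lp ℂ 2 Z.μ →L[ℂ] Lp ℂ 2 Z.μ :=
  (lpMeas ℂ ℂ M.m 2 Z.μ).subtypeL ∘L condExpL2 ℂ ℂ M.le

/-- Functions that are negligible in the slot `a`. -/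
def NN [Fintype ι] [DecidableEq ι] (u : ι → ℕ → ℤ) (W M : Fc Z) (a : ι) (F : Z.X → ℂ) : Prop :=
  AEStronglyMeasurable[M.m] F Z.μ ∧ ∀ f : ι → Z.X → ℂ, (∀ b, BM M (f b)) →
    Kil W (pr Z u (univ.erase a) f) (u a) F

/-- The orthogonal complement of the negligible functions. -/
noncomputable def HH [Fintype ι] [DecidableEq ι] (u : ι → ℕ → ℤ) (W M : Fc Z) (a : ι) :
    Submodule ℂ (Lp ℂ 2 Z.μ) :=
  LM M ⊓ (Submodule.span ℂ {v : Lp ℂ 2 Z.μ | NN u W M a v})ᗮ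

/-- The operator that sends `v` to the conditional expectation of `k * (v ∘ g)`. -/
noncomputable def Uop (M : Fc Z) {g : Z.X → Z.X} (hg : Hom Z Z g) (k : Z.X → ℂ) :
    Lp ℂ 2 Z.μ →L[ℂ] Lp ℂ 2 Z.μ :=
  EL M ∘L mulOp Z.μ k ∘L (Kp hg.mp).toContinuousLinearMap

/-- Unimodular eigenfunctions of `g` with a multiplier that is measurable for `O`. -/
def EE (M O : Fc Z) (g : Z.X → Z.X) (φ : Z.X → ℂ) : Prop :=
  BM M φ ∧ (∀ᵐ y ∂Z.μ, ‖φ y‖ = 1) ∧
    ∃ χ, BM O χ ∧ (fun y => φ (g y)) =ᵐ[Z.μ] fun y => χ y * φ y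

/-- The closed span of the eigenfunctions over `W`. -/
noncomputable def ES (W M O : Fc Z) (g : Z.X → Z.X) : Submodule ℂ (Lp ℂ 2 Z.μ) :=
  (Submodule.span ℂ {v : Lp ℂ 2 Z.μ | ∃ w φ, BM W w ∧ EE M O g φ ∧
    v = L2 Z.μ fun y => w y * φ y}).topologicalClosure

end Pool.Agent.Lib.MP_1db5af_an.Th
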