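import Pool.Agent.Lib.MP_1db5af_an.Th.XU

set_option autoImplicit false

namespace Pool.Agent.Lib.MP_1db5af_an.Th

open MeasureTheory ProbabilityTheory Filter Topology ComplexConjugate Finset
open scoped ENNReal NNReal InnerProductSpace

variable {Z : CS} {W M Og Oh : Fc Z} {g g' h h' sw pm : Z.X → Z.X}
  {φ ψ k w : Z.X → ℂ}

theorem EE.one : EE M Og g fun _ => 1 :=
  ⟨bm_const 1, Eventually.of_forall fun _ => norm_one, fun _ => 1, bm_const 1,
    Eventually.of_forall fun _ => (one_mul _).symm⟩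

theorem EE.congr (hg : Hom Z Z g) (h1 : EE M Og g φ) (e : φ =ᵐ[Z.μ] ψ) : EE M Og g ψ := by
  obtain ⟨a1, a2, χ, a3, a4⟩ := h1
  refine ⟨a1.congr e, ?_, χ, a3, ?_⟩
  · filter_upwards [a2, e] with y b1 b2 using b2 ▸ b1
  · filter_upwards [a4, e, ae_pb hg e] with y b1 b2 b3
    rw [← b3, b1, b2]

theorem EE.mul (h1 : EE M Og g φ) (h2 : EE M Og g ψ) : EE M Og g fun y => φ y * ψ y := by
  obtain ⟨a1, a2, χ, a3, a4⟩ := h1
  obtain ⟨b1, b2, χ', b3, b4⟩ := h2
  refine ⟨a1.mul b1, ?_, _, a3.mul b3, ?_⟩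
  · filter_upwards [a2, b2] with y c1 c2
    rw [norm_mul, c1, c2, one_mul]
  · filter_upwards [a4, b4] with y c1 c2
    rw [c1, c2]
    ring

theorem EE.star (h1 : EE M Og g φ) : EE M Og g fun y => conj (φ y) := by
  obtain ⟨a1, a2, χ, a3, a4⟩ := h1
  refine ⟨a1.star, ?_, _, a3.star, ?_⟩
  · filter_upwards [a2] with y c1
    rw [Complex.norm_conj, c1]
  · filter_upwards [a4] with y c1
    rw [c1, map_mul]

theorem EE.shift (hg : Hom Z Z g) (h1 : EE M Og g φ) (l : ℤ) :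
    EE M Og g fun y => φ (Z.T l y) := by
  obtain ⟨a1, a2, χ, a3, a4⟩ := h1
  exact ⟨a1.shift l, (Z.sys.mp l).quasiMeasurePreserving.ae a2, _, a3.shift l,
    (hg.shift φ l).symm.trans ((Z.sys.mp l).quasiMeasurePreserving.ae a4)⟩

/-- `E_W φ = E_M(φ o g) = φ E_M χ = φ E_W χ`; on `B = {E_W φ ≠ 0}` the function `φ 1_B` is
measurable for `W`, so it is its own conditional expectation. -/
theorem EE.unit (hC : Cube W M Og Oh g g' h h' sw pm) (h1 : EE M Og g φ) :
    ∀ᵐ y ∂Z.μ, W.E φ y = 0 ∨ W.E φ y = φ y := by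
  obtain ⟨a1, -, χ, a3, a4⟩ := h1
  have e1 : W.E φ =ᵐ[Z.μ] fun y => φ y * W.E χ y := by
    filter_upwards [hC.mix φ a1, E_congr (W := M) (a4.trans
      (Eventually.of_forall fun y => mul_comm (χ y) (φ y))), E_mul a1 a3.top,
      hC.E_M (a3.mono le_sup_left)] with y b1 b2 b3 b4
    rw [← b1, b2, b3, b4]
  have m1 : Measurable[W.m] (W.E φ) := stronglyMeasurable_condExp.measurable
  have m2 : Measurable[W.m] (W.E χ) := stronglyMeasurable_condExp.measurable
  have hB : MeasurableSet[W.m] {y | W.E χ y = 0}ᶜ := (m2 (measurableSet_singleton 0)).compl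
  have hi : BM W (ind {y | W.E χ y = 0}ᶜ) := bm_ind hB
  have e2 : BM W fun y => ind {y | W.E χ y = 0}ᶜ y * φ y := by
    refine ⟨(hi.top.mul a1.top).1, (m1.mul m2.inv).stronglyMeasurable.aestronglyMeasurable.congr ?_⟩
    filter_upwards [e1] with y hy
    by_cases h0 : W.E χ y = 0
    · rw [ind_not (by simpa using h0), zero_mul]
      simp [h0]
    · rw [ind_mem (by simpa using h0), one_mul]
      simp [hy, h0]
  filter_upwards [e1, e2.E_self, E_mul hi a1.top] with y b1 b2 b3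
  by_cases h0 : W.E χ y = 0
  · exact Or.inl (by rw [b1, h0, mul_zero])
  · rw [b2, ind_mem (by simpa using h0), one_mul, one_mul] at b3
    exact Or.inr b3.symm

/-- `w' = w E_W(k χ)`. -/
theorem EE.uop (hC : Cube W M Og Oh g g' h h' sw pm) (h1 : EE M Og g φ) (hw : BM W w)
    (hk : BM Og k) : ∃ w', BM W w' ∧
      Uop M hC.ag.hom k (L2 Z.μ fun y => w y * φ y) = L2 Z.μ fun y => w' y * φ y := by
  obtain ⟨a1, -, χ, a3, a4⟩ := h1
  have b1 := (hw.mono hC.leM).mul a1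
  refine ⟨_, hw.mul ((hk.mul a3).E W), (uop_eq _ hk _).trans (L2_congr ?_)⟩
  have e1 : (fun y => k y * (L2 Z.μ fun y => w y * φ y) (g y)) =ᵐ[Z.μ]
      fun y => w y * φ y * (k y * χ y) := by
    filter_upwards [ae_pb hC.ag.hom (L2_coe b1.memLp), a4,
      hC.ag.fix w (hw.mono (hC.leg.trans le_sup_left))] with y c1 c2 c3
    rw [c1, c2, c3]
    ring
  filter_upwards [E_congr (W := M) e1, E_mul b1 (hk.mul a3).top,
    hC.E_M ((hk.mul a3).mono le_sup_left)] with y c1 c2 c3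
  rw [c1, c2, c3]
  ring

theorem xee_sq (D : Fc Z) {F : Z.X → ℂ} (hF : MemLp F 2 Z.μ) :
    D.E (fun x => F x * conj (F x)) =ᵐ[Z.μ]
      fun x => (((Z.μ[fun x => ‖F x‖ ^ 2 | D.m]) x : ℝ) : ℂ) := by
  have h1 := Complex.ofRealCLM.comp_condExp_comm (m := D.m) hF.norm.integrable_sq
  have e : (fun x => F x * conj (F x)) = Complex.ofRealCLM ∘ fun x => ‖F x‖ ^ 2 := by
    funext x
    simp [Complex.mul_conj']
  rw [e]
  exact h1.symm

theorem xee_int {F G : Z.X → ℂ} (hF : MemLp F 2 Z.μ) (hG : MemLp G 2 Z.μ) :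
    Integrable (fun x => F x * conj (G x)) Z.μ :=
  MemLp.integrable_mul hF (hG.star : MemLp (fun x => conj (G x)) 2 Z.μ)

theorem xee_bm (D : Fc Z) {F G : Z.X → ℂ} (hF : MemLp F 2 Z.μ) (hG : MemLp G 2 Z.μ)
    {A : Set Z.X} (h1 : D.E (fun x => F x * conj (F x)) =ᵐ[Z.μ] ind A)
    (h2 : D.E (fun x => G x * conj (G x)) =ᵐ[Z.μ] ind A) :
    BM D (D.E fun x => F x * conj (G x)) := by
  refine ⟨⟨2, integrable_condExp.aestronglyMeasurable, ?_⟩,
    stronglyMeasurable_condExp.aestronglyMeasurable⟩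
  have i1 := hF.norm.integrable_sq
  have i2 := hG.norm.integrable_sq
  have a1 : Z.μ[fun x => ‖F x * conj (G x)‖ | D.m] ≤ᵐ[Z.μ]
      Z.μ[(fun x => ‖F x‖ ^ 2) + fun x => ‖G x‖ ^ 2 | D.m] :=
    condExp_mono (xee_int hF hG).norm (i1.add i2) (Eventually.of_forall fun x => by
      simp only [norm_mul, Complex.norm_conj, Pi.add_apply]
      nlinarith [norm_nonneg (F x), norm_nonneg (G x), sq_nonneg (‖F x‖ - ‖G x‖)])
  filter_upwards [norm_condExp_le (m := D.m) (μ := Z.μ) (f := fun x => F x * conj (G x)), a1,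
    condExp_add i1 i2 D.m, h1, h2, xee_sq D hF, xee_sq D hG] with x b1 b2 b3 b4 b5 b6 b7
  have c1 : (ind A x).re ≤ 1 := by by_cases hx : x ∈ A <;> simp [ind, hx]
  have c2 := congrArg Complex.re (b6.symm.trans b4)
  have c3 := congrArg Complex.re (b7.symm.trans b5)
  rw [Complex.ofReal_re] at c2 c3
  rw [b3, Pi.add_apply] at b2
  linarith

/-- `χ = E_Og(v o g * conj v)`, `|χ| <= (E_Og |v o g|^2 + E_Og |v|^2) / 2 = 1_A` (`E_g`,
`cond_fix`). For `k` in `BM Og`, `m` in `BM M`: `int k m v o g = int b_k E_W(v m)` and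
`int k m χ v = int E_W(k χ) E_W(v m)` with `E_W(k χ) = E_W(U_k v conj v) = b_k 1_A`, `v = 1_A v`.
So `v o g = χ v` (`ae_zero_of_prod`). Norms: `|χ| = 1` where `v ≠ 0`, so `|v|^2 o g = |v|^2`,
and `mix_L1` gives `|v|^2 = 1_A`. Take `φ = v + 1_(A^c)`, multiplier `χ + 1_(A^c)`. -/
theorem EE.of_eig (hC : Cube W M Og Oh g g' h h' sw pm) {v : Lp ℂ 2 Z.μ} (hv : v ∈ LM M)
    {A : Set Z.X} (hA : MeasurableSet[W.m] A) (h1 : W.E (fun x => v x * conj (v x)) =ᵐ[Z.μ] ind A)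
    (h2 : ∀ k, BM Og k → ∃ (b : Z.X → ℂ) (C : ℝ), Bd Z.μ C b ∧
      AEStronglyMeasurable[W.m] b Z.μ ∧ Uop M hC.ag.hom k v = mulOp Z.μ b v) :
    ∃ φ, EE M Og g φ ∧ v =ᵐ[Z.μ] fun y => ind A y * φ y := by
  have mv := mem_LM.1 hv
  have mv' : AEStronglyMeasurable[M.m] (fun x => conj (v x)) Z.μ :=
    Complex.continuous_conj.comp_aestronglyMeasurable mv
  have l1 := Lp.memLp v
  have l1' : MemLp (fun x => conj (v x)) 2 Z.μ := l1.star
  have l2 : MemLp (fun x => v (g x)) 2 Z.μ := l1.comp_measurePreserving hC.ag.hom.mp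
  have i1 := xee_int l1 l1
  have i2 := xee_int l2 l1
  have e1 : Og.E (fun x => v x * conj (v x)) =ᵐ[Z.μ] ind A := (hC.E_g i1 (mv.mul mv')).trans h1
  have e2 : Og.E (fun x => v (g x) * conj (v (g x))) =ᵐ[Z.μ] ind A :=
    (hC.ag.cond_fix le_sup_left i1).trans e1
  have hχ := xee_bm Og l2 l1 e2 e1
  set χ := Og.E fun x => v (g x) * conj (v x) with hχ'
  obtain ⟨Cχ, bχ⟩ := hχ.1
  have hi : BM W (ind A) := bm_ind hA
  have hi' : BM W (ind Aᶜ) := bm_ind hA.compl
  have e3 : ∀ᵐ x ∂Z.μ, x ∉ A → v x = 0 := by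
    have a1 := (pp_ind_zero W.le hA.compl v).2 (by
      filter_upwards [pp_coe (W := W.m) v, h1] with x b1 b2 hx
      rw [← Complex.ofReal_eq_zero, ← b1]
      exact b2.trans (ind_not hx))
    filter_upwards [mulOp_coe (ind_bd (W.le _ hA.compl)) v, Lp.coeFn_zero ℂ 2 Z.μ] with x b1 b2 hx
    rw [a1, b2, ind_mem (A := Aᶜ) hx, one_mul] at b1
    exact b1.symm
  have e4 : (fun x => v (g x) - χ x * v x) =ᵐ[Z.μ] 0 := by
    refine ae_zero_of_prod (A := M) (B := Og) (l2.sub (bχ.memLp_mul l1))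
      ((hC.ag.pres_ae (mv.mono le_sup_left)).sub
        ((hχ.2.mono le_sup_right).mul (mv.mono le_sup_left))) fun m k hm hk => ?_
    obtain ⟨b, C, b1, b2, b3⟩ := h2 k hk
    have hb : BM W b := ⟨⟨C, b1⟩, b2⟩
    obtain ⟨Ck, bk⟩ := hk.1
    obtain ⟨Cm, bm⟩ := hm.1
    have l3 := bk.memLp_mul l2
    have l4 := bm.memLp_mul l1
    have i3 := l3.integrable one_le_two
    have i4 := l4.integrable one_le_two
    have f1 : M.E (fun y => k y * v (g y)) =ᵐ[Z.μ] fun y => b y * v y :=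
      (uop_coe hC.ag.hom hk v).symm.trans (b3 ▸ mulOp_coe b1 v)
    have f2 : W.E (fun y => χ y * k y) =ᵐ[Z.μ] fun y => b y * ind A y := by
      refine (E_mid hC.leg i2 hk).trans (((E_E hC.leM).symm.trans
        (E_congr (g := fun y => b y * (v y * conj (v y))) ?_)).trans ?_)
      · filter_upwards [E_congr (W := M) (f := fun y => v (g y) * conj (v y) * k y)
          (g := fun y => conj (v y) * (k y * v (g y))) (Eventually.of_forall fun y => by ring),
          E_mul_L2 l1' mv' l3, f1] with y c1 c2 c3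
        rw [c1, c2, c3]
        ring
      · filter_upwards [E_mul_L1 hb i1, h1] with y c1 c2
        rw [c1, c2]
    have f3 : ∫ x, m x * (k x * v (g x)) ∂Z.μ = ∫ x, b x * (m x * v x) ∂Z.μ := by
      rw [← int_E (W := M)]
      refine integral_congr_ae ?_
      filter_upwards [E_mul_L1 hm i3, f1] with y c1 c2
      rw [c1, c2]
      ring
    have f4 : ∫ x, m x * v x * (χ x * k x) ∂Z.μ = ∫ x, b x * (m x * v x) ∂Z.μ := by
      have d1 : (fun x => b x * (m x * v x)) =ᵐ[Z.μ] fun x => b x * ind A x * (m x * v x) := by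
        filter_upwards [e3] with x hx
        by_cases hx' : x ∈ A
        · rw [ind_mem hx', mul_one]
        · simp [hx hx']
      rw [integral_congr_ae d1, ← int_E (W := W), ← int_E (W := W) (f := fun x => b x * _ * _)]
      refine integral_congr_ae ?_
      filter_upwards [hC.E2 i4 (hm.2.mul mv) ((hχ.mul hk).mono le_sup_left), f2,
        E_mul_L1 (hb.mul hi) i4] with y c1 c2 c3
      rw [c1, c2, c3]
      ring
    have f5 : ∫ x, m x * k x * (v (g x) - χ x * v x) ∂Z.μ =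
        ∫ x, m x * (k x * v (g x)) - m x * v x * (χ x * k x) ∂Z.μ :=
      integral_congr_ae (Eventually.of_forall fun y => by ring)
    rw [f5, integral_sub ((bm.memLp_mul l3).integrable one_le_two)
      (i4.mul_bdd (bχ.mul bk).1 (bχ.mul bk).2), f3, f4, sub_self]
  have e5 : (fun x => v (g x)) =ᵐ[Z.μ] fun x => χ x * v x := e4.mono fun x hx => sub_eq_zero.1 hx
  have e6 : (fun x => v (g x) * conj (v (g x))) =ᵐ[Z.μ]
      fun x => χ x * conj (χ x) * (v x * conj (v x)) := by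
    filter_upwards [e5] with x hx
    rw [hx, map_mul]
    ring
  have e7 : (fun x => v (g x) * conj (v (g x))) =ᵐ[Z.μ] fun x => v x * conj (v x) := by
    filter_upwards [e6, E_congr (W := Og) e6, E_mul_L1 (hχ.mul hχ.star) i1, e1, e2, e3]
      with x c1 c2 c3 c4 c5 c6
    by_cases hx : x ∈ A
    · rw [c5, c3, c4, ind_mem hx, mul_one] at c2
      rw [c1, ← c2, one_mul]
    · rw [c1, c6 hx]
      simp
  have e8 : (fun x => v x * conj (v x)) =ᵐ[Z.μ] ind A :=
    (condExp_of_aestronglyMeasurable' M.le (mv.mul mv') i1).symm.trans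
      ((E_congr e7).symm.trans ((hC.mix_L1 i1 (mv.mul mv')).trans h1))
  have e9 : ∀ᵐ x ∂Z.μ, ‖v x + ind Aᶜ x‖ = 1 := by
    filter_upwards [e8, e3] with x c1 c2
    by_cases hx : x ∈ A
    · rw [ind_mem hx, Complex.mul_conj'] at c1
      rw [ind_not (A := Aᶜ) (not_not.2 hx), add_zero]
      have c3 : ‖v x‖ ^ 2 = 1 := by exact_mod_cast c1
      exact (pow_eq_one_iff_of_nonneg (norm_nonneg _) two_ne_zero).1 c3
    · rw [c2 hx, ind_mem (A := Aᶜ) hx, zero_add, norm_one]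
  have m9 : AEStronglyMeasurable[M.m] (fun x => v x + ind Aᶜ x) Z.μ :=
    mv.add (hi'.mono hC.leM).2
  refine ⟨fun x => v x + ind Aᶜ x, ⟨⟨⟨1, m9.mono M.le, e9.mono fun _ hx => hx.le⟩, m9⟩, e9, _,
    ((hi.mono hC.leg).mul hχ).add (hi'.mono hC.leg), ?_⟩, ?_⟩
  · filter_upwards [e5, e3, hC.ag.fix _ (hi'.mono (hC.leg.trans le_sup_left))] with x c1 c2 c3
    rw [c1, c3]
    by_cases hx : x ∈ A
    · simp [ind, hx]
    · simp [ind, hx, c2 hx]
  · filter_upwards [e3] with x c2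
    by_cases hx : x ∈ A
    · simp [ind, hx]
    · simp [ind, hx, c2 hx]

end Pool.Agent.Lib.MP_1db5af_an.Th
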