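import Pool.Agent.Lib.MP_1db5af_an.Th.XEigB

set_option autoImplicit false

namespace Pool.Agent.Lib.MP_1db5af_an.Th

open MeasureTheory Filter Topology ComplexConjugate InnerProductSpace

variable {X : Type*} {W : MeasurableSpace X} [m0 : MeasurableSpace X] {μ : Measure X}
  [IsProbabilityMeasure μ] {C D : ℝ} {w : X → ℂ} {A : Set X}

omit [IsProbabilityMeasure μ] in
theorem eig_le (hW : W ≤ m0) {f : X → ℝ} (hf : Integrable f μ) (hm : Measurable[W] f)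
    (h : ∀ s, MeasurableSet[W] s → ∫ x in s, f x ∂μ ≤ 0) : ∀ᵐ x ∂μ, f x ≤ 0 := by
  have hs : MeasurableSet[W] {x | 0 < f x} := hm measurableSet_Ioi
  have h1 : 0 ≤ᵐ[μ.restrict {x | 0 < f x}] f :=
    (ae_restrict_iff' (hW _ hs)).2 (Eventually.of_forall fun x hx => le_of_lt hx)
  have h2 := (setIntegral_eq_zero_iff_of_nonneg_ae h1 hf.integrableOn).1
    (le_antisymm (h _ hs) (integral_nonneg_of_ae h1))
  filter_upwards [(ae_restrict_iff' (hW _ hs)).1 h2] with x hx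
  by_contra hn
  exact hn (hx (not_le.1 hn)).le

omit [IsProbabilityMeasure μ] in
theorem eig_re (hA : MeasurableSet A) {B : Lp ℂ 2 μ →L[ℂ] Lp ℂ 2 μ}
    (hB : Commute B (mulOp μ (ind A))) (φ : Lp ℂ 2 μ) :
    (⟪B (mulOp μ (ind A) φ), mulOp μ (ind A) φ⟫_ℂ).re =
      ∫ x in A, (φ x * conj (B φ x)).re ∂μ := by
  rw [← mul_apply_eq_comp, hB.eq, mul_apply_eq_comp, eiga_inner, ← integral_indicator hA]
  refine (integral_re (eiga_int _ _)).symm.trans (integral_congr_ae ?_)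
  filter_upwards [mulOp_coe (ind_bd hA) φ, mulOp_coe (ind_bd hA) (B φ)] with x h1 h2
  rw [h1, h2]
  by_cases h : x ∈ A <;> simp [ind, h]

theorem eig_half (hW : W ≤ m0) (hA : MeasurableSet[W] A) {B : Lp ℂ 2 μ →L[ℂ] Lp ℂ 2 μ}
    (hB : IsSelfAdjoint B) (hc : Commute B (mulOp μ (ind A))) (φ : Lp ℂ 2 μ)
    (h0 : (⟪B (mulOp μ (ind A) φ), mulOp μ (ind A) φ⟫_ℂ).re = 0)
    (h1 : ∀ᵐ x ∂μ, x ∈ A → pp W μ (posOp (-B) φ) x = 0) : B (mulOp μ (ind A) φ) = 0 := by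
  have k1 : posOp (-B) (mulOp μ (ind A) φ) = 0 := by
    rw [← mul_apply_eq_comp, (eiga_comm hc.neg_left).eq, mul_apply_eq_comp]
    exact (pp_ind_zero hW hA _).2 h1
  rw [eiga_sub hB, k1, sub_zero] at h0 ⊢
  exact eiga_zero (eiga_nonneg B) h0.le

theorem eig_sa (hW : W ≤ m0) {G : Set (Lp ℂ 2 μ →L[ℂ] Lp ℂ 2 μ)}
    (hG : ∀ w C, Bd μ C w → AEStronglyMeasurable[W] w μ → mulOp μ w ∈ G)
    (hc : ∀ T ∈ G, ∀ T' ∈ G, Commute T T') {V : Submodule ℂ (Lp ℂ 2 μ)} {s : ℕ}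
    (hmin : ∀ V' ≤ V, Inv G V' → V' ≠ ⊥ → Rk W μ V' s) (hV : ¬Rk W μ V (s + 1)) (hI : Inv G V)
    {B : Lp ℂ 2 μ →L[ℂ] Lp ℂ 2 μ} (hB : IsSelfAdjoint B) (hBc : ∀ T ∈ G, Commute B T)
    (hBV : ∀ v ∈ V, B v ∈ V) {φ : Lp ℂ 2 μ} (hφ : φ ∈ V) :
    ∃ b : X → ℂ, Bd μ ‖B‖ b ∧ AEStronglyMeasurable[W] b μ ∧ B φ = mulOp μ b φ := by
  have hi : ∀ s, MeasurableSet[W] s → mulOp μ (ind s) ∈ G := fun s hs =>
    hG _ _ (ind_bd (hW s hs)) (ind_aesm hs)
  have hρ : Integrable (fun x => (φ x * conj (B φ x)).re) μ := (eiga_int φ (B φ)).re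
  set q := μ[fun x => (φ x * conj (B φ x)).re | W] with hq
  have hqm : Measurable[W] q := stronglyMeasurable_condExp.measurable
  have hqi : Integrable q μ := integrable_condExp
  have hpi : Integrable (pp W μ φ) μ := integrable_condExp
  have k1 : ∀ s, MeasurableSet[W] s → |∫ x in s, q x ∂μ| ≤ ‖B‖ * ∫ x in s, pp W μ φ x ∂μ := by
    intro s hs
    rw [hq, setIntegral_condExp hW hρ hs, ← eig_re (hW s hs) (hBc _ (hi s hs)), ← pp_ind hW hs]
    refine (Complex.abs_re_le_norm _).trans ((norm_inner_le_norm _ _).trans ?_)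
    rw [sq, ← mul_assoc]
    exact mul_le_mul_of_nonneg_right (B.le_opNorm _) (norm_nonneg _)
  have k2 : ∀ᵐ x ∂μ, q x - ‖B‖ * pp W μ φ x ≤ 0 :=
    eig_le hW (hqi.sub (hpi.const_mul _)) (hqm.sub ((pp_meas φ).const_mul _)) fun s hs => by
      rw [integral_sub hqi.integrableOn (hpi.const_mul _).integrableOn, integral_const_mul]
      linarith [(abs_le.1 (k1 s hs)).2]
  have k3 : ∀ᵐ x ∂μ, -q x - ‖B‖ * pp W μ φ x ≤ 0 :=
    eig_le hW (hqi.neg.sub (hpi.const_mul _)) (hqm.neg.sub ((pp_meas φ).const_mul _))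
      fun s hs => by
        rw [integral_sub (f := fun x => -q x) hqi.neg.integrableOn (hpi.const_mul _).integrableOn,
          integral_const_mul, integral_neg]
        linarith [(abs_le.1 (k1 s hs)).1]
  set b : X → ℝ := fun x => q x / pp W μ φ x with hb
  have hbm : Measurable[W] b := hqm.div (pp_meas φ)
  have k4 : ∀ᵐ x ∂μ, |b x| ≤ ‖B‖ ∧ b x * pp W μ φ x = q x := by
    filter_upwards [k2, k3, pp_nonneg (W := W) φ] with x e1 e2 e3
    rcases e3.eq_or_lt with e4 | e4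
    · rw [← e4] at e1 e2
      have : q x = 0 := by linarith
      simp [hb, this]
    · refine ⟨?_, div_mul_cancel₀ _ e4.ne'⟩
      rw [hb, abs_div, abs_of_pos e4, div_le_iff₀ e4, abs_le]
      constructor <;> linarith
  have hbc : StronglyMeasurable[W] fun x => (b x : ℂ) :=
    (Complex.measurable_ofReal.comp hbm).stronglyMeasurable
  have hbd : Bd μ ‖B‖ fun x => (b x : ℂ) :=
    ⟨(hbc.mono hW).aestronglyMeasurable, k4.mono fun x hx => by
      rw [Complex.norm_real]; exact hx.1⟩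
  have hbG := hG _ _ hbd hbc.aestronglyMeasurable
  refine ⟨_, hbd, hbc.aestronglyMeasurable, ?_⟩
  set B' := B - mulOp μ fun x => (b x : ℂ) with hB'
  have s1 : IsSelfAdjoint B' := by
    refine hB.sub (ContinuousLinearMap.isSelfAdjoint_iff_isSymmetric.2 fun u v => ?_)
    have := mulOp_adj hbd u v
    simpa only [Complex.conj_ofReal, ContinuousLinearMap.coe_coe] using this
  have s2 : ∀ T ∈ G, Commute B' T := fun T hT => (hBc T hT).sub_left (hc _ hbG T hT)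
  have s3 : ∀ v ∈ V, B' v ∈ V := fun v hv => V.sub_mem (hBV v hv) (hI.2 _ hbG v hv)
  have s4 : ∀ s, MeasurableSet[W] s →
      (⟪B' (mulOp μ (ind s) φ), mulOp μ (ind s) φ⟫_ℂ).re = 0 := by
    intro s hs
    have i1 : Integrable (b * fun x => ‖φ x‖ ^ 2) μ :=
      (pp_int φ).bdd_mul (hbm.mono hW le_rfl).aestronglyMeasurable (k4.mono fun x hx => hx.1)
    have e1 : ∫ x in s, (φ x * conj ((mulOp μ (fun x => (b x : ℂ))) φ x)).re ∂μ =
        ∫ x in s, q x ∂μ := by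
      calc _ = ∫ x in s, (b * fun x => ‖φ x‖ ^ 2) x ∂μ := by
            refine integral_congr_ae (ae_restrict_of_ae ?_)
            filter_upwards [mulOp_coe hbd φ] with x hx
            rw [hx, map_mul, Complex.conj_ofReal, mul_left_comm, Complex.mul_conj']
            norm_cast
        _ = _ := by
            rw [← setIntegral_condExp hW i1 hs]
            refine integral_congr_ae (ae_restrict_of_ae ?_)
            filter_upwards [condExp_mul_of_stronglyMeasurable_left hbm.stronglyMeasurable i1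
              (pp_int φ), k4] with x e2 e3
            rw [e2]
            exact e3.2
    rw [hB', sub_apply, inner_sub_left, Complex.sub_re, eig_re (hW s hs) (hBc _ (hi s hs)),
      eig_re (hW s hs) (hc _ hbG _ (hi s hs)), e1, hq, setIntegral_condExp hW hρ hs, sub_self]
  have s5 := eigb_key hW hG hc hmin hV (V1 := posV (-B') V) (V2 := posV B' V)
    ⟨posV_closed _ _, fun T hT => posV_inv (s2 T hT).neg_left (hI.2 T hT)⟩
    ⟨posV_closed _ _, fun T hT => posV_inv (s2 T hT) (hI.2 T hT)⟩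
    (posV_le s1.neg hI.1 fun v hv => V.neg_mem (s3 v hv)) (posV_le s1 hI.1 s3)
    (fun x hx y hy => by rw [← inner_conj_symm, posV_orth B' hy hx, map_zero])
    (posV_mem _ hφ) (posV_mem _ hφ)
  set A := {x | pp W μ (posOp (-B') φ) x = 0} with hAd
  have hA : MeasurableSet[W] A := (pp_meas _) (measurableSet_singleton 0)
  have t1 := eig_half hW hA s1 (s2 _ (hi _ hA)) φ (s4 _ hA) (Eventually.of_forall fun x hx => hx)
  have t2 := eig_half hW hA.compl s1.neg (s2 _ (hi _ hA.compl)).neg_left φ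
    (by rw [neg_apply, inner_neg_left, Complex.neg_re, s4 _ hA.compl, neg_zero])
    (by rw [neg_neg]; exact s5)
  rw [neg_apply, neg_eq_zero] at t2
  have t3 : B' φ = 0 := by
    rw [← eigb_split (hW A hA) φ, map_add, t1, t2, add_zero]
  rwa [hB', sub_apply, sub_eq_zero] at t3

theorem eig_rk_one (hW : W ≤ m0) {V : Submodule ℂ (Lp ℂ 2 μ)}
    (hV : ∀ w C, Bd μ C w → AEStronglyMeasurable[W] w μ → ∀ v ∈ V, mulOp μ w v ∈ V)
    (hne : V ≠ ⊥) : Rk W μ V 1 := by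
  obtain ⟨v, hv, h0⟩ := Submodule.exists_mem_ne_zero_of_ne_bot hne
  have h1 : ¬∀ᵐ x ∂μ, x ∈ Set.univ → pp W μ v x = 0 := fun h => h0 <| by
    have h2 := (pp_ind_zero hW MeasurableSet.univ v).2 h
    have h3 := eigb_split (μ := μ) MeasurableSet.univ v
    have h4 := (pp_ind_zero hW MeasurableSet.univ.compl v).2
      (Eventually.of_forall fun x hx => (hx (Set.mem_univ x)).elim)
    rw [← h3, h2, h4, add_zero]
  obtain ⟨δ, hδ, hA0⟩ := eigb_level (pp_nonneg (W := W) v) h1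
  have hA : MeasurableSet[W] {x | x ∈ Set.univ ∧ δ ≤ pp W μ v x} :=
    MeasurableSet.univ.inter ((pp_meas v) measurableSet_Ici)
  obtain ⟨w, C, b1, b2, b3⟩ := eigb_normalize hδ hW hA v fun x hx => hx.2
  refine ⟨_, fun _ => mulOp μ w v, hA, hA0, fun _ => hV w C b1 b2 v hv, fun i j => ?_⟩
  rw [if_pos (Subsingleton.elim i j)]
  exact b3

theorem eig_main (hW : W ≤ m0) {G : Set (Lp ℂ 2 μ →L[ℂ] Lp ℂ 2 μ)}
    (hG : ∀ w C, Bd μ C w → AEStronglyMeasurable[W] w μ → mulOp μ w ∈ G)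
    (hc : ∀ T ∈ G, ∀ T' ∈ G, Commute T T') (hs : ∀ T ∈ G, star T ∈ G)
    {V1 : Submodule ℂ (Lp ℂ 2 μ)} (h1 : Inv G V1) (hne : V1 ≠ ⊥) {r : ℕ} (hr : ¬Rk W μ V1 r) :
    ∃ (φ : Lp ℂ 2 μ) (A : Set X), φ ∈ V1 ∧ MeasurableSet[W] A ∧ μ A ≠ 0 ∧
      μ[fun x => φ x * conj (φ x) | W] =ᵐ[μ] ind A ∧
      ∀ T ∈ G, ∃ (b : X → ℂ) (C : ℝ), Bd μ C b ∧ AEStronglyMeasurable[W] b μ ∧
        T φ = mulOp μ b φ := by
  classical
  have hex : ∃ r, ∃ V ≤ V1, Inv G V ∧ V ≠ ⊥ ∧ ¬Rk W μ V r := ⟨r, V1, le_rfl, h1, hne, hr⟩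
  obtain ⟨V, l1, hI, hV0, hV⟩ := Nat.find_spec hex
  have hpos : Nat.find hex ≠ 0 := fun e => hV <| by
    rw [e]
    exact ⟨Set.univ, Fin.elim0, MeasurableSet.univ, by simp, fun i => i.elim0, fun i => i.elim0⟩
  obtain ⟨s, hs1⟩ := Nat.exists_eq_succ_of_ne_zero hpos
  have hmin : ∀ V' ≤ V, Inv G V' → V' ≠ ⊥ → Rk W μ V' s := fun V' l2 k1 k2 => by
    by_contra k3
    exact Nat.find_min hex (by omega : s < Nat.find hex) ⟨V', l2.trans l1, k1, k2, k3⟩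
  rw [hs1] at hV
  obtain ⟨A, φ, a1, a2, a3, a4⟩ :=
    eig_rk_one hW (fun w C b1 b2 => hI.2 _ (hG w C b1 b2)) hV0
  refine ⟨φ 0, A, l1 (a3 0), a1, a2, by simpa using a4 0 0, fun T hT => ?_⟩
  have hT' := hs T hT
  obtain ⟨b1, c1, c2, c3⟩ := eig_sa hW hG hc hmin hV hI (B := T + star T)
    (IsSelfAdjoint.add_star_self T) (fun S hS => (hc T hT S hS).add_left (hc _ hT' S hS))
    (fun v hv => V.add_mem (hI.2 T hT v hv) (hI.2 _ hT' v hv)) (a3 0)
  obtain ⟨b2, d1, d2, d3⟩ := eig_sa hW hG hc hmin hV hI (B := Complex.I • (T - star T))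
    (by simp [IsSelfAdjoint, smul_sub, neg_add_eq_sub])
    (fun S hS => ((hc T hT S hS).sub_left (hc _ hT' S hS)).smul_left _)
    (fun v hv => V.smul_mem _ (V.sub_mem (hI.2 T hT v hv) (hI.2 _ hT' v hv))) (a3 0)
  have e1 := (Bd.const (μ := μ) (1 / 2 : ℂ)).mul (c1.sub ((Bd.const Complex.I).mul d1))
  refine ⟨_, _, e1, (c2.sub (d2.const_mul _)).const_mul _, ?_⟩
  have e2 : T (φ 0) = (1 / 2 : ℂ) • ((T + star T) (φ 0) -
      Complex.I • (Complex.I • (T - star T)) (φ 0)) := by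
    simp only [add_apply, smul_apply, sub_apply, smul_smul, Complex.I_mul_I]
    module
  rw [e2, c3, d3, mulOp_apply c1, mulOp_apply d1, mulOp_apply e1,
    ← L2_mul _ (d1.memLp_mul (Lp.memLp _)),
    ← L2_sub (c1.memLp_mul (Lp.memLp _)) ((d1.memLp_mul (Lp.memLp _)).const_mul _),
    ← L2_mul (φ := fun x => b1 x * φ 0 x - Complex.I * (b2 x * φ 0 x)) _
      ((c1.memLp_mul (Lp.memLp _)).sub ((d1.memLp_mul (Lp.memLp _)).const_mul _))]
  congr 1
  funext x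
  ring

/-- A joint eigenvector of a commuting family with the Bessel property. -/
theorem eig (hW : W ≤ m0) {V0 : Submodule ℂ (Lp ℂ 2 μ)} (hcl : IsClosed (V0 : Set (Lp ℂ 2 μ)))
    (hne : V0 ≠ ⊥)
    (hmul : ∀ w C, Bd μ C w → AEStronglyMeasurable[W] w μ → ∀ v ∈ V0, mulOp μ w v ∈ V0)
    {κ : Type*} (U : κ → Lp ℂ 2 μ →L[ℂ] Lp ℂ 2 μ) (hinv : ∀ k, ∀ v ∈ V0, U k v ∈ V0)
    (hstar : ∀ k, ∃ k', ∀ v ∈ V0, ∀ v' ∈ V0, ⟪U k v, v'⟫_ℂ = ⟪v, U k' v'⟫_ℂ)
    (hcomm : ∀ k k', ∀ v ∈ V0, U k (U k' v) = U k' (U k v))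
    (hlin : ∀ k w C, Bd μ C w → AEStronglyMeasurable[W] w μ → ∀ v ∈ V0,
      U k (mulOp μ w v) = mulOp μ w (U k v))
    (hker : ∀ v ∈ V0, (∀ k, U k v = 0) → v = 0)
    (hbes : ∀ k, ∃ C : ℝ, ∀ (r : ℕ) (A : Set X) (φ : Fin r → Lp ℂ 2 μ), MeasurableSet[W] A →
      (∀ i, φ i ∈ V0) →
      (∀ i j, μ[fun x => φ i x * conj (φ j x) | W] =ᵐ[μ] if i = j then ind A else 0) →
      ∑ i, ‖U k (φ i)‖ ^ 2 ≤ C * μ.real A) :
    ∃ (φ : Lp ℂ 2 μ) (A : Set X), φ ∈ V0 ∧ MeasurableSet[W] A ∧ μ A ≠ 0 ∧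
      μ[fun x => φ x * conj (φ x) | W] =ᵐ[μ] ind A ∧
      ∀ k, ∃ (b : X → ℂ) (C : ℝ), Bd μ C b ∧ AEStronglyMeasurable[W] b μ ∧
        U k φ = mulOp μ b φ := by
  have : CompleteSpace V0 := hcl.completeSpace_coe
  set P := V0.starProjection with hP
  have hPm : ∀ v, P v ∈ V0 := V0.starProjection_apply_mem
  have hPv : ∀ v ∈ V0, P v = v := fun v hv => Submodule.starProjection_eq_self_iff.2 hv
  have hPs : ∀ u v, ⟪P u, v⟫_ℂ = ⟪u, P v⟫_ℂ := V0.inner_starProjection_left_eq_right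
  have hPw : ∀ w C, Bd μ C w → AEStronglyMeasurable[W] w μ → ∀ v,
      P (mulOp μ w v) = mulOp μ w (P v) := fun w C b1 b2 v => by
    rw [← mul_apply_eq_comp, ← (eiga_proj (mulOp_adj b1) (hmul w C b1 b2)
      (hmul _ C b1.star (tw_aesm_conj b2))).eq, mul_apply_eq_comp]
  let G : Set (Lp ℂ 2 μ →L[ℂ] Lp ℂ 2 μ) := {T | (∃ k, T = U k * P) ∨
    ∃ w C, Bd μ C w ∧ AEStronglyMeasurable[W] w μ ∧ T = mulOp μ w}
  have hG : ∀ w C, Bd μ C w → AEStronglyMeasurable[W] w μ → mulOp μ w ∈ G :=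
    fun w C b1 b2 => Or.inr ⟨w, C, b1, b2, rfl⟩
  have hUw : ∀ k w C, Bd μ C w → AEStronglyMeasurable[W] w μ → Commute (U k * P) (mulOp μ w) :=
    fun k w C b1 b2 => ContinuousLinearMap.ext fun v => by
      simp only [mul_apply_eq_comp]
      rw [hPw w C b1 b2, hlin k w C b1 b2 _ (hPm v)]
  have hc : ∀ T ∈ G, ∀ T' ∈ G, Commute T T' := by
    rintro _ (⟨k, rfl⟩ | ⟨w, C, b1, b2, rfl⟩) _ (⟨k', rfl⟩ | ⟨w', C', b3, b4, rfl⟩)
    · refine ContinuousLinearMap.ext fun v => ?_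
      simp only [mul_apply_eq_comp]
      rw [hPv _ (hinv _ _ (hPm v)), hPv _ (hinv _ _ (hPm v)), hcomm k k' _ (hPm v)]
    · exact hUw k w' C' b3 b4
    · exact (hUw k' w C b1 b2).symm
    · exact mulOp_comm b1 b3
  have hs : ∀ T ∈ G, star T ∈ G := by
    rintro _ (⟨k, rfl⟩ | ⟨w, C, b1, b2, rfl⟩)
    · obtain ⟨k', hk⟩ := hstar k
      refine Or.inl ⟨k', ?_⟩
      rw [ContinuousLinearMap.star_eq_adjoint, eq_comm, ContinuousLinearMap.eq_adjoint_iff]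
      intro x y
      simp only [mul_apply_eq_comp]
      rw [← hPv _ (hinv k' _ (hPm x)), hPs, ← inner_conj_symm, ← hk _ (hPm y) _ (hPm x),
        inner_conj_symm, hPs, hPv _ (hinv k _ (hPm y))]
    · refine Or.inr ⟨_, C, b1.star, tw_aesm_conj b2, ?_⟩
      rw [ContinuousLinearMap.star_eq_adjoint, eq_comm, ContinuousLinearMap.eq_adjoint_iff]
      intro x y
      simpa only [Complex.conj_conj] using mulOp_adj b1.star x y
  have hI : Inv G V0 := by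
    refine ⟨hcl, ?_⟩
    rintro _ (⟨k, rfl⟩ | ⟨w, C, b1, b2, rfl⟩) v hv
    · exact hinv k _ (hPm v)
    · exact hmul w C b1 b2 v hv
  obtain ⟨v, hv, h0⟩ := Submodule.exists_mem_ne_zero_of_ne_bot hne
  obtain ⟨k, hk⟩ : ∃ k, U k v ≠ 0 := by
    by_contra hn
    push Not at hn
    exact h0 (hker v hv hn)
  obtain ⟨C, hC⟩ := hbes k
  have hT : U k * P ∈ G := Or.inl ⟨k, rfl⟩
  set T := U k * P with hTd
  have hTv : ∀ v ∈ V0, T v = U k v := fun v hv => by rw [hTd, mul_apply_eq_comp, hPv v hv]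
  have p1 := norm_pos_iff.2 h0
  have p2 := norm_pos_iff.2 hk
  set t : ℝ := ‖U k v‖ ^ 2 / (2 * ‖v‖ ^ 2) with ht
  have ht0 : 0 < t := by positivity
  set B := star T * T - (t : ℂ) • 1 with hB
  have hBs : IsSelfAdjoint B := (IsSelfAdjoint.star_mul_self T).sub (by
    simp [IsSelfAdjoint])
  have hBi : ∀ x, (⟪B x, x⟫_ℂ).re = ‖T x‖ ^ 2 - t * ‖x‖ ^ 2 := fun x => by
    rw [hB, sub_apply, inner_sub_left, mul_apply_eq_comp, ContinuousLinearMap.star_eq_adjoint,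
      ContinuousLinearMap.adjoint_inner_left, smul_apply, one_apply_eq_self, inner_smul_left,
      inner_self_eq_norm_sq_to_K, inner_self_eq_norm_sq_to_K, Complex.conj_ofReal]
    simp [← Complex.ofReal_pow]
  have hBc : ∀ S ∈ G, Commute B S := fun S hS =>
    ((hc _ (hs T hT) S hS).mul_left (hc T hT S hS)).sub_left ((Commute.one_left S).smul_left _)
  have hBV : ∀ x ∈ V0, B x ∈ V0 := fun x hx =>
    V0.sub_mem (hI.2 _ (hs T hT) _ (hI.2 T hT x hx)) (V0.smul_mem _ hx)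
  have l1 := posV_le hBs hcl hBV
  have n1 : posV B V0 ≠ ⊥ := fun e => by
    have k1 := posV_mem B hv
    rw [e, Submodule.mem_bot] at k1
    have k2 := hBi v
    rw [eiga_sub hBs, k1, zero_sub, inner_neg_left, Complex.neg_re, hTv v hv, ht] at k2
    have k3 := eiga_re_nonneg (-B) v
    have k4 : ‖U k v‖ ^ 2 / (2 * ‖v‖ ^ 2) * ‖v‖ ^ 2 = ‖U k v‖ ^ 2 / 2 := by field_simp
    nlinarith [pow_pos p2 2]
  obtain ⟨r, hr⟩ := exists_nat_gt (C / t)
  have n2 : ¬Rk W μ (posV B V0) r := by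
    rintro ⟨A, φ, a1, a2, a3, a4⟩
    have k0 : 0 < μ.real A := ENNReal.toReal_pos a2 (measure_ne_top _ _)
    have k1 : ∀ i, t * μ.real A ≤ ‖U k (φ i)‖ ^ 2 := fun i => by
      have k2 := posV_re hBs (a3 i)
      have k3 := a4 i i
      rw [if_pos rfl] at k3
      have k4 : ((‖φ i‖ ^ 2 : ℝ) : ℂ) = (μ.real A : ℂ) := by
        have k5 := inner_self_eq_norm_sq_to_K (𝕜 := ℂ) (φ i)
        rw [eiga_inner, ← integral_condExp hW, integral_congr_ae k3, ind,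
          integral_indicator_const _ (hW A a1)] at k5
        simpa using k5.symm
      rw [hBi, hTv _ (l1 (a3 i)), Complex.ofReal_injective k4] at k2
      linarith
    have k5 := (Finset.sum_le_sum fun i _ => k1 i).trans (hC r A φ a1 (fun i => l1 (a3 i)) a4)
    rw [Finset.sum_const, Finset.card_univ, Fintype.card_fin, nsmul_eq_mul, ← mul_assoc] at k5
    rw [div_lt_iff₀ ht0] at hr
    exact absurd (le_of_mul_le_mul_right k5 k0) (not_le.2 hr)
  obtain ⟨φ, A, a1, a2, a3, a4, a5⟩ := eig_main hW hG hc hs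
    ⟨posV_closed _ _, fun S hS => posV_inv (hBc S hS) (hI.2 S hS)⟩ n1 n2
  refine ⟨φ, A, l1 a1, a2, a3, a4, fun k => ?_⟩
  obtain ⟨b, C, b1, b2, b3⟩ := a5 _ (Or.inl ⟨k, rfl⟩)
  rw [mul_apply_eq_comp, hPv _ (l1 a1)] at b3
  exact ⟨b, C, b1, b2, b3⟩

end Pool.Agent.Lib.MP_1db5af_an.Th
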