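import Pool.Agent.Lib.MP_1db5af_an.TwMain
import Pool.Agent.Lib.MP_1db5af_an.Th.Defs

set_option autoImplicit false

namespace Pool.Agent.Lib.MP_1db5af_an.Th

open MeasureTheory Filter Topology ComplexConjugate InnerProductSpace

section Abs

variable {H : Type*} [NormedAddCommGroup H] [InnerProductSpace ℂ H] [CompleteSpace H]

/-- The positive part of an operator. -/
noncomputable def posOp (B : H →L[ℂ] H) : H →L[ℂ] H := B⁺

theorem eiga_nonneg (B : H →L[ℂ] H) : 0 ≤ posOp B := CFC.posPart_nonneg B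

theorem eiga_sa (B : H →L[ℂ] H) : IsSelfAdjoint (posOp B) := (eiga_nonneg B).isSelfAdjoint

theorem eiga_re_nonneg (B : H →L[ℂ] H) (x : H) : 0 ≤ (⟪posOp B x, x⟫_ℂ).re :=
  ((ContinuousLinearMap.nonneg_iff_isPositive _).1 (eiga_nonneg B)).re_inner_nonneg_left x

theorem eiga_comm {B T : H →L[ℂ] H} (h : Commute B T) : Commute (posOp B) T := by
  rw [posOp, CFC.posPart_def]
  exact h.cfcₙ_real _

theorem eiga_sub {B : H →L[ℂ] H} (hB : IsSelfAdjoint B) (x : H) :
    B x = posOp B x - posOp (-B) x := by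
  rw [posOp, posOp, CFC.posPart_neg, ← sub_apply, CFC.posPart_sub_negPart B hB]

theorem eiga_mul (B : H →L[ℂ] H) (x : H) : posOp (-B) (posOp B x) = 0 := by
  rw [posOp, posOp, CFC.posPart_neg, ← mul_apply_eq_comp, CFC.negPart_mul_posPart]
  rfl

theorem eiga_zero {P : H →L[ℂ] H} (hP : 0 ≤ P) {x : H} (h : (⟪P x, x⟫_ℂ).re ≤ 0) : P x = 0 := by
  have h1 : CFC.sqrt P * CFC.sqrt P = P := CFC.sqrt_mul_sqrt_self P hP
  have h2 : IsSelfAdjoint (CFC.sqrt P) := (CFC.sqrt_nonneg P).isSelfAdjoint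
  have h3 : ⟪P x, x⟫_ℂ = ⟪CFC.sqrt P x, CFC.sqrt P x⟫_ℂ := by
    conv_lhs => rw [← h1]
    rw [mul_apply_eq_comp]
    exact h2.isSymmetric _ _
  rw [h3, inner_self_eq_norm_sq_to_K] at h
  have h4 : ‖CFC.sqrt P x‖ ^ 2 ≤ 0 := by
    norm_cast at h
  have h5 : CFC.sqrt P x = 0 := by
    rw [← norm_eq_zero]
    exact pow_eq_zero_iff (two_ne_zero) |>.1 (le_antisymm h4 (sq_nonneg _))
  rw [← h1, mul_apply_eq_comp, h5, map_zero]

omit [CompleteSpace H] in
theorem eiga_proj {V : Submodule ℂ H} [V.HasOrthogonalProjection] {T T' : H →L[ℂ] H}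
    (h : ∀ x y, ⟪T x, y⟫_ℂ = ⟪x, T' y⟫_ℂ) (h1 : ∀ v ∈ V, T v ∈ V) (h2 : ∀ v ∈ V, T' v ∈ V) :
    Commute T V.starProjection := by
  ext x
  rw [mul_apply_eq_comp, mul_apply_eq_comp]
  refine (Submodule.eq_starProjection_of_mem_of_inner_eq_zero
    (h1 _ (V.starProjection_apply_mem x)) fun w hw => ?_).symm
  rw [← map_sub, h]
  exact Submodule.starProjection_inner_eq_zero x _ (h2 w hw)

/-- The closure of the image of `V` under the positive part. -/
noncomputable def posV (B : H →L[ℂ] H) (V : Submodule ℂ H) : Submodule ℂ H :=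
  (V.map (posOp B).toLinearMap).topologicalClosure

theorem posV_closed (B : H →L[ℂ] H) (V : Submodule ℂ H) : IsClosed (posV B V : Set H) :=
  Submodule.isClosed_topologicalClosure _

theorem posV_mem (B : H →L[ℂ] H) {V : Submodule ℂ H} {v : H} (hv : v ∈ V) :
    posOp B v ∈ posV B V :=
  Submodule.le_topologicalClosure _ ⟨v, hv, rfl⟩

theorem posV_ind (B : H →L[ℂ] H) {V : Submodule ℂ H} {p : H → Prop} (hp : IsClosed {x | p x})
    (h : ∀ v ∈ V, p (posOp B v)) {x : H} (hx : x ∈ posV B V) : p x := by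
  refine closure_minimal (t := {x | p x}) ?_ hp hx
  rintro _ ⟨v, hv, rfl⟩
  exact h v hv

theorem posV_le {B : H →L[ℂ] H} (hB : IsSelfAdjoint B) {V : Submodule ℂ H}
    (hV : IsClosed (V : Set H)) (h : ∀ v ∈ V, B v ∈ V) : posV B V ≤ V := by
  have : CompleteSpace V := hV.completeSpace_coe
  have h1 : Commute (posOp B) V.starProjection :=
    eiga_comm (eiga_proj (fun x y => hB.isSymmetric x y) h h)
  refine fun x hx => posV_ind B hV (fun v hv => ?_) hx
  have h2 := congrArg (fun T : H →L[ℂ] H => T v) h1.eq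
  simp only [mul_apply_eq_comp, Submodule.starProjection_eq_self_iff.2 hv] at h2
  rw [h2]
  exact V.starProjection_apply_mem _

theorem posV_inv {B T : H →L[ℂ] H} (hT : Commute B T) {V : Submodule ℂ H}
    (h : ∀ v ∈ V, T v ∈ V) : ∀ x ∈ posV B V, T x ∈ posV B V := by
  refine fun x hx => posV_ind B (p := fun x => T x ∈ posV B V)
    ((posV_closed B V).preimage T.continuous) (fun v hv => ?_) hx
  have h2 := congrArg (fun T : H →L[ℂ] H => T v) (eiga_comm hT).eq
  simp only [mul_apply_eq_comp] at h2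
  rw [← h2]
  exact posV_mem B (h v hv)

theorem posV_neg (B : H →L[ℂ] H) {V : Submodule ℂ H} {x : H} (hx : x ∈ posV B V) :
    posOp (-B) x = 0 :=
  posV_ind B (p := fun x => posOp (-B) x = 0)
    (isClosed_eq (posOp (-B)).continuous continuous_const)
    (fun v _ => eiga_mul B v) hx

theorem posV_re {B : H →L[ℂ] H} (hB : IsSelfAdjoint B) {V : Submodule ℂ H} {x : H}
    (hx : x ∈ posV B V) : 0 ≤ (⟪B x, x⟫_ℂ).re := by
  rw [eiga_sub hB, posV_neg B hx, sub_zero]
  exact eiga_re_nonneg B x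

theorem posV_orth (B : H →L[ℂ] H) {V V' : Submodule ℂ H} {x y : H} (hx : x ∈ posV B V)
    (hy : y ∈ posV (-B) V') : ⟪y, x⟫_ℂ = 0 := by
  refine posV_ind (-B) (p := fun y => ⟪y, x⟫_ℂ = 0)
    (isClosed_eq (by fun_prop) continuous_const) (fun v _ => ?_) hy
  have := (eiga_sa (-B)).isSymmetric v x
  simp only [ContinuousLinearMap.coe_coe] at this
  rw [this, posV_neg B hx, inner_zero_right]

end Abs

variable {X : Type*} {W : MeasurableSpace X} [m0 : MeasurableSpace X] {μ : Measure X}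
  {C D : ℝ} {w w' : X → ℂ}

open Classical in
/-- Multiplication by a bounded function. -/
noncomputable def mulOp (μ : Measure X) (w : X → ℂ) : Lp ℂ 2 μ →L[ℂ] Lp ℂ 2 μ :=
  if h : ∃ C, Bd μ C w then
    LinearMap.mkContinuous
      { toFun := fun v => L2 μ fun x => w x * v x
        map_add' := fun v v' => by
          rw [← L2_add (h.choose_spec.memLp_mul (Lp.memLp v))
            (h.choose_spec.memLp_mul (Lp.memLp v'))]
          refine L2_congr ?_
          filter_upwards [Lp.coeFn_add v v'] with x hx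
          rw [hx, Pi.add_apply, mul_add]
        map_smul' := fun c v => by
          rw [RingHom.id_apply, ← L2_mul c (h.choose_spec.memLp_mul (Lp.memLp v))]
          refine L2_congr ?_
          filter_upwards [Lp.coeFn_smul c v] with x hx
          rw [hx, Pi.smul_apply, smul_eq_mul, mul_left_comm] } h.choose
      fun v => by
        have := h.choose_spec.norm_L2_mul (Lp.memLp v)
        rwa [L2_Lp] at this
  else 0

theorem mulOp_apply (h : Bd μ C w) (v : Lp ℂ 2 μ) : mulOp μ w v = L2 μ fun x => w x * v x := by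
  rw [mulOp, dif_pos ⟨C, h⟩]
  rfl

theorem mulOp_coe (h : Bd μ C w) (v : Lp ℂ 2 μ) : mulOp μ w v =ᵐ[μ] fun x => w x * v x := by
  rw [mulOp_apply h]
  exact L2_coe (h.memLp_mul (Lp.memLp v))

theorem mulOp_L2 (h : Bd μ C w) {φ : X → ℂ} (hφ : MemLp φ 2 μ) :
    mulOp μ w (L2 μ φ) = L2 μ fun x => w x * φ x := by
  rw [mulOp_apply h]
  refine L2_congr ?_
  filter_upwards [L2_coe hφ] with x hx
  rw [hx]

theorem mulOp_mul (h : Bd μ C w) (h' : Bd μ D w') (v : Lp ℂ 2 μ) :
    mulOp μ w (mulOp μ w' v) = mulOp μ (fun x => w x * w' x) v := by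
  rw [mulOp_apply h', mulOp_L2 h (h'.memLp_mul (Lp.memLp v)), mulOp_apply (h.mul h')]
  simp only [mul_assoc]

theorem mulOp_comm (h : Bd μ C w) (h' : Bd μ D w') : Commute (mulOp μ w) (mulOp μ w') := by
  ext1 v
  rw [mul_apply_eq_comp, mul_apply_eq_comp, mulOp_mul h h',
    mulOp_mul h' h]
  simp only [mul_comm]

theorem eiga_inner (u v : Lp ℂ 2 μ) : ⟪u, v⟫_ℂ = ∫ x, v x * conj (u x) ∂μ := by
  rw [← inner_L2 (Lp.memLp u) (Lp.memLp v), L2_Lp, L2_Lp]

theorem mulOp_inner (h : Bd μ C w) (u v : Lp ℂ 2 μ) :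
    ⟪u, mulOp μ w v⟫_ℂ = ∫ x, w x * (v x * conj (u x)) ∂μ := by
  rw [eiga_inner]
  refine integral_congr_ae ?_
  filter_upwards [mulOp_coe h v] with x hx
  rw [hx, mul_assoc]

theorem mulOp_adj (h : Bd μ C w) (u v : Lp ℂ 2 μ) :
    ⟪mulOp μ w u, v⟫_ℂ = ⟪u, mulOp μ (fun x => conj (w x)) v⟫_ℂ := by
  rw [mulOp_inner h.star, eiga_inner]
  refine integral_congr_ae ?_
  filter_upwards [mulOp_coe h u] with x hx
  rw [hx, map_mul]
  ring

theorem eiga_int (u v : Lp ℂ 2 μ) : Integrable (fun x => u x * conj (v x)) μ := by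
  have h1 : MemLp (fun x => conj (v x)) 2 μ := (Lp.memLp v).star
  exact MemLp.integrable_mul (Lp.memLp u) h1

end Pool.Agent.Lib.MP_1db5af_an.Th
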