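import Pool.Agent.Lib.MP_1db5af_an.Th.XUc
import Pool.Agent.Lib.MP_1db5af_an.Th.XBes
import Pool.Agent.Lib.MP_1db5af_an.Th.XEe
import Pool.Agent.Lib.MP_1db5af_an.Th.XEig

set_option autoImplicit false

namespace Pool.Agent.Lib.MP_1db5af_an.Th

open MeasureTheory ProbabilityTheory Filter Topology ComplexConjugate Finset
open scoped ENNReal NNReal InnerProductSpace

variable {Z : CS} {W M Og Oh : Fc Z} {g g' h h' sw pm : Z.X → Z.X}
variable {ι : Type} [Fintype ι] [DecidableEq ι] {u : ι → ℕ → ℤ} {U : Ultrafilter ℕ}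

theorem hh_span (H : Hyp u U) (hC : Cube W M Og Oh g g' h h' sw pm) (a : ι) :
    HH u W M a ≤ ES W M Og g := by
  set S0 : Set (Lp ℂ 2 Z.μ) := {v | v ∈ HH u W M a ∧ ∃ w φ, BM W w ∧ EE M Og g φ ∧
    v = L2 Z.μ fun y => w y * φ y} with hS0
  set V0 := HH u W M a ⊓ (Submodule.span ℂ S0)ᗮ with hV0
  have hm : ∀ v, v ∈ V0 ↔ v ∈ HH u W M a ∧ ∀ s ∈ S0, ⟪s, v⟫_ℂ = 0 := fun v => by
    rw [hV0, Submodule.mem_inf, Submodule.mem_orthogonal]
    refine and_congr_right fun _ => ⟨fun h s hs => h s (Submodule.subset_span hs), fun h s hs => ?_⟩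
    induction hs using Submodule.span_induction with
    | mem x hx => exact h x hx
    | zero => exact inner_zero_left _
    | add x y _ _ h1 h2 => rw [inner_add_left, h1, h2, add_zero]
    | smul c x _ h1 => rw [inner_smul_left, h1, mul_zero]
  have hL : ∀ v ∈ HH u W M a, v ∈ LM M := fun v hv => (mem_HH.1 hv).1
  have h0 : V0 = ⊥ := by
    by_contra hne
    obtain ⟨v, A, a1, a2, a3, a4, a5⟩ := eig (μ := Z.μ) W.le (V0 := V0)
      (HH_closed.inter (Submodule.isClosed_orthogonal _)) hne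
      (fun w C b1 b2 v hv => (hm _).2 ⟨HH_mul hC.leM ⟨⟨C, b1⟩, b2⟩ ((hm v).1 hv).1, by
        rintro s ⟨k1, w', φ, k2, k3, rfl⟩
        have k4 : BM W fun y => conj (w y) := BM.star ⟨⟨C, b1⟩, b2⟩
        have k5 := mulOp_adj b1.star (L2 Z.μ fun y => w' y * φ y) v
        simp only [Complex.conj_conj] at k5
        rw [← k5]
        refine ((hm v).1 hv).2 _ ⟨HH_mul hC.leM k4 k1, _, φ, k4.mul k2, k3, ?_⟩
        rw [mulOp_L2 b1.star (k2.top.mul k3.1.top).memLp]
        simp only [mul_assoc]⟩)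
      (κ := {k // BM Og k}) (fun k => Uop M hC.ag.hom k.1)
      (fun k v hv => (hm _).2 ⟨uop_hh hC k.2 ((hm v).1 hv).1, by
        rintro s ⟨k1, w', φ, k2, k3, rfl⟩
        obtain ⟨w'', k4, k5⟩ := EE.uop hC k3 k2 (uop_bm_sw hC k.2)
        rw [← inner_conj_symm, uop_adj hC k.2 (hL _ ((hm v).1 hv).1) (hL _ k1), inner_conj_symm]
        exact ((hm v).1 hv).2 _ ⟨uop_hh hC (uop_bm_sw hC k.2) k1, _, φ, k4, k3, k5⟩⟩)
      (fun k => ⟨⟨_, uop_bm_sw hC k.2⟩, fun v hv v' hv' =>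
        uop_adj hC k.2 (hL _ ((hm v).1 hv).1) (hL _ ((hm v').1 hv').1)⟩)
      (fun k k' v hv => uop_comm H hC k.2 k'.2 ((hm v).1 hv).1)
      (fun k w C b1 b2 v _ => uop_lin hC k.2 ⟨⟨C, b1⟩, b2⟩ v)
      (fun v hv hk => uop_ker hC (hL _ ((hm v).1 hv).1) fun k k1 => hk ⟨k, k1⟩)
      (fun k => ⟨k.2.1.choose ^ 2, fun r A φ hA h1 h2 => uop_bessel hC k.2.1.choose_spec k.2.2 hA
        (fun i => hL _ ((hm _).1 (h1 i)).1) h2⟩)
    obtain ⟨φ, b1, b2⟩ := EE.of_eig hC (hL _ ((hm v).1 a1).1) a2 a4 fun k hk => a5 ⟨k, hk⟩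
    have b3 : v ∈ S0 := ⟨((hm v).1 a1).1, ind A, φ, bm_ind a2, b1, by
      rw [← L2_congr b2, L2_Lp]⟩
    have b4 : v = 0 := inner_self_eq_zero.1 (((hm v).1 a1).2 v b3)
    have b5 : (fun x => v x * conj (v x)) =ᵐ[Z.μ] 0 := by
      filter_upwards [Lp.coeFn_zero ℂ 2 Z.μ] with x hx
      rw [b4, hx]
      simp
    have b6 := (a4.symm.trans (condExp_congr_ae b5)).trans (EventuallyEq.of_eq condExp_zero)
    refine a3 (measure_eq_zero_iff_ae_notMem.2 ?_)
    filter_upwards [b6] with x hx hxA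
    rw [ind_mem hxA] at hx
    exact one_ne_zero hx
  intro v hv
  set K := (Submodule.span ℂ S0).topologicalClosure with hK
  have hKH : K ≤ HH u W M a := Submodule.topologicalClosure_minimal _
    (Submodule.span_le.2 fun s hs => hs.1) HH_closed
  have hKE : K ≤ ES W M Og g :=
    Submodule.topologicalClosure_mono (Submodule.span_mono fun s hs => hs.2)
  have h1 : v - K.starProjection v ∈ V0 := (hm _).2
    ⟨Submodule.sub_mem _ hv (hKH (K.starProjection_apply_mem v)), fun s hs =>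
      Submodule.inner_right_of_mem_orthogonal
        (Submodule.le_topologicalClosure _ (Submodule.subset_span hs))
        (K.sub_starProjection_mem_orthogonal v)⟩
  rw [h0, Submodule.mem_bot, sub_eq_zero] at h1
  rw [h1]
  exact hKE (K.starProjection_apply_mem v)

end Pool.Agent.Lib.MP_1db5af_an.Th
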