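import Pool.Agent.Lib.MP_1db5af_an.Th.XAut
import Pool.Agent.Lib.MP_1db5af_an.Th.XKil

set_option autoImplicit false

namespace Pool.Agent.Lib.MP_1db5af_an.Th

open MeasureTheory ProbabilityTheory Filter Topology ComplexConjugate Finset
open scoped ENNReal NNReal InnerProductSpace

variable {Z : CS} {W M Og Oh : Fc Z} {g g' h h' sw pm : Z.X → Z.X}
variable {ι : Type} [Fintype ι] [DecidableEq ι] {u : ι → ℕ → ℤ} {a : ι}
  {k w : Z.X → ℂ} {v v' : Lp ℂ 2 Z.μ}

theorem xu_mem (hg : Hom Z Z g) (v : Lp ℂ 2 Z.μ) : MemLp (fun y => v (g y)) 2 Z.μ :=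
  (Lp.memLp v).comp_measurePreserving hg.mp

theorem xu_mem2 (hg : Hom Z Z g) {O : Fc Z} (hk : BM O k) (v : Lp ℂ 2 Z.μ) :
    MemLp (fun y => k y * v (g y)) 2 Z.μ :=
  hk.1.choose_spec.memLp_mul (xu_mem hg v)

theorem xu_kp (hg : Hom Z Z g) (v : Lp ℂ 2 Z.μ) : Kp hg.mp v = L2 Z.μ fun y => v (g y) := by
  rw [← Kp_L2 hg.mp (Lp.memLp v), L2_Lp]

theorem xu_el (hg : Hom Z Z g) {O : Fc Z} (hk : BM O k) (v : Lp ℂ 2 Z.μ) :
    Uop M hg k v = EL M (L2 Z.μ fun y => k y * v (g y)) := by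
  rw [← mulOp_L2 hk.1.choose_spec (xu_mem hg v), ← xu_kp hg]
  rfl

theorem xu_int (hg : Hom Z Z g) {F : Z.X → ℂ} (hF : AEStronglyMeasurable F Z.μ) :
    ∫ y, F (g y) ∂Z.μ = ∫ y, F y ∂Z.μ := integral_iter hg.mp hF 1

theorem uop_eq (hg : Hom Z Z g) {O : Fc Z} (hk : BM O k) (v : Lp ℂ 2 Z.μ) :
    Uop M hg k v = L2 Z.μ (M.E fun y => k y * v (g y)) := by
  rw [xu_el hg hk, EL_L2 (xu_mem2 hg hk v)]

theorem uop_coe (hg : Hom Z Z g) {O : Fc Z} (hk : BM O k) (v : Lp ℂ 2 Z.μ) :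
    Uop M hg k v =ᵐ[Z.μ] M.E fun y => k y * v (g y) := by
  rw [xu_el hg hk]
  exact (EL_coe _).trans (E_congr (L2_coe (xu_mem2 hg hk v)))

theorem uop_mem (hg : Hom Z Z g) (k : Z.X → ℂ) (v : Lp ℂ 2 Z.μ) : Uop M hg k v ∈ LM M :=
  EL_mem _

theorem uop_inner (hg : Hom Z Z g) {O : Fc Z} (hk : BM O k) (hv' : v' ∈ LM M) (v : Lp ℂ 2 Z.μ) :
    ⟪v', Uop M hg k v⟫_ℂ = ∫ y, k y * v (g y) * conj (v' y) ∂Z.μ := by
  rw [xu_el hg hk, EL_inner hv', eiga_inner]
  exact integral_congr_ae ((L2_coe (xu_mem2 hg hk v)).mul EventuallyEq.rfl)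

theorem uop_bm_sw (hC : Cube W M Og Oh g g' h h' sw pm) (hk : BM Og k) :
    BM Og fun y => conj (k (sw y)) :=
  (hC.asw.pres k hk).star

/-- Substitute `g'` (it fixes `k`), then `sw` (it fixes `v`, `v'`; `swg`). -/
theorem uop_adj (hC : Cube W M Og Oh g g' h h' sw pm) (hk : BM Og k) (hv : v ∈ LM M)
    (hv' : v' ∈ LM M) : ⟪Uop M hC.ag.hom k v, v'⟫_ℂ =
      ⟪v, Uop M hC.ag.hom (fun y => conj (k (sw y))) v'⟫_ℂ := by
  have m1 := hk.integrable.aestronglyMeasurable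
  have m2 := Lp.aestronglyMeasurable v
  have m3 := Lp.aestronglyMeasurable v'
  have s : ∀ {F : Z.X → ℂ}, AEStronglyMeasurable F Z.μ →
      AEStronglyMeasurable (fun y => conj (F y)) Z.μ := fun hF =>
    Complex.continuous_conj.comp_aestronglyMeasurable hF
  rw [← inner_conj_symm, uop_inner _ hk hv', uop_inner _ (uop_bm_sw hC hk) hv, ← integral_conj]
  refine (xu_int hC.ag.hom' (s ((xu_mem2 hC.ag.hom hk v).1.mul (s m3)))).symm.trans ?_
  have e1 : (fun y => conj (k (g' y) * v (g (g' y)) * conj (v' (g' y)))) =ᵐ[Z.μ]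
      fun y => conj (k y) * v' (g' y) * conj (v y) := by
    filter_upwards [hC.ag.symm.fix k (hk.mono le_sup_left), hC.ag.right] with y h1 h2
    rw [h1, h2, map_mul, map_mul, Complex.conj_conj, mul_right_comm]
  refine (integral_congr_ae e1).trans ((xu_int hC.asw.hom
    (((s m1).mul (xu_mem hC.ag.hom' v').1).mul (s m2))).symm.trans (integral_congr_ae ?_))
  filter_upwards [hC.swg, hC.asw.fix_ae (mem_LM.1 hv),
    hC.ag.hom.mp.quasiMeasurePreserving.ae (hC.asw.fix_ae (mem_LM.1 hv'))] with y h1 h2 h3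
  simp only [Pi.mul_apply, h1, h2, h3]

theorem uop_lin (hC : Cube W M Og Oh g g' h h' sw pm) (hk : BM Og k) (hw : BM W w)
    (v : Lp ℂ 2 Z.μ) :
    Uop M hC.ag.hom k (mulOp Z.μ w v) = mulOp Z.μ w (Uop M hC.ag.hom k v) := by
  have h1 := xu_mem2 hC.ag.hom hk v
  rw [uop_eq _ hk, uop_eq _ hk, mulOp_L2 hw.1.choose_spec (h1.condExp one_le_two)]
  refine L2_congr (EventuallyEq.trans (E_congr ?_)
    (E_mul_L1 (hw.mono hC.leM) (h1.integrable one_le_two)))
  filter_upwards [hC.ag.fix w (hw.mono (hC.leg.trans le_sup_left)),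
    hC.ag.hom.mp.quasiMeasurePreserving.ae (mulOp_coe hw.1.choose_spec v)] with y h2 h3
  rw [h3, h2, mul_left_comm]

/-- `v o g` is measurable for `M v Og` and orthogonal to all products (`ae_zero_of_prod`). -/
theorem uop_ker (hC : Cube W M Og Oh g g' h h' sw pm) (hv : v ∈ LM M)
    (h0 : ∀ k, BM Og k → Uop M hC.ag.hom k v = 0) : v = 0 := by
  have h1 : (fun y => v (g y)) =ᵐ[Z.μ] 0 := by
    refine ae_zero_of_prod (A := M) (B := Og) (xu_mem hC.ag.hom v)
      (hC.ag.pres_ae ((mem_LM.1 hv).mono le_sup_left)) fun p q hp hq => ?_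
    have h2 := uop_inner hC.ag.hom hq (L2_mem_LM hp.star.memLp hp.star.2) v
    rw [h0 q hq, inner_zero_right] at h2
    refine Eq.trans (integral_congr_ae ?_) h2.symm
    filter_upwards [L2_coe hp.star.memLp] with y h3
    rw [h3, Complex.conj_conj]
    ring
  refine (Kp hC.ag.hom.mp).injective ?_
  rw [xu_kp hC.ag.hom, map_zero, L2_congr h1]
  exact L2_zero

theorem xu_split (hC : Cube W M Og Oh g g' h h' sw pm) (hk : BM Og k) (hv : NN u W M a v)
    {f : ι → Z.X → ℂ} (hf : ∀ b ∈ univ.erase a, ∃ p q, BM M p ∧ BM Og q ∧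
      f b = fun x => p x * q x) : Nul fun n => n1 W fun x =>
      k (Z.T (u a n) x) * v (Z.T (u a n) x) * pr Z u (univ.erase a) f n x := by
  have h1 : ∀ b, ∃ p q, BM M p ∧ BM Og q ∧ (b ∈ univ.erase a → f b = fun x => p x * q x) :=
    fun b => (em (b ∈ univ.erase a)).elim
      (fun hb => (hf b hb).imp fun _ => Exists.imp fun _ e => ⟨e.1, e.2.1, fun _ => e.2.2⟩)
      fun hb => ⟨_, _, bm_const 1, bm_const 1, fun e => absurd e hb⟩
  choose p q hp hq e using h1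
  obtain ⟨C, hC1⟩ := hk.1
  obtain ⟨D, hD⟩ := pr_bd (u := u) (J := univ.erase a) fun b _ => (hq b).1
  refine nul_mono (fun n => n1_nonneg _ _) (fun n => ?_) (nul_mul (C * D) (hv.2 p hp))
  have b1 : BM M (pr Z u (univ.erase a) p n) := bm_pr (fun b _ => hp b) n
  have b2 : BM Og fun x => k (Z.T (u a n) x) * pr Z u (univ.erase a) q n x :=
    (hk.shift _).mul (bm_pr (fun b _ => hq b) n)
  have i1 : Integrable (fun x => v (Z.T (u a n) x) * pr Z u (univ.erase a) p n x) Z.μ :=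
    (((Lp.memLp v).comp_measurePreserving (Z.sys.mp _)).integrable one_le_two).mul_bdd
      b1.1.choose_spec.1 b1.1.choose_spec.2
  refine le_of_eq_of_le (n1_congr_E ?_) (n1_mul ((hC1.comp (Z.sys.mp (u a n))).mul (hD n)).condExp
    (b2.E W).2 i1)
  refine EventuallyEq.trans (E_congr (ae_of_all _ fun x => ?_))
    ((hC.E2 i1 ((aesm_shift hv.1 _).mul b1.2) (b2.mono le_sup_left)).trans
      (EventuallyEq.trans (ae_of_all _ fun x => mul_comm _ _) (E_mul_L1 (b2.E W) i1).symm))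
  have h2 : pr Z u (univ.erase a) f n x =
      pr Z u (univ.erase a) p n x * pr Z u (univ.erase a) q n x := by
    rw [pr, pr, pr, ← prod_mul_distrib]
    exact prod_congr rfl fun b hb => by rw [e b hb]
  simp only [h2]
  ring

/-- `E_mid`, `E_shift_L1`, then `cond_fix` for `g'`: the term is
`E_W(S^(u a)(k v) * pr (f o g'))`, `f b o g'` is in `M v Og`; `kil_slots` with `appr_sup` and
`ρ n = S^(u a n)(k v)` reduces to `f b = m b * w b`, where `E2` splits off a bounded factor. -/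
theorem uop_nn (hC : Cube W M Og Oh g g' h h' sw pm) (hk : BM Og k) (hv : NN u W M a v) :
    NN u W M a (Uop M hC.ag.hom k v) := by
  refine ⟨mem_LM.1 (uop_mem _ _ _), fun f hf => kil_congr ?_ (uop_coe _ hk v).symm⟩
  have m1 := hk.1.choose_spec.memLp_mul (Lp.memLp v)
  have b1 : ∀ b, BM (M ⊔ Og) fun y => f b (g' y) := fun b =>
    hC.ag.pres' _ ((hf b).mono le_sup_left)
  have h1 := kil_slots (W := W) (u := u) (ρ := fun n x => k (Z.T (u a n) x) * v (Z.T (u a n) x))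
    (fun n => ⟨m1.comp_measurePreserving (Z.sys.mp _), (norm_L2_comp (Z.sys.mp _) m1).le⟩)
    (univ.erase a) (fun f hf => xu_split hC hk hv fun b hb => (hf b hb).2)
    fun b _ => ⟨(b1 b).1, appr_sup (b1 b)⟩
  refine nul_mono (fun n => n1_nonneg _ _) (fun n => (n1_congr_E ?_).le) h1
  have i1 := (xu_mem2 hC.ag.hom hk v).integrable one_le_two
  have i2 := (Z.sys.mp (u a n)).integrable_comp_of_integrable i1
  have b2 : BM M (pr Z u (univ.erase a) f n) := bm_pr (fun b _ => hf b) n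
  refine (E_congr ((E_shift_L1 M i1 (u a n)).symm.mul EventuallyEq.rfl)).trans
    ((E_mid hC.leM i2 b2).trans ((hC.ag.symm.cond_fix (hC.leg.trans le_sup_left)
      (i2.mul_bdd b2.1.choose_spec.1 b2.1.choose_spec.2)).symm.trans (E_congr ?_)))
  filter_upwards [hC.ag.symm.fix _ ((hk.shift (u a n)).mono le_sup_left), hC.ag.hom'.comm (u a n),
    (Z.sys.mp (u a n)).quasiMeasurePreserving.ae hC.ag.right,
    pr_pb hC.ag.hom' u (univ.erase a) f n] with x h2 h3 h4 h5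
  simp only [Function.comp_apply, h2, h5]
  rw [← h3, h4]

theorem uop_hh (hC : Cube W M Og Oh g g' h h' sw pm) (hk : BM Og k) (hv : v ∈ HH u W M a) :
    Uop M hC.ag.hom k v ∈ HH u W M a := by
  obtain ⟨h1, h2⟩ := mem_HH.1 hv
  refine mem_HH.2 ⟨uop_mem _ _ _, fun n hn => ?_⟩
  rw [inner_eq_zero_symm, uop_adj hC hk h1 (mem_LM.2 hn.1), inner_eq_zero_symm]
  exact h2 _ (uop_nn hC (uop_bm_sw hC hk) hn)

end Pool.Agent.Lib.MP_1db5af_an.Th
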