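import Pool.Agent.Lib.MP_1db5af_an.Th.XU
import Pool.Agent.Lib.MP_1db5af_an.Th.XComB

set_option autoImplicit false

namespace Pool.Agent.Lib.MP_1db5af_an.Th

open MeasureTheory ProbabilityTheory Filter Topology ComplexConjugate Finset
open scoped ENNReal NNReal InnerProductSpace

variable {Z : CS} {W M Og Oh : Fc Z} {g g' h h' sw pm : Z.X → Z.X}
variable {ι : Type} [Fintype ι] [DecidableEq ι] {u : ι → ℕ → ℤ} {U : Ultrafilter ℕ}
  {a : ι} {k k' : Z.X → ℂ} {v : Lp ℂ 2 Z.μ}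

theorem xuc_int {O : Fc Z} {S : Z.X → Z.X} (hS : MeasurePreserving S Z.μ Z.μ) (hk : BM O k)
    (v : Lp ℂ 2 Z.μ) : Integrable (fun y => k y * v (S y)) Z.μ :=
  (hk.1.choose_spec.memLp_mul ((Lp.memLp v).comp_measurePreserving hS)).integrable one_le_two

theorem xuc_nn (H : Hyp u U) (hC : Cube W M Og Oh g g' h h' sw pm)
    (hγ : MeasurePreserving (fun y => g (h (g' (h' y)))) Z.μ Z.μ) (hv : v ∈ LM M) :
    NN u W M a (EL M (Kp hγ v) - v : Lp ℂ 2 Z.μ) := by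
  have hcl : IsClosed {w : Lp ℂ 2 Z.μ | EL M (Kp hγ w) - w ∈
      (Submodule.span ℂ {v : Lp ℂ 2 Z.μ | NN u W M a v}).topologicalClosure} :=
    (Submodule.isClosed_topologicalClosure _).preimage
      (((EL M).continuous.comp (Kp hγ).continuous).sub continuous_id)
  refine nn_closure (hcl.closure_subset (Metric.mem_closure_iff.2 fun ε hε => ?_))
  obtain ⟨f, hf, hd⟩ := exists_bm_L2 (Lp.memLp v) (mem_LM.1 hv) (half_pos hε)
  refine ⟨L2 Z.μ f, Submodule.le_topologicalClosure _ (Submodule.subset_span ?_), ?_⟩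
  · have h1 : BM ⊤ fun y => f (g (h (g' (h' y)))) :=
      bm_top_iff.2 ⟨_, hf.1.choose_spec.comp hγ⟩
    show NN u W M a (EL M (Kp hγ (L2 Z.μ f)) - L2 Z.μ f : Lp ℂ 2 Z.μ)
    rw [Kp_L2 hγ hf.memLp, EL_L2 h1.memLp, ← L2_sub (h1.E M).memLp hf.memLp]
    exact nn_congr (comb H hC a hf) (L2_coe ((h1.E M).sub hf).memLp).symm
  · rw [L2_Lp] at hd
    rw [dist_eq_norm]
    linarith

/-- With `γ` as in `comb`: `v ↦ EL M (Kp γ v) - v` is continuous and sends bounded functions of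
`M` to `NN` (`comb`), so all of `LM M` (`exists_bm_L2`, `nn_closure`). For `v` in `HH` this gives
`<Kp γ v, v> = |v|^2`, so `v o γ = v`; compose with `h o g`. -/
theorem hh_comm (H : Hyp u U) (hC : Cube W M Og Oh g g' h h' sw pm) (hv : v ∈ HH u W M a) :
    (fun y => v (g (h y))) =ᵐ[Z.μ] fun y => v (h (g y)) := by
  have hγ : MeasurePreserving (fun y => g (h (g' (h' y)))) Z.μ Z.μ :=
    hC.ag.hom.mp.comp (hC.ah.hom.mp.comp (hC.ag.hom'.mp.comp hC.ah.hom'.mp))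
  obtain ⟨hm, ho⟩ := mem_HH.1 hv
  have h0 := ho _ (xuc_nn H hC hγ hm)
  rw [inner_eq_zero_symm, inner_sub_right, EL_inner hm, sub_eq_zero] at h0
  have h1 : Kp hγ v = v := by
    refine eq_of_norm_le_re_inner_eq_norm_sq (𝕜 := ℂ) ((Kp hγ).norm_map v).le ?_
    rw [inner_re_symm, h0, inner_self_eq_norm_sq]
  have h2 : (fun y => v (g (h (g' (h' y))))) =ᵐ[Z.μ] v := by
    have e := Kp_L2 hγ (Lp.memLp v)
    rw [L2_Lp, h1] at e
    have e2 := L2_coe ((Lp.memLp v).comp_measurePreserving hγ)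
    exact (e2.symm.trans (by rw [show L2 Z.μ (v ∘ fun y => g (h (g' (h' y)))) = v from e.symm]))
  have hq := (hC.ah.hom.mp.comp hC.ag.hom.mp).quasiMeasurePreserving
  filter_upwards [hq.ae h2, hC.ag.hom.mp.quasiMeasurePreserving.ae hC.ah.left, hC.ag.left]
    with y e1 e2 e3
  simp only [Function.comp_apply] at e1
  rwa [e2, e3] at e1

/-- `cond_fix` for `pm`, `pmg`, and `pm` fixes `v`. -/
theorem uop_pm (hC : Cube W M Og Oh g g' h h' sw pm) (hk : BM Og k) (hv : v ∈ LM M) :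
    Uop M hC.ag.hom k v =ᵐ[Z.μ] M.E fun y => k (pm y) * v (h y) := by
  refine (uop_coe hC.ag.hom hk v).trans ?_
  refine (hC.apm.cond_fix le_rfl (xuc_int hC.ag.hom.mp hk v)).symm.trans (E_congr ?_)
  filter_upwards [hC.pmg,
    hC.ah.hom.mp.quasiMeasurePreserving.ae (hC.apm.fix_ae (mem_LM.1 hv))] with y e1 e2
  rw [e1, e2]

/-- `uop_pm`, `E_Mg`, `Aut.cond` for `g`, `E_mid` with `M <= M v Og`. -/
theorem uop_uop (hC : Cube W M Og Oh g g' h h' sw pm) (hk : BM Og k) (hk' : BM Og k')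
    (hv : v ∈ LM M) : Uop M hC.ag.hom k (Uop M hC.ag.hom k' v) =ᵐ[Z.μ]
      M.E fun y => k y * k' (pm y) * v (h (g y)) := by
  have hp := hC.pmO k' hk'
  have hF := xuc_int hC.ah.hom.mp hp v
  have hm : AEStronglyMeasurable[(M ⊔ Oh).m] (fun y => k' (pm y) * v (h y)) Z.μ :=
    (hp.mono le_sup_right).2.mul
      (hC.ah.pres_ae ((mem_LM.1 hv).mono (le_sup_left : M ≤ M ⊔ Oh)))
  have e1 : (Uop M hC.ag.hom k' v : Z.X → ℂ) =ᵐ[Z.μ] (M ⊔ Og).E fun y => k' (pm y) * v (h y) :=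
    (uop_pm hC hk' hv).trans (hC.E_Mg hF hm).symm
  have e2 := hC.ag.cond hF
  have hG : Integrable (fun y => k' (pm (g y)) * v (h (g y))) Z.μ :=
    hC.ag.hom.mp.integrable_comp_of_integrable hF
  refine (uop_coe hC.ag.hom hk _).trans ?_
  refine EventuallyEq.trans (E_congr ?_)
    ((E_mid (le_sup_left : M ≤ M ⊔ Og) hG (hk.mono le_sup_right)).trans (E_congr ?_))
  · filter_upwards [hC.ag.hom.mp.quasiMeasurePreserving.ae e1, e2] with y a1 a2
    rw [a1, a2, mul_comm]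
  · filter_upwards [hC.ag.fix _ (hp.mono le_sup_right)] with y a1
    rw [a1]
    ring

/-- Apply `cond_fix` for `pm` to `uop_uop` with `k, k'` exchanged (`pmg`, `hpm`), `hh_comm`. -/
theorem uop_comm (H : Hyp u U) (hC : Cube W M Og Oh g g' h h' sw pm) (hk : BM Og k)
    (hk' : BM Og k') (hv : v ∈ HH u W M a) :
    Uop M hC.ag.hom k (Uop M hC.ag.hom k' v) = Uop M hC.ag.hom k' (Uop M hC.ag.hom k v) := by
  have hm := (mem_HH.1 hv).1
  refine Lp.ext ((uop_uop hC hk hk' hm).trans (EventuallyEq.trans ?_ (uop_uop hC hk' hk hm).symm))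
  have hb : BM (Og ⊔ Oh) fun y => k' y * k (pm y) :=
    (hk'.mono le_sup_left).mul ((hC.pmO k hk).mono le_sup_right)
  have hF := xuc_int (hC.ah.hom.mp.comp hC.ag.hom.mp) hb v
  refine EventuallyEq.trans (E_congr ?_) (hC.apm.cond_fix le_rfl hF)
  filter_upwards [hC.pmg, hC.apm.left, hC.ah.hom.mp.quasiMeasurePreserving.ae hC.hpm,
    (hC.ag.hom.mp.comp hC.ah.hom.mp).quasiMeasurePreserving.ae (hC.apm.fix_ae (mem_LM.1 hm)),
    hh_comm H hC hv] with y e1 e2 e3 e4 e5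
  simp only [Function.comp_apply] at e4 ⊢
  rw [e1, e2, e3, e4, e5, mul_comm (k y)]

end Pool.Agent.Lib.MP_1db5af_an.Th
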